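import Pool.Agent.Work.MP_02f065_gt.Cvx.Stmts

/-!
MP_02f065_gt, block CVX, item AVG: the first vector of a random frame is uniformly distributed.
-/

open MeasureTheory Set Filter Topology

noncomputable section

namespace Pool.Agent.Work.MP_02f065_gt.Cvx

open Pool.Agent.Work.MP_02f065_gt.RPn

namespace XAVG

/-- A unit vector orthogonal to a given unit vector. -/
theorem exOrth (Q : ℕ) (hQ : 2 ≤ Q) (x : E (Ix 1 Q)) (hx : ‖x‖ = 1) : ∃ v, ON x v := by
  have hfin : Module.finrank ℝ (E (Ix 1 Q)) = 1 + Q := by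
    rw [finrank_euclideanSpace]
    simp [Ix]
  have h1 : Module.finrank ℝ (Submodule.span ℝ {x}) = 1 := by
    apply finrank_span_singleton
    intro h
    rw [h, norm_zero] at hx
    exact zero_ne_one hx
  have h2 := Submodule.finrank_add_finrank_orthogonal (Submodule.span ℝ {x})
  have h3 : 0 < Module.finrank ℝ (Submodule.span ℝ {x})ᗮ := by omega
  have : Nontrivial (Submodule.span ℝ {x})ᗮ := Module.finrank_pos_iff.mp h3
  obtain ⟨w, hw⟩ := exists_ne (0 : (Submodule.span ℝ {x})ᗮ)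
  have hw0 : (w : E (Ix 1 Q)) ≠ 0 := by
    intro h
    exact hw (Subtype.ext h)
  have hin : inner ℝ x (w : E (Ix 1 Q)) = 0 :=
    Submodule.mem_orthogonal_singleton_iff_inner_right.mp w.2
  refine ⟨‖(w : E (Ix 1 Q))‖⁻¹ • (w : E (Ix 1 Q)), hx, ?_, ?_⟩
  · rw [norm_smul, norm_inv, norm_norm]
    exact inv_mul_cancel₀ (norm_ne_zero_iff.mpr hw0)
  · rw [inner_smul_right, hin, mul_zero]

/-- Joint measurability. -/
theorem meas2 {ι : Type} [Fintype ι] {Ω : Type} [MeasurableSpace Ω]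
    (A : Ω → (E ι →ₗᵢ[ℝ] E ι)) (meas : ∀ x : E ι, Measurable fun ω => A ω x) :
    Measurable fun z : Ω × Metric.sphere (0 : E ι) 1 => A z.1 (z.2 : E ι) := by
  classical
  have key : ∀ z : Ω × Metric.sphere (0 : E ι) 1, A z.1 (z.2 : E ι) =
      ∑ i, (z.2 : E ι) i • A z.1 (EuclideanSpace.single i (1 : ℝ)) := by
    intro z
    have h : (z.2 : E ι) = ∑ i, (z.2 : E ι) i • (EuclideanSpace.single i (1 : ℝ) : E ι) := by
      ext j
      simp [Finset.sum_apply, Pi.single_apply]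
    conv_lhs => rw [h]
    rw [map_sum]
    refine Finset.sum_congr rfl fun i _ => ?_
    rw [map_smul]
  have e : (fun z : Ω × Metric.sphere (0 : E ι) 1 => A z.1 (z.2 : E ι)) =
      fun z => ∑ i, (z.2 : E ι) i • A z.1 (EuclideanSpace.single i (1 : ℝ)) := by
    ext1 z
    exact key z
  rw [e]
  refine Finset.measurable_sum _ fun i _ => ?_
  have hc : Continuous fun y : Metric.sphere (0 : E ι) 1 => (y : E ι) i := by fun_prop
  have h1 : Measurable fun z : Ω × Metric.sphere (0 : E ι) 1 => (z.2 : E ι) i :=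
    hc.measurable.comp measurable_snd
  have h2 : Measurable fun z : Ω × Metric.sphere (0 : E ι) 1 =>
      A z.1 (EuclideanSpace.single i (1 : ℝ)) := (meas _).comp measurable_fst
  exact h1.smul h2

/-- Fubini. -/
theorem core {ι : Type} [Fintype ι] {Ω : Type} [MeasurableSpace Ω] (μ : Measure Ω)
    [IsProbabilityMeasure μ] (A : Ω → (E ι →ₗᵢ[ℝ] E ι))
    (meas : ∀ x : E ι, Measurable fun ω => A ω x) (f : E ι → ℝ)
    (hf : ContinuousOn f (Metric.sphere (0 : E ι) 1))
    (σ : Measure (Metric.sphere (0 : E ι) 1)) [IsFiniteMeasure σ]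
    (hiso : ∀ T : E ι →ₗᵢ[ℝ] E ι, ∫ x : Metric.sphere (0 : E ι) 1, f (T x) ∂σ =
      ∫ x : Metric.sphere (0 : E ι) 1, f x ∂σ) (m : ℝ)
    (hm : ∀ x : E ι, ‖x‖ = 1 → ∫ ω, f (A ω x) ∂μ = m) :
    (∫ _y : Metric.sphere (0 : E ι) 1, (1 : ℝ) ∂σ) * m =
      ∫ y : Metric.sphere (0 : E ι) 1, f y ∂σ := by
  have hmem : ∀ z : Ω × Metric.sphere (0 : E ι) 1,
      A z.1 (z.2 : E ι) ∈ Metric.sphere (0 : E ι) 1 := by
    intro z
    rw [mem_sphere_zero_iff_norm, LinearIsometry.norm_map]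
    exact mem_sphere_zero_iff_norm.mp z.2.2
  have hmeas : Measurable fun z : Ω × Metric.sphere (0 : E ι) 1 => f (A z.1 (z.2 : E ι)) := by
    have hg : Measurable ((Metric.sphere (0 : E ι) 1).domRestrict f) :=
      hf.domRestrict.measurable
    exact hg.comp ((meas2 A meas).subtype_mk (h := hmem))
  obtain ⟨C, hC⟩ := (isCompact_sphere (0 : E ι) 1).exists_bound_of_continuousOn hf
  have hint : Integrable (Function.uncurry fun (ω : Ω) (y : Metric.sphere (0 : E ι) 1) =>
      f (A ω (y : E ι))) (μ.prod σ) :=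
    Integrable.of_bound hmeas.aestronglyMeasurable C (Eventually.of_forall fun z => hC _ (hmem z))
  have hsw := integral_integral_swap hint
  have h1 : ∫ ω, ∫ y : Metric.sphere (0 : E ι) 1, f (A ω (y : E ι)) ∂σ ∂μ =
      ∫ y : Metric.sphere (0 : E ι) 1, f y ∂σ := by
    simp only [hiso, integral_const, probReal_univ, one_smul]
  have h2 : ∫ y : Metric.sphere (0 : E ι) 1, ∫ ω, f (A ω (y : E ι)) ∂μ ∂σ =
      ∫ _y : Metric.sphere (0 : E ι) 1, m ∂σ := by
    refine integral_congr_ae (Eventually.of_forall fun y => ?_)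
    exact hm _ (mem_sphere_zero_iff_norm.mp y.2)
  rw [← h1, hsw, h2, integral_const, integral_const]
  simp

end XAVG

theorem iAVG (hI : StIso) : StAvg := by
  intro Q hQ Fr f hf x hx
  let _ := Fr.ms
  have := Fr.prob
  refine XAVG.core Fr.μ Fr.A Fr.meas f hf _ (fun T => (hI (Ix 1 Q)).1 T f hf) _ ?_
  intro y hy
  obtain ⟨v, hv⟩ := XAVG.exOrth Q hQ x hx
  obtain ⟨w, hw⟩ := XAVG.exOrth Q hQ y hy
  refine Fr.inv (fun z => f z.1) ?_ y w x v hw hv
  refine hf.comp continuousOn_fst ?_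
  intro z hz
  exact mem_sphere_zero_iff_norm.mpr hz.1

end Pool.Agent.Work.MP_02f065_gt.Cvx
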