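import Pool.Agent.Work.MP_02f065_gt.Cvx.Stmts

open MeasureTheory Set Filter Topology

noncomputable section

namespace Pool.Agent.Work.MP_02f065_gt.Cvx

open Pool.Agent.Work.MP_02f065_gt.RPn

namespace XBAS

variable {ι : Type} [Fintype ι]

theorem on_gc {x v : E ι} (h : ON x v) (t : ℝ) : ON (gc x v t) (gd x v t) := by
  obtain ⟨hx, hv, hxv⟩ := h
  have hvx : inner ℝ v x = 0 := by rw [real_inner_comm]; exact hxv
  have hxx : inner ℝ x x = (1 : ℝ) := by rw [real_inner_self_eq_norm_sq, hx]; norm_num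
  have hvv : inner ℝ v v = (1 : ℝ) := by rw [real_inner_self_eq_norm_sq, hv]; norm_num
  have hcs := Real.cos_sq_add_sin_sq t
  have h1 : ‖gc x v t‖ ^ 2 = 1 := by
    rw [← real_inner_self_eq_norm_sq]
    simp only [gc, inner_add_left, inner_add_right, real_inner_smul_left, real_inner_smul_right,
      hxx, hvv, hxv, hvx]
    nlinarith [hcs]
  have h2 : ‖gd x v t‖ ^ 2 = 1 := by
    rw [← real_inner_self_eq_norm_sq]
    simp only [gd, inner_add_left, inner_add_right, real_inner_smul_left, real_inner_smul_right,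
      hxx, hvv, hxv, hvx]
    nlinarith [hcs]
  refine ⟨?_, ?_, ?_⟩
  · have := norm_nonneg (gc x v t)
    nlinarith [h1]
  · have := norm_nonneg (gd x v t)
    nlinarith [h2]
  · simp only [gc, gd, inner_add_left, inner_add_right, real_inner_smul_left,
      real_inner_smul_right, hxx, hvv, hxv, hvx]
    ring

theorem deriv_gc (x v : E ι) (t : ℝ) : HasDerivAt (gc x v) (gd x v t) t := by
  have h1 := (Real.hasDerivAt_cos t).smul_const x
  have h2 := (Real.hasDerivAt_sin t).smul_const v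
  have := h1.add h2
  exact this

theorem gc_ne {x v : E ι} (h : ON x v) (t : ℝ) : gc x v t ≠ 0 := by
  intro h0
  have := (on_gc h t).1
  rw [h0, norm_zero] at this
  exact zero_ne_one this

theorem gc_pi (x v : E ι) (t : ℝ) : gc x v (t + Real.pi) = -gc x v t := by
  simp only [gc, Real.cos_add_pi, Real.sin_add_pi, neg_smul, neg_add]

theorem gd_pi (x v : E ι) (t : ℝ) : gd x v (t + Real.pi) = -gd x v t := by
  simp only [gd, Real.cos_add_pi, Real.sin_add_pi, neg_smul, neg_add, neg_neg]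

variable {N : E ι → ℝ}

theorem diffAt (hN : IsNorm N) {x : E ι} (hx : x ≠ 0) : HasFDerivAt N (fderiv ℝ N x) x := by
  have h1 : ContDiffAt ℝ 1 N x := hN.diff.contDiffAt (isOpen_ne.mem_nhds hx)
  exact (h1.differentiableAt (by norm_num)).hasFDerivAt

theorem even (hN : IsNorm N) (x : E ι) : N (-x) = N x := by
  have := hN.hom (-1) x
  simpa using this

theorem euler (hN : IsNorm N) {x : E ι} (hx : x ≠ 0) : fderiv ℝ N x x = N x := by
  have h1 : HasDerivAt (fun t : ℝ => t • x) x 1 := by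
    simpa using (hasDerivAt_id (1 : ℝ)).smul_const x
  have h2 : HasFDerivAt N (fderiv ℝ N x) ((1 : ℝ) • x) := by
    rw [one_smul]; exact diffAt hN hx
  have h3 : HasDerivAt (fun t : ℝ => N (t • x)) (fderiv ℝ N x x) 1 :=
    h2.comp_hasDerivAt (1 : ℝ) h1
  have h4 : HasDerivAt (fun t : ℝ => t * N x) (N x) 1 := by
    simpa using (hasDerivAt_id (1 : ℝ)).mul_const (N x)
  have h5 : (fun t : ℝ => N (t • x)) =ᶠ[𝓝 1] fun t : ℝ => t * N x := by
    filter_upwards [lt_mem_nhds (show (0 : ℝ) < 1 from one_pos)] with t ht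
    rw [hN.hom, abs_of_pos ht]
  exact h3.unique (h4.congr_of_eventuallyEq h5)

theorem fderiv_neg' (hN : IsNorm N) {x : E ι} (hx : x ≠ 0) :
    fderiv ℝ N (-x) = -fderiv ℝ N x := by
  have h1 : HasFDerivAt (fun y : E ι => -y) (-(ContinuousLinearMap.id ℝ (E ι))) (-x) :=
    (hasFDerivAt_id (-x)).neg
  have h2 : HasFDerivAt N (fderiv ℝ N x) (-(-x)) := by
    rw [neg_neg]; exact diffAt hN hx
  have h3 : HasFDerivAt (fun y : E ι => N (-y))
      ((fderiv ℝ N x).comp (-(ContinuousLinearMap.id ℝ (E ι)))) (-x) :=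
    h2.comp (-x) h1
  have h4 : (fun y : E ι => N (-y)) = N := by
    funext y; exact even hN y
  rw [h4] at h3
  rw [h3.fderiv]
  ext y
  simp

theorem cont_fderiv (hN : IsNorm N) : ContinuousOn (fun x => fderiv ℝ N x) {x | x ≠ 0} :=
  hN.diff.continuousOn_fderiv_of_isOpen isOpen_ne le_rfl

theorem sph_sub : Metric.sphere (0 : E ι) 1 ⊆ {x | x ≠ 0} := by
  intro x hx h0
  simp only [mem_sphere_iff_norm, sub_zero] at hx
  rw [h0, norm_zero] at hx
  exact zero_ne_one hx

theorem cont_gc (x v : E ι) : Continuous (gc x v) := by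
  unfold gc
  fun_prop

theorem cont_gd (x v : E ι) : Continuous (gd x v) := by
  unfold gd
  fun_prop

theorem N_gc_pos (hN : IsNorm N) {x v : E ι} (h : ON x v) (t : ℝ) : 0 < N (gc x v t) :=
  hN.pos _ (gc_ne h t)

theorem cont_N_gc (hN : IsNorm N) {x v : E ι} (h : ON x v) :
    Continuous (fun t => N (gc x v t)) := by
  rw [← continuousOn_univ]
  exact hN.diff.continuousOn.comp (cont_gc x v).continuousOn (fun t _ => gc_ne h t)

theorem cont_D_gc (hN : IsNorm N) {x v : E ι} (h : ON x v) :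
    Continuous (fun t => fderiv ℝ N (gc x v t) (gd x v t)) := by
  have h1 : Continuous (fun t => fderiv ℝ N (gc x v t)) := by
    rw [← continuousOn_univ]
    exact (cont_fderiv hN).comp (cont_gc x v).continuousOn (fun t _ => gc_ne h t)
  exact h1.clm_apply (cont_gd x v)

theorem pos1 {k : ℝ} (hN : IsNorm N) (hI : Inside k N) {x v : E ι} (h : ON x v) (φ ψ : ℝ) :
    0 < 1 + k * q N x v φ ψ ^ 2 := by
  have hp := N_gc_pos hN h φ
  have hk := hI (gc x v φ) (on_gc h φ).1
  have hc := Real.cos_sq_le_one (φ - ψ)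
  unfold q
  rw [div_pow]
  rcases le_or_gt 0 k with h0 | h0
  · have : 0 ≤ k * (Real.cos (φ - ψ) ^ 2 / N (gc x v φ) ^ 2) := by positivity
    linarith
  · have h1 : 1 + k * (Real.cos (φ - ψ) ^ 2 / N (gc x v φ) ^ 2) =
        (N (gc x v φ) ^ 2 + k * Real.cos (φ - ψ) ^ 2) / N (gc x v φ) ^ 2 := by
      field_simp
    rw [h1]
    apply div_pos _ (by positivity)
    nlinarith

theorem hq (hN : IsNorm N) {x v : E ι} (h : ON x v) (φ ψ : ℝ) :
    HasDerivAt (fun t => q N x v t ψ) (dq N x v φ ψ) φ := by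
  have hp := N_gc_pos hN h φ
  have h1 : HasDerivAt (fun t => N (gc x v t)) (fderiv ℝ N (gc x v φ) (gd x v φ)) φ :=
    (diffAt hN (gc_ne h φ)).comp_hasDerivAt φ (deriv_gc x v φ)
  have h2 : HasDerivAt (fun t : ℝ => Real.cos (t - ψ)) (-Real.sin (φ - ψ)) φ := by
    have h3 : HasDerivAt (fun t : ℝ => t - ψ) 1 φ := (hasDerivAt_id φ).sub_const ψ
    simpa using h3.cos
  have h4 : HasDerivAt (fun t => q N x v t ψ)
      ((-Real.sin (φ - ψ) * N (gc x v φ) - Real.cos (φ - ψ) *
        fderiv ℝ N (gc x v φ) (gd x v φ)) / N (gc x v φ) ^ 2) φ := h2.div h1 hp.ne'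
  refine h4.congr_deriv ?_
  unfold dq
  have hn := hp.ne'
  field_simp

theorem hqk {k : ℝ} (hN : IsNorm N) (hI : Inside k N) {x v : E ι} (h : ON x v) (φ ψ : ℝ) :
    HasDerivAt (fun t => qk k N x v t ψ) (dqk k N x v φ ψ) φ := by
  have h1 := hq hN h φ ψ
  have h0 := pos1 hN hI h φ ψ
  have h2 : HasDerivAt (fun t => 1 + k * q N x v t ψ ^ 2)
      (k * (2 * q N x v φ ψ * dq N x v φ ψ)) φ := by
    have := ((h1.pow 2).const_mul k).const_add 1
    simpa [mul_assoc, mul_comm, mul_left_comm] using this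
  have h3 := h2.sqrt h0.ne'
  have hs := Real.sq_sqrt h0.le
  have hsp := Real.sqrt_pos.2 h0
  have h4 : HasDerivAt (fun t => qk k N x v t ψ)
      ((dq N x v φ ψ * Real.sqrt (1 + k * q N x v φ ψ ^ 2) - q N x v φ ψ *
        (k * (2 * q N x v φ ψ * dq N x v φ ψ) / (2 * Real.sqrt (1 + k * q N x v φ ψ ^ 2)))) /
          Real.sqrt (1 + k * q N x v φ ψ ^ 2) ^ 2) φ := h1.div h3 hsp.ne'
  refine h4.congr_deriv ?_
  unfold dqk
  generalize Real.sqrt (1 + k * q N x v φ ψ ^ 2) = s at hs hsp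
  have hsn : s ≠ 0 := hsp.ne'
  have h6 : k * q N x v φ ψ ^ 2 = s ^ 2 - 1 := by linarith
  field_simp
  linear_combination (-dq N x v φ ψ) * h6

theorem all : StBas := by
  intro ι _ N k hN hI
  refine ⟨fun x v h t => ⟨on_gc h t, deriv_gc x v t⟩,
    fun x hx => ⟨diffAt hN hx, euler hN hx, even hN x, fderiv_neg' hN hx⟩,
    hN.diff.continuousOn.mono sph_sub, (cont_fderiv hN).mono sph_sub, ?_, ?_⟩
  · intro x v h φ ψ
    have e1 : q N x v (φ + Real.pi) ψ = -q N x v φ ψ := by
      unfold q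
      rw [gc_pi, even hN, show φ + Real.pi - ψ = (φ - ψ) + Real.pi by ring, Real.cos_add_pi,
        neg_div]
    have e2 : dq N x v (φ + Real.pi) ψ = -dq N x v φ ψ := by
      unfold dq
      rw [gc_pi, gd_pi, even hN, fderiv_neg' hN (gc_ne h φ),
        show φ + Real.pi - ψ = (φ - ψ) + Real.pi by ring, Real.cos_add_pi, Real.sin_add_pi]
      simp only [ContinuousLinearMap.neg_apply, map_neg, neg_neg]
      ring
    refine ⟨N_gc_pos hN h φ, pos1 hN hI h φ ψ, hq hN h φ ψ, hqk hN hI h φ ψ, e1, ?_, ?_⟩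
    · unfold qk
      rw [e1, neg_sq, neg_div]
    · unfold dqk
      rw [e1, e2, neg_sq, neg_div]
  · intro x v h
    have c1 : Continuous (fun z : ℝ × ℝ => q N x v z.1 z.2) := by
      unfold q
      refine Continuous.div (by fun_prop) ((cont_N_gc hN h).comp continuous_fst) ?_
      intro z
      exact (N_gc_pos hN h z.1).ne'
    have c2 : Continuous (fun z : ℝ × ℝ => dq N x v z.1 z.2) := by
      unfold dq
      have hN1 : Continuous (fun z : ℝ × ℝ => N (gc x v z.1)) :=
        (cont_N_gc hN h).comp continuous_fst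
      have hN2 : Continuous (fun z : ℝ × ℝ => fderiv ℝ N (gc x v z.1) (gd x v z.1)) :=
        (cont_D_gc hN h).comp continuous_fst
      have hne : ∀ z : ℝ × ℝ, N (gc x v z.1) ≠ 0 := fun z => (N_gc_pos hN h z.1).ne'
      refine Continuous.sub (Continuous.div (by fun_prop) hN1 hne) ?_
      exact Continuous.div (Continuous.mul (by fun_prop) hN2) (hN1.pow 2)
        (fun z => pow_ne_zero 2 (hne z))
    have c3 : Continuous (fun z : ℝ × ℝ => Real.sqrt (1 + k * q N x v z.1 z.2 ^ 2)) :=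
      Real.continuous_sqrt.comp (continuous_const.add (continuous_const.mul (c1.pow 2)))
    have hne : ∀ z : ℝ × ℝ, Real.sqrt (1 + k * q N x v z.1 z.2 ^ 2) ≠ 0 := fun z =>
      (Real.sqrt_pos.2 (pos1 hN hI h z.1 z.2)).ne'
    refine ⟨?_, ?_⟩
    · unfold qk
      exact c1.div c3 hne
    · unfold dqk
      exact c2.div (c3.pow 3) (fun z => pow_ne_zero 3 (hne z))

end XBAS

theorem iBAS : StBas := XBAS.all

end Pool.Agent.Work.MP_02f065_gt.Cvx
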