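import Pool.Agent.Work.MP_02f065_gt.Cvx.Stmts2

open MeasureTheory Set Filter Topology

noncomputable section

namespace Pool.Agent.Work.MP_02f065_gt.Cvx

open Pool.Agent.Work.MP_02f065_gt.RPn

namespace XBAS2

variable {ι : Type} [Fintype ι]

theorem on_gc {x v : E ι} (h : ON x v) (t : ℝ) : ON (gc x v t) (gd x v t) := by
  obtain ⟨hx, hv, hxv⟩ := h
  have hvx : inner ℝ v x = 0 := by rw [real_inner_comm]; exact hxv
  have hxx : inner ℝ x x = (1 : ℝ) := by rw [real_inner_self_eq_norm_sq, hx]; norm_num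
  have hvv : inner ℝ v v = (1 : ℝ) := by rw [real_inner_self_eq_norm_sq, hv]; norm_num
  have hcs := Real.cos_sq_add_sin_sq t
  have h1 : ‖gc x v t‖ ^ 2 = 1 := by
    rw [← real_inner_self_eq_norm_sq]
    simp only [gc, inner_add_left, inner_add_right, real_inner_smul_left, real_inner_smul_right,
      hxx, hvv, hxv, hvx]
    nlinarith [hcs]
  have h2 : ‖gd x v t‖ ^ 2 = 1 := by
    rw [← real_inner_self_eq_norm_sq]
    simp only [gd, inner_add_left, inner_add_right, real_inner_smul_left, real_inner_smul_right,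
      hxx, hvv, hxv, hvx]
    nlinarith [hcs]
  refine ⟨?_, ?_, ?_⟩
  · have := norm_nonneg (gc x v t)
    nlinarith [h1]
  · have := norm_nonneg (gd x v t)
    nlinarith [h2]
  · simp only [gc, gd, inner_add_left, inner_add_right, real_inner_smul_left,
      real_inner_smul_right, hxx, hvv, hxv, hvx]
    ring

theorem deriv_gc (x v : E ι) (t : ℝ) : HasDerivAt (gc x v) (gd x v t) t := by
  have h1 := (Real.hasDerivAt_cos t).smul_const x
  have h2 := (Real.hasDerivAt_sin t).smul_const v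
  have := h1.add h2
  exact this

theorem gc_ne {x v : E ι} (h : ON x v) (t : ℝ) : gc x v t ≠ 0 := by
  intro h0
  have := (on_gc h t).1
  rw [h0, norm_zero] at this
  exact zero_ne_one this

theorem gc_pi (x v : E ι) (t : ℝ) : gc x v (t + Real.pi) = -gc x v t := by
  simp only [gc, Real.cos_add_pi, Real.sin_add_pi, neg_smul, neg_add]

theorem gd_pi (x v : E ι) (t : ℝ) : gd x v (t + Real.pi) = -gd x v t := by
  simp only [gd, Real.cos_add_pi, Real.sin_add_pi, neg_smul, neg_add, neg_neg]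

variable {N : E ι → ℝ} {lam : ℝ}

theorem diffAt (hN : IsProfile lam N) {x : E ι} (hx : x ≠ 0) :
    HasFDerivAt N (fderiv ℝ N x) x := by
  have h1 : ContDiffAt ℝ 1 N x := hN.diff.contDiffAt (isOpen_ne.mem_nhds hx)
  exact (h1.differentiableAt (by norm_num)).hasFDerivAt

theorem fderiv_neg' (hN : IsProfile lam N) {x : E ι} (hx : x ≠ 0) :
    fderiv ℝ N (-x) = -fderiv ℝ N x := by
  have h1 : HasFDerivAt (fun y : E ι => -y) (-(ContinuousLinearMap.id ℝ (E ι))) (-x) :=
    (hasFDerivAt_id (-x)).neg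
  have h2 : HasFDerivAt N (fderiv ℝ N x) (-(-x)) := by
    rw [neg_neg]; exact diffAt hN hx
  have h3 : HasFDerivAt (fun y : E ι => N (-y))
      ((fderiv ℝ N x).comp (-(ContinuousLinearMap.id ℝ (E ι)))) (-x) :=
    h2.comp (-x) h1
  have h4 : (fun y : E ι => N (-y)) = N := by
    funext y; exact hN.even y
  rw [h4] at h3
  rw [h3.fderiv]
  ext y
  simp

theorem cont_fderiv (hN : IsProfile lam N) :
    ContinuousOn (fun x => fderiv ℝ N x) {x | x ≠ 0} :=
  hN.diff.continuousOn_fderiv_of_isOpen isOpen_ne le_rfl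

theorem sph_sub : Metric.sphere (0 : E ι) 1 ⊆ {x | x ≠ 0} := by
  intro x hx h0
  simp only [mem_sphere_iff_norm, sub_zero] at hx
  rw [h0, norm_zero] at hx
  exact zero_ne_one hx

theorem cont_gc (x v : E ι) : Continuous (gc x v) := by
  unfold gc
  fun_prop

theorem cont_gd (x v : E ι) : Continuous (gd x v) := by
  unfold gd
  fun_prop

theorem N_gc_pos (hN : IsProfile lam N) {x v : E ι} (h : ON x v) (t : ℝ) :
    0 < N (gc x v t) :=
  hN.pos _ (on_gc h t).1

theorem cont_N_gc (hN : IsProfile lam N) {x v : E ι} (h : ON x v) :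
    Continuous (fun t => N (gc x v t)) := by
  rw [← continuousOn_univ]
  exact hN.diff.continuousOn.comp (cont_gc x v).continuousOn (fun t _ => gc_ne h t)

theorem cont_D_gc (hN : IsProfile lam N) {x v : E ι} (h : ON x v) :
    Continuous (fun t => fderiv ℝ N (gc x v t) (gd x v t)) := by
  have h1 : Continuous (fun t => fderiv ℝ N (gc x v t)) := by
    rw [← continuousOn_univ]
    exact (cont_fderiv hN).comp (cont_gc x v).continuousOn (fun t _ => gc_ne h t)
  exact h1.clm_apply (cont_gd x v)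

theorem pos1 {k : ℝ} (hN : IsProfile lam N) (hI : Inside k N) {x v : E ι} (h : ON x v)
    (φ t : ℝ) : 0 < 1 + k * p lam N x v φ t ^ 2 := by
  have hp := N_gc_pos hN h φ
  have hk := hI (gc x v φ) (on_gc h φ).1
  have hc := Real.cos_sq_le_one (lam * t)
  unfold p
  rw [div_pow]
  rcases le_or_gt 0 k with h0 | h0
  · have : 0 ≤ k * (Real.cos (lam * t) ^ 2 / N (gc x v φ) ^ 2) := by positivity
    linarith
  · have h1 : 1 + k * (Real.cos (lam * t) ^ 2 / N (gc x v φ) ^ 2) =
        (N (gc x v φ) ^ 2 + k * Real.cos (lam * t) ^ 2) / N (gc x v φ) ^ 2 := by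
      field_simp
    rw [h1]
    apply div_pos _ (by positivity)
    nlinarith

theorem hp' (hN : IsProfile lam N) {x v : E ι} (h : ON x v) (φ ψ : ℝ) :
    HasDerivAt (fun s => p lam N x v s (s - ψ)) (dp lam N x v φ (φ - ψ)) φ := by
  have hp := N_gc_pos hN h φ
  have h1 : HasDerivAt (fun t => N (gc x v t)) (fderiv ℝ N (gc x v φ) (gd x v φ)) φ :=
    (diffAt hN (gc_ne h φ)).comp_hasDerivAt φ (deriv_gc x v φ)
  have h2 : HasDerivAt (fun t : ℝ => Real.cos (lam * (t - ψ)))
      (-(lam * Real.sin (lam * (φ - ψ)))) φ := by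
    have h3 : HasDerivAt (fun t : ℝ => lam * (t - ψ)) lam φ := by
      simpa using ((hasDerivAt_id φ).sub_const ψ).const_mul lam
    refine h3.cos.congr_deriv ?_
    ring
  have h4 : HasDerivAt (fun s => p lam N x v s (s - ψ))
      ((-(lam * Real.sin (lam * (φ - ψ))) * N (gc x v φ) - Real.cos (lam * (φ - ψ)) *
        fderiv ℝ N (gc x v φ) (gd x v φ)) / N (gc x v φ) ^ 2) φ := h2.div h1 hp.ne'
  refine h4.congr_deriv ?_
  unfold dp
  have hn := hp.ne'
  field_simp

theorem hpk {k : ℝ} (hN : IsProfile lam N) (hI : Inside k N) {x v : E ι} (h : ON x v)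
    (φ ψ : ℝ) :
    HasDerivAt (fun s => pk k lam N x v s (s - ψ)) (dpk k lam N x v φ (φ - ψ)) φ := by
  have h1 := hp' hN h φ ψ
  have h0 := pos1 hN hI h φ (φ - ψ)
  have h2 : HasDerivAt (fun s => 1 + k * p lam N x v s (s - ψ) ^ 2)
      (k * (2 * p lam N x v φ (φ - ψ) * dp lam N x v φ (φ - ψ))) φ := by
    have := ((h1.pow 2).const_mul k).const_add 1
    simpa [mul_assoc, mul_comm, mul_left_comm] using this
  have h3 := h2.sqrt h0.ne'
  have hs := Real.sq_sqrt h0.le
  have hsp := Real.sqrt_pos.2 h0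
  have h4 : HasDerivAt (fun s => pk k lam N x v s (s - ψ))
      ((lam * dp lam N x v φ (φ - ψ) * Real.sqrt (1 + k * p lam N x v φ (φ - ψ) ^ 2) -
        lam * p lam N x v φ (φ - ψ) *
        (k * (2 * p lam N x v φ (φ - ψ) * dp lam N x v φ (φ - ψ)) /
          (2 * Real.sqrt (1 + k * p lam N x v φ (φ - ψ) ^ 2)))) /
          Real.sqrt (1 + k * p lam N x v φ (φ - ψ) ^ 2) ^ 2) φ :=
    (h1.const_mul lam).div h3 hsp.ne'
  refine h4.congr_deriv ?_
  unfold dpk
  generalize Real.sqrt (1 + k * p lam N x v φ (φ - ψ) ^ 2) = s at hs hsp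
  have hsn : s ≠ 0 := hsp.ne'
  have h6 : k * p lam N x v φ (φ - ψ) ^ 2 = s ^ 2 - 1 := by linarith
  field_simp
  linear_combination (-(lam * dp lam N x v φ (φ - ψ))) * h6

theorem all : StBas2 := by
  intro ι _ N k lam hlam hN hI
  refine ⟨fun x v h t => ⟨on_gc h t, deriv_gc x v t⟩,
    fun x hx => ⟨diffAt hN hx, fderiv_neg' hN hx⟩,
    hN.diff.continuousOn.mono sph_sub, (cont_fderiv hN).mono sph_sub, ?_, ?_⟩
  · intro x v h φ ψ t
    have e1 : p lam N x v (φ + Real.pi) t = p lam N x v φ t := by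
      unfold p
      rw [gc_pi, hN.even]
    have e2 : dp lam N x v (φ + Real.pi) t = dp lam N x v φ t := by
      unfold dp
      rw [gc_pi, gd_pi, hN.even, fderiv_neg' hN (gc_ne h φ)]
      simp only [neg_apply, map_neg, neg_neg]
    refine ⟨N_gc_pos hN h φ, pos1 hN hI h φ t, hp' hN h φ ψ, hpk hN hI h φ ψ, ?_, ?_⟩
    · unfold pk
      rw [e1]
    · unfold dpk
      rw [e1, e2]
  · intro x v h
    have hN1 : Continuous (fun z : ℝ × ℝ => N (gc x v z.1)) :=
      (cont_N_gc hN h).comp continuous_fst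
    have hN2 : Continuous (fun z : ℝ × ℝ => fderiv ℝ N (gc x v z.1) (gd x v z.1)) :=
      (cont_D_gc hN h).comp continuous_fst
    have hne : ∀ z : ℝ × ℝ, N (gc x v z.1) ≠ 0 := fun z => (N_gc_pos hN h z.1).ne'
    have c1 : Continuous (fun z : ℝ × ℝ => p lam N x v z.1 z.2) := by
      unfold p
      exact Continuous.div (by fun_prop) hN1 hne
    have c2 : Continuous (fun z : ℝ × ℝ => dp lam N x v z.1 z.2) := by
      unfold dp
      refine Continuous.sub (Continuous.div (by fun_prop) hN1 hne) ?_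
      exact Continuous.div (Continuous.mul (by fun_prop) hN2) (hN1.pow 2)
        (fun z => pow_ne_zero 2 (hne z))
    have c3 : Continuous (fun z : ℝ × ℝ => Real.sqrt (1 + k * p lam N x v z.1 z.2 ^ 2)) :=
      Real.continuous_sqrt.comp (continuous_const.add (continuous_const.mul (c1.pow 2)))
    have hne3 : ∀ z : ℝ × ℝ, Real.sqrt (1 + k * p lam N x v z.1 z.2 ^ 2) ≠ 0 := fun z =>
      (Real.sqrt_pos.2 (pos1 hN hI h z.1 z.2)).ne'
    refine ⟨?_, ?_⟩
    · unfold pk
      exact (continuous_const.mul c1).div c3 hne3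
    · unfold dpk
      exact (continuous_const.mul c2).div (c3.pow 3) (fun z => pow_ne_zero 3 (hne3 z))

end XBAS2

theorem iBAS2 : StBas2 := XBAS2.all

end Pool.Agent.Work.MP_02f065_gt.Cvx
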