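import Pool.Agent.Work.MP_02f065_gt.Cvx.Stmts

/-!
MP_02f065_gt, block CVX, item DIR: the integral over the directions.
-/

open MeasureTheory Set Filter Topology

noncomputable section

namespace Pool.Agent.Work.MP_02f065_gt.Cvx

open Pool.Agent.Work.MP_02f065_gt.RPn

namespace XDIR

/-- The integrand as a function of the difference of the angles. -/
def gfun (m : ℕ) (n0 D s : ℝ) (χ : ℝ) : ℝ :=
  (1 / n0 ^ (m + 1)) * (|Real.cos χ| ^ m * |1 * Real.sin χ + (-(D / n0)) * Real.cos χ| /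
    Real.sqrt (Real.sin χ ^ 2 + s ^ 2 * Real.cos χ ^ 2) ^ (m + 3))

theorem gfun_periodic (m : ℕ) (n0 D s : ℝ) : Function.Periodic (gfun m n0 D s) (2 * Real.pi) := by
  intro χ
  unfold gfun
  rw [Real.cos_add_two_pi, Real.sin_add_two_pi]

theorem integral_shift (g : ℝ → ℝ) (hg : Function.Periodic g (2 * Real.pi)) (φ : ℝ) :
    ∫ ψ in (0 : ℝ)..(2 * Real.pi), g (ψ - φ) = ∫ χ in (0 : ℝ)..(2 * Real.pi), g χ := by
  rw [intervalIntegral.integral_comp_sub_right g φ]
  have h := hg.intervalIntegral_add_eq (0 - φ) 0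
  rw [show (0 : ℝ) - φ + 2 * Real.pi = 2 * Real.pi - φ by ring, zero_add] at h
  exact h

end XDIR

open XDIR

theorem iDIR (hB : StBas) (hK : StK1) : StDir := by
  intro ι _ N k hN hI x v hxv φ m
  obtain ⟨hB1, hB2, _, _, hB5, _⟩ := hB ι N k hN hI
  obtain ⟨hon, _⟩ := hB1 x v hxv φ
  set θ := gc x v φ with hθ
  set u := gd x v φ with hu
  obtain ⟨hθ1, hu1, hθu⟩ := hon
  have hθ0 : θ ≠ 0 := by
    intro h
    rw [h, norm_zero] at hθ1
    exact zero_ne_one hθ1
  obtain ⟨_, heul, _, _⟩ := hB2 θ hθ0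
  have hn0 : 0 < N θ := (hB5 x v hxv φ 0).1
  have hSk : 0 < N θ ^ 2 + k := hI θ hθ1
  have hS0 : 0 < S k N θ := Real.sqrt_pos.mpr hSk
  have hS2 : S k N θ ^ 2 = N θ ^ 2 + k := Real.sq_sqrt hSk.le
  set D := fderiv ℝ N θ u with hD
  set n0 := N θ with hn0d
  set s := S k N θ / n0 with hs
  have hs0 : 0 < s := div_pos hS0 hn0
  -- left integrand
  have hleft : ∀ ψ : ℝ, |qk k N x v φ ψ| ^ m * |dqk k N x v φ ψ| = gfun m n0 D s (ψ - φ) := by
    intro ψ
    have hc : Real.cos (φ - ψ) = Real.cos (ψ - φ) := by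
      rw [← Real.cos_neg]; congr 1; ring
    have hsn : Real.sin (φ - ψ) = -Real.sin (ψ - φ) := by
      rw [← Real.sin_neg]; congr 1; ring
    have hq : q N x v φ ψ = Real.cos (ψ - φ) / n0 := by
      unfold q
      rw [hc]
    have hdq : dq N x v φ ψ = (1 / n0) *
        (1 * Real.sin (ψ - φ) + (-(D / n0)) * Real.cos (ψ - φ)) := by
      unfold dq
      rw [hc, hsn]
      rw [← hθ, ← hu, ← hD, ← hn0d]
      field_simp
      ring
    have hrad : 1 + k * q N x v φ ψ ^ 2 =
        Real.sin (ψ - φ) ^ 2 + s ^ 2 * Real.cos (ψ - φ) ^ 2 := by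
      rw [hq, hs, div_pow, div_pow, hS2]
      have h1 := Real.sin_sq_add_cos_sq (ψ - φ)
      field_simp
      nlinarith [h1]
    have hpos : 0 < 1 + k * q N x v φ ψ ^ 2 := (hB5 x v hxv φ ψ).2.1
    set R := Real.sqrt (1 + k * q N x v φ ψ ^ 2) with hR
    have hR0 : 0 < R := Real.sqrt_pos.mpr hpos
    have hqk : |qk k N x v φ ψ| = |Real.cos (ψ - φ)| / (n0 * R) := by
      unfold qk
      rw [← hR, hq, abs_div, abs_div, abs_of_pos hn0, abs_of_pos hR0, div_div]
    have hdqk : |dqk k N x v φ ψ| = (1 / n0) *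
        |1 * Real.sin (ψ - φ) + (-(D / n0)) * Real.cos (ψ - φ)| / R ^ 3 := by
      unfold dqk
      rw [← hR, hdq, abs_div, abs_mul, abs_of_pos (one_div_pos.mpr hn0),
        abs_of_pos (pow_pos hR0 3)]
    unfold gfun
    rw [hqk, hdqk, ← hrad, ← hR, div_pow, mul_pow]
    field_simp
    ring
  have hint : ∫ ψ in (0 : ℝ)..(2 * Real.pi), |qk k N x v φ ψ| ^ m * |dqk k N x v φ ψ| =
      ∫ χ in (0 : ℝ)..(2 * Real.pi), gfun m n0 D s χ := by
    rw [← integral_shift (gfun m n0 D s) (gfun_periodic m n0 D s) φ]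
    exact intervalIntegral.integral_congr (fun ψ _ => hleft ψ)
  rw [hint]
  unfold gfun
  rw [intervalIntegral.integral_const_mul, hK m s 1 (-(D / n0)) hs0]
  -- right integrand
  have hin : ∀ χ : ℝ, inner ℝ (dv k N θ) (Real.sin χ • θ - Real.cos χ • u) =
      S k N θ * Real.sin χ - D * Real.cos χ := by
    intro χ
    have h1 : inner ℝ (dv k N θ) θ = S k N θ := by
      unfold dv grad
      rw [inner_add_left, real_inner_smul_left, real_inner_self_eq_norm_sq, hθ1,
        InnerProductSpace.toDual_symm_apply, heul]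
      ring
    have h2 : inner ℝ (dv k N θ) u = D := by
      unfold dv grad
      rw [inner_add_left, real_inner_smul_left, hθu, InnerProductSpace.toDual_symm_apply]
      ring
    rw [inner_sub_right, real_inner_smul_right, real_inner_smul_right, h1, h2]
    ring
  have hright : ∀ χ : ℝ, |Real.cos χ| ^ m *
      |inner ℝ (dv k N θ) (Real.sin χ • θ - Real.cos χ • u)| =
      n0 * (|Real.cos χ| ^ m * |1 * s * Real.sin χ + (-(D / n0)) * Real.cos χ|) := by
    intro χ
    rw [hin χ]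
    have h3 : S k N θ * Real.sin χ - D * Real.cos χ =
        n0 * (1 * s * Real.sin χ + (-(D / n0)) * Real.cos χ) := by
      rw [hs]
      field_simp
      ring
    rw [h3, abs_mul, abs_of_pos hn0]
    ring
  have hR : ∫ χ in (0 : ℝ)..(2 * Real.pi), |Real.cos χ| ^ m *
      |inner ℝ (dv k N θ) (Real.sin χ • θ - Real.cos χ • u)| =
      n0 * ∫ χ in (0 : ℝ)..(2 * Real.pi),
        |Real.cos χ| ^ m * |1 * s * Real.sin χ + (-(D / n0)) * Real.cos χ| := by
    rw [← intervalIntegral.integral_const_mul]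
    exact intervalIntegral.integral_congr (fun χ _ => hright χ)
  rw [hR, hs, div_pow]
  have hSm : S k N θ ^ (m + 2) ≠ 0 := (pow_pos hS0 _).ne'
  have hnm : n0 ≠ 0 := hn0.ne'
  field_simp
  ring

end Pool.Agent.Work.MP_02f065_gt.Cvx
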