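import Pool.Agent.Work.MP_02f065_gt.Cvx.Stmts

open MeasureTheory Set Filter Topology

noncomputable section

namespace Pool.Agent.Work.MP_02f065_gt.Cvx

open Pool.Agent.Work.MP_02f065_gt.RPn

namespace XFR

variable {ι : Type} [Fintype ι] [DecidableEq ι]
set_option linter.unusedSectionVars false

/-- The action of a matrix. -/
def act (M : Matrix ι ι ℝ) (x : E ι) : E ι := WithLp.toLp 2 (M.mulVec x.ofLp)

theorem act_mul (M T : Matrix ι ι ℝ) (x : E ι) : act (M * T) x = act M (act T x) := by
  unfold act
  simp [Matrix.mulVec_mulVec]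

theorem inner_eq (x y : E ι) : inner ℝ x y = x.ofLp ⬝ᵥ y.ofLp := by
  rw [EuclideanSpace.inner_eq_star_dotProduct]
  simp [dotProduct_comm]

theorem inner_act (M : Matrix ι ι ℝ) (hM : M.transpose * M = 1) (x y : E ι) :
    inner ℝ (act M x) (act M y) = inner ℝ x y := by
  rw [inner_eq, inner_eq]
  unfold act
  simp only
  rw [Matrix.dotProduct_mulVec, ← Matrix.mulVec_transpose, Matrix.mulVec_mulVec, hM,
    Matrix.one_mulVec]

theorem norm_act (M : Matrix ι ι ℝ) (hM : M.transpose * M = 1) (x : E ι) :
    ‖act M x‖ = ‖x‖ := by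
  rw [@norm_eq_sqrt_real_inner _ _ _ (act M x), @norm_eq_sqrt_real_inner _ _ _ x, inner_act M hM]

theorem on_act (M : Matrix ι ι ℝ) (hM : M.transpose * M = 1) {x v : E ι} (h : ON x v) :
    ON (act M x) (act M v) :=
  ⟨by rw [norm_act M hM]; exact h.1, by rw [norm_act M hM]; exact h.2.1,
    by rw [inner_act M hM]; exact h.2.2⟩

/-- The linear isometry of an orthogonal matrix. -/
def iso (M : Matrix ι ι ℝ) (hM : M.transpose * M = 1) : E ι →ₗᵢ[ℝ] E ι where
  toFun := act M
  map_add' x y := by unfold act; simp [Matrix.mulVec_add]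
  map_smul' r x := by unfold act; simp [Matrix.mulVec_smul]
  norm_map' x := norm_act M hM x

theorem iso_apply (M : Matrix ι ι ℝ) (hM : M.transpose * M = 1) (x : E ι) :
    iso M hM x = act M x := rfl

/-- An orthonormal basis with two given vectors. -/
theorem exists_basis {i0 i1 : ι} (h01 : i0 ≠ i1) {x v : E ι} (h : ON x v) :
    ∃ b : OrthonormalBasis ι ℝ (E ι), b i0 = x ∧ b i1 = v := by
  classical
  obtain ⟨hx, hv, hxv⟩ := h
  have hcard : Module.finrank ℝ (E ι) = Fintype.card ι := by simp
  let f : ι → E ι := fun i => if i = i0 then x else v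
  have f0 : f i0 = x := by simp [f]
  have f1 : f i1 = v := by simp [f, h01.symm]
  have hf : Orthonormal ℝ (({i0, i1} : Set ι).domRestrict f) := by
    constructor
    · rintro ⟨i, hi⟩
      change ‖f i‖ = 1
      rcases hi with rfl | hi
      · rw [f0]; exact hx
      · rw [mem_singleton_iff] at hi
        rw [hi, f1]; exact hv
    · rintro ⟨i, hi⟩ ⟨j, hj⟩ hij
      change inner ℝ (f i) (f j) = 0
      rcases hi with hi | hi <;> rcases hj with hj | hj
      · exact absurd (Subtype.ext (hi.trans hj.symm)) hij
      · rw [mem_singleton_iff] at hj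
        rw [hi, hj, f0, f1]; exact hxv
      · rw [mem_singleton_iff] at hi
        rw [hi, hj, f0, f1, real_inner_comm]; exact hxv
      · rw [mem_singleton_iff] at hi hj
        exact absurd (Subtype.ext (hi.trans hj.symm)) hij
  obtain ⟨b, hb⟩ := hf.exists_orthonormalBasis_extension_of_card_eq hcard
  refine ⟨b, ?_, ?_⟩
  · rw [hb i0 (by simp)]
    simp [f]
  · rw [hb i1 (by simp)]
    simp [f, h01.symm]

/-- The matrix with columns `b i`. -/
def mat (b : OrthonormalBasis ι ℝ (E ι)) : Matrix ι ι ℝ := Matrix.of fun i j => (b j).ofLp i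

theorem mat_orth (b : OrthonormalBasis ι ℝ (E ι)) : (mat b).transpose * mat b = 1 := by
  ext j k
  rw [Matrix.mul_apply]
  have h := orthonormal_iff_ite.mp b.orthonormal j k
  rw [inner_eq, dotProduct] at h
  simp only [mat, Matrix.transpose_apply, Matrix.of_apply]
  rw [h, Matrix.one_apply]

theorem act_mat (b : OrthonormalBasis ι ℝ (E ι)) (j : ι) :
    act (mat b) (EuclideanSpace.single j 1) = b j := by
  unfold act
  ext i
  simp [mat]

theorem act_mat_tr (b : OrthonormalBasis ι ℝ (E ι)) (j : ι) :
    act (mat b).transpose (b j) = EuclideanSpace.single j 1 := by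
  rw [← act_mat b j, ← act_mul, mat_orth]
  unfold act
  rw [Matrix.one_mulVec]

theorem det_sq (b : OrthonormalBasis ι ℝ (E ι)) : (mat b).det = 1 ∨ (mat b).det = -1 := by
  have h := congrArg Matrix.det (mat_orth b)
  rw [Matrix.det_mul, Matrix.det_transpose, Matrix.det_one] at h
  exact mul_self_eq_one_iff.mp h

theorem exists_T {i0 i1 i2 : ι} (h01 : i0 ≠ i1) (h02 : i0 ≠ i2) (h12 : i1 ≠ i2)
    {x v x' v' : E ι} (h : ON x v) (h' : ON x' v') :
    ∃ T : Matrix ι ι ℝ, T.transpose * T = 1 ∧ T.det = 1 ∧ act T x = x' ∧ act T v = v' := by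
  obtain ⟨b, hb0, hb1⟩ := exists_basis h01 h
  obtain ⟨b', hb0', hb1'⟩ := exists_basis h01 h'
  have ho := mat_orth b
  have ho' := mat_orth b'
  have hot : mat b * (mat b).transpose = 1 := mul_eq_one_comm.mp ho
  -- the sign
  let D : ℝ → Matrix ι ι ℝ := fun s => Matrix.diagonal (fun i => if i = i2 then s else 1)
  have hD : ∀ s : ℝ, s * s = 1 → (D s).transpose * D s = 1 := by
    intro s hs
    simp only [D, Matrix.diagonal_transpose, Matrix.diagonal_mul_diagonal]
    rw [← Matrix.diagonal_one]
    congr 1
    funext i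
    by_cases hi : i = i2
    · simp [hi, hs]
    · simp [hi]
  have hdet : ∀ s : ℝ, (D s).det = s := by
    intro s
    simp [D, Matrix.det_diagonal]
  have hact : ∀ s : ℝ, ∀ j : ι, j ≠ i2 → act (D s) (EuclideanSpace.single j 1) =
      EuclideanSpace.single j 1 := by
    intro s j hj
    unfold act
    ext i
    simp only [D, Matrix.mulVec_diagonal]
    by_cases hi : i = i2
    · subst hi
      simp [Ne.symm hj]
    · simp [hi]
  have key : ∀ s : ℝ, s * s = 1 →
      (mat b' * D s * (mat b).transpose).transpose * (mat b' * D s * (mat b).transpose) = 1 ∧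
      (mat b' * D s * (mat b).transpose).det = (mat b').det * s * (mat b).det ∧
      act (mat b' * D s * (mat b).transpose) x = x' ∧
      act (mat b' * D s * (mat b).transpose) v = v' := by
    intro s hs
    refine ⟨?_, ?_, ?_, ?_⟩
    · rw [Matrix.transpose_mul, Matrix.transpose_mul, Matrix.transpose_transpose]
      calc mat b * ((D s).transpose * (mat b').transpose) * (mat b' * D s * (mat b).transpose)
          = mat b * ((D s).transpose * ((mat b').transpose * mat b') * D s) *
            (mat b).transpose := by simp only [Matrix.mul_assoc]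
        _ = 1 := by rw [ho', Matrix.mul_one, hD s hs, Matrix.mul_one, hot]
    · rw [Matrix.det_mul, Matrix.det_mul, hdet, Matrix.det_transpose]
    · rw [act_mul, act_mul, ← hb0, act_mat_tr, hact s i0 h02, act_mat, hb0']
    · rw [act_mul, act_mul, ← hb1, act_mat_tr, hact s i1 h12, act_mat, hb1']
  have hss : ((mat b').det * (mat b).det) * ((mat b').det * (mat b).det) = 1 := by
    rcases det_sq b with h1 | h1 <;> rcases det_sq b' with h2 | h2 <;> rw [h1, h2] <;> norm_num
  obtain ⟨k1, k2, k3, k4⟩ := key _ hss
  refine ⟨_, k1, ?_, k3, k4⟩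
  rw [k2]
  rcases det_sq b with h1 | h1 <;> rcases det_sq b' with h2 | h2 <;> rw [h1, h2] <;> norm_num

theorem continuous_act (x : E ι) : Continuous fun M : Matrix ι ι ℝ => act M x := by
  unfold act
  refine (PiLp.continuous_toLp 2 _).comp ?_
  exact Continuous.matrix_mulVec continuous_id continuous_const

end XFR

open XFR in
theorem iFR (hH : claimHaar) : StFr := by
  intro Q hQ
  obtain ⟨H⟩ := hH (1 + Q)
  let e : Ix 1 Q ≃ Fin (1 + Q) := finSumFinEquiv
  letI := H.ms
  have horth : ∀ M ∈ SO (1 + Q), (M.submatrix e e).transpose * M.submatrix e e = 1 := by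
    intro M hM
    have h1 := (Matrix.mem_specialOrthogonalGroup_iff.mp hM).1
    rw [Matrix.mem_orthogonalGroup_iff'] at h1
    rw [Matrix.transpose_submatrix, Matrix.submatrix_mul_equiv]
    have h2 : M.transpose * M = 1 := by
      simpa [Matrix.star_eq_conjTranspose] using h1
    rw [h2, Matrix.submatrix_one_equiv]
  refine ⟨Frames.mk H.Ω H.ms H.μ H.prob
    (fun ω => iso ((H.m ω).submatrix e e) (horth _ (H.mem ω))) ?_ ?_⟩
  · intro x
    simp only [iso_apply]
    unfold act
    refine (WithLp.measurable_toLp 2 _).comp ?_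
    rw [measurable_pi_iff]
    intro i
    simp only [Matrix.mulVec, dotProduct, Matrix.submatrix_apply]
    exact Finset.measurable_sum _ fun j _ => (H.meas _ _).mul_const _
  · intro F hF x v x' v' h h'
    simp only [iso_apply]
    obtain ⟨T, hT1, hT2, hTx, hTv⟩ := exists_T (ι := Ix 1 Q) (i0 := Sum.inl 0)
      (i1 := Sum.inr ⟨0, by omega⟩) (i2 := Sum.inr ⟨1, by omega⟩) (by simp) (by simp)
      (by simp) h h'
    have hT3 : T.submatrix e.symm e.symm ∈ SO (1 + Q) := by
      rw [Matrix.mem_specialOrthogonalGroup_iff, Matrix.mem_orthogonalGroup_iff']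
      refine ⟨?_, ?_⟩
      · have : (T.submatrix e.symm e.symm).transpose * T.submatrix e.symm e.symm = 1 := by
          rw [Matrix.transpose_submatrix, Matrix.submatrix_mul_equiv, hT1,
            Matrix.submatrix_one_equiv]
        simpa [Matrix.star_eq_conjTranspose] using this
      · rw [Matrix.det_submatrix_equiv_self, hT2]
    have hG : ContinuousOn (fun M : Matrix (Fin (1 + Q)) (Fin (1 + Q)) ℝ =>
        F (act (M.submatrix e e) x, act (M.submatrix e e) v)) (SO (1 + Q) : Set _) := by
      have hc : Continuous fun M : Matrix (Fin (1 + Q)) (Fin (1 + Q)) ℝ =>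
          (act (M.submatrix e e) x, act (M.submatrix e e) v) := by
        have hs : Continuous fun M : Matrix (Fin (1 + Q)) (Fin (1 + Q)) ℝ =>
            M.submatrix e e := continuous_id.matrix_submatrix _ _
        exact ((continuous_act x).comp hs).prodMk ((continuous_act v).comp hs)
      exact hF.comp hc.continuousOn fun M hM => on_act _ (horth M hM) h
    have key := H.inv _ hT3 _ hG
    have e2 : ∀ ω, (H.m ω * T.submatrix e.symm e.symm).submatrix e e =
        (H.m ω).submatrix e e * T := by
      intro ω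
      have : T = (T.submatrix e.symm e.symm).submatrix e e := by
        simp [Matrix.submatrix_submatrix]
      conv_rhs => rw [this]
      rw [Matrix.submatrix_mul_equiv]
    simp only [e2, act_mul, hTx, hTv] at key
    exact key.symm

end Pool.Agent.Work.MP_02f065_gt.Cvx
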