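import Pool.Agent.Work.MP_02f065_gt.Cvx.Stmts

open MeasureTheory Set Filter Topology

noncomputable section

namespace Pool.Agent.Work.MP_02f065_gt.Cvx

open Pool.Agent.Work.MP_02f065_gt.RPn

namespace XISO

variable {ι : Type} [Fintype ι]

theorem inv_iso [Nonempty ι] (hV : claimV1a) (T : E ι →ₗᵢ[ℝ] E ι) (F : E ι → ℝ)
    (hF : ContinuousOn F (Metric.sphere (0 : E ι) 1)) :
    ∫ x : Metric.sphere (0 : E ι) 1, F (T x) ∂((volume : Measure (E ι)).toSphere) =
      ∫ x : Metric.sphere (0 : E ι) 1, F x ∂((volume : Measure (E ι)).toSphere) := by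
  obtain ⟨κ, hκ, h⟩ := hV ι
  have h1 := h F hF
  have hFT : ContinuousOn (fun x => F (T x)) (Metric.sphere (0 : E ι) 1) := by
    refine hF.comp T.continuous.continuousOn ?_
    intro x hx
    have hx' : ‖x‖ = 1 := by simpa using hx
    have : ‖T x‖ = 1 := by rw [T.norm_map]; exact hx'
    simpa using this
  have h2 := h (fun x => F (T x)) hFT
  let Te : E ι ≃ₗᵢ[ℝ] E ι := T.toLinearIsometryEquiv rfl
  have hTe : ∀ x, Te x = T x := fun x => rfl
  have h3 : ∫ x : E ι, F (T (‖x‖⁻¹ • x)) * Real.exp (-‖x‖ ^ 2) =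
      ∫ x : E ι, F (‖x‖⁻¹ • x) * Real.exp (-‖x‖ ^ 2) := by
    have h4 : ∀ x : E ι, F (T (‖x‖⁻¹ • x)) * Real.exp (-‖x‖ ^ 2) =
        (fun y : E ι => F (‖y‖⁻¹ • y) * Real.exp (-‖y‖ ^ 2)) (Te x) := by
      intro x
      change F (T (‖x‖⁻¹ • x)) * Real.exp (-‖x‖ ^ 2) = F (‖T x‖⁻¹ • T x) * Real.exp (-‖T x‖ ^ 2)
      rw [T.map_smul, T.norm_map]
    have h6 : (∫ x : E ι, F (T (‖x‖⁻¹ • x)) * Real.exp (-‖x‖ ^ 2)) =
        ∫ x : E ι, (fun y : E ι => F (‖y‖⁻¹ • y) * Real.exp (-‖y‖ ^ 2)) (Te x) := by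
      congr 1
      funext x
      exact h4 x
    rw [h6]
    have h7 : MeasurePreserving (fun x => Te x) (volume : Measure (E ι)) volume :=
      LinearIsometryEquiv.measurePreserving Te
    have h8 : MeasurableEmbedding (fun x => Te x) := Te.toHomeomorph.measurableEmbedding
    exact h7.integral_comp h8 (fun y : E ι => F (‖y‖⁻¹ • y) * Real.exp (-‖y‖ ^ 2))
  have h5 : κ * ∫ x : Metric.sphere (0 : E ι) 1, F (T x) ∂((volume : Measure (E ι)).toSphere) =
      κ * ∫ x : Metric.sphere (0 : E ι) 1, F x ∂((volume : Measure (E ι)).toSphere) := by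
    rw [← h1, ← h2]
    exact h3
  exact mul_left_cancel₀ hκ.ne' h5

end XISO

theorem iISO (hV : claimV1a) : StIso := by
  intro ι _ _
  refine ⟨fun T F hF => XISO.inv_iso hV T F hF, ?_⟩
  intro d y hy
  by_cases hd : d = 0
  · subst hd
    simp
  have hd' : 0 < ‖d‖ := norm_pos_iff.mpr hd
  set u : E ι := ‖d‖⁻¹ • d with hu
  have hun : ‖u‖ = 1 := by
    rw [hu, norm_smul, norm_inv, norm_norm]
    exact inv_mul_cancel₀ hd'.ne'
  have hdu : d = ‖d‖ • u := by
    rw [hu, smul_smul, mul_inv_cancel₀ hd'.ne', one_smul]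
  let R : E ι ≃ₗᵢ[ℝ] E ι := (Submodule.span ℝ {u - y})ᗮ.reflection
  have hR : R u = y := Submodule.reflection_sub (by rw [hun, hy])
  have hc : ContinuousOn (fun x : E ι => |inner ℝ y x|) (Metric.sphere (0 : E ι) 1) := by
    fun_prop
  have h1 := XISO.inv_iso hV R.toLinearIsometry (fun x : E ι => |inner ℝ y x|) hc
  rw [← h1, ← integral_const_mul]
  refine integral_congr_ae (Filter.Eventually.of_forall fun x => ?_)
  have h2 : inner ℝ d (x : E ι) = ‖d‖ * inner ℝ y (R (x : E ι)) := by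
    conv_lhs => rw [hdu]
    rw [real_inner_smul_left, ← hR, R.inner_map_map]
  have h3 : |inner ℝ d (x : E ι)| = ‖d‖ * |inner ℝ y (R (x : E ι))| := by
    rw [h2, abs_mul, abs_of_pos hd']
  exact h3

end Pool.Agent.Work.MP_02f065_gt.Cvx
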