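import Pool.Agent.Work.MP_02f065_gt.Cvx.Stmts

/-!
MP_02f065_gt, block CVX, item K0: the mean of the absolute value of `a sin + b cos`.
-/

open MeasureTheory Set Filter Topology

noncomputable section

namespace Pool.Agent.Work.MP_02f065_gt.Cvx

open Pool.Agent.Work.MP_02f065_gt.RPn

namespace XK0

lemma abs_cos_periodic : Function.Periodic (fun x : ℝ => |Real.cos x|) (2 * Real.pi) := by
  intro x
  simp only [Real.cos_add_two_pi]

lemma integral_abs_cos : ∫ x in (0 : ℝ)..(2 * Real.pi), |Real.cos x| = 4 := by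
  have h1 : ∫ x in (0 : ℝ)..(2 * Real.pi), |Real.cos x| =
      ∫ x in (-(Real.pi / 2))..(-(Real.pi / 2) + 2 * Real.pi), |Real.cos x| := by
    have h := abs_cos_periodic.intervalIntegral_add_eq 0 (-(Real.pi / 2))
    simpa using h
  rw [h1]
  have hc : Continuous (fun x : ℝ => |Real.cos x|) := by fun_prop
  rw [← intervalIntegral.integral_add_adjacent_intervals (b := Real.pi / 2)
    (hc.intervalIntegrable _ _) (hc.intervalIntegrable _ _)]
  have hpi := Real.pi_pos
  have e1 : ∫ x in (-(Real.pi / 2))..(Real.pi / 2), |Real.cos x| = 2 := by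
    have h : ∫ x in (-(Real.pi / 2))..(Real.pi / 2), |Real.cos x| =
        ∫ x in (-(Real.pi / 2))..(Real.pi / 2), Real.cos x := by
      apply intervalIntegral.integral_congr
      intro x hx
      rw [uIcc_of_le (by linarith)] at hx
      exact abs_of_nonneg (Real.cos_nonneg_of_mem_Icc hx)
    rw [h, integral_cos]
    simp [Real.sin_pi_div_two, Real.sin_neg]
    norm_num
  have e2 : ∫ x in (Real.pi / 2)..(-(Real.pi / 2) + 2 * Real.pi), |Real.cos x| = 2 := by
    have h : ∫ x in (Real.pi / 2)..(-(Real.pi / 2) + 2 * Real.pi), |Real.cos x| =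
        ∫ x in (Real.pi / 2)..(-(Real.pi / 2) + 2 * Real.pi), -Real.cos x := by
      apply intervalIntegral.integral_congr
      intro x hx
      rw [uIcc_of_le (by linarith)] at hx
      exact abs_of_nonpos (Real.cos_nonpos_of_pi_div_two_le_of_le hx.1 (by linarith [hx.2]))
    rw [h, intervalIntegral.integral_neg, integral_cos, Real.sin_add_two_pi, Real.sin_neg,
      Real.sin_pi_div_two]
    norm_num
  rw [e1, e2]
  norm_num

end XK0

/-- The mean of `|a sin + b cos|`. -/
theorem iK0 : StK0 := by
  intro a b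
  set R : ℝ := Real.sqrt (a ^ 2 + b ^ 2) with hR
  set t : ℝ := Complex.arg ⟨b, a⟩ with ht
  have hn : ‖(⟨b, a⟩ : ℂ)‖ = R := by
    rw [hR, Complex.norm_def, Complex.normSq_mk]
    congr 1
    ring
  have hb : b = R * Real.cos t := by
    have h := Complex.norm_mul_cos_arg (⟨b, a⟩ : ℂ)
    rw [hn] at h
    exact h.symm
  have ha : a = R * Real.sin t := by
    have h := Complex.norm_mul_sin_arg (⟨b, a⟩ : ℂ)
    rw [hn] at h
    exact h.symm
  have hR0 : 0 ≤ R := Real.sqrt_nonneg _
  have h1 : ∀ χ : ℝ, |a * Real.sin χ + b * Real.cos χ| = R * |Real.cos (χ - t)| := by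
    intro χ
    have : a * Real.sin χ + b * Real.cos χ = R * Real.cos (χ - t) := by
      rw [Real.cos_sub]
      linear_combination Real.sin χ * ha + Real.cos χ * hb
    rw [this, abs_mul, abs_of_nonneg hR0]
  simp_rw [h1]
  rw [intervalIntegral.integral_const_mul,
    intervalIntegral.integral_comp_sub_right (fun x => |Real.cos x|) t]
  have h2 := XK0.abs_cos_periodic.intervalIntegral_add_eq (0 - t) 0
  rw [show (0 - t + 2 * Real.pi) = 2 * Real.pi - t by ring, zero_add] at h2
  rw [h2, XK0.integral_abs_cos]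
  ring

end Pool.Agent.Work.MP_02f065_gt.Cvx
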