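import Pool.Agent.Work.MP_02f065_gt.Cvx.Stmts

/-!
MP_02f065_gt, block CVX: item K1 (linear change of the direction).
-/

open MeasureTheory Set Filter Topology

noncomputable section

namespace Pool.Agent.Work.MP_02f065_gt.Cvx

open Pool.Agent.Work.MP_02f065_gt.RPn

namespace XK1

/-- Integral over two periods. -/
theorem two_periods (F : ℝ → ℝ) (hF : Continuous F) (hp : ∀ x, F (x + Real.pi) = F x) :
    ∫ x in (0 : ℝ)..(2 * Real.pi), F x = 2 * ∫ x in Ioo (-(Real.pi / 2)) (Real.pi / 2), F x := by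
  have hper : Function.Periodic F Real.pi := hp
  have h1 : ∫ x in (0 : ℝ)..(0 + Real.pi), F x =
      ∫ x in (-(Real.pi / 2))..(-(Real.pi / 2) + Real.pi), F x :=
    hper.intervalIntegral_add_eq 0 (-(Real.pi / 2))
  have h2 : ∫ x in Real.pi..(Real.pi + Real.pi), F x =
      ∫ x in (-(Real.pi / 2))..(-(Real.pi / 2) + Real.pi), F x :=
    hper.intervalIntegral_add_eq Real.pi (-(Real.pi / 2))
  have h3 : ∫ x in (0 : ℝ)..(2 * Real.pi), F x =
      (∫ x in (0 : ℝ)..Real.pi, F x) + ∫ x in Real.pi..(2 * Real.pi), F x :=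
    (intervalIntegral.integral_add_adjacent_intervals (hF.intervalIntegrable _ _)
      (hF.intervalIntegrable _ _)).symm
  have e1 : -(Real.pi / 2) + Real.pi = Real.pi / 2 := by ring
  have e2 : Real.pi + Real.pi = 2 * Real.pi := by ring
  rw [zero_add, e1] at h1
  rw [e1, e2] at h2
  rw [h3, h1, h2]
  have h4 : ∫ x in (-(Real.pi / 2))..(Real.pi / 2), F x =
      ∫ x in Ioo (-(Real.pi / 2)) (Real.pi / 2), F x := by
    rw [intervalIntegral.integral_of_le (by linarith [Real.pi_pos]), integral_Ioc_eq_integral_Ioo]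
  rw [h4]; ring

/-- The substitution. -/
def f (s η : ℝ) : ℝ := Real.arctan (s * Real.tan η)

theorem hasDeriv (s η : ℝ) (hη : η ∈ Ioo (-(Real.pi / 2)) (Real.pi / 2)) :
    HasDerivAt (f s) (1 / (1 + (s * Real.tan η) ^ 2) * (s * (1 / Real.cos η ^ 2))) η := by
  have hc : Real.cos η ≠ 0 := (Real.cos_pos_of_mem_Ioo hη).ne'
  exact ((Real.hasDerivAt_tan hc).const_mul s).arctan

theorem f_mem (s η : ℝ) : f s η ∈ Ioo (-(Real.pi / 2)) (Real.pi / 2) :=
  ⟨Real.neg_pi_div_two_lt_arctan _, Real.arctan_lt_pi_div_two _⟩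

theorem inj (s : ℝ) (hs : 0 < s) : InjOn (f s) (Ioo (-(Real.pi / 2)) (Real.pi / 2)) := by
  intro x hx y hy h
  have h1 : s * Real.tan x = s * Real.tan y := Real.arctan_injective h
  have h2 : Real.tan x = Real.tan y := mul_left_cancel₀ hs.ne' h1
  exact Real.injOn_tan hx hy h2

theorem image (s : ℝ) (hs : 0 < s) : f s '' (Ioo (-(Real.pi / 2)) (Real.pi / 2)) =
    Ioo (-(Real.pi / 2)) (Real.pi / 2) := by
  apply Subset.antisymm
  · rintro _ ⟨x, _, rfl⟩
    exact f_mem s x
  · intro y hy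
    refine ⟨Real.arctan (Real.tan y / s),
      ⟨Real.neg_pi_div_two_lt_arctan _, Real.arctan_lt_pi_div_two _⟩, ?_⟩
    unfold f
    rw [Real.tan_arctan, mul_div_cancel₀ _ hs.ne']
    exact Real.arctan_tan hy.1 hy.2

theorem pointwise (m : ℕ) (s α β η : ℝ) (hs : 0 < s)
    (hη : η ∈ Ioo (-(Real.pi / 2)) (Real.pi / 2)) :
    |1 / (1 + (s * Real.tan η) ^ 2) * (s * (1 / Real.cos η ^ 2))| *
      (|Real.cos (f s η)| ^ m * |α * Real.sin (f s η) + β * Real.cos (f s η)| /
        Real.sqrt (Real.sin (f s η) ^ 2 + s ^ 2 * Real.cos (f s η) ^ 2) ^ (m + 3)) =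
    (1 / s ^ (m + 2)) * (|Real.cos η| ^ m * |α * s * Real.sin η + β * Real.cos η|) := by
  have hc : 0 < Real.cos η := Real.cos_pos_of_mem_Ioo hη
  set c := Real.cos η with hcdef
  set t := Real.sin η with htdef
  have htan : Real.tan η = t / c := Real.tan_eq_sin_div_cos η
  have hW : 0 < c ^ 2 + s ^ 2 * t ^ 2 := by positivity
  set w := Real.sqrt (c ^ 2 + s ^ 2 * t ^ 2) with hw
  have hw0 : 0 < w := Real.sqrt_pos.2 hW
  have hw2 : w ^ 2 = c ^ 2 + s ^ 2 * t ^ 2 := Real.sq_sqrt hW.le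
  have hsq : 1 + (s * Real.tan η) ^ 2 = (w / c) ^ 2 := by
    rw [htan, div_pow, hw2]; field_simp
  have hroot : Real.sqrt (1 + (s * Real.tan η) ^ 2) = w / c := by
    rw [hsq, Real.sqrt_sq (by positivity)]
  have hcos : Real.cos (f s η) = c / w := by
    unfold f
    rw [Real.cos_arctan, hroot]; field_simp
  have hsin : Real.sin (f s η) = s * t / w := by
    unfold f
    rw [Real.sin_arctan, hroot, htan]; field_simp
  have hst : t ^ 2 + c ^ 2 = 1 := Real.sin_sq_add_cos_sq η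
  have h3 : Real.sqrt (Real.sin (f s η) ^ 2 + s ^ 2 * Real.cos (f s η) ^ 2) = s / w := by
    have : Real.sin (f s η) ^ 2 + s ^ 2 * Real.cos (f s η) ^ 2 = (s / w) ^ 2 := by
      rw [hcos, hsin, div_pow, div_pow, div_pow, mul_pow]
      have : s ^ 2 * t ^ 2 / w ^ 2 + s ^ 2 * (c ^ 2 / w ^ 2) = s ^ 2 * (t ^ 2 + c ^ 2) / w ^ 2 := by
        ring
      rw [this, hst, mul_one]
    rw [this, Real.sqrt_sq (by positivity)]
  have h4 : α * Real.sin (f s η) + β * Real.cos (f s η) = (α * s * t + β * c) / w := by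
    rw [hcos, hsin]; ring
  rw [h3, h4, hcos, hsq, abs_div, abs_div, abs_of_pos hw0, abs_of_pos hc]
  have h5 : |1 / (w / c) ^ 2 * (s * (1 / c ^ 2))| = s / w ^ 2 := by
    rw [abs_of_pos (by positivity)]; field_simp
  rw [h5, div_pow, div_pow]
  field_simp
  ring

end XK1

theorem iK1 : StK1 := by
  intro m s α β hs
  have hcontR : Continuous fun χ : ℝ => |Real.cos χ| ^ m * |α * s * Real.sin χ + β * Real.cos χ| := by
    fun_prop
  have hpos : ∀ χ : ℝ, 0 < Real.sin χ ^ 2 + s ^ 2 * Real.cos χ ^ 2 := by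
    intro χ
    by_cases h : Real.cos χ = 0
    · have := Real.sin_sq_add_cos_sq χ
      rw [h] at this ⊢
      nlinarith
    · have : 0 < Real.cos χ ^ 2 := by positivity
      positivity
  have hcontL : Continuous fun χ : ℝ => |Real.cos χ| ^ m * |α * Real.sin χ + β * Real.cos χ| /
      Real.sqrt (Real.sin χ ^ 2 + s ^ 2 * Real.cos χ ^ 2) ^ (m + 3) := by
    apply Continuous.div
    · fun_prop
    · fun_prop
    · intro χ
      exact pow_ne_zero _ (Real.sqrt_pos.2 (hpos χ)).ne'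
  rw [XK1.two_periods _ hcontL, XK1.two_periods _ hcontR]
  · have h := integral_image_eq_integral_abs_deriv_smul (s := Ioo (-(Real.pi / 2)) (Real.pi / 2))
      (f := XK1.f s) (f' := fun η => 1 / (1 + (s * Real.tan η) ^ 2) * (s * (1 / Real.cos η ^ 2)))
      measurableSet_Ioo (fun η hη => (XK1.hasDeriv s η hη).hasDerivWithinAt) (XK1.inj s hs)
      (fun χ => |Real.cos χ| ^ m * |α * Real.sin χ + β * Real.cos χ| /
        Real.sqrt (Real.sin χ ^ 2 + s ^ 2 * Real.cos χ ^ 2) ^ (m + 3))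
    rw [XK1.image s hs] at h
    rw [h]
    have h2 : ∫ η in Ioo (-(Real.pi / 2)) (Real.pi / 2),
        |1 / (1 + (s * Real.tan η) ^ 2) * (s * (1 / Real.cos η ^ 2))| •
      (|Real.cos (XK1.f s η)| ^ m * |α * Real.sin (XK1.f s η) + β * Real.cos (XK1.f s η)| /
        Real.sqrt (Real.sin (XK1.f s η) ^ 2 + s ^ 2 * Real.cos (XK1.f s η) ^ 2) ^ (m + 3)) =
        ∫ η in Ioo (-(Real.pi / 2)) (Real.pi / 2),
          (1 / s ^ (m + 2)) * (|Real.cos η| ^ m * |α * s * Real.sin η + β * Real.cos η|) := by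
      apply setIntegral_congr_fun measurableSet_Ioo
      intro η hη
      exact XK1.pointwise m s α β η hs hη
    rw [h2, integral_const_mul]
    ring
  · intro x
    simp only [Real.cos_add_pi, Real.sin_add_pi]
    have : α * s * -Real.sin x + β * -Real.cos x = -(α * s * Real.sin x + β * Real.cos x) := by ring
    rw [abs_neg, this, abs_neg]
  · intro x
    simp only [Real.cos_add_pi, Real.sin_add_pi]
    have : α * -Real.sin x + β * -Real.cos x = -(α * Real.sin x + β * Real.cos x) := by ring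
    rw [abs_neg, this, abs_neg, neg_sq, neg_sq]

end Pool.Agent.Work.MP_02f065_gt.Cvx
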