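import Pool.Agent.Work.MP_02f065_gt.Cvx.Stmts

/-!
MP_02f065_gt, block CVX: the main theorem from the items.
-/

open MeasureTheory Set Filter Topology

noncomputable section

namespace Pool.Agent.Work.MP_02f065_gt.Cvx

open Pool.Agent.Work.MP_02f065_gt.RPn

namespace XMAIN

lemma int_one_pos (Q : ℕ) (hQ : 2 ≤ Q) :
    0 < ∫ _y : Metric.sphere (0 : E (Ix 1 Q)) 1, (1 : ℝ)
      ∂((volume : Measure (E (Ix 1 Q))).toSphere) := by
  haveI : Nonempty (Ix 1 Q) := ⟨Sum.inl 0⟩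
  haveI : Nontrivial (E (Ix 1 Q)) := by
    refine ⟨⟨EuclideanSpace.single (Sum.inl 0) 1, 0, ?_⟩⟩
    intro h
    have := congrArg (fun z : E (Ix 1 Q) => ‖z‖) h
    simp at this
  rw [integral_const, smul_eq_mul, mul_one]
  rw [Measure.real, ENNReal.toReal_pos_iff]
  constructor
  · rw [Measure.toSphere_apply_univ]
    refine ENNReal.mul_pos ?_ ?_
    · simp [Module.finrank_pos.ne']
    · exact (Metric.measure_ball_pos volume (0 : E (Ix 1 Q)) one_pos).ne'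
  · exact measure_lt_top _ _

end XMAIN

theorem iMAIN (hB : StBas) (hM : StMet) (hP : StPlane) (hF : StFr) (hA : StAvg) (hMn : StMean)
    (hV : StVol) (h6 : claimA6) : StMain := by
  intro Q hQ k N hN hI
  have hg : IsMetric (induced k N) := (hM (Ix 1 Q) N k hN hI).1
  refine ⟨hg, ?_⟩
  haveI : Nontrivial (Ix 1 Q) :=
    ⟨⟨Sum.inl 0, Sum.inr ⟨0, by omega⟩, by simp⟩⟩
  obtain ⟨L, hL, hS, γ, hγ⟩ := h6 (Ix 1 Q) (induced k N) hg
  refine ⟨γ, L, hγ, ?_⟩
  have hcard : Fintype.card (Ix 1 Q) = Q + 1 := by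
    simp [Fintype.card_sum, add_comm]
  obtain ⟨hv1, hv2, hc1, hc2⟩ := hV (Ix 1 Q) N k hN hI (by rw [hcard]; omega)
  rw [hcard] at hc1 hv1
  have hpl : ∀ x v : E (Ix 1 Q), ON x v →
      (L / Real.pi) ^ Q ≤ (Q / (8 * Real.pi)) * ∫ φ in (0 : ℝ)..(2 * Real.pi),
    (1 / S k N (gc x v φ) ^ (Q + 1)) * ∫ χ in (0 : ℝ)..(2 * Real.pi), |Real.cos χ| ^ (Q - 1) *
      |inner ℝ (dv k N (gc x v φ)) (Real.sin χ • gc x v φ - Real.cos χ • gd x v φ)| := by
    intro x v hxv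
    exact hP (Ix 1 Q) N k L hN hI hL hS x v hxv Q (by omega)
  obtain ⟨Fr⟩ := hF Q hQ
  let x₀ : E (Ix 1 Q) := EuclideanSpace.single (Sum.inl 0) 1
  have hx₀ : ‖x₀‖ = 1 := by simp [x₀]
  have hmean := hMn Q hQ Fr (fun x => 1 / S k N x ^ (Q + 1)) (dv k N) ((L / Real.pi) ^ Q)
    hc1 hc2 hpl x₀ hx₀
  have hcont : ContinuousOn (volDensity (induced k N)) (Metric.sphere (0 : E (Ix 1 Q)) 1) := by
    refine (hc1.mul hc2.norm).congr ?_
    intro x hx
    exact hv1 x (by simpa using hx)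
  have havg := hA Q hQ Fr (volDensity (induced k N)) hcont x₀ hx₀
  have heq : ∀ ω, volDensity (induced k N) (Fr.A ω x₀) =
      (1 / S k N (Fr.A ω x₀) ^ (Q + 1)) * ‖dv k N (Fr.A ω x₀)‖ := by
    intro ω
    exact hv1 _ (by rw [(Fr.A ω).norm_map]; exact hx₀)
  simp only [heq] at havg
  have hround : vol (RPn.round : RPn.Field (Ix 1 Q)) =
      (1 / 2) * ∫ _y : Metric.sphere (0 : E (Ix 1 Q)) 1, (1 : ℝ)
      ∂((volume : Measure (E (Ix 1 Q))).toSphere) := by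
    unfold vol
    congr 1
    refine integral_congr_ae (Eventually.of_forall fun y => ?_)
    exact hv2 y (by simpa using y.2)
  have hpos := XMAIN.int_one_pos Q hQ
  rw [hround, le_div_iff₀ (by positivity)]
  unfold vol
  rw [← havg]
  nlinarith [mul_le_mul_of_nonneg_left hmean hpos.le]

end Pool.Agent.Work.MP_02f065_gt.Cvx
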