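import Pool.Agent.Work.MP_02f065_gt.Cvx.Stmts

/-!
MP_02f065_gt, block CVX, item MEAN: the average of the inequality in one plane over all planes.
-/

open MeasureTheory Set Filter Topology

noncomputable section

namespace Pool.Agent.Work.MP_02f065_gt.Cvx

open Pool.Agent.Work.MP_02f065_gt.RPn

namespace XMEAN

/-- Fubini for a bounded function of a random parameter and two angles. -/
theorem fub {Ω : Type} [MeasurableSpace Ω] (μ : Measure Ω) [IsProbabilityMeasure μ]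
    (G : Ω → ℝ → ℝ → ℝ) (hm : Measurable fun p : Ω × (ℝ × ℝ) => G p.1 p.2.1 p.2.2)
    (C : ℝ) (hC : ∀ ω φ χ, |G ω φ χ| ≤ C) (B c : ℝ) (H : ℝ → ℝ)
    (hB : ∀ ω, B ≤ c * ∫ φ in (0 : ℝ)..(2 * Real.pi), ∫ χ in (0 : ℝ)..(2 * Real.pi), G ω φ χ)
    (hH : ∀ φ χ, ∫ ω, G ω φ χ ∂μ = H χ) :
    B ≤ c * (2 * Real.pi * ∫ χ in (0 : ℝ)..(2 * Real.pi), H χ) := by
  have hpi : (0 : ℝ) ≤ 2 * Real.pi := by positivity
  set ν : Measure ℝ := volume.restrict (Ioc 0 (2 * Real.pi)) with hν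
  have : IsFiniteMeasure ν := by
    constructor
    rw [hν, Measure.restrict_apply_univ, Real.volume_Ioc]
    exact ENNReal.ofReal_lt_top
  have hint : Integrable (fun p : Ω × (ℝ × ℝ) => G p.1 p.2.1 p.2.2) (μ.prod (ν.prod ν)) := by
    refine Integrable.of_bound hm.aestronglyMeasurable C (Filter.Eventually.of_forall fun p => ?_)
    rw [Real.norm_eq_abs]
    exact hC _ _ _
  have hin : ∀ ω, Integrable (fun z : ℝ × ℝ => G ω z.1 z.2) (ν.prod ν) := by
    intro ω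
    have h0 : Measurable (fun z : ℝ × ℝ => G ω z.1 z.2) :=
      hm.comp (measurable_const.prodMk measurable_id)
    refine Integrable.of_bound h0.aestronglyMeasurable C (Filter.Eventually.of_forall fun p => ?_)
    rw [Real.norm_eq_abs]
    exact hC _ _ _
  have h1 : ∀ ω, ∫ φ in (0 : ℝ)..(2 * Real.pi), ∫ χ in (0 : ℝ)..(2 * Real.pi), G ω φ χ =
      ∫ z, G ω z.1 z.2 ∂(ν.prod ν) := by
    intro ω
    rw [integral_prod _ (hin ω), intervalIntegral.integral_of_le hpi]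
    refine integral_congr_ae (Filter.Eventually.of_forall fun φ => ?_)
    simp only [intervalIntegral.integral_of_le hpi]
    rfl
  have h2 : B ≤ ∫ ω, c * ∫ z, G ω z.1 z.2 ∂(ν.prod ν) ∂μ := by
    have h0 : ∫ _ω : Ω, B ∂μ = B := by simp
    calc B = ∫ _ω : Ω, B ∂μ := h0.symm
      _ ≤ _ := by
        refine integral_mono (integrable_const _) (hint.integral_prod_left.const_mul c) ?_
        intro ω
        have := hB ω
        rw [h1] at this
        exact this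
  rw [integral_const_mul, integral_integral_swap hint] at h2
  have h3 : ∫ z : ℝ × ℝ, ∫ ω, G ω z.1 z.2 ∂μ ∂(ν.prod ν) =
      2 * Real.pi * ∫ χ in (0 : ℝ)..(2 * Real.pi), H χ := by
    have h4 : (fun z : ℝ × ℝ => ∫ ω, G ω z.1 z.2 ∂μ) = fun z => (fun _ => (1 : ℝ)) z.1 * H z.2 := by
      funext z
      rw [hH]
      simp
    have h5 := integral_prod_mul (μ := ν) (ν := ν) (fun _ : ℝ => (1 : ℝ)) H
    rw [h4]
    refine h5.trans ?_
    rw [intervalIntegral.integral_of_le hpi, integral_const]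
    congr 1
    rw [hν]
    simp [Real.pi_pos.le]
  rw [h3] at h2
  exact h2

theorem exists_ON {Q : ℕ} (hQ : 2 ≤ Q) (x : E (Ix 1 Q)) (hx : ‖x‖ = 1) :
    ∃ v : E (Ix 1 Q), ON x v := by
  classical
  set i : Ix 1 Q := Sum.inl ⟨0, by omega⟩ with hi
  set j : Ix 1 Q := Sum.inr ⟨0, by omega⟩ with hj
  have hij : i ≠ j := by simp [hi, hj]
  obtain ⟨v, hv0, hv⟩ : ∃ v : E (Ix 1 Q), v ≠ 0 ∧ inner ℝ x v = 0 := by
    by_cases h0 : x j = 0
    · refine ⟨EuclideanSpace.single j (1 : ℝ), ?_, ?_⟩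
      · intro h
        have := congrArg (fun z : E (Ix 1 Q) => z j) h
        simp at this
      · rw [EuclideanSpace.inner_single_right]
        simp [h0]
    · refine ⟨(x j) • EuclideanSpace.single i (1 : ℝ) -
        (x i) • EuclideanSpace.single j (1 : ℝ), ?_, ?_⟩
      · intro h
        have := congrArg (fun z : E (Ix 1 Q) => z i) h
        simp [hij] at this
        exact h0 this
      · rw [inner_sub_right, inner_smul_right, inner_smul_right,
          EuclideanSpace.inner_single_right, EuclideanSpace.inner_single_right]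
        simp
        ring
  refine ⟨(‖v‖⁻¹ : ℝ) • v, hx, ?_, ?_⟩
  · rw [norm_smul, norm_inv, norm_norm, inv_mul_cancel₀ (norm_ne_zero_iff.2 hv0)]
  · rw [inner_smul_right, hv, mul_zero]

theorem ON_map {ι : Type} [Fintype ι] (A : E ι →ₗᵢ[ℝ] E ι) {x v : E ι} (h : ON x v) :
    ON (A x) (A v) := by
  obtain ⟨h1, h2, h3⟩ := h
  refine ⟨by rw [A.norm_map, h1], by rw [A.norm_map, h2], by rw [A.inner_map_map, h3]⟩

theorem ON_gc {ι : Type} [Fintype ι] {x v : E ι} (h : ON x v) (t : ℝ) :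
    ON (gc x v t) (gd x v t) := by
  obtain ⟨h1, h2, h3⟩ := h
  have h3' : inner ℝ v x = 0 := by rw [real_inner_comm]; exact h3
  have hxx : inner ℝ x x = 1 := by rw [real_inner_self_eq_norm_sq, h1]; norm_num
  have hvv : inner ℝ v v = 1 := by rw [real_inner_self_eq_norm_sq, h2]; norm_num
  have hs := Real.sin_sq_add_cos_sq t
  refine ⟨?_, ?_, ?_⟩
  · have : ‖gc x v t‖ ^ 2 = 1 := by
      rw [← real_inner_self_eq_norm_sq]
      simp only [gc, inner_add_left, inner_add_right, real_inner_smul_left, real_inner_smul_right,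
        h3, h3', hxx, hvv]
      nlinarith
    have h0 := norm_nonneg (gc x v t)
    nlinarith
  · have : ‖gd x v t‖ ^ 2 = 1 := by
      rw [← real_inner_self_eq_norm_sq]
      simp only [gd, inner_add_left, inner_add_right, real_inner_smul_left, real_inner_smul_right,
        h3, h3', hxx, hvv]
      nlinarith
    have h0 := norm_nonneg (gd x v t)
    nlinarith
  · simp only [gc, gd, inner_add_left, inner_add_right, real_inner_smul_left, real_inner_smul_right,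
      h3, h3', hxx, hvv]
    ring

theorem map_gc {ι : Type} [Fintype ι] (A : E ι →ₗᵢ[ℝ] E ι) (x v : E ι) (t : ℝ) :
    A (gc x v t) = gc (A x) (A v) t := by
  simp only [gc, map_add, map_smul]

theorem map_gd {ι : Type} [Fintype ι] (A : E ι →ₗᵢ[ℝ] E ι) (x v : E ι) (t : ℝ) :
    A (gd x v t) = gd (A x) (A v) t := by
  simp only [gd, map_add, map_smul]

end XMEAN

open XMEAN in
theorem iMEAN (hZ : StZon) : StMean := by
  classical
  intro Q hQ Fr Ψ d B hΨ hd hB x hx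
  let _ := Fr.ms
  have := Fr.prob
  change B ≤ ∫ ω, Ψ (Fr.A ω x) * ‖d (Fr.A ω x)‖ ∂Fr.μ
  obtain ⟨v, hxv⟩ := exists_ON hQ x hx
  -- bounds
  have hK : IsCompact (Metric.sphere (0 : E (Ix 1 Q)) 1) := isCompact_sphere 0 1
  obtain ⟨C1, hC1⟩ := hK.exists_bound_of_continuousOn hΨ
  obtain ⟨C2, hC2⟩ := hK.exists_bound_of_continuousOn hd
  have hC1n : 0 ≤ C1 := (norm_nonneg _).trans (hC1 x (by simp [hx]))
  have hC2n : 0 ≤ C2 := (norm_nonneg _).trans (hC2 x (by simp [hx]))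
  -- measurable extensions
  have hSm : MeasurableSet (Metric.sphere (0 : E (Ix 1 Q)) 1) := Metric.isClosed_sphere.measurableSet
  obtain ⟨Ψ', hΨ'm, hΨ'⟩ : ∃ Ψ' : E (Ix 1 Q) → ℝ, Measurable Ψ' ∧ ∀ y, ‖y‖ = 1 → Ψ' y = Ψ y := by
    refine ⟨(Metric.sphere (0 : E (Ix 1 Q)) 1).piecewise Ψ (fun _ => 0),
      hΨ.measurable_piecewise continuousOn_const hSm, fun y hy => ?_⟩
    exact Set.piecewise_eq_of_mem _ _ _ (by simp [hy])
  obtain ⟨d', hd'm, hd'⟩ : ∃ d' : E (Ix 1 Q) → E (Ix 1 Q), Measurable d' ∧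
      ∀ y, ‖y‖ = 1 → d' y = d y := by
    refine ⟨(Metric.sphere (0 : E (Ix 1 Q)) 1).piecewise d (fun _ => 0),
      hd.measurable_piecewise continuousOn_const hSm, fun y hy => ?_⟩
    exact Set.piecewise_eq_of_mem _ _ _ (by simp [hy])
  have hAx := Fr.meas x
  have hAv := Fr.meas v
  -- the function
  set G : Fr.Ω → ℝ → ℝ → ℝ := fun ω φ χ =>
    Ψ' (gc (Fr.A ω x) (Fr.A ω v) φ) * (|Real.cos χ| ^ (Q - 1) *
      |inner ℝ (d' (gc (Fr.A ω x) (Fr.A ω v) φ)) (Real.sin χ • gc (Fr.A ω x) (Fr.A ω v) φ -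
        Real.cos χ • gd (Fr.A ω x) (Fr.A ω v) φ)|) with hG
  set H : ℝ → ℝ := fun χ => |Real.cos χ| ^ (Q - 1) *
      ∫ ω, Ψ (Fr.A ω x) * |inner ℝ (d (Fr.A ω x)) (Real.sin χ • Fr.A ω x -
        Real.cos χ • Fr.A ω v)| ∂Fr.μ with hH
  have hmA : Measurable fun p : Fr.Ω × (ℝ × ℝ) => gc (Fr.A p.1 x) (Fr.A p.1 v) p.2.1 := by
    unfold gc
    have h1 : Measurable fun p : Fr.Ω × (ℝ × ℝ) => Fr.A p.1 x := hAx.comp measurable_fst
    have h2 : Measurable fun p : Fr.Ω × (ℝ × ℝ) => Fr.A p.1 v := hAv.comp measurable_fst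
    have h3 : Measurable fun p : Fr.Ω × (ℝ × ℝ) => Real.cos p.2.1 := by fun_prop
    have h4 : Measurable fun p : Fr.Ω × (ℝ × ℝ) => Real.sin p.2.1 := by fun_prop
    exact (h3.smul h1).add (h4.smul h2)
  have hmB : Measurable fun p : Fr.Ω × (ℝ × ℝ) => gd (Fr.A p.1 x) (Fr.A p.1 v) p.2.1 := by
    unfold gd
    have h1 : Measurable fun p : Fr.Ω × (ℝ × ℝ) => Fr.A p.1 x := hAx.comp measurable_fst
    have h2 : Measurable fun p : Fr.Ω × (ℝ × ℝ) => Fr.A p.1 v := hAv.comp measurable_fst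
    have h3 : Measurable fun p : Fr.Ω × (ℝ × ℝ) => Real.cos p.2.1 := by fun_prop
    have h4 : Measurable fun p : Fr.Ω × (ℝ × ℝ) => -Real.sin p.2.1 := by fun_prop
    exact (h4.smul h1).add (h3.smul h2)
  have hGm : Measurable fun p : Fr.Ω × (ℝ × ℝ) => G p.1 p.2.1 p.2.2 := by
    have h3 : Measurable fun p : Fr.Ω × (ℝ × ℝ) => Real.cos p.2.2 := by fun_prop
    have h4 : Measurable fun p : Fr.Ω × (ℝ × ℝ) => Real.sin p.2.2 := by fun_prop
    have h5 := (hd'm.comp hmA).inner ((h4.smul hmA).sub (h3.smul hmB)) (𝕜 := ℝ)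
    have h6 := (hΨ'm.comp hmA).mul ((h3.abs.pow_const (Q - 1)).mul h5.abs)
    exact h6
  have hGb : ∀ ω φ χ, |G ω φ χ| ≤ C1 * (1 * (C2 * 2)) := by
    intro ω φ χ
    obtain ⟨ha, hb, -⟩ := ON_gc (ON_map (Fr.A ω) hxv) φ
    rw [hG]
    simp only
    rw [hΨ' _ ha, hd' _ ha, abs_mul, abs_mul]
    have e1 : |Ψ (gc (Fr.A ω x) (Fr.A ω v) φ)| ≤ C1 := hC1 _ (by simp [ha])
    have e2 : |(|Real.cos χ| ^ (Q - 1))| ≤ 1 := by
      rw [abs_of_nonneg (by positivity)]
      exact pow_le_one₀ (abs_nonneg _) (Real.abs_cos_le_one χ)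
    have e3 : |(|inner ℝ (d (gc (Fr.A ω x) (Fr.A ω v) φ)) (Real.sin χ •
        gc (Fr.A ω x) (Fr.A ω v) φ - Real.cos χ • gd (Fr.A ω x) (Fr.A ω v) φ)|)| ≤ C2 * 2 := by
      rw [abs_abs]
      refine (abs_real_inner_le_norm _ _).trans ?_
      refine mul_le_mul (hC2 _ (by simp [ha])) ?_ (norm_nonneg _) hC2n
      refine (norm_sub_le _ _).trans ?_
      rw [norm_smul, norm_smul, ha, hb, Real.norm_eq_abs, Real.norm_eq_abs]
      have := Real.abs_cos_le_one χ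
      have := Real.abs_sin_le_one χ
      linarith
    refine mul_le_mul e1 ?_ (by positivity) hC1n
    exact mul_le_mul e2 e3 (abs_nonneg _) zero_le_one
  have hB' : ∀ ω, B ≤ (Q / (8 * Real.pi)) * ∫ φ in (0 : ℝ)..(2 * Real.pi),
      ∫ χ in (0 : ℝ)..(2 * Real.pi), G ω φ χ := by
    intro ω
    have h0 := hB _ _ (ON_map (Fr.A ω) hxv)
    refine h0.trans (le_of_eq ?_)
    congr 1
    refine intervalIntegral.integral_congr fun φ _ => ?_
    obtain ⟨ha, hb, -⟩ := ON_gc (ON_map (Fr.A ω) hxv) φ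
    simp only [hG]
    rw [intervalIntegral.integral_const_mul, hΨ' _ ha, hd' _ ha]
  have hH' : ∀ φ χ, ∫ ω, G ω φ χ ∂Fr.μ = H χ := by
    intro φ χ
    have hF : ContinuousOn (fun z : E (Ix 1 Q) × E (Ix 1 Q) => Ψ z.1 *
        |inner ℝ (d z.1) (Real.sin χ • z.1 - Real.cos χ • z.2)|) {z | ON z.1 z.2} := by
      have hmt : MapsTo (fun z : E (Ix 1 Q) × E (Ix 1 Q) => z.1) {z | ON z.1 z.2}
          (Metric.sphere (0 : E (Ix 1 Q)) 1) := by
        intro z hz
        simp only [mem_sphere_iff_norm, sub_zero]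
        exact hz.1
      have h1 : ContinuousOn (fun z : E (Ix 1 Q) × E (Ix 1 Q) => Ψ z.1) {z | ON z.1 z.2} :=
        hΨ.comp continuousOn_fst hmt
      have h2 : ContinuousOn (fun z : E (Ix 1 Q) × E (Ix 1 Q) => d z.1) {z | ON z.1 z.2} :=
        hd.comp continuousOn_fst hmt
      have h3 : ContinuousOn (fun z : E (Ix 1 Q) × E (Ix 1 Q) =>
          Real.sin χ • z.1 - Real.cos χ • z.2) {z | ON z.1 z.2} := by fun_prop
      exact h1.mul (h2.inner h3).abs
    have h0 := Fr.inv _ hF _ _ _ _ (ON_gc hxv φ) hxv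
    rw [hH]
    simp only
    rw [← h0, ← integral_const_mul]
    refine integral_congr_ae (Filter.Eventually.of_forall fun ω => ?_)
    obtain ⟨ha, hb, -⟩ := ON_gc (ON_map (Fr.A ω) hxv) φ
    simp only [hG]
    rw [hΨ' _ ha, hd' _ ha, map_gc, map_gd]
    ring
  have hfin := fub Fr.μ G hGm _ hGb B _ H hB' hH'
  have hz := hZ Q hQ Fr Ψ d hΨ hd x v hxv
  rw [hH] at hfin
  have hpi := Real.pi_pos
  refine hfin.trans (le_of_eq ?_)
  have hz' : (Q : ℝ) * ∫ χ in (0 : ℝ)..(2 * Real.pi), H χ =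
      4 * ∫ ω, Ψ (Fr.A ω x) * ‖d (Fr.A ω x)‖ ∂Fr.μ := hz
  have e : (Q : ℝ) / (8 * Real.pi) * (2 * Real.pi * ∫ χ in (0 : ℝ)..(2 * Real.pi), H χ) =
      ((Q : ℝ) * ∫ χ in (0 : ℝ)..(2 * Real.pi), H χ) / 4 := by
    field_simp
    ring
  have e' : ((Q : ℝ) * ∫ χ in (0 : ℝ)..(2 * Real.pi), H χ) / 4 =
      ∫ ω, Ψ (Fr.A ω x) * ‖d (Fr.A ω x)‖ ∂Fr.μ := by
    rw [hz']
    ring
  exact e.trans e'

end Pool.Agent.Work.MP_02f065_gt.Cvx
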