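import Pool.Agent.Work.MP_02f065_gt.Cvx.Stmts2

/-!
MP_02f065_gt, block CVX2, item MET2 (11996): the induced metric.
-/

open MeasureTheory Set Filter Topology

noncomputable section

namespace Pool.Agent.Work.MP_02f065_gt.Cvx

open Pool.Agent.Work.MP_02f065_gt.RPn

namespace XMET2

variable {ι : Type} [Fintype ι]

/-- Derivative of the radial parametrisation. -/
lemma hasFDerivAt_rad {N : E ι → ℝ} {x : E ι} (hd : HasFDerivAt N (fderiv ℝ N x) x)
    (h0 : N x ≠ 0) :
    HasFDerivAt (rad N) ((N x)⁻¹ • ContinuousLinearMap.id ℝ (E ι) +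
      (-(N x ^ 2)⁻¹ • fderiv ℝ N x).smulRight x) x := by
  have h1 : HasFDerivAt (fun y => (N y)⁻¹) (-(N x ^ 2)⁻¹ • fderiv ℝ N x) x := by
    have := (hasDerivAt_inv h0).comp_hasFDerivAt x hd
    exact this
  have h2 := h1.smul (hasFDerivAt_id x)
  exact h2

lemma fderiv_rad {N : E ι → ℝ} {x : E ι} (hd : HasFDerivAt N (fderiv ℝ N x) x)
    (h0 : N x ≠ 0) (v : E ι) :
    fderiv ℝ (rad N) x v = (N x)⁻¹ • v - (fderiv ℝ N x v / N x ^ 2) • x := by
  rw [(hasFDerivAt_rad hd h0).fderiv]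
  simp only [_root_.add_apply, _root_.smul_apply,
    ContinuousLinearMap.id_apply, ContinuousLinearMap.smulRight_apply, smul_eq_mul]
  rw [sub_eq_add_neg, ← neg_smul]
  congr 2
  rw [div_eq_mul_inv]
  ring

/-- The formula for the induced metric. -/
lemma formula {N : E ι → ℝ} {k lam : ℝ} {x v w : E ι} (hd : HasFDerivAt N (fderiv ℝ N x) x)
    (hN : 0 < N x) (hk : 0 < N x ^ 2 + k) (hx : ‖x‖ = 1) (hv : inner ℝ x v = 0)
    (hw : inner ℝ x w = 0) :
    induced2 k lam N x v w = lam ^ 2 * inner ℝ v w / (N x ^ 2 + k) +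
      fderiv ℝ N x v * fderiv ℝ N x w / (N x ^ 2 + k) ^ 2 := by
  have h0 : N x ≠ 0 := hN.ne'
  have hxx : inner ℝ x x = (1 : ℝ) := by
    rw [real_inner_self_eq_norm_sq, hx]; norm_num
  have hvx : inner ℝ v x = 0 := by rw [real_inner_comm]; exact hv
  unfold induced2 wform
  rw [fderiv_rad hd h0 v, fderiv_rad hd h0 w]
  have e1 : ‖rad N x‖ ^ 2 = (N x ^ 2)⁻¹ := by
    unfold rad
    rw [norm_smul, hx, mul_one, Real.norm_eq_abs, sq_abs, inv_pow]
  have e2 : ∀ (u : E ι), inner ℝ x u = 0 →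
      inner ℝ (rad N x) ((N x)⁻¹ • u - (fderiv ℝ N x u / N x ^ 2) • x) =
        -(fderiv ℝ N x u / N x ^ 3) := by
    intro u hu
    unfold rad
    rw [inner_sub_right, real_inner_smul_left, real_inner_smul_left, real_inner_smul_right,
      real_inner_smul_right, hu, hxx]
    field_simp
    ring
  have e3 : inner ℝ ((N x)⁻¹ • v - (fderiv ℝ N x v / N x ^ 2) • x)
      ((N x)⁻¹ • w - (fderiv ℝ N x w / N x ^ 2) • x) =
        inner ℝ v w / N x ^ 2 + fderiv ℝ N x v * fderiv ℝ N x w / N x ^ 4 := by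
    rw [inner_sub_left, inner_sub_right, inner_sub_right]
    simp only [real_inner_smul_left, real_inner_smul_right]
    rw [hvx, hw, hxx]
    field_simp
    ring
  rw [e1, e2 v hv, e2 w hw, e3]
  have h3 : (1 : ℝ) + k * (N x ^ 2)⁻¹ = (N x ^ 2 + k) / N x ^ 2 := by
    field_simp
  rw [h3]
  have hk' : N x ^ 2 + k ≠ 0 := hk.ne'
  field_simp
  ring

end XMET2

open XMET2 in
theorem iMET2 (hB : StBas2) : StMet2 := by
  intro ι _ N k lam hlam hN hI
  obtain ⟨-, hb, hcN, hcD, -, -⟩ := hB ι N k lam hlam hN hI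
  have hne : ∀ x : E ι, ‖x‖ = 1 → x ≠ 0 := by
    intro x hx h
    rw [h, norm_zero] at hx
    exact zero_ne_one hx
  have hform : ∀ x v w : E ι, ‖x‖ = 1 → inner ℝ x v = 0 → inner ℝ x w = 0 →
      induced2 k lam N x v w = lam ^ 2 * inner ℝ v w / (N x ^ 2 + k) +
        fderiv ℝ N x v * fderiv ℝ N x w / (N x ^ 2 + k) ^ 2 := by
    intro x v w hx hv hw
    exact formula (hb x (hne x hx)).1 (hN.pos x hx) (hI x hx) hx hv hw
  refine ⟨⟨?_, ?_, ?_, ?_, ?_, ?_⟩, hform⟩
  · intro x v v' w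
    unfold induced2 wform
    rw [map_add, inner_add_left, inner_add_right]
    ring
  · intro x v w r
    unfold induced2 wform
    rw [map_smul, real_inner_smul_left, real_inner_smul_right]
    ring
  · intro x v w
    unfold induced2 wform
    rw [real_inner_comm]
    ring
  · intro v w
    have hcrad : ContinuousOn (rad N) (Metric.sphere (0 : E ι) 1) := by
      unfold rad
      refine ContinuousOn.smul (ContinuousOn.inv₀ hcN ?_) continuousOn_id
      intro x hx
      rw [mem_sphere_zero_iff_norm] at hx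
      exact (hN.pos x hx).ne'
    have hcf : ∀ u : E ι, ContinuousOn (fun x => fderiv ℝ (rad N) x u)
        (Metric.sphere (0 : E ι) 1) := by
      intro u
      have h1 : ContinuousOn (fun x => (N x)⁻¹ • u - (fderiv ℝ N x u / N x ^ 2) • x)
          (Metric.sphere (0 : E ι) 1) := by
        refine ContinuousOn.sub (ContinuousOn.smul (ContinuousOn.inv₀ hcN ?_)
          continuousOn_const) (ContinuousOn.smul (ContinuousOn.div ?_ (hcN.pow 2) ?_)
          continuousOn_id)
        · intro x hx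
          rw [mem_sphere_zero_iff_norm] at hx
          exact (hN.pos x hx).ne'
        · exact hcD.clm_apply continuousOn_const
        · intro x hx
          rw [mem_sphere_zero_iff_norm] at hx
          exact pow_ne_zero 2 (hN.pos x hx).ne'
      refine h1.congr ?_
      intro x hx
      rw [mem_sphere_zero_iff_norm] at hx
      exact fderiv_rad (hb x (hne x hx)).1 (hN.pos x hx).ne' u
    have hrad : ∀ x ∈ Metric.sphere (0 : E ι) 1, ‖rad N x‖ ^ 2 = (N x ^ 2)⁻¹ := by
      intro x hx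
      rw [mem_sphere_zero_iff_norm] at hx
      unfold rad
      rw [norm_smul, hx, mul_one, Real.norm_eq_abs, sq_abs, inv_pow]
    have hradne : ∀ x ∈ Metric.sphere (0 : E ι) 1, ‖rad N x‖ ^ 2 ≠ 0 := by
      intro x hx
      rw [hrad x hx]
      rw [mem_sphere_zero_iff_norm] at hx
      exact inv_ne_zero (pow_ne_zero 2 (hN.pos x hx).ne')
    have hden : ∀ x ∈ Metric.sphere (0 : E ι) 1, (1 : ℝ) + k * ‖rad N x‖ ^ 2 ≠ 0 := by
      intro x hx
      rw [hrad x hx]
      rw [mem_sphere_zero_iff_norm] at hx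
      have h0 : 0 < N x := hN.pos x hx
      have h3 : (1 : ℝ) + k * (N x ^ 2)⁻¹ = (N x ^ 2 + k) / N x ^ 2 := by
        field_simp
      rw [h3]
      exact (div_pos (hI x hx) (pow_pos h0 2)).ne'
    have hcn : ContinuousOn (fun x => ‖rad N x‖ ^ 2) (Metric.sphere (0 : E ι) 1) :=
      hcrad.norm.pow 2
    have hcden : ContinuousOn (fun x => (1 : ℝ) + k * ‖rad N x‖ ^ 2)
        (Metric.sphere (0 : E ι) 1) :=
      continuousOn_const.add (continuousOn_const.mul hcn)
    have hcp : ContinuousOn (fun x => inner ℝ (rad N x) (fderiv ℝ (rad N) x v) *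
        inner ℝ (rad N x) (fderiv ℝ (rad N) x w)) (Metric.sphere (0 : E ι) 1) :=
      (hcrad.inner (𝕜 := ℝ) (hcf v)).mul (hcrad.inner (𝕜 := ℝ) (hcf w))
    unfold induced2 wform
    refine ContinuousOn.add (ContinuousOn.div (continuousOn_const.mul
      (ContinuousOn.sub ((hcf v).inner (𝕜 := ℝ) (hcf w)) (ContinuousOn.div hcp hcn hradne)))
      hcden hden) (ContinuousOn.div hcp (hcn.mul (hcden.pow 2)) ?_)
    intro x hx
    exact mul_ne_zero (hradne x hx) (pow_ne_zero 2 (hden x hx))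
  · intro x v hx hv hv0
    rw [hform x v v hx hv hv]
    have h1 : 0 < inner ℝ v v := by
      rw [real_inner_self_eq_norm_sq]
      exact pow_pos (norm_pos_iff.mpr hv0) 2
    have h2 : 0 < N x ^ 2 + k := hI x hx
    have h3 : 0 ≤ fderiv ℝ N x v * fderiv ℝ N x v := mul_self_nonneg _
    have h4 : 0 < lam ^ 2 * inner ℝ v v / (N x ^ 2 + k) :=
      div_pos (mul_pos (pow_pos hlam 2) h1) h2
    have h5 : 0 ≤ fderiv ℝ N x v * fderiv ℝ N x v / (N x ^ 2 + k) ^ 2 :=
      div_nonneg h3 (pow_nonneg h2.le 2)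
    exact add_pos_of_pos_of_nonneg h4 h5
  · intro x v w hx hv hw
    have hx' : ‖-x‖ = 1 := by rw [norm_neg]; exact hx
    have hv' : inner ℝ (-x) v = 0 := by rw [inner_neg_left, hv, neg_zero]
    have hw' : inner ℝ (-x) w = 0 := by rw [inner_neg_left, hw, neg_zero]
    have h4 := (hb x (hne x hx)).2
    have h3 : N (-x) = N x := hN.even x
    rw [hform (-x) v w hx' hv' hw', hform x v w hx hv hw, h3, h4]
    simp only [_root_.neg_apply]
    ring

end Pool.Agent.Work.MP_02f065_gt.Cvx
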