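import Pool.Agent.Work.MP_02f065_gt.Cvx.Stmts2

/-!
MP_02f065_gt, block CVX2, item NORM2: norms are profiles with parameter 1.
-/

open MeasureTheory Set Filter Topology

noncomputable section

namespace Pool.Agent.Work.MP_02f065_gt.Cvx

open Pool.Agent.Work.MP_02f065_gt.RPn

namespace XNORM2

variable {ι : Type} [Fintype ι]

lemma ne_zero_of_norm {x : E ι} (hx : ‖x‖ = 1) : x ≠ 0 := by
  intro h
  rw [h, norm_zero] at hx
  norm_num at hx

lemma comb (x v : E ι) (a b : ℝ) :
    Real.sin (a + b) • x = Real.sin b • gc x v (-a) + Real.sin a • gc x v b := by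
  unfold gc
  rw [Real.cos_neg, Real.sin_neg, Real.sin_add]
  module

lemma profile {N : E ι → ℝ} (hN : IsNorm N) : IsProfile 1 N where
  diff := hN.diff
  pos := fun x hx => hN.pos x (ne_zero_of_norm hx)
  even := fun x => by
    have h := hN.hom (-1) x
    rw [neg_one_smul, abs_neg, abs_one, one_mul] at h
    exact h
  conv := fun x v _ a b ha hb hab => by
    rw [one_mul] at hab
    simp only [one_mul]
    have hsa : 0 ≤ Real.sin a := Real.sin_nonneg_of_nonneg_of_le_pi ha (by linarith)
    have hsb : 0 ≤ Real.sin b := Real.sin_nonneg_of_nonneg_of_le_pi hb (by linarith)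
    have hsab : 0 ≤ Real.sin (a + b) :=
      Real.sin_nonneg_of_nonneg_of_le_pi (by linarith) (by linarith)
    have h1 : N (Real.sin (a + b) • x) = Real.sin (a + b) * N x := by
      rw [hN.hom, abs_of_nonneg hsab]
    have h2 : N (Real.sin b • gc x v (-a)) = Real.sin b * N (gc x v (-a)) := by
      rw [hN.hom, abs_of_nonneg hsb]
    have h3 : N (Real.sin a • gc x v b) = Real.sin a * N (gc x v b) := by
      rw [hN.hom, abs_of_nonneg hsa]
    have h4 := hN.tri (Real.sin b • gc x v (-a)) (Real.sin a • gc x v b)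
    rw [← comb, h1, h2, h3] at h4
    linarith

end XNORM2

open XNORM2 in
theorem iNORM2 (_hB : StBas) (hM : StMet) (hM2 : StMet2) : StNorm2 := by
  intro ι _ N hN
  refine ⟨profile hN, ?_⟩
  intro k hk x v w hx hv hw
  rw [(hM2 ι N k 1 one_pos (profile hN) hk).2 x v w hx hv hw, (hM ι N k hN hk).2 x v w hx hv hw]
  ring

end Pool.Agent.Work.MP_02f065_gt.Cvx
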