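import Pool.Agent.Work.MP_02f065_gt.Cvx.Stmts

/-!
MP_02f065_gt, block CVX, item PLANE: the inequality in one plane.
-/

open MeasureTheory Set Filter Topology

noncomputable section

namespace Pool.Agent.Work.MP_02f065_gt.Cvx

open Pool.Agent.Work.MP_02f065_gt.RPn

theorem iPLANE (hB : StBas) (hU : StUni) (hJ : StJen) (hD : StDir) (hL : StLen) : StPlane := by
  intro ι _ N k L hN hI hL0 hS x v hxv n hn
  obtain ⟨-, -, -, -, -, hc⟩ := hB ι N k hN hI
  obtain ⟨hc1, hc2⟩ := hc x v hxv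
  have hlen := hL ι N k L hN hI hS x v hxv
  have hpi := Real.pi_pos
  have hJ' := hJ (fun z => |dqk k N x v z.1 z.2|)
    (fun z => (n : ℝ) * |qk k N x v z.1 z.2| ^ (n - 1) * |dqk k N x v z.1 z.2|) n hn hc2.abs
    ((continuous_const.mul (hc1.abs.pow _)).mul hc2.abs) (fun z => abs_nonneg _)
    (fun ψ => hU ι N k hN hI x v hxv ψ n hn)
  refine le_trans (pow_le_pow_left₀ (by positivity) ?_ n) (hJ'.trans (le_of_eq ?_))
  · rw [div_le_iff₀ hpi]
    refine hlen.trans (le_of_eq ?_)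
    field_simp
  · have hφ : ∀ φ : ℝ, (∫ ψ in (0 : ℝ)..(2 * Real.pi),
        (n : ℝ) * |qk k N x v φ ψ| ^ (n - 1) * |dqk k N x v φ ψ|) =
        (n : ℝ) * ((1 / S k N (gc x v φ) ^ (n + 1)) * ∫ χ in (0 : ℝ)..(2 * Real.pi),
          |Real.cos χ| ^ (n - 1) *
          |inner ℝ (dv k N (gc x v φ)) (Real.sin χ • gc x v φ - Real.cos χ • gd x v φ)|) := by
      intro φ
      have h1 := hD ι N k hN hI x v hxv φ (n - 1)
      have e : n - 1 + 2 = n + 1 := by omega
      rw [e] at h1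
      rw [← h1, ← intervalIntegral.integral_const_mul]
      congr 1
      ext ψ
      ring
    simp only [hφ]
    rw [intervalIntegral.integral_const_mul]
    ring

end Pool.Agent.Work.MP_02f065_gt.Cvx
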