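import Pool.Agent.Work.MP_02f065_gt.Cvx.Stmts2

/-!
MP_02f065_gt, block CVX2: item UNI2 (unimodality).
-/

open MeasureTheory Set Filter Topology

noncomputable section

namespace Pool.Agent.Work.MP_02f065_gt.Cvx

open Pool.Agent.Work.MP_02f065_gt.RPn

namespace XUNI2

/-- Quasiconcavity of `cos (lam (φ - ψ)) / C φ`. -/
theorem quasi (C : ℝ → ℝ) (lam ψ : ℝ) (hlam : 0 < lam) (hC : ∀ s, 0 < C s)
    (hconv : ∀ s a b : ℝ, 0 ≤ a → 0 ≤ b → lam * (a + b) < Real.pi →
      C s * Real.sin (lam * (a + b)) ≤ C (s - a) * Real.sin (lam * b) +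
        C (s + b) * Real.sin (lam * a))
    (φ₁ φ₂ φ₃ : ℝ) (h1 : ψ - Real.pi / (2 * lam) ≤ φ₁) (h12 : φ₁ ≤ φ₂) (h23 : φ₂ ≤ φ₃)
    (h3 : φ₃ ≤ ψ + Real.pi / (2 * lam)) :
    min (Real.cos (lam * (φ₁ - ψ)) / C φ₁) (Real.cos (lam * (φ₃ - ψ)) / C φ₃) ≤
      Real.cos (lam * (φ₂ - ψ)) / C φ₂ := by
  have hw : lam * (Real.pi / (2 * lam)) = Real.pi / 2 := by field_simp
  have hcos : ∀ φ, ψ - Real.pi / (2 * lam) ≤ φ → φ ≤ ψ + Real.pi / (2 * lam) →
      0 ≤ Real.cos (lam * (φ - ψ)) := by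
    intro φ ha hb
    apply Real.cos_nonneg_of_neg_pi_div_two_le_of_le
    · have := mul_le_mul_of_nonneg_left ha hlam.le
      nlinarith
    · have := mul_le_mul_of_nonneg_left hb hlam.le
      nlinarith
  rcases eq_or_lt_of_le h12 with h | h12'
  · subst h; exact min_le_left _ _
  rcases eq_or_lt_of_le h23 with h | h23'
  · subst h; exact min_le_right _ _
  have hle : lam * (φ₃ - φ₁) ≤ Real.pi := by
    have ha := mul_le_mul_of_nonneg_left h1 hlam.le
    have hb := mul_le_mul_of_nonneg_left h3 hlam.le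
    nlinarith
  have hp1 : 0 ≤ Real.cos (lam * (φ₁ - ψ)) / C φ₁ :=
    div_nonneg (hcos _ h1 (by linarith)) (hC _).le
  have hp2 : 0 ≤ Real.cos (lam * (φ₂ - ψ)) / C φ₂ :=
    div_nonneg (hcos _ (by linarith) (by linarith)) (hC _).le
  have hp3 : 0 ≤ Real.cos (lam * (φ₃ - ψ)) / C φ₃ :=
    div_nonneg (hcos _ (by linarith) h3) (hC _).le
  rcases eq_or_lt_of_le hle with h | hlt
  · -- both ends
    have hz : Real.cos (lam * (φ₁ - ψ)) = 0 := by
      have e1 : lam * (φ₁ - ψ) = -(Real.pi / 2) := by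
        have ha := mul_le_mul_of_nonneg_left h1 hlam.le
        have hb := mul_le_mul_of_nonneg_left h3 hlam.le
        nlinarith
      rw [e1, Real.cos_neg, Real.cos_pi_div_two]
    rw [hz, zero_div]
    exact (min_le_left _ _).trans hp2
  · set α := lam * (φ₂ - φ₁) with hα
    set β := lam * (φ₃ - φ₂) with hβ
    have hα0 : 0 < α := mul_pos hlam (by linarith)
    have hβ0 : 0 < β := mul_pos hlam (by linarith)
    have hαβ : α + β < Real.pi := by
      have : α + β = lam * (φ₃ - φ₁) := by rw [hα, hβ]; ring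
      rw [this]; exact hlt
    have hc := hconv φ₂ (φ₂ - φ₁) (φ₃ - φ₂) (by linarith) (by linarith)
      (by rw [show lam * (φ₂ - φ₁ + (φ₃ - φ₂)) = lam * (φ₃ - φ₁) by ring]; exact hlt)
    rw [show lam * (φ₂ - φ₁ + (φ₃ - φ₂)) = α + β by rw [hα, hβ]; ring,
      show φ₂ - (φ₂ - φ₁) = φ₁ by ring, show φ₂ + (φ₃ - φ₂) = φ₃ by ring, ← hα, ← hβ] at hc
    have hsα : 0 < Real.sin α := Real.sin_pos_of_pos_of_lt_pi hα0 (by linarith)
    have hsβ : 0 < Real.sin β := Real.sin_pos_of_pos_of_lt_pi hβ0 (by linarith)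
    have hs : 0 < Real.sin (α + β) := Real.sin_pos_of_pos_of_lt_pi (by linarith) hαβ
    have hid : Real.cos (lam * (φ₂ - ψ)) * Real.sin (α + β) =
        Real.cos (lam * (φ₁ - ψ)) * Real.sin β + Real.cos (lam * (φ₃ - ψ)) * Real.sin α := by
      have e1 : lam * (φ₁ - ψ) = lam * (φ₂ - ψ) - α := by rw [hα]; ring
      have e3 : lam * (φ₃ - ψ) = lam * (φ₂ - ψ) + β := by rw [hβ]; ring
      rw [e1, e3, Real.cos_sub, Real.cos_add, Real.sin_add]; ring
    have q1 : Real.cos (lam * (φ₁ - ψ)) = Real.cos (lam * (φ₁ - ψ)) / C φ₁ * C φ₁ := by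
      rw [div_mul_cancel₀ _ (hC _).ne']
    have q2 : Real.cos (lam * (φ₂ - ψ)) = Real.cos (lam * (φ₂ - ψ)) / C φ₂ * C φ₂ := by
      rw [div_mul_cancel₀ _ (hC _).ne']
    have q3 : Real.cos (lam * (φ₃ - ψ)) = Real.cos (lam * (φ₃ - ψ)) / C φ₃ * C φ₃ := by
      rw [div_mul_cancel₀ _ (hC _).ne']
    set p1 := Real.cos (lam * (φ₁ - ψ)) / C φ₁ with hp1d
    set p2 := Real.cos (lam * (φ₂ - ψ)) / C φ₂ with hp2d
    set p3 := Real.cos (lam * (φ₃ - ψ)) / C φ₃ with hp3d
    rw [q1, q2, q3] at hid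
    have hm0 : 0 ≤ min p1 p3 := le_min hp1 hp3
    have hA : min p1 p3 * (C φ₁ * Real.sin β) ≤ p1 * (C φ₁ * Real.sin β) :=
      mul_le_mul_of_nonneg_right (min_le_left _ _) (mul_nonneg (hC _).le hsβ.le)
    have hB : min p1 p3 * (C φ₃ * Real.sin α) ≤ p3 * (C φ₃ * Real.sin α) :=
      mul_le_mul_of_nonneg_right (min_le_right _ _) (mul_nonneg (hC _).le hsα.le)
    have hD := mul_le_mul_of_nonneg_left hc hm0
    have hkey : min p1 p3 * (C φ₂ * Real.sin (α + β)) ≤ p2 * (C φ₂ * Real.sin (α + β)) := by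
      nlinarith
    exact le_of_mul_le_mul_right hkey (mul_pos (hC _) hs)

/-- `t / sqrt (1 + k t^2)` is increasing. -/
theorem incr (k lam s t : ℝ) (hlam : 0 < lam) (hs : 0 ≤ s) (hst : s ≤ t) (h1 : 0 < 1 + k * s ^ 2)
    (h2 : 0 < 1 + k * t ^ 2) :
    lam * s / Real.sqrt (1 + k * s ^ 2) ≤ lam * t / Real.sqrt (1 + k * t ^ 2) := by
  rw [mul_div_assoc, mul_div_assoc]
  apply mul_le_mul_of_nonneg_left _ hlam.le
  apply le_of_sq_le_sq _ (div_nonneg (hs.trans hst) (Real.sqrt_nonneg _))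
  rw [div_pow, div_pow, Real.sq_sqrt h1.le, Real.sq_sqrt h2.le, div_le_div_iff₀ h1 h2]
  have : s ^ 2 ≤ t ^ 2 := pow_le_pow_left₀ hs hst 2
  nlinarith

/-- Sign of the derivative of a monotone function. -/
theorem sgn (f f' : ℝ → ℝ) (a b : ℝ) (hab : a < b) (hd : ∀ x, HasDerivAt f (f' x) x)
    (hm : MonotoneOn f (Icc a b)) : ∀ x ∈ Icc a b, 0 ≤ f' x := by
  intro x hx
  have hu : UniqueDiffWithinAt ℝ (Icc a b) x := uniqueDiffOn_Icc hab x hx
  have h1 : derivWithin f (Icc a b) x = f' x := (hd x).hasDerivWithinAt.derivWithin hu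
  rw [← h1]
  exact hm.derivWithin_nonneg

theorem int_up (f f' : ℝ → ℝ) (a b : ℝ) (hab : a ≤ b) (hd : ∀ x, HasDerivAt f (f' x) x)
    (hc : Continuous f') (hm : MonotoneOn f (Icc a b)) (h0 : ∀ x ∈ Icc a b, 0 ≤ f x) (n : ℕ) :
    ∫ x in a..b, n * |f x| ^ (n - 1) * |f' x| = f b ^ n - f a ^ n := by
  have hcf : Continuous f := continuous_iff_continuousAt.2 fun x => (hd x).continuousAt
  rcases eq_or_lt_of_le hab with h | h
  · subst h; simp
  · have h1 : ∫ x in a..b, n * |f x| ^ (n - 1) * |f' x| = ∫ x in a..b, n * f x ^ (n - 1) * f' x := by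
      apply intervalIntegral.integral_congr
      intro x hx
      rw [uIcc_of_le hab] at hx
      simp only
      rw [abs_of_nonneg (h0 x hx), abs_of_nonneg (sgn f f' a b h hd hm x hx)]
    rw [h1]
    exact intervalIntegral.integral_eq_sub_of_hasDerivAt (fun x _ => (hd x).pow n)
      ((by fun_prop : Continuous fun x => n * f x ^ (n - 1) * f' x).intervalIntegrable _ _)

theorem int_down (f f' : ℝ → ℝ) (a b : ℝ) (hab : a ≤ b) (hd : ∀ x, HasDerivAt f (f' x) x)
    (hc : Continuous f') (hm : AntitoneOn f (Icc a b)) (h0 : ∀ x ∈ Icc a b, 0 ≤ f x) (n : ℕ) :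
    ∫ x in a..b, n * |f x| ^ (n - 1) * |f' x| = f a ^ n - f b ^ n := by
  have hcf : Continuous f := continuous_iff_continuousAt.2 fun x => (hd x).continuousAt
  rcases eq_or_lt_of_le hab with h | h
  · subst h; simp
  · have h1 : ∫ x in a..b, n * |f x| ^ (n - 1) * |f' x| =
        ∫ x in a..b, -(n * f x ^ (n - 1) * f' x) := by
      apply intervalIntegral.integral_congr
      intro x hx
      rw [uIcc_of_le hab] at hx
      simp only
      have hs := sgn (fun x => -f x) (fun x => -f' x) a b h (fun x => (hd x).neg)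
        (fun u hu v hv huv => neg_le_neg (hm hu hv huv)) x hx
      rw [abs_of_nonneg (h0 x hx), abs_of_nonpos (by linarith)]
      ring
    rw [h1, intervalIntegral.integral_neg,
      intervalIntegral.integral_eq_sub_of_hasDerivAt (fun x _ => (hd x).pow n)
      ((by fun_prop : Continuous fun x => n * f x ^ (n - 1) * f' x).intervalIntegrable _ _)]
    simp

theorem main (f f' : ℝ → ℝ) (a b : ℝ) (hab : a ≤ b) (hd : ∀ x, HasDerivAt f (f' x) x)
    (hc : Continuous f') (h0 : ∀ x ∈ Icc a b, 0 ≤ f x) (ha : f a = 0) (hb : f b = 0)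
    (hq : ∀ x y z, a ≤ x → x ≤ y → y ≤ z → z ≤ b → min (f x) (f z) ≤ f y) (n : ℕ) (hn : 1 ≤ n) :
    ((1 / 2) * ∫ x in a..b, |f' x|) ^ n ≤ (1 / 2) * ∫ x in a..b, n * |f x| ^ (n - 1) * |f' x| := by
  have hcf : Continuous f := continuous_iff_continuousAt.2 fun x => (hd x).continuousAt
  obtain ⟨m, hm, hmax⟩ := isCompact_Icc.exists_isMaxOn (nonempty_Icc.2 hab) hcf.continuousOn
  have hup : MonotoneOn f (Icc a m) := by
    intro x hx y hy hxy
    have h := hq x y m hx.1 hxy hy.2 hm.2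
    rwa [min_eq_left (hmax ⟨hx.1, hx.2.trans hm.2⟩)] at h
  have hdn : AntitoneOn f (Icc m b) := by
    intro x hx y hy hxy
    have h := hq m x y hm.1 hx.1 hxy hy.2
    rwa [min_eq_right (hmax ⟨hm.1.trans hy.1, hy.2⟩)] at h
  have hint : ∀ (j : ℕ) (c d : ℝ), IntervalIntegrable (fun x => j * |f x| ^ (j - 1) * |f' x|)
      volume c d := fun j c d =>
    (by fun_prop : Continuous fun x => j * |f x| ^ (j - 1) * |f' x|).intervalIntegrable _ _
  have key : ∀ j : ℕ, 1 ≤ j → ∫ x in a..b, j * |f x| ^ (j - 1) * |f' x| = 2 * f m ^ j := by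
    intro j hj
    rw [← intervalIntegral.integral_add_adjacent_intervals (hint j a m) (hint j m b),
      int_up f f' a m hm.1 hd hc hup (fun x hx => h0 x ⟨hx.1, hx.2.trans hm.2⟩) j,
      int_down f f' m b hm.2 hd hc hdn (fun x hx => h0 x ⟨hm.1.trans hx.1, hx.2⟩) j, ha, hb,
      zero_pow (by omega)]
    ring
  have k1 := key 1 le_rfl
  simp only [Nat.cast_one, Nat.sub_self, pow_zero, mul_one, one_mul, pow_one] at k1
  rw [k1, key n hn]
  apply le_of_eq
  ring

end XUNI2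


theorem iUNI2 (hB : StBas2) : StUni2 := by
  intro ι _ N k lam hlam hN hI x v hxv ψ n hn
  obtain ⟨b1, b2, b3, b4, b5, b6⟩ := hB ι N k lam hlam hN hI
  have hgc : ∀ s t : ℝ, gc (gc x v s) (gd x v s) t = gc x v (s + t) := by
    intro s t
    simp only [gc, gd, Real.cos_add, Real.sin_add]
    module
  have hC : ∀ s, 0 < N (gc x v s) := fun s => (b5 x v hxv s 0 0).1
  have hconv : ∀ s a b : ℝ, 0 ≤ a → 0 ≤ b → lam * (a + b) < Real.pi →
      N (gc x v s) * Real.sin (lam * (a + b)) ≤ N (gc x v (s - a)) * Real.sin (lam * b) +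
        N (gc x v (s + b)) * Real.sin (lam * a) := by
    intro s a b ha hb hab
    have h := hN.conv (gc x v s) (gd x v s) (b1 x v hxv s).1 a b ha hb hab
    rwa [hgc, hgc, ← sub_eq_add_neg] at h
  have hpos : ∀ φ, ψ - Real.pi / (2 * lam) ≤ φ → φ ≤ ψ + Real.pi / (2 * lam) →
      0 ≤ p lam N x v φ (φ - ψ) := by
    intro φ ha hb
    have hw : lam * (Real.pi / (2 * lam)) = Real.pi / 2 := by field_simp
    apply div_nonneg _ (hC φ).le
    apply Real.cos_nonneg_of_neg_pi_div_two_le_of_le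
    · have := mul_le_mul_of_nonneg_left ha hlam.le
      nlinarith
    · have := mul_le_mul_of_nonneg_left hb hlam.le
      nlinarith
  have hw0 : 0 < Real.pi / (2 * lam) := div_pos Real.pi_pos (by linarith)
  have hpair : Continuous fun φ : ℝ => ((φ, φ - ψ) : ℝ × ℝ) :=
    continuous_id.prodMk (continuous_id.sub continuous_const)
  have hcont : Continuous fun φ : ℝ => dpk k lam N x v φ (φ - ψ) :=
    Continuous.comp (g := fun z : ℝ × ℝ => dpk k lam N x v z.1 z.2)
      (f := fun φ : ℝ => ((φ, φ - ψ) : ℝ × ℝ)) (b6 x v hxv).2 hpair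
  apply XUNI2.main (fun φ => pk k lam N x v φ (φ - ψ)) (fun φ => dpk k lam N x v φ (φ - ψ))
    (ψ - Real.pi / (2 * lam)) (ψ + Real.pi / (2 * lam)) (by linarith)
    (fun φ => (b5 x v hxv φ ψ 0).2.2.2.1)
  · exact hcont
  · intro φ hφ
    exact div_nonneg (mul_nonneg hlam.le (hpos φ hφ.1 hφ.2)) (Real.sqrt_nonneg _)
  · have : p lam N x v (ψ - Real.pi / (2 * lam)) (ψ - Real.pi / (2 * lam) - ψ) = 0 := by
      have e : lam * (ψ - Real.pi / (2 * lam) - ψ) = -(Real.pi / 2) := by field_simp; ring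
      rw [p, e, Real.cos_neg, Real.cos_pi_div_two, zero_div]
    simp only [pk, this, mul_zero, zero_div]
  · have : p lam N x v (ψ + Real.pi / (2 * lam)) (ψ + Real.pi / (2 * lam) - ψ) = 0 := by
      have e : lam * (ψ + Real.pi / (2 * lam) - ψ) = Real.pi / 2 := by field_simp; ring
      rw [p, e, Real.cos_pi_div_two, zero_div]
    simp only [pk, this, mul_zero, zero_div]
  · intro s y z hs hsy hyz hz
    have hq := XUNI2.quasi (fun s => N (gc x v s)) lam ψ hlam hC hconv s y z hs hsy hyz hz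
    have hsn := hpos s hs (by linarith)
    have hzn := hpos z (by linarith) hz
    change min (p lam N x v s (s - ψ)) (p lam N x v z (z - ψ)) ≤ p lam N x v y (y - ψ) at hq
    rcases min_le_iff.1 hq with h | h
    · exact (min_le_left _ _).trans (XUNI2.incr k lam _ _ hlam hsn h (b5 x v hxv s ψ (s - ψ)).2.1
        (b5 x v hxv y ψ (y - ψ)).2.1)
    · exact (min_le_right _ _).trans (XUNI2.incr k lam _ _ hlam hzn h (b5 x v hxv z ψ (z - ψ)).2.1
        (b5 x v hxv y ψ (y - ψ)).2.1)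
  · exact hn

end Pool.Agent.Work.MP_02f065_gt.Cvx
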