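import Pool.Agent.Work.MP_02f065_gt.Cvx.Stmts2

/-! Unimodality for norms from the version for profiles with lam = 1. -/

open MeasureTheory Set Filter Topology

noncomputable section

namespace Pool.Agent.Work.MP_02f065_gt.Cvx

open Pool.Agent.Work.MP_02f065_gt.RPn

namespace XUNIb

lemma per_int (f : ℝ → ℝ) (hf : Continuous f) (hp : ∀ t, f (t + Real.pi) = f t) (ψ : ℝ) :
    (1 / 4 : ℝ) * ∫ φ in (0 : ℝ)..(2 * Real.pi), f φ =
      (1 / 2) * ∫ φ in (ψ - Real.pi / (2 * 1))..(ψ + Real.pi / (2 * 1)), f φ := by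
  have hper : Function.Periodic f Real.pi := hp
  have h1 : ∫ φ in (0 : ℝ)..(2 * Real.pi), f φ =
      (∫ φ in (0 : ℝ)..Real.pi, f φ) + ∫ φ in Real.pi..(2 * Real.pi), f φ :=
    (intervalIntegral.integral_add_adjacent_intervals (hf.intervalIntegrable _ _)
      (hf.intervalIntegrable _ _)).symm
  have h2 : ∫ φ in Real.pi..(2 * Real.pi), f φ = ∫ φ in (0 : ℝ)..Real.pi, f φ := by
    have := hper.intervalIntegral_add_eq Real.pi 0
    rw [zero_add] at this
    rw [← this]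
    congr 1
    ring
  have h3 : ∫ φ in (ψ - Real.pi / (2 * 1))..(ψ + Real.pi / (2 * 1)), f φ =
      ∫ φ in (0 : ℝ)..Real.pi, f φ := by
    have := hper.intervalIntegral_add_eq (ψ - Real.pi / (2 * 1)) 0
    rw [zero_add] at this
    rw [← this]
    congr 1
    ring
  rw [h1, h2, h3]
  ring

end XUNIb

theorem iUNIb (hB : StBas) (hNm : StNorm2) (hU : StUni2) : StUni := by
  intro ι _ N k hN hI x v hxv ψ n hn
  have h := hU ι N k 1 one_pos (hNm ι N hN).1 hI x v hxv ψ n hn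
  have e1 : ∀ φ, pk k 1 N x v φ (φ - ψ) = qk k N x v φ ψ := by
    intro φ
    simp [pk, p, qk, q]
  have e2 : ∀ φ, dpk k 1 N x v φ (φ - ψ) = dqk k N x v φ ψ := by
    intro φ
    simp [dpk, dp, dqk, dq, p, q]
  simp only [e1, e2] at h
  obtain ⟨_, _, _, _, h5, h6⟩ := hB ι N k hN hI
  have hpair : Continuous (fun φ : ℝ => ((φ, ψ) : ℝ × ℝ)) := by fun_prop
  obtain ⟨hq1, hq2⟩ := h6 x v hxv
  have hc1 := hq1.comp hpair
  have hc2 := hq2.comp hpair
  simp only [Function.comp_def] at hc1 hc2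
  have h5' := fun φ => h5 x v hxv φ ψ
  have hp1 : ∀ φ, |qk k N x v (φ + Real.pi) ψ| = |qk k N x v φ ψ| := by
    intro φ
    rw [(h5' φ).2.2.2.2.2.1, abs_neg]
  have hp2 : ∀ φ, |dqk k N x v (φ + Real.pi) ψ| = |dqk k N x v φ ψ| := by
    intro φ
    rw [(h5' φ).2.2.2.2.2.2, abs_neg]
  have hA := XUNIb.per_int (fun φ => |dqk k N x v φ ψ|) hc2.abs hp2 ψ
  have hB' := XUNIb.per_int (fun φ => n * |qk k N x v φ ψ| ^ (n - 1) * |dqk k N x v φ ψ|)
      ((continuous_const.mul (hc1.abs.pow _)).mul hc2.abs)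
      (fun φ => by simp only [hp1, hp2]) ψ
  beta_reduce at hA hB'
  rw [hA, hB']
  exact h

end Pool.Agent.Work.MP_02f065_gt.Cvx
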