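import Pool.Agent.Work.MP_02f065_gt.Cvx.Stmts

/-!
MP_02f065_gt, block CVX, item ZON: the zonal identity.
-/

open MeasureTheory Set Filter Topology

noncomputable section

namespace Pool.Agent.Work.MP_02f065_gt.Cvx

open Pool.Agent.Work.MP_02f065_gt.RPn

namespace XZON

/-! ### The axes -/

/-- The first axis. -/
def e0 {Q : ℕ} : E (Ix 1 Q) := w 0 0

/-- The second axis. -/
def e1 {Q : ℕ} : E (Ix 1 Q) := ws 0 0

theorem w_eq {Q : ℕ} (s : ℝ) :
    (w s 0 : E (Ix 1 Q)) = Real.cos s • e0 + Real.sin s • e1 := by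
  ext k
  rcases k with i | j
  · simp [w, e0, e1, ws]
  · simp only [w, e0, e1, ws, PiLp.add_apply, PiLp.smul_apply, Sum.elim_inr, smul_eq_mul]
    split_ifs <;> simp

theorem inner_e0 {Q : ℕ} (y : E (Ix 1 Q)) : inner ℝ (e0 : E (Ix 1 Q)) y = y (Sum.inl 0) := by
  rw [PiLp.inner_apply, Fintype.sum_sum_type]
  simp [e0, w]

theorem on_e {Q : ℕ} (hQ : 2 ≤ Q) : ON (e0 : E (Ix 1 Q)) e1 := by
  obtain ⟨q, rfl⟩ := Nat.exists_eq_add_of_le hQ
  have h2 : 2 + q = q + 1 + 1 := by ring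
  have h0 : ‖(e0 : E (Ix 1 (2 + q)))‖ ^ 2 = 1 := by
    rw [← real_inner_self_eq_norm_sq, inner_e0]
    simp [e0, w]
  have h1 : ‖(e1 : E (Ix 1 (2 + q)))‖ ^ 2 = 1 := by
    rw [h2, ← real_inner_self_eq_norm_sq, PiLp.inner_apply, Fintype.sum_sum_type]
    simp only [Fin.sum_univ_succ]
    simp [e1, ws]
  refine ⟨?_, ?_, ?_⟩
  · have := norm_nonneg (e0 : E (Ix 1 (2 + q)))
    nlinarith
  · have := norm_nonneg (e1 : E (Ix 1 (2 + q)))
    nlinarith
  · rw [inner_e0]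
    simp [e1, ws]

/-! ### Orthonormal pairs -/

theorem on_map {ι : Type} [Fintype ι] (A : E ι →ₗᵢ[ℝ] E ι) {x v : E ι} (h : ON x v) :
    ON (A x) (A v) := by
  obtain ⟨h1, h2, h3⟩ := h
  refine ⟨by rw [A.norm_map, h1], by rw [A.norm_map, h2], by rw [A.inner_map_map, h3]⟩

/-- Every unit vector in polar coordinates around `x`. -/
theorem polar {ι : Type} [Fintype ι] {x v : E ι} (h : ON x v) (y : E ι) (hy : ‖y‖ = 1) :
    ∃ z : E ι, ON x z ∧ y = Real.cos (Real.arccos (inner ℝ x y)) • x +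
      Real.sin (Real.arccos (inner ℝ x y)) • z := by
  have hxx : inner ℝ x x = (1 : ℝ) := by rw [real_inner_self_eq_norm_sq, h.1]; norm_num
  have hyy : inner ℝ y y = (1 : ℝ) := by rw [real_inner_self_eq_norm_sq, hy]; norm_num
  set t : ℝ := inner ℝ x y with ht
  have htb : |t| ≤ 1 := by
    have := abs_real_inner_le_norm x y
    rw [h.1, hy, mul_one] at this
    exact this
  obtain ⟨hm, hp⟩ := abs_le.1 htb
  rw [Real.cos_arccos hm hp, Real.sin_arccos]
  have hu : ‖y - t • x‖ ^ 2 = 1 - t ^ 2 := by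
    rw [← real_inner_self_eq_norm_sq]
    simp only [inner_sub_left, inner_sub_right, real_inner_smul_left, real_inner_smul_right,
      hxx, hyy, real_inner_comm x y, ← ht]
    ring
  have hu' : ‖y - t • x‖ = Real.sqrt (1 - t ^ 2) := by
    rw [← hu, Real.sqrt_sq (norm_nonneg _)]
  by_cases h0 : y - t • x = 0
  · refine ⟨v, h, ?_⟩
    rw [← hu', h0, norm_zero, zero_smul, add_zero]
    exact sub_eq_zero.1 h0
  · have hn : ‖y - t • x‖ ≠ 0 := norm_ne_zero_iff.2 h0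
    refine ⟨‖y - t • x‖⁻¹ • (y - t • x), ⟨h.1, ?_, ?_⟩, ?_⟩
    · rw [norm_smul, norm_inv, norm_norm, inv_mul_cancel₀ hn]
    · rw [real_inner_smul_right, inner_sub_right, real_inner_smul_right, hxx, ← ht]
      ring
    · rw [← hu', smul_smul, mul_inv_cancel₀ hn, one_smul]
      abel

/-! ### The first coordinate and the block action -/

theorem blk_first {Q : ℕ} {A : Matrix (Fin 1) (Fin 1) ℝ} (hA : A ∈ SO 1)
    (B : Matrix (Fin Q) (Fin Q) ℝ) (y : E (Ix 1 Q)) :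
    inner ℝ (e0 : E (Ix 1 Q)) (blk A B y) = inner ℝ (e0 : E (Ix 1 Q)) y := by
  have h1 : A 0 0 = 1 := by
    have := (Matrix.mem_specialOrthogonalGroup_iff.1 hA).2
    rw [Matrix.det_fin_one] at this
    exact this
  rw [inner_e0, inner_e0]
  change A.mulVec (fun i => y (Sum.inl i)) 0 = y (Sum.inl 0)
  simp [Matrix.mulVec, dotProduct, h1]

theorem dot {n : ℕ} {A : Matrix (Fin n) (Fin n) ℝ} (hA : A ∈ SO n) (u v : Fin n → ℝ) :
    (A.mulVec u) ⬝ᵥ (A.mulVec v) = u ⬝ᵥ v := by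
  have h1 : A.transpose * A = 1 := by
    have := (Matrix.mem_specialOrthogonalGroup_iff.1 hA).1
    rw [Matrix.mem_orthogonalGroup_iff'] at this
    exact this
  rw [Matrix.dotProduct_mulVec, ← Matrix.mulVec_transpose, Matrix.mulVec_mulVec, h1,
    Matrix.one_mulVec]

theorem blk_norm {Q : ℕ} {A : Matrix (Fin 1) (Fin 1) ℝ} (hA : A ∈ SO 1)
    {B : Matrix (Fin Q) (Fin Q) ℝ} (hB : B ∈ SO Q) (y : E (Ix 1 Q)) :
    ‖blk A B y‖ = ‖y‖ := by
  have h : ∀ z : E (Ix 1 Q), inner ℝ z z = (fun i => z (Sum.inl i)) ⬝ᵥ (fun i => z (Sum.inl i)) +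
      (fun j => z (Sum.inr j)) ⬝ᵥ (fun j => z (Sum.inr j)) := by
    intro z
    rw [PiLp.inner_apply, Fintype.sum_sum_type]
    unfold dotProduct
    congr 1
  rw [norm_eq_sqrt_real_inner, norm_eq_sqrt_real_inner, h, h y]
  have h1 : (fun i => blk A B y (Sum.inl i)) = A.mulVec fun i => y (Sum.inl i) := rfl
  have h2 : (fun i => blk A B y (Sum.inr i)) = B.mulVec fun i => y (Sum.inr i) := rfl
  rw [h1, h2, dot hA, dot hB]

/-! ### The one-dimensional integral -/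

/-- Four times the integral over a quarter of the circle. -/
theorem quarter (f : ℝ → ℝ) (hf : Continuous f) (hp : ∀ s, f (s + Real.pi) = f s)
    (he : ∀ s, f (-s) = f s) :
    ∫ χ in (0 : ℝ)..(2 * Real.pi), f (χ - Real.pi / 2) =
      4 * ∫ s in (0 : ℝ)..(Real.pi / 2), f s := by
  have hi : ∀ a b : ℝ, IntervalIntegrable f volume a b := fun a b => hf.intervalIntegrable a b
  have hper : Function.Periodic f Real.pi := hp
  have h1 : ∫ χ in (0 : ℝ)..(2 * Real.pi), f (χ - Real.pi / 2) =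
      ∫ s in (-(Real.pi / 2))..(-(Real.pi / 2) + Real.pi + Real.pi), f s := by
    rw [intervalIntegral.integral_comp_sub_right (fun s => f s) (Real.pi / 2)]
    congr 1 <;> ring
  have h2 : ∫ s in (-(Real.pi / 2))..(-(Real.pi / 2) + Real.pi + Real.pi), f s =
      (∫ s in (-(Real.pi / 2))..(-(Real.pi / 2) + Real.pi), f s) +
      ∫ s in (-(Real.pi / 2) + Real.pi)..(-(Real.pi / 2) + Real.pi + Real.pi), f s :=
    (intervalIntegral.integral_add_adjacent_intervals (hi _ _) (hi _ _)).symm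
  have h3 : ∫ s in (-(Real.pi / 2) + Real.pi)..(-(Real.pi / 2) + Real.pi + Real.pi), f s =
      ∫ s in (-(Real.pi / 2))..(-(Real.pi / 2) + Real.pi), f s :=
    hper.intervalIntegral_add_eq _ _
  have h4 : ∫ s in (-(Real.pi / 2))..(-(Real.pi / 2) + Real.pi), f s =
      (∫ s in (-(Real.pi / 2))..0, f s) + ∫ s in (0 : ℝ)..(Real.pi / 2), f s := by
    rw [intervalIntegral.integral_add_adjacent_intervals (hi _ _) (hi _ _)]
    congr 1
    ring
  have h5 : ∫ s in (-(Real.pi / 2))..0, f s = ∫ s in (0 : ℝ)..(Real.pi / 2), f s := by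
    have := intervalIntegral.integral_comp_neg (a := 0) (b := Real.pi / 2) f
    rw [neg_zero] at this
    rw [← this]
    refine intervalIntegral.integral_congr fun s _ => ?_
    exact he s
  rw [h1, h2, h3, h4, h5]
  ring

theorem cos_sin_pow (Q : ℕ) (hQ : 1 ≤ Q) :
    ∫ s in (0 : ℝ)..(Real.pi / 2), |Real.cos s| * Real.sin s ^ (Q - 1) = 1 / (Q : ℝ) := by
  have h1 : ∫ s in (0 : ℝ)..(Real.pi / 2), |Real.cos s| * Real.sin s ^ (Q - 1) =
      ∫ s in (0 : ℝ)..(Real.pi / 2), Real.sin s ^ (Q - 1) * Real.cos s ^ (2 * 0 + 1) := by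
    refine intervalIntegral.integral_congr fun s hs => ?_
    rw [uIcc_of_le (by positivity)] at hs
    have : 0 ≤ Real.cos s := Real.cos_nonneg_of_mem_Icc ⟨by linarith [hs.1, Real.pi_pos], hs.2⟩
    simp only [mul_zero, zero_add, pow_one]
    rw [abs_of_nonneg this, mul_comm]
  obtain ⟨q, rfl⟩ := Nat.exists_eq_add_of_le hQ
  rw [h1, integral_sin_pow_mul_cos_pow_odd, Real.sin_zero, Real.sin_pi_div_two]
  simp
  ring

/-! ### The function k -/

section K

variable {ι : Type} [Fintype ι] {Ω : Type} [MeasurableSpace Ω] (μ : Measure Ω)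
  (A : Ω → (E ι →ₗᵢ[ℝ] E ι)) (a : Ω → ℝ) (b : Ω → E ι)

/-- The mean of `a |<b, A y>|`. -/
def kf (y : E ι) : ℝ := ∫ ω, a ω * |inner ℝ (b ω) (A ω y)| ∂μ

variable {μ A a b}

theorem meas_one (meas : ∀ x : E ι, Measurable fun ω => A ω x) (ha : Measurable a)
    (hb : Measurable b) (y : E ι) : Measurable fun ω => a ω * |inner ℝ (b ω) (A ω y)| :=
  ha.mul (hb.inner (meas y)).abs

omit [MeasurableSpace Ω] in
theorem bound_one {C1 C2 : ℝ} (h1 : ∀ ω, |a ω| ≤ C1) (h2 : ∀ ω, ‖b ω‖ ≤ C2) (ω : Ω) (y : E ι) :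
    ‖a ω * |inner ℝ (b ω) (A ω y)|‖ ≤ C1 * (C2 * ‖y‖) := by
  rw [norm_mul, Real.norm_eq_abs, Real.norm_eq_abs, abs_abs]
  refine mul_le_mul (h1 ω) ?_ (abs_nonneg _) ((abs_nonneg _).trans (h1 ω))
  refine (abs_real_inner_le_norm _ _).trans ?_
  rw [(A ω).norm_map]
  exact mul_le_mul_of_nonneg_right (h2 ω) (norm_nonneg _)

theorem int_one [IsProbabilityMeasure μ] (meas : ∀ x : E ι, Measurable fun ω => A ω x)
    (ha : Measurable a) (hb : Measurable b) {C1 C2 : ℝ} (h1 : ∀ ω, |a ω| ≤ C1)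
    (h2 : ∀ ω, ‖b ω‖ ≤ C2) (y : E ι) :
    Integrable (fun ω => a ω * |inner ℝ (b ω) (A ω y)|) μ :=
  Integrable.of_bound (meas_one meas ha hb y).aestronglyMeasurable _
    (Eventually.of_forall fun ω => bound_one h1 h2 ω y)

theorem kf_cont [IsProbabilityMeasure μ] (meas : ∀ x : E ι, Measurable fun ω => A ω x)
    (ha : Measurable a) (hb : Measurable b) {C1 C2 : ℝ} (h1 : ∀ ω, |a ω| ≤ C1)
    (h2 : ∀ ω, ‖b ω‖ ≤ C2) : Continuous (kf μ A a b) := by
  refine (LipschitzWith.of_dist_le' (K := C1 * C2) fun y y' => ?_).continuous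
  rw [Real.dist_eq, dist_eq_norm]
  have e : kf μ A a b y - kf μ A a b y' =
      ∫ ω, (a ω * |inner ℝ (b ω) (A ω y)| - a ω * |inner ℝ (b ω) (A ω y')|) ∂μ := by
    unfold kf
    rw [integral_sub (int_one meas ha hb h1 h2 y) (int_one meas ha hb h1 h2 y')]
  rw [e, ← Real.norm_eq_abs]
  refine (norm_integral_le_of_norm_le_const (C := C1 * C2 * ‖y - y'‖)
    (Eventually.of_forall fun ω => ?_)).trans (le_of_eq ?_)
  · rw [← mul_sub, norm_mul, Real.norm_eq_abs, Real.norm_eq_abs, mul_assoc]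
    refine mul_le_mul (h1 ω) ?_ (abs_nonneg _) ((abs_nonneg _).trans (h1 ω))
    refine (abs_abs_sub_abs_le _ _).trans ?_
    rw [← inner_sub_right, ← map_sub]
    refine (abs_real_inner_le_norm _ _).trans ?_
    rw [(A ω).norm_map]
    exact mul_le_mul_of_nonneg_right (h2 ω) (norm_nonneg _)
  · simp

/-- Joint measurability. -/
theorem meas2 (meas : ∀ x : E ι, Measurable fun ω => A ω x) :
    Measurable fun z : Ω × Metric.sphere (0 : E ι) 1 => A z.1 (z.2 : E ι) := by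
  classical
  have key : ∀ z : Ω × Metric.sphere (0 : E ι) 1, A z.1 (z.2 : E ι) =
      ∑ i, (z.2 : E ι) i • A z.1 (EuclideanSpace.single i (1 : ℝ)) := by
    intro z
    have h : (z.2 : E ι) = ∑ i, (z.2 : E ι) i • (EuclideanSpace.single i (1 : ℝ) : E ι) := by
      ext j
      simp [Finset.sum_apply, Pi.single_apply]
    conv_lhs => rw [h]
    rw [map_sum]
    refine Finset.sum_congr rfl fun i _ => ?_
    rw [map_smul]
  have e : (fun z : Ω × Metric.sphere (0 : E ι) 1 => A z.1 (z.2 : E ι)) =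
      fun z => ∑ i, (z.2 : E ι) i • A z.1 (EuclideanSpace.single i (1 : ℝ)) := by
    ext1 z
    exact key z
  rw [e]
  refine Finset.measurable_sum _ fun i _ => ?_
  have hc : Continuous fun y : Metric.sphere (0 : E ι) 1 => (y : E ι) i := by fun_prop
  have h1 : Measurable fun z : Ω × Metric.sphere (0 : E ι) 1 => (z.2 : E ι) i :=
    hc.measurable.comp measurable_snd
  have h2 : Measurable fun z : Ω × Metric.sphere (0 : E ι) 1 =>
      A z.1 (EuclideanSpace.single i (1 : ℝ)) := (meas _).comp measurable_fst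
  exact h1.smul h2

/-- The integral of `kf` over the sphere. -/
theorem kf_int [IsProbabilityMeasure μ] (meas : ∀ x : E ι, Measurable fun ω => A ω x)
    (ha : Measurable a) (hb : Measurable b) {C1 C2 : ℝ} (h1 : ∀ ω, |a ω| ≤ C1)
    (h2 : ∀ ω, ‖b ω‖ ≤ C2) (σ : Measure (Metric.sphere (0 : E ι) 1)) [IsFiniteMeasure σ] (I : ℝ)
    (hI : ∀ (ω : Ω) (d : E ι), ∫ y : Metric.sphere (0 : E ι) 1, |inner ℝ d (A ω y)| ∂σ =
      ‖d‖ * I) :
    ∫ y : Metric.sphere (0 : E ι) 1, kf μ A a b y ∂σ = (∫ ω, a ω * ‖b ω‖ ∂μ) * I := by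
  have hm : Measurable fun z : Ω × Metric.sphere (0 : E ι) 1 =>
      a z.1 * |inner ℝ (b z.1) (A z.1 (z.2 : E ι))| :=
    (ha.comp measurable_fst).mul ((hb.comp measurable_fst).inner (meas2 meas)).abs
  have hint : Integrable (Function.uncurry fun (ω : Ω) (y : Metric.sphere (0 : E ι) 1) =>
      a ω * |inner ℝ (b ω) (A ω (y : E ι))|) (μ.prod σ) := by
    refine Integrable.of_bound hm.aestronglyMeasurable (C1 * (C2 * 1))
      (Eventually.of_forall fun z => ?_)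
    have h := bound_one (A := A) h1 h2 z.1 (z.2 : E ι)
    rw [mem_sphere_zero_iff_norm.mp z.2.2] at h
    exact h
  have hsw := integral_integral_swap hint
  calc ∫ y : Metric.sphere (0 : E ι) 1, kf μ A a b y ∂σ =
      ∫ ω, ∫ y : Metric.sphere (0 : E ι) 1, a ω * |inner ℝ (b ω) (A ω (y : E ι))| ∂σ ∂μ :=
        hsw.symm
    _ = ∫ ω, a ω * ‖b ω‖ * I ∂μ := by
        refine integral_congr_ae (Eventually.of_forall fun ω => ?_)
        simp only
        rw [integral_const_mul, hI, mul_assoc]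
    _ = _ := integral_mul_const _ _

end K

end XZON

open XZON in
theorem iZON (hI : StIso) (hZ : claimZ8) : StZon := by
  intro Q hQ Fr Ψ d hΨ hd x v hxv
  let _ := Fr.ms
  have := Fr.prob
  change (Q : ℝ) * ∫ χ in (0 : ℝ)..(2 * Real.pi), |Real.cos χ| ^ (Q - 1) *
      ∫ ω, Ψ (Fr.A ω x) * |inner ℝ (d (Fr.A ω x)) (Real.sin χ • Fr.A ω x -
        Real.cos χ • Fr.A ω v)| ∂Fr.μ =
    4 * ∫ ω, Ψ (Fr.A ω x) * ‖d (Fr.A ω x)‖ ∂Fr.μ
  have hon := on_e hQ
  -- invariance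
  have hmt : MapsTo (fun z : E (Ix 1 Q) × E (Ix 1 Q) => z.1) {z | ON z.1 z.2}
      (Metric.sphere (0 : E (Ix 1 Q)) 1) := by
    intro z hz
    exact mem_sphere_zero_iff_norm.mpr hz.1
  have hF1 : ContinuousOn (fun z : E (Ix 1 Q) × E (Ix 1 Q) => Ψ z.1) {z | ON z.1 z.2} :=
    hΨ.comp continuousOn_fst hmt
  have hF2 : ContinuousOn (fun z : E (Ix 1 Q) × E (Ix 1 Q) => d z.1) {z | ON z.1 z.2} :=
    hd.comp continuousOn_fst hmt
  have hinv : ∀ (p q : ℝ) (x v x' v' : E (Ix 1 Q)), ON x v → ON x' v' →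
      ∫ ω, Ψ (Fr.A ω x) * |inner ℝ (d (Fr.A ω x)) (p • Fr.A ω x + q • Fr.A ω v)| ∂Fr.μ =
      ∫ ω, Ψ (Fr.A ω x') * |inner ℝ (d (Fr.A ω x')) (p • Fr.A ω x' + q • Fr.A ω v')| ∂Fr.μ := by
    intro p q x v x' v' h h'
    have hF3 : ContinuousOn (fun z : E (Ix 1 Q) × E (Ix 1 Q) => p • z.1 + q • z.2)
        {z | ON z.1 z.2} := by fun_prop
    exact Fr.inv (fun z => Ψ z.1 * |inner ℝ (d z.1) (p • z.1 + q • z.2)|)
      (hF1.mul (hF2.inner hF3).abs) x v x' v' h h'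
  have hinv2 : ∫ ω, Ψ (Fr.A ω x) * ‖d (Fr.A ω x)‖ ∂Fr.μ =
      ∫ ω, Ψ (Fr.A ω e0) * ‖d (Fr.A ω e0)‖ ∂Fr.μ :=
    Fr.inv (fun z => Ψ z.1 * ‖d z.1‖) (hF1.mul hF2.norm) x v e0 e1 hxv hon
  -- bounds and measurability
  have hK : IsCompact (Metric.sphere (0 : E (Ix 1 Q)) 1) := isCompact_sphere 0 1
  obtain ⟨C1, hC1⟩ := hK.exists_bound_of_continuousOn hΨ
  obtain ⟨C2, hC2⟩ := hK.exists_bound_of_continuousOn hd
  have hmem : ∀ ω, Fr.A ω e0 ∈ Metric.sphere (0 : E (Ix 1 Q)) 1 := by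
    intro ω
    rw [mem_sphere_zero_iff_norm, (Fr.A ω).norm_map]
    exact hon.1
  have ha : Measurable fun ω => Ψ (Fr.A ω e0) := by
    have hg : Measurable ((Metric.sphere (0 : E (Ix 1 Q)) 1).domRestrict Ψ) :=
      hΨ.domRestrict.measurable
    exact hg.comp ((Fr.meas e0).subtype_mk (h := hmem))
  have hb : Measurable fun ω => d (Fr.A ω e0) := by
    have hg : Measurable ((Metric.sphere (0 : E (Ix 1 Q)) 1).domRestrict d) :=
      hd.domRestrict.measurable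
    exact hg.comp ((Fr.meas e0).subtype_mk (h := hmem))
  have h1 : ∀ ω, |Ψ (Fr.A ω e0)| ≤ C1 := fun ω => hC1 _ (hmem ω)
  have h2 : ∀ ω, ‖d (Fr.A ω e0)‖ ≤ C2 := fun ω => hC2 _ (hmem ω)
  set k : E (Ix 1 Q) → ℝ := kf Fr.μ Fr.A (fun ω => Ψ (Fr.A ω e0)) (fun ω => d (Fr.A ω e0))
    with hk
  have hkc : Continuous k := kf_cont Fr.meas ha hb h1 h2
  have hkpq : ∀ (p q : ℝ) (z : E (Ix 1 Q)), k (p • e0 + q • z) =
      ∫ ω, Ψ (Fr.A ω e0) * |inner ℝ (d (Fr.A ω e0)) (p • Fr.A ω e0 + q • Fr.A ω z)| ∂Fr.μ := by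
    intro p q z
    rw [hk]
    unfold kf
    refine integral_congr_ae (Eventually.of_forall fun ω => ?_)
    simp only [map_add, map_smul]
  have hkz : ∀ (y y' : E (Ix 1 Q)), ‖y‖ = 1 → ‖y'‖ = 1 →
      inner ℝ (e0 : E (Ix 1 Q)) y = inner ℝ (e0 : E (Ix 1 Q)) y' → k y = k y' := by
    intro y y' hy hy' h
    obtain ⟨z, hz, e⟩ := polar hon y hy
    obtain ⟨z', hz', e'⟩ := polar hon y' hy'
    rw [← h] at e'
    rw [e, e', hkpq, hkpq]
    exact hinv _ _ _ _ _ _ hz hz'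
  have hkneg : ∀ y, k (-y) = k y := by
    intro y
    rw [hk]
    unfold kf
    refine integral_congr_ae (Eventually.of_forall fun ω => ?_)
    simp only [map_neg, inner_neg_right, abs_neg]
  -- integrals over the sphere
  obtain ⟨c, hc, hcF⟩ := hZ Q hQ
  have hS1 := hcF k hkc.continuousOn
    (fun A hA B hB y hy => hkz _ _ (by rw [blk_norm hA hB, hy]) hy (blk_first hA B y))
    (fun y _ => hkneg y)
  have hS2 := hcF (fun y => |inner ℝ (e0 : E (Ix 1 Q)) y|) (by fun_prop)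
    (fun A hA B hB y hy => by simp only [blk_first hA B y])
    (fun y _ => by simp only [inner_neg_right, abs_neg])
  obtain ⟨hI1, hI2⟩ := hI (Ix 1 Q)
  have hS3 := kf_int (μ := Fr.μ) Fr.meas ha hb h1 h2 ((volume : Measure (E (Ix 1 Q))).toSphere)
    (∫ y : Metric.sphere (0 : E (Ix 1 Q)) 1, |inner ℝ (e0 : E (Ix 1 Q)) (y : E (Ix 1 Q))|
        ∂((volume : Measure (E (Ix 1 Q))).toSphere)) (fun ω d' => by
      have h3 := hI1 (Fr.A ω) (fun y => |inner ℝ d' y|) (by fun_prop)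
      rw [h3]
      exact hI2 d' e0 hon.1)
  -- the integral over the directions
  have hw : ∀ s : ℝ, inner ℝ (e0 : E (Ix 1 Q)) (w s 0) = Real.cos s := by
    intro s
    rw [inner_e0]
    simp [w]
  have hwn : ∀ s : ℝ, ‖(w s 0 : E (Ix 1 Q))‖ = 1 := by
    intro s
    have h3 : ‖(w s 0 : E (Ix 1 Q))‖ ^ 2 = 1 := by
      have hxx : inner ℝ (e0 : E (Ix 1 Q)) e0 = 1 := by
        rw [real_inner_self_eq_norm_sq, hon.1, one_pow]
      have hvv : inner ℝ (e1 : E (Ix 1 Q)) e1 = 1 := by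
        rw [real_inner_self_eq_norm_sq, hon.2.1, one_pow]
      have hvx : inner ℝ (e1 : E (Ix 1 Q)) e0 = 0 := by rw [real_inner_comm]; exact hon.2.2
      rw [w_eq, ← real_inner_self_eq_norm_sq]
      simp only [inner_add_left, inner_add_right, real_inner_smul_left, real_inner_smul_right,
        hon.2.2, hvx, hxx, hvv]
      have := Real.sin_sq_add_cos_sq s
      nlinarith
    have := norm_nonneg (w s 0 : E (Ix 1 Q))
    nlinarith
  have hS4 := quarter (fun s => |Real.sin s| ^ (Q - 1) * k (w s 0)) (by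
      have : Continuous fun s : ℝ => (w s 0 : E (Ix 1 Q)) := by
        simp only [w_eq]
        fun_prop
      exact (Real.continuous_sin.abs.pow _).mul (hkc.comp this))
    (fun s => by
      have : (w (s + Real.pi) 0 : E (Ix 1 Q)) = -w s 0 := by
        simp only [w_eq, Real.cos_add_pi, Real.sin_add_pi]
        module
      simp only [this, hkneg, Real.sin_add_pi, abs_neg])
    (fun s => by
      have : k (w (-s) 0) = k (w s 0) :=
        hkz _ _ (hwn _) (hwn _) (by rw [hw, hw, Real.cos_neg])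
      simp only [this, Real.sin_neg, abs_neg])
  have hS5 : ∫ χ in (0 : ℝ)..(2 * Real.pi), |Real.cos χ| ^ (Q - 1) *
      ∫ ω, Ψ (Fr.A ω x) * |inner ℝ (d (Fr.A ω x)) (Real.sin χ • Fr.A ω x -
        Real.cos χ • Fr.A ω v)| ∂Fr.μ = 4 * ∫ s in (0 : ℝ)..(Real.pi / 2),
        k (w s 0) * Real.sin s ^ (Q - 1) := by
    have h4 : ∫ s in (0 : ℝ)..(Real.pi / 2), k (w s 0) * Real.sin s ^ (Q - 1) =
        ∫ s in (0 : ℝ)..(Real.pi / 2), |Real.sin s| ^ (Q - 1) * k (w s 0) := by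
      refine intervalIntegral.integral_congr fun s hs => ?_
      rw [uIcc_of_le (by positivity)] at hs
      have : 0 ≤ Real.sin s :=
        Real.sin_nonneg_of_nonneg_of_le_pi hs.1 (by linarith [hs.2, Real.pi_pos])
      rw [abs_of_nonneg this, mul_comm]
    rw [h4, ← hS4]
    refine intervalIntegral.integral_congr fun χ _ => ?_
    simp only [w_eq, Real.sin_sub_pi_div_two, Real.cos_sub_pi_div_two, abs_neg]
    rw [hkpq, ← hinv _ _ _ _ _ _ hxv hon]
    congr 1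
    refine integral_congr_ae (Eventually.of_forall fun ω => ?_)
    simp only [neg_smul, sub_eq_add_neg]
  rw [hS5, hinv2]
  have hS6 := cos_sin_pow Q (by omega)
  have hS7 : ∫ s in (0 : ℝ)..(Real.pi / 2), |inner ℝ (e0 : E (Ix 1 Q)) (w s 0)| *
      Real.sin s ^ (Q - 1) = 1 / (Q : ℝ) := by
    simp only [hw]
    exact hS6
  rw [hS7] at hS2
  rw [hS2, ← hk, hS1] at hS3
  have hQ0 : (Q : ℝ) ≠ 0 := by
    have : 0 < Q := by omega
    positivity
  have hS8 : ∫ s in (0 : ℝ)..(Real.pi / 2), k (w s 0) * Real.sin s ^ (Q - 1) =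
      (∫ ω, Ψ (Fr.A ω e0) * ‖d (Fr.A ω e0)‖ ∂Fr.μ) * (1 / Q) := by
    have h5 : c * ∫ s in (0 : ℝ)..(Real.pi / 2), k (w s 0) * Real.sin s ^ (Q - 1) =
        c * ((∫ ω, Ψ (Fr.A ω e0) * ‖d (Fr.A ω e0)‖ ∂Fr.μ) * (1 / Q)) := by
      rw [hS3]
      ring
    exact mul_left_cancel₀ hc.ne' h5
  rw [hS8]
  field_simp

end Pool.Agent.Work.MP_02f065_gt.Cvx
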