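import Pool.Agent.Work.MP_02f065_gt.Cvx.Defs
import Pool.Agent.Work.MP_02f065_gt.RPn.Stmts1

/-!
MP_02f065_gt, block CVX: statements of the items.
-/

open MeasureTheory Set Filter Topology

noncomputable section

namespace Pool.Agent.Work.MP_02f065_gt.Cvx

open Pool.Agent.Work.MP_02f065_gt.RPn

section

variable {ι : Type} [Fintype ι]

/-- An orthonormal pair. -/
def ON (x v : E ι) : Prop := ‖x‖ = 1 ∧ ‖v‖ = 1 ∧ inner ℝ x v = 0

/-- The great circle of the pair `(x, v)`. -/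
def gc (x v : E ι) (t : ℝ) : E ι := Real.cos t • x + Real.sin t • v

/-- Its derivative. -/
def gd (x v : E ι) (t : ℝ) : E ι := (-Real.sin t) • x + Real.cos t • v

/-- Scalar product of the point of the hypersurface over `gc x v φ` with `gc x v ψ`. -/
def q (N : E ι → ℝ) (x v : E ι) (φ ψ : ℝ) : ℝ := Real.cos (φ - ψ) / N (gc x v φ)

/-- The derivative of `q` with respect to `φ`. -/
def dq (N : E ι → ℝ) (x v : E ι) (φ ψ : ℝ) : ℝ :=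
  -Real.sin (φ - ψ) / N (gc x v φ) -
    Real.cos (φ - ψ) * fderiv ℝ N (gc x v φ) (gd x v φ) / N (gc x v φ) ^ 2

/-- The generalised sine of the distance of a line. -/
def qk (k : ℝ) (N : E ι → ℝ) (x v : E ι) (φ ψ : ℝ) : ℝ :=
  q N x v φ ψ / Real.sqrt (1 + k * q N x v φ ψ ^ 2)

/-- The derivative of `qk` with respect to `φ`. -/
def dqk (k : ℝ) (N : E ι → ℝ) (x v : E ι) (φ ψ : ℝ) : ℝ :=
  dq N x v φ ψ / Real.sqrt (1 + k * q N x v φ ψ ^ 2) ^ 3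

/-- `S = sqrt (N^2 + k)`. -/
def S (k : ℝ) (N : E ι → ℝ) (x : E ι) : ℝ := Real.sqrt (N x ^ 2 + k)

/-- The hypersurface is in the model. -/
def Inside (k : ℝ) (N : E ι → ℝ) : Prop := ∀ x : E ι, ‖x‖ = 1 → 0 < N x ^ 2 + k

/-- The gradient of `N`. -/
def grad (N : E ι → ℝ) (x : E ι) : E ι := (InnerProductSpace.toDual ℝ (E ι)).symm (fderiv ℝ N x)

/-- The vector with `<dv, x> = S x` and `<dv, v> = dN v` for `v` orthogonal to `x`. -/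
def dv (k : ℝ) (N : E ι → ℝ) (x : E ι) : E ι := (S k N x - N x) • x + grad N x

/-- All symmetric curves have length at least `L`. -/
def Sys (g : RPn.Field ι) (L : ℝ) : Prop :=
  ∀ (x : E ι) (c : ℝ → E ι), ‖x‖ = 1 → IsCurve c x (-x) → L ≤ length g c

end

/-! ### One plane -/

/-- Elementary facts. -/
def StBas : Prop := ∀ (ι : Type) [Fintype ι] (N : E ι → ℝ) (k : ℝ), IsNorm N → Inside k N →
  (∀ x v : E ι, ON x v → ∀ t, ON (gc x v t) (gd x v t) ∧ HasDerivAt (gc x v) (gd x v t) t) ∧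
  (∀ x : E ι, x ≠ 0 → HasFDerivAt N (fderiv ℝ N x) x ∧ fderiv ℝ N x x = N x ∧ N (-x) = N x ∧
    fderiv ℝ N (-x) = -fderiv ℝ N x) ∧
  (ContinuousOn N (Metric.sphere (0 : E ι) 1)) ∧
  (ContinuousOn (fun x => fderiv ℝ N x) (Metric.sphere (0 : E ι) 1)) ∧
  (∀ x v : E ι, ON x v → ∀ φ ψ,
    0 < N (gc x v φ) ∧ 0 < 1 + k * q N x v φ ψ ^ 2 ∧
    HasDerivAt (fun t => q N x v t ψ) (dq N x v φ ψ) φ ∧
    HasDerivAt (fun t => qk k N x v t ψ) (dqk k N x v φ ψ) φ ∧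
    q N x v (φ + Real.pi) ψ = -q N x v φ ψ ∧ qk k N x v (φ + Real.pi) ψ = -qk k N x v φ ψ ∧
    dqk k N x v (φ + Real.pi) ψ = -dqk k N x v φ ψ) ∧
  (∀ x v : E ι, ON x v → Continuous (fun z : ℝ × ℝ => qk k N x v z.1 z.2) ∧
    Continuous (fun z : ℝ × ℝ => dqk k N x v z.1 z.2))

/-- The induced metric: formula on the tangent space; it is a metric. -/
def StMet : Prop := ∀ (ι : Type) [Fintype ι] (N : E ι → ℝ) (k : ℝ), IsNorm N → Inside k N →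
  IsMetric (induced k N) ∧ ∀ x v w : E ι, ‖x‖ = 1 → inner ℝ x v = 0 → inner ℝ x w = 0 →
    induced k N x v w = inner ℝ v w / (N x ^ 2 + k) +
      fderiv ℝ N x v * fderiv ℝ N x w / (N x ^ 2 + k) ^ 2

/-- **Unimodality** (convexity): `qk` increases from its minimum to its maximum and decreases
again, so both sides are equal to the n-th power of the maximum. -/
def StUni : Prop := ∀ (ι : Type) [Fintype ι] (N : E ι → ℝ) (k : ℝ), IsNorm N → Inside k N →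
  ∀ x v : E ι, ON x v → ∀ (ψ : ℝ) (n : ℕ), 1 ≤ n →
  ((1 / 4) * ∫ φ in (0 : ℝ)..(2 * Real.pi), |dqk k N x v φ ψ|) ^ n ≤
    (1 / 4) * ∫ φ in (0 : ℝ)..(2 * Real.pi), n * |qk k N x v φ ψ| ^ (n - 1) * |dqk k N x v φ ψ|

/-- The power mean inequality in the direction `ψ`. -/
def StJen : Prop := ∀ (F G : ℝ × ℝ → ℝ) (n : ℕ), 1 ≤ n → Continuous F → Continuous G →
  (∀ z, 0 ≤ F z) →
  (∀ ψ, ((1 / 4) * ∫ φ in (0 : ℝ)..(2 * Real.pi), F (φ, ψ)) ^ n ≤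
    (1 / 4) * ∫ φ in (0 : ℝ)..(2 * Real.pi), G (φ, ψ)) →
  ((1 / (8 * Real.pi)) * ∫ φ in (0 : ℝ)..(2 * Real.pi), ∫ ψ in (0 : ℝ)..(2 * Real.pi),
    F (φ, ψ)) ^ n ≤
  (1 / (8 * Real.pi)) * ∫ φ in (0 : ℝ)..(2 * Real.pi), ∫ ψ in (0 : ℝ)..(2 * Real.pi), G (φ, ψ)

/-- Linear change of the direction (from curvature `k` to curvature 0). -/
def StK1 : Prop := ∀ (m : ℕ) (s α β : ℝ), 0 < s →
  ∫ χ in (0 : ℝ)..(2 * Real.pi), |Real.cos χ| ^ m * |α * Real.sin χ + β * Real.cos χ| /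
    Real.sqrt (Real.sin χ ^ 2 + s ^ 2 * Real.cos χ ^ 2) ^ (m + 3) =
  (1 / s ^ (m + 2)) * ∫ χ in (0 : ℝ)..(2 * Real.pi),
    |Real.cos χ| ^ m * |α * s * Real.sin χ + β * Real.cos χ|

/-- The mean of `|a sin + b cos|`. -/
def StK0 : Prop := ∀ a b : ℝ, ∫ χ in (0 : ℝ)..(2 * Real.pi), |a * Real.sin χ + b * Real.cos χ| =
  4 * Real.sqrt (a ^ 2 + b ^ 2)

/-- The integral over the directions `ψ`. -/
def StDir : Prop := ∀ (ι : Type) [Fintype ι] (N : E ι → ℝ) (k : ℝ), IsNorm N → Inside k N →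
  ∀ x v : E ι, ON x v → ∀ (φ : ℝ) (m : ℕ),
  ∫ ψ in (0 : ℝ)..(2 * Real.pi), |qk k N x v φ ψ| ^ m * |dqk k N x v φ ψ| =
    (1 / S k N (gc x v φ) ^ (m + 2)) * ∫ χ in (0 : ℝ)..(2 * Real.pi), |Real.cos χ| ^ m *
      |inner ℝ (dv k N (gc x v φ)) (Real.sin χ • gc x v φ - Real.cos χ • gd x v φ)|

/-- The length of a half great circle. -/
def StLen : Prop := ∀ (ι : Type) [Fintype ι] (N : E ι → ℝ) (k L : ℝ), IsNorm N → Inside k N →
  Sys (induced k N) L → ∀ x v : E ι, ON x v →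
  L ≤ (1 / 8) * ∫ φ in (0 : ℝ)..(2 * Real.pi), ∫ ψ in (0 : ℝ)..(2 * Real.pi), |dqk k N x v φ ψ|

/-- The inequality in one plane. -/
def StPlane : Prop := ∀ (ι : Type) [Fintype ι] (N : E ι → ℝ) (k L : ℝ), IsNorm N → Inside k N →
  0 < L → Sys (induced k N) L → ∀ x v : E ι, ON x v → ∀ n : ℕ, 1 ≤ n →
  (L / Real.pi) ^ n ≤ (n / (8 * Real.pi)) * ∫ φ in (0 : ℝ)..(2 * Real.pi),
    (1 / S k N (gc x v φ) ^ (n + 1)) * ∫ χ in (0 : ℝ)..(2 * Real.pi), |Real.cos χ| ^ (n - 1) *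
      |inner ℝ (dv k N (gc x v φ)) (Real.sin χ • gc x v φ - Real.cos χ • gd x v φ)|

/-! ### Averages over all orthonormal frames -/

/-- A random linear isometry of `E ι` with the same distribution on all orthonormal pairs. -/
structure Frames (ι : Type) [Fintype ι] where
  Ω : Type
  ms : MeasurableSpace Ω
  μ : Measure Ω
  prob : IsProbabilityMeasure μ
  A : Ω → (E ι →ₗᵢ[ℝ] E ι)
  meas : ∀ x : E ι, Measurable fun ω => A ω x
  inv : ∀ (F : E ι × E ι → ℝ), ContinuousOn F {z | ON z.1 z.2} → ∀ x v x' v' : E ι,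
    ON x v → ON x' v' → ∫ ω, F (A ω x, A ω v) ∂μ = ∫ ω, F (A ω x', A ω v') ∂μ

/-- Frames exist in dimension at least three. -/
def StFr : Prop := ∀ Q : ℕ, 2 ≤ Q → Nonempty (Frames (Ix 1 Q))

/-- The measure of the sphere is invariant under linear isometries, and the integral of the
absolute value of a linear form. -/
def StIso : Prop := ∀ (ι : Type) [Fintype ι] [Nonempty ι],
  (∀ (T : E ι →ₗᵢ[ℝ] E ι) (F : E ι → ℝ), ContinuousOn F (Metric.sphere (0 : E ι) 1) →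
    ∫ x : Metric.sphere (0 : E ι) 1, F (T x) ∂((volume : Measure (E ι)).toSphere) =
      ∫ x : Metric.sphere (0 : E ι) 1, F x ∂((volume : Measure (E ι)).toSphere)) ∧
  ∀ d y : E ι, ‖y‖ = 1 →
    ∫ x : Metric.sphere (0 : E ι) 1, |inner ℝ d (x : E ι)| ∂((volume : Measure (E ι)).toSphere) =
      ‖d‖ * ∫ x : Metric.sphere (0 : E ι) 1, |inner ℝ y (x : E ι)|
        ∂((volume : Measure (E ι)).toSphere)

/-- The first vector of a random frame is uniformly distributed on the sphere. -/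
def StAvg : Prop := ∀ Q : ℕ, 2 ≤ Q → ∀ (Fr : Frames (Ix 1 Q)) (f : E (Ix 1 Q) → ℝ),
  ContinuousOn f (Metric.sphere (0 : E (Ix 1 Q)) 1) → ∀ x : E (Ix 1 Q), ‖x‖ = 1 →
  letI := Fr.ms
  (∫ _y : Metric.sphere (0 : E (Ix 1 Q)) 1, (1 : ℝ)
      ∂((volume : Measure (E (Ix 1 Q))).toSphere)) * ∫ ω, f (Fr.A ω x) ∂Fr.μ =
    ∫ y : Metric.sphere (0 : E (Ix 1 Q)) 1, f y ∂((volume : Measure (E (Ix 1 Q))).toSphere)

/-- **Zonal identity**. -/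
def StZon : Prop := ∀ Q : ℕ, 2 ≤ Q → ∀ (Fr : Frames (Ix 1 Q)) (Ψ : E (Ix 1 Q) → ℝ)
  (d : E (Ix 1 Q) → E (Ix 1 Q)), ContinuousOn Ψ (Metric.sphere (0 : E (Ix 1 Q)) 1) →
  ContinuousOn d (Metric.sphere (0 : E (Ix 1 Q)) 1) → ∀ x v : E (Ix 1 Q), ON x v →
  letI := Fr.ms
  Q * ∫ χ in (0 : ℝ)..(2 * Real.pi), |Real.cos χ| ^ (Q - 1) *
      ∫ ω, Ψ (Fr.A ω x) * |inner ℝ (d (Fr.A ω x)) (Real.sin χ • Fr.A ω x -
        Real.cos χ • Fr.A ω v)| ∂Fr.μ =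
    4 * ∫ ω, Ψ (Fr.A ω x) * ‖d (Fr.A ω x)‖ ∂Fr.μ

/-- Average of the inequality of `StPlane` over all planes. -/
def StMean : Prop := ∀ Q : ℕ, 2 ≤ Q → ∀ (Fr : Frames (Ix 1 Q)) (Ψ : E (Ix 1 Q) → ℝ)
  (d : E (Ix 1 Q) → E (Ix 1 Q)) (B : ℝ), ContinuousOn Ψ (Metric.sphere (0 : E (Ix 1 Q)) 1) →
  ContinuousOn d (Metric.sphere (0 : E (Ix 1 Q)) 1) →
  (∀ x v : E (Ix 1 Q), ON x v → B ≤ (Q / (8 * Real.pi)) * ∫ φ in (0 : ℝ)..(2 * Real.pi),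
    Ψ (gc x v φ) * ∫ χ in (0 : ℝ)..(2 * Real.pi), |Real.cos χ| ^ (Q - 1) *
      |inner ℝ (d (gc x v φ)) (Real.sin χ • gc x v φ - Real.cos χ • gd x v φ)|) →
  ∀ x : E (Ix 1 Q), ‖x‖ = 1 →
  letI := Fr.ms
  B ≤ ∫ ω, Ψ (Fr.A ω x) * ‖d (Fr.A ω x)‖ ∂Fr.μ

/-- The volume density of the induced metric. -/
def StVol : Prop := ∀ (ι : Type) [Fintype ι] [DecidableEq ι] (N : E ι → ℝ) (k : ℝ), IsNorm N →
  Inside k N → 2 ≤ Fintype.card ι →
  (∀ x : E ι, ‖x‖ = 1 → volDensity (induced k N) x =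
    (1 / S k N x ^ Fintype.card ι) * ‖dv k N x‖) ∧
  (∀ x : E ι, ‖x‖ = 1 → volDensity (RPn.round : RPn.Field ι) x = 1) ∧
  ContinuousOn (fun x => 1 / S k N x ^ Fintype.card ι) (Metric.sphere (0 : E ι) 1) ∧
  ContinuousOn (dv k N) (Metric.sphere (0 : E ι) 1)

/-- **The theorem.** -/
def StMain : Prop := ∀ (Q : ℕ), 2 ≤ Q → ∀ (k : ℝ) (N : E (Ix 1 Q) → ℝ), IsNorm N →
  (∀ x : E (Ix 1 Q), ‖x‖ = 1 → 0 < N x ^ 2 + k) →
  IsMetric (induced k N) ∧ ∃ (γ : ℝ → E (Ix 1 Q)) (l : ℝ), IsClosedGeodesic (induced k N) γ l ∧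
    (l / Real.pi) ^ Q ≤ vol (induced k N) / vol (RPn.round : RPn.Field (Ix 1 Q))

end Pool.Agent.Work.MP_02f065_gt.Cvx
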