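import Pool.Agent.Work.MP_02f065_gt.RPn.Main
import Pool.Agent.Work.MP_02f065_gt.Cvx.Stmts
import Pool.Agent.Work.MP_02f065_gt.Cvx.I_BAS
import Pool.Agent.Work.MP_02f065_gt.Cvx.I_MET
import Pool.Agent.Work.MP_02f065_gt.Cvx.I_UNIb
import Pool.Agent.Work.MP_02f065_gt.Cvx.I_BAS2
import Pool.Agent.Work.MP_02f065_gt.Cvx.I_MET2
import Pool.Agent.Work.MP_02f065_gt.Cvx.I_UNI2
import Pool.Agent.Work.MP_02f065_gt.Cvx.I_NORM2
import Pool.Agent.Work.MP_02f065_gt.Cvx.I_JEN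
import Pool.Agent.Work.MP_02f065_gt.Cvx.I_K1
import Pool.Agent.Work.MP_02f065_gt.Cvx.I_K0
import Pool.Agent.Work.MP_02f065_gt.Cvx.I_DIR
import Pool.Agent.Work.MP_02f065_gt.Cvx.I_LEN
import Pool.Agent.Work.MP_02f065_gt.Cvx.I_PLANE
import Pool.Agent.Work.MP_02f065_gt.Cvx.I_FR
import Pool.Agent.Work.MP_02f065_gt.Cvx.I_ISO
import Pool.Agent.Work.MP_02f065_gt.Cvx.I_AVG
import Pool.Agent.Work.MP_02f065_gt.Cvx.I_ZON
import Pool.Agent.Work.MP_02f065_gt.Cvx.I_MEAN
import Pool.Agent.Work.MP_02f065_gt.Cvx.I_VOL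
import Pool.Agent.Work.MP_02f065_gt.Cvx.I_MAIN

/-! All items put together. -/

open MeasureTheory Set Filter Topology

noncomputable section

namespace Pool.Agent.Work.MP_02f065_gt.Cvx

open Pool.Agent.Work.MP_02f065_gt.RPn

theorem Met_holds : StMet := iMET iBAS
theorem Dir_holds : StDir := iDIR iBAS iK1
theorem Len_holds : StLen := iLEN iBAS Met_holds iK0 Dir_holds
theorem Met2_holds : StMet2 := iMET2 iBAS2
theorem Norm2_holds : StNorm2 := iNORM2 iBAS Met_holds Met2_holds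
theorem Uni2_holds : StUni2 := iUNI2 iBAS2
theorem Uni_holds : StUni := iUNIb iBAS Norm2_holds Uni2_holds
theorem Plane_holds : StPlane := iPLANE iBAS Uni_holds iJEN Dir_holds Len_holds
theorem Iso_holds : StIso := iISO itemV1a
theorem Z8_h : claimZ8 := itemZ8 itemV1a itemV1b itemV1c itemK itemR itemZ0
theorem Zon_holds : StZon := iZON Iso_holds Z8_h
theorem Vol_holds : StVol := iVOL iBAS Met_holds

theorem main_holds : StMain :=
  iMAIN iBAS Met_holds Plane_holds (iFR itemHaar) (iAVG Iso_holds) (iMEAN Zon_holds) Vol_holds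
    A6_holds

end Pool.Agent.Work.MP_02f065_gt.Cvx
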