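import Pool.Agent.Work.MP_02f065_gt.Cvx.Stmts2

/-!
MP_02f065_gt, block CVX2, item DIR2: the integral over the directions.
-/

open MeasureTheory Set Filter Topology

noncomputable section

namespace Pool.Agent.Work.MP_02f065_gt.Cvx

open Pool.Agent.Work.MP_02f065_gt.RPn

namespace XDIR2

/-- The integrand as a function of the rescaled difference of the angles. -/
def gfun (m : ℕ) (n0 β s : ℝ) (χ : ℝ) : ℝ :=
  (1 / n0 ^ (m + 1)) * (|Real.cos χ| ^ m * |1 * Real.sin χ + β * Real.cos χ| /
    Real.sqrt (Real.sin χ ^ 2 + s ^ 2 * Real.cos χ ^ 2) ^ (m + 3))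

theorem gfun_periodic (m : ℕ) (n0 β s : ℝ) : Function.Periodic (gfun m n0 β s) Real.pi := by
  intro χ
  unfold gfun
  rw [Real.cos_add_pi, Real.sin_add_pi, abs_neg, neg_sq, neg_sq,
    show (1 : ℝ) * -Real.sin χ + β * -Real.cos χ = -(1 * Real.sin χ + β * Real.cos χ) by ring,
    abs_neg]

theorem gfun_cont (m : ℕ) (n0 β : ℝ) {s : ℝ} (hs : 0 < s) : Continuous (gfun m n0 β s) := by
  unfold gfun
  refine continuous_const.mul (Continuous.div (by fun_prop) (by fun_prop) ?_)
  intro χ
  have h1 := Real.sin_sq_add_cos_sq χ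
  have h2 : 0 < Real.sin χ ^ 2 + s ^ 2 * Real.cos χ ^ 2 := by
    rcases eq_or_ne (Real.cos χ) 0 with h | h
    · rw [h] at h1 ⊢
      nlinarith
    · have := pow_pos hs 2
      have h3 : 0 < Real.cos χ ^ 2 := by positivity
      have h4 : 0 ≤ Real.sin χ ^ 2 := sq_nonneg _
      nlinarith [mul_pos this h3]
  exact (pow_pos (Real.sqrt_pos.mpr h2) _).ne'

theorem half (g : ℝ → ℝ) (hg : Function.Periodic g Real.pi) (hc : Continuous g) :
    ∫ χ in (-(Real.pi / 2))..(Real.pi / 2), g χ =
      (1 / 2) * ∫ χ in (0 : ℝ)..(2 * Real.pi), g χ := by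
  have h1 : ∫ χ in (-(Real.pi / 2))..(Real.pi / 2), g χ = ∫ χ in (0 : ℝ)..Real.pi, g χ := by
    have h := hg.intervalIntegral_add_eq (-(Real.pi / 2)) 0
    rw [show -(Real.pi / 2) + Real.pi = Real.pi / 2 by ring, zero_add] at h
    exact h
  have h2 : ∫ χ in Real.pi..(2 * Real.pi), g χ = ∫ χ in (0 : ℝ)..Real.pi, g χ := by
    have h := hg.intervalIntegral_add_eq Real.pi 0
    rw [show Real.pi + Real.pi = 2 * Real.pi by ring, zero_add] at h
    exact h
  have h3 := intervalIntegral.integral_add_adjacent_intervals (a := (0 : ℝ)) (b := Real.pi)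
    (c := 2 * Real.pi) (hc.intervalIntegrable (μ := volume) 0 Real.pi)
    (hc.intervalIntegrable (μ := volume) Real.pi (2 * Real.pi))
  rw [h2] at h3
  rw [h1, ← h3]
  ring

end XDIR2

open XDIR2

theorem iDIR2 (hB : StBas2) (hK : StK1) : StDir2 := by
  intro ι _ N k lam hlam hN hI x v hxv φ m
  obtain ⟨hB1, _, _, _, hB5, _⟩ := hB ι N k lam hlam hN hI
  obtain ⟨hon, _⟩ := hB1 x v hxv φ
  set θ := gc x v φ with hθ
  set u := gd x v φ with hu
  obtain ⟨hθ1, hu1, hθu⟩ := hon
  have hn0 : 0 < N θ := (hB5 x v hxv φ 0 0).1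
  have hSk : 0 < N θ ^ 2 + k := hI θ hθ1
  have hS0 : 0 < S k N θ := Real.sqrt_pos.mpr hSk
  have hS2 : S k N θ ^ 2 = N θ ^ 2 + k := Real.sq_sqrt hSk.le
  set D := fderiv ℝ N θ u with hD
  set n0 := N θ with hn0d
  set s := S k N θ / n0 with hs
  set β := D / (lam * n0) with hβ
  have hs0 : 0 < s := div_pos hS0 hn0
  -- left integrand
  have hleft : ∀ t : ℝ, |pk k lam N x v φ t| ^ m * |dpk k lam N x v φ t| =
      lam ^ (m + 2) * gfun m n0 β s (lam * t) := by
    intro t
    have hq : p lam N x v φ t = Real.cos (lam * t) / n0 := rfl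
    have hdq : dp lam N x v φ t = -((lam / n0) *
        (1 * Real.sin (lam * t) + β * Real.cos (lam * t))) := by
      unfold dp
      rw [← hθ, ← hu, ← hD, ← hn0d, hβ]
      field_simp
      ring
    have hrad : 1 + k * p lam N x v φ t ^ 2 =
        Real.sin (lam * t) ^ 2 + s ^ 2 * Real.cos (lam * t) ^ 2 := by
      rw [hq, hs, div_pow, div_pow, hS2]
      have h1 := Real.sin_sq_add_cos_sq (lam * t)
      field_simp
      nlinarith [h1]
    have hpos : 0 < 1 + k * p lam N x v φ t ^ 2 := (hB5 x v hxv φ 0 t).2.1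
    set R := Real.sqrt (1 + k * p lam N x v φ t ^ 2) with hR
    have hR0 : 0 < R := Real.sqrt_pos.mpr hpos
    have hqk : |pk k lam N x v φ t| = lam * |Real.cos (lam * t)| / (n0 * R) := by
      unfold pk
      rw [← hR, hq, abs_div, abs_mul, abs_div, abs_of_pos hn0, abs_of_pos hR0, abs_of_pos hlam]
      field_simp
    have hdqk : |dpk k lam N x v φ t| = lam * ((lam / n0) *
        |1 * Real.sin (lam * t) + β * Real.cos (lam * t)|) / R ^ 3 := by
      unfold dpk
      rw [← hR, hdq, abs_div, abs_mul, abs_neg, abs_mul, abs_of_pos (div_pos hlam hn0),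
        abs_of_pos (pow_pos hR0 3), abs_of_pos hlam]
    unfold gfun
    rw [hqk, hdqk, ← hrad, ← hR, div_pow, mul_pow, mul_pow]
    field_simp
    ring
  have hint : ∫ t in (-(Real.pi / (2 * lam)))..(Real.pi / (2 * lam)),
      |pk k lam N x v φ t| ^ m * |dpk k lam N x v φ t| =
      lam ^ (m + 1) * ((1 / 2) * ∫ χ in (0 : ℝ)..(2 * Real.pi), gfun m n0 β s χ) := by
    rw [intervalIntegral.integral_congr (fun t _ => hleft t),
      intervalIntegral.integral_const_mul,
      intervalIntegral.integral_comp_mul_left (gfun m n0 β s) hlam.ne',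
      show lam * -(Real.pi / (2 * lam)) = -(Real.pi / 2) by field_simp,
      show lam * (Real.pi / (2 * lam)) = Real.pi / 2 by field_simp,
      half _ (gfun_periodic m n0 β s) (gfun_cont m n0 β hs0), smul_eq_mul]
    field_simp
    ring
  rw [hint]
  unfold gfun
  rw [intervalIntegral.integral_const_mul, hK m s 1 β hs0]
  -- right integrand
  have hin : ∀ χ : ℝ, inner ℝ (dw k lam N θ) (Real.sin χ • θ - Real.cos χ • u) =
      S k N θ * Real.sin χ - D / lam * Real.cos χ := by
    intro χ
    have h1 : inner ℝ (dw k lam N θ) θ = S k N θ := by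
      unfold dw
      rw [inner_add_left, real_inner_smul_left, real_inner_smul_left, inner_sub_left,
        real_inner_smul_left, real_inner_self_eq_norm_sq, hθ1]
      ring
    have h2 : inner ℝ (dw k lam N θ) u = D / lam := by
      unfold dw
      rw [inner_add_left, real_inner_smul_left, real_inner_smul_left, inner_sub_left,
        real_inner_smul_left, hθu]
      unfold grad
      rw [InnerProductSpace.toDual_symm_apply]
      ring
    rw [inner_sub_right, real_inner_smul_right, real_inner_smul_right, h1, h2]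
    ring
  have hR : ∫ χ in (0 : ℝ)..(2 * Real.pi), |Real.cos χ| ^ m *
      |inner ℝ (dw k lam N θ) (Real.sin χ • θ - Real.cos χ • u)| =
      n0 * ∫ χ in (0 : ℝ)..(2 * Real.pi),
        |Real.cos χ| ^ m * |1 * s * Real.sin χ + β * Real.cos χ| := by
    have e1 : ∫ χ in (0 : ℝ)..(2 * Real.pi), |Real.cos χ| ^ m *
        |inner ℝ (dw k lam N θ) (Real.sin χ • θ - Real.cos χ • u)| =
        ∫ χ in (0 : ℝ)..(2 * Real.pi), |Real.cos χ| ^ m *
          |S k N θ * Real.sin χ - D / lam * Real.cos χ| :=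
      intervalIntegral.integral_congr (fun χ _ => by simp only [hin χ])
    have e2 := intervalIntegral.integral_comp_sub_left (a := (0 : ℝ)) (b := 2 * Real.pi)
      (fun χ : ℝ => |Real.cos χ| ^ m * |S k N θ * Real.sin χ - D / lam * Real.cos χ|)
      (2 * Real.pi)
    rw [sub_self, sub_zero] at e2
    rw [e1, ← e2, ← intervalIntegral.integral_const_mul]
    refine intervalIntegral.integral_congr (fun χ _ => ?_)
    rw [Real.cos_two_pi_sub, Real.sin_two_pi_sub]
    have h3 : S k N θ * -Real.sin χ - D / lam * Real.cos χ =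
        -(n0 * (1 * s * Real.sin χ + β * Real.cos χ)) := by
      rw [hs, hβ]
      field_simp
      ring
    rw [h3, abs_neg, abs_mul, abs_of_pos hn0]
    ring
  rw [hR, hs, div_pow]
  have hSm : S k N θ ^ (m + 2) ≠ 0 := (pow_pos hS0 _).ne'
  have hnm : n0 ≠ 0 := hn0.ne'
  field_simp
  ring

end Pool.Agent.Work.MP_02f065_gt.Cvx
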