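import Pool.Agent.Work.MP_02f065_gt.Cvx.Stmts2

/-!
MP_02f065_gt, block CVX2, item JEN2: the power mean inequality.
-/

open MeasureTheory Set Filter Topology

noncomputable section

namespace Pool.Agent.Work.MP_02f065_gt.Cvx

open Pool.Agent.Work.MP_02f065_gt.RPn

namespace XJEN2

theorem swap (f : ℝ × ℝ → ℝ) (hf : Continuous f) {a b c d : ℝ} (hab : a ≤ b) (hcd : c ≤ d) :
    ∫ x in a..b, ∫ y in c..d, f (x, y) = ∫ y in c..d, ∫ x in a..b, f (x, y) := by
  simp only [intervalIntegral.integral_of_le hab, intervalIntegral.integral_of_le hcd]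
  refine MeasureTheory.integral_integral_swap (f := fun x y => f (x, y)) ?_
  have h1 : Integrable (fun z : ℝ × ℝ => f z)
      ((volume.prod volume).restrict (Ioc a b ×ˢ Ioc c d)) := by
    have h2 : IntegrableOn f (Icc a b ×ˢ Icc c d) (volume.prod volume) :=
      hf.continuousOn.integrableOn_compact (isCompact_Icc.prod isCompact_Icc)
    exact h2.mono_set (prod_mono Ioc_subset_Icc_self Ioc_subset_Icc_self)
  rw [Measure.prod_restrict]
  exact h1

theorem jensen (a : ℝ → ℝ) (ha : Continuous a) (h : ∀ x, 0 ≤ a x) (n : ℕ) :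
    ((1 / (2 * Real.pi)) * ∫ x in (0 : ℝ)..(2 * Real.pi), a x) ^ n ≤
      (1 / (2 * Real.pi)) * ∫ x in (0 : ℝ)..(2 * Real.pi), (a x) ^ n := by
  have h0 : (0 : ℝ) ≤ 2 * Real.pi := by positivity
  have key := (convexOn_pow n).map_set_average_le (μ := volume)
    (t := Ioc (0 : ℝ) (2 * Real.pi)) (f := a) (by fun_prop) isClosed_Ici
    (by simp [Real.pi_pos]) (by rw [Real.volume_Ioc]; exact ENNReal.ofReal_ne_top)
    (Eventually.of_forall fun x => h x)
    (ha.integrableOn_Ioc) ((ha.pow n).integrableOn_Ioc)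
  rw [setAverage_eq, setAverage_eq] at key
  simp only [smul_eq_mul] at key
  rw [intervalIntegral.integral_of_le h0, intervalIntegral.integral_of_le h0]
  have e : (volume.real (Ioc (0 : ℝ) (2 * Real.pi)))⁻¹ = 1 / (2 * Real.pi) := by
    rw [Real.volume_real_Ioc_of_le h0, sub_zero, one_div]
  rw [e] at key
  exact key

/-- The substitution `φ = ψ + t`. -/
theorem subst (F : ℝ × ℝ → ℝ) (w ψ : ℝ) :
    ∫ φ in (ψ - w)..(ψ + w), F (φ, φ - ψ) = ∫ t in (-w)..w, F (ψ + t, t) := by
  have h := intervalIntegral.integral_comp_add_left (a := -w) (b := w)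
    (fun φ => F (φ, φ - ψ)) ψ
  simp only [add_sub_cancel_left] at h
  rw [h]
  congr 1

theorem cont (F : ℝ × ℝ → ℝ) (hF : Continuous F) (w : ℝ) :
    Continuous fun ψ : ℝ => ∫ t in (-w)..w, F (ψ + t, t) := by
  apply intervalIntegral.continuous_parametric_intervalIntegral_of_continuous'
  exact hF.comp ((continuous_fst.add continuous_snd).prodMk continuous_snd)

theorem total (F : ℝ × ℝ → ℝ) (hF : Continuous F) {w : ℝ} (hw : 0 < w)
    (hp : ∀ φ t, F (φ + 2 * Real.pi, t) = F (φ, t)) :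
    ∫ ψ in (0 : ℝ)..(2 * Real.pi), ∫ t in (-w)..w, F (ψ + t, t) =
      ∫ φ in (0 : ℝ)..(2 * Real.pi), ∫ t in (-w)..w, F (φ, t) := by
  have h0 : (0 : ℝ) ≤ 2 * Real.pi := by positivity
  have hw' : -w ≤ w := by linarith
  have hF' : Continuous fun z : ℝ × ℝ => F (z.1 + z.2, z.2) :=
    hF.comp ((continuous_fst.add continuous_snd).prodMk continuous_snd)
  have e1 := swap (fun z : ℝ × ℝ => F (z.1 + z.2, z.2)) hF' h0 hw'
  rw [swap F hF h0 hw']
  refine e1.trans ?_
  refine intervalIntegral.integral_congr fun t _ => ?_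
  have hper : Function.Periodic (fun φ => F (φ, t)) (2 * Real.pi) := fun φ => hp φ t
  have e2 := intervalIntegral.integral_comp_add_right (a := 0) (b := 2 * Real.pi)
    (fun φ => F (φ, t)) t
  have e3 := hper.intervalIntegral_add_eq t 0
  simp only
  rw [e2, zero_add, add_comm (2 * Real.pi) t, e3, zero_add]

end XJEN2

open XJEN2 in
theorem iJEN2 : StJen2 := by
  intro F G n w hw _ hF hG hF0 hpF hpG hFG
  have h0 : (0 : ℝ) ≤ 2 * Real.pi := by positivity
  have hpi : (0 : ℝ) < Real.pi := Real.pi_pos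
  have hw' : -w ≤ w := by linarith
  simp only [subst] at hFG
  rw [← total F hF hw hpF, ← total G hG hw hpG]
  obtain ⟨a, ha⟩ : ∃ a : ℝ → ℝ, a = fun ψ => (1 / 2) * ∫ t in (-w)..w, F (ψ + t, t) := ⟨_, rfl⟩
  obtain ⟨b, hb⟩ : ∃ b : ℝ → ℝ, b = fun ψ => (1 / 2) * ∫ t in (-w)..w, G (ψ + t, t) := ⟨_, rfl⟩
  have hac : Continuous a := by rw [ha]; exact continuous_const.mul (cont F hF w)
  have hbc : Continuous b := by rw [hb]; exact continuous_const.mul (cont G hG w)
  have ha0 : ∀ x, 0 ≤ a x := by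
    intro x
    rw [ha]
    exact mul_nonneg (by norm_num) (intervalIntegral.integral_nonneg hw' fun φ _ => hF0 _)
  have hab : ∀ x, a x ^ n ≤ b x := by
    intro x
    rw [ha, hb]
    exact hFG x
  have e1 : (1 / (4 * Real.pi)) * ∫ ψ in (0 : ℝ)..(2 * Real.pi),
      ∫ t in (-w)..w, F (ψ + t, t) =
      (1 / (2 * Real.pi)) * ∫ ψ in (0 : ℝ)..(2 * Real.pi), a ψ := by
    rw [ha, intervalIntegral.integral_const_mul]
    field_simp
    ring
  have e2 : (1 / (4 * Real.pi)) * ∫ ψ in (0 : ℝ)..(2 * Real.pi),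
      ∫ t in (-w)..w, G (ψ + t, t) =
      (1 / (2 * Real.pi)) * ∫ ψ in (0 : ℝ)..(2 * Real.pi), b ψ := by
    rw [hb, intervalIntegral.integral_const_mul]
    field_simp
    ring
  rw [e1, e2]
  refine (jensen a hac ha0 n).trans ?_
  refine mul_le_mul_of_nonneg_left ?_ (by positivity)
  exact intervalIntegral.integral_mono_on h0 ((hac.pow n).intervalIntegrable _ _)
    (hbc.intervalIntegrable _ _) fun x _ => hab x

end Pool.Agent.Work.MP_02f065_gt.Cvx
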