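import Pool.Agent.Work.MP_02f065_gt.Cvx.Stmts2

/-!
MP_02f065_gt, block CVX2, item LEN2 (12000): the length of a half great circle.
-/

open MeasureTheory Set Filter Topology

noncomputable section

namespace Pool.Agent.Work.MP_02f065_gt.Cvx

open Pool.Agent.Work.MP_02f065_gt.RPn

namespace XLEN2

variable {ι : Type} [Fintype ι]

lemma sqrt_formula {lam s D : ℝ} (hl : 0 < lam) (hs : 0 < s) :
    Real.sqrt (lam ^ 2 / s ^ 2 + D ^ 2 / (s ^ 2) ^ 2) =
      lam * Real.sqrt (s ^ 2 + (D / lam) ^ 2) / s ^ 2 := by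
  have h : lam ^ 2 / s ^ 2 + D ^ 2 / (s ^ 2) ^ 2 =
      (lam ^ 2 * (s ^ 2 + (D / lam) ^ 2)) / (s ^ 2) ^ 2 := by
    field_simp
  rw [h, Real.sqrt_div (by positivity), Real.sqrt_sq (by positivity),
    Real.sqrt_mul (by positivity), Real.sqrt_sq hl.le]

/-- A function with period `π`. -/
lemma half {P : ℝ → ℝ} (hP : Continuous P) (h : ∀ t, P (t + Real.pi) = P t) :
    ∫ t in (0 : ℝ)..(2 * Real.pi), P t = 2 * ∫ t in (0 : ℝ)..Real.pi, P t := by
  have h1 : ∫ t in Real.pi..(2 * Real.pi), P t = ∫ t in (0 : ℝ)..Real.pi, P t := by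
    have h2 := intervalIntegral.integral_comp_add_right (a := 0) (b := Real.pi) P Real.pi
    rw [zero_add, ← two_mul] at h2
    rw [← h2]
    simp only [h]
  rw [← intervalIntegral.integral_add_adjacent_intervals (hP.intervalIntegrable 0 Real.pi)
    (hP.intervalIntegrable Real.pi (2 * Real.pi)), h1]
  ring

end XLEN2

open XLEN2 in
theorem iLEN2 (hB : StBas2) (hM : StMet2) (hK0 : StK0) (hD : StDir2) : StLen2 := by
  intro ι _ N k lam L hl hN hI hS x v hxv
  obtain ⟨h1, h2, -, -, h5, h6⟩ := hB ι N k lam hl hN hI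
  obtain ⟨hmet, hform⟩ := hM ι N k lam hl hN hI
  have hg1 := h1 x v hxv
  obtain ⟨hc1, hc2⟩ := h6 x v hxv
  have hpi := Real.pi_pos
  -- the mean over the directions
  set P : ℝ → ℝ := fun φ => ∫ t in (-(Real.pi / (2 * lam)))..(Real.pi / (2 * lam)),
    |dpk k lam N x v φ t| with hPdef
  have hPc : Continuous P := by
    apply intervalIntegral.continuous_parametric_intervalIntegral_of_continuous'
    exact hc2.abs
  have hPp : ∀ φ, P (φ + Real.pi) = P φ := by
    intro φ
    simp only [hPdef]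
    congr 1
    ext ψ
    rw [(h5 x v hxv φ ψ ψ).2.2.2.2.2]
  -- the length element
  set f : ℝ → ℝ := fun φ => Real.sqrt (induced2 k lam N (gc x v φ) (gd x v φ) (gd x v φ)) with hfdef
  have hfP : ∀ φ, f φ = (1 / 2) * P φ := by
    intro φ
    obtain ⟨⟨hn1, hn2, hn3⟩, -⟩ := hg1 φ
    have hpos : 0 < N (gc x v φ) ^ 2 + k := hI _ hn1
    have hSpos : 0 < S k N (gc x v φ) := Real.sqrt_pos.mpr hpos
    have hSsq : S k N (gc x v φ) ^ 2 = N (gc x v φ) ^ 2 + k := Real.sq_sqrt hpos.le
    set D : ℝ := fderiv ℝ N (gc x v φ) (gd x v φ) with hDdef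
    have hgg : inner ℝ (gc x v φ) (gc x v φ) = (1 : ℝ) := by
      rw [real_inner_self_eq_norm_sq, hn1]; norm_num
    have e1 : inner ℝ (dw k lam N (gc x v φ)) (gc x v φ) = S k N (gc x v φ) := by
      unfold dw
      rw [inner_add_left, real_inner_smul_left, hgg, real_inner_smul_left, inner_sub_left,
        real_inner_smul_left, hgg]
      ring
    have e2 : inner ℝ (dw k lam N (gc x v φ)) (gd x v φ) = D / lam := by
      unfold dw
      rw [inner_add_left, real_inner_smul_left, hn3, real_inner_smul_left, inner_sub_left,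
        real_inner_smul_left, hn3]
      have e3 : inner ℝ (grad N (gc x v φ)) (gd x v φ) = D := by
        unfold grad
        rw [InnerProductSpace.toDual_symm_apply]
      rw [e3]
      ring
    have hDir := hD ι N k lam hl hN hI x v hxv φ 0
    simp only [pow_zero, one_mul, zero_add, pow_one] at hDir
    have e3 : ∀ χ : ℝ, inner ℝ (dw k lam N (gc x v φ))
        (Real.sin χ • gc x v φ - Real.cos χ • gd x v φ)
        = S k N (gc x v φ) * Real.sin χ + (-(D / lam)) * Real.cos χ := by
      intro χ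
      rw [inner_sub_right, real_inner_smul_right, real_inner_smul_right, e1, e2]
      ring
    simp only [e3] at hDir
    rw [hK0 (S k N (gc x v φ)) (-(D / lam))] at hDir
    have hPφ : P φ = (lam / (2 * S k N (gc x v φ) ^ 2)) *
        (4 * Real.sqrt (S k N (gc x v φ) ^ 2 + (-(D / lam)) ^ 2)) := hDir
    have hff : f φ = Real.sqrt (lam ^ 2 / S k N (gc x v φ) ^ 2 +
        D ^ 2 / (S k N (gc x v φ) ^ 2) ^ 2) := by
      simp only [hfdef]
      rw [hform (gc x v φ) (gd x v φ) (gd x v φ) hn1 hn3 hn3, real_inner_self_eq_norm_sq, hn2,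
        hSsq, ← hDdef]
      norm_num
      ring_nf
    rw [hff, sqrt_formula hl hSpos, hPφ, neg_sq]
    ring
  -- the curve
  have hcd : ∀ t, HasDerivAt (fun s => gc x v (Real.pi * s)) (Real.pi • gd x v (Real.pi * t)) t := by
    intro t
    have ha : HasDerivAt (fun s : ℝ => Real.pi * s) Real.pi t := by
      simpa using (hasDerivAt_id t).const_mul Real.pi
    exact (hg1 (Real.pi * t)).2.scomp t ha
  have hcurve : IsCurve (fun s => gc x v (Real.pi * s)) x (-x) := by
    refine ⟨?_, fun t => (hg1 _).1.1, ?_, ?_⟩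
    · unfold gc
      fun_prop
    · simp [gc]
    · simp [gc]
  have hlen : length (induced2 k lam N) (fun s => gc x v (Real.pi * s)) =
      ∫ φ in (0 : ℝ)..Real.pi, f φ := by
    unfold length
    have e : ∀ t : ℝ, Real.sqrt (induced2 k lam N (gc x v (Real.pi * t))
        (deriv (fun s => gc x v (Real.pi * s)) t) (deriv (fun s => gc x v (Real.pi * s)) t)) =
        Real.pi * f (Real.pi * t) := by
      intro t
      rw [(hcd t).deriv, hmet.smul, hmet.symm, hmet.smul, ← mul_assoc, ← sq,
        Real.sqrt_mul (sq_nonneg _), Real.sqrt_sq hpi.le]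
    simp only [e]
    rw [intervalIntegral.integral_const_mul, intervalIntegral.mul_integral_comp_mul_left]
    simp
  have hL := hS x _ hxv.1 hcurve
  rw [hlen] at hL
  refine hL.trans (le_of_eq ?_)
  simp only [hfP]
  rw [intervalIntegral.integral_const_mul]
  have hh := half hPc hPp
  have hh' : ∫ φ in (0 : ℝ)..(2 * Real.pi),
      ∫ t in (-(Real.pi / (2 * lam)))..(Real.pi / (2 * lam)), |dpk k lam N x v φ t| =
      2 * ∫ φ in (0 : ℝ)..Real.pi, P φ := hh
  rw [hh']
  ring

end Pool.Agent.Work.MP_02f065_gt.Cvx
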