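import Pool.Agent.Work.MP_02f065_gt.Cvx.Stmts2
import Pool.Agent.Work.MP_02f065_gt.Cvx.I_MAIN

/-!
MP_02f065_gt, block CVX2: the main theorem from the items.
-/

open MeasureTheory Set Filter Topology

noncomputable section

namespace Pool.Agent.Work.MP_02f065_gt.Cvx

open Pool.Agent.Work.MP_02f065_gt.RPn

namespace XMAIN2

lemma isNorm_norm (ι : Type) [Fintype ι] : IsNorm (fun x : E ι => ‖x‖) where
  tri x y := norm_add_le x y
  hom r x := by
    rw [norm_smul, Real.norm_eq_abs]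
  pos x hx := norm_pos_iff.2 hx
  diff := fun x hx => (contDiffAt_norm ℝ hx).contDiffWithinAt

lemma inside_norm (ι : Type) [Fintype ι] : Inside 0 (fun x : E ι => ‖x‖) := by
  intro x hx
  change 0 < ‖x‖ ^ 2 + 0
  rw [hx]
  norm_num

end XMAIN2

theorem iMAIN2 (hB : StBas2) (hM : StMet2) (hP : StPlane2) (hF : StFr) (hA : StAvg) (hMn : StMean)
    (hV : StVol2) (hV1 : StVol) (h6 : claimA6) : StMain2 := by
  intro Q hQ k lam N hlam hN hI
  have _hB := hB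
  have hg : IsMetric (induced2 k lam N) := (hM (Ix 1 Q) N k lam hlam hN hI).1
  refine ⟨hg, ?_⟩
  have : Nontrivial (Ix 1 Q) :=
    ⟨⟨Sum.inl 0, Sum.inr ⟨0, by omega⟩, by simp⟩⟩
  obtain ⟨L, hL, hS, γ, hγ⟩ := h6 (Ix 1 Q) (induced2 k lam N) hg
  refine ⟨γ, L, hγ, ?_⟩
  have hcard : Fintype.card (Ix 1 Q) = Q + 1 := by
    simp [Fintype.card_sum, add_comm]
  obtain ⟨hv1, hc1, hc2⟩ := hV (Ix 1 Q) N k lam hlam hN hI (by rw [hcard]; omega)
  obtain ⟨-, hv2, -, -⟩ := hV1 (Ix 1 Q) (fun x => ‖x‖) 0 (XMAIN2.isNorm_norm _)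
    (XMAIN2.inside_norm _) (by rw [hcard]; omega)
  rw [hcard] at hc1 hv1
  rw [Nat.add_sub_cancel] at hc1 hv1
  have hpl : ∀ x v : E (Ix 1 Q), ON x v →
      (L / Real.pi) ^ Q ≤ (Q / (8 * Real.pi)) * ∫ φ in (0 : ℝ)..(2 * Real.pi),
    (lam ^ Q / S k N (gc x v φ) ^ (Q + 1)) * ∫ χ in (0 : ℝ)..(2 * Real.pi),
      |Real.cos χ| ^ (Q - 1) *
      |inner ℝ (dw k lam N (gc x v φ)) (Real.sin χ • gc x v φ - Real.cos χ • gd x v φ)| := by
    intro x v hxv
    exact hP (Ix 1 Q) N k lam L hlam hN hI hL hS x v hxv Q (by omega)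
  obtain ⟨Fr⟩ := hF Q hQ
  let x₀ : E (Ix 1 Q) := EuclideanSpace.single (Sum.inl 0) 1
  have hx₀ : ‖x₀‖ = 1 := by simp [x₀]
  have hmean := hMn Q hQ Fr (fun x => lam ^ Q / S k N x ^ (Q + 1)) (dw k lam N)
    ((L / Real.pi) ^ Q) hc1 hc2 hpl x₀ hx₀
  have hcont : ContinuousOn (volDensity (induced2 k lam N))
      (Metric.sphere (0 : E (Ix 1 Q)) 1) := by
    refine (hc1.mul hc2.norm).congr ?_
    intro x hx
    exact hv1 x (by simpa using hx)
  have havg := hA Q hQ Fr (volDensity (induced2 k lam N)) hcont x₀ hx₀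
  have heq : ∀ ω, volDensity (induced2 k lam N) (Fr.A ω x₀) =
      (lam ^ Q / S k N (Fr.A ω x₀) ^ (Q + 1)) * ‖dw k lam N (Fr.A ω x₀)‖ := by
    intro ω
    exact hv1 _ (by rw [(Fr.A ω).norm_map]; exact hx₀)
  simp only [heq] at havg
  have hround : vol (RPn.round : RPn.Field (Ix 1 Q)) =
      (1 / 2) * ∫ _y : Metric.sphere (0 : E (Ix 1 Q)) 1, (1 : ℝ)
      ∂((volume : Measure (E (Ix 1 Q))).toSphere) := by
    unfold vol
    congr 1
    refine integral_congr_ae (Eventually.of_forall fun y => ?_)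
    exact hv2 y (by simpa using y.2)
  have hpos := XMAIN.int_one_pos Q hQ
  rw [hround, le_div_iff₀ (by positivity)]
  unfold vol
  rw [← havg]
  nlinarith [mul_le_mul_of_nonneg_left hmean hpos.le]

end Pool.Agent.Work.MP_02f065_gt.Cvx
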