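import Pool.Agent.Work.MP_02f065_gt.Cvx.Stmts2

/-!
MP_02f065_gt, block CVX2, item PLANE2: the inequality in one plane.
-/

open MeasureTheory Set Filter Topology

noncomputable section

namespace Pool.Agent.Work.MP_02f065_gt.Cvx

open Pool.Agent.Work.MP_02f065_gt.RPn

theorem iPLANE2 (hB : StBas2) (hU : StUni2) (hJ : StJen2) (hD : StDir2) (hL : StLen2) :
    StPlane2 := by
  intro ι _ N k lam L hlam hN hI hL0 hS x v hxv n hn
  obtain ⟨-, -, -, -, hper, hc⟩ := hB ι N k lam hlam hN hI
  obtain ⟨hc1, hc2⟩ := hc x v hxv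
  have hlen := hL ι N k lam L hlam hN hI hS x v hxv
  have hpi := Real.pi_pos
  have hp1 : ∀ φ t, pk k lam N x v (φ + 2 * Real.pi) t = pk k lam N x v φ t := by
    intro φ t
    have h1 := (hper x v hxv φ 0 t).2.2.2.2.1
    have h2 := (hper x v hxv (φ + Real.pi) 0 t).2.2.2.2.1
    rw [← h1, ← h2]
    congr 1
    ring
  have hp2 : ∀ φ t, dpk k lam N x v (φ + 2 * Real.pi) t = dpk k lam N x v φ t := by
    intro φ t
    have h1 := (hper x v hxv φ 0 t).2.2.2.2.2
    have h2 := (hper x v hxv (φ + Real.pi) 0 t).2.2.2.2.2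
    rw [← h1, ← h2]
    congr 1
    ring
  have hJ' := hJ (fun z => |dpk k lam N x v z.1 z.2|)
    (fun z => (n : ℝ) * |pk k lam N x v z.1 z.2| ^ (n - 1) * |dpk k lam N x v z.1 z.2|) n
    (Real.pi / (2 * lam)) (by positivity) hn hc2.abs
    ((continuous_const.mul (hc1.abs.pow _)).mul hc2.abs) (fun z => abs_nonneg _)
    (fun φ t => by simp only [hp2]) (fun φ t => by simp only [hp1, hp2])
    (fun ψ => hU ι N k lam hlam hN hI x v hxv ψ n hn)
  refine le_trans (pow_le_pow_left₀ (by positivity) ?_ n) (hJ'.trans (le_of_eq ?_))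
  · rw [div_le_iff₀ hpi]
    refine hlen.trans (le_of_eq ?_)
    field_simp
  · have hφ : ∀ φ : ℝ, (∫ t in (-(Real.pi / (2 * lam)))..(Real.pi / (2 * lam)),
        (n : ℝ) * |pk k lam N x v φ t| ^ (n - 1) * |dpk k lam N x v φ t|) =
        ((n : ℝ) / 2) * ((lam ^ n / S k N (gc x v φ) ^ (n + 1)) *
          ∫ χ in (0 : ℝ)..(2 * Real.pi), |Real.cos χ| ^ (n - 1) *
          |inner ℝ (dw k lam N (gc x v φ)) (Real.sin χ • gc x v φ -
            Real.cos χ • gd x v φ)|) := by
      intro φ
      have h1 := hD ι N k lam hlam hN hI x v hxv φ (n - 1)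
      have e : n - 1 + 2 = n + 1 := by omega
      have e' : n - 1 + 1 = n := by omega
      rw [e, e'] at h1
      have h2 : (∫ t in (-(Real.pi / (2 * lam)))..(Real.pi / (2 * lam)),
          (n : ℝ) * |pk k lam N x v φ t| ^ (n - 1) * |dpk k lam N x v φ t|) =
          (n : ℝ) * ∫ t in (-(Real.pi / (2 * lam)))..(Real.pi / (2 * lam)),
          |pk k lam N x v φ t| ^ (n - 1) * |dpk k lam N x v φ t| := by
        rw [← intervalIntegral.integral_const_mul]
        congr 1
        ext t
        ring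
      rw [h2, h1, div_mul_eq_div_div_swap]
      ring
    simp only [hφ]
    rw [intervalIntegral.integral_const_mul]
    ring

end Pool.Agent.Work.MP_02f065_gt.Cvx
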