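import Pool.Agent.Work.MP_02f065_gt.Cvx.Stmts2

/-!
MP_02f065_gt, block CVX2, item SMO2: functions of class C^2 are profiles for large `lam`.
-/

open MeasureTheory Set Filter Topology

noncomputable section

namespace Pool.Agent.Work.MP_02f065_gt.Cvx

open Pool.Agent.Work.MP_02f065_gt.RPn

namespace XSMO2

/-- Sturm comparison: a function with `h'' + lam^2 h >= 0` is trigonometrically convex. -/
theorem sturm (h h1 h2 : ℝ → ℝ) (lam a b : ℝ) (hl : 0 < lam) (ha : 0 ≤ a) (hb : 0 ≤ b)
    (hab : lam * (a + b) < Real.pi) (hd1 : ∀ t, HasDerivAt h (h1 t) t)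
    (hd2 : ∀ t, HasDerivAt h1 (h2 t) t) (h3 : ∀ t, 0 ≤ h2 t + lam ^ 2 * h t) :
    h 0 * Real.sin (lam * (a + b)) ≤ h (-a) * Real.sin (lam * b) + h b * Real.sin (lam * a) := by
  have hla : 0 ≤ lam * a := by positivity
  have hlb : 0 ≤ lam * b := by positivity
  have hlab : lam * (a + b) = lam * a + lam * b := by ring
  -- the left interval
  have hP : ∀ s, HasDerivAt (fun s => h1 s * Real.sin (lam * (s + a)) -
      lam * h s * Real.cos (lam * (s + a))) ((h2 s + lam ^ 2 * h s) * Real.sin (lam * (s + a))) s := by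
    intro s
    have e1 : HasDerivAt (fun s => lam * (s + a)) lam s := by
      simpa using ((hasDerivAt_id s).add_const a).const_mul lam
    have e2 := e1.sin
    have e3 := e1.cos
    have e4 := ((hd2 s).mul e2).sub (((hd1 s).const_mul lam).mul e3)
    refine e4.congr_deriv ?_
    ring
  have hPm : MonotoneOn (fun s => h1 s * Real.sin (lam * (s + a)) -
      lam * h s * Real.cos (lam * (s + a))) (Icc (-a) 0) := by
    refine monotoneOn_of_deriv_nonneg (convex_Icc _ _)
      (fun s _ => (hP s).continuousAt.continuousWithinAt)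
      (fun s _ => (hP s).differentiableAt.differentiableWithinAt) fun s hs => ?_
    rw [interior_Icc] at hs
    rw [(hP s).deriv]
    refine mul_nonneg (h3 s) (Real.sin_nonneg_of_nonneg_of_le_pi ?_ ?_)
    · have : 0 ≤ s + a := by linarith [hs.1]
      positivity
    · have : lam * (s + a) ≤ lam * a := mul_le_mul_of_nonneg_left (by linarith [hs.2]) hl.le
      linarith
  have hQ : ∀ s, HasDerivAt (fun s => h1 s * Real.sin (lam * (b - s)) +
      lam * h s * Real.cos (lam * (b - s))) ((h2 s + lam ^ 2 * h s) * Real.sin (lam * (b - s))) s := by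
    intro s
    have e1 : HasDerivAt (fun s => lam * (b - s)) (-lam) s := by
      simpa using ((hasDerivAt_id s).const_sub b).const_mul lam
    have e2 := e1.sin
    have e3 := e1.cos
    have e4 := ((hd2 s).mul e2).add (((hd1 s).const_mul lam).mul e3)
    refine e4.congr_deriv ?_
    ring
  have hQm : MonotoneOn (fun s => h1 s * Real.sin (lam * (b - s)) +
      lam * h s * Real.cos (lam * (b - s))) (Icc 0 b) := by
    refine monotoneOn_of_deriv_nonneg (convex_Icc _ _)
      (fun s _ => (hQ s).continuousAt.continuousWithinAt)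
      (fun s _ => (hQ s).differentiableAt.differentiableWithinAt) fun s hs => ?_
    rw [interior_Icc] at hs
    rw [(hQ s).deriv]
    refine mul_nonneg (h3 s) (Real.sin_nonneg_of_nonneg_of_le_pi ?_ ?_)
    · have : 0 ≤ b - s := by linarith [hs.2]
      positivity
    · have : lam * (b - s) ≤ lam * b := mul_le_mul_of_nonneg_left (by linarith [hs.1]) hl.le
      linarith
  have i1 := hPm (left_mem_Icc.2 (by linarith)) (right_mem_Icc.2 (by linarith)) (by linarith)
  have i2 := hQm (left_mem_Icc.2 hb) (right_mem_Icc.2 hb) hb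
  simp only [neg_add_cancel, mul_zero, Real.sin_zero, Real.cos_zero, mul_one, zero_add, zero_sub,
    sub_self, sub_zero] at i1 i2
  have sa : 0 ≤ Real.sin (lam * a) := Real.sin_nonneg_of_nonneg_of_le_pi hla (by linarith)
  have sb : 0 ≤ Real.sin (lam * b) := Real.sin_nonneg_of_nonneg_of_le_pi hlb (by linarith)
  have j1 := mul_le_mul_of_nonneg_right i1 sb
  have j2 := mul_le_mul_of_nonneg_right i2 sa
  rw [hlab, Real.sin_add]
  have key : 0 ≤ lam * (h (-a) * Real.sin (lam * b) + h b * Real.sin (lam * a) -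
      h 0 * (Real.sin (lam * a) * Real.cos (lam * b) + Real.cos (lam * a) * Real.sin (lam * b))) := by
    nlinarith [j1, j2]
  have key2 := nonneg_of_mul_nonneg_right key hl
  linarith

theorem gc_norm {ι : Type} [Fintype ι] {x v : E ι} (h : ON x v) (t : ℝ) : ‖gc x v t‖ = 1 := by
  obtain ⟨h1, h2, h3⟩ := h
  have h3' : inner ℝ v x = 0 := by rw [real_inner_comm]; exact h3
  have hxx : inner ℝ x x = 1 := by rw [real_inner_self_eq_norm_sq, h1]; norm_num
  have hvv : inner ℝ v v = 1 := by rw [real_inner_self_eq_norm_sq, h2]; norm_num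
  have hs := Real.sin_sq_add_cos_sq t
  have : ‖gc x v t‖ ^ 2 = 1 := by
    rw [← real_inner_self_eq_norm_sq]
    simp only [gc, inner_add_left, inner_add_right, real_inner_smul_left, real_inner_smul_right,
      h3, h3', hxx, hvv]
    nlinarith
  have h0 := norm_nonneg (gc x v t)
  nlinarith

theorem gd_norm {ι : Type} [Fintype ι] {x v : E ι} (h : ON x v) (t : ℝ) : ‖gd x v t‖ = 1 := by
  obtain ⟨h1, h2, h3⟩ := h
  have h3' : inner ℝ v x = 0 := by rw [real_inner_comm]; exact h3
  have hxx : inner ℝ x x = 1 := by rw [real_inner_self_eq_norm_sq, h1]; norm_num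
  have hvv : inner ℝ v v = 1 := by rw [real_inner_self_eq_norm_sq, h2]; norm_num
  have hs := Real.sin_sq_add_cos_sq t
  have : ‖gd x v t‖ ^ 2 = 1 := by
    rw [← real_inner_self_eq_norm_sq]
    simp only [gd, inner_add_left, inner_add_right, real_inner_smul_left, real_inner_smul_right,
      h3, h3', hxx, hvv]
    nlinarith
  have h0 := norm_nonneg (gd x v t)
  nlinarith

theorem gc_deriv {ι : Type} [Fintype ι] (x v : E ι) (t : ℝ) :
    HasDerivAt (gc x v) (gd x v t) t := by
  unfold gc gd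
  exact ((Real.hasDerivAt_cos t).smul_const x).add ((Real.hasDerivAt_sin t).smul_const v)

theorem gd_deriv {ι : Type} [Fintype ι] (x v : E ι) (t : ℝ) :
    HasDerivAt (gd x v) (-gc x v t) t := by
  unfold gc gd
  have h := ((Real.hasDerivAt_sin t).neg.smul_const x).add ((Real.hasDerivAt_cos t).smul_const v)
  refine h.congr_deriv ?_
  rw [neg_add, neg_smul, neg_smul]

end XSMO2

open XSMO2 in
theorem iSMO2 : StSmooth2 := by
  intro ι _ N hN hpos heven
  have hU : IsOpen {x : E ι | x ≠ 0} := isOpen_ne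
  have hN1 : ContDiffOn ℝ 1 N {x | x ≠ 0} := hN.of_le (by norm_num)
  have hfd : ContDiffOn ℝ 1 (fderiv ℝ N) {x | x ≠ 0} := hN.fderiv_of_isOpen hU (by norm_num)
  have hfc : ContinuousOn (fderiv ℝ N) {x | x ≠ 0} := hfd.continuousOn
  have hffc : ContinuousOn (fderiv ℝ (fderiv ℝ N)) {x | x ≠ 0} :=
    (hfd.fderiv_of_isOpen hU (m := 0) (by norm_num)).continuousOn
  have hsub : Metric.sphere (0 : E ι) 1 ⊆ {x | x ≠ 0} := by
    intro x hx h0
    rw [h0] at hx
    simp at hx
  have hK : IsCompact (Metric.sphere (0 : E ι) 1) := isCompact_sphere 0 1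
  obtain ⟨C1, hC1⟩ := hK.exists_bound_of_continuousOn (hfc.mono hsub)
  have hnc : ContinuousOn (fun x => ‖fderiv ℝ (fderiv ℝ N) x‖) (Metric.sphere (0 : E ι) 1) :=
    (continuous_norm (E := E ι →L[ℝ] E ι →L[ℝ] ℝ)).comp_continuousOn (hffc.mono hsub)
  obtain ⟨C2, hC2'⟩ := hK.exists_bound_of_continuousOn hnc
  have hC2 : ∀ x ∈ Metric.sphere (0 : E ι) 1, ‖fderiv ℝ (fderiv ℝ N) x‖ ≤ C2 := fun x hx => by
    exact (Real.le_norm_self _).trans (hC2' x hx)
  obtain ⟨m, hm0, hm⟩ : ∃ m : ℝ, 0 < m ∧ ∀ x : E ι, ‖x‖ = 1 → m ≤ N x := by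
    rcases (Metric.sphere (0 : E ι) 1).eq_empty_or_nonempty with he | hne
    · refine ⟨1, one_pos, fun x hx => ?_⟩
      have : x ∈ Metric.sphere (0 : E ι) 1 := by simp [hx]
      rw [he] at this
      exact absurd this (notMem_empty x)
    · obtain ⟨x0, hx0, hmin⟩ := hK.exists_isMinOn hne (hN1.continuousOn.mono hsub)
      refine ⟨N x0, hpos x0 (by simpa using hx0), fun x hx => hmin (by simp [hx])⟩
  set M : ℝ := max (C2 + C1) 0 with hM
  have hM0 : 0 ≤ M := le_max_right _ _
  refine ⟨1 + M / m, by positivity, fun lam hlam => ⟨hN1, hpos, heven, ?_⟩⟩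
  have hMm : 0 ≤ M / m := by positivity
  have hl0 : 0 < lam := by linarith
  have hl2 : M ≤ lam ^ 2 * m := by
    have h1 : M / m ≤ lam ^ 2 := by nlinarith
    have := mul_le_mul_of_nonneg_right h1 hm0.le
    rwa [div_mul_cancel₀ _ hm0.ne'] at this
  intro x v hxv a b ha hb hab
  have hgn := gc_norm hxv
  have hgdn := gd_norm hxv
  have hg0 : ∀ t, gc x v t ≠ 0 := fun t h0 => by
    have := hgn t
    rw [h0, norm_zero] at this
    exact zero_ne_one this
  have hd1 : ∀ t, HasDerivAt (fun t => N (gc x v t)) (fderiv ℝ N (gc x v t) (gd x v t)) t := by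
    intro t
    have h1 : HasFDerivAt N (fderiv ℝ N (gc x v t)) (gc x v t) :=
      ((hN1.differentiableOn (by norm_num)).differentiableAt (hU.mem_nhds (hg0 t))).hasFDerivAt
    exact h1.comp_hasDerivAt t (gc_deriv x v t)
  have hd2 : ∀ t, HasDerivAt (fun t => fderiv ℝ N (gc x v t) (gd x v t))
      (fderiv ℝ (fderiv ℝ N) (gc x v t) (gd x v t) (gd x v t) -
        fderiv ℝ N (gc x v t) (gc x v t)) t := by
    intro t
    have h1 : HasFDerivAt (fderiv ℝ N) (fderiv ℝ (fderiv ℝ N) (gc x v t)) (gc x v t) :=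
      ((hfd.differentiableOn (by norm_num)).differentiableAt (hU.mem_nhds (hg0 t))).hasFDerivAt
    have h2 := (h1.comp_hasDerivAt t (gc_deriv x v t)).clm_apply (gd_deriv x v t)
    refine h2.congr_deriv ?_
    simp only [Function.comp_apply, map_neg]
    rfl
  have h3 : ∀ t, 0 ≤ (fderiv ℝ (fderiv ℝ N) (gc x v t) (gd x v t) (gd x v t) -
        fderiv ℝ N (gc x v t) (gc x v t)) + lam ^ 2 * N (gc x v t) := by
    intro t
    have i1 : |fderiv ℝ (fderiv ℝ N) (gc x v t) (gd x v t) (gd x v t)| ≤ C2 := by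
      have h4 := (fderiv ℝ (fderiv ℝ N) (gc x v t) (gd x v t)).le_opNorm (gd x v t)
      have h5 := (fderiv ℝ (fderiv ℝ N) (gc x v t)).le_opNorm (gd x v t)
      have h6 := hC2 (gc x v t) (by simp [hgn t])
      rw [hgdn t, mul_one] at h4 h5
      rw [← Real.norm_eq_abs]
      exact h4.trans (h5.trans h6)
    have i2 : |fderiv ℝ N (gc x v t) (gc x v t)| ≤ C1 := by
      have h4 := (fderiv ℝ N (gc x v t)).le_opNorm (gc x v t)
      have h6 := hC1 (gc x v t) (by simp [hgn t])
      rw [hgn t, mul_one] at h4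
      rw [← Real.norm_eq_abs]
      exact h4.trans h6
    have i3 : M ≤ lam ^ 2 * N (gc x v t) :=
      hl2.trans (mul_le_mul_of_nonneg_left (hm _ (hgn t)) (by positivity))
    have i4 : C2 + C1 ≤ M := le_max_left _ _
    have := (abs_le.1 i1).1
    have := (abs_le.1 i2).2
    linarith
  have key := sturm (fun t => N (gc x v t)) _ _ lam a b hl0 ha hb hab hd1 hd2 h3
  have e0 : gc x v 0 = x := by simp [gc]
  simp only [e0] at key
  exact key

end Pool.Agent.Work.MP_02f065_gt.Cvx
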