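import Pool.Agent.Work.MP_02f065_gt.Cvx.Stmts

open MeasureTheory Set Filter Topology

noncomputable section

namespace Pool.Agent.Work.MP_02f065_gt.Cvx

open Pool.Agent.Work.MP_02f065_gt.RPn

namespace XVOL

variable {ι : Type} [Fintype ι] [DecidableEq ι]

lemma inner_ei (x : E ι) (i : ι) : inner ℝ x (ei i) = x i := by
  simp [ei, EuclideanSpace.inner_single_right]

lemma inner_ei_ei (i j : ι) : inner ℝ (ei i : E ι) (ei j) = (if i = j then 1 else 0 : ℝ) := by
  rw [inner_ei]
  simp [ei, eq_comm]

omit [DecidableEq ι] in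
lemma inner_self' (x : E ι) (hx : ‖x‖ = 1) : inner ℝ x x = 1 := by
  rw [real_inner_self_eq_norm_sq, hx]; norm_num

omit [DecidableEq ι] in
lemma tang_perp (x : E ι) (hx : ‖x‖ = 1) (v : E ι) : inner ℝ x (tang x v) = 0 := by
  simp only [tang]
  rw [inner_sub_right, inner_smul_right, inner_self' x hx]; ring

lemma tang_tang (x : E ι) (hx : ‖x‖ = 1) (i j : ι) :
    inner ℝ (tang x (ei i)) (tang x (ei j)) = (if i = j then 1 else 0 : ℝ) - x i * x j := by
  have h1 : inner ℝ (tang x (ei i)) (tang x (ei j)) = inner ℝ (ei i : E ι) (tang x (ei j)) := by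
    conv_lhs => rw [tang]
    rw [inner_sub_left, inner_smul_left, tang_perp x hx]; simp
  rw [h1, tang, inner_sub_right, inner_smul_right, inner_ei_ei, inner_ei,
    real_inner_comm, inner_ei]
  ring

lemma det_form (x t : ι → ℝ) (a b : ℝ) (ha : a ≠ 0) (hx : x ⬝ᵥ x = 1) (hxt : x ⬝ᵥ t = 0) :
    Matrix.det (Matrix.of fun i j : ι => a * ((if i = j then 1 else 0 : ℝ) - x i * x j) +
      b * (t i * t j) + x i * x j) = a ^ Fintype.card ι * a⁻¹ * (1 + b / a * (t ⬝ᵥ t)) := by
  have hM : (Matrix.of fun i j : ι => a * ((if i = j then 1 else 0 : ℝ) - x i * x j) +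
      b * (t i * t j) + x i * x j) =
      (a • (1 + Matrix.replicateCol Unit (((1 - a) / a) • x) * Matrix.replicateRow Unit x)) *
        (1 + Matrix.replicateCol Unit ((b / a) • t) * Matrix.replicateRow Unit t) := by
    have h0 : Matrix.replicateRow Unit x * Matrix.replicateCol Unit ((b / a) • t) =
        (0 : Matrix Unit Unit ℝ) := by
      ext i j
      simp only [Matrix.mul_apply, Matrix.replicateRow_apply, Matrix.replicateCol_apply,
        Pi.smul_apply, smul_eq_mul, Matrix.zero_apply]
      have : ∑ m, x m * (b / a * t m) = b / a * (x ⬝ᵥ t) := by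
        rw [dotProduct, Finset.mul_sum]
        refine Finset.sum_congr rfl fun m _ => by ring
      rw [this, hxt, mul_zero]
    rw [Matrix.smul_mul, mul_add, mul_one, add_mul, one_mul]
    have h1 : Matrix.replicateCol Unit (((1 - a) / a) • x) * Matrix.replicateRow Unit x *
        (Matrix.replicateCol Unit ((b / a) • t) * Matrix.replicateRow Unit t) = 0 := by
      rw [Matrix.mul_assoc, ← Matrix.mul_assoc (Matrix.replicateRow Unit x), h0, Matrix.zero_mul,
        Matrix.mul_zero]
    rw [h1, add_zero]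
    ext i j
    simp only [Matrix.of_apply, Matrix.smul_apply, Matrix.add_apply, Matrix.one_apply,
      Matrix.mul_apply, Matrix.replicateRow_apply, Matrix.replicateCol_apply, Pi.smul_apply,
      smul_eq_mul, Finset.univ_unique, Finset.sum_singleton]
    field_simp
    ring
  rw [hM, Matrix.det_mul, Matrix.det_smul, Matrix.det_one_add_replicateCol_mul_replicateRow,
    Matrix.det_one_add_replicateCol_mul_replicateRow, dotProduct_smul, dotProduct_smul, hx]
  have : 1 + ((1 - a) / a) • (1 : ℝ) = a⁻¹ := by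
    rw [smul_eq_mul]
    field_simp
    ring
  rw [this, smul_eq_mul]

omit [DecidableEq ι] in
lemma dot_eq (x y : E ι) : (x : ι → ℝ) ⬝ᵥ (y : ι → ℝ) = inner ℝ x y := by
  rw [PiLp.inner_apply, dotProduct]
  refine Finset.sum_congr rfl fun i _ => ?_
  simp [mul_comm]

end XVOL

open XVOL in
theorem iVOL (hB : StBas) (hM : StMet) : StVol := by
  intro ι _ _ N k hN hI hcard
  obtain ⟨-, hb2, hb3, hb4, -, -⟩ := hB ι N k hN hI
  have hScont : ContinuousOn (S k N) (Metric.sphere (0 : E ι) 1) := by
    unfold S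
    exact ((hb3.pow 2).add continuousOn_const).sqrt
  have hSpos : ∀ x : E ι, ‖x‖ = 1 → 0 < S k N x := fun x hx => Real.sqrt_pos.mpr (hI x hx)
  refine ⟨?_, ?_, ?_, ?_⟩
  · intro x hx
    have hs := hI x hx
    have hx0 : x ≠ 0 := by
      intro h; rw [h, norm_zero] at hx; norm_num at hx
    obtain ⟨-, hDx, -, -⟩ := hb2 x hx0
    set s : ℝ := N x ^ 2 + k with hsdef
    set t : E ι := grad N x - N x • x with ht
    have hgrad : ∀ v : E ι, inner ℝ (grad N x) v = fderiv ℝ N x v := fun v => by
      rw [grad, InnerProductSpace.toDual_symm_apply]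
    have hxt : inner ℝ x t = 0 := by
      rw [ht, inner_sub_right, inner_smul_right, inner_self' x hx, real_inner_comm, hgrad, hDx]
      ring
    have hti : ∀ i, fderiv ℝ N x (tang x (ei i)) = t i := by
      intro i
      rw [tang, map_sub, map_smul, inner_ei, hDx, ← hgrad, inner_ei, ht]
      simp [mul_comm]
    have hmet := (hM ι N k hN hI).2
    have hgram : Matrix.of (gram (induced k N) x) =
        Matrix.of fun i j : ι => s⁻¹ * ((if i = j then 1 else 0 : ℝ) - x i * x j) +
          (s ^ 2)⁻¹ * (t i * t j) + x i * x j := by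
      ext i j
      simp only [Matrix.of_apply, gram]
      rw [hmet x _ _ hx (tang_perp x hx _) (tang_perp x hx _), tang_tang x hx, hti, hti]
      rw [div_eq_inv_mul, div_eq_inv_mul]
    have hdet := det_form (x : ι → ℝ) (t : ι → ℝ) s⁻¹ (s ^ 2)⁻¹ (inv_ne_zero hs.ne')
      (by rw [dot_eq, inner_self' x hx]) (by rw [dot_eq, hxt])
    have hdv : dv k N x = S k N x • x + t := by
      rw [dv, ht, sub_smul]; abel
    have hS2 : S k N x ^ 2 = s := Real.sq_sqrt hs.le
    have hnorm : ‖dv k N x‖ ^ 2 = s + ‖t‖ ^ 2 := by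
      rw [hdv, ← real_inner_self_eq_norm_sq, inner_add_left, inner_add_right, inner_add_right,
        inner_smul_left, inner_smul_right, inner_self' x hx, inner_smul_left, hxt,
        inner_smul_right, real_inner_comm, hxt, real_inner_self_eq_norm_sq]
      simp only [conj_trivial]
      rw [← hS2]; ring
    rw [volDensity, hgram, hdet]
    have hval : s⁻¹ ^ Fintype.card ι * s⁻¹⁻¹ * (1 + (s ^ 2)⁻¹ / s⁻¹ *
        ((t : ι → ℝ) ⬝ᵥ (t : ι → ℝ))) = ((1 / S k N x ^ Fintype.card ι) * ‖dv k N x‖) ^ 2 := by
      rw [dot_eq, real_inner_self_eq_norm_sq, mul_pow, hnorm, div_pow, ← pow_mul,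
        mul_comm (Fintype.card ι) 2, pow_mul, hS2]
      have hs' := hs.ne'
      rw [inv_pow]
      field_simp
    rw [hval, Real.sqrt_sq]
    have := hSpos x hx
    positivity
  · intro x hx
    have hgram : Matrix.of (gram (RPn.round : RPn.Field ι) x) = 1 := by
      ext i j
      simp only [Matrix.of_apply, gram, RPn.round]
      rw [tang_tang x hx, Matrix.one_apply]
      ring
    rw [volDensity, hgram, Matrix.det_one, Real.sqrt_one]
  · refine continuousOn_const.div (hScont.pow _) fun x hx => ?_
    have := hSpos x (by simpa using hx)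
    positivity
  · unfold dv
    refine ((hScont.sub hb3).smul continuousOn_id).add ?_
    unfold grad
    exact (InnerProductSpace.toDual ℝ (E ι)).symm.continuous.comp_continuousOn hb4

end Pool.Agent.Work.MP_02f065_gt.Cvx
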