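import Pool.Agent.Work.MP_02f065_gt.Cvx.Stmts2
import Pool.Agent.Work.MP_02f065_gt.Cvx.I_VOL

open MeasureTheory Set Filter Topology

noncomputable section

namespace Pool.Agent.Work.MP_02f065_gt.Cvx

open Pool.Agent.Work.MP_02f065_gt.RPn

namespace XVOL2

lemma fin_eq (c : ℕ) (lam s S T : ℝ) (hl : 0 < lam) (hs : 0 < s) (hS : S ^ 2 = s) :
    (lam ^ 2 * s⁻¹) ^ (c + 1) * (lam ^ 2 * s⁻¹)⁻¹ * (1 + (s ^ 2)⁻¹ / (lam ^ 2 * s⁻¹) * T) =
      (lam ^ c / S ^ (c + 1)) ^ 2 * (s + (1 / lam) ^ 2 * T) := by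
  have hs' := hs.ne'
  have hl' := hl.ne'
  have h1 : (lam ^ 2 * s⁻¹) ^ (c + 1) * (lam ^ 2 * s⁻¹)⁻¹ = (lam ^ 2 * s⁻¹) ^ c := by
    rw [pow_succ, mul_assoc, mul_inv_cancel₀ (by positivity), mul_one]
  have h2 : (lam ^ c / S ^ (c + 1)) ^ 2 = (lam ^ 2 * s⁻¹) ^ c * s⁻¹ := by
    rw [div_pow, ← pow_mul, ← pow_mul, mul_comm (c + 1) 2, pow_mul S 2, hS, mul_pow, inv_pow,
      pow_succ, mul_comm c 2, pow_mul, div_eq_mul_inv, mul_inv]
    ring
  rw [h1, h2]
  have h3 : s⁻¹ * (s + (1 / lam) ^ 2 * T) = 1 + (s ^ 2)⁻¹ / (lam ^ 2 * s⁻¹) * T := by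
    field_simp
  rw [mul_assoc, h3]

end XVOL2

open XVOL XVOL2 in
theorem iVOL2 (hB : StBas2) (hM : StMet2) : StVol2 := by
  intro ι _ _ N k lam hlam hN hI hcard
  obtain ⟨-, -, hb3, hb4, -, -⟩ := hB ι N k lam hlam hN hI
  have hScont : ContinuousOn (S k N) (Metric.sphere (0 : E ι) 1) := by
    unfold S
    exact ((hb3.pow 2).add continuousOn_const).sqrt
  have hSpos : ∀ x : E ι, ‖x‖ = 1 → 0 < S k N x := fun x hx => Real.sqrt_pos.mpr (hI x hx)
  obtain ⟨c, hc⟩ : ∃ c, Fintype.card ι = c + 1 := ⟨Fintype.card ι - 1, by omega⟩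
  refine ⟨?_, ?_, ?_⟩
  · intro x hx
    have hs := hI x hx
    set s : ℝ := N x ^ 2 + k with hsdef
    set t : E ι := grad N x - (inner ℝ (grad N x) x : ℝ) • x with ht
    have hgrad : ∀ v : E ι, inner ℝ (grad N x) v = fderiv ℝ N x v := fun v => by
      rw [grad, InnerProductSpace.toDual_symm_apply]
    have hxt : inner ℝ x t = 0 := by
      rw [ht, inner_sub_right, inner_smul_right, inner_self' x hx, real_inner_comm]
      ring
    have hti : ∀ i, fderiv ℝ N x (tang x (ei i)) = t i := by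
      intro i
      rw [tang, map_sub, map_smul, inner_ei, ← hgrad, ← hgrad, inner_ei, ht]
      simp [mul_comm]
    have hmet := (hM ι N k lam hlam hN hI).2
    have hgram : Matrix.of (gram (induced2 k lam N) x) =
        Matrix.of fun i j : ι => lam ^ 2 * s⁻¹ * ((if i = j then 1 else 0 : ℝ) - x i * x j) +
          (s ^ 2)⁻¹ * (t i * t j) + x i * x j := by
      ext i j
      simp only [Matrix.of_apply, gram]
      rw [hmet x _ _ hx (tang_perp x hx _) (tang_perp x hx _), tang_tang x hx, hti, hti]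
      rw [div_eq_mul_inv, div_eq_inv_mul]
      ring
    have hdet := det_form (x : ι → ℝ) (t : ι → ℝ) (lam ^ 2 * s⁻¹) (s ^ 2)⁻¹
      (mul_ne_zero (pow_ne_zero _ hlam.ne') (inv_ne_zero hs.ne'))
      (by rw [dot_eq, inner_self' x hx]) (by rw [dot_eq, hxt])
    have hdw : dw k lam N x = S k N x • x + (1 / lam) • t := by
      rw [dw, ht]
    have hS2 : S k N x ^ 2 = s := Real.sq_sqrt hs.le
    have hnorm : ‖dw k lam N x‖ ^ 2 = s + (1 / lam) ^ 2 * ‖t‖ ^ 2 := by
      rw [hdw, ← real_inner_self_eq_norm_sq, inner_add_left, inner_add_right, inner_add_right,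
        inner_smul_left, inner_smul_right, inner_self' x hx, inner_smul_left, inner_smul_right,
        hxt, inner_smul_left, inner_smul_right, real_inner_comm, hxt, inner_smul_left,
        inner_smul_right, real_inner_self_eq_norm_sq]
      simp only [conj_trivial]
      rw [← hS2]; ring
    rw [volDensity, hgram, hdet]
    have hval : (lam ^ 2 * s⁻¹) ^ Fintype.card ι * (lam ^ 2 * s⁻¹)⁻¹ *
        (1 + (s ^ 2)⁻¹ / (lam ^ 2 * s⁻¹) * ((t : ι → ℝ) ⬝ᵥ (t : ι → ℝ))) =
        ((lam ^ (Fintype.card ι - 1) / S k N x ^ Fintype.card ι) * ‖dw k lam N x‖) ^ 2 := by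
      rw [dot_eq, real_inner_self_eq_norm_sq, mul_pow _ ‖dw k lam N x‖, hnorm, hc,
        Nat.add_sub_cancel]
      exact fin_eq c lam s (S k N x) _ hlam hs hS2
    rw [hval, Real.sqrt_sq]
    have := hSpos x hx
    positivity
  · refine continuousOn_const.div (hScont.pow _) fun x hx => ?_
    have := hSpos x (by simpa using hx)
    positivity
  · have hg : ContinuousOn (grad N) (Metric.sphere (0 : E ι) 1) := by
      unfold grad
      exact (InnerProductSpace.toDual ℝ (E ι)).symm.continuous.comp_continuousOn hb4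
    have hid : ContinuousOn (fun x : E ι => x) (Metric.sphere (0 : E ι) 1) := continuousOn_id
    have h1 : ContinuousOn (fun x : E ι => (inner ℝ (grad N x) x : ℝ))
        (Metric.sphere (0 : E ι) 1) := hg.inner hid
    have h2 : ContinuousOn (fun x : E ι => (inner ℝ (grad N x) x : ℝ) • x)
        (Metric.sphere (0 : E ι) 1) := h1.smul hid
    have h3 : ContinuousOn (fun x : E ι => S k N x • x) (Metric.sphere (0 : E ι) 1) :=
      hScont.smul hid
    have h4 : ContinuousOn (fun x : E ι => grad N x - (inner ℝ (grad N x) x : ℝ) • x)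
        (Metric.sphere (0 : E ι) 1) := hg.sub h2
    have h5 : ContinuousOn (fun x : E ι => (1 / lam) • (grad N x -
        (inner ℝ (grad N x) x : ℝ) • x)) (Metric.sphere (0 : E ι) 1) := h4.const_smul (1 / lam)
    exact h3.add h5

end Pool.Agent.Work.MP_02f065_gt.Cvx
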