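import Pool.Agent.Work.MP_02f065_gt.Cvx.Defs2

/-!
MP_02f065_gt, block CVX2: statements of the items. In each of them `w = pi / (2 lam)` and `t` is
the difference of the directions `φ - ψ`.
-/

open MeasureTheory Set Filter Topology

noncomputable section

namespace Pool.Agent.Work.MP_02f065_gt.Cvx

open Pool.Agent.Work.MP_02f065_gt.RPn

section

variable {ι : Type} [Fintype ι]

/-- `cos (lam t) / N` at the point `gc x v φ`. -/
def p (lam : ℝ) (N : E ι → ℝ) (x v : E ι) (φ t : ℝ) : ℝ := Real.cos (lam * t) / N (gc x v φ)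

/-- The derivative of `φ -> p φ (φ - ψ)`. -/
def dp (lam : ℝ) (N : E ι → ℝ) (x v : E ι) (φ t : ℝ) : ℝ :=
  -(lam * Real.sin (lam * t)) / N (gc x v φ) -
    Real.cos (lam * t) * fderiv ℝ N (gc x v φ) (gd x v φ) / N (gc x v φ) ^ 2

/-- The Clairaut constant of the geodesic with direction `ψ = φ - t` through the point of the
hypersurface over `gc x v φ`. -/
def pk (k lam : ℝ) (N : E ι → ℝ) (x v : E ι) (φ t : ℝ) : ℝ :=
  lam * p lam N x v φ t / Real.sqrt (1 + k * p lam N x v φ t ^ 2)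

/-- The derivative of `φ -> pk φ (φ - ψ)`. -/
def dpk (k lam : ℝ) (N : E ι → ℝ) (x v : E ι) (φ t : ℝ) : ℝ :=
  lam * dp lam N x v φ t / Real.sqrt (1 + k * p lam N x v φ t ^ 2) ^ 3

/-- The vector with `<dw, x> = S x` and `<dw, v> = dN v / lam` for `v` orthogonal to `x`. -/
def dw (k lam : ℝ) (N : E ι → ℝ) (x : E ι) : E ι :=
  S k N x • x + (1 / lam) • (grad N x - (inner ℝ (grad N x) x : ℝ) • x)

end

/-- Elementary facts. -/
def StBas2 : Prop := ∀ (ι : Type) [Fintype ι] (N : E ι → ℝ) (k lam : ℝ), 0 < lam →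
  IsProfile lam N → Inside k N →
  (∀ x v : E ι, ON x v → ∀ t, ON (gc x v t) (gd x v t) ∧ HasDerivAt (gc x v) (gd x v t) t) ∧
  (∀ x : E ι, x ≠ 0 → HasFDerivAt N (fderiv ℝ N x) x ∧ fderiv ℝ N (-x) = -fderiv ℝ N x) ∧
  (ContinuousOn N (Metric.sphere (0 : E ι) 1)) ∧
  (ContinuousOn (fun x => fderiv ℝ N x) (Metric.sphere (0 : E ι) 1)) ∧
  (∀ x v : E ι, ON x v → ∀ φ ψ t,
    0 < N (gc x v φ) ∧ 0 < 1 + k * p lam N x v φ t ^ 2 ∧
    HasDerivAt (fun s => p lam N x v s (s - ψ)) (dp lam N x v φ (φ - ψ)) φ ∧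
    HasDerivAt (fun s => pk k lam N x v s (s - ψ)) (dpk k lam N x v φ (φ - ψ)) φ ∧
    pk k lam N x v (φ + Real.pi) t = pk k lam N x v φ t ∧
    dpk k lam N x v (φ + Real.pi) t = dpk k lam N x v φ t) ∧
  (∀ x v : E ι, ON x v → Continuous (fun z : ℝ × ℝ => pk k lam N x v z.1 z.2) ∧
    Continuous (fun z : ℝ × ℝ => dpk k lam N x v z.1 z.2))

/-- The induced metric: formula on the tangent space; it is a metric. -/
def StMet2 : Prop := ∀ (ι : Type) [Fintype ι] (N : E ι → ℝ) (k lam : ℝ), 0 < lam →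
  IsProfile lam N → Inside k N →
  IsMetric (induced2 k lam N) ∧ ∀ x v w : E ι, ‖x‖ = 1 → inner ℝ x v = 0 → inner ℝ x w = 0 →
    induced2 k lam N x v w = lam ^ 2 * inner ℝ v w / (N x ^ 2 + k) +
      fderiv ℝ N x v * fderiv ℝ N x w / (N x ^ 2 + k) ^ 2

/-- **Unimodality** (convexity). -/
def StUni2 : Prop := ∀ (ι : Type) [Fintype ι] (N : E ι → ℝ) (k lam : ℝ), 0 < lam →
  IsProfile lam N → Inside k N → ∀ x v : E ι, ON x v → ∀ (ψ : ℝ) (n : ℕ), 1 ≤ n →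
  ((1 / 2) * ∫ φ in (ψ - Real.pi / (2 * lam))..(ψ + Real.pi / (2 * lam)),
    |dpk k lam N x v φ (φ - ψ)|) ^ n ≤
  (1 / 2) * ∫ φ in (ψ - Real.pi / (2 * lam))..(ψ + Real.pi / (2 * lam)),
    n * |pk k lam N x v φ (φ - ψ)| ^ (n - 1) * |dpk k lam N x v φ (φ - ψ)|

/-- The power mean inequality in the direction `ψ`. -/
def StJen2 : Prop := ∀ (F G : ℝ × ℝ → ℝ) (n : ℕ) (w : ℝ), 0 < w → 1 ≤ n → Continuous F →
  Continuous G → (∀ z, 0 ≤ F z) → (∀ φ t, F (φ + 2 * Real.pi, t) = F (φ, t)) →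
  (∀ φ t, G (φ + 2 * Real.pi, t) = G (φ, t)) →
  (∀ ψ, ((1 / 2) * ∫ φ in (ψ - w)..(ψ + w), F (φ, φ - ψ)) ^ n ≤
    (1 / 2) * ∫ φ in (ψ - w)..(ψ + w), G (φ, φ - ψ)) →
  ((1 / (4 * Real.pi)) * ∫ φ in (0 : ℝ)..(2 * Real.pi), ∫ t in (-w)..w, F (φ, t)) ^ n ≤
  (1 / (4 * Real.pi)) * ∫ φ in (0 : ℝ)..(2 * Real.pi), ∫ t in (-w)..w, G (φ, t)

/-- The integral over the directions. -/
def StDir2 : Prop := ∀ (ι : Type) [Fintype ι] (N : E ι → ℝ) (k lam : ℝ), 0 < lam →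
  IsProfile lam N → Inside k N → ∀ x v : E ι, ON x v → ∀ (φ : ℝ) (m : ℕ),
  ∫ t in (-(Real.pi / (2 * lam)))..(Real.pi / (2 * lam)),
      |pk k lam N x v φ t| ^ m * |dpk k lam N x v φ t| =
    (lam ^ (m + 1) / (2 * S k N (gc x v φ) ^ (m + 2))) * ∫ χ in (0 : ℝ)..(2 * Real.pi),
      |Real.cos χ| ^ m *
        |inner ℝ (dw k lam N (gc x v φ)) (Real.sin χ • gc x v φ - Real.cos χ • gd x v φ)|

/-- The length of a half great circle. -/
def StLen2 : Prop := ∀ (ι : Type) [Fintype ι] (N : E ι → ℝ) (k lam L : ℝ), 0 < lam →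
  IsProfile lam N → Inside k N → Sys (induced2 k lam N) L → ∀ x v : E ι, ON x v →
  L ≤ (1 / 4) * ∫ φ in (0 : ℝ)..(2 * Real.pi),
    ∫ t in (-(Real.pi / (2 * lam)))..(Real.pi / (2 * lam)), |dpk k lam N x v φ t|

/-- The inequality in one plane. -/
def StPlane2 : Prop := ∀ (ι : Type) [Fintype ι] (N : E ι → ℝ) (k lam L : ℝ), 0 < lam →
  IsProfile lam N → Inside k N → 0 < L → Sys (induced2 k lam N) L → ∀ x v : E ι, ON x v →
  ∀ n : ℕ, 1 ≤ n →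
  (L / Real.pi) ^ n ≤ (n / (8 * Real.pi)) * ∫ φ in (0 : ℝ)..(2 * Real.pi),
    (lam ^ n / S k N (gc x v φ) ^ (n + 1)) * ∫ χ in (0 : ℝ)..(2 * Real.pi),
      |Real.cos χ| ^ (n - 1) *
        |inner ℝ (dw k lam N (gc x v φ)) (Real.sin χ • gc x v φ - Real.cos χ • gd x v φ)|

/-- The volume density of the induced metric. -/
def StVol2 : Prop := ∀ (ι : Type) [Fintype ι] [DecidableEq ι] (N : E ι → ℝ) (k lam : ℝ), 0 < lam →
  IsProfile lam N → Inside k N → 2 ≤ Fintype.card ι →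
  (∀ x : E ι, ‖x‖ = 1 → volDensity (induced2 k lam N) x =
    (lam ^ (Fintype.card ι - 1) / S k N x ^ Fintype.card ι) * ‖dw k lam N x‖) ∧
  ContinuousOn (fun x => lam ^ (Fintype.card ι - 1) / S k N x ^ Fintype.card ι)
    (Metric.sphere (0 : E ι) 1) ∧
  ContinuousOn (dw k lam N) (Metric.sphere (0 : E ι) 1)

/-- The norms are profiles for `lam = 1`, and the induced metrics agree. -/
def StNorm2 : Prop := ∀ (ι : Type) [Fintype ι] (N : E ι → ℝ), IsNorm N →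
  IsProfile 1 N ∧ ∀ k : ℝ, Inside k N → ∀ x v w : E ι, ‖x‖ = 1 → inner ℝ x v = 0 →
    inner ℝ x w = 0 → induced2 k 1 N x v w = induced k N x v w

/-- Positive even functions of class `C^2` are profiles for all large `lam`. -/
def StSmooth2 : Prop := ∀ (ι : Type) [Fintype ι] (N : E ι → ℝ), ContDiffOn ℝ 2 N {x | x ≠ 0} →
  (∀ x : E ι, ‖x‖ = 1 → 0 < N x) → (∀ x : E ι, N (-x) = N x) →
  ∃ l : ℝ, 0 < l ∧ ∀ lam : ℝ, l ≤ lam → IsProfile lam N

/-- **The theorem.** -/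
def StMain2 : Prop := ∀ (Q : ℕ), 2 ≤ Q → ∀ (k lam : ℝ) (N : E (Ix 1 Q) → ℝ), 0 < lam →
  IsProfile lam N → (∀ x : E (Ix 1 Q), ‖x‖ = 1 → 0 < N x ^ 2 + k) →
  IsMetric (induced2 k lam N) ∧ ∃ (γ : ℝ → E (Ix 1 Q)) (l : ℝ),
    IsClosedGeodesic (induced2 k lam N) γ l ∧
    (l / Real.pi) ^ Q ≤ vol (induced2 k lam N) / vol (RPn.round : RPn.Field (Ix 1 Q))

end Pool.Agent.Work.MP_02f065_gt.Cvx
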