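import Pool.Agent.Work.MP_02f065_gt.Cvx.All
import Pool.Agent.Work.MP_02f065_gt.Cvx.Stmts2
import Pool.Agent.Work.MP_02f065_gt.Cvx.I_JEN2
import Pool.Agent.Work.MP_02f065_gt.Cvx.I_DIR2
import Pool.Agent.Work.MP_02f065_gt.Cvx.I_LEN2
import Pool.Agent.Work.MP_02f065_gt.Cvx.I_PLANE2
import Pool.Agent.Work.MP_02f065_gt.Cvx.I_VOL2
import Pool.Agent.Work.MP_02f065_gt.Cvx.I_SMO2
import Pool.Agent.Work.MP_02f065_gt.Cvx.I_MAIN2

/-! All items of block CVX2 put together. -/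

open MeasureTheory Set Filter Topology

noncomputable section

namespace Pool.Agent.Work.MP_02f065_gt.Cvx

open Pool.Agent.Work.MP_02f065_gt.RPn

theorem Dir2_holds : StDir2 := iDIR2 iBAS2 iK1
theorem Len2_holds : StLen2 := iLEN2 iBAS2 Met2_holds iK0 Dir2_holds
theorem Plane2_holds : StPlane2 := iPLANE2 iBAS2 Uni2_holds iJEN2 Dir2_holds Len2_holds
theorem Vol2_holds : StVol2 := iVOL2 iBAS2 Met2_holds

theorem main2_holds : StMain2 :=
  iMAIN2 iBAS2 Met2_holds Plane2_holds (iFR itemHaar) (iAVG Iso_holds) (iMEAN Zon_holds) Vol2_holds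
    Vol_holds A6_holds

end Pool.Agent.Work.MP_02f065_gt.Cvx
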