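import Pool.Agent.Work.MP_02f065_gt.Cvx.Stmts3

/-!
MP_02f065_gt, block CVX3, item CIR3: the identity integrated over a great circle.
-/

open MeasureTheory Set Filter Topology

noncomputable section

namespace Pool.Agent.Work.MP_02f065_gt.Cvx

open Pool.Agent.Work.MP_02f065_gt.RPn

namespace XCIR3

variable {ι : Type} [Fintype ι]

theorem on_gc {x v : E ι} (h : ON x v) (t : ℝ) : ON (gc x v t) (gd x v t) := by
  obtain ⟨hx, hv, hxv⟩ := h
  have hvx : inner ℝ v x = 0 := by rw [real_inner_comm]; exact hxv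
  have hxx : inner ℝ x x = (1 : ℝ) := by rw [real_inner_self_eq_norm_sq, hx]; norm_num
  have hvv : inner ℝ v v = (1 : ℝ) := by rw [real_inner_self_eq_norm_sq, hv]; norm_num
  have hcs := Real.cos_sq_add_sin_sq t
  have h1 : ‖gc x v t‖ ^ 2 = 1 := by
    rw [← real_inner_self_eq_norm_sq]
    simp only [gc, inner_add_left, inner_add_right, real_inner_smul_left, real_inner_smul_right,
      hxx, hvv, hxv, hvx]
    nlinarith [hcs]
  have h2 : ‖gd x v t‖ ^ 2 = 1 := by
    rw [← real_inner_self_eq_norm_sq]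
    simp only [gd, inner_add_left, inner_add_right, real_inner_smul_left, real_inner_smul_right,
      hxx, hvv, hxv, hvx]
    nlinarith [hcs]
  refine ⟨?_, ?_, ?_⟩
  · have := norm_nonneg (gc x v t)
    nlinarith [h1]
  · have := norm_nonneg (gd x v t)
    nlinarith [h2]
  · simp only [gc, gd, inner_add_left, inner_add_right, real_inner_smul_left,
      real_inner_smul_right, hxx, hvv, hxv, hvx]
    ring

theorem deriv_gc (x v : E ι) (t : ℝ) : HasDerivAt (gc x v) (gd x v t) t := by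
  have h1 := (Real.hasDerivAt_cos t).smul_const x
  have h2 := (Real.hasDerivAt_sin t).smul_const v
  have := h1.add h2
  exact this

theorem deriv_gd (x v : E ι) (t : ℝ) : HasDerivAt (gd x v) (-gc x v t) t := by
  have h1 := ((Real.hasDerivAt_sin t).neg).smul_const x
  have h2 := (Real.hasDerivAt_cos t).smul_const v
  have h3 := h1.add h2
  refine HasDerivAt.congr_deriv (f := gd x v) (by exact h3) ?_
  simp only [gc, neg_smul, neg_add]

theorem gc_ne {x v : E ι} (h : ON x v) (t : ℝ) : gc x v t ≠ 0 := by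
  intro h0
  have := (on_gc h t).1
  rw [h0, norm_zero] at this
  exact zero_ne_one this

theorem cont_gc (x v : E ι) : Continuous (gc x v) := by
  unfold gc
  fun_prop

theorem cont_gd (x v : E ι) : Continuous (gd x v) := by
  unfold gd
  fun_prop

theorem radial {M : ℝ} {a : E ι → ℝ} (ha : IsA M a) {y : E ι} (hy : y ≠ 0) :
    fderiv ℝ a y y = 0 := by
  have hc : ContDiffAt ℝ 2 a y := ha.diff.contDiffAt (isOpen_ne.mem_nhds hy)
  have h0 : HasFDerivAt a (fderiv ℝ a y) y := (hc.differentiableAt (by norm_num)).hasFDerivAt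
  have h1 : HasDerivAt (fun t : ℝ => t • y) y 1 := by
    simpa using (hasDerivAt_id (1 : ℝ)).smul_const y
  have h2 : HasFDerivAt a (fderiv ℝ a y) ((1 : ℝ) • y) := by
    rw [one_smul]; exact h0
  have h3 : HasDerivAt (fun t : ℝ => a (t • y)) (fderiv ℝ a y y) 1 :=
    h2.comp_hasDerivAt (1 : ℝ) h1
  have h4 : HasDerivAt (fun _ : ℝ => a y) 0 1 := hasDerivAt_const 1 (a y)
  have h5 : (fun t : ℝ => a (t • y)) =ᶠ[𝓝 1] fun _ : ℝ => a y := by
    filter_upwards [lt_mem_nhds (show (0 : ℝ) < 1 from one_pos)] with t ht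
    exact ha.hom t y ht.ne'
  exact h3.unique (h4.congr_of_eventuallyEq h5)

theorem d1 {M : ℝ} {a : E ι → ℝ} (ha : IsA M a) {x v : E ι} (h : ON x v) (t : ℝ) :
    HasDerivAt (fun s => a (gc x v s)) (fderiv ℝ a (gc x v t) (gd x v t)) t := by
  have hc : ContDiffAt ℝ 2 a (gc x v t) := ha.diff.contDiffAt (isOpen_ne.mem_nhds (gc_ne h t))
  have h0 : HasFDerivAt a (fderiv ℝ a (gc x v t)) (gc x v t) :=
    (hc.differentiableAt (by norm_num)).hasFDerivAt
  exact h0.comp_hasDerivAt t (deriv_gc x v t)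

theorem d2 {M : ℝ} {a : E ι → ℝ} (ha : IsA M a) {x v : E ι} (h : ON x v) (t : ℝ) :
    HasDerivAt (fun s => fderiv ℝ a (gc x v s) (gd x v s))
      (fderiv ℝ (fderiv ℝ a) (gc x v t) (gd x v t) (gd x v t)) t := by
  have hU : IsOpen {x : E ι | x ≠ 0} := isOpen_ne
  have hfd : ContDiffOn ℝ 1 (fderiv ℝ a) {x | x ≠ 0} := ha.diff.fderiv_of_isOpen hU (by norm_num)
  have hc : ContDiffAt ℝ 1 (fderiv ℝ a) (gc x v t) := hfd.contDiffAt (hU.mem_nhds (gc_ne h t))
  have h0 : HasFDerivAt (fderiv ℝ a) (fderiv ℝ (fderiv ℝ a) (gc x v t)) (gc x v t) :=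
    (hc.differentiableAt (by norm_num)).hasFDerivAt
  have h1 : HasDerivAt (fun s => fderiv ℝ a (gc x v s))
      (fderiv ℝ (fderiv ℝ a) (gc x v t) (gd x v t)) t := h0.comp_hasDerivAt t (deriv_gc x v t)
  have h2 := h1.clm_apply (deriv_gd x v t)
  refine h2.congr_deriv ?_
  rw [map_neg, radial ha (gc_ne h t), neg_zero, add_zero]

end XCIR3

open XCIR3 in
theorem iCIR3 (hC : StCur3) (hS : StSca3) (hK : StCon3) : StCir3 := by
  intro ι _ M F a hF ha m x v h
  have hper : gc x v (2 * Real.pi) = gc x v 0 := by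
    simp only [gc, Real.cos_two_pi, Real.sin_two_pi, Real.cos_zero, Real.sin_zero]
  have hper' : gd x v (2 * Real.pi) = gd x v 0 := by
    simp only [gd, Real.cos_two_pi, Real.sin_two_pi, Real.cos_zero, Real.sin_zero]
  obtain ⟨-, -, ck, cD, cG⟩ := hK ι M F a hF ha
  have cp : Continuous (fun t => (gc x v t, gd x v t)) := (cont_gc x v).prodMk (cont_gd x v)
  have hmp : ∀ t, (gc x v t, gd x v t) ∈ {z : E ι × E ι | ON z.1 z.2} := fun t => on_gc h t
  have k1 : Continuous (fun t => GS m F (a (gc x v t)) (fderiv ℝ a (gc x v t) (gd x v t))) :=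
    (cG m).comp_continuous cp hmp
  have k2 : Continuous (fun t => kS F (a (gc x v t)) (fderiv ℝ a (gc x v t) (gd x v t))) :=
    ck.comp_continuous cp hmp
  have k3 : Continuous (fun t => fD F a (gc x v t) (gd x v t)) := cD.comp_continuous cp hmp
  have key : ∀ t, HasDerivAt (fun s => kS F (a (gc x v s))
      (fderiv ℝ a (gc x v s) (gd x v s)) ^ m *
      ∫ τ in (0 : ℝ)..(chS F (a (gc x v s)) (fderiv ℝ a (gc x v s) (gd x v s))),
        F (kS F (a (gc x v s)) (fderiv ℝ a (gc x v s) (gd x v s)) / Real.cos τ) * gm m τ)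
      (GS m F (a (gc x v t)) (fderiv ℝ a (gc x v t) (gd x v t)) -
        kS F (a (gc x v t)) (fderiv ℝ a (gc x v t) (gd x v t)) ^ m *
          fD F a (gc x v t) (gd x v t)) t := by
    intro t
    have := hC M F (fun s => a (gc x v s)) (fun s => fderiv ℝ a (gc x v s) (gd x v s))
      (fderiv ℝ (fderiv ℝ a) (gc x v t) (gd x v t) (gd x v t)) t m hF.diff (d1 ha h)
      (d2 ha h t) (fun s => ha.range _ (on_gc h s).1)
    refine this.congr_deriv ?_
    have hi : inner ℝ (gd x v t) (gd x v t) = (1 : ℝ) := by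
      rw [real_inner_self_eq_norm_sq, (on_gc h t).2.1]; norm_num
    simp only [fD, fasec, hi, mul_one]
  have hint := intervalIntegral.integral_eq_sub_of_hasDerivAt (fun t _ => key t)
    ((k1.sub ((k2.pow m).mul k3)).intervalIntegrable 0 (2 * Real.pi))
  rw [hint, hper, hper', sub_self]

end Pool.Agent.Work.MP_02f065_gt.Cvx
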