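import Pool.Agent.Work.MP_02f065_gt.Cvx.Stmts3

/-!
MP_02f065_gt, block CVX3, item CON3: continuity of the functions on the unit tangent bundle.
-/

open MeasureTheory Set Filter Topology

noncomputable section

namespace Pool.Agent.Work.MP_02f065_gt.Cvx

open Pool.Agent.Work.MP_02f065_gt.RPn

theorem iCON3 (hS : StSca3) : StCon3 := by
  intro ι _ M F a hF ha
  obtain ⟨hk, hom, hG, -⟩ := hS M F hF
  have hU : IsOpen {x : E ι | x ≠ 0} := isOpen_ne
  have hfd : ContDiffOn ℝ 1 (fderiv ℝ a) {x | x ≠ 0} := ha.diff.fderiv_of_isOpen hU (by norm_num)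
  have hfc : ContinuousOn (fderiv ℝ a) {x | x ≠ 0} := hfd.continuousOn
  have hffc : ContinuousOn (fderiv ℝ (fderiv ℝ a)) {x | x ≠ 0} :=
    (hfd.fderiv_of_isOpen hU (m := 0) (by norm_num)).continuousOn
  have hFc : ContinuousOn F (Ioo 0 M) := hF.diff.continuousOn
  have hdFc : ContinuousOn (deriv F) (Ioo 0 M) :=
    hF.diff.continuousOn_deriv_of_isOpen isOpen_Ioo (by norm_num)
  have hm1 : MapsTo (fun z : E ι × E ι => z.1) {z | ON z.1 z.2} {x | x ≠ 0} := by
    intro z hz h0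
    have h1 : ‖z.1‖ = 1 := hz.1
    have h0' : z.1 = 0 := h0
    rw [h0', norm_zero] at h1
    exact zero_ne_one h1
  have hma : MapsTo (fun z : E ι × E ι => a z.1) {z | ON z.1 z.2} (Ioo 0 M) :=
    fun z hz => ha.range z.1 hz.1
  have hfst : ContinuousOn (fun z : E ι × E ι => z.1) {z | ON z.1 z.2} :=
    continuous_fst.continuousOn
  have hsnd : ContinuousOn (fun z : E ι × E ι => z.2) {z | ON z.1 z.2} :=
    continuous_snd.continuousOn
  have ca : ContinuousOn (fun z : E ι × E ι => a z.1) {z | ON z.1 z.2} :=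
    ha.diff.continuousOn.comp hfst hm1
  have c1 : ContinuousOn (fun z : E ι × E ι => fderiv ℝ a z.1 z.2) {z | ON z.1 z.2} :=
    (hfc.comp hfst hm1).clm_apply hsnd
  have c2 : ContinuousOn (fun z : E ι × E ι => fderiv ℝ (fderiv ℝ a) z.1 z.2 z.2)
      {z | ON z.1 z.2} := ((hffc.comp hfst hm1).clm_apply hsnd).clm_apply hsnd
  have cF : ContinuousOn (fun z : E ι × E ι => F (a z.1)) {z | ON z.1 z.2} := hFc.comp ca hma
  have cdF : ContinuousOn (fun z : E ι × E ι => deriv F (a z.1)) {z | ON z.1 z.2} :=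
    hdFc.comp ca hma
  have ci : ContinuousOn (fun z : E ι × E ι => inner ℝ z.2 z.2) {z | ON z.1 z.2} :=
    hsnd.inner hsnd
  have cp : ContinuousOn (fun z : E ι × E ι => (a z.1, fderiv ℝ a z.1 z.2)) {z | ON z.1 z.2} :=
    ca.prodMk c1
  have hmp : MapsTo (fun z : E ι × E ι => (a z.1, fderiv ℝ a z.1 z.2)) {z | ON z.1 z.2}
      (Ioo 0 M ×ˢ univ) := fun z hz => ⟨hma hz, mem_univ _⟩
  have cfs : ContinuousOn (fun z : E ι × E ι => fasec F a z.1 z.2 z.2) {z | ON z.1 z.2} := by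
    unfold fasec
    exact (((ca.pow 2).mul ci).add (((continuousOn_const.mul (cF.pow 2)).sub
      ((ca.mul cF).mul cdF)).mul (c1.mul c1))).sub ((ca.mul (cF.pow 2)).mul c2)
  refine ⟨c1, cfs, hk.comp cp hmp, ?_, fun m => (hG m).comp cp hmp⟩
  unfold fD
  exact cfs.mul (hom.comp cp hmp)

end Pool.Agent.Work.MP_02f065_gt.Cvx
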