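import Pool.Agent.Work.MP_02f065_gt.Cvx.Stmts3

/-!
MP_02f065_gt, block CVX3, item MET3 (12019): the metric `a^2 g_0 + F(a)^2 da^2` and its volume
density.
-/

open MeasureTheory Set Filter Topology

noncomputable section

namespace Pool.Agent.Work.MP_02f065_gt.Cvx

open Pool.Agent.Work.MP_02f065_gt.RPn

namespace XMET3

section basic

variable {ι : Type} [Fintype ι]

lemma ne_zero {x : E ι} (hx : ‖x‖ = 1) : x ≠ 0 := by
  intro h
  rw [h, norm_zero] at hx
  exact zero_ne_one hx

lemma isOpen_ne : IsOpen {x : E ι | x ≠ 0} := isOpen_compl_singleton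

lemma hasFD {M : ℝ} {a : E ι → ℝ} (ha : IsA M a) {x : E ι} (hx : x ≠ 0) :
    HasFDerivAt a (fderiv ℝ a x) x := by
  have h1 : DifferentiableOn ℝ a {x | x ≠ 0} := ha.diff.differentiableOn (by norm_num)
  exact ((h1 x hx).differentiableAt (isOpen_ne.mem_nhds hx)).hasFDerivAt

lemma fd_self {M : ℝ} {a : E ι → ℝ} (ha : IsA M a) {x : E ι} (hx : x ≠ 0) :
    fderiv ℝ a x x = 0 := by
  have h1 : HasDerivAt (fun s : ℝ => s • x) x 1 := by
    have := (hasDerivAt_id (1 : ℝ)).smul_const x
    simpa using this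
  have hf : HasFDerivAt a (fderiv ℝ a x) ((1 : ℝ) • x) := by
    rw [one_smul]; exact hasFD ha hx
  have h2 : HasDerivAt (fun s : ℝ => a (s • x)) (fderiv ℝ a x x) 1 :=
    hf.comp_hasDerivAt (1 : ℝ) h1
  have h3 : (fun s : ℝ => a (s • x)) =ᶠ[𝓝 (1 : ℝ)] fun _ => a x := by
    filter_upwards [isOpen_compl_singleton.mem_nhds (one_ne_zero : (1 : ℝ) ≠ 0)] with s hs
    exact ha.hom s x hs
  have h4 : HasDerivAt (fun _ : ℝ => a x) (fderiv ℝ a x x) 1 := h2.congr_of_eventuallyEq h3.symm
  exact h4.unique (hasDerivAt_const (1 : ℝ) (a x))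

lemma neg_eq {M : ℝ} {a : E ι → ℝ} (ha : IsA M a) (x : E ι) : a (-x) = a x := by
  have := ha.hom (-1) x (by norm_num)
  rwa [neg_one_smul] at this

lemma fd_neg {M : ℝ} {a : E ι → ℝ} (ha : IsA M a) {x : E ι} (hx : x ≠ 0) :
    fderiv ℝ a (-x) = -fderiv ℝ a x := by
  have h1 : HasFDerivAt a (fderiv ℝ a (-x)) (-x) := hasFD ha (neg_ne_zero.mpr hx)
  have h2 : HasFDerivAt (fun y : E ι => -y) (-ContinuousLinearMap.id ℝ (E ι)) x :=
    (hasFDerivAt_id x).neg
  have h3 : HasFDerivAt (fun y : E ι => a (-y))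
      ((fderiv ℝ a (-x)).comp (-ContinuousLinearMap.id ℝ (E ι))) x := h1.comp x h2
  have h4 : (fun y : E ι => a (-y)) = a := by
    funext y; exact neg_eq ha y
  rw [h4] at h3
  have h5 := h3.unique (hasFD ha hx)
  rw [← h5]
  ext v
  simp

lemma cont_a {M : ℝ} {a : E ι → ℝ} (ha : IsA M a) :
    ContinuousOn a (Metric.sphere (0 : E ι) 1) := by
  refine ha.diff.continuousOn.mono ?_
  intro x hx
  rw [mem_sphere_zero_iff_norm] at hx
  exact ne_zero hx

lemma cont_fd {M : ℝ} {a : E ι → ℝ} (ha : IsA M a) :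
    ContinuousOn (fun x => fderiv ℝ a x) (Metric.sphere (0 : E ι) 1) := by
  have h1 : ContinuousOn (fderiv ℝ a) {x | x ≠ 0} :=
    ha.diff.continuousOn_fderiv_of_isOpen isOpen_ne (by norm_num)
  refine h1.mono ?_
  intro x hx
  rw [mem_sphere_zero_iff_norm] at hx
  exact ne_zero hx

lemma cont_F {M : ℝ} {F : ℝ → ℝ} {a : E ι → ℝ} (hF : IsF M F) (ha : IsA M a) :
    ContinuousOn (fun x => F (a x)) (Metric.sphere (0 : E ι) 1) := by
  refine hF.diff.continuousOn.comp (cont_a ha) ?_
  intro x hx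
  rw [mem_sphere_zero_iff_norm] at hx
  exact ha.range x hx

lemma inner_grad (a : E ι → ℝ) (x v : E ι) : inner ℝ (grad a x) v = fderiv ℝ a x v := by
  rw [grad, InnerProductSpace.toDual_symm_apply]

lemma inner_self' (x : E ι) (hx : ‖x‖ = 1) : inner ℝ x x = 1 := by
  rw [real_inner_self_eq_norm_sq, hx]; norm_num

lemma isMetric {M : ℝ} {F : ℝ → ℝ} {a : E ι → ℝ} (hF : IsF M F) (ha : IsA M a) :
    IsMetric (famet F a) := by
  refine ⟨?_, ?_, ?_, ?_, ?_, ?_⟩
  · intro x v v' w
    unfold famet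
    rw [map_add, inner_add_left]
    ring
  · intro x v w r
    unfold famet
    rw [map_smul, real_inner_smul_left, smul_eq_mul]
    ring
  · intro x v w
    unfold famet
    rw [real_inner_comm]
    ring
  · intro v w
    unfold famet
    exact (((cont_a ha).pow 2).mul continuousOn_const).add (((cont_F hF ha).pow 2).mul
      (((cont_fd ha).clm_apply continuousOn_const).mul
        ((cont_fd ha).clm_apply continuousOn_const)))
  · intro x v hx _ hv0
    unfold famet
    have h1 : 0 < inner ℝ v v := by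
      rw [real_inner_self_eq_norm_sq]
      exact pow_pos (norm_pos_iff.mpr hv0) 2
    have h2 : 0 < a x ^ 2 * inner ℝ v v := mul_pos (pow_pos (ha.range x hx).1 2) h1
    have h3 : 0 ≤ F (a x) ^ 2 * (fderiv ℝ a x v * fderiv ℝ a x v) :=
      mul_nonneg (sq_nonneg _) (mul_self_nonneg _)
    exact add_pos_of_pos_of_nonneg h2 h3
  · intro x v w hx _ _
    unfold famet
    rw [neg_eq ha, fd_neg ha (ne_zero hx)]
    simp only [_root_.neg_apply]
    ring

end basic

section density

variable {ι : Type} [Fintype ι] [DecidableEq ι]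

lemma inner_ei (x : E ι) (i : ι) : inner ℝ x (ei i) = x i := by
  simp [ei, EuclideanSpace.inner_single_right]

lemma inner_ei_ei (i j : ι) : inner ℝ (ei i : E ι) (ei j) = (if i = j then 1 else 0 : ℝ) := by
  rw [inner_ei]
  simp [ei, eq_comm]

omit [DecidableEq ι] in
lemma tang_perp (x : E ι) (hx : ‖x‖ = 1) (v : E ι) : inner ℝ x (tang x v) = 0 := by
  simp only [tang]
  rw [inner_sub_right, inner_smul_right, inner_self' x hx]; ring

lemma tang_tang (x : E ι) (hx : ‖x‖ = 1) (i j : ι) :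
    inner ℝ (tang x (ei i)) (tang x (ei j)) = (if i = j then 1 else 0 : ℝ) - x i * x j := by
  have h1 : inner ℝ (tang x (ei i)) (tang x (ei j)) = inner ℝ (ei i : E ι) (tang x (ei j)) := by
    conv_lhs => rw [tang]
    rw [inner_sub_left, inner_smul_left, tang_perp x hx]; simp
  rw [h1, tang, inner_sub_right, inner_smul_right, inner_ei_ei, inner_ei,
    real_inner_comm, inner_ei]
  ring

lemma det_form (x t : ι → ℝ) (a b : ℝ) (ha : a ≠ 0) (hx : x ⬝ᵥ x = 1) (hxt : x ⬝ᵥ t = 0) :
    Matrix.det (Matrix.of fun i j : ι => a * ((if i = j then 1 else 0 : ℝ) - x i * x j) +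
      b * (t i * t j) + x i * x j) = a ^ Fintype.card ι * a⁻¹ * (1 + b / a * (t ⬝ᵥ t)) := by
  have hM : (Matrix.of fun i j : ι => a * ((if i = j then 1 else 0 : ℝ) - x i * x j) +
      b * (t i * t j) + x i * x j) =
      (a • (1 + Matrix.replicateCol Unit (((1 - a) / a) • x) * Matrix.replicateRow Unit x)) *
        (1 + Matrix.replicateCol Unit ((b / a) • t) * Matrix.replicateRow Unit t) := by
    have h0 : Matrix.replicateRow Unit x * Matrix.replicateCol Unit ((b / a) • t) =
        (0 : Matrix Unit Unit ℝ) := by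
      ext i j
      simp only [Matrix.mul_apply, Matrix.replicateRow_apply, Matrix.replicateCol_apply,
        Pi.smul_apply, smul_eq_mul, Matrix.zero_apply]
      have : ∑ m, x m * (b / a * t m) = b / a * (x ⬝ᵥ t) := by
        rw [dotProduct, Finset.mul_sum]
        refine Finset.sum_congr rfl fun m _ => by ring
      rw [this, hxt, mul_zero]
    rw [Matrix.smul_mul, mul_add, mul_one, add_mul, one_mul]
    have h1 : Matrix.replicateCol Unit (((1 - a) / a) • x) * Matrix.replicateRow Unit x *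
        (Matrix.replicateCol Unit ((b / a) • t) * Matrix.replicateRow Unit t) = 0 := by
      rw [Matrix.mul_assoc, ← Matrix.mul_assoc (Matrix.replicateRow Unit x), h0, Matrix.zero_mul,
        Matrix.mul_zero]
    rw [h1, add_zero]
    ext i j
    simp only [Matrix.of_apply, Matrix.smul_apply, Matrix.add_apply, Matrix.one_apply,
      Matrix.mul_apply, Matrix.replicateRow_apply, Matrix.replicateCol_apply, Pi.smul_apply,
      smul_eq_mul, Finset.univ_unique, Finset.sum_singleton]
    field_simp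
    ring
  rw [hM, Matrix.det_mul, Matrix.det_smul, Matrix.det_one_add_replicateCol_mul_replicateRow,
    Matrix.det_one_add_replicateCol_mul_replicateRow, dotProduct_smul, dotProduct_smul, hx]
  have : 1 + ((1 - a) / a) • (1 : ℝ) = a⁻¹ := by
    rw [smul_eq_mul]
    field_simp
    ring
  rw [this, smul_eq_mul]

omit [DecidableEq ι] in
lemma dot_eq (x y : E ι) : (x : ι → ℝ) ⬝ᵥ (y : ι → ℝ) = inner ℝ x y := by
  rw [PiLp.inner_apply, dotProduct]
  refine Finset.sum_congr rfl fun i _ => ?_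
  simp [mul_comm]

omit [Fintype ι] [DecidableEq ι] in
lemma fin_eq (c : ℕ) (A f T : ℝ) (hA : 0 < A) :
    (A ^ 2) ^ (c + 2) * (A ^ 2)⁻¹ * (1 + f ^ 2 / A ^ 2 * T) =
      (A ^ c) ^ 2 * (A ^ 2 + f ^ 2 * T) := by
  have hA' := hA.ne'
  field_simp
  ring

lemma density {M : ℝ} {F : ℝ → ℝ} {a : E ι → ℝ} (ha : IsA M a)
    (hcard : 2 ≤ Fintype.card ι) {x : E ι} (hx : ‖x‖ = 1) :
    volDensity (famet F a) x = a x ^ (Fintype.card ι - 2) * ‖dA F a x‖ := by
  obtain ⟨c, hc⟩ : ∃ c, Fintype.card ι = c + 2 := ⟨Fintype.card ι - 2, by omega⟩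
  have hA : 0 < a x := (ha.range x hx).1
  have h0 : fderiv ℝ a x x = 0 := fd_self ha (ne_zero hx)
  have hxt : inner ℝ x (grad a x) = 0 := by
    rw [real_inner_comm, inner_grad, h0]
  have hti : ∀ i, fderiv ℝ a x (tang x (ei i)) = grad a x i := by
    intro i
    rw [tang, map_sub, map_smul, h0, smul_zero, sub_zero, ← inner_grad, inner_ei]
  have hgram : Matrix.of (gram (famet F a) x) =
      Matrix.of fun i j : ι => a x ^ 2 * ((if i = j then 1 else 0 : ℝ) - x i * x j) +
        F (a x) ^ 2 * (grad a x i * grad a x j) + x i * x j := by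
    ext i j
    simp only [Matrix.of_apply, gram, famet]
    rw [tang_tang x hx, hti, hti]
  have hdet := det_form (x : ι → ℝ) (grad a x : ι → ℝ) (a x ^ 2) (F (a x) ^ 2)
    (pow_ne_zero _ hA.ne') (by rw [dot_eq, inner_self' x hx]) (by rw [dot_eq, hxt])
  have hnorm : ‖dA F a x‖ ^ 2 = a x ^ 2 + F (a x) ^ 2 * ‖grad a x‖ ^ 2 := by
    rw [dA, ← real_inner_self_eq_norm_sq, inner_add_left, inner_add_right, inner_add_right,
      inner_smul_left, inner_smul_right, inner_self' x hx, inner_smul_left, inner_smul_right,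
      hxt, inner_smul_left, inner_smul_right, real_inner_comm, hxt, inner_smul_left,
      inner_smul_right, real_inner_self_eq_norm_sq]
    simp only [conj_trivial]
    ring
  rw [volDensity, hgram, hdet]
  have hval : (a x ^ 2) ^ Fintype.card ι * (a x ^ 2)⁻¹ * (1 + F (a x) ^ 2 / a x ^ 2 *
      ((grad a x : ι → ℝ) ⬝ᵥ (grad a x : ι → ℝ))) =
      (a x ^ (Fintype.card ι - 2) * ‖dA F a x‖) ^ 2 := by
    rw [dot_eq, real_inner_self_eq_norm_sq, mul_pow _ ‖dA F a x‖, hnorm, hc,
      Nat.add_sub_cancel]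
    exact fin_eq c (a x) (F (a x)) _ hA
  rw [hval, Real.sqrt_sq]
  positivity

end density

end XMET3

open XMET3 in
theorem iMET3 : StMet3 := by
  intro ι _ _ M F a hF ha hcard
  refine ⟨isMetric hF ha, fun x hx => fd_self ha (ne_zero hx),
    fun x hx => density ha hcard hx, (cont_a ha).pow _, ?_⟩
  have hg : ContinuousOn (grad a) (Metric.sphere (0 : E ι) 1) := by
    unfold grad
    exact (InnerProductSpace.toDual ℝ (E ι)).symm.continuous.comp_continuousOn (cont_fd ha)
  have hid : ContinuousOn (fun x : E ι => x) (Metric.sphere (0 : E ι) 1) := continuousOn_id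
  exact ((cont_a ha).smul hid).add ((cont_F hF ha).smul hg)

end Pool.Agent.Work.MP_02f065_gt.Cvx
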