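import Pool.Agent.Work.MP_02f065_gt.Cvx.Stmts5
import Pool.Agent.Work.MP_02f065_gt.Cvx.I_MET3

/-!
MP_02f065_gt, block CVX5, item MET5 (12031): the volume density of a metric between
`a^2 g_0` and `a^2 g_0 + F(a)^2 da^2`.
-/

open MeasureTheory Set Filter Topology

noncomputable section

namespace Pool.Agent.Work.MP_02f065_gt.Cvx

open Pool.Agent.Work.MP_02f065_gt.RPn

namespace XMET5

open XMET3

section form

variable {ι : Type} [Fintype ι]

/-- The direction of the gradient (or 0). -/
def ev (a : E ι → ℝ) (x : E ι) : E ι := (‖grad a x‖)⁻¹ • grad a x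

lemma zero_left {g : RPn.Field ι} (hg : IsMetric g) (x w : E ι) : g x 0 w = 0 := by
  have := hg.smul x 0 w 0
  simpa using this

lemma inner_grad_self {M : ℝ} {a : E ι → ℝ} (ha : IsA M a) {x : E ι} (hx : ‖x‖ = 1) :
    inner ℝ x (grad a x) = 0 := by
  rw [real_inner_comm, inner_grad, fd_self ha (ne_zero hx)]

lemma inner_ev {M : ℝ} {a : E ι → ℝ} (ha : IsA M a) {x : E ι} (hx : ‖x‖ = 1) :
    inner ℝ x (ev a x) = 0 := by
  rw [ev, inner_smul_right, inner_grad_self ha hx, mul_zero]

lemma norm_ev {a : E ι → ℝ} {x : E ι} (h : grad a x ≠ 0) : ‖ev a x‖ = 1 := by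
  rw [ev, norm_smul, norm_inv, norm_norm]
  exact inv_mul_cancel₀ (norm_ne_zero_iff.mpr h)

lemma cs {A B : ℝ} (h : ∀ t : ℝ, 0 ≤ A + 2 * t * B) : B = 0 := by
  by_contra hB
  have h1 := h (-(A + 1) / (2 * B))
  have h2 : A + 2 * (-(A + 1) / (2 * B)) * B = -1 := by
    field_simp
    ring
  rw [h2] at h1
  linarith

/-- The bilinear form `g - a^2 g_0` vanishes on the vectors orthogonal to the gradient. -/
lemma q_zero {F : ℝ → ℝ} {a : E ι → ℝ} {g : RPn.Field ι} (hg : IsMetric g)
    (hb : BetweenF F a g) {x : E ι} (hx : ‖x‖ = 1) {v w : E ι} (hv : inner ℝ x v = 0)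
    (hw : inner ℝ x w = 0) (hG : fderiv ℝ a x w = 0) : g x v w = a x ^ 2 * inner ℝ v w := by
  have h1 : g x w w = a x ^ 2 * inner ℝ w w := by
    obtain ⟨h1, h2⟩ := hb x w hx hw
    rw [hG] at h2
    linarith
  have h3 : g x v w - a x ^ 2 * inner ℝ v w = 0 := by
    refine cs (A := g x v v - a x ^ 2 * inner ℝ v v) fun t => ?_
    have hvt : inner ℝ x (v + t • w) = 0 := by
      rw [inner_add_right, inner_smul_right, hv, hw]; ring
    have h4 := (hb x (v + t • w) hx hvt).1
    have h5 : g x (v + t • w) (v + t • w) = g x v v + 2 * t * g x v w + t ^ 2 * g x w w := by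
      rw [hg.add, hg.smul, hg.symm x v (v + t • w), hg.add, hg.smul, hg.symm x w (v + t • w),
        hg.add, hg.smul, hg.symm x w v]
      ring
    have h6 : inner ℝ (v + t • w) (v + t • w) =
        inner ℝ v v + 2 * t * inner ℝ v w + t ^ 2 * inner ℝ w w := by
      rw [inner_add_left, inner_add_right, inner_add_right, real_inner_smul_left,
        real_inner_smul_right, real_inner_smul_left, real_inner_smul_right,
        real_inner_comm v w]
      ring
    rw [h5, h6, h1] at h4
    nlinarith [h4]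
  linarith

/-- The form of the metric. -/
lemma form {M : ℝ} {F : ℝ → ℝ} {a : E ι → ℝ} {g : RPn.Field ι} (ha : IsA M a)
    (hg : IsMetric g) (hb : BetweenF F a g) {x : E ι} (hx : ‖x‖ = 1) {v w : E ι}
    (hv : inner ℝ x v = 0) (hw : inner ℝ x w = 0) :
    g x v w = a x ^ 2 * inner ℝ v w +
      bg a g x (ev a x) ^ 2 * (inner ℝ (ev a x) v * inner ℝ (ev a x) w) := by
  by_cases hG : grad a x = 0
  · have h1 : fderiv ℝ a x w = 0 := by rw [← inner_grad, hG, inner_zero_left]
    have h2 : ev a x = 0 := by rw [ev, hG, smul_zero]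
    rw [q_zero hg hb hx hv hw h1, h2, inner_zero_left]
    ring
  · have he := norm_ev hG
    have hxe := inner_ev ha hx
    have hee : inner ℝ (ev a x) (ev a x) = 1 := inner_self' _ he
    have hgr : ∀ u : E ι, fderiv ℝ a x u = ‖grad a x‖ * inner ℝ (ev a x) u := by
      intro u
      rw [ev, real_inner_smul_left, inner_grad, ← mul_assoc,
        mul_inv_cancel₀ (norm_ne_zero_iff.mpr hG), one_mul]
    have key : ∀ u : E ι, inner ℝ x u = 0 → ∀ u' : E ι, inner ℝ x u' = 0 →
        g x u' (u - (inner ℝ (ev a x) u : ℝ) • ev a x) =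
          a x ^ 2 * inner ℝ u' (u - (inner ℝ (ev a x) u : ℝ) • ev a x) := by
      intro u hu u' hu'
      refine q_zero hg hb hx hu' ?_ ?_
      · rw [inner_sub_right, inner_smul_right, hu, hxe]; ring
      · rw [hgr, inner_sub_right, inner_smul_right, hee]; ring
    have dec : ∀ u u' : E ι, g x u' (u - (inner ℝ (ev a x) u : ℝ) • ev a x) =
        g x u' u - inner ℝ (ev a x) u * g x u' (ev a x) := by
      intro u u'
      rw [hg.symm, sub_eq_add_neg, ← neg_smul, hg.add, hg.smul, hg.symm x u u',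
        hg.symm x (ev a x) u']
      ring
    have h1 : ∀ u : E ι, inner ℝ x u = 0 → ∀ u' : E ι, inner ℝ x u' = 0 →
        g x u' u = a x ^ 2 * (inner ℝ u' u - inner ℝ (ev a x) u * inner ℝ u' (ev a x)) +
          inner ℝ (ev a x) u * g x u' (ev a x) := by
      intro u hu u' hu'
      have h2 := key u hu u' hu'
      rw [dec, inner_sub_right, inner_smul_right] at h2
      linarith
    have h2 : bg a g x (ev a x) ^ 2 = g x (ev a x) (ev a x) - a x ^ 2 := by
      rw [bg, Real.sq_sqrt]
      have := (hb x (ev a x) hx hxe).1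
      rw [hee] at this
      linarith
    rw [h1 w hw v hv, hg.symm x v (ev a x), h1 v hv (ev a x) hxe, h2, hee,
      real_inner_comm (ev a x) v]
    ring

lemma norm_dG {M : ℝ} {a : E ι → ℝ} (g : RPn.Field ι) (ha : IsA M a) {x : E ι}
    (hx : ‖x‖ = 1) :
    ‖dG a g x‖ ^ 2 = a x ^ 2 + bg a g x (ev a x) ^ 2 * ‖ev a x‖ ^ 2 := by
  have hxe := inner_ev ha hx
  have hex : inner ℝ (ev a x) x = 0 := by rw [real_inner_comm, hxe]
  change ‖a x • x + bg a g x (ev a x) • ev a x‖ ^ 2 = _
  rw [← real_inner_self_eq_norm_sq, inner_add_left, inner_add_right, inner_add_right,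
    real_inner_smul_left, real_inner_smul_right, inner_self' x hx, real_inner_smul_left,
    real_inner_smul_right, hxe, real_inner_smul_left, real_inner_smul_right, hex,
    real_inner_smul_left, real_inner_smul_right, real_inner_self_eq_norm_sq]
  ring

lemma bg_le {M : ℝ} {F : ℝ → ℝ} {a : E ι → ℝ} {g : RPn.Field ι} (ha : IsA M a)
    (hb : BetweenF F a g) {x : E ι} (hx : ‖x‖ = 1) :
    ‖bg a g x (ev a x) • ev a x‖ ≤ |F (a x)| * ‖grad a x‖ := by
  by_cases hG : grad a x = 0
  · have h2 : ev a x = 0 := by rw [ev, hG, smul_zero]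
    rw [h2, smul_zero, norm_zero, hG, norm_zero, mul_zero]
  · have he := norm_ev hG
    have hxe := inner_ev ha hx
    have hee : inner ℝ (ev a x) (ev a x) = 1 := inner_self' _ he
    have hgr : fderiv ℝ a x (ev a x) = ‖grad a x‖ := by
      rw [← inner_grad, ev, inner_smul_right, real_inner_self_eq_norm_sq]
      have := norm_ne_zero_iff.mpr hG
      field_simp
    rw [norm_smul, he, mul_one, Real.norm_eq_abs, bg, abs_of_nonneg (Real.sqrt_nonneg _)]
    refine Real.sqrt_le_iff.mpr ⟨by positivity, ?_⟩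
    have h3 := (hb x (ev a x) hx hxe).2
    rw [hee, hgr] at h3
    rw [mul_pow, sq_abs]
    nlinarith [h3]

variable [DecidableEq ι]

lemma expand {g : RPn.Field ι} (hg : IsMetric g) (x v w : E ι) :
    g x v w = ∑ i, ∑ j, v i * (w j * g x (ei i) (ei j)) := by
  have hl : ∀ (y : E ι) (s : Finset ι) (f : ι → ℝ),
      g x (∑ i ∈ s, f i • ei i) y = ∑ i ∈ s, f i * g x (ei i) y := by
    intro y s f
    induction s using Finset.induction_on with
    | empty => rw [Finset.sum_empty, Finset.sum_empty, zero_left hg]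
    | insert i s hi ih => rw [Finset.sum_insert hi, Finset.sum_insert hi, hg.add, hg.smul, ih]
  have hd : ∀ y : E ι, y = ∑ i, y i • ei i := by
    intro y
    ext j
    simp [ei, Finset.sum_apply, Pi.single_apply]
  conv_lhs => rw [hd v]
  rw [hl]
  refine Finset.sum_congr rfl fun i _ => ?_
  rw [hg.symm x (ei i) w]
  conv_lhs => rw [hd w]
  rw [hl, Finset.mul_sum]
  refine Finset.sum_congr rfl fun j _ => ?_
  rw [hg.symm x (ei j) (ei i)]

lemma cont_g {g : RPn.Field ι} (hg : IsMetric g) {S : Set (E ι)}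
    {f : E ι → E ι} {x0 : E ι} (hS : S ⊆ Metric.sphere (0 : E ι) 1) (hx0 : x0 ∈ S)
    (hf : ContinuousWithinAt f S x0) :
    ContinuousWithinAt (fun x => g x (f x) (f x)) S x0 := by
  have h1 : (fun x => g x (f x) (f x)) =
      fun x => ∑ i, ∑ j, f x i * (f x j * g x (ei i) (ei j)) := by
    funext x
    exact expand hg x (f x) (f x)
  rw [h1]
  have hfi : ∀ i, ContinuousWithinAt (fun x => f x i) S x0 := fun i =>
    (EuclideanSpace.proj (𝕜 := ℝ) i).continuous.continuousAt.comp_continuousWithinAt hf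
  refine tendsto_finsetSum _ fun i _ => tendsto_finsetSum _ fun j _ => ?_
  exact (hfi i).mul ((hfi j).mul ((hg.cont (ei i) (ei j) x0 (hS hx0)).mono hS))

lemma cont_dG {M : ℝ} {F : ℝ → ℝ} {a : E ι → ℝ} {g : RPn.Field ι} (hF : IsF M F)
    (ha : IsA M a) (hg : IsMetric g) (hb : BetweenF F a g) :
    ContinuousOn (dG a g) (Metric.sphere (0 : E ι) 1) := by
  have hgr : ContinuousOn (grad a) (Metric.sphere (0 : E ι) 1) := by
    unfold grad
    exact (InnerProductSpace.toDual ℝ (E ι)).symm.continuous.comp_continuousOn (cont_fd ha)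
  have hid : ContinuousOn (fun x : E ι => x) (Metric.sphere (0 : E ι) 1) := continuousOn_id
  change ContinuousOn (fun x => a x • x + bg a g x (ev a x) • ev a x) _
  refine ((cont_a ha).smul hid).add ?_
  intro x0 hx0
  have hx0' : ‖x0‖ = 1 := by simpa using hx0
  by_cases hG : grad a x0 = 0
  · have h0 : bg a g x0 (ev a x0) • ev a x0 = 0 := by
      rw [show ev a x0 = 0 by rw [ev, hG, smul_zero], smul_zero]
    rw [ContinuousWithinAt, h0]
    refine squeeze_zero_norm' (a := fun x => |F (a x)| * ‖grad a x‖) ?_ ?_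
    · filter_upwards [self_mem_nhdsWithin] with x hx
      exact bg_le ha hb (by simpa using hx)
    · have h1 : Tendsto (fun x => |F (a x)| * ‖grad a x‖) (𝓝[Metric.sphere 0 1] x0)
          (𝓝 (|F (a x0)| * ‖grad a x0‖)) :=
        ((cont_F hF ha x0 hx0).abs).mul (hgr x0 hx0).norm
      rwa [hG, norm_zero, mul_zero] at h1
  · have he : ContinuousWithinAt (ev a) (Metric.sphere (0 : E ι) 1) x0 :=
      ((hgr x0 hx0).norm.inv₀ (norm_ne_zero_iff.mpr hG)).smul (hgr x0 hx0)
    have h1 : ContinuousWithinAt (fun x => bg a g x (ev a x)) (Metric.sphere (0 : E ι) 1) x0 := by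
      unfold bg
      exact ((cont_g hg (le_refl _) hx0 he).sub ((cont_a ha x0 hx0).pow 2)).sqrt
    exact h1.smul he

lemma density5 {M : ℝ} {F : ℝ → ℝ} {a : E ι → ℝ} {g : RPn.Field ι}
    (ha : IsA M a) (hg : IsMetric g) (hb : BetweenF F a g)
    (hcard : 2 ≤ Fintype.card ι) {x : E ι} (hx : ‖x‖ = 1) :
    volDensity g x = a x ^ (Fintype.card ι - 2) * ‖dG a g x‖ := by
  obtain ⟨c, hc⟩ : ∃ c, Fintype.card ι = c + 2 := ⟨Fintype.card ι - 2, by omega⟩
  have hA : 0 < a x := (ha.range x hx).1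
  have hxe := inner_ev ha hx
  have hti : ∀ i, inner ℝ (ev a x) (tang x (ei i)) = ev a x i := by
    intro i
    have hex : inner ℝ (ev a x) x = 0 := by rw [real_inner_comm, hxe]
    rw [tang, inner_sub_right, inner_smul_right, hex, mul_zero, sub_zero, inner_ei]
  have hgram : Matrix.of (gram g x) =
      Matrix.of fun i j : ι => a x ^ 2 * ((if i = j then 1 else 0 : ℝ) - x i * x j) +
        bg a g x (ev a x) ^ 2 * (ev a x i * ev a x j) + x i * x j := by
    ext i j
    simp only [Matrix.of_apply, gram]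
    rw [form ha hg hb hx (tang_perp x hx _) (tang_perp x hx _), tang_tang x hx, hti, hti]
  have hdet := det_form (x : ι → ℝ) (ev a x : ι → ℝ) (a x ^ 2) (bg a g x (ev a x) ^ 2)
    (pow_ne_zero _ hA.ne') (by rw [dot_eq, inner_self' x hx]) (by rw [dot_eq, hxe])
  rw [volDensity, hgram, hdet]
  have hval : (a x ^ 2) ^ Fintype.card ι * (a x ^ 2)⁻¹ * (1 + bg a g x (ev a x) ^ 2 / a x ^ 2 *
      ((ev a x : ι → ℝ) ⬝ᵥ (ev a x : ι → ℝ))) =
      (a x ^ (Fintype.card ι - 2) * ‖dG a g x‖) ^ 2 := by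
    rw [dot_eq, real_inner_self_eq_norm_sq, mul_pow _ ‖dG a g x‖, norm_dG g ha hx, hc,
      Nat.add_sub_cancel]
    exact fin_eq c (a x) (bg a g x (ev a x)) _ hA
  rw [hval, Real.sqrt_sq]
  positivity

end form

end XMET5

open XMET3 XMET5 in
theorem iMET5 : StMet5 := by
  intro ι _ _ M F a g hF ha hg hb hcard
  refine ⟨fun x hx => density5 ha hg hb hcard hx, cont_dG hF ha hg hb, ?_, ?_⟩
  · intro x hx
    have hex : inner ℝ (ev a x) x = 0 := by rw [real_inner_comm, inner_ev ha hx]
    change inner ℝ (a x • x + bg a g x (ev a x) • ev a x) x = a x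
    rw [inner_add_left, real_inner_smul_left, real_inner_smul_left, inner_self' x hx, hex]
    ring
  · rintro x u ⟨hx, hu, hxu⟩
    change |(inner ℝ (a x • x + bg a g x (ev a x) • ev a x) u : ℝ)| = bg a g x u
    have h1 : g x u u = a x ^ 2 +
        bg a g x (ev a x) ^ 2 * (inner ℝ (ev a x) u * inner ℝ (ev a x) u) := by
      rw [form ha hg hb hx hxu hxu, inner_self' u hu, mul_one]
    have h2 : bg a g x u = Real.sqrt ((bg a g x (ev a x) * inner ℝ (ev a x) u) ^ 2) := by
      conv_lhs => rw [bg]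
      rw [h1]
      congr 1
      ring
    rw [h2, Real.sqrt_sq_eq_abs, inner_add_left, real_inner_smul_left, real_inner_smul_left,
      hxu, mul_zero, zero_add]

end Pool.Agent.Work.MP_02f065_gt.Cvx
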