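import Pool.Agent.Work.MP_02f065_gt.Cvx.Stmts6
import Pool.Agent.Work.MP_02f065_gt.Cvx.I_MET5

/-!
MP_02f065_gt, block CVX6, item CON6 (12078): continuity of the functions of `g`.
-/

open MeasureTheory Set Filter Topology

noncomputable section

namespace Pool.Agent.Work.MP_02f065_gt.Cvx

open Pool.Agent.Work.MP_02f065_gt.RPn

namespace XCON6

open XMET3 XMET5

variable {ι : Type} [Fintype ι] [DecidableEq ι]

omit [DecidableEq ι] in
lemma sphere_of_ON {z : E ι × E ι} (h : ON z.1 z.2) : z.1 ∈ Metric.sphere (0 : E ι) 1 := by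
  rw [mem_sphere_zero_iff_norm]
  exact h.1

lemma cont_bil {T : Type*} [TopologicalSpace T] {g : RPn.Field ι} (hg : IsMetric g) {S : Set T}
    {p v w : T → E ι} (hp : ContinuousOn p S) (hpS : ∀ t ∈ S, p t ∈ Metric.sphere (0 : E ι) 1)
    (hv : ContinuousOn v S) (hw : ContinuousOn w S) :
    ContinuousOn (fun t => g (p t) (v t) (w t)) S := by
  have h1 : (fun t => g (p t) (v t) (w t)) =
      fun t => ∑ i, ∑ j, v t i * (w t j * g (p t) (ei i) (ei j)) := by
    funext t
    exact expand hg (p t) (v t) (w t)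
  rw [h1]
  have hc : ∀ (f : T → E ι), ContinuousOn f S → ∀ i, ContinuousOn (fun t => f t i) S :=
    fun f hf i => (EuclideanSpace.proj (𝕜 := ℝ) i).continuous.comp_continuousOn hf
  refine continuousOn_finsetSum _ fun i _ => continuousOn_finsetSum _ fun j _ => ?_
  exact (hc v hv i).mul ((hc w hw j).mul ((hg.cont (ei i) (ei j)).comp hp hpS))

lemma cont_vol {g : RPn.Field ι} (hg : IsMetric g) :
    ContinuousOn (volDensity g) (Metric.sphere (0 : E ι) 1) := by
  have hid : ContinuousOn (fun x : E ι => x) (Metric.sphere (0 : E ι) 1) := continuousOn_id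
  have ht : ∀ i, ContinuousOn (fun x : E ι => tang x (ei i)) (Metric.sphere (0 : E ι) 1) := by
    intro i
    have hcont : Continuous (fun x : E ι => tang x (ei i)) := by
      unfold tang
      fun_prop
    exact hcont.continuousOn
  have hm : ContinuousOn (fun x : E ι => Matrix.of (gram g x)) (Metric.sphere (0 : E ι) 1) := by
    refine continuousOn_pi.mpr fun i => continuousOn_pi.mpr fun j => ?_
    change ContinuousOn (fun x : E ι => g x (tang x (ei i)) (tang x (ei j)) + x i * x j) _
    have hc : ∀ i : ι, Continuous (fun x : E ι => x i) :=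
      fun i => (EuclideanSpace.proj (𝕜 := ℝ) i).continuous
    exact (cont_bil hg hid (fun t h => h) (ht i) (ht j)).add
      ((hc i).mul (hc j)).continuousOn
  have hdet : Continuous (fun A : Matrix ι ι ℝ => A.det) := continuous_id.matrix_det
  exact Real.continuous_sqrt.comp_continuousOn (hdet.comp_continuousOn hm)

end XCON6

open XMET3 XMET5 XCON6 in
theorem iCON6 : StCon6 := by
  intro ι _ _ M a g ha hg hb
  have h1 : ContinuousOn (fun z : E ι × E ι => g z.1 z.2 z.2) {z | ON z.1 z.2} :=
    cont_bil hg continuous_fst.continuousOn (fun z hz => sphere_of_ON hz)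
      continuous_snd.continuousOn continuous_snd.continuousOn
  have h2 : ContinuousOn (fun z : E ι × E ι => a z.1) {z | ON z.1 z.2} :=
    (cont_a ha).comp continuous_fst.continuousOn (fun z hz => sphere_of_ON hz)
  refine ⟨h1, ?_, cont_vol hg, ?_⟩
  · unfold bg
    exact (h1.sub (h2.pow 2)).sqrt
  · rintro x u ⟨hx, hu, hxu⟩
    refine ⟨Real.sqrt_nonneg _, ?_⟩
    have h3 := hb x u hx hxu
    rw [inner_self' u hu, mul_one] at h3
    rw [bg, Real.sq_sqrt (by linarith)]
    ring

end Pool.Agent.Work.MP_02f065_gt.Cvx
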