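import Pool.Agent.Work.MP_02f065_gt.Cvx.Stmts3

/-!
MP_02f065_gt, block CVX3, item COS3: the functions `G_m` as integrals of absolute values.
-/

open MeasureTheory Set Filter Topology

noncomputable section

namespace Pool.Agent.Work.MP_02f065_gt.Cvx

open Pool.Agent.Work.MP_02f065_gt.RPn

namespace XCOS3

theorem half (g : ℝ → ℝ) (hg : Function.Periodic g Real.pi) (hc : Continuous g) :
    ∫ χ in (0 : ℝ)..(2 * Real.pi), g χ =
      2 * ∫ χ in (-(Real.pi / 2))..(Real.pi / 2), g χ := by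
  have h1 : ∫ χ in (-(Real.pi / 2))..(Real.pi / 2), g χ = ∫ χ in (0 : ℝ)..Real.pi, g χ := by
    have h := hg.intervalIntegral_add_eq (-(Real.pi / 2)) 0
    rw [show -(Real.pi / 2) + Real.pi = Real.pi / 2 by ring, zero_add] at h
    exact h
  have h2 : ∫ χ in Real.pi..(2 * Real.pi), g χ = ∫ χ in (0 : ℝ)..Real.pi, g χ := by
    have h := hg.intervalIntegral_add_eq Real.pi 0
    rw [show Real.pi + Real.pi = 2 * Real.pi by ring, zero_add] at h
    exact h
  have h3 := intervalIntegral.integral_add_adjacent_intervals (a := (0 : ℝ)) (b := Real.pi)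
    (c := 2 * Real.pi) (hc.intervalIntegrable (μ := volume) 0 Real.pi)
    (hc.intervalIntegrable (μ := volume) Real.pi (2 * Real.pi))
  rw [h2] at h3
  rw [h1, ← h3]
  ring

theorem Cm_deriv (m : ℕ) (χ : ℝ) : HasDerivAt (Cm m) (Real.cos χ ^ m) χ := by
  have hc : Continuous (fun τ : ℝ => Real.cos τ ^ m) := by fun_prop
  exact intervalIntegral.integral_hasDerivAt_right (hc.intervalIntegrable _ _)
    (hc.stronglyMeasurableAtFilter _ _) hc.continuousAt

theorem Cm_neg (m : ℕ) (χ : ℝ) : Cm m (-χ) = -Cm m χ := by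
  unfold Cm
  have h := intervalIntegral.integral_comp_neg (a := (0 : ℝ)) (b := χ)
    (fun τ : ℝ => Real.cos τ ^ m)
  simp only [Real.cos_neg, neg_zero] at h
  rw [intervalIntegral.integral_symm, ← h]

/-- Integral of `cos^m χ sin (χ - c)`. -/
theorem seg (m : ℕ) (c u v : ℝ) :
    ∫ χ in u..v, Real.cos χ ^ m * Real.sin (χ - c) =
      (-(Real.cos c * Real.cos v ^ (m + 1) / (m + 1)) - Real.sin c * Cm (m + 1) v) -
      (-(Real.cos c * Real.cos u ^ (m + 1) / (m + 1)) - Real.sin c * Cm (m + 1) u) := by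
  have hm : (m + 1 : ℝ) ≠ 0 := by positivity
  refine intervalIntegral.integral_eq_sub_of_hasDerivAt (f := fun χ =>
    -(Real.cos c * Real.cos χ ^ (m + 1) / (m + 1)) - Real.sin c * Cm (m + 1) χ) (fun χ _ => ?_)
    ?_
  · have h1 := ((((Real.hasDerivAt_cos χ).pow (m + 1)).const_mul (Real.cos c)).div_const
      (m + 1 : ℝ)).neg.sub ((Cm_deriv (m + 1) χ).const_mul (Real.sin c))
    refine h1.congr_deriv ?_
    rw [Real.sin_sub]
    push_cast
    field_simp
    ring
  · have hc : Continuous (fun χ : ℝ => Real.cos χ ^ m * Real.sin (χ - c)) := by fun_prop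
    exact hc.intervalIntegrable _ _

theorem core (m : ℕ) (c : ℝ) (h1 : -(Real.pi / 2) < c) (h2 : c < Real.pi / 2) :
    ∫ χ in (-(Real.pi / 2))..(Real.pi / 2), |Real.cos χ| ^ m * |Real.sin (χ - c)| =
      2 * (Real.cos c * Real.cos c ^ (m + 1) / (m + 1)) + 2 * (Real.sin c * Cm (m + 1) c) := by
  have hg : Continuous (fun χ : ℝ => |Real.cos χ| ^ m * |Real.sin (χ - c)|) := by fun_prop
  have hpi := Real.pi_pos
  rw [← intervalIntegral.integral_add_adjacent_intervals (b := c)
    (hg.intervalIntegrable _ _) (hg.intervalIntegrable _ _)]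
  have e1 : ∫ χ in (-(Real.pi / 2))..c, |Real.cos χ| ^ m * |Real.sin (χ - c)| =
      -∫ χ in (-(Real.pi / 2))..c, Real.cos χ ^ m * Real.sin (χ - c) := by
    rw [← intervalIntegral.integral_neg]
    refine intervalIntegral.integral_congr (fun χ hχ => ?_)
    rw [uIcc_of_le h1.le] at hχ
    have hcos : 0 ≤ Real.cos χ := Real.cos_nonneg_of_mem_Icc ⟨hχ.1, by linarith [hχ.2]⟩
    have hsin : Real.sin (χ - c) ≤ 0 :=
      Real.sin_nonpos_of_nonpos_of_neg_pi_le (by linarith [hχ.2]) (by linarith [hχ.1])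
    rw [abs_of_nonneg hcos, abs_of_nonpos hsin]
    ring
  have e2 : ∫ χ in c..(Real.pi / 2), |Real.cos χ| ^ m * |Real.sin (χ - c)| =
      ∫ χ in c..(Real.pi / 2), Real.cos χ ^ m * Real.sin (χ - c) := by
    refine intervalIntegral.integral_congr (fun χ hχ => ?_)
    rw [uIcc_of_le h2.le] at hχ
    have hcos : 0 ≤ Real.cos χ := Real.cos_nonneg_of_mem_Icc ⟨by linarith [hχ.1], hχ.2⟩
    have hsin : 0 ≤ Real.sin (χ - c) :=
      Real.sin_nonneg_of_nonneg_of_le_pi (by linarith [hχ.1]) (by linarith [hχ.2])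
    rw [abs_of_nonneg hcos, abs_of_nonneg hsin]
  rw [e1, e2, seg, seg, Cm_neg, Real.cos_neg, Real.cos_pi_div_two, zero_pow (Nat.succ_ne_zero m)]
  ring

end XCOS3

open XCOS3

theorem iCOS3 : StCos3 := by
  intro F A s m hA
  set c := chS F A s with hc
  have hcos : 0 < Real.cos c := Real.cos_arctan_pos _
  have hb : F A * s = A * (Real.sin c / Real.cos c) := by
    have h : Real.tan c = F A * s / A := Real.tan_arctan _
    rw [← Real.tan_eq_sin_div_cos, h]
    field_simp
  have h1 : -(Real.pi / 2) < c := Real.neg_pi_div_two_lt_arctan _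
  have h2 : c < Real.pi / 2 := Real.arctan_lt_pi_div_two _
  have hg : ∀ χ : ℝ, |Real.cos χ| ^ m * |A * Real.sin χ - F A * s * Real.cos χ| =
      (A / Real.cos c) * (|Real.cos χ| ^ m * |Real.sin (χ - c)|) := by
    intro χ
    have h3 : A * Real.sin χ - F A * s * Real.cos χ = (A / Real.cos c) * Real.sin (χ - c) := by
      rw [hb, Real.sin_sub]
      field_simp
    rw [h3, abs_mul, abs_of_pos (div_pos hA hcos)]
    ring
  have hp : Function.Periodic (fun χ : ℝ => |Real.cos χ| ^ m * |Real.sin (χ - c)|) Real.pi := by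
    intro χ
    simp only
    rw [Real.cos_add_pi, abs_neg, show χ + Real.pi - c = χ - c + Real.pi by ring,
      Real.sin_add_pi, abs_neg]
  rw [intervalIntegral.integral_congr (fun χ _ => hg χ), intervalIntegral.integral_const_mul,
    half _ hp (by fun_prop), core m c h1 h2]
  unfold GS kS gm
  rw [← hc, mul_pow]
  push_cast
  have hm : (m + 1 : ℝ) ≠ 0 := by positivity
  field_simp
  ring

end Pool.Agent.Work.MP_02f065_gt.Cvx
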