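import Pool.Agent.Work.MP_02f065_gt.Cvx.Stmts3

open MeasureTheory Set Filter Topology

noncomputable section

namespace Pool.Agent.Work.MP_02f065_gt.Cvx

open Pool.Agent.Work.MP_02f065_gt.RPn

namespace XCUR3

theorem cont_gm (m : ℕ) :
    ContinuousOn (gm m) (Ioo (-(Real.pi / 2)) (Real.pi / 2)) := by
  have hC : Continuous (Cm m) := by
    unfold Cm
    exact intervalIntegral.continuous_primitive
      (fun a b => (Real.continuous_cos.pow m).intervalIntegrable a b) 0
  unfold gm
  refine ContinuousOn.add continuousOn_const ?_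
  refine ContinuousOn.div ?_ ?_ ?_
  · exact ((continuous_const.mul Real.continuous_sin).mul hC).continuousOn
  · exact (Real.continuous_cos.pow (m + 1)).continuousOn
  · intro x hx
    exact pow_ne_zero _ (Real.cos_pos_of_mem_Ioo hx).ne'

theorem alg (a f f' p A2 r I Jg J1 y : ℝ) (m : ℕ) (ha : 0 < a) (hr : 0 < r)
    (hr2 : r ^ 2 = a ^ 2 + (f * p) ^ 2)
    (k k' χ' g K : ℝ) (hk : k = a * (a / r))
    (hχ' : χ' = ((f' * p * p + f * A2) * a - f * p * p) / r ^ 2)
    (hk' : k' = p * (a / r) - a * ((f * p / r) * χ'))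
    (hg : g = 1 + f * p / a * y)
    (hK : K = a ^ 2 + (2 * f ^ 2 - a * f * f') * (p * p) - a * f ^ 2 * A2)
    (hpar : k * Jg - k * J1 + m * I = f * y) :
    m * k ^ (m - 1) * k' * I + k ^ m * (f * g * χ' + k' * Jg) =
      k ^ m * g - k ^ m * (K * (1 / r ^ 2 - a * p / r ^ 3 * J1)) := by
  have hkpos : 0 < k := by rw [hk]; positivity
  have hmk : (m : ℝ) * k ^ (m - 1) = k ^ m * (m / k) := by
    rcases Nat.eq_zero_or_pos m with h | h
    · subst h; simp
    · obtain ⟨q, rfl⟩ : ∃ q, m = q + 1 := ⟨m - 1, by omega⟩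
      simp only [Nat.add_sub_cancel]
      rw [pow_succ]
      field_simp
  have hKr : K / r ^ 2 = 1 - f * χ' := by
    rw [hχ', hK]
    field_simp
    rw [hr2]
    ring
  have hk'' : k' = a * p / r ^ 3 * K := by
    have : K = r ^ 2 * (1 - f * χ') := by
      rw [← hKr]; field_simp
    rw [this, hk']
    field_simp
  have hI : (m : ℝ) * I = f * y - k * Jg + k * J1 := by linarith
  have hratio : k' / k + (f * p / a) * χ' = p / a := by
    rw [hk', hk]
    field_simp
    ring
  have key : k' / k * (f * y) + f * g * χ' = g - K / r ^ 2 := by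
    rw [hKr, hg]
    have h1 : k' / k = p / a - (f * p / a) * χ' := by linarith
    rw [h1]
    ring
  calc m * k ^ (m - 1) * k' * I + k ^ m * (f * g * χ' + k' * Jg)
      = k ^ m * (m / k) * k' * I + k ^ m * (f * g * χ' + k' * Jg) := by rw [hmk]
    _ = k ^ m * (k' / k * (m * I) + f * g * χ' + k' * Jg) := by
        field_simp
        try ring
    _ = k ^ m * (k' / k * (f * y) + f * g * χ' + k' * J1) := by
        rw [hI]
        field_simp
        ring
    _ = k ^ m * (g - K / r ^ 2 + k' * J1) := by rw [key]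
    _ = k ^ m * g - k ^ m * (K * (1 / r ^ 2 - a * p / r ^ 3 * J1)) := by
        rw [hk'']
        ring

end XCUR3

theorem iCUR3 (hD : StDer3) (hP : StPar3) : StCur3 := by
  intro M F A A1 A2 t m hF hA hA1 hr
  obtain ⟨ha0, haM⟩ := hr t
  set a := A t with ha
  set p := A1 t with hp
  have hFd : HasDerivAt F (deriv F a) a := by
    have h1 : DifferentiableOn ℝ F (Ioo 0 M) := hF.differentiableOn (by norm_num)
    exact (h1.differentiableAt (Ioo_mem_nhds ha0 haM)).hasDerivAt
  set f := F a with hf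
  set f' := deriv F a with hf'
  set r := Real.sqrt (a ^ 2 + (f * p) ^ 2) with hrdef
  have hrpos : 0 < r := Real.sqrt_pos.mpr (by positivity)
  have hr2 : r ^ 2 = a ^ 2 + (f * p) ^ 2 := Real.sq_sqrt (by positivity)
  -- the function `F (A s) * A1 s / A s`
  have hq : HasDerivAt (fun s => F (A s) * A1 s / A s)
      (((f' * p * p + f * A2) * a - f * p * p) / a ^ 2) t := by
    have h1 : HasDerivAt (fun s => F (A s)) (f' * p) t := HasDerivAt.comp t hFd (hA t)
    exact (h1.mul hA1).div (hA t) ha0.ne'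
  set χ' := ((f' * p * p + f * A2) * a - f * p * p) / r ^ 2 with hχ'def
  have h1q : 1 + (f * p / a) ^ 2 = r ^ 2 / a ^ 2 := by
    rw [hr2]; field_simp
  have hsq : Real.sqrt (1 + (f * p / a) ^ 2) = r / a := by
    rw [h1q, ← div_pow]
    exact Real.sqrt_sq (by positivity)
  have hχ : HasDerivAt (fun s => chS F (A s) (A1 s)) χ' t := by
    unfold chS
    have h2 := hq.arctan
    refine h2.congr_deriv ?_
    show 1 / (1 + (f * p / a) ^ 2) * _ = _
    rw [h1q, hχ'def]
    field_simp
  have hcos : Real.cos (chS F a p) = a / r := by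
    unfold chS
    rw [Real.cos_arctan]
    show 1 / Real.sqrt (1 + (f * p / a) ^ 2) = _
    rw [hsq]
    field_simp
  have hsin : Real.sin (chS F a p) = f * p / r := by
    unfold chS
    rw [Real.sin_arctan]
    show (f * p / a) / Real.sqrt (1 + (f * p / a) ^ 2) = _
    rw [hsq]
    field_simp
  have hk : HasDerivAt (fun s => kS F (A s) (A1 s))
      (p * (a / r) - a * ((f * p / r) * χ')) t := by
    unfold kS
    have h3 := (hA t).mul hχ.cos
    refine h3.congr_deriv ?_
    show p * Real.cos (chS F a p) + a * (-Real.sin (chS F a p) * χ') = _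
    rw [hcos, hsin]
    ring
  have hkval : kS F a p = a * (a / r) := by
    unfold kS
    rw [hcos]
  have hkc : kS F a p / Real.cos (chS F a p) = a := by
    rw [hkval, hcos]
    field_simp
  have hReg : (kS F a p, chS F a p) ∈ Reg M := by
    refine ⟨?_, ?_, ?_⟩
    · show 0 < kS F a p
      rw [hkval]; positivity
    · exact ⟨Real.neg_pi_div_two_lt_arctan _, Real.arctan_lt_pi_div_two _⟩
    · show kS F a p / Real.cos (chS F a p) < M
      rw [hkc]; exact haM
  have hInt := (hD M F (gm m) hF (XCUR3.cont_gm m)).1 _ _ _ _ t hk hχ hReg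
  have hpar := hP M F m (kS F a p) (chS F a p) hF hReg
  have hfin := (hk.pow m).mul hInt
  refine hfin.congr_deriv ?_
  simp only [Pi.pow_apply]
  show (m : ℝ) * kS F a p ^ (m - 1) * (p * (a / r) - a * ((f * p / r) * χ')) *
      (∫ τ in (0 : ℝ)..(chS F a p), F (kS F a p / Real.cos τ) * gm m τ) +
      kS F a p ^ m * (F (kS F a p / Real.cos (chS F a p)) * gm m (chS F a p) * χ' +
        (p * (a / r) - a * ((f * p / r) * χ')) *
        ∫ τ in (0 : ℝ)..(chS F a p), deriv F (kS F a p / Real.cos τ) / Real.cos τ * gm m τ) = _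
  rw [hkc] at hpar ⊢
  simp only [mul_one] at hpar
  have hg : gm m (chS F a p) = 1 + f * p / a * (m * Cm m (chS F a p) /
      Real.cos (chS F a p) ^ m) := by
    unfold gm
    rw [hcos, hsin, pow_succ]
    field_simp
  unfold GS omS
  have := XCUR3.alg a f f' p A2 r _ _ _ _ m ha0 hrpos hr2 (kS F a p) _ χ' (gm m (chS F a p)) _
    hkval rfl rfl hg rfl hpar
  rw [← hr2, Real.sqrt_sq hrpos.le]
  exact this

end Pool.Agent.Work.MP_02f065_gt.Cvx
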