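import Pool.Agent.Work.MP_02f065_gt.Cvx.Stmts6

/-!
Item [02f065 CVX6 CV6]: `-Gf f A` is convex, increasing and continuous for `f ≤ 0`.
-/

open MeasureTheory Set Filter Topology

noncomputable section

namespace Pool.Agent.Work.MP_02f065_gt.Cvx

open Pool.Agent.Work.MP_02f065_gt.RPn

namespace XCV6

/-- The integrand. -/
def ig (f : ℝ → ℝ) (A b θ : ℝ) : ℝ :=
  -f (A * Real.cos θ) * max (A * Real.sin θ) (|b| * Real.cos θ)

theorem ig_cont {f : ℝ → ℝ} (hf : Continuous f) (A : ℝ) :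
    Continuous (Function.uncurry (ig f A)) := by
  unfold ig Function.uncurry
  fun_prop

theorem neg_Gf (f : ℝ → ℝ) (A b : ℝ) :
    -Gf f A b = ∫ θ in (0 : ℝ)..(Real.pi / 2), ig f A b θ := by
  unfold Gf ig
  rw [← intervalIntegral.integral_neg]
  congr 1
  ext θ
  ring

theorem ig_int {f : ℝ → ℝ} (hf : Continuous f) (A b : ℝ) :
    IntervalIntegrable (ig f A b) volume 0 (Real.pi / 2) := by
  refine Continuous.intervalIntegrable ?_ _ _
  unfold ig
  fun_prop

theorem ig_coef {f : ℝ → ℝ} {A : ℝ} (hA : 0 < A) (h0 : ∀ c, 0 ≤ c → f c ≤ 0) {θ : ℝ}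
    (hθ : θ ∈ Icc (0 : ℝ) (Real.pi / 2)) : 0 ≤ -f (A * Real.cos θ) ∧ 0 ≤ Real.cos θ := by
  have hc : 0 ≤ Real.cos θ :=
    Real.cos_nonneg_of_neg_pi_div_two_le_of_le (by linarith [hθ.1, Real.pi_pos]) hθ.2
  exact ⟨neg_nonneg.2 (h0 _ (mul_nonneg hA.le hc)), hc⟩

theorem cv {f : ℝ → ℝ} {A : ℝ} (hf : Continuous f) (hA : 0 < A)
    (h0 : ∀ c, 0 ≤ c → f c ≤ 0) : ConvexOn ℝ (Ici 0) (fun b => -Gf f A b) := by
  refine ⟨convex_Ici 0, ?_⟩
  intro x hx y hy a b ha hb hab
  have hx' : 0 ≤ x := hx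
  have hy' : 0 ≤ y := hy
  simp only [smul_eq_mul, neg_Gf]
  rw [← intervalIntegral.integral_const_mul, ← intervalIntegral.integral_const_mul,
    ← intervalIntegral.integral_add ((ig_int hf A x).const_mul a) ((ig_int hf A y).const_mul b)]
  refine intervalIntegral.integral_mono_on (by positivity) (ig_int hf A _)
    (((ig_int hf A x).const_mul a).add ((ig_int hf A y).const_mul b)) ?_
  intro θ hθ
  obtain ⟨h1, h2⟩ := ig_coef hA h0 hθ
  unfold ig
  rw [abs_of_nonneg hx', abs_of_nonneg hy',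
    abs_of_nonneg (add_nonneg (mul_nonneg ha hx') (mul_nonneg hb hy'))]
  have key : max (A * Real.sin θ) ((a * x + b * y) * Real.cos θ) ≤
      a * max (A * Real.sin θ) (x * Real.cos θ) + b * max (A * Real.sin θ) (y * Real.cos θ) := by
    apply max_le
    · have e1 := mul_le_mul_of_nonneg_left (le_max_left (A * Real.sin θ) (x * Real.cos θ)) ha
      have e2 := mul_le_mul_of_nonneg_left (le_max_left (A * Real.sin θ) (y * Real.cos θ)) hb
      have e3 : a * (A * Real.sin θ) + b * (A * Real.sin θ) = A * Real.sin θ := by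
        rw [← add_mul, hab, one_mul]
      linarith
    · have e1 := mul_le_mul_of_nonneg_left (le_max_right (A * Real.sin θ) (x * Real.cos θ)) ha
      have e2 := mul_le_mul_of_nonneg_left (le_max_right (A * Real.sin θ) (y * Real.cos θ)) hb
      have e3 : (a * x + b * y) * Real.cos θ =
          a * (x * Real.cos θ) + b * (y * Real.cos θ) := by ring
      linarith
  have := mul_le_mul_of_nonneg_left key h1
  calc _ ≤ _ := this
    _ = _ := by ring

theorem mono {f : ℝ → ℝ} {A : ℝ} (hf : Continuous f) (hA : 0 < A)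
    (h0 : ∀ c, 0 ≤ c → f c ≤ 0) : MonotoneOn (fun b => -Gf f A b) (Ici 0) := by
  intro x hx y hy hxy
  have hx' : 0 ≤ x := hx
  have hy' : 0 ≤ y := hy
  simp only [neg_Gf]
  refine intervalIntegral.integral_mono_on (by positivity) (ig_int hf A _) (ig_int hf A _) ?_
  intro θ hθ
  obtain ⟨h1, h2⟩ := ig_coef hA h0 hθ
  unfold ig
  rw [abs_of_nonneg hx', abs_of_nonneg hy']
  exact mul_le_mul_of_nonneg_left
    (max_le_max le_rfl (mul_le_mul_of_nonneg_right hxy h2)) h1

theorem ct {f : ℝ → ℝ} (hf : Continuous f) (A : ℝ) : Continuous (fun b => -Gf f A b) := by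
  simp only [neg_Gf]
  exact intervalIntegral.continuous_parametric_intervalIntegral_of_continuous' (ig_cont hf A) _ _

end XCV6

theorem iCV6 : StCv6 := by
  intro f A hf hA h0
  exact ⟨XCV6.cv hf hA h0, XCV6.mono hf hA h0, XCV6.ct hf A⟩

end Pool.Agent.Work.MP_02f065_gt.Cvx
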