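import Pool.Agent.Work.MP_02f065_gt.Cvx.Stmts3

/-!
MP_02f065_gt, block CVX3, item DER3: derivatives of the integrals of `F (k / cos τ) w τ`.
-/

open MeasureTheory Set Filter Topology

noncomputable section

namespace Pool.Agent.Work.MP_02f065_gt.Cvx

open Pool.Agent.Work.MP_02f065_gt.RPn

namespace XDER3

theorem cos_pos' {c : ℝ} (h : c ∈ Ioo (-(Real.pi / 2)) (Real.pi / 2)) : 0 < Real.cos c :=
  Real.cos_pos_of_mem_Ioo h

theorem reg_eq (M : ℝ) : Reg M = {z | 0 < z.1 ∧ -(Real.pi / 2) < z.2 ∧ z.2 < Real.pi / 2 ∧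
    z.1 < M * Real.cos z.2} := by
  ext z
  constructor
  · rintro ⟨h1, h2, h3⟩
    exact ⟨h1, h2.1, h2.2, (div_lt_iff₀ (cos_pos' h2)).1 h3⟩
  · rintro ⟨h1, h2, h3, h4⟩
    exact ⟨h1, ⟨h2, h3⟩, (div_lt_iff₀ (cos_pos' ⟨h2, h3⟩)).2 h4⟩

theorem isOpen_reg (M : ℝ) : IsOpen (Reg M) := by
  rw [reg_eq]
  refine (isOpen_lt continuous_const continuous_fst).inter ?_
  refine (isOpen_lt continuous_const continuous_snd).inter ?_
  refine (isOpen_lt continuous_snd continuous_const).inter ?_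
  exact isOpen_lt continuous_fst (by fun_prop)

theorem reg_mul {M k c : ℝ} (h : (k, c) ∈ Reg M) {u : ℝ} (hu : u ∈ Icc (0 : ℝ) 1) :
    (k, c * u) ∈ Reg M := by
  obtain ⟨h1, h2, h3⟩ := h
  have hpi := Real.pi_pos
  have hc : |c| < Real.pi / 2 := abs_lt.2 h2
  have hcu : |c * u| ≤ |c| := by
    rw [abs_mul, abs_of_nonneg hu.1]
    exact mul_le_of_le_one_right (abs_nonneg _) hu.2
  have h4 : c * u ∈ Ioo (-(Real.pi / 2)) (Real.pi / 2) := abs_lt.1 (hcu.trans_lt hc)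
  have h5 : Real.cos c ≤ Real.cos (c * u) := by
    rw [← Real.cos_abs c, ← Real.cos_abs (c * u)]
    exact Real.cos_le_cos_of_nonneg_of_le_pi (abs_nonneg _) (by linarith) hcu
  refine ⟨h1, h4, ?_⟩
  refine lt_of_le_of_lt ?_ h3
  exact div_le_div_of_nonneg_left h1.le (cos_pos' h2) h5

theorem exists_mul {c τ : ℝ} (h : τ ∈ uIcc 0 c) : ∃ u ∈ Icc (0 : ℝ) 1, τ = c * u := by
  rcases eq_or_ne c 0 with rfl | hc
  · refine ⟨0, ⟨le_rfl, zero_le_one⟩, ?_⟩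
    simpa using h
  · refine ⟨τ / c, ?_, by field_simp⟩
    rcases le_or_gt 0 c with h0 | h0
    · rw [uIcc_of_le h0] at h
      have h0' : 0 < c := lt_of_le_of_ne h0 hc.symm
      exact ⟨div_nonneg h.1 h0, (div_le_one h0').2 h.2⟩
    · rw [uIcc_of_ge h0.le] at h
      exact ⟨div_nonneg_of_nonpos h.2 h0.le, (div_le_one_of_neg h0).2 h.1⟩

theorem reg_uIcc {M k c : ℝ} (h : (k, c) ∈ Reg M) {τ : ℝ} (hτ : τ ∈ uIcc 0 c) :
    (k, τ) ∈ Reg M := by
  obtain ⟨u, hu, rfl⟩ := exists_mul hτ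
  exact reg_mul h hu

theorem reg_div {M : ℝ} {z : ℝ × ℝ} (h : z ∈ Reg M) : z.1 / Real.cos z.2 ∈ Ioo 0 M :=
  ⟨div_pos h.1 (cos_pos' h.2.1), h.2.2⟩

/-- Continuity of the integrand. -/
theorem cont_phi {M : ℝ} {G w : ℝ → ℝ} (hG : ContinuousOn G (Ioo 0 M))
    (hw : ContinuousOn w (Ioo (-(Real.pi / 2)) (Real.pi / 2))) :
    ContinuousOn (fun z : ℝ × ℝ => G (z.1 / Real.cos z.2) * w z.2) (Reg M) := by
  refine ContinuousOn.mul ?_ ?_
  · refine hG.comp (f := fun z : ℝ × ℝ => z.1 / Real.cos z.2) ?_ (fun z hz => reg_div hz)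
    refine continuousOn_fst.div (by fun_prop) ?_
    intro z hz
    exact (cos_pos' hz.2.1).ne'
  · exact hw.comp continuousOn_snd (fun z hz => hz.2.1)

theorem loc_bound {M : ℝ} {Φ : ℝ × ℝ → ℝ} (hΦ : ContinuousOn Φ (Reg M)) {z₀ : ℝ × ℝ}
    (hz : z₀ ∈ Reg M) : ∃ C : ℝ, ∃ U : Set (ℝ × ℝ), IsOpen U ∧ z₀ ∈ U ∧ U ⊆ Reg M ∧
      ∀ z ∈ U, ∀ u ∈ Icc (0 : ℝ) 1, |Φ (z.1, z.2 * u)| ≤ C := by
  obtain ⟨K, hK, hzK, hKU⟩ := exists_compact_subset (isOpen_reg M) hz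
  have hc : IsCompact (K ×ˢ Icc (0 : ℝ) 1) := hK.prod isCompact_Icc
  have hcont : ContinuousOn (fun p : (ℝ × ℝ) × ℝ => Φ (p.1.1, p.1.2 * p.2))
      (K ×ˢ Icc (0 : ℝ) 1) := by
    refine hΦ.comp (f := fun p : (ℝ × ℝ) × ℝ => (p.1.1, p.1.2 * p.2)) (by fun_prop) ?_
    rintro ⟨⟨k, c⟩, u⟩ hp
    exact reg_mul (hKU hp.1) hp.2
  obtain ⟨C, hC⟩ := hc.exists_bound_of_continuousOn hcont
  refine ⟨C, interior K, isOpen_interior, hzK, interior_subset.trans hKU, ?_⟩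
  intro z hz u hu
  exact hC (z, u) ⟨interior_subset hz, hu⟩

/-- Continuity of the integral. -/
theorem cont_int {M : ℝ} {Φ : ℝ × ℝ → ℝ} (hΦ : ContinuousOn Φ (Reg M)) :
    ContinuousOn (fun z : ℝ × ℝ => ∫ τ in (0 : ℝ)..z.2, Φ (z.1, τ)) (Reg M) := by
  have e : (fun z : ℝ × ℝ => ∫ τ in (0 : ℝ)..z.2, Φ (z.1, τ)) =
      fun z : ℝ × ℝ => z.2 • ∫ u in (0 : ℝ)..1, Φ (z.1, z.2 * u) := by
    funext z
    have := intervalIntegral.smul_integral_comp_mul_left (a := 0) (b := 1)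
      (fun τ => Φ (z.1, τ)) z.2
    rw [this]
    simp
  rw [e]
  refine continuousOn_snd.smul ?_
  intro z₀ hz
  refine ContinuousAt.continuousWithinAt ?_
  obtain ⟨C, U, hU, hzU, hUR, hb⟩ := loc_bound hΦ hz
  have hev : ∀ᶠ z in 𝓝 z₀, z ∈ U := hU.mem_nhds hzU
  have hIcc : uIoc (0 : ℝ) 1 ⊆ Icc 0 1 := by
    rw [uIoc_of_le zero_le_one]
    exact Ioc_subset_Icc_self
  refine intervalIntegral.continuousAt_of_dominated_interval (bound := fun _ => C) ?_ ?_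
    intervalIntegrable_const ?_
  · filter_upwards [hev] with z hzz
    have : ContinuousOn (fun u => Φ (z.1, z.2 * u)) (Icc (0 : ℝ) 1) := by
      refine hΦ.comp (f := fun u : ℝ => (z.1, z.2 * u)) (by fun_prop) ?_
      intro u hu
      exact reg_mul (hUR hzz) hu
    exact (this.mono hIcc).aestronglyMeasurable measurableSet_uIoc
  · filter_upwards [hev] with z hzz
    exact Eventually.of_forall fun u hu => hb z hzz u (hIcc hu)
  · refine Eventually.of_forall fun u hu => ?_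
    have h1 : ContinuousAt Φ (z₀.1, z₀.2 * u) :=
      hΦ.continuousAt ((isOpen_reg M).mem_nhds (reg_mul hz (hIcc hu)))
    exact h1.comp (f := fun z : ℝ × ℝ => (z.1, z.2 * u)) (by fun_prop)

theorem intInt {M : ℝ} {Φ : ℝ × ℝ → ℝ} (hΦ : ContinuousOn Φ (Reg M)) {k c : ℝ}
    (h : (k, c) ∈ Reg M) : ContinuousOn (fun τ => Φ (k, τ)) (uIcc 0 c) := by
  refine hΦ.comp (f := fun τ : ℝ => (k, τ)) (by fun_prop) ?_
  intro τ hτ
  exact reg_uIcc h hτ

/-- Derivative with respect to the upper limit. -/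
theorem der_c {M : ℝ} {Φ : ℝ × ℝ → ℝ} (hΦ : ContinuousOn Φ (Reg M)) {k c : ℝ}
    (h : (k, c) ∈ Reg M) :
    HasDerivAt (fun c' => ∫ τ in (0 : ℝ)..c', Φ (k, τ)) (Φ (k, c)) c := by
  have hopen : IsOpen {τ : ℝ | (k, τ) ∈ Reg M} :=
    (isOpen_reg M).preimage (by fun_prop : Continuous fun τ : ℝ => (k, τ))
  have hcont : ContinuousOn (fun τ => Φ (k, τ)) {τ : ℝ | (k, τ) ∈ Reg M} :=
    hΦ.comp (f := fun τ : ℝ => (k, τ)) (by fun_prop) (fun τ hτ => hτ)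
  refine intervalIntegral.integral_hasDerivAt_right (intInt hΦ h).intervalIntegrable ?_ ?_
  · exact hcont.stronglyMeasurableAtFilter hopen c h
  · exact hcont.continuousAt (hopen.mem_nhds h)

/-- Derivative with respect to the parameter. -/
theorem der_k {M : ℝ} {Φ Ψ : ℝ × ℝ → ℝ} (hΦ : ContinuousOn Φ (Reg M))
    (hΨ : ContinuousOn Ψ (Reg M))
    (hd : ∀ z ∈ Reg M, HasDerivAt (fun k => Φ (k, z.2)) (Ψ z) z.1) {k c : ℝ}
    (h : (k, c) ∈ Reg M) :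
    HasDerivAt (fun k' => ∫ τ in (0 : ℝ)..c, Φ (k', τ)) (∫ τ in (0 : ℝ)..c, Ψ (k, τ)) k := by
  obtain ⟨C, U, hU, hzU, hUR, hb⟩ := loc_bound hΨ h
  have hs : {k' : ℝ | (k', c) ∈ U} ∈ 𝓝 k :=
    (hU.preimage (by fun_prop : Continuous fun k' : ℝ => (k', c))).mem_nhds hzU
  have hsub : uIoc (0 : ℝ) c ⊆ uIcc 0 c := uIoc_subset_uIcc
  refine (intervalIntegral.hasDerivAt_integral_of_dominated_loc_of_deriv_le
    (F := fun k' τ => Φ (k', τ)) (F' := fun k' τ => Ψ (k', τ)) (bound := fun _ => C) hs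
    ?_ (intInt hΦ h).intervalIntegrable ?_ ?_ intervalIntegrable_const ?_).2
  · filter_upwards [hs] with k' hk'
    exact ((intInt hΦ (hUR hk')).mono hsub).aestronglyMeasurable measurableSet_uIoc
  · exact ((intInt hΨ h).mono hsub).aestronglyMeasurable measurableSet_uIoc
  · refine Eventually.of_forall fun τ hτ k' hk' => ?_
    obtain ⟨u, hu, rfl⟩ := exists_mul (hsub hτ)
    exact hb (k', c) hk' u hu
  · refine Eventually.of_forall fun τ hτ k' hk' => ?_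
    exact hd (k', τ) (reg_uIcc (hUR hk') (hsub hτ))

/-- The chain rule. -/
theorem der_main {M : ℝ} {Φ Ψ : ℝ × ℝ → ℝ} (hΦ : ContinuousOn Φ (Reg M))
    (hΨ : ContinuousOn Ψ (Reg M))
    (hd : ∀ z ∈ Reg M, HasDerivAt (fun k => Φ (k, z.2)) (Ψ z) z.1) (k χ : ℝ → ℝ) (k' χ' t : ℝ)
    (hk : HasDerivAt k k' t) (hχ : HasDerivAt χ χ' t) (h : (k t, χ t) ∈ Reg M) :
    HasDerivAt (fun s => ∫ τ in (0 : ℝ)..(χ s), Φ (k s, τ))
      (Φ (k t, χ t) * χ' + k' * ∫ τ in (0 : ℝ)..(χ t), Ψ (k t, τ)) t := by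
  have hnb : ∀ᶠ v in 𝓝 (k t, χ t), v ∈ Reg M := (isOpen_reg M).mem_nhds h
  have hst := hasStrictFDerivAt_uncurry_coprod (𝕜 := ℝ) (u := (k t, χ t))
    (f := fun a b : ℝ => ∫ τ in (0 : ℝ)..b, Φ (a, τ))
    (f₁ := fun a b : ℝ => (∫ τ in (0 : ℝ)..b, Ψ (a, τ)) • (1 : ℝ →L[ℝ] ℝ))
    (f₂ := fun a b : ℝ => Φ (a, b) • (1 : ℝ →L[ℝ] ℝ)) ?_ ?_ ?_ ?_
  · have hcomp := hst.hasFDerivAt.comp_hasDerivAt t (hk.prodMk hχ)
    refine (hcomp.congr_deriv ?_)
    simp [Function.HasUncurry.uncurry]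
    ring
  · filter_upwards [hnb] with v hv
    have h1 := (der_k hΦ hΨ hd (k := v.1) (c := v.2) hv).hasFDerivAt
    refine h1.congr_fderiv ?_
    ext
    simp [Function.HasUncurry.uncurry]
  · filter_upwards [hnb] with v hv
    have h1 := (der_c hΦ (k := v.1) (c := v.2) hv).hasFDerivAt
    refine h1.congr_fderiv ?_
    ext
    simp [Function.HasUncurry.uncurry]
  · have h1 := (cont_int hΨ).continuousAt ((isOpen_reg M).mem_nhds h)
    exact h1.smul continuousAt_const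
  · have h1 := hΦ.continuousAt ((isOpen_reg M).mem_nhds h)
    exact h1.smul continuousAt_const

end XDER3

open XDER3 in
theorem iDER3 : StDer3 := by
  intro M F w hF hw
  have hF0 : ContinuousOn F (Ioo 0 M) := hF.continuousOn
  have hF1 : ContinuousOn (deriv F) (Ioo 0 M) :=
    hF.continuousOn_deriv_of_isOpen isOpen_Ioo le_rfl
  have hΦ := cont_phi hF0 hw
  have hw1 : ContinuousOn (fun τ => w τ / Real.cos τ) (Ioo (-(Real.pi / 2)) (Real.pi / 2)) :=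
    hw.div (by fun_prop) (fun τ hτ => (cos_pos' hτ).ne')
  have hΨ0 := cont_phi hF1 hw1
  have hΨ : ContinuousOn (fun z : ℝ × ℝ => deriv F (z.1 / Real.cos z.2) / Real.cos z.2 * w z.2)
      (Reg M) := by
    refine hΨ0.congr fun z _ => ?_
    ring
  have hd : ∀ z ∈ Reg M, HasDerivAt (fun k => (fun z : ℝ × ℝ =>
      F (z.1 / Real.cos z.2) * w z.2) (k, z.2))
      ((fun z : ℝ × ℝ => deriv F (z.1 / Real.cos z.2) / Real.cos z.2 * w z.2) z) z.1 := by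
    intro z hz
    have h1 : HasDerivAt F (deriv F (z.1 / Real.cos z.2)) (z.1 / Real.cos z.2) :=
      ((hF.differentiableOn one_ne_zero).differentiableAt
        (isOpen_Ioo.mem_nhds (reg_div hz))).hasDerivAt
    have h2 : HasDerivAt (fun k : ℝ => k / Real.cos z.2) (1 / Real.cos z.2) z.1 :=
      (hasDerivAt_id z.1).div_const _
    have h3 := (h1.comp z.1 h2).mul_const (w z.2)
    refine h3.congr_deriv ?_
    simp only
    ring
  refine ⟨?_, cont_int hΦ, cont_int hΨ⟩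
  intro k χ k' χ' t hk hχ h
  exact der_main hΦ hΨ hd k χ k' χ' t hk hχ h

end Pool.Agent.Work.MP_02f065_gt.Cvx
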