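import Pool.Agent.Work.MP_02f065_gt.Cvx.Stmts6

/-!
MP_02f065_gt, block CVX6, item DET6: the determinant inequality.
-/

open MeasureTheory Set Filter Topology

noncomputable section

namespace Pool.Agent.Work.MP_02f065_gt.Cvx

open Pool.Agent.Work.MP_02f065_gt.RPn

namespace XDET6

theorem Gf_scale {n : ℕ} (hn : 1 ≤ n) {A b : ℝ} (hA : 0 < A) :
    Gf (fun c => (n : ℝ) * c ^ (n - 1)) A b =
      A ^ n * Gf (fun c => (n : ℝ) * c ^ (n - 1)) 1 (b / A) := by
  unfold Gf
  rw [← intervalIntegral.integral_const_mul]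
  refine intervalIntegral.integral_congr fun θ _ => ?_
  have h1 : max (A * Real.sin θ) (|b| * Real.cos θ) =
      A * max (1 * Real.sin θ) (|b / A| * Real.cos θ) := by
    rw [mul_max_of_nonneg _ _ hA.le, one_mul, abs_div, abs_of_pos hA]
    congr 1
    field_simp
  have h2 : A ^ n = A ^ (n - 1) * A := by
    rw [← pow_succ, Nat.sub_add_cancel hn]
  simp only [h1, h2, mul_pow, one_pow]
  ring

theorem cont {n : ℕ} {β : E (Fin n) → E (Fin n) → ℝ} (h : IsForm β) :
    Continuous (fun w : E (Fin n) => β w w) := by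
  let B : E (Fin n) →ₗ[ℝ] E (Fin n) →ₗ[ℝ] ℝ := LinearMap.mk₂ ℝ β h.add (fun s v w => by
    rw [h.smul, smul_eq_mul]) (fun v w w' => by rw [h.symm, h.add, h.symm w v, h.symm w' v])
    (fun s v w => by rw [h.symm, h.smul, h.symm w v, smul_eq_mul])
  let C : E (Fin n) →ₗ[ℝ] (E (Fin n) →L[ℝ] ℝ) :=
    (LinearMap.toContinuousLinearMap : (E (Fin n) →ₗ[ℝ] ℝ) ≃ₗ[ℝ] _).toLinearMap ∘ₗ B
  have hC : Continuous C := C.continuous_of_finiteDimensional
  have : (fun w : E (Fin n) => β w w) = fun w => C w w := by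
    funext w
    rfl
  rw [this]
  exact hC.clm_apply continuous_id

/-- The integrand. -/
def kk (n : ℕ) (u x : ℝ) : ℝ := (1 - 1 / Real.sqrt (1 + u ^ 2 * x) ^ n) / u ^ 2

theorem sq_ge {x : ℝ} (hx : 0 ≤ x) : 1 ≤ Real.sqrt (1 + x) := by
  rw [Real.one_le_sqrt]
  linarith

theorem kk_nonneg {n : ℕ} {u x : ℝ} (hx : 0 ≤ x) : 0 ≤ kk n u x := by
  unfold kk
  have h0 : 0 ≤ u ^ 2 * x := by positivity
  have h1 : 1 ≤ Real.sqrt (1 + u ^ 2 * x) ^ n := one_le_pow₀ (sq_ge h0)
  have h2 : 1 / Real.sqrt (1 + u ^ 2 * x) ^ n ≤ 1 := by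
    rw [div_le_one (by linarith)]
    exact h1
  have h3 : 0 ≤ 1 - 1 / Real.sqrt (1 + u ^ 2 * x) ^ n := by linarith
  positivity

theorem kk_le {n : ℕ} {u x : ℝ} (hu : u ≠ 0) (hx : 0 ≤ x) : kk n u x ≤ n * x := by
  unfold kk
  have hu2 : 0 < u ^ 2 := by positivity
  rw [div_le_iff₀ hu2]
  set y := u ^ 2 * x with hy
  have h0 : 0 ≤ y := by positivity
  have hs1 : 1 ≤ Real.sqrt (1 + y) := sq_ge h0
  have hs2 : Real.sqrt (1 + y) ≤ 1 + y := by
    rw [Real.sqrt_le_left (by linarith)]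
    nlinarith
  have h1 : 1 / Real.sqrt (1 + y) ^ n ≥ 1 - n * y := by
    have hp : 1 / Real.sqrt (1 + y) ^ n = (1 + (1 / Real.sqrt (1 + y) - 1)) ^ n := by
      rw [add_sub_cancel, div_pow, one_pow]
    have hb : 1 - y ≤ 1 / Real.sqrt (1 + y) := by
      rw [le_div_iff₀ (by linarith)]
      nlinarith
    have h2 : (-2 : ℝ) ≤ 1 / Real.sqrt (1 + y) - 1 := by
      have : 0 ≤ 1 / Real.sqrt (1 + y) := by positivity
      linarith
    have h3 := one_add_mul_le_pow h2 n
    rw [hp]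
    have h4 : (n : ℝ) * (1 / Real.sqrt (1 + y) - 1) ≥ (n : ℝ) * (- y) := by
      apply mul_le_mul_of_nonneg_left _ (by positivity)
      linarith
    linarith
  have : (n : ℝ) * x * u ^ 2 = n * y := by rw [hy]; ring
  rw [this]
  linarith

theorem kk_meas2 (n : ℕ) {S : Type} [MeasurableSpace S] {f : S → ℝ} (hf : Measurable f) :
    Measurable (fun z : S × ℝ => kk n z.2 (f z.1)) := by
  unfold kk
  have h2 : Measurable (fun z : S × ℝ => f z.1) := hf.comp measurable_fst
  have h3 : Measurable (fun z : S × ℝ => z.2) := measurable_snd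
  have h4 : Measurable (fun z : S × ℝ => z.2 ^ 2) := h3.pow_const 2
  have h5 := ((h4.mul h2).const_add 1).sqrt.pow_const n
  exact ((h5.const_div 1).const_sub 1).div h4

/-- The case `A = 1`. -/
theorem main1 (hA : StRa6) (hB : StRb6) (hC : StRc6) {n : ℕ}
    {β : E (Fin n) → E (Fin n) → ℝ} (hn : 1 ≤ n) (hβ : IsForm β) :
    smean (fun w : E (Fin n) => Gf (fun c => (n : ℝ) * c ^ (n - 1)) 1 (Real.sqrt (β w w))) ≤
      smean (fun _ : E (Fin n) => (1 : ℝ)) * Real.sqrt (fmat 1 β).det := by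
  set ν := (volume : Measure (E (Fin n))).toSphere with hν
  have hβc := cont hβ
  -- bound on the sphere
  obtain ⟨C, hCb⟩ := (isCompact_sphere (0 : E (Fin n)) 1).exists_bound_of_continuousOn
    hβc.continuousOn
  have hCb' : ∀ w : Metric.sphere (0 : E (Fin n)) 1, β w w ≤ C := fun w =>
    (le_abs_self _).trans (hCb w w.2)
  -- step 1
  have e1 : ∀ w : E (Fin n), Gf (fun c => (n : ℝ) * c ^ (n - 1)) 1 (Real.sqrt (β w w)) =
      1 + ∫ u in Ioc (0 : ℝ) 1, kk n u (β w w) := by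
    intro w
    rw [hA n _ hn (Real.sqrt_nonneg _), intervalIntegral.integral_of_le zero_le_one]
    simp only [Real.sq_sqrt (hβ.nonneg w)]
    rfl
  have hm1 : Measurable (fun w : Metric.sphere (0 : E (Fin n)) 1 =>
      β (w : E (Fin n)) (w : E (Fin n))) := hβc.measurable.comp measurable_subtype_coe
  have hmeas : Measurable (fun z : Metric.sphere (0 : E (Fin n)) 1 × ℝ =>
      kk n z.2 (β (z.1 : E (Fin n)) (z.1 : E (Fin n)))) :=
    kk_meas2 n hm1
  have hint0 : Integrable (fun z : Metric.sphere (0 : E (Fin n)) 1 × ℝ =>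
      kk n z.2 (β (z.1 : E (Fin n)) (z.1 : E (Fin n))))
      (ν.prod (volume.restrict (Ioc (0 : ℝ) 1))) := by
    have hae : AEStronglyMeasurable (fun z : Metric.sphere (0 : E (Fin n)) 1 × ℝ =>
      kk n z.2 (β (z.1 : E (Fin n)) (z.1 : E (Fin n))))
      (ν.prod (volume.restrict (Ioc (0 : ℝ) 1))) := hmeas.aestronglyMeasurable
    have h2 : ∀ᵐ z : Metric.sphere (0 : E (Fin n)) 1 × ℝ ∂(ν.prod (volume.restrict (Ioc (0 : ℝ) 1))),
        z.2 ∈ Ioc (0 : ℝ) 1 := by
      have h3 : ∀ᵐ u : ℝ ∂(volume.restrict (Ioc (0 : ℝ) 1)), u ∈ Ioc (0 : ℝ) 1 :=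
        ae_restrict_mem measurableSet_Ioc
      exact Measure.quasiMeasurePreserving_snd.ae h3
    refine Integrable.of_bound hae (n * C) ?_
    filter_upwards [h2] with z hz
    have hz0 : z.2 ≠ 0 := hz.1.ne'
    rw [Real.norm_of_nonneg (kk_nonneg (hβ.nonneg _))]
    refine (kk_le hz0 (hβ.nonneg _)).trans ?_
    exact mul_le_mul_of_nonneg_left (hCb' z.1) (by positivity)
  have hint : Integrable (Function.uncurry fun (w : Metric.sphere (0 : E (Fin n)) 1) (u : ℝ) =>
      kk n u (β (w : E (Fin n)) (w : E (Fin n)))) (ν.prod (volume.restrict (Ioc (0 : ℝ) 1))) :=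
    hint0
  -- step 2
  have e2 : smean (fun w : E (Fin n) =>
      Gf (fun c => (n : ℝ) * c ^ (n - 1)) 1 (Real.sqrt (β w w))) =
      smean (fun _ : E (Fin n) => (1 : ℝ)) +
        ∫ u in Ioc (0 : ℝ) 1, smean (fun w : E (Fin n) => kk n u (β w w)) := by
    simp only [e1]
    have h8 : Integrable (fun w : Metric.sphere (0 : E (Fin n)) 1 =>
        ∫ u in Ioc (0 : ℝ) 1, kk n u (β (w : E (Fin n)) (w : E (Fin n)))) ν :=
      hint.integral_prod_left
    have h9 : ∫ w : Metric.sphere (0 : E (Fin n)) 1, (1 +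
        ∫ u in Ioc (0 : ℝ) 1, kk n u (β (w : E (Fin n)) (w : E (Fin n)))) ∂ν =
        (∫ _w : Metric.sphere (0 : E (Fin n)) 1, (1 : ℝ) ∂ν) +
        ∫ w : Metric.sphere (0 : E (Fin n)) 1,
          (∫ u in Ioc (0 : ℝ) 1, kk n u (β (w : E (Fin n)) (w : E (Fin n)))) ∂ν :=
      integral_add (integrable_const _) h8
    have h10 : ∫ w : Metric.sphere (0 : E (Fin n)) 1,
          (∫ u in Ioc (0 : ℝ) 1, kk n u (β (w : E (Fin n)) (w : E (Fin n)))) ∂ν =
        ∫ u in Ioc (0 : ℝ) 1, (∫ w : Metric.sphere (0 : E (Fin n)) 1,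
          kk n u (β (w : E (Fin n)) (w : E (Fin n))) ∂ν) :=
      integral_integral_swap hint
    exact h9.trans (congrArg _ h10)
  -- step 3
  have e3 : ∀ u : ℝ, u ∈ Ioc (0 : ℝ) 1 → smean (fun w : E (Fin n) => kk n u (β w w)) =
      smean (fun _ : E (Fin n) => (1 : ℝ)) *
        ((1 - 1 / Real.sqrt (fmat 1 (fun v w => u ^ 2 * β v w)).det) / u ^ 2) := by
    intro u hu
    have hb := hB n β (u ^ 2) hn hβ (by positivity)
    have hi : Integrable (fun w : Metric.sphere (0 : E (Fin n)) 1 =>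
        1 / Real.sqrt (1 + u ^ 2 * β (w : E (Fin n)) (w : E (Fin n))) ^ n) ν := by
      have hm : Measurable (fun w : Metric.sphere (0 : E (Fin n)) 1 =>
          1 / Real.sqrt (1 + u ^ 2 * β (w : E (Fin n)) (w : E (Fin n))) ^ n) :=
        (((hm1.const_mul _).const_add _).sqrt.pow_const n).const_div 1
      refine Integrable.of_bound hm.aestronglyMeasurable 1 (Eventually.of_forall fun w => ?_)
      have h0 : 0 ≤ u ^ 2 * β (w : E (Fin n)) (w : E (Fin n)) :=
        mul_nonneg (by positivity) (hβ.nonneg _)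
      have h1 : 1 ≤ Real.sqrt (1 + u ^ 2 * β (w : E (Fin n)) (w : E (Fin n))) ^ n :=
        one_le_pow₀ (sq_ge h0)
      rw [Real.norm_of_nonneg (by positivity), div_le_one (by linarith)]
      exact h1
    unfold smean at hb ⊢
    unfold kk
    rw [integral_div, integral_sub (integrable_const _) hi, hb]
    ring
  have e4 : ∫ u in Ioc (0 : ℝ) 1, smean (fun w : E (Fin n) => kk n u (β w w)) =
      smean (fun _ : E (Fin n) => (1 : ℝ)) * ∫ u in (0 : ℝ)..1,
        (1 - 1 / Real.sqrt (fmat 1 (fun v w => u ^ 2 * β v w)).det) / u ^ 2 := by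
    rw [intervalIntegral.integral_of_le zero_le_one, ← integral_const_mul]
    exact setIntegral_congr_fun measurableSet_Ioc e3
  rw [e2, e4]
  have h5 := (hC n β hβ).2.2.2
  have hc0 : 0 ≤ smean (fun _ : E (Fin n) => (1 : ℝ)) := by
    unfold smean
    exact integral_nonneg fun _ => zero_le_one
  have h6 := mul_le_mul_of_nonneg_left h5 hc0
  linarith

end XDET6

open XDET6 in
theorem iDET6 (hA : StRa6) (hB : StRb6) (hC : StRc6) : StDet6 := by
  intro n β A hn hβ hA0
  set β' : E (Fin n) → E (Fin n) → ℝ := fun v w => (A ^ 2)⁻¹ * β v w with hβ'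
  have hA2 : 0 < A ^ 2 := by positivity
  have hf : IsForm β' := by
    refine ⟨fun v v' w => ?_, fun s v w => ?_, fun v w => ?_, fun v => ?_⟩
    · simp only [hβ']
      rw [hβ.add]
      ring
    · simp only [hβ']
      rw [hβ.smul]
      ring
    · simp only [hβ']
      rw [hβ.symm]
    · exact mul_nonneg (by positivity) (hβ.nonneg v)
  have h1 := main1 hA hB hC hn hf
  have e1 : ∀ w : E (Fin n), Gf (fun c => (n : ℝ) * c ^ (n - 1)) A (Real.sqrt (β w w)) =
      A ^ n * Gf (fun c => (n : ℝ) * c ^ (n - 1)) 1 (Real.sqrt (β' w w)) := by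
    intro w
    rw [Gf_scale hn hA0]
    congr 2
    simp only [hβ']
    rw [Real.sqrt_mul (by positivity), Real.sqrt_inv, Real.sqrt_sq hA0.le]
    field_simp
  have e2 : smean (fun w : E (Fin n) =>
      Gf (fun c => (n : ℝ) * c ^ (n - 1)) A (Real.sqrt (β w w))) = A ^ n *
      smean (fun w : E (Fin n) =>
        Gf (fun c => (n : ℝ) * c ^ (n - 1)) 1 (Real.sqrt (β' w w))) := by
    simp only [e1]
    unfold smean
    rw [integral_const_mul]
  have e3 : fmat A β = (A ^ 2) • fmat 1 β' := by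
    ext i j
    simp only [fmat, Matrix.of_apply, Matrix.smul_apply, smul_eq_mul, hβ', one_pow]
    split_ifs with h
    · field_simp
    · field_simp
      ring
  have e4 : Real.sqrt (fmat A β).det = A ^ n * Real.sqrt (fmat 1 β').det := by
    rw [e3, Matrix.det_smul, Fintype.card_fin, Real.sqrt_mul (by positivity)]
    congr 1
    rw [← pow_mul, mul_comm 2 n, pow_mul, Real.sqrt_sq (by positivity)]
  rw [e2, e4]
  calc A ^ n * smean (fun w : E (Fin n) =>
        Gf (fun c => (n : ℝ) * c ^ (n - 1)) 1 (Real.sqrt (β' w w)))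
      ≤ A ^ n * (smean (fun _ : E (Fin n) => (1 : ℝ)) * Real.sqrt (fmat 1 β').det) :=
        mul_le_mul_of_nonneg_left h1 (by positivity)
    _ = _ := by ring

end Pool.Agent.Work.MP_02f065_gt.Cvx
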