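import Pool.Agent.Work.MP_02f065_gt.Cvx.Stmts3

/-!
MP_02f065_gt, block CVX3, item DIS3: disintegration of the random frames.
-/

open MeasureTheory Set Filter Topology

noncomputable section

namespace Pool.Agent.Work.MP_02f065_gt.Cvx

open Pool.Agent.Work.MP_02f065_gt.RPn

namespace XDIS3

variable {ι : Type} [Fintype ι]

open Pointwise in
/-- A linear isometry preserves the measure of the sphere. -/
theorem mp (T : E ι →ₗᵢ[ℝ] E ι) (f : Metric.sphere (0 : E ι) 1 → Metric.sphere (0 : E ι) 1)
    (hf : ∀ y, (f y : E ι) = T y) :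
    MeasurePreserving f ((volume : Measure (E ι)).toSphere)
      ((volume : Measure (E ι)).toSphere) ∧ MeasurableEmbedding f := by
  have hc : Continuous f := by
    refine continuous_induced_rng.mpr ?_
    have : (Subtype.val ∘ f) = fun y : Metric.sphere (0 : E ι) 1 => T (y : E ι) := by
      funext y
      exact hf y
    rw [this]
    exact T.continuous.comp continuous_subtype_val
  have hinj : Function.Injective f := by
    intro y z h
    have h1 : T (y : E ι) = T (z : E ι) := by rw [← hf, ← hf, h]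
    exact Subtype.ext (T.injective h1)
  refine ⟨⟨hc.measurable, ?_⟩, (hc.isClosedEmbedding hinj).measurableEmbedding⟩
  ext s hs
  rw [Measure.map_apply hc.measurable hs, Measure.toSphere_apply' _ hs,
    Measure.toSphere_apply' _ (hc.measurable hs)]
  congr 1
  let Te : E ι ≃ₗᵢ[ℝ] E ι := T.toLinearIsometryEquiv rfl
  have hTe : ∀ x, Te x = T x := fun x => rfl
  have e : Ioo (0 : ℝ) 1 • ((↑) '' (f ⁻¹' s) : Set (E ι)) =
      Te ⁻¹' (Ioo (0 : ℝ) 1 • ((↑) '' s : Set (E ι))) := by
    ext z
    constructor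
    · rintro ⟨r, hr, w, ⟨y, hy, rfl⟩, rfl⟩
      refine ⟨r, hr, (f y : E ι), ⟨f y, hy, rfl⟩, ?_⟩
      change r • (f y : E ι) = T (r • (y : E ι))
      rw [hf, T.map_smul]
    · rintro ⟨r, hr, w, ⟨y, hy, rfl⟩, h⟩
      have h' : r • (y : E ι) = Te z := h
      have hn : ‖Te.symm (y : E ι)‖ = 1 := by
        rw [Te.symm.norm_map]
        exact mem_sphere_zero_iff_norm.mp y.2
      have hfy : f ⟨Te.symm (y : E ι), mem_sphere_zero_iff_norm.mpr hn⟩ = y := by
        apply Subtype.ext
        rw [hf]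
        exact Te.apply_symm_apply _
      refine ⟨r, hr, Te.symm (y : E ι),
        ⟨⟨Te.symm (y : E ι), mem_sphere_zero_iff_norm.mpr hn⟩, ?_, rfl⟩, ?_⟩
      · change f _ ∈ s
        rw [hfy]
        exact hy
      · change r • Te.symm (y : E ι) = z
        rw [← Te.symm.map_smul, h', Te.symm_apply_apply]
  rw [e]
  exact (LinearIsometryEquiv.measurePreserving Te).measure_preimage_emb
    Te.toHomeomorph.measurableEmbedding _

open Pointwise in
/-- Almost every point of the sphere is not a multiple of `x`. -/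
theorem ae_ne (x : E ι) (hd : 2 ≤ Fintype.card ι) :
    ∀ᵐ y : Metric.sphere (0 : E ι) 1 ∂((volume : Measure (E ι)).toSphere),
      tang x (y : E ι) ≠ 0 := by
  rw [ae_iff]
  have hset : {y : Metric.sphere (0 : E ι) 1 | ¬ tang x (y : E ι) ≠ 0} =
      {y : Metric.sphere (0 : E ι) 1 | tang x (y : E ι) = 0} := by
    ext y
    simp
  have hcont : Continuous fun y : Metric.sphere (0 : E ι) 1 => tang x (y : E ι) := by
    unfold tang
    fun_prop
  have hm : MeasurableSet {y : Metric.sphere (0 : E ι) 1 | tang x (y : E ι) = 0} :=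
    (isClosed_eq hcont continuous_const).measurableSet
  rw [hset, Measure.toSphere_apply' _ hm]
  have hsub : Ioo (0 : ℝ) 1 • ((↑) '' {y : Metric.sphere (0 : E ι) 1 | tang x (y : E ι) = 0} :
      Set (E ι)) ⊆ (Submodule.span ℝ {x} : Set (E ι)) := by
    rintro z ⟨r, hr, w, ⟨y, hy, rfl⟩, rfl⟩
    have hy' : tang x (y : E ι) = 0 := hy
    have h1 : (y : E ι) = (inner ℝ x (y : E ι)) • x := by
      unfold tang at hy'
      exact sub_eq_zero.mp hy'
    change r • (y : E ι) ∈ Submodule.span ℝ {x}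
    rw [h1]
    exact Submodule.smul_mem _ _ (Submodule.smul_mem _ _ (Submodule.mem_span_singleton_self x))
  have hne : Submodule.span ℝ {x} ≠ (⊤ : Submodule ℝ (E ι)) := by
    intro h
    have h1 : Module.finrank ℝ (Submodule.span ℝ {x}) ≤ 1 := by
      have := finrank_span_le_card (R := ℝ) ({x} : Set (E ι))
      simpa using this
    rw [h, finrank_top, finrank_euclideanSpace] at h1
    omega
  have h0 : (volume : Measure (E ι)) (Ioo (0 : ℝ) 1 •
      ((↑) '' {y : Metric.sphere (0 : E ι) 1 | tang x (y : E ι) = 0} : Set (E ι))) = 0 :=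
    measure_mono_null hsub (Measure.addHaar_submodule _ _ hne)
  rw [h0, mul_zero]

theorem on_nrm (x y : E ι) (hx : ‖x‖ = 1) (h : tang x y ≠ 0) : ON x (nrm x y) := by
  have hn : ‖tang x y‖ ≠ 0 := norm_ne_zero_iff.mpr h
  refine ⟨hx, ?_, ?_⟩
  · unfold nrm
    rw [norm_smul, norm_inv, norm_norm]
    exact inv_mul_cancel₀ hn
  · unfold nrm tang
    rw [inner_smul_right, inner_sub_right, inner_smul_right, real_inner_self_eq_norm_sq, hx]
    ring

theorem nrm_map (T : E ι →ₗᵢ[ℝ] E ι) (x y : E ι) : nrm (T x) (T y) = T (nrm x y) := by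
  have h : tang (T x) (T y) = T (tang x y) := by
    unfold tang
    rw [T.inner_map_map, T.map_sub, T.map_smul]
  unfold nrm
  rw [h, T.norm_map, T.map_smul]

theorem on_map (T : E ι →ₗᵢ[ℝ] E ι) (x v : E ι) (h : ON x v) : ON (T x) (T v) := by
  refine ⟨?_, ?_, ?_⟩
  · rw [T.norm_map]
    exact h.1
  · rw [T.norm_map]
    exact h.2.1
  · rw [T.inner_map_map]
    exact h.2.2

theorem closedON : IsClosed {z : E ι × E ι | ON z.1 z.2} := by
  have h1 : IsClosed {z : E ι × E ι | ‖z.1‖ = 1} := isClosed_eq (by fun_prop) continuous_const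
  have h2 : IsClosed {z : E ι × E ι | ‖z.2‖ = 1} := isClosed_eq (by fun_prop) continuous_const
  have h3 : IsClosed {z : E ι × E ι | inner ℝ z.1 z.2 = 0} :=
    isClosed_eq (by fun_prop) continuous_const
  exact h1.inter (h2.inter h3)

theorem compactON : IsCompact {z : E ι × E ι | ON z.1 z.2} := by
  refine Metric.isCompact_of_isClosed_isBounded closedON ?_
  refine (Metric.isBounded_closedBall (x := (0 : E ι × E ι)) (r := 1)).subset ?_
  intro z hz
  rw [mem_closedBall_zero_iff, Prod.norm_def]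
  exact max_le hz.1.le hz.2.1.le

/-- Joint measurability. -/
theorem meas2 {Ω : Type} [MeasurableSpace Ω]
    (A : Ω → (E ι →ₗᵢ[ℝ] E ι)) (meas : ∀ x : E ι, Measurable fun ω => A ω x)
    (g : Metric.sphere (0 : E ι) 1 → E ι) (hg : Measurable g) :
    Measurable fun z : Ω × Metric.sphere (0 : E ι) 1 => A z.1 (g z.2) := by
  classical
  have key : ∀ z : Ω × Metric.sphere (0 : E ι) 1, A z.1 (g z.2) =
      ∑ i, (g z.2) i • A z.1 (EuclideanSpace.single i (1 : ℝ)) := by
    intro z
    have h : g z.2 = ∑ i, (g z.2) i • (EuclideanSpace.single i (1 : ℝ) : E ι) := by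
      ext j
      simp [Finset.sum_apply, Pi.single_apply]
    conv_lhs => rw [h]
    rw [map_sum]
    refine Finset.sum_congr rfl fun i _ => ?_
    rw [map_smul]
  have e : (fun z : Ω × Metric.sphere (0 : E ι) 1 => A z.1 (g z.2)) =
      fun z => ∑ i, (g z.2) i • A z.1 (EuclideanSpace.single i (1 : ℝ)) := by
    ext1 z
    exact key z
  rw [e]
  refine Finset.measurable_sum _ fun i _ => ?_
  have hc : Continuous fun y : E ι => y i := by fun_prop
  have h1 : Measurable fun z : Ω × Metric.sphere (0 : E ι) 1 => (g z.2) i :=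
    hc.measurable.comp (hg.comp measurable_snd)
  have h2 : Measurable fun z : Ω × Metric.sphere (0 : E ι) 1 =>
      A z.1 (EuclideanSpace.single i (1 : ℝ)) := (meas _).comp measurable_fst
  exact h1.smul h2

theorem meas_nrm (x : E ι) :
    Measurable fun y : Metric.sphere (0 : E ι) 1 => nrm x (y : E ι) := by
  have hcont : Continuous fun y : Metric.sphere (0 : E ι) 1 => tang x (y : E ι) := by
    unfold tang
    fun_prop
  unfold nrm
  exact hcont.measurable.norm.inv.smul hcont.measurable

/-- Fubini. -/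
theorem core {Ω : Type} [MeasurableSpace Ω] (μ : Measure Ω)
    [IsProbabilityMeasure μ] (A : Ω → (E ι →ₗᵢ[ℝ] E ι))
    (meas : ∀ x : E ι, Measurable fun ω => A ω x) (H : E ι × E ι → ℝ)
    (hH : ContinuousOn H {z | ON z.1 z.2}) (hd : 2 ≤ Fintype.card ι) (x : E ι) (hx : ‖x‖ = 1)
    (m : ℝ) (hm : ∀ w : E ι, ON x w → ∫ ω, H (A ω x, A ω w) ∂μ = m) :
    (∫ _y : Metric.sphere (0 : E ι) 1, (1 : ℝ) ∂((volume : Measure (E ι)).toSphere)) * m =
      ∫ ω, ∫ y : Metric.sphere (0 : E ι) 1, H (A ω x, nrm (A ω x) y)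
        ∂((volume : Measure (E ι)).toSphere) ∂μ := by
  classical
  set σ : Measure (Metric.sphere (0 : E ι) 1) := (volume : Measure (E ι)).toSphere with hσ
  set S : Set (E ι × E ι) := {z | ON z.1 z.2} with hS
  have hSm : MeasurableSet S := closedON.measurableSet
  obtain ⟨C, hC⟩ := (compactON (ι := ι)).exists_bound_of_continuousOn hH
  set H' : E ι × E ι → ℝ := S.piecewise H (fun _ => 0) with hH'
  have hH'm : Measurable H' :=
    ContinuousOn.measurable_piecewise hH continuous_const.continuousOn hSm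
  have hH'e : ∀ z ∈ S, H' z = H z := fun z hz => Set.piecewise_eq_of_mem _ _ _ hz
  have hH'b : ∀ z, ‖H' z‖ ≤ |C| := by
    intro z
    by_cases hz : z ∈ S
    · rw [hH'e z hz]
      exact (hC z hz).trans (le_abs_self C)
    · rw [hH', Set.piecewise_eq_of_notMem _ _ _ hz, norm_zero]
      exact abs_nonneg C
  -- change of variables in the inner integral
  have h1 : ∀ ω, ∫ y : Metric.sphere (0 : E ι) 1, H (A ω x, nrm (A ω x) y) ∂σ =
      ∫ y : Metric.sphere (0 : E ι) 1, H' (A ω x, A ω (nrm x y)) ∂σ := by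
    intro ω
    let f : Metric.sphere (0 : E ι) 1 → Metric.sphere (0 : E ι) 1 := fun y =>
      ⟨A ω (y : E ι), by
        rw [mem_sphere_zero_iff_norm, LinearIsometry.norm_map]
        exact mem_sphere_zero_iff_norm.mp y.2⟩
    obtain ⟨hmp, hme⟩ := mp (A ω) f (fun y => rfl)
    rw [← hmp.integral_comp hme (fun y : Metric.sphere (0 : E ι) 1 =>
      H (A ω x, nrm (A ω x) (y : E ι)))]
    refine integral_congr_ae ?_
    filter_upwards [ae_ne x hd] with y hy
    change H (A ω x, nrm (A ω x) (A ω (y : E ι))) = H' (A ω x, A ω (nrm x y))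
    rw [nrm_map, hH'e]
    exact on_map (A ω) x _ (on_nrm x y hx hy)
  have hmeas : Measurable fun z : Ω × Metric.sphere (0 : E ι) 1 =>
      H' (A z.1 x, A z.1 (nrm x (z.2 : E ι))) :=
    hH'm.comp (((meas x).comp measurable_fst).prodMk
      (meas2 A meas (fun y => nrm x (y : E ι)) (meas_nrm x)))
  have hint : Integrable (Function.uncurry fun (ω : Ω) (y : Metric.sphere (0 : E ι) 1) =>
      H' (A ω x, A ω (nrm x (y : E ι)))) (μ.prod σ) :=
    Integrable.of_bound hmeas.aestronglyMeasurable |C| (Eventually.of_forall fun z => hH'b _)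
  have hsw := integral_integral_swap hint
  have h2 : ∫ y : Metric.sphere (0 : E ι) 1, ∫ ω, H' (A ω x, A ω (nrm x (y : E ι))) ∂μ ∂σ =
      ∫ _y : Metric.sphere (0 : E ι) 1, m ∂σ := by
    refine integral_congr_ae ?_
    filter_upwards [ae_ne x hd] with y hy
    have hon := on_nrm x (y : E ι) hx hy
    rw [← hm _ hon]
    refine integral_congr_ae (Eventually.of_forall fun ω => ?_)
    exact hH'e _ (on_map (A ω) x _ hon)
  simp only [h1]
  rw [hsw, h2, integral_const, integral_const]
  simp

end XDIS3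

theorem iDIS3 : StDis3 := by
  intro Q hQ Fr H hH x v hxv
  let _ := Fr.ms
  have := Fr.prob
  refine XDIS3.core Fr.μ Fr.A Fr.meas H hH ?_ x hxv.1 _ ?_
  · simp [Ix]
    omega
  · intro w hw
    exact Fr.inv H hH x w x v hw hxv

end Pool.Agent.Work.MP_02f065_gt.Cvx
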