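import Pool.Agent.Work.MP_02f065_gt.Cvx.Stmts6
import Pool.Agent.Work.MP_02f065_gt.Cvx.I_DIS3

/-!
MP_02f065_gt, block CVX6, item DIS6: disintegration of the random frames in a tangent space.
-/

open MeasureTheory Set Filter Topology

noncomputable section

namespace Pool.Agent.Work.MP_02f065_gt.Cvx

open Pool.Agent.Work.MP_02f065_gt.RPn

namespace XDIS6

/-- Joint measurability. -/
theorem meas2 {ι κ Ω : Type} [Fintype ι] [Fintype κ] [MeasurableSpace Ω]
    (A : Ω → (E ι →ₗᵢ[ℝ] E ι)) (meas : ∀ x : E ι, Measurable fun ω => A ω x)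
    (g : Metric.sphere (0 : E κ) 1 → E ι) (hg : Measurable g) :
    Measurable fun z : Ω × Metric.sphere (0 : E κ) 1 => A z.1 (g z.2) := by
  classical
  have key : ∀ z : Ω × Metric.sphere (0 : E κ) 1, A z.1 (g z.2) =
      ∑ i, (g z.2) i • A z.1 (EuclideanSpace.single i (1 : ℝ)) := by
    intro z
    have h : g z.2 = ∑ i, (g z.2) i • (EuclideanSpace.single i (1 : ℝ) : E ι) := by
      ext j
      simp [Finset.sum_apply, Pi.single_apply]
    conv_lhs => rw [h]
    rw [map_sum]
    refine Finset.sum_congr rfl fun i _ => ?_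
    rw [map_smul]
  have e : (fun z : Ω × Metric.sphere (0 : E κ) 1 => A z.1 (g z.2)) =
      fun z => ∑ i, (g z.2) i • A z.1 (EuclideanSpace.single i (1 : ℝ)) := by
    ext1 z
    exact key z
  rw [e]
  refine Finset.measurable_sum _ fun i _ => ?_
  have hc : Continuous fun y : E ι => y i := by fun_prop
  have h1 : Measurable fun z : Ω × Metric.sphere (0 : E κ) 1 => (g z.2) i :=
    hc.measurable.comp (hg.comp measurable_snd)
  have h2 : Measurable fun z : Ω × Metric.sphere (0 : E κ) 1 =>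
      A z.1 (EuclideanSpace.single i (1 : ℝ)) := (meas _).comp measurable_fst
  exact h1.smul h2

/-- Fubini. -/
theorem core {ι κ Ω : Type} [Fintype ι] [Fintype κ] [MeasurableSpace Ω] (μ : Measure Ω)
    [IsProbabilityMeasure μ] (A : Ω → (E ι →ₗᵢ[ℝ] E ι))
    (meas : ∀ x : E ι, Measurable fun ω => A ω x) (H : E ι × E ι → ℝ)
    (hH : ContinuousOn H {z | ON z.1 z.2}) (x : E ι) (J : E κ →ₗᵢ[ℝ] E ι)
    (hJ : ∀ w : Metric.sphere (0 : E κ) 1, ON x (J (w : E κ)))
    (m : ℝ) (hm : ∀ w : E ι, ON x w → ∫ ω, H (A ω x, A ω w) ∂μ = m) :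
    (∫ _y : Metric.sphere (0 : E κ) 1, (1 : ℝ) ∂((volume : Measure (E κ)).toSphere)) * m =
      ∫ ω, ∫ y : Metric.sphere (0 : E κ) 1, H (A ω x, A ω (J y))
        ∂((volume : Measure (E κ)).toSphere) ∂μ := by
  classical
  set σ : Measure (Metric.sphere (0 : E κ) 1) := (volume : Measure (E κ)).toSphere with hσ
  set S : Set (E ι × E ι) := {z | ON z.1 z.2} with hS
  have hSm : MeasurableSet S := XDIS3.closedON.measurableSet
  obtain ⟨C, hC⟩ := (XDIS3.compactON (ι := ι)).exists_bound_of_continuousOn hH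
  set H' : E ι × E ι → ℝ := S.piecewise H (fun _ => 0) with hH'
  have hH'm : Measurable H' :=
    ContinuousOn.measurable_piecewise hH continuous_const.continuousOn hSm
  have hH'e : ∀ z ∈ S, H' z = H z := fun z hz => Set.piecewise_eq_of_mem _ _ _ hz
  have hH'b : ∀ z, ‖H' z‖ ≤ |C| := by
    intro z
    by_cases hz : z ∈ S
    · rw [hH'e z hz]
      exact (hC z hz).trans (le_abs_self C)
    · rw [hH', Set.piecewise_eq_of_notMem _ _ _ hz, norm_zero]
      exact abs_nonneg C
  have h1 : ∀ ω, ∫ y : Metric.sphere (0 : E κ) 1, H (A ω x, A ω (J y)) ∂σ =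
      ∫ y : Metric.sphere (0 : E κ) 1, H' (A ω x, A ω (J y)) ∂σ := by
    intro ω
    refine integral_congr_ae (Eventually.of_forall fun y => ?_)
    have hz : (A ω x, A ω (J (y : E κ))) ∈ S := XDIS3.on_map (A ω) x (J (y : E κ)) (hJ y)
    change H (A ω x, A ω (J (y : E κ))) = H' (A ω x, A ω (J (y : E κ)))
    rw [hH'e _ hz]
  have hJm : Measurable fun y : Metric.sphere (0 : E κ) 1 => J (y : E κ) :=
    (J.continuous.comp continuous_subtype_val).measurable
  have hmeas : Measurable fun z : Ω × Metric.sphere (0 : E κ) 1 =>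
      H' (A z.1 x, A z.1 (J (z.2 : E κ))) :=
    hH'm.comp (((meas x).comp measurable_fst).prodMk
      (meas2 A meas (fun y : Metric.sphere (0 : E κ) 1 => J (y : E κ)) hJm))
  have hint : Integrable (Function.uncurry fun (ω : Ω) (y : Metric.sphere (0 : E κ) 1) =>
      H' (A ω x, A ω (J (y : E κ)))) (μ.prod σ) :=
    Integrable.of_bound hmeas.aestronglyMeasurable |C| (Eventually.of_forall fun z => hH'b _)
  have hsw := integral_integral_swap hint
  have h2 : ∫ y : Metric.sphere (0 : E κ) 1, ∫ ω, H' (A ω x, A ω (J (y : E κ))) ∂μ ∂σ =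
      ∫ _y : Metric.sphere (0 : E κ) 1, m ∂σ := by
    refine integral_congr_ae (Eventually.of_forall fun y => ?_)
    change ∫ ω, H' (A ω x, A ω (J (y : E κ))) ∂μ = m
    rw [← hm _ (hJ y)]
    refine integral_congr_ae (Eventually.of_forall fun ω => ?_)
    have hz : (A ω x, A ω (J (y : E κ))) ∈ S := XDIS3.on_map (A ω) x (J (y : E κ)) (hJ y)
    change H' (A ω x, A ω (J (y : E κ))) = H (A ω x, A ω (J (y : E κ)))
    rw [hH'e _ hz]
  simp only [h1]
  rw [hsw, h2, integral_const, integral_const]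
  simp

end XDIS6

theorem iDIS6 : StDis6 := by
  intro Q hQ Fr H hH x v J hxv hJ
  let _ := Fr.ms
  have := Fr.prob
  refine XDIS6.core Fr.μ Fr.A Fr.meas H hH x J ?_ _ ?_
  · intro w
    refine ⟨hxv.1, ?_, hJ _⟩
    rw [J.norm_map]
    exact mem_sphere_zero_iff_norm.mp w.2
  · intro w hw
    exact Fr.inv H hH x w x v hw hxv

end Pool.Agent.Work.MP_02f065_gt.Cvx
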