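import Pool.Agent.Work.MP_02f065_gt.Cvx.Stmts6

/-!
MP_02f065_gt, block CVX6, item RB6: the mean of `<Mw,w>^(-n/2)` over the unit sphere.
-/

open MeasureTheory Set Filter Topology

noncomputable section

namespace Pool.Agent.Work.MP_02f065_gt.Cvx

open Pool.Agent.Work.MP_02f065_gt.RPn

namespace XRB6

theorem radial_int (k : ℕ) (f : ℝ → ℝ) :
    ∫ r : Ioi (0 : ℝ), f r ∂(Measure.volumeIoiPow k) = ∫ r in Ioi (0 : ℝ), r ^ k * f r := by
  simp only [Measure.volumeIoiPow, ENNReal.ofReal]
  rw [integral_withDensity_eq_integral_smul,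
    integral_subtype_comap measurableSet_Ioi fun a ↦ Real.toNNReal (a ^ k) • f a,
    setIntegral_congr_fun measurableSet_Ioi fun x hx ↦ ?_]
  · rw [NNReal.smul_def, Real.coe_toNNReal _ (pow_nonneg hx.out.le _), smul_eq_mul]
  · exact (measurable_subtype_coe.pow_const _).real_toNNReal

theorem radial_integrable (k : ℕ) (f : ℝ → ℝ)
    (hf : IntegrableOn (fun r => r ^ k * f r) (Ioi (0 : ℝ))) :
    Integrable (fun r : Ioi (0 : ℝ) => f r) (Measure.volumeIoiPow k) := by
  rw [Measure.volumeIoiPow, integrable_withDensity_iff_integrable_smul']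
  · rw [integrableOn_iff_comap_subtypeVal measurableSet_Ioi] at hf
    refine hf.congr (Filter.Eventually.of_forall ?_)
    rintro ⟨x, hx : 0 < x⟩
    simp (disch := positivity) [ENNReal.toReal_ofReal]
  · fun_prop
  · simp

theorem gauss_int (k : ℕ) :
    IntegrableOn (fun r : ℝ => r ^ k * Real.exp (-r ^ 2)) (Ioi 0) := by
  have h := integrableOn_rpow_mul_exp_neg_rpow (p := 2) (s := k)
    (by have : (0 : ℝ) ≤ k := Nat.cast_nonneg k
        linarith) (by norm_num)
  refine h.congr_fun (fun x _ => ?_) measurableSet_Ioi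
  have e3 : x ^ (k : ℝ) = x ^ k := Real.rpow_natCast x k
  have e2 : x ^ (2 : ℝ) = x ^ 2 := by
    rw [show (2 : ℝ) = ((2 : ℕ) : ℝ) by norm_num, Real.rpow_natCast]
  simp only [e3, e2]

/-- the radial constant -/
def kap (k : ℕ) : ℝ := ∫ r in Ioi (0 : ℝ), r ^ k * Real.exp (-r ^ 2)

theorem kap_pos (k : ℕ) : 0 < kap k := by
  unfold kap
  rw [setIntegral_pos_iff_support_of_nonneg_ae _ (gauss_int k)]
  · have : Ioi (0 : ℝ) ⊆ Function.support (fun r : ℝ => r ^ k * Real.exp (-r ^ 2)) ∩ Ioi 0 := by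
      intro x hx
      refine ⟨?_, hx⟩
      have hx' : (0 : ℝ) < x := hx
      exact (mul_pos (pow_pos hx' k) (Real.exp_pos _)).ne'
    refine lt_of_lt_of_le ?_ (measure_mono this)
    rw [Real.volume_Ioi]
    exact ENNReal.zero_lt_top
  · refine (ae_restrict_iff' measurableSet_Ioi).2 (Filter.Eventually.of_forall ?_)
    intro x hx
    have hx' : (0 : ℝ) < x := hx
    exact (mul_pos (pow_pos hx' k) (Real.exp_pos _)).le

theorem radial_scale (k : ℕ) (q : ℝ) (hq : 0 < q) :
    ∫ r in Ioi (0 : ℝ), r ^ k * Real.exp (-(r ^ 2 * q)) =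
      (1 / Real.sqrt q ^ (k + 1)) * kap k := by
  have hs : 0 < Real.sqrt q := Real.sqrt_pos.2 hq
  have h := integral_comp_mul_left_Ioi (fun t : ℝ => t ^ k * Real.exp (-t ^ 2)) 0 hs
  rw [mul_zero] at h
  have h2 : ∫ x in Ioi (0 : ℝ), (Real.sqrt q * x) ^ k * Real.exp (-(Real.sqrt q * x) ^ 2) =
      Real.sqrt q ^ k * ∫ r in Ioi (0 : ℝ), r ^ k * Real.exp (-(r ^ 2 * q)) := by
    rw [← integral_const_mul]
    refine setIntegral_congr_fun measurableSet_Ioi fun x _ => ?_
    have e : (Real.sqrt q * x) ^ 2 = x ^ 2 * q := by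
      rw [mul_pow, Real.sq_sqrt hq.le]; ring
    simp only [e, mul_pow]
    ring
  rw [h2, smul_eq_mul] at h
  have hk : Real.sqrt q ^ k ≠ 0 := (pow_pos hs k).ne'
  have hk0 : Real.sqrt q ≠ 0 := hs.ne'
  unfold kap
  rw [pow_succ]
  field_simp
  field_simp at h
  linarith

theorem polar (n : ℕ) (hn : 1 ≤ n) (q : E (Fin n) → ℝ) (hqc : Continuous q)
    (hq1 : ∀ w, ‖w‖ = 1 → 1 ≤ q w) (hom : ∀ (r : ℝ) (w : E (Fin n)), q (r • w) = r ^ 2 * q w) :
    ∫ x, Real.exp (-q x) = smean (fun w => 1 / Real.sqrt (q w) ^ n) * kap (n - 1) := by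
  have : Nonempty (Fin n) := ⟨⟨0, by omega⟩⟩
  have : Nontrivial (E (Fin n)) := inferInstance
  have hd : Module.finrank ℝ (E (Fin n)) - 1 = n - 1 := by simp
  have hrad := radial_integrable (n - 1) (fun r => Real.exp (-r ^ 2)) (gauss_int (n - 1))
  have hcont : Continuous (fun z : Metric.sphere (0 : E (Fin n)) 1 × Ioi (0 : ℝ) =>
      Real.exp (-((z.2 : ℝ) ^ 2 * q z.1))) := by fun_prop
  have hint : Integrable (fun z : Metric.sphere (0 : E (Fin n)) 1 × Ioi (0 : ℝ) =>
      Real.exp (-((z.2 : ℝ) ^ 2 * q z.1)))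
      ((volume : Measure (E (Fin n))).toSphere.prod (Measure.volumeIoiPow (n - 1))) := by
    have h1 : Integrable (fun z : Metric.sphere (0 : E (Fin n)) 1 × Ioi (0 : ℝ) =>
        (1 : ℝ) * Real.exp (-(z.2 : ℝ) ^ 2))
        ((volume : Measure (E (Fin n))).toSphere.prod (Measure.volumeIoiPow (n - 1))) :=
      (integrable_const (1 : ℝ)).mul_prod hrad
    refine h1.mono hcont.aestronglyMeasurable (Filter.Eventually.of_forall fun z => ?_)
    rw [Real.norm_eq_abs, Real.norm_eq_abs, abs_of_pos (Real.exp_pos _), one_mul,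
      abs_of_pos (Real.exp_pos _)]
    refine Real.exp_le_exp.2 ?_
    have h2 : 1 ≤ q z.1 := hq1 _ (by simp)
    nlinarith [sq_nonneg (z.2 : ℝ)]
  calc ∫ x, Real.exp (-q x)
      = ∫ x : ({(0)}ᶜ : Set (E (Fin n))), Real.exp (-q x.1)
          ∂((volume : Measure (E (Fin n))).comap (↑)) := by
        rw [integral_subtype_comap (measurableSet_singleton _).compl
          fun x : E (Fin n) ↦ Real.exp (-q x), restrict_compl_singleton]
    _ = ∫ z : Metric.sphere (0 : E (Fin n)) 1 × Ioi (0 : ℝ), Real.exp (-((z.2 : ℝ) ^ 2 * q z.1))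
          ∂(volume : Measure (E (Fin n))).toSphere.prod
            (.volumeIoiPow (Module.finrank ℝ (E (Fin n)) - 1)) := by
        have := (volume : Measure (E (Fin n))).measurePreserving_homeomorphUnitSphereProd.integral_comp
          (Homeomorph.measurableEmbedding _)
          (fun z : Metric.sphere (0 : E (Fin n)) 1 × Ioi (0 : ℝ) =>
            Real.exp (-((z.2 : ℝ) ^ 2 * q z.1)))
        rw [← this]
        refine integral_congr_ae (Filter.Eventually.of_forall fun x => ?_)
        have hx : ‖(x : E (Fin n))‖ ≠ 0 := norm_ne_zero_iff.2 x.2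
        have e : q x.1 = ‖(x : E (Fin n))‖ ^ 2 * q (‖(x : E (Fin n))‖⁻¹ • (x : E (Fin n))) := by
          rw [← hom, smul_smul, mul_inv_cancel₀ hx, one_smul]
        simp only [homeomorphUnitSphereProd_apply_fst_coe, homeomorphUnitSphereProd_apply_snd_coe]
        rw [e]
    _ = ∫ w : Metric.sphere (0 : E (Fin n)) 1, (∫ r : Ioi (0 : ℝ),
          Real.exp (-((r : ℝ) ^ 2 * q w)) ∂(Measure.volumeIoiPow (n - 1)))
          ∂((volume : Measure (E (Fin n))).toSphere) := by
        rw [hd]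
        exact integral_prod _ hint
    _ = ∫ w : Metric.sphere (0 : E (Fin n)) 1, (1 / Real.sqrt (q w) ^ n) * kap (n - 1)
          ∂((volume : Measure (E (Fin n))).toSphere) := by
        refine integral_congr_ae (Filter.Eventually.of_forall fun w => ?_)
        have h2 : 1 ≤ q w := hq1 _ (by simp)
        have h3 := radial_int (n - 1) (fun r => Real.exp (-(r ^ 2 * q w)))
        simp only
        rw [h3, radial_scale (n - 1) (q w) (by linarith), Nat.sub_add_cancel hn]
    _ = _ := by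
        rw [integral_mul_const]
        rfl

/-- the bilinear map of a form -/
def bil {n : ℕ} {β : E (Fin n) → E (Fin n) → ℝ} (h : IsForm β) :
    E (Fin n) →ₗ[ℝ] E (Fin n) →ₗ[ℝ] ℝ :=
  LinearMap.mk₂ ℝ β h.add (fun c v w => by rw [h.smul]; rfl)
    (fun v w w' => by rw [h.symm, h.add, h.symm w v, h.symm w' v])
    (fun c v w => by rw [h.symm, h.smul, h.symm w v]; rfl)

theorem bil_apply {n : ℕ} {β : E (Fin n) → E (Fin n) → ℝ} (h : IsForm β) (v w : E (Fin n)) :
    bil h v w = β v w := rfl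

theorem form_sum {n : ℕ} {β : E (Fin n) → E (Fin n) → ℝ} (h : IsForm β) (x : E (Fin n)) :
    β x x = ∑ i, ∑ j, x i * x j *
      β (EuclideanSpace.single i 1) (EuclideanSpace.single j 1) := by
  have hx : x = ∑ i, x i • (EuclideanSpace.single i 1 : E (Fin n)) := by
    have := (EuclideanSpace.basisFun (Fin n) ℝ).sum_repr x
    simpa using this.symm
  have h1 : β x x = bil h x x := rfl
  rw [h1]
  conv_lhs => rw [hx]
  simp only [map_sum, LinearMap.sum_apply, map_smul, LinearMap.smul_apply, smul_eq_mul, bil_apply,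
    Finset.mul_sum]
  rw [Finset.sum_comm]
  refine Finset.sum_congr rfl fun i _ => Finset.sum_congr rfl fun j _ => ?_
  ring

theorem fmat_quad {n : ℕ} {β : E (Fin n) → E (Fin n) → ℝ} (h : IsForm β) (s : ℝ)
    (x : E (Fin n)) : (x.ofLp) ⬝ᵥ ((fmat 1 (fun v w => s * β v w)).mulVec x.ofLp) =
      ‖x‖ ^ 2 + s * β x x := by
  rw [EuclideanSpace.norm_sq_eq, form_sum h x]
  simp only [dotProduct, Matrix.mulVec, fmat, Matrix.of_apply, Real.norm_eq_abs, sq_abs, one_pow]
  rw [Finset.mul_sum, ← Finset.sum_add_distrib]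
  refine Finset.sum_congr rfl fun i _ => ?_
  simp only [add_mul, ite_mul, one_mul, zero_mul, Finset.sum_add_distrib, Finset.sum_ite_eq,
    Finset.mem_univ, if_true, mul_add, Finset.mul_sum]
  congr 1
  · ring
  · refine Finset.sum_congr rfl fun j _ => ?_
    ring

theorem fmat_symm {n : ℕ} {β : E (Fin n) → E (Fin n) → ℝ} (h : IsForm β) (s : ℝ) :
    (fmat 1 (fun v w => s * β v w)).IsHermitian := by
  ext i j
  simp only [fmat, Matrix.conjTranspose_apply, Matrix.of_apply, star_trivial, eq_comm (a := j)]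
  rw [h.symm]

theorem fmat_psd {n : ℕ} {β : E (Fin n) → E (Fin n) → ℝ} (h : IsForm β) (s : ℝ) (hs : 0 ≤ s) :
    (fmat 1 (fun v w => s * β v w)).PosSemidef := by
  refine Matrix.PosSemidef.of_dotProduct_mulVec_nonneg (fmat_symm h s) fun x => ?_
  have := fmat_quad h s (WithLp.toLp 2 x)
  simp only [star_trivial]
  rw [this]
  have := h.nonneg (WithLp.toLp 2 x)
  positivity

open scoped MatrixOrder in
theorem exists_root {n : ℕ} {A : Matrix (Fin n) (Fin n) ℝ} (hA : A.PosSemidef) :
    ∃ B : Matrix (Fin n) (Fin n) ℝ, A = B.conjTranspose * B := by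
  obtain ⟨B, hB⟩ := CStarAlgebra.nonneg_iff_eq_star_mul_self.mp hA.nonneg
  exact ⟨B, hB⟩

end XRB6

open XRB6

theorem iRB6 : StRb6 := by
  intro n β s hn hβ hs
  have : Nonempty (Fin n) := ⟨⟨0, by omega⟩⟩
  obtain ⟨B, hB⟩ := exists_root (fmat_psd hβ s hs)
  -- the quadratic form
  set q : E (Fin n) → ℝ := fun w => ‖w‖ ^ 2 + s * β w w with hq
  have hqc : Continuous q := by
    have : q = fun w => ‖w‖ ^ 2 + s * ∑ i, ∑ j, w i * w j *
        β (EuclideanSpace.single i 1) (EuclideanSpace.single j 1) := by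
      funext w
      simp only [hq]
      rw [form_sum hβ w]
    rw [this]
    fun_prop
  have hqhom : ∀ (r : ℝ) (w : E (Fin n)), q (r • w) = r ^ 2 * q w := by
    intro r w
    simp only [hq]
    rw [hβ.smul, hβ.symm, hβ.smul, norm_smul, mul_pow, Real.norm_eq_abs, sq_abs]
    ring
  have hq1 : ∀ w, ‖w‖ = 1 → 1 ≤ q w := by
    intro w hw
    simp only [hq]
    rw [hw]
    have := mul_nonneg hs (hβ.nonneg w)
    linarith
  have hp1 := polar n hn q hqc hq1 hqhom
  have hp2 := polar n hn (fun w => ‖w‖ ^ 2) (by fun_prop) (fun w hw => by simp [hw])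
    (fun r w => by rw [norm_smul, mul_pow, Real.norm_eq_abs, sq_abs])
  -- the linear substitution
  set N : E (Fin n) →ₗ[ℝ] E (Fin n) := Matrix.toLpLin 2 2 B with hN
  have hqN : ∀ x, q x = ‖N x‖ ^ 2 := by
    intro x
    have h1 := fmat_quad hβ s x
    rw [hB] at h1
    simp only [hq]
    rw [← h1, EuclideanSpace.norm_sq_eq]
    rw [← Matrix.mulVec_mulVec, Matrix.dotProduct_mulVec, Matrix.vecMul_conjTranspose]
    simp [dotProduct, hN, Matrix.toLpLin_apply, sq]
  have hdet : LinearMap.det N = B.det := by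
    rw [hN, Matrix.toLpLin_eq_toLin, LinearMap.det_toLin]
  have hMdet : (fmat 1 (fun v w => s * β v w)).det = B.det ^ 2 := by
    rw [hB, Matrix.det_mul, Matrix.det_conjTranspose, star_trivial, sq]
  have hBne : B.det ≠ 0 := by
    intro h0
    rw [← hdet] at h0
    have hlt := LinearMap.bot_lt_ker_of_det_eq_zero h0
    obtain ⟨x, hx, hx0⟩ := (Submodule.ne_bot_iff _).1 hlt.ne'
    have h1 : q x = 0 := by
      rw [hqN x, LinearMap.mem_ker.1 hx]
      simp
    have h2 : 0 < ‖x‖ ^ 2 := by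
      have := norm_pos_iff.2 hx0
      positivity
    have h3 := mul_nonneg hs (hβ.nonneg x)
    simp only [hq] at h1
    linarith
  have hsub : ∫ x, Real.exp (-q x) = |B.det|⁻¹ * ∫ x : E (Fin n), Real.exp (-‖x‖ ^ 2) := by
    have h1 := MeasureTheory.Measure.map_linearMap_addHaar_eq_smul_addHaar
      (volume : Measure (E (Fin n))) (f := N) (by rw [hdet]; exact hBne)
    have h2 : ∫ x, Real.exp (-q x) = ∫ y, Real.exp (-‖y‖ ^ 2) ∂(Measure.map N volume) := by
      rw [integral_map]
      · simp only [hqN]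
      · exact (LinearMap.continuous_of_finiteDimensional N).aemeasurable
      · have : Continuous (fun y : E (Fin n) => Real.exp (-‖y‖ ^ 2)) := by fun_prop
        exact this.aestronglyMeasurable
    rw [h2, h1, integral_smul_measure, hdet, ENNReal.toReal_ofReal (abs_nonneg _), abs_inv,
      smul_eq_mul]
  have hsm : smean (fun w : E (Fin n) => 1 / Real.sqrt (‖w‖ ^ 2) ^ n) =
      smean (fun _ : E (Fin n) => (1 : ℝ)) := by
    unfold smean
    refine integral_congr_ae (Filter.Eventually.of_forall fun w => ?_)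
    simp
  have hsm2 : smean (fun w : E (Fin n) => 1 / Real.sqrt (q w) ^ n) =
      smean (fun w : E (Fin n) => 1 / Real.sqrt (1 + s * β w w) ^ n) := by
    unfold smean
    refine integral_congr_ae (Filter.Eventually.of_forall fun w => ?_)
    simp [hq]
  rw [hsm2] at hp1
  rw [hsm] at hp2
  rw [hp1, hp2] at hsub
  have hk := kap_pos (n - 1)
  rw [hMdet, Real.sqrt_sq_eq_abs]
  have := mul_right_cancel₀ hk.ne' (hsub.trans (mul_assoc _ _ _).symm)
  rw [this]
  ring

end Pool.Agent.Work.MP_02f065_gt.Cvx
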