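import Pool.Agent.Work.MP_02f065_gt.Cvx.Stmts6
import Pool.Agent.Work.MP_02f065_gt.Cvx.I_DIS3
import Pool.Agent.Work.MP_02f065_gt.Cvx.I_RB6

/-!
MP_02f065_gt, block CVX6, item DOM6: domination in the mean (ellipsoids are zonoids).
-/

open MeasureTheory Set Filter Topology

noncomputable section

namespace Pool.Agent.Work.MP_02f065_gt.Cvx

open Pool.Agent.Work.MP_02f065_gt.RPn

namespace XDOM6

/-- The measure of the sphere. -/
abbrev sg (n : ℕ) : Measure (Metric.sphere (0 : E (Fin n)) 1) :=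
  (volume : Measure (E (Fin n))).toSphere

/-- Integrals of functions of `⟨u, w⟩` do not depend on the unit vector `u`. -/
theorem inv_unit {n : ℕ} (u v : E (Fin n)) (hu : ‖u‖ = 1) (hv : ‖v‖ = 1) (F : ℝ → ℝ) :
    ∫ w : Metric.sphere (0 : E (Fin n)) 1, F (inner ℝ u (w : E (Fin n))) ∂(sg n) =
      ∫ w : Metric.sphere (0 : E (Fin n)) 1, F (inner ℝ v (w : E (Fin n))) ∂(sg n) := by
  let R : E (Fin n) ≃ₗᵢ[ℝ] E (Fin n) := (Submodule.span ℝ {u - v})ᗮ.reflection
  have hR : R u = v := Submodule.reflection_sub (by rw [hu, hv])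
  let f : Metric.sphere (0 : E (Fin n)) 1 → Metric.sphere (0 : E (Fin n)) 1 := fun y =>
    ⟨R (y : E (Fin n)), by
      rw [mem_sphere_zero_iff_norm, R.norm_map]
      exact mem_sphere_zero_iff_norm.mp y.2⟩
  obtain ⟨hmp, hme⟩ := XDIS3.mp R.toLinearIsometry f (fun y => rfl)
  rw [← hmp.integral_comp hme (fun w : Metric.sphere (0 : E (Fin n)) 1 =>
    F (inner ℝ v (w : E (Fin n))))]
  refine integral_congr_ae (Filter.Eventually.of_forall fun w => ?_)
  have h2 : inner ℝ v (R (w : E (Fin n))) = inner ℝ u (w : E (Fin n)) := by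
    rw [← hR, R.inner_map_map]
  change F (inner ℝ u (w : E (Fin n))) = F (inner ℝ v (R (w : E (Fin n))))
  rw [h2]

/-- Continuous functions on the sphere are integrable. -/
theorem int_cont {n : ℕ} (F : E (Fin n) → ℝ) (hF : Continuous F) :
    Integrable (fun w : Metric.sphere (0 : E (Fin n)) 1 => F w) (sg n) := by
  obtain ⟨C, hC⟩ := (isCompact_closedBall (0 : E (Fin n)) 1).exists_bound_of_continuousOn
    hF.continuousOn
  refine Integrable.of_bound (hF.comp continuous_subtype_val).aestronglyMeasurable C ?_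
  refine Filter.Eventually.of_forall fun y => hC _ ?_
  rw [mem_closedBall_zero_iff]
  exact (mem_sphere_zero_iff_norm.mp y.2).le

/-- The square root of a form. -/
theorem exists_map {n : ℕ} {β : E (Fin n) → E (Fin n) → ℝ} (hβ : IsForm β) :
    ∃ S : E (Fin n) →ₗ[ℝ] E (Fin n), ∀ w, Real.sqrt (β w w) = ‖S w‖ := by
  set A : Matrix (Fin n) (Fin n) ℝ := Matrix.of fun i j =>
    β (EuclideanSpace.single i 1) (EuclideanSpace.single j 1) with hA
  have hq : ∀ x : E (Fin n), x.ofLp ⬝ᵥ (A.mulVec x.ofLp) = β x x := by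
    intro x
    rw [XRB6.form_sum hβ x]
    simp only [dotProduct, Matrix.mulVec, hA, Matrix.of_apply, Finset.mul_sum]
    refine Finset.sum_congr rfl fun i _ => Finset.sum_congr rfl fun j _ => ?_
    ring
  have hpsd : A.PosSemidef := by
    refine Matrix.PosSemidef.of_dotProduct_mulVec_nonneg ?_ fun x => ?_
    · ext i j
      simp only [hA, Matrix.conjTranspose_apply, Matrix.of_apply, star_trivial]
      rw [hβ.symm]
    · have := hq (WithLp.toLp 2 x)
      simp only [star_trivial]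
      rw [this]
      exact hβ.nonneg _
  obtain ⟨B, hB⟩ := XRB6.exists_root hpsd
  refine ⟨Matrix.toLpLin 2 2 B, fun w => ?_⟩
  have h1 : β w w = ‖Matrix.toLpLin 2 2 B w‖ ^ 2 := by
    rw [← hq w, hB, EuclideanSpace.norm_sq_eq]
    rw [← Matrix.mulVec_mulVec, Matrix.dotProduct_mulVec, Matrix.vecMul_conjTranspose]
    simp [dotProduct, Matrix.toLpLin_apply, sq]
  rw [h1, Real.sqrt_sq (norm_nonneg _)]

/-- The constant `κ`. -/
theorem kap_z {n : ℕ} (hn : 1 ≤ n) : ∃ κ : ℝ, 0 ≤ κ ∧ (κ = 0 → sg n = 0) ∧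
    ∀ z : E (Fin n), ∫ y : Metric.sphere (0 : E (Fin n)) 1,
      |(inner ℝ z (y : E (Fin n)) : ℝ)| ∂(sg n) = κ * ‖z‖ := by
  have hne : Nonempty (Fin n) := ⟨⟨0, by omega⟩⟩
  let i0 : Fin n := ⟨0, by omega⟩
  set e0 : E (Fin n) := EuclideanSpace.single i0 1 with he0
  have he0n : ‖e0‖ = 1 := by simp [he0]
  refine ⟨∫ y : Metric.sphere (0 : E (Fin n)) 1, |(inner ℝ e0 (y : E (Fin n)) : ℝ)| ∂(sg n),
    integral_nonneg fun y => abs_nonneg _, ?_, ?_⟩
  · intro hκ
    have h1 : ∀ i : Fin n, ∫ y : Metric.sphere (0 : E (Fin n)) 1,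
        |(inner ℝ (EuclideanSpace.single i (1 : ℝ)) (y : E (Fin n)) : ℝ)| ∂(sg n) = 0 := by
      intro i
      rw [← hκ]
      exact inv_unit _ _ (by simp) he0n (fun t => |t|)
    have h2 : ∀ i : Fin n, ∀ᵐ y : Metric.sphere (0 : E (Fin n)) 1 ∂(sg n),
        |(inner ℝ (EuclideanSpace.single i (1 : ℝ)) (y : E (Fin n)) : ℝ)| = 0 := by
      intro i
      have := (integral_eq_zero_iff_of_nonneg (fun y => abs_nonneg _) (int_cont (fun y : E (Fin n) =>
        |(inner ℝ (EuclideanSpace.single i (1 : ℝ)) y : ℝ)|) (by fun_prop))).mp (h1 i)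
      exact this
    have h3 : ∀ᵐ y : Metric.sphere (0 : E (Fin n)) 1 ∂(sg n), False := by
      filter_upwards [ae_all_iff.mpr h2] with y hy
      have hy0 : (y : E (Fin n)) = 0 := by
        ext i
        have := hy i
        rw [abs_eq_zero, EuclideanSpace.inner_single_left] at this
        simpa using this
      have hy1 : ‖(y : E (Fin n))‖ = 1 := mem_sphere_zero_iff_norm.mp y.2
      rw [hy0, norm_zero] at hy1
      exact zero_ne_one hy1
    rw [ae_iff] at h3
    have he : {a : Metric.sphere (0 : E (Fin n)) 1 | ¬ False} = univ := by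
      ext a
      simp
    rw [he] at h3
    exact Measure.measure_univ_eq_zero.mp h3
  · intro z
    by_cases hz : z = 0
    · subst hz
      simp
    have hz' : 0 < ‖z‖ := norm_pos_iff.mpr hz
    set u : E (Fin n) := ‖z‖⁻¹ • z with hu
    have hun : ‖u‖ = 1 := by
      rw [hu, norm_smul, norm_inv, norm_norm]
      exact inv_mul_cancel₀ hz'.ne'
    have hzu : z = ‖z‖ • u := by
      rw [hu, smul_smul, mul_inv_cancel₀ hz'.ne', one_smul]
    have h1 := inv_unit e0 u he0n hun (fun t => |t|)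
    have h2 : ∀ y : Metric.sphere (0 : E (Fin n)) 1, |(inner ℝ z (y : E (Fin n)) : ℝ)| =
        ‖z‖ * |(inner ℝ u (y : E (Fin n)) : ℝ)| := by
      intro y
      conv_lhs => rw [hzu]
      rw [real_inner_smul_left, abs_mul, abs_of_pos hz']
    simp only [h2]
    rw [integral_const_mul, ← h1, mul_comm]

theorem meas_ker {X : Type} [MeasurableSpace X] {n : ℕ} (p q : X → E (Fin n)) (hp : Measurable p)
    (hq : Measurable q) (h : ℝ → ℝ) (hh : Continuous h) (m : ℝ) :
    Measurable fun x => ‖p x‖ * h (m * |(inner ℝ (‖p x‖⁻¹ • p x) (q x) : ℝ)|) := by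
  have h1 : Measurable fun x => ‖p x‖ := hp.norm
  have h2 : Measurable fun x => ‖p x‖⁻¹ := h1.inv
  have h3 : Measurable fun x => ‖p x‖⁻¹ • p x := h2.smul hp
  have h4 : Measurable fun x => (inner ℝ (‖p x‖⁻¹ • p x) (q x) : ℝ) := h3.inner hq
  have h5 : Measurable fun x => |(inner ℝ (‖p x‖⁻¹ • p x) (q x) : ℝ)| :=
    continuous_abs.measurable.comp h4
  have h6 : Measurable fun x => m * |(inner ℝ (‖p x‖⁻¹ • p x) (q x) : ℝ)| := h5.const_mul m
  have h7 : Measurable fun x => h (m * |(inner ℝ (‖p x‖⁻¹ • p x) (q x) : ℝ)|) :=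
    hh.measurable.comp h6
  exact h1.mul h7

/-- Bounded measurable kernels: both orders of integration. -/
theorem fub {n : ℕ} (K : E (Fin n) → E (Fin n) → ℝ)
    (hm : Measurable (fun z : E (Fin n) × E (Fin n) => K z.1 z.2)) (C : ℝ)
    (hC : ∀ y w : E (Fin n), ‖y‖ = 1 → ‖w‖ = 1 → |K y w| ≤ C) :
    Integrable (fun z : Metric.sphere (0 : E (Fin n)) 1 × Metric.sphere (0 : E (Fin n)) 1 =>
      K z.1 z.2) ((sg n).prod (sg n)) := by
  have h1 : Measurable (fun z : Metric.sphere (0 : E (Fin n)) 1 ×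
      Metric.sphere (0 : E (Fin n)) 1 => K z.1 z.2) :=
    hm.comp ((measurable_subtype_coe.comp measurable_fst).prodMk
      (measurable_subtype_coe.comp measurable_snd))
  refine Integrable.of_bound h1.aestronglyMeasurable C ?_
  refine Filter.Eventually.of_forall fun z => ?_
  rw [Real.norm_eq_abs]
  exact hC _ _ (mem_sphere_zero_iff_norm.mp z.1.2) (mem_sphere_zero_iff_norm.mp z.2.2)

end XDOM6

open XDOM6

theorem iDOM6 : StDom6 := by
  intro n β G h hn hβ hconv hmono hcont hle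
  obtain ⟨S, hS⟩ := exists_map hβ
  obtain ⟨κ, hκ0, hκz, hκ⟩ := kap_z hn
  simp only [hS] at hle ⊢
  unfold smean at hle ⊢
  rcases hκ0.eq_or_lt with hκ1 | hκpos
  · have h0 : sg n = 0 := hκz hκ1.symm
    rw [show ((volume : Measure (E (Fin n))).toSphere) = sg n from rfl, h0]
    simp
  -- the adjoint
  let S' : E (Fin n) →ₗ[ℝ] E (Fin n) := LinearMap.adjoint S
  have hadj : ∀ y w : E (Fin n), (inner ℝ (S' y) w : ℝ) = inner ℝ y (S w) := fun y w =>
    LinearMap.adjoint_inner_left S w y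
  have hSc : Continuous S := LinearMap.continuous_of_finiteDimensional S
  have hS'c : Continuous S' := LinearMap.continuous_of_finiteDimensional S'
  obtain ⟨C0, hC0⟩ := (isCompact_closedBall (0 : E (Fin n)) 1).exists_bound_of_continuousOn
    hS'c.continuousOn
  have hC0' : ∀ y : E (Fin n), ‖y‖ = 1 → ‖S' y‖ ≤ C0 := fun y hy => hC0 y (by
    rw [mem_closedBall_zero_iff]; exact hy.le)
  -- equal means
  have hmean : ∫ y : Metric.sphere (0 : E (Fin n)) 1, ‖S' (y : E (Fin n))‖ ∂(sg n) =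
      ∫ w : Metric.sphere (0 : E (Fin n)) 1, ‖S (w : E (Fin n))‖ ∂(sg n) := by
    have hint := fub (fun y w => |(inner ℝ (S' y) w : ℝ)|) (by fun_prop) C0 (by
      intro y w hy hw
      rw [abs_abs]
      refine (abs_real_inner_le_norm _ _).trans ?_
      rw [hw, mul_one]
      exact hC0' y hy)
    have h1 := integral_integral_swap (f := fun (y w : Metric.sphere (0 : E (Fin n)) 1) =>
      |(inner ℝ (S' (y : E (Fin n))) (w : E (Fin n)) : ℝ)|) (μ := sg n) (ν := sg n) hint
    have h2 : ∀ y : Metric.sphere (0 : E (Fin n)) 1, ∫ w : Metric.sphere (0 : E (Fin n)) 1,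
        |(inner ℝ (S' (y : E (Fin n))) (w : E (Fin n)) : ℝ)| ∂(sg n) =
        κ * ‖S' (y : E (Fin n))‖ := fun y => hκ _
    have h3 : ∀ w : Metric.sphere (0 : E (Fin n)) 1, ∫ y : Metric.sphere (0 : E (Fin n)) 1,
        |(inner ℝ (S' (y : E (Fin n))) (w : E (Fin n)) : ℝ)| ∂(sg n) =
        κ * ‖S (w : E (Fin n))‖ := by
      intro w
      rw [← hκ]
      refine integral_congr_ae (Filter.Eventually.of_forall fun y => ?_)
      change |(inner ℝ (S' (y : E (Fin n))) (w : E (Fin n)) : ℝ)| = _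
      rw [hadj, real_inner_comm]
    simp only [h2, h3] at h1
    rw [integral_const_mul, integral_const_mul] at h1
    exact mul_left_cancel₀ hκpos.ne' h1
  set M : ℝ := ∫ w : Metric.sphere (0 : E (Fin n)) 1, ‖S (w : E (Fin n))‖ ∂(sg n) with hM
  have hM0 : 0 ≤ M := integral_nonneg fun w => norm_nonneg _
  have hMG : M ≤ κ * ‖G‖ := by
    rw [← hκ]
    exact hle
  have hIG : Integrable (fun w : Metric.sphere (0 : E (Fin n)) 1 =>
      h |(inner ℝ G (w : E (Fin n)) : ℝ)|) (sg n) :=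
    int_cont (fun w => h |(inner ℝ G w : ℝ)|) (by fun_prop)
  have hIS : Integrable (fun w : Metric.sphere (0 : E (Fin n)) 1 =>
      h ‖S (w : E (Fin n))‖) (sg n) :=
    int_cont (fun w => h ‖S w‖) (by fun_prop)
  rcases hM0.eq_or_lt with hM1 | hMpos
  · -- `S = 0`
    have h1 := (integral_eq_zero_iff_of_nonneg (fun w => norm_nonneg _)
      (int_cont (fun w => ‖S w‖) (by fun_prop))).mp hM1.symm
    refine integral_mono_ae hIS hIG ?_
    filter_upwards [h1] with w hw
    have hw' : ‖S (w : E (Fin n))‖ = 0 := hw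
    rw [hw']
    exact hmono (by simp) (by simp) (abs_nonneg _)
  -- the kernel
  set m : ℝ := M / κ with hm
  have hmpos : 0 < m := div_pos hMpos hκpos
  have hκm : κ * m = M := by rw [hm]; field_simp
  set K : E (Fin n) → E (Fin n) → ℝ := fun y w =>
    ‖S' y‖ * h (m * |(inner ℝ (‖S' y‖⁻¹ • S' y) w : ℝ)|) with hK
  obtain ⟨C1, hC1⟩ := (isCompact_Icc (a := (0 : ℝ)) (b := m)).exists_bound_of_continuousOn
    hcont.continuousOn
  have hunit : ∀ y : E (Fin n), ‖‖S' y‖⁻¹ • S' y‖ ≤ 1 := by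
    intro y
    rw [norm_smul, norm_inv, norm_norm]
    by_cases h0 : ‖S' y‖ = 0
    · rw [h0]; simp
    · rw [inv_mul_cancel₀ h0]
  have hC0nn : 0 ≤ C0 := by
    have := hC0 0 (by simp)
    exact (norm_nonneg _).trans this
  have hKm : Measurable (fun z : E (Fin n) × E (Fin n) => K z.1 z.2) :=
    meas_ker (fun z : E (Fin n) × E (Fin n) => S' z.1) (fun z => z.2)
      (hS'c.measurable.comp measurable_fst) measurable_snd h hcont m
  have hKb : ∀ y w : E (Fin n), ‖y‖ = 1 → ‖w‖ = 1 → |K y w| ≤ C0 * C1 := by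
    intro y w hy hw
    have h1 : |(inner ℝ (‖S' y‖⁻¹ • S' y) w : ℝ)| ≤ 1 := by
      refine (abs_real_inner_le_norm _ _).trans ?_
      rw [hw, mul_one]
      exact hunit y
    have h2 : m * |(inner ℝ (‖S' y‖⁻¹ • S' y) w : ℝ)| ≤ m := by
      calc m * |(inner ℝ (‖S' y‖⁻¹ • S' y) w : ℝ)| ≤ m * 1 :=
            mul_le_mul_of_nonneg_left h1 hmpos.le
        _ = m := mul_one m
    have h3 : 0 ≤ m * |(inner ℝ (‖S' y‖⁻¹ • S' y) w : ℝ)| := mul_nonneg hmpos.le (abs_nonneg _)
    have h4 := hC1 _ ⟨h3, h2⟩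
    rw [Real.norm_eq_abs] at h4
    have h5 : |K y w| = ‖S' y‖ * |h (m * |(inner ℝ (‖S' y‖⁻¹ • S' y) w : ℝ)|)| := by
      simp only [hK]
      rw [abs_mul, abs_of_nonneg (norm_nonneg _)]
    rw [h5]
    exact mul_le_mul (hC0' y hy) h4 (abs_nonneg _) hC0nn
  have hint := fub K hKm (C0 * C1) hKb
  have hswap := integral_integral_swap (f := fun (y w : Metric.sphere (0 : E (Fin n)) 1) =>
      K (y : E (Fin n)) (w : E (Fin n))) (μ := sg n) (ν := sg n) hint
  -- a unit vector
  have hne : Nonempty (Fin n) := ⟨⟨0, by omega⟩⟩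
  have hGpos : 0 < ‖G‖ := by
    by_contra hcon
    have hG0 : ‖G‖ = 0 := le_antisymm (not_lt.mp hcon) (norm_nonneg _)
    rw [hG0, mul_zero] at hMG
    linarith
  set u : E (Fin n) := ‖G‖⁻¹ • G with hu
  have hun : ‖u‖ = 1 := by
    rw [hu, norm_smul, norm_inv, norm_norm]
    exact inv_mul_cancel₀ hGpos.ne'
  set I : ℝ := ∫ w : Metric.sphere (0 : E (Fin n)) 1,
    h (m * |(inner ℝ u (w : E (Fin n)) : ℝ)|) ∂(sg n) with hI
  -- inner integral over w
  have hw1 : ∀ y : Metric.sphere (0 : E (Fin n)) 1, ∫ w : Metric.sphere (0 : E (Fin n)) 1,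
      K (y : E (Fin n)) (w : E (Fin n)) ∂(sg n) = ‖S' (y : E (Fin n))‖ * I := by
    intro y
    simp only [hK]
    rw [integral_const_mul]
    by_cases h0 : ‖S' (y : E (Fin n))‖ = 0
    · rw [h0, zero_mul, zero_mul]
    · congr 1
      refine inv_unit _ _ ?_ hun (fun t => h (m * |t|))
      rw [norm_smul, norm_inv, norm_norm]
      exact inv_mul_cancel₀ h0
  -- Jensen
  have hJ : ∀ w : Metric.sphere (0 : E (Fin n)) 1, M * h ‖S (w : E (Fin n))‖ ≤
      ∫ y : Metric.sphere (0 : E (Fin n)) 1, K (y : E (Fin n)) (w : E (Fin n)) ∂(sg n) := by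
    intro w
    have hKw : Integrable (fun y : Metric.sphere (0 : E (Fin n)) 1 =>
        K (y : E (Fin n)) (w : E (Fin n))) (sg n) := by
      have h4 : Measurable fun y : Metric.sphere (0 : E (Fin n)) 1 =>
          K (y : E (Fin n)) (w : E (Fin n)) :=
        meas_ker (fun y : Metric.sphere (0 : E (Fin n)) 1 => S' (y : E (Fin n)))
          (fun _ => (w : E (Fin n))) (hS'c.measurable.comp measurable_subtype_coe)
          measurable_const h hcont m
      refine Integrable.of_bound h4.aestronglyMeasurable (C0 * C1) ?_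
      refine Filter.Eventually.of_forall fun y => ?_
      rw [Real.norm_eq_abs]
      exact hKb _ _ (mem_sphere_zero_iff_norm.mp y.2) (mem_sphere_zero_iff_norm.mp w.2)
    refine le_of_forall_lt fun a' ha' => ?_
    obtain ⟨a'', ha1, ha2⟩ := exists_between ha'
    refine ha1.trans_le ?_
    have ha3 : a'' / M < h ‖S (w : E (Fin n))‖ := by
      rw [div_lt_iff₀ hMpos, mul_comm]
      exact ha2
    obtain ⟨c, c', hc1, hc2⟩ := hconv.exists_affine_le_of_lt_real
      (x := ‖S (w : E (Fin n))‖) (a := a'' / M) (by simp) ha3 isClosed_Ici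
      hcont.continuousOn.lowerSemicontinuousOn
    have hlow : ∀ y : Metric.sphere (0 : E (Fin n)) 1,
        c * m * |(inner ℝ (S' (y : E (Fin n))) (w : E (Fin n)) : ℝ)| + c' * ‖S' (y : E (Fin n))‖ ≤
          K (y : E (Fin n)) (w : E (Fin n)) := by
      intro y
      have h1 := hc1 (m * |(inner ℝ (‖S' (y : E (Fin n))‖⁻¹ • S' (y : E (Fin n)))
        (w : E (Fin n)) : ℝ)|) (mem_Ici.mpr (mul_nonneg hmpos.le (abs_nonneg _)))
      have h2 := mul_le_mul_of_nonneg_left h1 (norm_nonneg (S' (y : E (Fin n))))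
      refine le_trans (le_of_eq ?_) h2
      rw [real_inner_smul_left, abs_mul, abs_inv, abs_norm]
      by_cases h0 : ‖S' (y : E (Fin n))‖ = 0
      · have h00 : S' (y : E (Fin n)) = 0 := norm_eq_zero.mp h0
        rw [h00]
        simp
      · field_simp
    have hi1 : Integrable (fun y : Metric.sphere (0 : E (Fin n)) 1 =>
        c * m * |(inner ℝ (S' (y : E (Fin n))) (w : E (Fin n)) : ℝ)|) (sg n) :=
      int_cont (fun y => c * m * |(inner ℝ (S' y) (w : E (Fin n)) : ℝ)|) (by fun_prop)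
    have hi2 : Integrable (fun y : Metric.sphere (0 : E (Fin n)) 1 =>
        c' * ‖S' (y : E (Fin n))‖) (sg n) :=
      int_cont (fun y => c' * ‖S' y‖) (by fun_prop)
    have h3 := integral_mono (hi1.add hi2) hKw hlow
    have h4 : ∫ y : Metric.sphere (0 : E (Fin n)) 1,
        (c * m * |(inner ℝ (S' (y : E (Fin n))) (w : E (Fin n)) : ℝ)| +
          c' * ‖S' (y : E (Fin n))‖) ∂(sg n) = a'' := by
      rw [integral_add hi1 hi2, integral_const_mul, integral_const_mul, hmean]
      have h5 : ∫ y : Metric.sphere (0 : E (Fin n)) 1,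
          |(inner ℝ (S' (y : E (Fin n))) (w : E (Fin n)) : ℝ)| ∂(sg n) =
          κ * ‖S (w : E (Fin n))‖ := by
        rw [← hκ]
        refine integral_congr_ae (Filter.Eventually.of_forall fun y => ?_)
        change |(inner ℝ (S' (y : E (Fin n))) (w : E (Fin n)) : ℝ)| = _
        rw [hadj, real_inner_comm]
      rw [h5]
      have h6 : c * m * (κ * ‖S (w : E (Fin n))‖) + c' * M =
          M * (c * ‖S (w : E (Fin n))‖ + c') := by
        rw [← hκm]
        ring
      rw [h6, hc2]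
      field_simp
    rw [← h4]
    exact h3
  -- conclusion
  have hfin : M * ∫ w : Metric.sphere (0 : E (Fin n)) 1, h ‖S (w : E (Fin n))‖ ∂(sg n) ≤ M * I := by
    rw [← integral_const_mul]
    have h1 : ∫ w : Metric.sphere (0 : E (Fin n)) 1, M * h ‖S (w : E (Fin n))‖ ∂(sg n) ≤
        ∫ w : Metric.sphere (0 : E (Fin n)) 1, ∫ y : Metric.sphere (0 : E (Fin n)) 1,
          K (y : E (Fin n)) (w : E (Fin n)) ∂(sg n) ∂(sg n) :=
      integral_mono (hIS.const_mul M) hint.integral_prod_right hJ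
    refine h1.trans (le_of_eq ?_)
    rw [← hswap]
    simp only [hw1]
    rw [integral_mul_const, hmean]
  have hfin2 := le_of_mul_le_mul_left hfin hMpos
  refine hfin2.trans ?_
  rw [hI]
  refine integral_mono (int_cont (fun w => h (m * |(inner ℝ u w : ℝ)|)) (by fun_prop)) hIG ?_
  intro w
  refine hmono (mem_Ici.mpr (mul_nonneg hmpos.le (abs_nonneg _))) (mem_Ici.mpr (abs_nonneg _)) ?_
  have h1 : (inner ℝ G (w : E (Fin n)) : ℝ) = ‖G‖ * inner ℝ u (w : E (Fin n)) := by
    rw [hu, real_inner_smul_left, ← mul_assoc, mul_inv_cancel₀ hGpos.ne', one_mul]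
  rw [h1, abs_mul, abs_norm]
  refine mul_le_mul_of_nonneg_right ?_ (abs_nonneg _)
  rw [hm, div_le_iff₀ hκpos, mul_comm]
  exact hMG

end Pool.Agent.Work.MP_02f065_gt.Cvx
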