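import Pool.Agent.Work.MP_02f065_gt.Cvx.Stmts3

/-!
MP_02f065_gt, block CVX3, item FLO3: invariance under the geodesic flow.
-/

open MeasureTheory Set Filter Topology

noncomputable section

namespace Pool.Agent.Work.MP_02f065_gt.Cvx

open Pool.Agent.Work.MP_02f065_gt.RPn

namespace XFLO3

/-- Fubini for a bounded function of a random parameter and an angle. -/
theorem fub {Ω : Type} [MeasurableSpace Ω] (μ : Measure Ω) [IsProbabilityMeasure μ]
    (G : Ω → ℝ → ℝ) (hm : Measurable fun p : Ω × ℝ => G p.1 p.2)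
    (C : ℝ) (hC : ∀ ω t, |G ω t| ≤ C) (c m : ℝ)
    (hB : ∀ ω, c ≤ ∫ t in (0 : ℝ)..(2 * Real.pi), G ω t)
    (hH : ∀ t, ∫ ω, G ω t ∂μ = m) :
    c ≤ 2 * Real.pi * m := by
  have hpi : (0 : ℝ) ≤ 2 * Real.pi := by positivity
  set ν : Measure ℝ := volume.restrict (Ioc 0 (2 * Real.pi)) with hν
  have : IsFiniteMeasure ν := by
    constructor
    rw [hν, Measure.restrict_apply_univ, Real.volume_Ioc]
    exact ENNReal.ofReal_lt_top
  have hint : Integrable (fun p : Ω × ℝ => G p.1 p.2) (μ.prod ν) := by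
    refine Integrable.of_bound hm.aestronglyMeasurable C (Filter.Eventually.of_forall fun p => ?_)
    rw [Real.norm_eq_abs]
    exact hC _ _
  have h1 : ∀ ω, ∫ t in (0 : ℝ)..(2 * Real.pi), G ω t = ∫ t, G ω t ∂ν := by
    intro ω
    rw [intervalIntegral.integral_of_le hpi]
  have h2 : c ≤ ∫ ω, ∫ t, G ω t ∂ν ∂μ := by
    have h0 : ∫ _ω : Ω, c ∂μ = c := by simp
    calc c = ∫ _ω : Ω, c ∂μ := h0.symm
      _ ≤ _ := by
        refine integral_mono (integrable_const _) hint.integral_prod_left ?_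
        intro ω
        have := hB ω
        rw [h1] at this
        exact this
  rw [integral_integral_swap hint] at h2
  refine h2.trans (le_of_eq ?_)
  have h3 : ∀ t, ∫ ω, G ω t ∂μ = (fun _ : ℝ => m) t := fun t => hH t
  rw [integral_congr_ae (Filter.Eventually.of_forall h3), integral_const]
  rw [hν]
  simp [Real.pi_pos.le]

theorem ON_map {ι : Type} [Fintype ι] (A : E ι →ₗᵢ[ℝ] E ι) {x v : E ι} (h : ON x v) :
    ON (A x) (A v) := by
  obtain ⟨h1, h2, h3⟩ := h
  refine ⟨by rw [A.norm_map, h1], by rw [A.norm_map, h2], by rw [A.inner_map_map, h3]⟩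

theorem ON_gc {ι : Type} [Fintype ι] {x v : E ι} (h : ON x v) (t : ℝ) :
    ON (gc x v t) (gd x v t) := by
  obtain ⟨h1, h2, h3⟩ := h
  have h3' : inner ℝ v x = 0 := by rw [real_inner_comm]; exact h3
  have hxx : inner ℝ x x = 1 := by rw [real_inner_self_eq_norm_sq, h1]; norm_num
  have hvv : inner ℝ v v = 1 := by rw [real_inner_self_eq_norm_sq, h2]; norm_num
  have hs := Real.sin_sq_add_cos_sq t
  refine ⟨?_, ?_, ?_⟩
  · have : ‖gc x v t‖ ^ 2 = 1 := by
      rw [← real_inner_self_eq_norm_sq]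
      simp only [gc, inner_add_left, inner_add_right, real_inner_smul_left, real_inner_smul_right,
        h3, h3', hxx, hvv]
      nlinarith
    have h0 := norm_nonneg (gc x v t)
    nlinarith
  · have : ‖gd x v t‖ ^ 2 = 1 := by
      rw [← real_inner_self_eq_norm_sq]
      simp only [gd, inner_add_left, inner_add_right, real_inner_smul_left, real_inner_smul_right,
        h3, h3', hxx, hvv]
      nlinarith
    have h0 := norm_nonneg (gd x v t)
    nlinarith
  · simp only [gc, gd, inner_add_left, inner_add_right, real_inner_smul_left, real_inner_smul_right,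
      h3, h3', hxx, hvv]
    ring

theorem map_gc {ι : Type} [Fintype ι] (A : E ι →ₗᵢ[ℝ] E ι) (x v : E ι) (t : ℝ) :
    A (gc x v t) = gc (A x) (A v) t := by
  simp only [gc, map_add, map_smul]

theorem map_gd {ι : Type} [Fintype ι] (A : E ι →ₗᵢ[ℝ] E ι) (x v : E ι) (t : ℝ) :
    A (gd x v t) = gd (A x) (A v) t := by
  simp only [gd, map_add, map_smul]

theorem closed_ON {ι : Type} [Fintype ι] : IsClosed {z : E ι × E ι | ON z.1 z.2} := by
  have h1 : IsClosed {z : E ι × E ι | ‖z.1‖ = 1} :=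
    isClosed_eq (by fun_prop) continuous_const
  have h2 : IsClosed {z : E ι × E ι | ‖z.2‖ = 1} :=
    isClosed_eq (by fun_prop) continuous_const
  have h3 : IsClosed {z : E ι × E ι | inner ℝ z.1 z.2 = 0} :=
    isClosed_eq (by fun_prop) continuous_const
  exact h1.inter (h2.inter h3)

theorem compact_ON {ι : Type} [Fintype ι] : IsCompact {z : E ι × E ι | ON z.1 z.2} := by
  refine Metric.isCompact_of_isClosed_isBounded closed_ON ?_
  refine (Metric.isBounded_closedBall (x := (0 : E ι × E ι)) (r := 1)).subset ?_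
  intro z hz
  rw [mem_closedBall_zero_iff, Prod.norm_def]
  exact max_le hz.1.le hz.2.1.le

end XFLO3

open XFLO3 in
theorem iFLO3 : StFlo3 := by
  classical
  intro Q hQ Fr H c hH hB x v hxv
  let _ := Fr.ms
  have := Fr.prob
  change c ≤ 2 * Real.pi * ∫ ω, H (Fr.A ω x, Fr.A ω v) ∂Fr.μ
  set K : Set (E (Ix 1 Q) × E (Ix 1 Q)) := {z | ON z.1 z.2} with hKdef
  have hK : IsCompact K := compact_ON
  obtain ⟨C, hC⟩ := hK.exists_bound_of_continuousOn hH
  have hKm : MeasurableSet K := closed_ON.measurableSet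
  obtain ⟨H', hH'm, hH'⟩ : ∃ H' : E (Ix 1 Q) × E (Ix 1 Q) → ℝ, Measurable H' ∧
      ∀ z ∈ K, H' z = H z := by
    refine ⟨K.piecewise H (fun _ => 0),
      hH.measurable_piecewise continuousOn_const hKm, fun y hy => ?_⟩
    exact Set.piecewise_eq_of_mem _ _ _ hy
  have hAx := Fr.meas x
  have hAv := Fr.meas v
  set G : Fr.Ω → ℝ → ℝ := fun ω t =>
    H' (gc (Fr.A ω x) (Fr.A ω v) t, gd (Fr.A ω x) (Fr.A ω v) t) with hG
  have h1 : Measurable fun p : Fr.Ω × ℝ => Fr.A p.1 x := hAx.comp measurable_fst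
  have h2 : Measurable fun p : Fr.Ω × ℝ => Fr.A p.1 v := hAv.comp measurable_fst
  have h3 : Measurable fun p : Fr.Ω × ℝ => Real.cos p.2 := by fun_prop
  have h4 : Measurable fun p : Fr.Ω × ℝ => Real.sin p.2 := by fun_prop
  have hmA : Measurable fun p : Fr.Ω × ℝ => gc (Fr.A p.1 x) (Fr.A p.1 v) p.2 := by
    unfold gc
    exact (h3.smul h1).add (h4.smul h2)
  have hmB : Measurable fun p : Fr.Ω × ℝ => gd (Fr.A p.1 x) (Fr.A p.1 v) p.2 := by
    unfold gd
    exact (h4.neg.smul h1).add (h3.smul h2)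
  have hGm : Measurable fun p : Fr.Ω × ℝ => G p.1 p.2 := hH'm.comp (hmA.prodMk hmB)
  have hmem : ∀ ω t, (gc (Fr.A ω x) (Fr.A ω v) t, gd (Fr.A ω x) (Fr.A ω v) t) ∈ K :=
    fun ω t => ON_gc (ON_map (Fr.A ω) hxv) t
  have hGe : ∀ ω t, G ω t = H (gc (Fr.A ω x) (Fr.A ω v) t, gd (Fr.A ω x) (Fr.A ω v) t) :=
    fun ω t => hH' _ (hmem ω t)
  refine fub Fr.μ G hGm C ?_ c _ ?_ ?_
  · intro ω t
    rw [hGe, ← Real.norm_eq_abs]
    exact hC _ (hmem ω t)
  · intro ω
    refine (hB _ _ (ON_map (Fr.A ω) hxv)).trans (le_of_eq ?_)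
    exact intervalIntegral.integral_congr fun t _ => (hGe ω t).symm
  · intro t
    have h0 := Fr.inv H hH _ _ _ _ (ON_gc hxv t) hxv
    rw [← h0]
    refine integral_congr_ae (Filter.Eventually.of_forall fun ω => ?_)
    simp only
    rw [hGe, map_gc, map_gd]

end Pool.Agent.Work.MP_02f065_gt.Cvx
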