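import Pool.Agent.Work.MP_02f065_gt.Cvx.Stmts5
import Pool.Agent.Work.MP_02f065_gt.Cvx.I_COS3
import Pool.Agent.Work.MP_02f065_gt.Cvx.I_K0

/-!
MP_02f065_gt, block CVX5, item GF5: facts about the functions `Gf`.
-/

open MeasureTheory Set Filter Topology

noncomputable section

namespace Pool.Agent.Work.MP_02f065_gt.Cvx

open Pool.Agent.Work.MP_02f065_gt.RPn

namespace XGF5

theorem abs_add_abs (p q : ℝ) : |p - q| + |p + q| = 2 * max |p| |q| := by
  rcases le_total |p| |q| with h | h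
  · rw [max_eq_right h]
    rcases abs_cases p with ⟨h1, h2⟩ | ⟨h1, h2⟩ <;> rcases abs_cases q with ⟨h3, h4⟩ | ⟨h3, h4⟩ <;>
      rcases abs_cases (p - q) with ⟨h5, h6⟩ | ⟨h5, h6⟩ <;>
      rcases abs_cases (p + q) with ⟨h7, h8⟩ | ⟨h7, h8⟩ <;> linarith
  · rw [max_eq_left h]
    rcases abs_cases p with ⟨h1, h2⟩ | ⟨h1, h2⟩ <;> rcases abs_cases q with ⟨h3, h4⟩ | ⟨h3, h4⟩ <;>
      rcases abs_cases (p - q) with ⟨h5, h6⟩ | ⟨h5, h6⟩ <;>
      rcases abs_cases (p + q) with ⟨h7, h8⟩ | ⟨h7, h8⟩ <;> linarith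

theorem cos_nn {θ : ℝ} (h : θ ∈ Icc (0 : ℝ) (Real.pi / 2)) : 0 ≤ Real.cos θ :=
  Real.cos_nonneg_of_mem_Icc ⟨by linarith [h.1, Real.pi_pos], h.2⟩

theorem sin_nn {θ : ℝ} (h : θ ∈ Icc (0 : ℝ) (Real.pi / 2)) : 0 ≤ Real.sin θ :=
  Real.sin_nonneg_of_nonneg_of_le_pi h.1 (by linarith [h.2, Real.pi_pos])

theorem cos3 (m : ℕ) (A b : ℝ) (hA : 0 < A) :
    ((m + 1 : ℝ) / 4) * (A ^ m * ∫ χ in (0 : ℝ)..(2 * Real.pi),
      |Real.cos χ| ^ m * |A * Real.sin χ - b * Real.cos χ|) =
    Gf (fun c => (m + 1 : ℝ) * c ^ m) A b := by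
  have hpi := Real.pi_pos
  have hper : Function.Periodic (fun χ : ℝ => |Real.cos χ| ^ m *
      |A * Real.sin χ - b * Real.cos χ|) Real.pi := by
    intro χ
    simp only
    rw [Real.cos_add_pi, Real.sin_add_pi, abs_neg,
      show A * -Real.sin χ - b * -Real.cos χ = -(A * Real.sin χ - b * Real.cos χ) by ring, abs_neg]
  have hc : Continuous (fun χ : ℝ => |Real.cos χ| ^ m * |A * Real.sin χ - b * Real.cos χ|) := by
    fun_prop
  have hc' : Continuous (fun χ : ℝ => |Real.cos χ| ^ m * |A * Real.sin χ + b * Real.cos χ|) := by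
    fun_prop
  rw [XCOS3.half _ hper hc, ← intervalIntegral.integral_add_adjacent_intervals (b := (0 : ℝ))
    (hc.intervalIntegrable _ _) (hc.intervalIntegrable _ _)]
  have e1 : ∫ χ in (-(Real.pi / 2))..(0 : ℝ), |Real.cos χ| ^ m *
      |A * Real.sin χ - b * Real.cos χ| = ∫ χ in (0 : ℝ)..(Real.pi / 2), |Real.cos χ| ^ m *
      |A * Real.sin χ + b * Real.cos χ| := by
    have h := intervalIntegral.integral_comp_neg (a := (0 : ℝ)) (b := Real.pi / 2)
      (fun χ : ℝ => |Real.cos χ| ^ m * |A * Real.sin χ - b * Real.cos χ|)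
    rw [neg_zero] at h
    rw [← h]
    refine intervalIntegral.integral_congr fun χ _ => ?_
    rw [Real.cos_neg, Real.sin_neg,
      show A * -Real.sin χ - b * Real.cos χ = -(A * Real.sin χ + b * Real.cos χ) by ring, abs_neg]
  rw [e1, ← intervalIntegral.integral_add (hc'.intervalIntegrable _ _)
    (hc.intervalIntegrable _ _)]
  unfold Gf
  rw [← intervalIntegral.integral_const_mul, ← intervalIntegral.integral_const_mul,
    ← intervalIntegral.integral_const_mul]
  refine intervalIntegral.integral_congr fun θ hθ => ?_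
  rw [uIcc_of_le (by linarith)] at hθ
  have h1 := cos_nn hθ
  have h2 := sin_nn hθ
  simp only
  have h3 := abs_add_abs (A * Real.sin θ) (b * Real.cos θ)
  have h4 : |A * Real.sin θ| = A * Real.sin θ := abs_of_nonneg (mul_nonneg hA.le h2)
  have h5 : |b * Real.cos θ| = |b| * Real.cos θ := by rw [abs_mul, abs_of_nonneg h1]
  rw [h4, h5] at h3
  rw [abs_of_nonneg h1, mul_pow]
  linear_combination ((m + 1 : ℝ) / 2 * A ^ m * Real.cos θ ^ m) * h3

theorem gf_one (A b : ℝ) (hA : 0 < A) : Gf (fun _ => 1) A b = Real.sqrt (A ^ 2 + b ^ 2) := by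
  have h := cos3 0 A b hA
  have h0 := iK0 A (-b)
  have h1 : ∫ χ in (0 : ℝ)..(2 * Real.pi), |Real.cos χ| ^ 0 * |A * Real.sin χ - b * Real.cos χ| =
      4 * Real.sqrt (A ^ 2 + b ^ 2) := by
    rw [show A ^ 2 + b ^ 2 = A ^ 2 + (-b) ^ 2 by ring, ← h0]
    refine intervalIntegral.integral_congr fun χ _ => ?_
    rw [pow_zero, one_mul, show A * Real.sin χ - b * Real.cos χ =
      A * Real.sin χ + -b * Real.cos χ by ring]
  rw [h1] at h
  have h2 : Gf (fun c => ((0 : ℕ) + 1 : ℝ) * c ^ 0) A b = Gf (fun _ => 1) A b := by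
    unfold Gf
    refine intervalIntegral.integral_congr fun χ _ => ?_
    simp
  rw [h2] at h
  rw [← h]
  simp

end XGF5

open XGF5 in
theorem iGF5 : StGf5 := by
  have hpi := Real.pi_pos
  have hpi2 : (0 : ℝ) ≤ Real.pi / 2 := by positivity
  refine ⟨?_, gf_one, cos3, ?_, ?_⟩
  · intro f hf
    unfold Gf
    refine intervalIntegral.continuous_parametric_intervalIntegral_of_continuous' ?_ _ _
    have h1 : Continuous fun p : (ℝ × ℝ) × ℝ => p.1.1 * Real.cos p.2 := by fun_prop
    have h2 : Continuous fun p : (ℝ × ℝ) × ℝ => p.1.1 * Real.sin p.2 := by fun_prop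
    have h3 : Continuous fun p : (ℝ × ℝ) × ℝ => |p.1.2| * Real.cos p.2 := by fun_prop
    exact (hf.comp h1).mul (h2.max h3)
  · intro f A b b' hf hA hb hneg
    have hi : ∀ b : ℝ, IntervalIntegrable (fun θ => f (A * Real.cos θ) *
        max (A * Real.sin θ) (|b| * Real.cos θ)) volume 0 (Real.pi / 2) := by
      intro b
      have : Continuous (fun θ => f (A * Real.cos θ) *
          max (A * Real.sin θ) (|b| * Real.cos θ)) := by fun_prop
      exact this.intervalIntegrable _ _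
    unfold Gf
    refine intervalIntegral.integral_mono_on hpi2 (hi b) (hi b') fun θ hθ => ?_
    have h1 := cos_nn hθ
    have h2 : f (A * Real.cos θ) ≤ 0 := hneg _ (mul_nonneg hA.le h1)
    have h3 : max (A * Real.sin θ) (|b'| * Real.cos θ) ≤
        max (A * Real.sin θ) (|b| * Real.cos θ) :=
      max_le_max le_rfl (mul_le_mul_of_nonneg_right hb h1)
    exact mul_le_mul_of_nonpos_left h3 h2
  · intro n R A b hn hR hA
    have hi : ∀ f : ℝ → ℝ, Continuous f → IntervalIntegrable (fun θ => f (A * Real.cos θ) *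
        max (A * Real.sin θ) (|b| * Real.cos θ)) volume 0 (Real.pi / 2) := by
      intro f hf
      have : Continuous (fun θ => f (A * Real.cos θ) *
          max (A * Real.sin θ) (|b| * Real.cos θ)) := by fun_prop
      exact this.intervalIntegrable _ _
    have hc1 : Continuous (fR n R) := by
      unfold fR
      fun_prop
    have hc2 : Continuous (fun c : ℝ => (n : ℝ) * c ^ (n - 1)) := by fun_prop
    have hc3 : Continuous (fun _ : ℝ => (1 : ℝ)) := continuous_const
    unfold Gf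
    rw [← intervalIntegral.integral_const_mul, ← intervalIntegral.integral_sub (hi _ hc2)
      ((hi _ hc3).const_mul _)]
    refine intervalIntegral.integral_mono_on hpi2 (hi _ hc1)
      ((hi _ hc2).sub ((hi _ hc3).const_mul _)) fun θ hθ => ?_
    have h1 := cos_nn hθ
    have h2 := sin_nn hθ
    have h3 : 0 ≤ max (A * Real.sin θ) (|b| * Real.cos θ) :=
      le_max_of_le_left (mul_nonneg hA.le h2)
    have h4 : 0 ≤ A * Real.cos θ := mul_nonneg hA.le h1
    have h5 : min (A * Real.cos θ) R ^ (n - 1) ≤ (A * Real.cos θ) ^ (n - 1) :=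
      pow_le_pow_left₀ (le_min h4 hR) (min_le_left _ _) _
    have hn0 : (0 : ℝ) ≤ n := Nat.cast_nonneg n
    have h6 : fR n R (A * Real.cos θ) ≤ (n : ℝ) * (A * Real.cos θ) ^ (n - 1) -
        n * R ^ (n - 1) := by
      unfold fR
      nlinarith
    calc fR n R (A * Real.cos θ) * max (A * Real.sin θ) (|b| * Real.cos θ)
        ≤ ((n : ℝ) * (A * Real.cos θ) ^ (n - 1) - n * R ^ (n - 1)) *
          max (A * Real.sin θ) (|b| * Real.cos θ) := mul_le_mul_of_nonneg_right h6 h3
      _ = _ := by ring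

end Pool.Agent.Work.MP_02f065_gt.Cvx
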