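import Pool.Agent.Work.MP_02f065_gt.Cvx.Stmts6

open MeasureTheory Set Filter Topology

noncomputable section

namespace Pool.Agent.Work.MP_02f065_gt.Cvx

open Pool.Agent.Work.MP_02f065_gt.RPn

namespace XINCL6

section basic

variable {ι : Type} [Fintype ι]

lemma ne_zero {x : E ι} (hx : ‖x‖ = 1) : x ≠ 0 := by
  intro h
  rw [h, norm_zero] at hx
  exact zero_ne_one hx

lemma isOpen_ne : IsOpen {x : E ι | x ≠ 0} := isOpen_compl_singleton

lemma hasFD {r : E ι → ℝ} (hd : ContDiffOn ℝ 2 r {x | x ≠ 0}) {x : E ι} (hx : x ≠ 0) :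
    HasFDerivAt r (fderiv ℝ r x) x := by
  have h1 : DifferentiableOn ℝ r {x | x ≠ 0} := hd.differentiableOn (by norm_num)
  exact ((h1 x hx).differentiableAt (isOpen_ne.mem_nhds hx)).hasFDerivAt

lemma neg_eq {r : E ι → ℝ} (hh : ∀ (c : ℝ) (x : E ι), c ≠ 0 → r (c • x) = r x) (x : E ι) :
    r (-x) = r x := by
  have := hh (-1) x (by norm_num)
  rwa [neg_one_smul] at this

lemma fd_neg {r : E ι → ℝ} (hd : ContDiffOn ℝ 2 r {x | x ≠ 0})
    (hh : ∀ (c : ℝ) (x : E ι), c ≠ 0 → r (c • x) = r x) {x : E ι} (hx : x ≠ 0) :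
    fderiv ℝ r (-x) = -fderiv ℝ r x := by
  have h1 : HasFDerivAt r (fderiv ℝ r (-x)) (-x) := hasFD hd (neg_ne_zero.mpr hx)
  have h2 : HasFDerivAt (fun y : E ι => -y) (-ContinuousLinearMap.id ℝ (E ι)) x :=
    (hasFDerivAt_id x).neg
  have h3 : HasFDerivAt (fun y : E ι => r (-y))
      ((fderiv ℝ r (-x)).comp (-ContinuousLinearMap.id ℝ (E ι))) x := h1.comp x h2
  have h4 : (fun y : E ι => r (-y)) = r := by
    funext y; exact neg_eq hh y
  rw [h4] at h3
  have h5 := h3.unique (hasFD hd hx)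
  rw [← h5]
  ext v
  simp

lemma isMetric {φ : ℝ → ℝ} {α β : ℝ} {r : E ι → ℝ} (h : IsWarp φ α β r) :
    IsMetric (warped φ r) := by
  have hsub : Metric.sphere (0 : E ι) 1 ⊆ {x | x ≠ 0} := by
    intro x hx
    rw [mem_sphere_zero_iff_norm] at hx
    exact ne_zero hx
  have cr : ContinuousOn r (Metric.sphere (0 : E ι) 1) := h.diff.continuousOn.mono hsub
  have cφ : ContinuousOn (fun x => φ (r x)) (Metric.sphere (0 : E ι) 1) := by
    refine h.smooth.continuousOn.comp cr ?_
    intro x hx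
    rw [mem_sphere_zero_iff_norm] at hx
    exact h.range x hx
  have cfd : ContinuousOn (fun x => fderiv ℝ r x) (Metric.sphere (0 : E ι) 1) :=
    (h.diff.continuousOn_fderiv_of_isOpen isOpen_ne (by norm_num)).mono hsub
  refine ⟨?_, ?_, ?_, ?_, ?_, ?_⟩
  · intro x v v' w
    unfold warped
    rw [map_add, inner_add_left]
    ring
  · intro x v w s
    unfold warped
    rw [map_smul, real_inner_smul_left, smul_eq_mul]
    ring
  · intro x v w
    unfold warped
    rw [real_inner_comm]
    ring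
  · intro v w
    unfold warped
    exact ((cφ.pow 2).mul continuousOn_const).add
      ((cfd.clm_apply continuousOn_const).mul (cfd.clm_apply continuousOn_const))
  · intro x v hx _ hv0
    unfold warped
    have h1 : 0 < inner ℝ v v := by
      rw [real_inner_self_eq_norm_sq]
      exact pow_pos (norm_pos_iff.mpr hv0) 2
    have h2 : 0 < φ (r x) ^ 2 * inner ℝ v v :=
      mul_pos (pow_pos (h.pos _ (h.range x hx)) 2) h1
    exact add_pos_of_pos_of_nonneg h2 (mul_self_nonneg _)
  · intro x v w hx _ _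
    unfold warped
    rw [neg_eq h.hom, fd_neg h.diff h.hom (ne_zero hx)]
    simp only [_root_.neg_apply]
    ring

end basic

lemma between_incl {Q : ℕ} {φ : ℝ → ℝ} {r : E (Ix 1 Q) → ℝ} {g : RPn.Field (Ix 1 Q)}
    (h : Between φ r g) : Above φ r g ∧ MeanBelow φ r g := by
  refine ⟨fun x v hx hv => (h x v hx hv).1, ?_⟩
  intro x T hx hT
  unfold smean
  have hc : Continuous fun w : Metric.sphere (0 : E (Fin Q)) 1 => |fderiv ℝ r x (T w)| := by
    have : Continuous fun w : E (Fin Q) => |fderiv ℝ r x (T w)| := by fun_prop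
    exact this.comp continuous_subtype_val
  refine integral_mono_of_nonneg (Eventually.of_forall fun w => Real.sqrt_nonneg _) ?_
    (Eventually.of_forall fun w => ?_)
  · have : IsCompact (univ : Set (Metric.sphere (0 : E (Fin Q)) 1)) := isCompact_univ
    exact hc.integrable_of_hasCompactSupport (HasCompactSupport.of_compactSpace _)
  · have h1 := h x (T w) hx (hT w)
    have hw : ‖(w : E (Fin Q))‖ = 1 := by simp
    have h2 : inner ℝ (T (w : E (Fin Q))) (T (w : E (Fin Q))) = (1 : ℝ) := by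
      rw [real_inner_self_eq_norm_sq, T.norm_map, hw, one_pow]
    rw [h2, mul_one] at h1
    show Real.sqrt (g x (T w) (T w) - φ (r x) ^ 2) ≤ |fderiv ℝ r x (T w)|
    rw [← Real.sqrt_mul_self_eq_abs]
    exact Real.sqrt_le_sqrt (by linarith [h1.2])

end XINCL6

open XINCL6 in
theorem iINCL6 (h4 : StMain4) (hC : StCon5) : StIncl6 := by
  intro Q hQ φ α β r hW
  have hB : Between φ r (warped φ r) := by
    intro x v hx hv
    unfold warped
    exact ⟨le_add_of_nonneg_right (mul_self_nonneg _), le_rfl⟩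
  exact ⟨⟨isMetric hW, between_incl hB⟩, fun g _ hg => between_incl hg⟩

end Pool.Agent.Work.MP_02f065_gt.Cvx
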