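import Pool.Agent.Work.MP_02f065_gt.Cvx.Stmts3

/-!
MP_02f065_gt, block CVX3, item JEN3: the inequality between the means.
-/

open MeasureTheory Set Filter Topology

noncomputable section

namespace Pool.Agent.Work.MP_02f065_gt.Cvx

open Pool.Agent.Work.MP_02f065_gt.RPn

namespace XJEN3

variable {ι : Type} [Fintype ι]

theorem ON_map (A : E ι →ₗᵢ[ℝ] E ι) {x v : E ι} (h : ON x v) : ON (A x) (A v) := by
  obtain ⟨h1, h2, h3⟩ := h
  refine ⟨by rw [A.norm_map, h1], by rw [A.norm_map, h2], by rw [A.inner_map_map, h3]⟩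

theorem closed_ON : IsClosed {z : E ι × E ι | ON z.1 z.2} := by
  have h1 : IsClosed {z : E ι × E ι | ‖z.1‖ = 1} :=
    isClosed_eq continuous_fst.norm continuous_const
  have h2 : IsClosed {z : E ι × E ι | ‖z.2‖ = 1} :=
    isClosed_eq continuous_snd.norm continuous_const
  have h3 : IsClosed {z : E ι × E ι | inner ℝ z.1 z.2 = 0} :=
    isClosed_eq (continuous_fst.inner continuous_snd) continuous_const
  have : {z : E ι × E ι | ON z.1 z.2} =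
      {z : E ι × E ι | ‖z.1‖ = 1} ∩ ({z : E ι × E ι | ‖z.2‖ = 1} ∩
        {z : E ι × E ι | inner ℝ z.1 z.2 = 0}) := by
    ext z
    simp [ON]
  rw [this]
  exact h1.inter (h2.inter h3)

theorem compact_ON : IsCompact {z : E ι × E ι | ON z.1 z.2} := by
  have h : IsCompact (Metric.sphere (0 : E ι) 1 ×ˢ Metric.sphere (0 : E ι) 1) :=
    (isCompact_sphere 0 1).prod (isCompact_sphere 0 1)
  refine h.of_isClosed_subset closed_ON ?_
  rintro z ⟨h1, h2, -⟩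
  exact ⟨by simp [h1], by simp [h2]⟩

/-- Integrability of continuous functions of the frame. -/
theorem intg (Fr : Frames ι) {H : E ι × E ι → ℝ}
    (hH : ContinuousOn H {z | ON z.1 z.2}) {x v : E ι} (hxv : ON x v) :
    letI := Fr.ms
    Integrable (fun ω => H (Fr.A ω x, Fr.A ω v)) Fr.μ := by
  classical
  let _ := Fr.ms
  have := Fr.prob
  obtain ⟨C, hC⟩ := compact_ON.exists_bound_of_continuousOn hH
  have hm : Measurable ({z : E ι × E ι | ON z.1 z.2}.piecewise H (fun _ => 0)) :=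
    hH.measurable_piecewise continuousOn_const closed_ON.measurableSet
  have e : (fun ω => H (Fr.A ω x, Fr.A ω v)) = fun ω =>
      ({z : E ι × E ι | ON z.1 z.2}.piecewise H (fun _ => 0)) (Fr.A ω x, Fr.A ω v) := by
    funext ω
    rw [Set.piecewise_eq_of_mem]
    exact ON_map (Fr.A ω) hxv
  have hm2 : Measurable (fun ω => H (Fr.A ω x, Fr.A ω v)) := by
    rw [e]
    exact hm.comp ((Fr.meas x).prodMk (Fr.meas v))
  refine Integrable.of_bound hm2.aestronglyMeasurable C (Filter.Eventually.of_forall fun ω => ?_)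
  exact hC _ (ON_map (Fr.A ω) hxv)

theorem conv_pow (Q : ℕ) (R s : ℝ) (hR : 0 ≤ R) (hs : 0 ≤ s) :
    0 ≤ s ^ (Q + 1) - (Q + 1 : ℕ) * R ^ Q * s + Q * R ^ (Q + 1) := by
  induction Q with
  | zero => simp
  | succ n ih =>
    have h1 : s ^ (n + 1 + 1) - ((n + 1 + 1 : ℕ) : ℝ) * R ^ (n + 1) * s +
        ((n + 1 : ℕ) : ℝ) * R ^ (n + 1 + 1) =
        s * (s ^ (n + 1) - ((n + 1 : ℕ) : ℝ) * R ^ n * s + n * R ^ (n + 1)) +
          (n + 1) * R ^ n * (s - R) ^ 2 := by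
      push_cast
      ring
    rw [h1]
    have h2 : 0 ≤ (n + 1 : ℝ) * R ^ n * (s - R) ^ 2 := by positivity
    have h3 := mul_nonneg hs ih
    linarith

end XJEN3

open XJEN3 in
theorem iJEN3 (hS : StSca3) (hK : StCon3) (hC : StCir3) (hL : StLen3) (hF : StFlo3)
    (hG : StSgn3) : StJen3 := by
  intro Q hQ Fr M L F a hFF hA hsp hLpos hSys x v hxv
  let _ := Fr.ms
  have := Fr.prob
  change (L / Real.pi) ^ Q ≤
    ∫ ω, GS Q F (a (Fr.A ω x)) (fderiv ℝ a (Fr.A ω x) (Fr.A ω v)) ∂Fr.μ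
  obtain ⟨-, -, hkc, hfc, hgc⟩ := hK _ M F a hFF hA
  obtain ⟨-, -, -, hsc⟩ := hS M F hFF
  have hπ := Real.pi_pos
  -- the two sides
  have hkfc : ∀ m : ℕ, ContinuousOn (fun z : E (Ix 1 Q) × E (Ix 1 Q) =>
      kS F (a z.1) (fderiv ℝ a z.1 z.2) ^ m * fD F a z.1 z.2) {z | ON z.1 z.2} := fun m =>
    (hkc.pow m).mul hfc
  have iG : ∀ m : ℕ, Integrable (fun ω => GS m F (a (Fr.A ω x))
      (fderiv ℝ a (Fr.A ω x) (Fr.A ω v))) Fr.μ := fun m => intg Fr (hgc m) hxv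
  have iK : ∀ m : ℕ, Integrable (fun ω => kS F (a (Fr.A ω x))
      (fderiv ℝ a (Fr.A ω x) (Fr.A ω v)) ^ m * fD F a (Fr.A ω x) (Fr.A ω v)) Fr.μ := fun m =>
    intg Fr (hkfc m) hxv
  have eq : ∀ m : ℕ, ∫ ω, GS m F (a (Fr.A ω x)) (fderiv ℝ a (Fr.A ω x) (Fr.A ω v)) ∂Fr.μ =
      ∫ ω, kS F (a (Fr.A ω x)) (fderiv ℝ a (Fr.A ω x) (Fr.A ω v)) ^ m *
        fD F a (Fr.A ω x) (Fr.A ω v) ∂Fr.μ := by
    intro m
    have hc1 : ContinuousOn (fun z : E (Ix 1 Q) × E (Ix 1 Q) =>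
        GS m F (a z.1) (fderiv ℝ a z.1 z.2) -
          kS F (a z.1) (fderiv ℝ a z.1 z.2) ^ m * fD F a z.1 z.2) {z | ON z.1 z.2} :=
      (hgc m).sub (hkfc m)
    have hc2 : ContinuousOn (fun z : E (Ix 1 Q) × E (Ix 1 Q) =>
        -(GS m F (a z.1) (fderiv ℝ a z.1 z.2) -
          kS F (a z.1) (fderiv ℝ a z.1 z.2) ^ m * fD F a z.1 z.2)) {z | ON z.1 z.2} :=
      hc1.neg
    have h1 := hF Q hQ Fr _ 0 hc1 (fun x' v' h' => (hC _ M F a hFF hA m x' v' h').ge) x v hxv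
    have h2 := hF Q hQ Fr _ 0 hc2 (fun x' v' h' => by
      rw [intervalIntegral.integral_neg, hC _ M F a hFF hA m x' v' h', neg_zero]) x v hxv
    have h3 : ∫ ω, (GS m F (a (Fr.A ω x)) (fderiv ℝ a (Fr.A ω x) (Fr.A ω v)) -
        kS F (a (Fr.A ω x)) (fderiv ℝ a (Fr.A ω x) (Fr.A ω v)) ^ m *
          fD F a (Fr.A ω x) (Fr.A ω v)) ∂Fr.μ =
        ∫ ω, GS m F (a (Fr.A ω x)) (fderiv ℝ a (Fr.A ω x) (Fr.A ω v)) ∂Fr.μ -
        ∫ ω, kS F (a (Fr.A ω x)) (fderiv ℝ a (Fr.A ω x) (Fr.A ω v)) ^ m *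
          fD F a (Fr.A ω x) (Fr.A ω v) ∂Fr.μ := integral_sub (iG m) (iK m)
    have h4 : ∫ ω, -(GS m F (a (Fr.A ω x)) (fderiv ℝ a (Fr.A ω x) (Fr.A ω v)) -
        kS F (a (Fr.A ω x)) (fderiv ℝ a (Fr.A ω x) (Fr.A ω v)) ^ m *
          fD F a (Fr.A ω x) (Fr.A ω v)) ∂Fr.μ =
        -(∫ ω, GS m F (a (Fr.A ω x)) (fderiv ℝ a (Fr.A ω x) (Fr.A ω v)) ∂Fr.μ -
        ∫ ω, kS F (a (Fr.A ω x)) (fderiv ℝ a (Fr.A ω x) (Fr.A ω v)) ^ m *
          fD F a (Fr.A ω x) (Fr.A ω v) ∂Fr.μ) := by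
      rw [integral_neg, h3]
    simp only [h3] at h1
    simp only [h4] at h2
    have h5 : 0 < 2 * Real.pi := by positivity
    have h6 := nonneg_of_mul_nonneg_right h1 h5
    have h7 := nonneg_of_mul_nonneg_right h2 h5
    linarith
  -- the mean of the weight
  have e0 : ∫ ω, fD F a (Fr.A ω x) (Fr.A ω v) ∂Fr.μ = 1 := by
    have h := eq 0
    have h1 : ∫ ω, GS 0 F (a (Fr.A ω x)) (fderiv ℝ a (Fr.A ω x) (Fr.A ω v)) ∂Fr.μ = 1 := by
      have h2 : (fun ω => GS 0 F (a (Fr.A ω x)) (fderiv ℝ a (Fr.A ω x) (Fr.A ω v))) =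
          fun _ => (1 : ℝ) := by
        funext ω
        have hr : a (Fr.A ω x) ∈ Ioo (0 : ℝ) M :=
          hA.range _ (by rw [(Fr.A ω).norm_map]; exact hxv.1)
        exact (hsc _ hr (fderiv ℝ a (Fr.A ω x) (Fr.A ω v))).2.2.2.2.2.2.2.2.1
      rw [h2]
      simp
    rw [h1] at h
    simp only [pow_zero, one_mul] at h
    exact h.symm
  set R : ℝ := ∫ ω, GS 1 F (a (Fr.A ω x)) (fderiv ℝ a (Fr.A ω x) (Fr.A ω v)) ∂Fr.μ with hRdef
  have e1 : ∫ ω, kS F (a (Fr.A ω x)) (fderiv ℝ a (Fr.A ω x) (Fr.A ω v)) *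
      fD F a (Fr.A ω x) (Fr.A ω v) ∂Fr.μ = R := by
    have h := eq 1
    simp only [pow_one] at h
    exact h.symm
  have hR : L / Real.pi ≤ R := by
    have h1 := hF Q hQ Fr _ (2 * L) (hgc 1) (fun x' v' h' => by
      have := hL _ M L F a hFF hA hSys x' v' h'
      linarith) x v hxv
    rw [div_le_iff₀ hπ]
    have h2 : 2 * L ≤ 2 * Real.pi * R := h1
    linarith
  have hR0 : 0 ≤ R := le_trans (by positivity) hR
  -- positivity
  obtain ⟨n, rfl⟩ : ∃ n, Q = n + 1 := ⟨Q - 1, by omega⟩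
  have hp := hG (n + 1) hQ Fr M F a
    (fun s => s ^ (n + 1) - (n + 1 : ℕ) * R ^ n * s + n * R ^ (n + 1)) hFF hA hsp (by fun_prop)
    (fun s hs => conv_pow n R s hR0 hs) x v hxv
  have e2 : ∫ ω, (fun s : ℝ => s ^ (n + 1) - (n + 1 : ℕ) * R ^ n * s + n * R ^ (n + 1))
        (kS F (a (Fr.A ω x)) (fderiv ℝ a (Fr.A ω x) (Fr.A ω v))) *
      fD F a (Fr.A ω x) (Fr.A ω v) ∂Fr.μ =
      ∫ ω, GS (n + 1) F (a (Fr.A ω x)) (fderiv ℝ a (Fr.A ω x) (Fr.A ω v)) ∂Fr.μ -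
        R ^ (n + 1) := by
    have i1 := iK (n + 1)
    have i2 := iK 1
    have i3 := iK 0
    simp only [pow_one] at i2
    simp only [pow_zero, one_mul] at i3
    have h0 : (fun ω => (fun s : ℝ => s ^ (n + 1) - (n + 1 : ℕ) * R ^ n * s + n * R ^ (n + 1))
          (kS F (a (Fr.A ω x)) (fderiv ℝ a (Fr.A ω x) (Fr.A ω v))) *
        fD F a (Fr.A ω x) (Fr.A ω v)) = fun ω =>
        kS F (a (Fr.A ω x)) (fderiv ℝ a (Fr.A ω x) (Fr.A ω v)) ^ (n + 1) *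
          fD F a (Fr.A ω x) (Fr.A ω v) -
        (n + 1 : ℕ) * R ^ n * (kS F (a (Fr.A ω x)) (fderiv ℝ a (Fr.A ω x) (Fr.A ω v)) *
          fD F a (Fr.A ω x) (Fr.A ω v)) +
        n * R ^ (n + 1) * fD F a (Fr.A ω x) (Fr.A ω v) := by
      funext ω
      ring
    have j1 : Integrable (fun ω =>
        kS F (a (Fr.A ω x)) (fderiv ℝ a (Fr.A ω x) (Fr.A ω v)) ^ (n + 1) *
          fD F a (Fr.A ω x) (Fr.A ω v) -
        (n + 1 : ℕ) * R ^ n * (kS F (a (Fr.A ω x)) (fderiv ℝ a (Fr.A ω x) (Fr.A ω v)) *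
          fD F a (Fr.A ω x) (Fr.A ω v))) Fr.μ := i1.sub (i2.const_mul _)
    have j2 : Integrable (fun ω =>
        n * R ^ (n + 1) * fD F a (Fr.A ω x) (Fr.A ω v)) Fr.μ := i3.const_mul _
    have j3 : Integrable (fun ω =>
        (n + 1 : ℕ) * R ^ n * (kS F (a (Fr.A ω x)) (fderiv ℝ a (Fr.A ω x) (Fr.A ω v)) *
          fD F a (Fr.A ω x) (Fr.A ω v))) Fr.μ := i2.const_mul _
    rw [h0]
    refine (integral_add j1 j2).trans ?_
    rw [integral_sub i1 j3, integral_const_mul, integral_const_mul, e0, e1, ← eq (n + 1)]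
    push_cast
    ring
  have hp2 := hp.trans_eq e2
  have h3 : (L / Real.pi) ^ (n + 1) ≤ R ^ (n + 1) :=
    pow_le_pow_left₀ (by positivity) hR _
  linarith

end Pool.Agent.Work.MP_02f065_gt.Cvx
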