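import Pool.Agent.Work.MP_02f065_gt.Cvx.Stmts5
import Pool.Agent.Work.MP_02f065_gt.Cvx.I_JEN3

/-!
MP_02f065_gt, block CVX5, item JEN5: the inequality between the means.
-/

open MeasureTheory Set Filter Topology

noncomputable section

namespace Pool.Agent.Work.MP_02f065_gt.Cvx

open Pool.Agent.Work.MP_02f065_gt.RPn

namespace XJEN5

theorem fR_cont (n : ℕ) (R : ℝ) : Continuous (fR n R) := by
  unfold fR
  fun_prop

theorem fR_nonpos (n : ℕ) (R : ℝ) (hR : 0 ≤ R) (c : ℝ) (hc : 0 ≤ c) : fR n R c ≤ 0 := by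
  unfold fR
  have h1 : min c R ^ (n - 1) ≤ R ^ (n - 1) :=
    pow_le_pow_left₀ (le_min hc hR) (min_le_right c R) _
  have h2 : (0 : ℝ) ≤ n := Nat.cast_nonneg n
  nlinarith

end XJEN5

open XJEN3 XJEN5 in
theorem iJEN5 (hC5 : StCon5) (hL : StLen5) (hF : StFlo3) (hG : StGf5) (hT : StTr5)
    (hK : StCon3) : StJen5 := by
  intro Q hQ Fr M L F a g hFF hA hsp hgm hB hLpos hSys x v hxv
  let _ := Fr.ms
  have := Fr.prob
  change (L / Real.pi) ^ Q ≤ ∫ ω, Gf (fun c => (Q : ℝ) * c ^ (Q - 1)) (a (Fr.A ω x))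
    (bg a g (Fr.A ω x) (Fr.A ω v)) ∂Fr.μ
  obtain ⟨hgc, hbc, hpt⟩ := hC5 _ M F a g hFF hA hgm hB
  obtain ⟨hDc, -, -, -, -⟩ := hK _ M F a hFF hA
  obtain ⟨hGc, hG1, -, hG4, hG5⟩ := hG
  have hπ := Real.pi_pos
  -- continuity
  have hm1 : MapsTo (fun z : E (Ix 1 Q) × E (Ix 1 Q) => z.1) {z | ON z.1 z.2} {x | x ≠ 0} := by
    intro z hz h0
    have h1 : ‖z.1‖ = 1 := hz.1
    have h0' : z.1 = 0 := h0
    rw [h0', norm_zero] at h1
    exact zero_ne_one h1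
  have ca : ContinuousOn (fun z : E (Ix 1 Q) × E (Ix 1 Q) => a z.1) {z | ON z.1 z.2} :=
    hA.diff.continuousOn.comp continuous_fst.continuousOn hm1
  have cF : ContinuousOn (fun z : E (Ix 1 Q) × E (Ix 1 Q) => F (a z.1)) {z | ON z.1 z.2} :=
    hFF.diff.continuousOn.comp ca (fun z hz => hA.range z.1 hz.1)
  have cs : ContinuousOn (fun z : E (Ix 1 Q) × E (Ix 1 Q) => Real.sqrt (g z.1 z.2 z.2))
      {z | ON z.1 z.2} := Real.continuous_sqrt.comp_continuousOn hgc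
  have cp1 : ContinuousOn (fun z : E (Ix 1 Q) × E (Ix 1 Q) => (a z.1, bg a g z.1 z.2))
      {z | ON z.1 z.2} := ca.prodMk hbc
  have cp2 : ContinuousOn (fun z : E (Ix 1 Q) × E (Ix 1 Q) =>
      (a z.1, F (a z.1) * fderiv ℝ a z.1 z.2)) {z | ON z.1 z.2} := ca.prodMk (cF.mul hDc)
  have hQc : Continuous (fun c : ℝ => (Q : ℝ) * c ^ (Q - 1)) := by fun_prop
  have c1 : ContinuousOn (fun z : E (Ix 1 Q) × E (Ix 1 Q) =>
      Gf (fun c => (Q : ℝ) * c ^ (Q - 1)) (a z.1) (bg a g z.1 z.2)) {z | ON z.1 z.2} :=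
    (hGc _ hQc).comp_continuousOn cp1
  -- the mean length
  set R : ℝ := ∫ ω, Real.sqrt (g (Fr.A ω x) (Fr.A ω v) (Fr.A ω v)) ∂Fr.μ with hRdef
  have hR : L / Real.pi ≤ R := by
    have h1 := hF Q hQ Fr _ (2 * L) cs (fun x' v' h' => by
      have := hL _ g L hgm hSys hgc x' v' h'
      linarith) x v hxv
    rw [div_le_iff₀ hπ]
    have h2 : 2 * L ≤ 2 * Real.pi * R := h1
    linarith
  have hR0 : 0 ≤ R := le_trans (by positivity) hR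
  have c2 : ContinuousOn (fun z : E (Ix 1 Q) × E (Ix 1 Q) =>
      Gf (fR Q R) (a z.1) (F (a z.1) * fderiv ℝ a z.1 z.2)) {z | ON z.1 z.2} :=
    (hGc _ (fR_cont Q R)).comp_continuousOn cp2
  have i1 := intg Fr c1 hxv
  have i2 := intg Fr c2 hxv
  have i3 := intg Fr cs hxv
  have hTr := hT Q hQ Fr M R F a hFF hA hsp hR0 x v hxv
  -- the pointwise inequality
  have hpw : ∀ ω, Gf (fR Q R) (a (Fr.A ω x)) (F (a (Fr.A ω x)) *
      fderiv ℝ a (Fr.A ω x) (Fr.A ω v)) ≤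
      Gf (fun c => (Q : ℝ) * c ^ (Q - 1)) (a (Fr.A ω x)) (bg a g (Fr.A ω x) (Fr.A ω v)) -
        Q * R ^ (Q - 1) * Real.sqrt (g (Fr.A ω x) (Fr.A ω v) (Fr.A ω v)) := by
    intro ω
    have hon := ON_map (Fr.A ω) hxv
    obtain ⟨p1, p2, p3⟩ := hpt _ _ hon
    have hpos : 0 < a (Fr.A ω x) := (hA.range _ hon.1).1
    have h5 := hG5 Q R (a (Fr.A ω x)) (bg a g (Fr.A ω x) (Fr.A ω v)) (by omega) hR0 hpos
    rw [hG1 _ _ hpos, p3] at h5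
    have h4 := hG4 (fR Q R) (a (Fr.A ω x)) (F (a (Fr.A ω x)) * fderiv ℝ a (Fr.A ω x) (Fr.A ω v))
      (bg a g (Fr.A ω x) (Fr.A ω v)) (fR_cont Q R) hpos (by rw [abs_of_nonneg p1]; exact p2)
      (fR_nonpos Q R hR0)
    exact h4.trans h5
  have hint : ∫ ω, Gf (fR Q R) (a (Fr.A ω x)) (F (a (Fr.A ω x)) *
      fderiv ℝ a (Fr.A ω x) (Fr.A ω v)) ∂Fr.μ ≤
      ∫ ω, (Gf (fun c => (Q : ℝ) * c ^ (Q - 1)) (a (Fr.A ω x))
        (bg a g (Fr.A ω x) (Fr.A ω v)) -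
        Q * R ^ (Q - 1) * Real.sqrt (g (Fr.A ω x) (Fr.A ω v) (Fr.A ω v))) ∂Fr.μ :=
    integral_mono i2 (i1.sub (i3.const_mul _)) hpw
  rw [integral_sub i1 (i3.const_mul _), integral_const_mul] at hint
  have hTr' : 0 ≤ (Q - 1 : ℝ) * R ^ Q + ∫ ω, Gf (fR Q R) (a (Fr.A ω x))
    (F (a (Fr.A ω x)) * fderiv ℝ a (Fr.A ω x) (Fr.A ω v)) ∂Fr.μ := hTr
  have hRQ : R ^ (Q - 1) * R = R ^ Q := by
    rw [← pow_succ]; congr 1; omega
  have h3 : (L / Real.pi) ^ Q ≤ R ^ Q := pow_le_pow_left₀ (by positivity) hR _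
  have h6 : (Q : ℝ) * R ^ (Q - 1) * R = Q * R ^ Q := by rw [mul_assoc, hRQ]
  have h7 : (Q : ℝ) * R ^ (Q - 1) *
      ∫ ω, Real.sqrt (g (Fr.A ω x) (Fr.A ω v) (Fr.A ω v)) ∂Fr.μ = Q * R ^ Q := h6
  rw [h7] at hint
  linarith

end Pool.Agent.Work.MP_02f065_gt.Cvx
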