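import Pool.Agent.Work.MP_02f065_gt.Cvx.Stmts6
import Pool.Agent.Work.MP_02f065_gt.Cvx.I_JEN5

/-!
MP_02f065_gt, block CVX6, item JEN6: the inequality between the means.
-/

open MeasureTheory Set Filter Topology

noncomputable section

namespace Pool.Agent.Work.MP_02f065_gt.Cvx

open Pool.Agent.Work.MP_02f065_gt.RPn

namespace XJEN6

/-- A linear isometry onto the tangent space. -/
theorem exists_tan {Q : ℕ} (x : E (Ix 1 Q)) (hx : ‖x‖ = 1) :
    ∃ J : E (Fin Q) →ₗᵢ[ℝ] E (Ix 1 Q), IsTan x J := by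
  have hx0 : x ≠ 0 := by
    intro h
    rw [h, norm_zero] at hx
    exact zero_ne_one hx
  have hfr : Module.finrank ℝ (E (Ix 1 Q)) = Q + 1 := by
    rw [finrank_euclideanSpace]
    simp [Fintype.card_sum, add_comm]
  have hfact : Fact (Module.finrank ℝ (E (Ix 1 Q)) = Q + 1) := ⟨hfr⟩
  have hfo : Module.finrank ℝ (ℝ ∙ x)ᗮ = Q :=
    Submodule.finrank_orthogonal_span_singleton hx0
  let b : OrthonormalBasis (Fin Q) ℝ (ℝ ∙ x)ᗮ :=
    (stdOrthonormalBasis ℝ (ℝ ∙ x)ᗮ).reindex (finCongr hfo)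
  refine ⟨(ℝ ∙ x)ᗮ.subtypeₗᵢ.comp b.repr.symm.toLinearIsometry, ?_⟩
  intro w
  have h1 : ((b.repr.symm w : (ℝ ∙ x)ᗮ) : E (Ix 1 Q)) ∈ (ℝ ∙ x)ᗮ := (b.repr.symm w).2
  exact (Submodule.mem_orthogonal_singleton_iff_inner_right).1 h1

theorem smean_congr {Q : ℕ} {f h : E (Fin Q) → ℝ} (H : ∀ w, ‖w‖ = 1 → f w = h w) :
    smean f = smean h := by
  unfold smean
  refine integral_congr_ae (Eventually.of_forall fun w => H w (by simp))

theorem intg_sphere {Q : ℕ} {f : E (Fin Q) → ℝ}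
    (hf : ContinuousOn f (Metric.sphere (0 : E (Fin Q)) 1)) :
    Integrable (fun w : Metric.sphere (0 : E (Fin Q)) 1 => f w)
      ((volume : Measure (E (Fin Q))).toSphere) := by
  have hc : Continuous (fun w : Metric.sphere (0 : E (Fin Q)) 1 => f w) :=
    continuousOn_iff_continuous_domRestrict.1 hf
  exact hc.integrable_of_hasCompactSupport
    (HasCompactSupport.of_compactSpace _)

theorem smean_one_pos {Q : ℕ} (hQ : 1 ≤ Q) : 0 < smean (fun _ : E (Fin Q) => (1 : ℝ)) := by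
  have : Nonempty (Fin Q) := ⟨⟨0, hQ⟩⟩
  have : Nontrivial (E (Fin Q)) := by
    refine ⟨⟨EuclideanSpace.single ⟨0, hQ⟩ 1, 0, ?_⟩⟩
    intro h
    have := congrArg (fun z : E (Fin Q) => ‖z‖) h
    simp at this
  unfold smean
  rw [integral_const, smul_eq_mul, mul_one]
  rw [Measure.real, ENNReal.toReal_pos_iff]
  constructor
  · rw [Measure.toSphere_apply_univ]
    refine ENNReal.mul_pos ?_ ?_
    · simp
      omega
    · exact (Metric.measure_ball_pos volume (0 : E (Fin Q)) one_pos).ne'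
  · exact measure_lt_top _ _

theorem comp_on {X : Type} [TopologicalSpace X] {f : ℝ → ℝ}
    (h : Continuous (fun z : ℝ × ℝ => Gf f z.1 z.2)) {p q : X → ℝ} {s : Set X}
    (hp : ContinuousOn (fun z => (p z, q z)) s) : ContinuousOn (fun z => Gf f (p z) (q z)) s :=
  h.comp_continuousOn hp

theorem Gf_abs (f : ℝ → ℝ) (A b : ℝ) : Gf f A |b| = Gf f A b := by
  unfold Gf
  rw [abs_abs]

end XJEN6

open XJEN3 XJEN5 XJEN6 in
theorem iJEN6 (hC : StCon6) (hD : StDis6) (hDom : StDom6) (hCv : StCv6) (hL : StLen5)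
    (hF : StFlo3) (hG : StGf5) (hT : StTr5) (hK : StCon3) : StJen6 := by
  intro Q hQ Fr M L F a g hFF hA hsp hgm hAb hMB hLpos hSys x v hxv
  let _ := Fr.ms
  have := Fr.prob
  change (L / Real.pi) ^ Q ≤ ∫ ω, Gf (fun c => (Q : ℝ) * c ^ (Q - 1)) (a (Fr.A ω x))
    (bg a g (Fr.A ω x) (Fr.A ω v)) ∂Fr.μ
  obtain ⟨hgc, hbc, -, hpt⟩ := hC _ M a g hA hgm hAb
  obtain ⟨hDc, -, -, -, -⟩ := hK _ M F a hFF hA
  obtain ⟨hGc, hG1, -, hG4, hG5⟩ := hG
  have hπ := Real.pi_pos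
  -- continuity
  have hm1 : MapsTo (fun z : E (Ix 1 Q) × E (Ix 1 Q) => z.1) {z | ON z.1 z.2} {x | x ≠ 0} := by
    intro z hz h0
    have h1 : ‖z.1‖ = 1 := hz.1
    have h0' : z.1 = 0 := h0
    rw [h0', norm_zero] at h1
    exact zero_ne_one h1
  have ca : ContinuousOn (fun z : E (Ix 1 Q) × E (Ix 1 Q) => a z.1) {z | ON z.1 z.2} :=
    hA.diff.continuousOn.comp continuous_fst.continuousOn hm1
  have cF : ContinuousOn (fun z : E (Ix 1 Q) × E (Ix 1 Q) => F (a z.1)) {z | ON z.1 z.2} :=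
    hFF.diff.continuousOn.comp ca (fun z hz => hA.range z.1 hz.1)
  have cs : ContinuousOn (fun z : E (Ix 1 Q) × E (Ix 1 Q) => Real.sqrt (g z.1 z.2 z.2))
      {z | ON z.1 z.2} := Real.continuous_sqrt.comp_continuousOn hgc
  have cp1 : ContinuousOn (fun z : E (Ix 1 Q) × E (Ix 1 Q) => (a z.1, bg a g z.1 z.2))
      {z | ON z.1 z.2} := ca.prodMk hbc
  have cp2 : ContinuousOn (fun z : E (Ix 1 Q) × E (Ix 1 Q) =>
      (a z.1, F (a z.1) * fderiv ℝ a z.1 z.2)) {z | ON z.1 z.2} := ca.prodMk (cF.mul hDc)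
  have hQc : Continuous (fun c : ℝ => (Q : ℝ) * c ^ (Q - 1)) := by fun_prop
  have c1 : ContinuousOn (fun z : E (Ix 1 Q) × E (Ix 1 Q) =>
      Gf (fun c => (Q : ℝ) * c ^ (Q - 1)) (a z.1) (bg a g z.1 z.2)) {z | ON z.1 z.2} :=
    comp_on (hGc _ hQc) cp1
  -- the mean length
  set R : ℝ := ∫ ω, Real.sqrt (g (Fr.A ω x) (Fr.A ω v) (Fr.A ω v)) ∂Fr.μ with hRdef
  have hR : L / Real.pi ≤ R := by
    have h1 := hF Q hQ Fr _ (2 * L) cs (fun x' v' h' => by
      have := hL _ g L hgm hSys hgc x' v' h'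
      linarith) x v hxv
    rw [div_le_iff₀ hπ]
    have h2 : 2 * L ≤ 2 * Real.pi * R := h1
    linarith
  have hR0 : 0 ≤ R := le_trans (by positivity) hR
  have c2 : ContinuousOn (fun z : E (Ix 1 Q) × E (Ix 1 Q) =>
      Gf (fR Q R) (a z.1) (F (a z.1) * fderiv ℝ a z.1 z.2)) {z | ON z.1 z.2} :=
    comp_on (hGc _ (fR_cont Q R)) cp2
  have c4 : ContinuousOn (fun z : E (Ix 1 Q) × E (Ix 1 Q) =>
      Gf (fR Q R) (a z.1) (bg a g z.1 z.2)) {z | ON z.1 z.2} :=
    comp_on (hGc _ (fR_cont Q R)) cp1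
  have i1 := intg Fr c1 hxv
  have i2 := intg Fr c2 hxv
  have i3 := intg Fr cs hxv
  have i4 := intg Fr c4 hxv
  have hTr := hT Q hQ Fr M R F a hFF hA hsp hR0 x v hxv
  -- comparison of the two excesses
  obtain ⟨J, hJ⟩ := exists_tan x hxv.1
  have hdis := hD Q hQ Fr (fun z => Gf (fR Q R) (a z.1) (bg a g z.1 z.2) -
    Gf (fR Q R) (a z.1) (F (a z.1) * fderiv ℝ a z.1 z.2)) (c4.sub c2) x v J hxv hJ
  have hcmp : ∫ ω, Gf (fR Q R) (a (Fr.A ω x)) (F (a (Fr.A ω x)) *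
      fderiv ℝ a (Fr.A ω x) (Fr.A ω v)) ∂Fr.μ ≤
      ∫ ω, Gf (fR Q R) (a (Fr.A ω x)) (bg a g (Fr.A ω x) (Fr.A ω v)) ∂Fr.μ := by
    have hnn0 : ∀ ω, 0 ≤ smean (fun w => Gf (fR Q R) (a (Fr.A ω x))
        (bg a g (Fr.A ω x) (Fr.A ω (J w))) - Gf (fR Q R) (a (Fr.A ω x))
        (F (a (Fr.A ω x)) * fderiv ℝ a (Fr.A ω x) (Fr.A ω (J w)))) := by
      intro ω
      set y := Fr.A ω x with hy
      have hy1 : ‖y‖ = 1 := by rw [hy, (Fr.A ω).norm_map]; exact hxv.1
      let T : E (Fin Q) →ₗᵢ[ℝ] E (Ix 1 Q) := (Fr.A ω).comp J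
      have hTy : ∀ w, T w = Fr.A ω (J w) := fun w => rfl
      have hTan : IsTan y T := by
        intro w
        rw [hTy, hy, (Fr.A ω).inner_map_map]
        exact hJ w
      have hON : ∀ w : E (Fin Q), ‖w‖ = 1 → ON y (T w) := by
        intro w hw
        exact ⟨hy1, by rw [T.norm_map, hw], hTan w⟩
      have hapos : 0 < a y := (hA.range _ hy1).1
      let β : E (Fin Q) → E (Fin Q) → ℝ := fun v w => g y (T v) (T w) - a y ^ 2 * inner ℝ v w
      have hβ : IsForm β := by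
        constructor
        · intro v v' w
          simp only [β, map_add, hgm.add, inner_add_left]
          ring
        · intro s v w
          simp only [β, map_smul, hgm.smul, inner_smul_left, conj_trivial]
          ring
        · intro v w
          simp only [β]
          rw [hgm.symm, real_inner_comm]
        · intro v
          have := hAb y (T v) hy1 (hTan v)
          rw [T.inner_map_map] at this
          simp only [β]
          linarith
      have hsq : ∀ w : E (Fin Q), ‖w‖ = 1 → Real.sqrt (β w w) = bg a g y (T w) := by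
        intro w hw
        simp only [β, bg]
        rw [real_inner_self_eq_norm_sq, hw]
        norm_num
      let ℓ : E (Fin Q) →L[ℝ] ℝ := (F (a y)) • (fderiv ℝ a y).comp T.toContinuousLinearMap
      let G : E (Fin Q) := (InnerProductSpace.toDual ℝ (E (Fin Q))).symm ℓ
      have hGw : ∀ w : E (Fin Q), (inner ℝ G w : ℝ) = F (a y) * fderiv ℝ a y (T w) := by
        intro w
        simp only [G, InnerProductSpace.toDual_symm_apply, ℓ]
        rfl
      obtain ⟨v1, v2, v3⟩ := hCv (fR Q R) (a y) (fR_cont Q R) hapos (fR_nonpos Q R hR0)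
      have hdom := hDom Q β G (fun b => -Gf (fR Q R) (a y) b) (by omega) hβ v1 v2 v3 (by
        have q1 : smean (fun w => Real.sqrt (β w w)) = smean (fun w => bg a g y (T w)) :=
          smean_congr hsq
        have q2 : smean (fun w => |(inner ℝ G w : ℝ)|) =
            smean (fun w => |F (a y) * fderiv ℝ a y (T w)|) :=
          smean_congr (fun w _ => by rw [hGw w])
        rw [q1, q2]
        exact hMB y T hy1 hTan)
      have e1 : smean (fun w => -Gf (fR Q R) (a y) (Real.sqrt (β w w))) =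
          -smean (fun w => Gf (fR Q R) (a y) (bg a g y (T w))) := by
        rw [smean_congr (h := fun w => -Gf (fR Q R) (a y) (bg a g y (T w)))
          (fun w hw => by rw [hsq w hw])]
        unfold smean
        rw [integral_neg]
      have e2 : smean (fun w => -Gf (fR Q R) (a y) |(inner ℝ G w : ℝ)|) =
          -smean (fun w => Gf (fR Q R) (a y) (F (a y) * fderiv ℝ a y (T w))) := by
        rw [smean_congr (h := fun w => -Gf (fR Q R) (a y) (F (a y) * fderiv ℝ a y (T w)))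
          (fun w _ => by rw [Gf_abs, hGw w])]
        unfold smean
        rw [integral_neg]
      have hdom' : -smean (fun w => Gf (fR Q R) (a y) (bg a g y (T w))) ≤
          -smean (fun w => Gf (fR Q R) (a y) (F (a y) * fderiv ℝ a y (T w))) := by
        rw [← e1, ← e2]
        exact hdom
      have hmap : MapsTo (fun w : E (Fin Q) => (y, T w)) (Metric.sphere (0 : E (Fin Q)) 1)
          {z | ON z.1 z.2} := by
        intro w hw
        exact hON w (by simpa using hw)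
      have hcT : ContinuousOn (fun w : E (Fin Q) => (y, T w))
          (Metric.sphere (0 : E (Fin Q)) 1) :=
        (continuous_const.prodMk T.continuous).continuousOn
      have s1 := intg_sphere (c4.comp hcT hmap)
      have s2 := intg_sphere (c2.comp hcT hmap)
      have e3 : smean (fun w => Gf (fR Q R) (a y) (bg a g y (T w)) -
          Gf (fR Q R) (a y) (F (a y) * fderiv ℝ a y (T w))) =
          smean (fun w => Gf (fR Q R) (a y) (bg a g y (T w))) -
          smean (fun w => Gf (fR Q R) (a y) (F (a y) * fderiv ℝ a y (T w))) := by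
        unfold smean
        exact integral_sub s1 s2
      have e4 : smean (fun w => Gf (fR Q R) (a y) (bg a g y (Fr.A ω (J w))) -
          Gf (fR Q R) (a y) (F (a y) * fderiv ℝ a y (Fr.A ω (J w)))) =
          smean (fun w => Gf (fR Q R) (a y) (bg a g y (T w)) -
          Gf (fR Q R) (a y) (F (a y) * fderiv ℝ a y (T w))) := rfl
      rw [e4, e3]
      linarith
    have hnn : 0 ≤ ∫ ω, smean (fun w => Gf (fR Q R) (a (Fr.A ω x))
        (bg a g (Fr.A ω x) (Fr.A ω (J w))) - Gf (fR Q R) (a (Fr.A ω x))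
        (F (a (Fr.A ω x)) * fderiv ℝ a (Fr.A ω x) (Fr.A ω (J w)))) ∂Fr.μ :=
      integral_nonneg hnn0
    have hpos := smean_one_pos (Q := Q) (by omega)
    have h0 : 0 ≤ ∫ ω, (Gf (fR Q R) (a (Fr.A ω x)) (bg a g (Fr.A ω x) (Fr.A ω v)) -
        Gf (fR Q R) (a (Fr.A ω x)) (F (a (Fr.A ω x)) *
        fderiv ℝ a (Fr.A ω x) (Fr.A ω v))) ∂Fr.μ := by
      have h1 : 0 ≤ smean (fun _ : E (Fin Q) => (1 : ℝ)) *
          ∫ ω, (Gf (fR Q R) (a (Fr.A ω x)) (bg a g (Fr.A ω x) (Fr.A ω v)) -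
        Gf (fR Q R) (a (Fr.A ω x)) (F (a (Fr.A ω x)) *
        fderiv ℝ a (Fr.A ω x) (Fr.A ω v))) ∂Fr.μ := by
        have h2 := hdis
        exact le_of_le_of_eq hnn h2.symm
      exact nonneg_of_mul_nonneg_right h1 hpos
    rw [integral_sub i4 i2] at h0
    linarith
  -- the pointwise inequality
  have hpw : ∀ ω, Gf (fR Q R) (a (Fr.A ω x)) (bg a g (Fr.A ω x) (Fr.A ω v)) ≤
      Gf (fun c => (Q : ℝ) * c ^ (Q - 1)) (a (Fr.A ω x)) (bg a g (Fr.A ω x) (Fr.A ω v)) -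
        Q * R ^ (Q - 1) * Real.sqrt (g (Fr.A ω x) (Fr.A ω v) (Fr.A ω v)) := by
    intro ω
    have hon := ON_map (Fr.A ω) hxv
    obtain ⟨p1, p3⟩ := hpt _ _ hon
    have hpos : 0 < a (Fr.A ω x) := (hA.range _ hon.1).1
    have h5 := hG5 Q R (a (Fr.A ω x)) (bg a g (Fr.A ω x) (Fr.A ω v)) (by omega) hR0 hpos
    rw [hG1 _ _ hpos, p3] at h5
    exact h5
  have hint : ∫ ω, Gf (fR Q R) (a (Fr.A ω x)) (bg a g (Fr.A ω x) (Fr.A ω v)) ∂Fr.μ ≤
      ∫ ω, (Gf (fun c => (Q : ℝ) * c ^ (Q - 1)) (a (Fr.A ω x))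
        (bg a g (Fr.A ω x) (Fr.A ω v)) -
        Q * R ^ (Q - 1) * Real.sqrt (g (Fr.A ω x) (Fr.A ω v) (Fr.A ω v))) ∂Fr.μ :=
    integral_mono i4 (i1.sub (i3.const_mul _)) hpw
  rw [integral_sub i1 (i3.const_mul _), integral_const_mul] at hint
  have hTr' : 0 ≤ (Q - 1 : ℝ) * R ^ Q + ∫ ω, Gf (fR Q R) (a (Fr.A ω x))
    (F (a (Fr.A ω x)) * fderiv ℝ a (Fr.A ω x) (Fr.A ω v)) ∂Fr.μ := hTr
  have hRQ : R ^ (Q - 1) * R = R ^ Q := by
    rw [← pow_succ]; congr 1; omega
  have h3 : (L / Real.pi) ^ Q ≤ R ^ Q := pow_le_pow_left₀ (by positivity) hR _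
  have h6 : (Q : ℝ) * R ^ (Q - 1) * R = Q * R ^ Q := by rw [mul_assoc, hRQ]
  have h7 : (Q : ℝ) * R ^ (Q - 1) *
      ∫ ω, Real.sqrt (g (Fr.A ω x) (Fr.A ω v) (Fr.A ω v)) ∂Fr.μ = Q * R ^ Q := h6
  rw [h7] at hint
  linarith

end Pool.Agent.Work.MP_02f065_gt.Cvx

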