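import Pool.Agent.Work.MP_02f065_gt.Cvx.Stmts6

/-!
MP_02f065_gt, block CVX6: the theorem in terms of `φ` and `r`.
-/

open MeasureTheory Set Filter Topology

noncomputable section

namespace Pool.Agent.Work.MP_02f065_gt.Cvx

open Pool.Agent.Work.MP_02f065_gt.RPn

theorem iMAIN6 (hF : StMainF6) (hR : StRed5) : StMain6 := by
  intro Q hQ φ α β r hW hsp g hg hab hmb
  obtain ⟨M, F, h1, h2, h3, h4⟩ := hR (Ix 1 Q) φ α β r hW
  refine hF Q hQ M F (fun x => φ (r x)) g h1 h2 (h4 hsp) hg hab ?_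
  intro x T hx hT
  have e : (fun w => |F ((fun x => φ (r x)) x) * fderiv ℝ (fun x => φ (r x)) x (T w)|) =
      fun w => |fderiv ℝ r x (T w)| := by
    funext w
    obtain ⟨h5, h6⟩ := h3 x hx
    rw [h6 (T w)]
    show |F (φ (r x)) * (deriv φ (r x) * fderiv ℝ r x (T w))| = _
    rw [← mul_assoc, h5, one_mul]
  rw [e]
  exact hmb x T hx hT

end Pool.Agent.Work.MP_02f065_gt.Cvx
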