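import Pool.Agent.Work.MP_02f065_gt.Cvx.Stmts4

open MeasureTheory Set Filter Topology

noncomputable section

namespace Pool.Agent.Work.MP_02f065_gt.Cvx

open Pool.Agent.Work.MP_02f065_gt.RPn

namespace XNCK3

lemma hasDeriv_F {κ lam v : ℝ} (hv : 0 < lam - κ * v ^ 2) :
    HasDerivAt (fun s => 1 / Real.sqrt (lam - κ * s ^ 2))
      (κ * v / Real.sqrt (lam - κ * v ^ 2) ^ 3) v := by
  have h1 : HasDerivAt (fun s : ℝ => lam - κ * s ^ 2) (-(κ * (2 * v))) v := by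
    have := ((hasDerivAt_pow 2 v).const_mul κ).const_sub lam
    refine this.congr_deriv ?_
    norm_num
  have h2 := h1.sqrt hv.ne'
  have hs : 0 < Real.sqrt (lam - κ * v ^ 2) := Real.sqrt_pos.mpr hv
  have h3 := h2.inv hs.ne'
  have h4 : (fun s => 1 / Real.sqrt (lam - κ * s ^ 2))
      = (fun s => Real.sqrt (lam - κ * s ^ 2))⁻¹ := by
    funext s
    simp
  rw [h4]
  refine h3.congr_deriv ?_
  field_simp

lemma smooth_F {κ lam v : ℝ} (hv : 0 < lam - κ * v ^ 2) :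
    ContDiffAt ℝ 1 (fun s => 1 / Real.sqrt (lam - κ * s ^ 2)) v := by
  have h1 : ContDiffAt ℝ 1 (fun s : ℝ => lam - κ * s ^ 2) v := by fun_prop
  have h2 := h1.sqrt hv.ne'
  exact contDiffAt_const.div h2 (Real.sqrt_pos.mpr hv).ne'

end XNCK3

open XNCK3 in
theorem iNCK3 : StNck3 := by
  intro κ lam M hκ h
  refine ⟨fun s hs => (smooth_F (h s hs)).contDiffWithinAt, fun s hs => by positivity, ?_⟩
  intro s hs χ hχ0 hχ
  have hcχ : 0 < Real.cos χ := Real.cos_pos_of_mem_Ioo ⟨by linarith [Real.pi_pos], hχ⟩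
  have hsχ : 0 ≤ Real.sin χ := Real.sin_nonneg_of_nonneg_of_le_pi hχ0 (by linarith [Real.pi_pos])
  obtain ⟨hs0, hsM⟩ := hs
  have hB : 0 < lam - κ * s ^ 2 := h s ⟨hs0, hsM⟩
  set c : ℝ := s * Real.cos χ with hc
  have hc0 : 0 < c := mul_pos hs0 hcχ
  have hcos : ∀ τ ∈ Icc (0 : ℝ) χ, Real.cos χ ≤ Real.cos τ := fun τ hτ =>
    Real.cos_le_cos_of_nonneg_of_le_pi hτ.1 (by linarith [Real.pi_pos]) hτ.2
  have hcos0 : ∀ τ ∈ Icc (0 : ℝ) χ, 0 < Real.cos τ := fun τ hτ => hcχ.trans_le (hcos τ hτ)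
  have hq : ∀ τ ∈ Icc (0 : ℝ) χ, 0 < lam * Real.cos τ ^ 2 - κ * c ^ 2 := by
    intro τ hτ
    have h1 := hcos τ hτ
    have hlam : 0 < lam := by nlinarith [mul_pos hκ (pow_pos hs0 2)]
    have h2 : Real.cos χ ^ 2 ≤ Real.cos τ ^ 2 := by
      exact pow_le_pow_left₀ hcχ.le h1 2
    have h3 : 0 < Real.cos χ ^ 2 * (lam - κ * s ^ 2) := mul_pos (pow_pos hcχ 2) hB
    have h4 : lam * Real.cos χ ^ 2 ≤ lam * Real.cos τ ^ 2 := mul_le_mul_of_nonneg_left h2 hlam.le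
    rw [hc]
    nlinarith
  have hA : 0 < lam - κ * c ^ 2 := by
    have := hq 0 ⟨le_rfl, hχ0⟩
    simpa using this
  have hq' : ∀ τ, lam * Real.cos τ ^ 2 - κ * c ^ 2
      = (lam - κ * c ^ 2) - lam * Real.sin τ ^ 2 := by
    intro τ
    have := Real.sin_sq_add_cos_sq τ
    have h5 : Real.cos τ ^ 2 = 1 - Real.sin τ ^ 2 := by linarith
    rw [h5]
    ring
  -- the integrand
  have hint : ∀ τ ∈ Icc (0 : ℝ) χ,
      deriv (fun s => 1 / Real.sqrt (lam - κ * s ^ 2)) (c / Real.cos τ) / Real.cos τ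
        = κ * c * Real.cos τ / Real.sqrt (lam * Real.cos τ ^ 2 - κ * c ^ 2) ^ 3 := by
    intro τ hτ
    have hct := hcos0 τ hτ
    have hqt := hq τ hτ
    have h1 : lam - κ * (c / Real.cos τ) ^ 2
        = (lam * Real.cos τ ^ 2 - κ * c ^ 2) / Real.cos τ ^ 2 := by
      field_simp
    have h2 : 0 < lam - κ * (c / Real.cos τ) ^ 2 := by
      rw [h1]
      positivity
    rw [(hasDeriv_F h2).deriv, h1, Real.sqrt_div hqt.le, Real.sqrt_sq hct.le]
    have hsq : 0 < Real.sqrt (lam * Real.cos τ ^ 2 - κ * c ^ 2) := Real.sqrt_pos.mpr hqt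
    field_simp
  have hP : ∀ τ ∈ Icc (0 : ℝ) χ,
      HasDerivAt (fun τ => κ * c * Real.sin τ /
        ((lam - κ * c ^ 2) * Real.sqrt (lam * Real.cos τ ^ 2 - κ * c ^ 2)))
        (κ * c * Real.cos τ / Real.sqrt (lam * Real.cos τ ^ 2 - κ * c ^ 2) ^ 3) τ := by
    intro τ hτ
    have hqt := hq τ hτ
    have hsq : 0 < Real.sqrt (lam * Real.cos τ ^ 2 - κ * c ^ 2) := Real.sqrt_pos.mpr hqt
    have h1 : HasDerivAt (fun τ => lam * Real.cos τ ^ 2 - κ * c ^ 2)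
        (-(2 * lam * Real.sin τ * Real.cos τ)) τ := by
      have := (((Real.hasDerivAt_cos τ).pow 2).const_mul lam).sub_const (κ * c ^ 2)
      refine this.congr_deriv ?_
      norm_num
      ring
    have h2 := (h1.sqrt hqt.ne').const_mul (lam - κ * c ^ 2)
    have h3 := ((Real.hasDerivAt_sin τ).const_mul (κ * c)).div h2 (mul_pos hA hsq).ne'
    refine h3.congr_deriv ?_
    have h4 : Real.sqrt (lam * Real.cos τ ^ 2 - κ * c ^ 2) ^ 2
        = (lam - κ * c ^ 2) - lam * Real.sin τ ^ 2 := by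
      rw [Real.sq_sqrt hqt.le, hq']
    set R := Real.sqrt (lam * Real.cos τ ^ 2 - κ * c ^ 2) with hR
    rw [div_eq_div_iff (by positivity) (by positivity)]
    field_simp
    have h6 : (lam - κ * c ^ 2) = R ^ 2 + lam * Real.sin τ ^ 2 := by linarith
    rw [h6]
    ring
  have hcont : ContinuousOn (fun τ => κ * c * Real.cos τ /
      Real.sqrt (lam * Real.cos τ ^ 2 - κ * c ^ 2) ^ 3) (Icc 0 χ) := by
    refine ContinuousOn.div (by fun_prop) (by fun_prop) fun τ hτ => ?_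
    have := Real.sqrt_pos.mpr (hq τ hτ)
    positivity
  have hI : (∫ τ in (0 : ℝ)..χ,
      deriv (fun s => 1 / Real.sqrt (lam - κ * s ^ 2)) (c / Real.cos τ) / Real.cos τ)
      = κ * c * Real.sin χ /
        ((lam - κ * c ^ 2) * Real.sqrt (lam * Real.cos χ ^ 2 - κ * c ^ 2)) := by
    have h1 : (∫ τ in (0 : ℝ)..χ,
        deriv (fun s => 1 / Real.sqrt (lam - κ * s ^ 2)) (c / Real.cos τ) / Real.cos τ)
        = ∫ τ in (0 : ℝ)..χ, κ * c * Real.cos τ /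
          Real.sqrt (lam * Real.cos τ ^ 2 - κ * c ^ 2) ^ 3 := by
      refine intervalIntegral.integral_congr fun τ hτ => ?_
      rw [uIcc_of_le hχ0] at hτ
      exact hint τ hτ
    rw [h1, intervalIntegral.integral_eq_sub_of_hasDerivAt (f := fun τ => κ * c * Real.sin τ /
        ((lam - κ * c ^ 2) * Real.sqrt (lam * Real.cos τ ^ 2 - κ * c ^ 2)))]
    · simp
    · intro τ hτ
      rw [uIcc_of_le hχ0] at hτ
      exact hP τ hτ
    · refine ContinuousOn.intervalIntegrable ?_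
      rw [uIcc_of_le hχ0]
      exact hcont
  rw [hI]
  have hR : 0 < Real.sqrt (lam - κ * s ^ 2) := Real.sqrt_pos.mpr hB
  have h7 : Real.sqrt (lam * Real.cos χ ^ 2 - κ * c ^ 2)
      = Real.cos χ * Real.sqrt (lam - κ * s ^ 2) := by
    have : lam * Real.cos χ ^ 2 - κ * c ^ 2 = Real.cos χ ^ 2 * (lam - κ * s ^ 2) := by
      rw [hc]
      ring
    rw [this, Real.sqrt_mul (by positivity), Real.sqrt_sq hcχ.le]
  rw [h7]
  have h8 : s * Real.sin χ * (κ * c * Real.sin χ /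
      ((lam - κ * c ^ 2) * (Real.cos χ * Real.sqrt (lam - κ * s ^ 2))))
      = (κ * s ^ 2 * Real.sin χ ^ 2) / (lam - κ * c ^ 2) * (1 / Real.sqrt (lam - κ * s ^ 2)) := by
    rw [hc] at hA ⊢
    field_simp
  rw [h8]
  have h9 : (κ * s ^ 2 * Real.sin χ ^ 2) / (lam - κ * c ^ 2) ≤ 1 := by
    rw [div_le_one hA, hc]
    have h10 : κ * s ^ 2 * Real.sin χ ^ 2 + κ * (s * Real.cos χ) ^ 2 = κ * s ^ 2 := by
      have := Real.sin_sq_add_cos_sq χ
      calc κ * s ^ 2 * Real.sin χ ^ 2 + κ * (s * Real.cos χ) ^ 2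
          = κ * s ^ 2 * (Real.sin χ ^ 2 + Real.cos χ ^ 2) := by ring
        _ = κ * s ^ 2 := by rw [this, mul_one]
    linarith
  calc (κ * s ^ 2 * Real.sin χ ^ 2) / (lam - κ * c ^ 2) * (1 / Real.sqrt (lam - κ * s ^ 2))
      ≤ 1 * (1 / Real.sqrt (lam - κ * s ^ 2)) :=
        mul_le_mul_of_nonneg_right h9 (by positivity)
    _ = _ := one_mul _

end Pool.Agent.Work.MP_02f065_gt.Cvx
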