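import Pool.Agent.Work.MP_02f065_gt.Cvx.Stmts3

/-!
MP_02f065_gt, block CVX3, item PAR3: integration by parts.
-/

open MeasureTheory Set Filter Topology

noncomputable section

namespace Pool.Agent.Work.MP_02f065_gt.Cvx

open Pool.Agent.Work.MP_02f065_gt.RPn

namespace XPAR3

lemma cos_ge {χ τ : ℝ} (hχ : χ ∈ Ioo (-(Real.pi / 2)) (Real.pi / 2)) (hτ : τ ∈ uIcc 0 χ) :
    Real.cos χ ≤ Real.cos τ := by
  have h1 : |τ| ≤ |χ| := by
    rcases le_total 0 χ with h | h
    · rw [uIcc_of_le h] at hτ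
      rw [abs_of_nonneg hτ.1, abs_of_nonneg h]; exact hτ.2
    · rw [uIcc_of_ge h] at hτ
      rw [abs_of_nonpos hτ.2, abs_of_nonpos h]; linarith [hτ.1]
  have h2 : |χ| < Real.pi / 2 := abs_lt.2 ⟨hχ.1, hχ.2⟩
  rw [← Real.cos_abs χ, ← Real.cos_abs τ]
  exact Real.cos_le_cos_of_nonneg_of_le_pi (abs_nonneg _) (by linarith [Real.pi_pos]) h1

lemma dCm (m : ℕ) (τ : ℝ) : HasDerivAt (Cm m) (Real.cos τ ^ m) τ := by
  have hc : Continuous fun t : ℝ => Real.cos t ^ m := by fun_prop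
  exact intervalIntegral.integral_hasDerivAt_right (hc.intervalIntegrable _ _)
    (hc.stronglyMeasurableAtFilter _ _) hc.continuousAt

lemma dP (F : ℝ → ℝ) (n : ℕ) (k τ : ℝ) (hc : 0 < Real.cos τ)
    (hF : DifferentiableAt ℝ F (k / Real.cos τ)) :
    HasDerivAt (fun t => F (k / Real.cos t) *
      (((n + 1 : ℕ) : ℝ) * Cm (n + 1) t / Real.cos t ^ (n + 1)))
      (k * (deriv F (k / Real.cos τ) / Real.cos τ * gm (n + 1) τ) -
        k * (deriv F (k / Real.cos τ) / Real.cos τ * 1) +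
        ((n + 1 : ℕ) : ℝ) * (F (k / Real.cos τ) * gm (n + 1) τ)) τ := by
  have h0 : Real.cos τ ≠ 0 := hc.ne'
  have h1 : HasDerivAt (fun t => k / Real.cos t) (k * Real.sin τ / Real.cos τ ^ 2) τ := by
    have h := (hasDerivAt_const τ k).div (Real.hasDerivAt_cos τ) h0
    refine h.congr_deriv ?_
    simp
  have h2 : HasDerivAt (fun t => F (k / Real.cos t))
      (deriv F (k / Real.cos τ) * (k * Real.sin τ / Real.cos τ ^ 2)) τ :=
    HasDerivAt.comp (h₂ := F) τ hF.hasDerivAt h1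
  have h3 : HasDerivAt (fun t => Real.cos t ^ (n + 1))
      (((n + 1 : ℕ) : ℝ) * Real.cos τ ^ n * (-Real.sin τ)) τ := by
    have h := (Real.hasDerivAt_cos τ).pow (n + 1)
    exact h
  have h4 : HasDerivAt (fun t => ((n + 1 : ℕ) : ℝ) * Cm (n + 1) t / Real.cos t ^ (n + 1))
      ((((n + 1 : ℕ) : ℝ) * Real.cos τ ^ (n + 1) * Real.cos τ ^ (n + 1) -
        ((n + 1 : ℕ) : ℝ) * Cm (n + 1) τ * (((n + 1 : ℕ) : ℝ) * Real.cos τ ^ n *
          (-Real.sin τ))) / (Real.cos τ ^ (n + 1)) ^ 2) τ :=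
    ((dCm (n + 1) τ).const_mul ((n + 1 : ℕ) : ℝ)).div h3 (pow_ne_zero _ h0)
  refine (h2.mul h4).congr_deriv ?_
  unfold gm
  generalize Cm (n + 1) τ = C
  generalize deriv F (k / Real.cos τ) = D
  generalize F (k / Real.cos τ) = G
  generalize ((n + 1 : ℕ) : ℝ) = N
  generalize Real.sin τ = s
  generalize Real.cos τ = c at h0
  field_simp
  ring

end XPAR3

open XPAR3

theorem iPAR3 : StPar3 := by
  intro M F m k χ hF hR
  obtain ⟨hk, hχ, hM⟩ := hR
  simp only at hk hχ hM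
  have hcχ : 0 < Real.cos χ := Real.cos_pos_of_mem_Ioo hχ
  have hcos : ∀ τ ∈ uIcc 0 χ, 0 < Real.cos τ := fun τ hτ => hcχ.trans_le (cos_ge hχ hτ)
  have hmem : ∀ τ ∈ uIcc 0 χ, k / Real.cos τ ∈ Ioo 0 M := fun τ hτ =>
    ⟨div_pos hk (hcos τ hτ), (div_le_div_of_nonneg_left hk.le hcχ (cos_ge hχ hτ)).trans_lt hM⟩
  rcases m with _ | n
  · simp [gm]
  have hq : ContinuousOn (fun τ => k / Real.cos τ) (uIcc 0 χ) :=
    continuousOn_const.div Real.continuous_cos.continuousOn fun τ hτ => (hcos τ hτ).ne'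
  have cF : ContinuousOn (fun τ => F (k / Real.cos τ)) (uIcc 0 χ) :=
    hF.continuousOn.comp hq hmem
  have cD : ContinuousOn (fun τ => deriv F (k / Real.cos τ) / Real.cos τ) (uIcc 0 χ) :=
    ((hF.continuousOn_deriv_of_isOpen isOpen_Ioo le_rfl).comp hq hmem).div
      Real.continuous_cos.continuousOn fun τ hτ => (hcos τ hτ).ne'
  have cC : Continuous (Cm (n + 1)) :=
    continuous_iff_continuousAt.2 fun τ => (dCm (n + 1) τ).continuousAt
  have cg : ContinuousOn (gm (n + 1)) (uIcc 0 χ) := by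
    unfold gm
    refine continuousOn_const.add (ContinuousOn.div ?_ ?_ fun τ hτ =>
      pow_ne_zero _ (hcos τ hτ).ne')
    · exact ((continuous_const.mul Real.continuous_sin).mul cC).continuousOn
    · exact (Real.continuous_cos.pow _).continuousOn
  have iA : IntervalIntegrable (fun τ => deriv F (k / Real.cos τ) / Real.cos τ * gm (n + 1) τ)
      volume 0 χ := (cD.mul cg).intervalIntegrable
  have iB : IntervalIntegrable (fun τ => deriv F (k / Real.cos τ) / Real.cos τ * 1)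
      volume 0 χ := (cD.mul continuousOn_const).intervalIntegrable
  have iC : IntervalIntegrable (fun τ => F (k / Real.cos τ) * gm (n + 1) τ)
      volume 0 χ := (cF.mul cg).intervalIntegrable
  rw [← intervalIntegral.integral_const_mul, ← intervalIntegral.integral_const_mul,
    ← intervalIntegral.integral_const_mul,
    ← intervalIntegral.integral_sub (iA.const_mul k) (iB.const_mul k),
    ← intervalIntegral.integral_add ((iA.const_mul k).sub (iB.const_mul k))
      (iC.const_mul ((n + 1 : ℕ) : ℝ))]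
  rw [intervalIntegral.integral_eq_sub_of_hasDerivAt
    (f := fun t => F (k / Real.cos t) * (((n + 1 : ℕ) : ℝ) * Cm (n + 1) t / Real.cos t ^ (n + 1)))
    (fun τ hτ => dP F n k τ (hcos τ hτ)
      ((hF.differentiableOn one_ne_zero).differentiableAt (isOpen_Ioo.mem_nhds (hmem τ hτ))))
    (((iA.const_mul k).sub (iB.const_mul k)).add (iC.const_mul ((n + 1 : ℕ) : ℝ)))]
  simp [Cm]

end Pool.Agent.Work.MP_02f065_gt.Cvx
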