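import Pool.Agent.Work.MP_02f065_gt.Cvx.Stmts5

/-!
MP_02f065_gt, block CVX5, item POL5: the identity for all continuous weights.
-/

open MeasureTheory Set Filter Topology

noncomputable section

namespace Pool.Agent.Work.MP_02f065_gt.Cvx

open Pool.Agent.Work.MP_02f065_gt.RPn

namespace XPOL5

variable {ι : Type} [Fintype ι]

theorem ON_map (A : E ι →ₗᵢ[ℝ] E ι) {x v : E ι} (h : ON x v) : ON (A x) (A v) := by
  obtain ⟨h1, h2, h3⟩ := h
  refine ⟨by rw [A.norm_map, h1], by rw [A.norm_map, h2], by rw [A.inner_map_map, h3]⟩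

theorem closed_ON : IsClosed {z : E ι × E ι | ON z.1 z.2} := by
  have h1 : IsClosed {z : E ι × E ι | ‖z.1‖ = 1} :=
    isClosed_eq continuous_fst.norm continuous_const
  have h2 : IsClosed {z : E ι × E ι | ‖z.2‖ = 1} :=
    isClosed_eq continuous_snd.norm continuous_const
  have h3 : IsClosed {z : E ι × E ι | inner ℝ z.1 z.2 = 0} :=
    isClosed_eq (continuous_fst.inner continuous_snd) continuous_const
  have : {z : E ι × E ι | ON z.1 z.2} =
      {z : E ι × E ι | ‖z.1‖ = 1} ∩ ({z : E ι × E ι | ‖z.2‖ = 1} ∩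
        {z : E ι × E ι | inner ℝ z.1 z.2 = 0}) := by
    ext z
    simp [ON]
  rw [this]
  exact h1.inter (h2.inter h3)

theorem compact_ON : IsCompact {z : E ι × E ι | ON z.1 z.2} := by
  have h : IsCompact (Metric.sphere (0 : E ι) 1 ×ˢ Metric.sphere (0 : E ι) 1) :=
    (isCompact_sphere 0 1).prod (isCompact_sphere 0 1)
  refine h.of_isClosed_subset closed_ON ?_
  rintro z ⟨h1, h2, -⟩
  exact ⟨by simp [h1], by simp [h2]⟩

/-- Integrability of continuous functions of the frame. -/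
theorem intg (Fr : Frames ι) {H : E ι × E ι → ℝ}
    (hH : ContinuousOn H {z | ON z.1 z.2}) {x v : E ι} (hxv : ON x v) :
    letI := Fr.ms
    Integrable (fun ω => H (Fr.A ω x, Fr.A ω v)) Fr.μ := by
  classical
  let _ := Fr.ms
  have := Fr.prob
  obtain ⟨C, hC⟩ := compact_ON.exists_bound_of_continuousOn hH
  have hm : Measurable ({z : E ι × E ι | ON z.1 z.2}.piecewise H (fun _ => 0)) :=
    hH.measurable_piecewise continuousOn_const closed_ON.measurableSet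
  have e : (fun ω => H (Fr.A ω x, Fr.A ω v)) = fun ω =>
      ({z : E ι × E ι | ON z.1 z.2}.piecewise H (fun _ => 0)) (Fr.A ω x, Fr.A ω v) := by
    funext ω
    rw [Set.piecewise_eq_of_mem]
    exact ON_map (Fr.A ω) hxv
  have hm2 : Measurable (fun ω => H (Fr.A ω x, Fr.A ω v)) := by
    rw [e]
    exact hm.comp ((Fr.meas x).prodMk (Fr.meas v))
  refine Integrable.of_bound hm2.aestronglyMeasurable C (Filter.Eventually.of_forall fun ω => ?_)
  exact hC _ (ON_map (Fr.A ω) hxv)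

theorem Gf_cont {f : ℝ → ℝ} (hf : Continuous f) (A b : ℝ) : Continuous (fun θ : ℝ =>
    f (A * Real.cos θ) * max (A * Real.sin θ) (|b| * Real.cos θ)) := by
  have h1 : Continuous (fun θ : ℝ => f (A * Real.cos θ)) := hf.comp (by fun_prop)
  exact h1.mul (by fun_prop)

theorem Gf_add {f g : ℝ → ℝ} (hf : Continuous f) (hg : Continuous g) (A b : ℝ) :
    Gf (fun c => f c + g c) A b = Gf f A b + Gf g A b := by
  unfold Gf
  rw [← intervalIntegral.integral_add ((Gf_cont hf A b).intervalIntegrable _ _)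
    ((Gf_cont hg A b).intervalIntegrable _ _)]
  refine intervalIntegral.integral_congr (fun θ _ => ?_)
  simp only
  ring

theorem Gf_mul (r : ℝ) (f : ℝ → ℝ) (A b : ℝ) :
    Gf (fun c => r * f c) A b = r * Gf f A b := by
  unfold Gf
  rw [← intervalIntegral.integral_const_mul]
  refine intervalIntegral.integral_congr (fun θ _ => ?_)
  simp only
  ring

theorem Gf_bound {f g : ℝ → ℝ} (hf : Continuous f) (hg : Continuous g) {A b M B ε : ℝ}
    (hA0 : 0 < A) (hAM : A ≤ M) (hb : |b| ≤ B) (hε : ∀ c ∈ Icc (0 : ℝ) M, |f c - g c| ≤ ε) :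
    |Gf f A b - Gf g A b| ≤ ε * (M + B) * (Real.pi / 2) := by
  have hpi := Real.pi_pos
  have hM0 : 0 ≤ M := hA0.le.trans hAM
  have hε0 : 0 ≤ ε := (abs_nonneg _).trans (hε 0 ⟨le_refl _, hM0⟩)
  have hB0 : 0 ≤ B := (abs_nonneg _).trans hb
  unfold Gf
  rw [← intervalIntegral.integral_sub ((Gf_cont hf A b).intervalIntegrable _ _)
    ((Gf_cont hg A b).intervalIntegrable _ _)]
  have h := intervalIntegral.norm_integral_le_of_norm_le_const (a := (0 : ℝ)) (b := Real.pi / 2)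
    (C := ε * (M + B)) (f := fun θ : ℝ =>
      f (A * Real.cos θ) * max (A * Real.sin θ) (|b| * Real.cos θ) -
      g (A * Real.cos θ) * max (A * Real.sin θ) (|b| * Real.cos θ)) ?_
  · rw [Real.norm_eq_abs, sub_zero, abs_of_pos (by positivity : (0 : ℝ) < Real.pi / 2)] at h
    exact h
  · intro θ hθ
    rw [uIoc_of_le (by positivity)] at hθ
    have hc0 : 0 ≤ Real.cos θ := Real.cos_nonneg_of_mem_Icc ⟨by linarith [hθ.1], hθ.2⟩
    have hs0 : 0 ≤ Real.sin θ := Real.sin_nonneg_of_nonneg_of_le_pi hθ.1.le (by linarith [hθ.2])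
    have hc1 := Real.cos_le_one θ
    have hs1 := Real.sin_le_one θ
    rw [← sub_mul, Real.norm_eq_abs, abs_mul]
    refine mul_le_mul (hε _ ⟨by positivity, ?_⟩) ?_ (abs_nonneg _) hε0
    · calc A * Real.cos θ ≤ A * 1 := mul_le_mul_of_nonneg_left hc1 hA0.le
        _ ≤ M := by rw [mul_one]; exact hAM
    · rw [abs_of_nonneg (le_max_of_le_left (by positivity))]
      refine max_le ?_ ?_
      · calc A * Real.sin θ ≤ A * 1 := mul_le_mul_of_nonneg_left hs1 hA0.le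
          _ ≤ M + B := by linarith
      · calc |b| * Real.cos θ ≤ |b| * 1 := mul_le_mul_of_nonneg_left hc1 (abs_nonneg _)
          _ ≤ M + B := by linarith

theorem prim_bound {f g : ℝ → ℝ} (hf : Continuous f) (hg : Continuous g) {k M ε : ℝ}
    (hk0 : 0 ≤ k) (hkM : k ≤ M) (hε : ∀ c ∈ Icc (0 : ℝ) M, |f c - g c| ≤ ε) :
    |(∫ c in (0 : ℝ)..k, f c) - ∫ c in (0 : ℝ)..k, g c| ≤ ε * M := by
  have hM0 : 0 ≤ M := hk0.trans hkM
  have hε0 : 0 ≤ ε := (abs_nonneg _).trans (hε 0 ⟨le_refl _, hM0⟩)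
  rw [← intervalIntegral.integral_sub (hf.intervalIntegrable _ _) (hg.intervalIntegrable _ _)]
  have h := intervalIntegral.norm_integral_le_of_norm_le_const (a := (0 : ℝ)) (b := k)
    (C := ε) (f := fun c : ℝ => f c - g c) ?_
  · rw [Real.norm_eq_abs, sub_zero, abs_of_nonneg hk0] at h
    exact h.trans (mul_le_mul_of_nonneg_left hkM hε0)
  · intro c hc
    rw [uIoc_of_le hk0] at hc
    rw [Real.norm_eq_abs]
    exact hε _ ⟨hc.1.le, hc.2.trans hkM⟩

end XPOL5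

open XPOL5 in
theorem iPOL5 (hS : StSca3) (hK : StCon3) (hC : StCir3) (hF : StFlo3) (hc : StCos3)
    (hG : StGf5) : StPol5 := by
  intro Q hQ Fr M F a f hFF hA hf x v hxv
  let _ := Fr.ms
  have := Fr.prob
  change ∫ ω, Gf f (a (Fr.A ω x)) (F (a (Fr.A ω x)) * fderiv ℝ a (Fr.A ω x) (Fr.A ω v)) ∂Fr.μ =
    ∫ ω, (∫ c in (0 : ℝ)..(kS F (a (Fr.A ω x)) (fderiv ℝ a (Fr.A ω x) (Fr.A ω v))), f c) *
      fD F a (Fr.A ω x) (Fr.A ω v) ∂Fr.μ
  obtain ⟨hac, -, hkc, hfc, hgc⟩ := hK _ M F a hFF hA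
  obtain ⟨-, -, -, hsc⟩ := hS M F hFF
  obtain ⟨hG1, -, hG3, -, -⟩ := hG
  have hπ := Real.pi_pos
  set K : Set (E (Ix 1 Q) × E (Ix 1 Q)) := {z | ON z.1 z.2} with hKd
  have hm1 : MapsTo (fun z : E (Ix 1 Q) × E (Ix 1 Q) => z.1) K {x | x ≠ 0} := by
    intro z hz h0
    have h1 : ‖z.1‖ = 1 := hz.1
    have h0' : z.1 = 0 := h0
    rw [h0', norm_zero] at h1
    exact zero_ne_one h1
  have ca : ContinuousOn (fun z : E (Ix 1 Q) × E (Ix 1 Q) => a z.1) K :=
    hA.diff.continuousOn.comp continuous_fst.continuousOn hm1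
  have cF : ContinuousOn (fun z : E (Ix 1 Q) × E (Ix 1 Q) => F (a z.1)) K :=
    hFF.diff.continuousOn.comp ca (fun z hz => hA.range z.1 hz.1)
  have cb : ContinuousOn (fun z : E (Ix 1 Q) × E (Ix 1 Q) =>
      F (a z.1) * fderiv ℝ a z.1 z.2) K := cF.mul hac
  -- the two sides as functions
  have cG : ∀ g : ℝ → ℝ, Continuous g → ContinuousOn (fun z : E (Ix 1 Q) × E (Ix 1 Q) =>
      Gf g (a z.1) (F (a z.1) * fderiv ℝ a z.1 z.2)) K := fun g hg =>
    (hG1 g hg).comp_continuousOn (ca.prodMk cb)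
  have cP : ∀ g : ℝ → ℝ, Continuous g → ContinuousOn (fun z : E (Ix 1 Q) × E (Ix 1 Q) =>
      (∫ c in (0 : ℝ)..(kS F (a z.1) (fderiv ℝ a z.1 z.2)), g c) * fD F a z.1 z.2) K :=
    fun g hg => ((intervalIntegral.continuous_primitive
      (fun a b => hg.intervalIntegrable a b) 0).comp_continuousOn hkc).mul hfc
  have iG : ∀ g : ℝ → ℝ, Continuous g → Integrable (fun ω => Gf g (a (Fr.A ω x))
      (F (a (Fr.A ω x)) * fderiv ℝ a (Fr.A ω x) (Fr.A ω v))) Fr.μ := fun g hg =>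
    intg Fr (cG g hg) hxv
  have iP : ∀ g : ℝ → ℝ, Continuous g → Integrable (fun ω =>
      (∫ c in (0 : ℝ)..(kS F (a (Fr.A ω x)) (fderiv ℝ a (Fr.A ω x) (Fr.A ω v))), g c) *
        fD F a (Fr.A ω x) (Fr.A ω v)) Fr.μ := fun g hg => intg Fr (cP g hg) hxv
  -- the identity for the powers
  have hkfc : ∀ m : ℕ, ContinuousOn (fun z : E (Ix 1 Q) × E (Ix 1 Q) =>
      kS F (a z.1) (fderiv ℝ a z.1 z.2) ^ m * fD F a z.1 z.2) {z | ON z.1 z.2} := fun m =>
    (hkc.pow m).mul hfc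
  have iGS : ∀ m : ℕ, Integrable (fun ω => GS m F (a (Fr.A ω x))
      (fderiv ℝ a (Fr.A ω x) (Fr.A ω v))) Fr.μ := fun m => intg Fr (hgc m) hxv
  have iK : ∀ m : ℕ, Integrable (fun ω => kS F (a (Fr.A ω x))
      (fderiv ℝ a (Fr.A ω x) (Fr.A ω v)) ^ m * fD F a (Fr.A ω x) (Fr.A ω v)) Fr.μ := fun m =>
    intg Fr (hkfc m) hxv
  have eq : ∀ m : ℕ, ∫ ω, GS m F (a (Fr.A ω x)) (fderiv ℝ a (Fr.A ω x) (Fr.A ω v)) ∂Fr.μ =
      ∫ ω, kS F (a (Fr.A ω x)) (fderiv ℝ a (Fr.A ω x) (Fr.A ω v)) ^ m *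
        fD F a (Fr.A ω x) (Fr.A ω v) ∂Fr.μ := by
    intro m
    have hc1 : ContinuousOn (fun z : E (Ix 1 Q) × E (Ix 1 Q) =>
        GS m F (a z.1) (fderiv ℝ a z.1 z.2) -
          kS F (a z.1) (fderiv ℝ a z.1 z.2) ^ m * fD F a z.1 z.2) {z | ON z.1 z.2} :=
      (hgc m).sub (hkfc m)
    have hc2 : ContinuousOn (fun z : E (Ix 1 Q) × E (Ix 1 Q) =>
        -(GS m F (a z.1) (fderiv ℝ a z.1 z.2) -
          kS F (a z.1) (fderiv ℝ a z.1 z.2) ^ m * fD F a z.1 z.2)) {z | ON z.1 z.2} :=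
      hc1.neg
    have h1 := hF Q hQ Fr _ 0 hc1 (fun x' v' h' => (hC _ M F a hFF hA m x' v' h').ge) x v hxv
    have h2 := hF Q hQ Fr _ 0 hc2 (fun x' v' h' => by
      rw [intervalIntegral.integral_neg, hC _ M F a hFF hA m x' v' h', neg_zero]) x v hxv
    have h3 : ∫ ω, (GS m F (a (Fr.A ω x)) (fderiv ℝ a (Fr.A ω x) (Fr.A ω v)) -
        kS F (a (Fr.A ω x)) (fderiv ℝ a (Fr.A ω x) (Fr.A ω v)) ^ m *
          fD F a (Fr.A ω x) (Fr.A ω v)) ∂Fr.μ =
        ∫ ω, GS m F (a (Fr.A ω x)) (fderiv ℝ a (Fr.A ω x) (Fr.A ω v)) ∂Fr.μ -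
        ∫ ω, kS F (a (Fr.A ω x)) (fderiv ℝ a (Fr.A ω x) (Fr.A ω v)) ^ m *
          fD F a (Fr.A ω x) (Fr.A ω v) ∂Fr.μ := integral_sub (iGS m) (iK m)
    have h4 : ∫ ω, -(GS m F (a (Fr.A ω x)) (fderiv ℝ a (Fr.A ω x) (Fr.A ω v)) -
        kS F (a (Fr.A ω x)) (fderiv ℝ a (Fr.A ω x) (Fr.A ω v)) ^ m *
          fD F a (Fr.A ω x) (Fr.A ω v)) ∂Fr.μ =
        -(∫ ω, GS m F (a (Fr.A ω x)) (fderiv ℝ a (Fr.A ω x) (Fr.A ω v)) ∂Fr.μ -
        ∫ ω, kS F (a (Fr.A ω x)) (fderiv ℝ a (Fr.A ω x) (Fr.A ω v)) ^ m *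
          fD F a (Fr.A ω x) (Fr.A ω v) ∂Fr.μ) := by
      rw [integral_neg, h3]
    simp only [h3] at h1
    simp only [h4] at h2
    have h5 : 0 < 2 * Real.pi := by positivity
    have h6 := nonneg_of_mul_nonneg_right h1 h5
    have h7 := nonneg_of_mul_nonneg_right h2 h5
    linarith
  -- the identity for the monomials
  have mono : ∀ m : ℕ, ∫ ω, Gf (fun c => c ^ m) (a (Fr.A ω x))
        (F (a (Fr.A ω x)) * fderiv ℝ a (Fr.A ω x) (Fr.A ω v)) ∂Fr.μ =
      ∫ ω, (∫ c in (0 : ℝ)..(kS F (a (Fr.A ω x)) (fderiv ℝ a (Fr.A ω x) (Fr.A ω v))), c ^ m) *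
        fD F a (Fr.A ω x) (Fr.A ω v) ∂Fr.μ := by
    intro m
    have hm : (m + 1 : ℝ) ≠ 0 := by positivity
    have h1 : (fun ω => Gf (fun c => c ^ m) (a (Fr.A ω x))
        (F (a (Fr.A ω x)) * fderiv ℝ a (Fr.A ω x) (Fr.A ω v))) = fun ω =>
        (m + 1 : ℝ)⁻¹ * GS (m + 1) F (a (Fr.A ω x)) (fderiv ℝ a (Fr.A ω x) (Fr.A ω v)) := by
      funext ω
      have hr : 0 < a (Fr.A ω x) :=
        (hA.range _ (by rw [(Fr.A ω).norm_map]; exact hxv.1)).1
      have e1 := hG3 m (a (Fr.A ω x)) (F (a (Fr.A ω x)) * fderiv ℝ a (Fr.A ω x) (Fr.A ω v)) hr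
      have e2 := hc F (a (Fr.A ω x)) (fderiv ℝ a (Fr.A ω x) (Fr.A ω v)) m hr
      have e3 := Gf_mul (m + 1 : ℝ) (fun c => c ^ m) (a (Fr.A ω x))
        (F (a (Fr.A ω x)) * fderiv ℝ a (Fr.A ω x) (Fr.A ω v))
      rw [← e2, e1, e3, ← mul_assoc, inv_mul_cancel₀ hm, one_mul]
    have h2 : (fun ω => (∫ c in (0 : ℝ)..(kS F (a (Fr.A ω x))
          (fderiv ℝ a (Fr.A ω x) (Fr.A ω v))), c ^ m) * fD F a (Fr.A ω x) (Fr.A ω v)) = fun ω =>
        (m + 1 : ℝ)⁻¹ * (kS F (a (Fr.A ω x)) (fderiv ℝ a (Fr.A ω x) (Fr.A ω v)) ^ (m + 1) *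
          fD F a (Fr.A ω x) (Fr.A ω v)) := by
      funext ω
      rw [integral_pow]
      have h0 : (0 : ℝ) ^ (m + 1) = 0 := zero_pow (Nat.succ_ne_zero m)
      rw [h0, sub_zero]
      field_simp
    rw [h1, h2, integral_const_mul, integral_const_mul, eq (m + 1)]
  -- the identity for the polynomials
  have poly : ∀ p : Polynomial ℝ, ∫ ω, Gf (fun c => p.eval c) (a (Fr.A ω x))
        (F (a (Fr.A ω x)) * fderiv ℝ a (Fr.A ω x) (Fr.A ω v)) ∂Fr.μ =
      ∫ ω, (∫ c in (0 : ℝ)..(kS F (a (Fr.A ω x)) (fderiv ℝ a (Fr.A ω x) (Fr.A ω v))),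
        p.eval c) * fD F a (Fr.A ω x) (Fr.A ω v) ∂Fr.μ := by
    intro p
    induction p using Polynomial.induction_on' with
    | add p q hp hq =>
      have cp : Continuous (fun c : ℝ => p.eval c) := p.continuous
      have cq : Continuous (fun c : ℝ => q.eval c) := q.continuous
      have h1 : (fun ω => Gf (fun c => (p + q).eval c) (a (Fr.A ω x))
          (F (a (Fr.A ω x)) * fderiv ℝ a (Fr.A ω x) (Fr.A ω v))) = fun ω =>
          Gf (fun c => p.eval c) (a (Fr.A ω x))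
            (F (a (Fr.A ω x)) * fderiv ℝ a (Fr.A ω x) (Fr.A ω v)) +
          Gf (fun c => q.eval c) (a (Fr.A ω x))
            (F (a (Fr.A ω x)) * fderiv ℝ a (Fr.A ω x) (Fr.A ω v)) := by
        funext ω
        rw [← Gf_add cp cq]
        simp only [Polynomial.eval_add]
      have h2 : (fun ω => (∫ c in (0 : ℝ)..(kS F (a (Fr.A ω x))
            (fderiv ℝ a (Fr.A ω x) (Fr.A ω v))), (p + q).eval c) *
            fD F a (Fr.A ω x) (Fr.A ω v)) = fun ω =>
          (∫ c in (0 : ℝ)..(kS F (a (Fr.A ω x)) (fderiv ℝ a (Fr.A ω x) (Fr.A ω v))),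
            p.eval c) * fD F a (Fr.A ω x) (Fr.A ω v) +
          (∫ c in (0 : ℝ)..(kS F (a (Fr.A ω x)) (fderiv ℝ a (Fr.A ω x) (Fr.A ω v))),
            q.eval c) * fD F a (Fr.A ω x) (Fr.A ω v) := by
        funext ω
        rw [← add_mul, ← intervalIntegral.integral_add (cp.intervalIntegrable _ _)
          (cq.intervalIntegrable _ _)]
        simp only [Polynomial.eval_add]
      rw [h1, h2, integral_add (iG _ cp) (iG _ cq), integral_add (iP _ cp) (iP _ cq), hp, hq]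
    | monomial m r =>
      have h1 : (fun ω => Gf (fun c => ((Polynomial.monomial m) r).eval c) (a (Fr.A ω x))
          (F (a (Fr.A ω x)) * fderiv ℝ a (Fr.A ω x) (Fr.A ω v))) = fun ω =>
          r * Gf (fun c => c ^ m) (a (Fr.A ω x))
            (F (a (Fr.A ω x)) * fderiv ℝ a (Fr.A ω x) (Fr.A ω v)) := by
        funext ω
        rw [← Gf_mul]
        simp only [Polynomial.eval_monomial]
      have h2 : (fun ω => (∫ c in (0 : ℝ)..(kS F (a (Fr.A ω x))
            (fderiv ℝ a (Fr.A ω x) (Fr.A ω v))), ((Polynomial.monomial m) r).eval c) *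
            fD F a (Fr.A ω x) (Fr.A ω v)) = fun ω =>
          r * ((∫ c in (0 : ℝ)..(kS F (a (Fr.A ω x)) (fderiv ℝ a (Fr.A ω x) (Fr.A ω v))),
            c ^ m) * fD F a (Fr.A ω x) (Fr.A ω v)) := by
        funext ω
        simp only [Polynomial.eval_monomial]
        rw [intervalIntegral.integral_const_mul]
        ring
      rw [h1, h2, integral_const_mul, integral_const_mul, mono m]
  -- bounds
  obtain ⟨B, hB⟩ := compact_ON.exists_bound_of_continuousOn cb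
  obtain ⟨D, hD⟩ := compact_ON.exists_bound_of_continuousOn hfc
  have hM0 : 0 < M := (hA.range x hxv.1).1.trans (hA.range x hxv.1).2
  have hB0 : 0 ≤ B := (norm_nonneg _).trans (hB (x, v) hxv)
  have hD0 : 0 ≤ D := (norm_nonneg _).trans (hD (x, v) hxv)
  set T : ℝ := ∫ ω, Gf f (a (Fr.A ω x))
    (F (a (Fr.A ω x)) * fderiv ℝ a (Fr.A ω x) (Fr.A ω v)) ∂Fr.μ with hT
  set S : ℝ := ∫ ω, (∫ c in (0 : ℝ)..(kS F (a (Fr.A ω x))
    (fderiv ℝ a (Fr.A ω x) (Fr.A ω v))), f c) * fD F a (Fr.A ω x) (Fr.A ω v) ∂Fr.μ with hSd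
  have key : ∀ ε : ℝ, 0 < ε → |T - S| ≤ ε * ((M + B) * (Real.pi / 2) + M * D) := by
    intro ε hε
    obtain ⟨p, hp⟩ := exists_polynomial_near_of_continuousOn 0 M f hf.continuousOn ε hε
    have cp : Continuous (fun c : ℝ => p.eval c) := p.continuous
    have hfp : ∀ c ∈ Icc (0 : ℝ) M, |f c - p.eval c| ≤ ε := fun c hc' => by
      rw [abs_sub_comm]
      exact (hp c hc').le
    have h1 : |T - ∫ ω, Gf (fun c => p.eval c) (a (Fr.A ω x))
        (F (a (Fr.A ω x)) * fderiv ℝ a (Fr.A ω x) (Fr.A ω v)) ∂Fr.μ| ≤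
        ε * (M + B) * (Real.pi / 2) := by
      rw [hT, ← integral_sub (iG f hf) (iG _ cp)]
      have h := norm_integral_le_of_norm_le_const (μ := Fr.μ) (C := ε * (M + B) * (Real.pi / 2))
        (f := fun ω => Gf f (a (Fr.A ω x))
          (F (a (Fr.A ω x)) * fderiv ℝ a (Fr.A ω x) (Fr.A ω v)) -
          Gf (fun c => p.eval c) (a (Fr.A ω x))
          (F (a (Fr.A ω x)) * fderiv ℝ a (Fr.A ω x) (Fr.A ω v)))
        (Filter.Eventually.of_forall fun ω => ?_)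
      · simpa using h
      · have hon := ON_map (Fr.A ω) hxv
        have hr := hA.range _ hon.1
        rw [Real.norm_eq_abs]
        exact Gf_bound hf cp hr.1 hr.2.le (hB (Fr.A ω x, Fr.A ω v) hon) hfp
    have h2 : |S - ∫ ω, (∫ c in (0 : ℝ)..(kS F (a (Fr.A ω x))
        (fderiv ℝ a (Fr.A ω x) (Fr.A ω v))), p.eval c) * fD F a (Fr.A ω x) (Fr.A ω v) ∂Fr.μ| ≤
        ε * M * D := by
      rw [hSd, ← integral_sub (iP f hf) (iP _ cp)]
      have h := norm_integral_le_of_norm_le_const (μ := Fr.μ) (C := ε * M * D)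
        (f := fun ω => (∫ c in (0 : ℝ)..(kS F (a (Fr.A ω x))
          (fderiv ℝ a (Fr.A ω x) (Fr.A ω v))), f c) * fD F a (Fr.A ω x) (Fr.A ω v) -
          (∫ c in (0 : ℝ)..(kS F (a (Fr.A ω x))
          (fderiv ℝ a (Fr.A ω x) (Fr.A ω v))), p.eval c) * fD F a (Fr.A ω x) (Fr.A ω v))
        (Filter.Eventually.of_forall fun ω => ?_)
      · simpa using h
      · have hon := ON_map (Fr.A ω) hxv
        have hr := hA.range _ hon.1
        obtain ⟨hk1, hk2, -⟩ := hsc _ hr (fderiv ℝ a (Fr.A ω x) (Fr.A ω v))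
        rw [← sub_mul, Real.norm_eq_abs, abs_mul]
        refine mul_le_mul (prim_bound hf cp hk1.le (hk2.trans hr.2.le) hfp)
          (hD (Fr.A ω x, Fr.A ω v) hon) (abs_nonneg _) (by positivity)
    rw [poly p] at h1
    set P : ℝ := ∫ ω, (∫ c in (0 : ℝ)..(kS F (a (Fr.A ω x))
        (fderiv ℝ a (Fr.A ω x) (Fr.A ω v))), p.eval c) * fD F a (Fr.A ω x) (Fr.A ω v) ∂Fr.μ
    have h3 := abs_sub_le T P S
    rw [abs_sub_comm P S] at h3
    calc |T - S| ≤ ε * (M + B) * (Real.pi / 2) + ε * M * D := by linarith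
      _ = ε * ((M + B) * (Real.pi / 2) + M * D) := by ring
  have hCpos : 0 < (M + B) * (Real.pi / 2) + M * D := by positivity
  by_contra hne
  have h0 : 0 < |T - S| := abs_pos.mpr (sub_ne_zero.mpr hne)
  have h1 := key (|T - S| / (2 * ((M + B) * (Real.pi / 2) + M * D))) (by positivity)
  have h2 : |T - S| / (2 * ((M + B) * (Real.pi / 2) + M * D)) *
      ((M + B) * (Real.pi / 2) + M * D) = |T - S| / 2 := by
    field_simp
  rw [h2] at h1
  linarith

end Pool.Agent.Work.MP_02f065_gt.Cvx
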