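import Pool.Agent.Work.MP_02f065_gt.Cvx.Stmts3
import Pool.Agent.Work.MP_02f065_gt.Cvx.I_DIS3

/-!
MP_02f065_gt, block CVX3, item POS3: positivity in one tangent space.
-/

open MeasureTheory Set Filter Topology

noncomputable section

namespace Pool.Agent.Work.MP_02f065_gt.Cvx

open Pool.Agent.Work.MP_02f065_gt.RPn

namespace XPOS3

variable {ι : Type} [Fintype ι]

/-- Invariance under the isometries that fix `x`. -/
theorem inv (x : E ι) (T : E ι →ₗᵢ[ℝ] E ι) (hT : T x = x) (G : E ι → ℝ) :
    ∫ y : Metric.sphere (0 : E ι) 1, G (T (nrm x y)) ∂((volume : Measure (E ι)).toSphere) =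
    ∫ y : Metric.sphere (0 : E ι) 1, G (nrm x y) ∂((volume : Measure (E ι)).toSphere) := by
  let f : Metric.sphere (0 : E ι) 1 → Metric.sphere (0 : E ι) 1 := fun y => ⟨T y, by
    rw [mem_sphere_zero_iff_norm, T.norm_map]
    exact mem_sphere_zero_iff_norm.mp y.2⟩
  obtain ⟨h1, h2⟩ := XDIS3.mp T f (fun y => rfl)
  have h3 : ∀ y : Metric.sphere (0 : E ι) 1, G (T (nrm x y)) =
      (fun y : Metric.sphere (0 : E ι) 1 => G (nrm x y)) (f y) := by
    intro y
    have h4 : nrm x (f y : E ι) = T (nrm x y) := by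
      conv_lhs => rw [← hT]
      exact XDIS3.nrm_map T x y
    simp only [h4]
  simp only [h3]
  exact h1.integral_comp h2 (fun y => G (nrm x y))

theorem norm_nrm_le (x y : E ι) : ‖nrm x y‖ ≤ 1 := by
  unfold nrm
  rw [norm_smul, norm_inv, norm_norm]
  by_cases h : ‖tang x y‖ = 0
  · rw [h]; simp
  · rw [inv_mul_cancel₀ h]

theorem meas_nrm (x : E ι) : Measurable fun y : Metric.sphere (0 : E ι) 1 => nrm x y := by
  have hc : Continuous fun y : Metric.sphere (0 : E ι) 1 => tang x (y : E ι) := by
    unfold tang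
    fun_prop
  exact (hc.norm.measurable.inv).smul hc.measurable

theorem integrable (x : E ι) (G : E ι → ℝ) (hG : Continuous G) :
    Integrable (fun y : Metric.sphere (0 : E ι) 1 => G (nrm x y))
      ((volume : Measure (E ι)).toSphere) := by
  obtain ⟨C, hC⟩ := (isCompact_closedBall (0 : E ι) 1).exists_bound_of_continuousOn
    hG.continuousOn
  refine Integrable.of_bound (hG.measurable.comp (meas_nrm x)).aestronglyMeasurable C ?_
  refine Filter.Eventually.of_forall fun y => hC _ ?_
  rw [mem_closedBall_zero_iff]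
  exact norm_nrm_le x y

theorem inner_nrm (x y : E ι) (hx : ‖x‖ = 1) : inner ℝ x (nrm x y) = 0 := by
  unfold nrm tang
  rw [inner_smul_right, inner_sub_right, inner_smul_right, real_inner_self_eq_norm_sq, hx]
  ring

/-- The reflection in the hyperplane orthogonal to `u`. -/
def R (u : E ι) : E ι ≃ₗᵢ[ℝ] E ι := (Submodule.span ℝ {u})ᗮ.reflection

theorem R_self (u : E ι) : R u u = -u := by
  exact Submodule.reflection_orthogonalComplement_singleton_eq_neg u

theorem R_fix (u v : E ι) (h : inner ℝ u v = 0) : R u v = v := by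
  refine Submodule.reflection_mem_subspace_eq_self ?_
  exact Submodule.mem_orthogonal_singleton_iff_inner_right.mpr h

theorem R_sub (u v : E ι) (h : ‖u‖ = ‖v‖) : R (u - v) u = v := Submodule.reflection_sub h

theorem R_inner (u v w : E ι) : inner ℝ v (R u w) = inner ℝ (R u v) w := by
  have h : R u (R u v) = v := Submodule.reflection_reflection _ v
  conv_lhs => rw [← h]
  exact (R u).inner_map_map _ _

/-- Expansion in an orthonormal basis. -/
theorem expand (b : OrthonormalBasis ι ℝ (E ι)) (B : E ι →ₗ[ℝ] E ι →ₗ[ℝ] ℝ) (v : E ι) :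
    B v v = ∑ j, ∑ k, inner ℝ (b j) v * inner ℝ (b k) v * B (b j) (b k) := by
  conv_lhs => rw [← b.sum_repr' v]
  simp only [map_sum, LinearMap.sum_apply, map_smul, LinearMap.smul_apply, smul_eq_mul,
    Finset.mul_sum]
  rw [Finset.sum_comm]
  refine Finset.sum_congr rfl fun j _ => Finset.sum_congr rfl fun k _ => ?_
  ring

/-- A trace does not depend on the orthonormal basis. -/
theorem trace_eq [DecidableEq ι] (b b' : OrthonormalBasis ι ℝ (E ι)) (B : E ι →ₗ[ℝ] E ι →ₗ[ℝ] ℝ) :
    ∑ i, B (b' i) (b' i) = ∑ i, B (b i) (b i) := by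
  have h1 : ∀ i, B (b' i) (b' i) =
      ∑ j, ∑ k, inner ℝ (b j) (b' i) * inner ℝ (b k) (b' i) * B (b j) (b k) :=
    fun i => expand b B (b' i)
  simp only [h1]
  rw [Finset.sum_comm]
  refine Finset.sum_congr rfl fun j _ => ?_
  rw [Finset.sum_comm]
  have h2 : ∀ k, ∑ i, inner ℝ (b j) (b' i) * inner ℝ (b k) (b' i) * B (b j) (b k) =
      (if j = k then 1 else 0) * B (b j) (b k) := by
    intro k
    rw [← Finset.sum_mul]
    congr 1
    have h3 : ∑ i, inner ℝ (b j) (b' i) * inner ℝ (b k) (b' i) = inner ℝ (b j) (b k) := by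
      rw [← b'.sum_inner_mul_inner (b j) (b k)]
      refine Finset.sum_congr rfl fun i _ => ?_
      rw [real_inner_comm (b k) (b' i)]
    rw [h3]
    exact orthonormal_iff_ite.mp b.orthonormal j k
  simp only [h2]
  simp

end XPOS3

open XPOS3 in
theorem iPOS3 : StPos3 := by
  intro ι _ _ x e B f hxe hadd hsmul hsymm hf hf0 hfe hBe hBt
  obtain ⟨hx, he, hxe'⟩ := hxe
  -- the bilinear form
  let Bl : E ι →ₗ[ℝ] E ι →ₗ[ℝ] ℝ := LinearMap.mk₂ ℝ B hadd (fun c v w => by
    rw [hsmul, smul_eq_mul]) (fun v w w' => by rw [hsymm, hadd, hsymm w, hsymm w'])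
    (fun c v w => by rw [hsymm, hsmul, hsymm w, smul_eq_mul])
  have hBl : ∀ v w, B v w = Bl v w := fun v w => rfl
  -- the basis
  have hx0 : x ≠ 0 := by
    intro h
    rw [h, norm_zero] at hx
    exact zero_ne_one hx
  have he0 : e ≠ 0 := by
    intro h
    rw [h, norm_zero] at he
    exact zero_ne_one he
  have hne : x ≠ e := by
    intro h
    rw [← h, real_inner_self_eq_norm_sq, hx] at hxe'
    norm_num at hxe'
  have hv : Orthonormal ℝ ((↑) : ({x, e} : Set (E ι)) → E ι) := by
    rw [orthonormal_subtype_iff_ite]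
    intro v hv w hw
    have h3 : inner ℝ e x = (0 : ℝ) := by rw [real_inner_comm]; exact hxe'
    rcases hv with rfl | hv
    · rcases hw with rfl | hw
      · rw [if_pos rfl, real_inner_self_eq_norm_sq, hx]; norm_num
      · rw [mem_singleton_iff] at hw
        subst hw
        rw [if_neg hne]
        exact hxe'
    · rw [mem_singleton_iff] at hv
      subst hv
      rcases hw with rfl | hw
      · rw [if_neg hne.symm]
        exact h3
      · rw [mem_singleton_iff] at hw
        subst hw
        rw [if_pos rfl, real_inner_self_eq_norm_sq, he]; norm_num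
  obtain ⟨b, i0, i1, hb0, hb1⟩ : ∃ (b : OrthonormalBasis ι ℝ (E ι)) (i0 i1 : ι),
      b i0 = x ∧ b i1 = e := by
    obtain ⟨u, b', hu, hb'⟩ := hv.exists_orthonormalBasis_extension
    have hcard : Fintype.card u = Fintype.card ι := by
      have h1 := Module.finrank_eq_card_basis b'.toBasis
      rw [finrank_euclideanSpace] at h1
      exact h1.symm
    let eq : u ≃ ι := Fintype.equivOfCardEq hcard
    have hxu : x ∈ u := by
      have := hu (show x ∈ ({x, e} : Set (E ι)) from Or.inl rfl)
      exact_mod_cast this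
    have heu : e ∈ u := by
      have := hu (show e ∈ ({x, e} : Set (E ι)) from Or.inr rfl)
      exact_mod_cast this
    refine ⟨b'.reindex eq, eq ⟨x, hxu⟩, eq ⟨e, heu⟩, ?_, ?_⟩
    · rw [OrthonormalBasis.reindex_apply, Equiv.symm_apply_apply, hb']
    · rw [OrthonormalBasis.reindex_apply, Equiv.symm_apply_apply, hb']
  have hi01 : i0 ≠ i1 := by
    intro h
    apply hne
    rw [← hb0, ← hb1, h]
  have hbo : ∀ i j, i ≠ j → inner ℝ (b i) (b j) = (0 : ℝ) := fun i j hij => b.orthonormal.2 hij
  have hbn : ∀ i, ‖b i‖ = 1 := fun i => b.orthonormal.1 i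
  -- the integrals
  let J : ι → ι → ℝ := fun i j => ∫ y : Metric.sphere (0 : E ι) 1,
    f (inner ℝ e (nrm x y)) * (inner ℝ (b i) (nrm x y) * inner ℝ (b j) (nrm x y))
    ∂((volume : Measure (E ι)).toSphere)
  have hJ0 : ∀ j, J i0 j = 0 := by
    intro j
    change ∫ y : Metric.sphere (0 : E ι) 1, _ ∂_ = _
    have : ∀ y : Metric.sphere (0 : E ι) 1,
        f (inner ℝ e (nrm x y)) * (inner ℝ (b i0) (nrm x y) * inner ℝ (b j) (nrm x y)) = 0 := by
      intro y
      rw [hb0, inner_nrm x y hx]
      ring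
    simp only [this, integral_zero]
  have hJoff : ∀ i j, i ≠ j → J i j = 0 := by
    intro i j hij
    by_cases hi : i = i0
    · rw [hi]; exact hJ0 j
    have hRx : R (b i) x = x := by
      apply R_fix
      rw [← hb0]
      exact hbo _ _ hi
    have h1 := inv x (R (b i)).toLinearIsometry hRx
      (fun n => f (inner ℝ e n) * (inner ℝ (b i) n * inner ℝ (b j) n))
    have h2 : ∀ n : E ι, f (inner ℝ e (R (b i) n)) * (inner ℝ (b i) (R (b i) n) *
        inner ℝ (b j) (R (b i) n)) = -(f (inner ℝ e n) * (inner ℝ (b i) n * inner ℝ (b j) n)) := by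
      intro n
      rw [R_inner, R_inner, R_inner, R_self, R_fix (b i) (b j) (hbo _ _ hij), inner_neg_left]
      have h3 : f (inner ℝ (R (b i) e) n) = f (inner ℝ e n) := by
        by_cases h : i = i1
        · rw [h, hb1, R_self, inner_neg_left, hfe]
        · rw [← hb1, R_fix (b i) (b i1) (hbo _ _ h)]
      rw [h3]
      ring
    have h4 : ∫ y : Metric.sphere (0 : E ι) 1, (fun n => f (inner ℝ e n) * (inner ℝ (b i) n *
        inner ℝ (b j) n)) ((R (b i)).toLinearIsometry (nrm x y))
        ∂((volume : Measure (E ι)).toSphere) = -J i j := by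
      change _ = -∫ y : Metric.sphere (0 : E ι) 1, _ ∂_
      rw [← integral_neg]
      refine integral_congr_ae (Filter.Eventually.of_forall fun y => ?_)
      exact h2 (nrm x y)
    have h5 : J i j = -J i j := by
      rw [← h4, h1]
    linarith
  have hJeq : ∀ i j, i ≠ i0 → i ≠ i1 → j ≠ i0 → j ≠ i1 → J i i = J j j := by
    intro i j hi0 hi1 hj0 hj1
    by_cases hij : i = j
    · rw [hij]
    have hRx : R (b i - b j) x = x := by
      apply R_fix
      rw [← hb0, inner_sub_left, hbo _ _ hi0, hbo _ _ hj0, sub_zero]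
    have hRe : R (b i - b j) e = e := by
      apply R_fix
      rw [← hb1, inner_sub_left, hbo _ _ hi1, hbo _ _ hj1, sub_zero]
    have h1 := inv x (R (b i - b j)).toLinearIsometry hRx
      (fun n => f (inner ℝ e n) * (inner ℝ (b i) n * inner ℝ (b i) n))
    have h6 : J i i = ∫ y : Metric.sphere (0 : E ι) 1, (fun n => f (inner ℝ e n) *
        (inner ℝ (b i) n * inner ℝ (b i) n)) ((R (b i - b j)).toLinearIsometry (nrm x y))
        ∂((volume : Measure (E ι)).toSphere) := by
      rw [h1]
    rw [h6]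
    refine integral_congr_ae (Filter.Eventually.of_forall fun y => ?_)
    change f (inner ℝ e (R (b i - b j) (nrm x y))) * (inner ℝ (b i) (R (b i - b j) (nrm x y)) *
      inner ℝ (b i) (R (b i - b j) (nrm x y))) = _
    rw [R_inner, R_inner, hRe, R_sub (b i) (b j) (by rw [hbn, hbn])]
  have hJnn : ∀ i, 0 ≤ J i i := by
    intro i
    refine integral_nonneg fun y => ?_
    exact mul_nonneg (hf0 _) (mul_self_nonneg _)
  -- expansion
  have hexp : ∫ y : Metric.sphere (0 : E ι) 1, f (inner ℝ e (nrm x y)) * B (nrm x y) (nrm x y)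
      ∂((volume : Measure (E ι)).toSphere) = ∑ i, ∑ j, J i j * B (b i) (b j) := by
    have h1 : ∀ n : E ι, f (inner ℝ e n) * B n n = ∑ i, ∑ j,
        (f (inner ℝ e n) * (inner ℝ (b i) n * inner ℝ (b j) n)) * B (b i) (b j) := by
      intro n
      rw [hBl]
      have h2 : Bl n n = ∑ j, ∑ k, inner ℝ (b j) n * inner ℝ (b k) n * Bl (b j) (b k) :=
        expand b Bl n
      rw [h2, Finset.mul_sum]
      refine Finset.sum_congr rfl fun j _ => ?_
      rw [Finset.mul_sum]
      refine Finset.sum_congr rfl fun k _ => ?_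
      rw [hBl]
      ring
    have hint : ∀ i j, Integrable (fun y : Metric.sphere (0 : E ι) 1 =>
        (f (inner ℝ e (nrm x y)) * (inner ℝ (b i) (nrm x y) * inner ℝ (b j) (nrm x y))) *
          B (b i) (b j)) ((volume : Measure (E ι)).toSphere) := by
      intro i j
      have := integrable x (fun n => f (inner ℝ e n) * (inner ℝ (b i) n * inner ℝ (b j) n))
        (by fun_prop)
      exact this.mul_const _
    simp only [h1]
    rw [integral_finsetSum _ (fun i _ => integrable_finsetSum _ (fun j _ => hint i j))]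
    refine Finset.sum_congr rfl fun i _ => ?_
    rw [integral_finsetSum _ (fun j _ => hint i j)]
    refine Finset.sum_congr rfl fun j _ => ?_
    rw [integral_mul_const]
  have hexp2 : ∑ i, ∑ j, J i j * B (b i) (b j) = ∑ i, J i i * B (b i) (b i) := by
    refine Finset.sum_congr rfl fun i _ => ?_
    rw [Finset.sum_eq_single i]
    · intro j _ hj
      rw [hJoff i j hj.symm, zero_mul]
    · intro h
      exact absurd (Finset.mem_univ i) h
  -- trace
  let tl : E ι →ₗ[ℝ] E ι :=
    { toFun := fun v => tang x v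
      map_add' := fun v w => by
        unfold tang
        rw [inner_add_right, add_smul]
        abel
      map_smul' := fun c v => by
        unfold tang
        rw [inner_smul_right, mul_smul, smul_sub, RingHom.id_apply] }
  have htl : ∀ v, tl v = tang x v := fun v => rfl
  have htr : ∑ i, B (tang x (ei i)) (tang x (ei i)) = ∑ i, B (tang x (b i)) (tang x (b i)) := by
    have h1 := trace_eq b (EuclideanSpace.basisFun ι ℝ) (Bl.compl₁₂ tl tl)
    simp only [LinearMap.compl₁₂_apply, htl, ← hBl] at h1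
    rw [← h1]
    refine Finset.sum_congr rfl fun i _ => ?_
    have h2 : EuclideanSpace.basisFun ι ℝ i = (ei i : E ι) := by
      rw [EuclideanSpace.basisFun_apply]
      rfl
    rw [h2]
  have hB0 : ∀ v, B 0 v = 0 := fun v => by rw [hBl, map_zero, LinearMap.zero_apply]
  have ht0 : tang x (b i0) = 0 := by
    unfold tang
    rw [hb0, real_inner_self_eq_norm_sq, hx]
    simp
  have hti : ∀ i, i ≠ i0 → tang x (b i) = b i := by
    intro i hi
    unfold tang
    rw [← hb0, hbo _ _ (Ne.symm hi), zero_smul, sub_zero]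
  have htr2 : ∑ i, B (tang x (b i)) (tang x (b i)) =
      B e e + ∑ i ∈ (Finset.univ.erase i0).erase i1, B (b i) (b i) := by
    rw [← Finset.add_sum_erase Finset.univ _ (Finset.mem_univ i0), ht0, hB0, zero_add,
      ← Finset.add_sum_erase (Finset.univ.erase i0) _
        (Finset.mem_erase.mpr ⟨hi01.symm, Finset.mem_univ i1⟩), hti i1 hi01.symm, hb1]
    congr 1
    refine Finset.sum_congr rfl fun i hi => ?_
    rw [hti i (Finset.mem_erase.mp (Finset.mem_erase.mp hi).2).1]
  have hpos : 0 ≤ ∑ i ∈ (Finset.univ.erase i0).erase i1, B (b i) (b i) := by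
    rw [htr, htr2] at hBt
    linarith
  rw [hexp, hexp2, ← Finset.add_sum_erase Finset.univ _ (Finset.mem_univ i0), hJ0, zero_mul,
    zero_add, ← Finset.add_sum_erase (Finset.univ.erase i0) _
      (Finset.mem_erase.mpr ⟨hi01.symm, Finset.mem_univ i1⟩), hb1]
  refine add_nonneg (mul_nonneg (hJnn _) hBe) ?_
  rcases ((Finset.univ.erase i0).erase i1).eq_empty_or_nonempty with hE | ⟨k, hk⟩
  · rw [hE, Finset.sum_empty]
  · have hk' := Finset.mem_erase.mp hk
    have hk1 : k ≠ i1 := hk'.1
    have hk0 : k ≠ i0 := (Finset.mem_erase.mp hk'.2).1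
    have h1 : ∑ i ∈ (Finset.univ.erase i0).erase i1, J i i * B (b i) (b i) =
        J k k * ∑ i ∈ (Finset.univ.erase i0).erase i1, B (b i) (b i) := by
      rw [Finset.mul_sum]
      refine Finset.sum_congr rfl fun i hi => ?_
      have hi' := Finset.mem_erase.mp hi
      rw [hJeq i k (Finset.mem_erase.mp hi'.2).1 hi'.1 hk0 hk1]
    rw [h1]
    exact mul_nonneg (hJnn k) hpos

end Pool.Agent.Work.MP_02f065_gt.Cvx
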