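import Pool.Agent.Work.MP_02f065_gt.Cvx.Stmts6

/-!
MP_02f065_gt, block CVX6, item RA6 (12072): another form of `Gf` for the weight `n c^(n-1)`.
-/

open MeasureTheory Set Filter Topology

noncomputable section

namespace Pool.Agent.Work.MP_02f065_gt.Cvx

open Pool.Agent.Work.MP_02f065_gt.RPn

namespace XRA6

/-- The left side. -/
lemma left (n : ℕ) (b : ℝ) (hn : 1 ≤ n) (hb : 0 ≤ b) :
    Gf (fun c => (n : ℝ) * c ^ (n - 1)) 1 b =
      n * b * (∫ t in (0 : ℝ)..(Real.arctan b), Real.cos t ^ n) + Real.cos (Real.arctan b) ^ n := by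
  have hn1 : n - 1 + 1 = n := Nat.sub_add_cancel hn
  have hc0 : 0 ≤ Real.arctan b := Real.arctan_nonneg.2 hb
  have hc1 : Real.arctan b ≤ Real.pi / 2 := (Real.arctan_lt_pi_div_two b).le
  set c := Real.arctan b with hc
  have hcont : Continuous fun θ : ℝ => (n : ℝ) * (1 * Real.cos θ) ^ (n - 1) *
      max (1 * Real.sin θ) (|b| * Real.cos θ) := by fun_prop
  have hsplit : Gf (fun c => (n : ℝ) * c ^ (n - 1)) 1 b =
      (∫ θ in (0 : ℝ)..c, (n : ℝ) * (1 * Real.cos θ) ^ (n - 1) *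
        max (1 * Real.sin θ) (|b| * Real.cos θ)) +
      ∫ θ in c..(Real.pi / 2), (n : ℝ) * (1 * Real.cos θ) ^ (n - 1) *
        max (1 * Real.sin θ) (|b| * Real.cos θ) :=
    (intervalIntegral.integral_add_adjacent_intervals (hcont.intervalIntegrable _ _)
      (hcont.intervalIntegrable _ _)).symm
  have h1 : (∫ θ in (0 : ℝ)..c, (n : ℝ) * (1 * Real.cos θ) ^ (n - 1) *
        max (1 * Real.sin θ) (|b| * Real.cos θ)) =
      n * b * ∫ t in (0 : ℝ)..c, Real.cos t ^ n := by
    rw [← intervalIntegral.integral_const_mul]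
    refine intervalIntegral.integral_congr ?_
    intro θ hθ
    rw [uIcc_of_le hc0] at hθ
    have hcos : 0 < Real.cos θ := by
      refine Real.cos_pos_of_mem_Ioo ⟨by linarith [hθ.1, Real.pi_pos], ?_⟩
      exact lt_of_le_of_lt hθ.2 (Real.arctan_lt_pi_div_two b)
    have htan : Real.tan θ ≤ b := by
      have h := Real.tan_arctan b
      rw [← h, ← hc]
      rcases eq_or_lt_of_le hθ.2 with h2 | h2
      · rw [h2]
      · exact (Real.tan_lt_tan_of_lt_of_lt_pi_div_two (by linarith [hθ.1, Real.pi_pos])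
          (Real.arctan_lt_pi_div_two b) h2).le
    have hs : Real.sin θ ≤ b * Real.cos θ := by
      rw [Real.tan_eq_sin_div_cos, div_le_iff₀ hcos] at htan
      exact htan
    have hm : max (1 * Real.sin θ) (|b| * Real.cos θ) = b * Real.cos θ := by
      rw [abs_of_nonneg hb, one_mul]
      exact max_eq_right hs
    simp only [hm]
    have hp : Real.cos θ ^ n = Real.cos θ ^ (n - 1) * Real.cos θ := by
      rw [← pow_succ, hn1]
    rw [hp, one_mul]
    ring
  have h2 : (∫ θ in c..(Real.pi / 2), (n : ℝ) * (1 * Real.cos θ) ^ (n - 1) *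
        max (1 * Real.sin θ) (|b| * Real.cos θ)) = Real.cos c ^ n := by
    have e : ∀ θ ∈ uIcc c (Real.pi / 2), (n : ℝ) * (1 * Real.cos θ) ^ (n - 1) *
        max (1 * Real.sin θ) (|b| * Real.cos θ) =
        (n : ℝ) * Real.cos θ ^ (n - 1) * Real.sin θ := by
      intro θ hθ
      rw [uIcc_of_le hc1] at hθ
      have hcos : 0 ≤ Real.cos θ := Real.cos_nonneg_of_mem_Icc ⟨by linarith [hθ.1, Real.pi_pos],
        hθ.2⟩
      have hs : b * Real.cos θ ≤ Real.sin θ := by
        rcases eq_or_lt_of_le hθ.2 with h2 | h2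
        · rw [h2]; simp
        · have hcos' : 0 < Real.cos θ :=
            Real.cos_pos_of_mem_Ioo ⟨by linarith [hθ.1, Real.pi_pos], h2⟩
          have htan : b ≤ Real.tan θ := by
            have h := Real.tan_arctan b
            rw [← h, ← hc]
            rcases eq_or_lt_of_le hθ.1 with h3 | h3
            · rw [h3]
            · exact (Real.tan_lt_tan_of_lt_of_lt_pi_div_two (by linarith [Real.pi_pos])
                h2 h3).le
          rw [Real.tan_eq_sin_div_cos, le_div_iff₀ hcos'] at htan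
          exact htan
      have hm : max (1 * Real.sin θ) (|b| * Real.cos θ) = Real.sin θ := by
        rw [abs_of_nonneg hb, one_mul]
        exact max_eq_left hs
      rw [hm, one_mul]
    rw [intervalIntegral.integral_congr e]
    have hd : ∀ θ ∈ uIcc c (Real.pi / 2), HasDerivAt (fun t => -Real.cos t ^ n)
        ((n : ℝ) * Real.cos θ ^ (n - 1) * Real.sin θ) θ := by
      intro θ _
      have h := ((Real.hasDerivAt_cos θ).pow n).neg
      refine h.congr_deriv ?_
      ring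
    rw [intervalIntegral.integral_eq_sub_of_hasDerivAt hd
      ((by fun_prop : Continuous fun θ : ℝ =>
        (n : ℝ) * Real.cos θ ^ (n - 1) * Real.sin θ).intervalIntegrable _ _)]
    simp [Real.cos_pi_div_two, show n ≠ 0 by omega]
  rw [hsplit, h1, h2]

/-- The change of variable. -/
lemma cov (n : ℕ) (b : ℝ) :
    ∫ u in (0 : ℝ)..1, b / (Real.sqrt (1 + u ^ 2 * b ^ 2) ^ n * (1 + u ^ 2 * b ^ 2)) =
      ∫ t in (0 : ℝ)..(Real.arctan b), Real.cos t ^ n := by
  have hF : ∀ y : ℝ, HasDerivAt (fun y => ∫ t in (0 : ℝ)..y, Real.cos t ^ n)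
      (Real.cos y ^ n) y := fun y =>
    intervalIntegral.integral_hasDerivAt_right
      ((by fun_prop : Continuous fun t : ℝ => Real.cos t ^ n).intervalIntegrable _ _)
      ((by fun_prop : Continuous fun t : ℝ => Real.cos t ^ n).stronglyMeasurableAtFilter _ _)
      ((by fun_prop : Continuous fun t : ℝ => Real.cos t ^ n).continuousAt)
  have hd : ∀ u ∈ uIcc (0 : ℝ) 1,
      HasDerivAt (fun u : ℝ => ∫ t in (0 : ℝ)..(Real.arctan (u * b)), Real.cos t ^ n)
      (b / (Real.sqrt (1 + u ^ 2 * b ^ 2) ^ n * (1 + u ^ 2 * b ^ 2))) u := by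
    intro u _
    have h1 : HasDerivAt (fun u : ℝ => u * b) b u := by
      simpa using (hasDerivAt_id u).mul_const b
    have h2 : HasDerivAt (fun u : ℝ => Real.arctan (u * b)) (1 / (1 + (u * b) ^ 2) * b) u :=
      h1.arctan
    have h3 := (hF (Real.arctan (u * b))).comp u h2
    refine h3.congr_deriv ?_
    rw [Real.cos_arctan, mul_pow]
    have hp : (0 : ℝ) < 1 + u ^ 2 * b ^ 2 := by positivity
    have hs : (0 : ℝ) < Real.sqrt (1 + u ^ 2 * b ^ 2) := Real.sqrt_pos.2 hp
    rw [div_pow, one_pow]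
    field_simp
  have hcont : Continuous fun u : ℝ =>
      b / (Real.sqrt (1 + u ^ 2 * b ^ 2) ^ n * (1 + u ^ 2 * b ^ 2)) := by
    refine Continuous.div continuous_const (by fun_prop) ?_
    intro u
    have hp : (0 : ℝ) < 1 + u ^ 2 * b ^ 2 := by positivity
    have hs : (0 : ℝ) < Real.sqrt (1 + u ^ 2 * b ^ 2) := Real.sqrt_pos.2 hp
    positivity
  rw [intervalIntegral.integral_eq_sub_of_hasDerivAt hd (hcont.intervalIntegrable _ _)]
  simp

/-- The elementary bound. -/
lemma bound (n : ℕ) (b u : ℝ) :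
    0 ≤ 1 - 1 / Real.sqrt (1 + u ^ 2 * b ^ 2) ^ n ∧
      1 - 1 / Real.sqrt (1 + u ^ 2 * b ^ 2) ^ n ≤ n * b ^ 2 * u ^ 2 := by
  have hp : (1 : ℝ) ≤ 1 + u ^ 2 * b ^ 2 := by
    have : 0 ≤ u ^ 2 * b ^ 2 := by positivity
    linarith
  have hs : (1 : ℝ) ≤ Real.sqrt (1 + u ^ 2 * b ^ 2) := by
    have := Real.sqrt_le_sqrt hp
    rwa [Real.sqrt_one] at this
  set s := Real.sqrt (1 + u ^ 2 * b ^ 2) with hsdef
  have hs2 : s ^ 2 = 1 + u ^ 2 * b ^ 2 := Real.sq_sqrt (by linarith)
  have hs0 : 0 < s := by linarith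
  constructor
  · have : 1 / s ^ n ≤ 1 := by
      rw [div_le_one (by positivity)]
      exact one_le_pow₀ hs
    linarith
  · have hB := one_add_mul_le_pow (a := 1 / s - 1) (by
      have : 0 < 1 / s := by positivity
      linarith) n
    have e : 1 + (1 / s - 1) = 1 / s := by ring
    rw [e, div_pow, one_pow] at hB
    have h3 : 1 - 1 / s ≤ b ^ 2 * u ^ 2 := by
      have h4 : 1 - 1 / s = (s - 1) / s := by field_simp
      rw [h4, div_le_iff₀ hs0]
      nlinarith [hs2, hs]
    have hn0 : (0 : ℝ) ≤ n := Nat.cast_nonneg n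
    nlinarith [mul_le_mul_of_nonneg_left h3 hn0]

/-- The right side. -/
lemma right (n : ℕ) (b : ℝ) :
    ∫ u in (0 : ℝ)..1, (1 - 1 / Real.sqrt (1 + u ^ 2 * b ^ 2) ^ n) / u ^ 2 =
      1 / Real.sqrt (1 + b ^ 2) ^ n - 1 +
        n * b * ∫ t in (0 : ℝ)..(Real.arctan b), Real.cos t ^ n := by
  have hpos : ∀ u : ℝ, (0 : ℝ) < 1 + u ^ 2 * b ^ 2 := fun u => by positivity
  have hspos : ∀ u : ℝ, (0 : ℝ) < Real.sqrt (1 + u ^ 2 * b ^ 2) := fun u => Real.sqrt_pos.2 (hpos u)
  have hhc : Continuous fun u : ℝ => 1 / Real.sqrt (1 + u ^ 2 * b ^ 2) ^ n := by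
    refine Continuous.div continuous_const (by fun_prop) ?_
    intro u
    have := hspos u
    positivity
  -- integrability
  have hi1 : IntervalIntegrable
      (fun u : ℝ => (1 - 1 / Real.sqrt (1 + u ^ 2 * b ^ 2) ^ n) / u ^ 2) volume 0 1 := by
    rw [intervalIntegrable_iff]
    refine Measure.integrableOn_of_bounded (M := n * b ^ 2) (by simp) ?_ ?_
    · exact ((measurable_const.sub hhc.measurable).div
        (measurable_id.pow_const 2)).aestronglyMeasurable
    · refine Eventually.of_forall ?_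
      intro u
      obtain ⟨h0, h1⟩ := bound n b u
      rw [Real.norm_eq_abs, abs_of_nonneg (div_nonneg h0 (sq_nonneg u))]
      rcases eq_or_ne u 0 with hu | hu
      · rw [hu]
        simp
        positivity
      · rw [div_le_iff₀ (by positivity)]
        exact h1
  have hcont2 : Continuous fun u : ℝ =>
      b / (Real.sqrt (1 + u ^ 2 * b ^ 2) ^ n * (1 + u ^ 2 * b ^ 2)) := by
    refine Continuous.div continuous_const (by fun_prop) ?_
    intro u
    have := hpos u
    have := hspos u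
    positivity
  have hi2 : IntervalIntegrable
      (fun u : ℝ => n * b * (b / (Real.sqrt (1 + u ^ 2 * b ^ 2) ^ n * (1 + u ^ 2 * b ^ 2))))
      volume 0 1 := (continuous_const.mul hcont2).intervalIntegrable _ _
  -- the primitive
  have hd : ∀ u ∈ Ioo (0 : ℝ) 1,
      HasDerivAt (fun u : ℝ => -((1 - 1 / Real.sqrt (1 + u ^ 2 * b ^ 2) ^ n) / u))
      ((1 - 1 / Real.sqrt (1 + u ^ 2 * b ^ 2) ^ n) / u ^ 2 -
        n * b * (b / (Real.sqrt (1 + u ^ 2 * b ^ 2) ^ n * (1 + u ^ 2 * b ^ 2)))) u := by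
    intro u hu
    have hu0 : u ≠ 0 := hu.1.ne'
    have hp := hpos u
    have hs := hspos u
    have h1 : HasDerivAt (fun u : ℝ => 1 + u ^ 2 * b ^ 2) (2 * u * b ^ 2) u := by
      have := ((hasDerivAt_pow 2 u).mul_const (b ^ 2)).const_add 1
      refine this.congr_deriv ?_
      ring
    have h2 : HasDerivAt (fun u : ℝ => Real.sqrt (1 + u ^ 2 * b ^ 2))
        (2 * u * b ^ 2 / (2 * Real.sqrt (1 + u ^ 2 * b ^ 2))) u := h1.sqrt hp.ne'
    have h3 := h2.pow n
    have h4 := (h3.inv (pow_pos hs n).ne')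
    have h5 := ((h4.const_sub 1).div (hasDerivAt_id u) hu0).neg
    have hfun : (fun u : ℝ => -((1 - 1 / Real.sqrt (1 + u ^ 2 * b ^ 2) ^ n) / u)) =
        -((fun x => 1 - ((fun u : ℝ => Real.sqrt (1 + u ^ 2 * b ^ 2)) ^ n)⁻¹ x) / id) := by
      funext x
      simp
    rw [hfun]
    refine h5.congr_deriv ?_
    rcases Nat.eq_zero_or_pos n with hn | hn
    · subst hn
      simp
    · obtain ⟨m, rfl⟩ : ∃ m, n = m + 1 := ⟨n - 1, by omega⟩
      have hsq : Real.sqrt (1 + u ^ 2 * b ^ 2) ^ 2 = 1 + u ^ 2 * b ^ 2 := Real.sq_sqrt hp.le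
      set s := Real.sqrt (1 + u ^ 2 * b ^ 2) with hsdef
      rw [← hsq]
      simp only [Pi.inv_apply, Pi.pow_apply, id, Nat.add_sub_cancel, ← hsdef]
      have hs' := hs.ne'
      field_simp
      ring
  have h0 : Tendsto (fun u : ℝ => -((1 - 1 / Real.sqrt (1 + u ^ 2 * b ^ 2) ^ n) / u))
      (𝓝[>] 0) (𝓝 0) := by
    refine squeeze_zero_norm' (a := fun u : ℝ => n * b ^ 2 * u) ?_ ?_
    · filter_upwards [self_mem_nhdsWithin] with u hu
      have hu0 : 0 < u := hu
      obtain ⟨g0, g1⟩ := bound n b u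
      rw [norm_neg, Real.norm_eq_abs, abs_of_nonneg (div_nonneg g0 hu0.le), div_le_iff₀ hu0]
      calc _ ≤ n * b ^ 2 * u ^ 2 := g1
        _ = _ := by ring
    · have : Tendsto (fun u : ℝ => (n : ℝ) * b ^ 2 * u) (𝓝 0) (𝓝 (n * b ^ 2 * 0)) :=
        (continuous_const.mul continuous_id).tendsto 0
      rw [mul_zero] at this
      exact this.mono_left nhdsWithin_le_nhds
  have h1 : Tendsto (fun u : ℝ => -((1 - 1 / Real.sqrt (1 + u ^ 2 * b ^ 2) ^ n) / u))
      (𝓝[<] 1) (𝓝 (-((1 - 1 / Real.sqrt (1 + b ^ 2) ^ n) / 1))) := by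
    have : ContinuousAt (fun u : ℝ => -((1 - 1 / Real.sqrt (1 + u ^ 2 * b ^ 2) ^ n) / u)) 1 :=
      ((continuousAt_const.sub hhc.continuousAt).div continuousAt_id one_ne_zero).neg
    have h := this.tendsto
    simp only [one_pow, one_mul] at h
    exact h.mono_left nhdsWithin_le_nhds
  have key := intervalIntegral.integral_eq_sub_of_hasDerivAt_of_tendsto zero_lt_one hd
    (hi1.sub hi2) h0 h1
  rw [intervalIntegral.integral_sub hi1 hi2, intervalIntegral.integral_const_mul, cov] at key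
  have : ∫ u in (0 : ℝ)..1, (1 - 1 / Real.sqrt (1 + u ^ 2 * b ^ 2) ^ n) / u ^ 2 =
      n * b * (∫ t in (0 : ℝ)..(Real.arctan b), Real.cos t ^ n) +
        (-((1 - 1 / Real.sqrt (1 + b ^ 2) ^ n) / 1) - 0) := by linarith
  rw [this]
  ring

end XRA6

theorem iRA6 : StRa6 := by
  intro n b hn hb
  rw [XRA6.left n b hn hb, XRA6.right n b, Real.cos_arctan, div_pow, one_pow]
  ring

end Pool.Agent.Work.MP_02f065_gt.Cvx
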