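import Pool.Agent.Work.MP_02f065_gt.Cvx.I_RB6

/-!
MP_02f065_gt, block CVX6, item RC6 (12074): the determinant inequality in one variable.
-/

open MeasureTheory Set Filter Topology

noncomputable section

namespace Pool.Agent.Work.MP_02f065_gt.Cvx

open Pool.Agent.Work.MP_02f065_gt.RPn

namespace XRC6

/-- the matrix of a form -/
def mat {n : ℕ} (β : E (Fin n) → E (Fin n) → ℝ) : Matrix (Fin n) (Fin n) ℝ :=
  Matrix.of fun i j => β (EuclideanSpace.single i 1) (EuclideanSpace.single j 1)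

theorem fmat_eq {n : ℕ} (β : E (Fin n) → E (Fin n) → ℝ) (s : ℝ) :
    fmat 1 (fun v w => s * β v w) = 1 + s • mat β := by
  ext i j
  simp [fmat, mat, Matrix.one_apply]

theorem mat_herm {n : ℕ} {β : E (Fin n) → E (Fin n) → ℝ} (h : IsForm β) :
    (mat β).IsHermitian := by
  ext i j
  simp only [mat, Matrix.conjTranspose_apply, Matrix.of_apply, star_trivial]
  rw [h.symm]

theorem mat_psd {n : ℕ} {β : E (Fin n) → E (Fin n) → ℝ} (h : IsForm β) :
    (mat β).PosSemidef := by
  refine Matrix.PosSemidef.of_dotProduct_mulVec_nonneg (mat_herm h) fun x => ?_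
  have h1 := XRB6.form_sum h (WithLp.toLp 2 x)
  have h2 := h.nonneg (WithLp.toLp 2 x)
  rw [h1] at h2
  refine h2.trans (le_of_eq ?_)
  simp only [dotProduct, Matrix.mulVec, mat, Matrix.of_apply, star_trivial]
  refine Finset.sum_congr rfl fun i _ => ?_
  rw [Finset.mul_sum]
  refine Finset.sum_congr rfl fun j _ => ?_
  ring

/-- the determinant is the product over the eigenvalues -/
theorem det_prod {n : ℕ} {β : E (Fin n) → E (Fin n) → ℝ} (h : IsForm β) :
    ∃ lam : Fin n → ℝ, (∀ i, 0 ≤ lam i) ∧ ∀ s : ℝ,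
      (fmat 1 (fun v w => s * β v w)).det = ∏ i, (1 + s * lam i) := by
  refine ⟨(mat_herm h).eigenvalues, fun i => (mat_psd h).eigenvalues_nonneg i, fun s => ?_⟩
  rw [fmat_eq]
  rcases eq_or_ne s 0 with hs | hs
  · subst hs
    simp
  · have hc := (mat_herm h).charpoly_eq
    have h1 := Matrix.eval_charpoly (mat β) (-s⁻¹)
    rw [hc, Polynomial.eval_prod] at h1
    have h2 : (1 : Matrix (Fin n) (Fin n) ℝ) + s • mat β =
        (-s) • (Matrix.scalar (Fin n) (-s⁻¹) - mat β) := by
      ext i j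
      simp only [Matrix.add_apply, Matrix.smul_apply, Matrix.sub_apply, smul_eq_mul,
        Matrix.scalar_apply, Matrix.diagonal_apply, Matrix.one_apply]
      split_ifs <;> field_simp <;> ring
    rw [h2, Matrix.det_smul, ← h1, Fintype.card_fin]
    have h3 : (-s) ^ n = ∏ _i : Fin n, (-s) := by simp
    rw [h3, ← Finset.prod_mul_distrib]
    refine Finset.prod_congr rfl fun i _ => ?_
    simp
    field_simp
    ring

/-- facts about the product -/
theorem prod_facts {ι : Type*} [DecidableEq ι] (lam : ι → ℝ) (hl : ∀ i, 0 ≤ lam i) (S : Finset ι) :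
    ∃ (p' : ℝ → ℝ) (C : ℝ), 0 ≤ C ∧
      (∀ s, HasDerivAt (fun s => ∏ i ∈ S, (1 + s * lam i)) (p' s) s) ∧
      (∀ s, 0 ≤ s → 1 ≤ ∏ i ∈ S, (1 + s * lam i)) ∧
      (∀ s, 0 ≤ s → ∏ i ∈ S, (1 + s * lam i) - 1 ≤ s * p' s) ∧
      (∀ s, 0 ≤ s → s ≤ 1 → ∏ i ∈ S, (1 + s * lam i) - 1 ≤ C * s) := by
  induction S using Finset.induction_on with
  | empty =>
    refine ⟨fun _ => 0, 0, le_refl _, fun s => ?_, ?_, ?_, ?_⟩
    · simpa using hasDerivAt_const s (1 : ℝ)
    · intro s _; simp
    · intro s _; simp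
    · intro s _ _; simp
  | insert a S ha ih =>
    obtain ⟨p', C, hC, hd, h1, h2, h3⟩ := ih
    have hla := hl a
    refine ⟨fun s => lam a * ∏ i ∈ S, (1 + s * lam i) + (1 + s * lam a) * p' s,
      C + lam a * (1 + C), by positivity, fun s => ?_, ?_, ?_, ?_⟩
    · have e : (fun s : ℝ => ∏ i ∈ insert a S, (1 + s * lam i)) =
          (fun s : ℝ => 1 + s * lam a) * (fun s : ℝ => ∏ i ∈ S, (1 + s * lam i)) := by
        funext s
        simp [Finset.prod_insert ha]
      rw [e]
      have hh : HasDerivAt (fun s : ℝ => 1 + s * lam a) (lam a) s := by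
        simpa using ((hasDerivAt_id s).mul_const (lam a)).const_add 1
      exact hh.mul (hd s)
    · intro s hs
      rw [Finset.prod_insert ha]
      have := h1 s hs
      have hm : 0 ≤ s * lam a := mul_nonneg hs hla
      nlinarith
    · intro s hs
      rw [Finset.prod_insert ha]
      have g1 := h1 s hs
      have g2 := h2 s hs
      have hm : 0 ≤ s * lam a := mul_nonneg hs hla
      nlinarith [mul_le_mul_of_nonneg_left g2 hm, mul_nonneg hm (sub_nonneg.2 g1)]
    · intro s hs hs1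
      rw [Finset.prod_insert ha]
      have g1 := h1 s hs
      have g3 := h3 s hs hs1
      have hm : 0 ≤ s * lam a := mul_nonneg hs hla
      have g4 : ∏ i ∈ S, (1 + s * lam i) ≤ 1 + C := by nlinarith
      nlinarith [mul_le_mul_of_nonneg_left g4 hm]

/-- the analysis -/
theorem analysis {n : ℕ} (lam : Fin n → ℝ) (hl : ∀ i, 0 ≤ lam i) :
    IntervalIntegrable (fun u : ℝ =>
      (1 - 1 / Real.sqrt (∏ i, (1 + u ^ 2 * lam i))) / u ^ 2) volume 0 1 ∧
    ∫ u in (0 : ℝ)..1, (1 - 1 / Real.sqrt (∏ i, (1 + u ^ 2 * lam i))) / u ^ 2 ≤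
      Real.sqrt (∏ i, (1 + 1 ^ 2 * lam i)) - 1 := by
  obtain ⟨p', C, hC, hd, h1, h2, h3⟩ := prod_facts lam hl Finset.univ
  set p : ℝ → ℝ := fun s => ∏ i, (1 + s * lam i) with hp
  have hpc : Continuous p := by
    rw [hp]
    fun_prop
  set h : ℝ → ℝ := fun u => Real.sqrt (p (u ^ 2)) with hh
  have hhc : Continuous h := by
    rw [hh]
    fun_prop
  have hp1 : ∀ u : ℝ, 1 ≤ p (u ^ 2) := fun u => h1 _ (sq_nonneg u)
  have hh1 : ∀ u, 1 ≤ h u := by
    intro u
    have := Real.sqrt_le_sqrt (hp1 u)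
    rwa [Real.sqrt_one] at this
  have hh2 : ∀ u, h u ^ 2 = p (u ^ 2) := fun u => Real.sq_sqrt (by linarith [hp1 u])
  have hbd : ∀ u, 0 ≤ u → u ≤ 1 → h u - 1 ≤ C * u ^ 2 := by
    intro u hu hu1
    have g := h3 (u ^ 2) (sq_nonneg u) (by nlinarith)
    have g' : h u ^ 2 - 1 ≤ C * u ^ 2 := by rw [hh2]; exact g
    nlinarith [hh1 u]
  have hinv : ∀ u, 1 - 1 / h u ≤ h u - 1 := by
    intro u
    have h0 : 0 < h u := by linarith [hh1 u]
    have : 1 / h u * h u = 1 := by field_simp
    have h4 : 0 < 1 / h u := by positivity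
    nlinarith [hh1 u, sq_nonneg (h u - 1), sq_nonneg (1 / h u - 1)]
  have hinv0 : ∀ u, 0 ≤ 1 - 1 / h u := by
    intro u
    have h0 : 0 < h u := by linarith [hh1 u]
    have : 1 / h u ≤ 1 := by
      rw [div_le_one h0]
      exact hh1 u
    linarith
  have hic : Continuous fun u => 1 / h u :=
    continuous_const.div hhc fun u => by linarith [hh1 u]
  have hmeas : AEStronglyMeasurable (fun u : ℝ => (1 - 1 / h u) / u ^ 2) volume :=
    ((measurable_const.sub hic.measurable).div (measurable_id.pow_const 2)).aestronglyMeasurable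
  have hInt : IntegrableOn (fun u : ℝ => (1 - 1 / h u) / u ^ 2) (Icc 0 1) := by
    refine Measure.integrableOn_of_bounded (M := C) (by simp) hmeas ?_
    refine (ae_restrict_iff' measurableSet_Icc).2 (Eventually.of_forall ?_)
    intro u hu
    rw [Real.norm_eq_abs, abs_of_nonneg (div_nonneg (hinv0 u) (sq_nonneg u))]
    rcases eq_or_ne u 0 with h0 | h0
    · rw [h0]
      simpa using hC
    · rw [div_le_iff₀ (by positivity)]
      exact (hinv u).trans (hbd u hu.1 hu.2)
  have hInt' : IntervalIntegrable (fun u : ℝ => (1 - 1 / h u) / u ^ 2) volume 0 1 := by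
    rw [intervalIntegrable_iff_integrableOn_Icc_of_le zero_le_one]
    exact hInt
  refine ⟨hInt', ?_⟩
  have hcont : ContinuousOn (fun u => (h u - 1) / u) (Icc 0 1) := by
    intro u hu
    rcases eq_or_ne u 0 with h0 | h0
    · subst h0
      have hz : (h 0 - 1) / (0 : ℝ) = 0 := by simp
      rw [ContinuousWithinAt, hz]
      have hlim : Tendsto (fun u : ℝ => C * u) (𝓝[Icc 0 1] 0) (𝓝 0) := by
        have : Tendsto (fun u : ℝ => C * u) (𝓝 0) (𝓝 (C * 0)) :=
          (continuous_const.mul continuous_id).tendsto 0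
        rw [mul_zero] at this
        exact this.mono_left nhdsWithin_le_nhds
      refine squeeze_zero' ?_ ?_ hlim
      · filter_upwards [self_mem_nhdsWithin] with v hv
        exact div_nonneg (by linarith [hh1 v]) hv.1
      · filter_upwards [self_mem_nhdsWithin] with v hv
        rcases eq_or_lt_of_le hv.1 with hv0 | hv0
        · rw [← hv0]; simp
        · rw [div_le_iff₀ hv0]
          calc _ ≤ C * v ^ 2 := hbd v hv.1 hv.2
            _ = _ := by ring
    · exact ((hhc.continuousAt.sub continuousAt_const).div continuousAt_id h0).continuousWithinAt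
  have hder : ∀ u ∈ Ioo (0 : ℝ) 1, HasDerivWithinAt (fun u => (h u - 1) / u)
      ((u * (p' (u ^ 2) * (2 * u) / (2 * h u)) - (h u - 1)) / u ^ 2) (Ioi u) u := by
    intro u hu
    have hu0 : u ≠ 0 := hu.1.ne'
    have d1 : HasDerivAt (fun u : ℝ => u ^ 2) (2 * u) u := by
      simpa using hasDerivAt_pow 2 u
    have d2 : HasDerivAt (fun u : ℝ => p (u ^ 2)) (p' (u ^ 2) * (2 * u)) u :=
      HasDerivAt.comp (h := fun u : ℝ => u ^ 2) (h₂ := p) u (hd (u ^ 2)) d1
    have d3 : HasDerivAt h (p' (u ^ 2) * (2 * u) / (2 * h u)) u :=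
      d2.sqrt (by linarith [hp1 u])
    have d4 := (d3.sub_const 1).div (hasDerivAt_id u) hu0
    refine (d4.congr_deriv ?_).hasDerivWithinAt
    simp only [id]
    ring
  have key := intervalIntegral.integral_le_sub_of_hasDeriv_right_of_le (zero_le_one' ℝ) hcont hder
    hInt (by
      intro u hu
      have hu0 : 0 < u := hu.1
      have h0 : 0 < h u := by linarith [hh1 u]
      refine div_le_div_of_nonneg_right ?_ (sq_nonneg u)
      have g := h2 (u ^ 2) (sq_nonneg u)
      have g' : h u ^ 2 - 1 ≤ u ^ 2 * p' (u ^ 2) := by rw [hh2]; exact g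
      have e : u * (p' (u ^ 2) * (2 * u) / (2 * h u)) = u ^ 2 * p' (u ^ 2) / h u := by
        field_simp
      rw [e]
      have g2 : (h u ^ 2 - 1) / h u ≤ u ^ 2 * p' (u ^ 2) / h u :=
        div_le_div_of_nonneg_right g' h0.le
      have g3 : (h u ^ 2 - 1) / h u = h u - 1 / h u := by
        field_simp
      linarith)
  refine key.trans (le_of_eq ?_)
  simp [hh, hp]

end XRC6

theorem iRC6 : StRc6 := by
  intro n β hβ
  obtain ⟨lam, hl, hdet⟩ := XRC6.det_prod hβ
  obtain ⟨p', C, hC, hd, h1, h2, h3⟩ := XRC6.prod_facts lam hl Finset.univ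
  have ha := XRC6.analysis lam hl
  simp only [hdet]
  refine ⟨h1, by fun_prop, ha.1, ?_⟩
  refine ha.2.trans (le_of_eq ?_)
  have := hdet (1 ^ 2)
  rw [← this]
  simp only [one_pow, one_mul]

end Pool.Agent.Work.MP_02f065_gt.Cvx
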