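import Pool.Agent.Work.MP_02f065_gt.Cvx.Stmts3

open MeasureTheory Set Filter Topology

noncomputable section

namespace Pool.Agent.Work.MP_02f065_gt.Cvx

open Pool.Agent.Work.MP_02f065_gt.RPn

namespace XWARP3

/-! ### Transfer to a field with the same values at unit vectors -/

section transfer

variable {ι : Type} [Fintype ι]

lemma length_eq {g g' : RPn.Field ι} (h : ∀ x, ‖x‖ = 1 → g x = g' x) {c : ℝ → E ι} {x y : E ι}
    (hc : IsCurve c x y) : length g c = length g' c := by
  unfold length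
  congr 1
  funext t
  rw [h _ (hc.sphere t)]

lemma rdist_eq {g g' : RPn.Field ι} (h : ∀ x, ‖x‖ = 1 → g x = g' x) (x y : E ι) :
    rdist g x y = rdist g' x y := by
  unfold rdist
  congr 1
  ext l
  constructor
  · rintro ⟨c, hc, hl⟩
    exact ⟨c, hc, by rw [← length_eq h hc]; exact hl⟩
  · rintro ⟨c, hc, hl⟩
    exact ⟨c, hc, by rw [length_eq h hc]; exact hl⟩

lemma rpDist_eq {g g' : RPn.Field ι} (h : ∀ x, ‖x‖ = 1 → g x = g' x) (x y : E ι) :
    rpDist g x y = rpDist g' x y := by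
  unfold rpDist
  rw [rdist_eq h, rdist_eq h]

lemma geod_eq {g g' : RPn.Field ι} (h : ∀ x, ‖x‖ = 1 → g x = g' x) {γ : ℝ → E ι} {l : ℝ}
    (hg : IsClosedGeodesic g γ l) : IsClosedGeodesic g' γ l := by
  obtain ⟨e, he, hd⟩ := hg.geodesic
  exact ⟨hg.cont, hg.sphere, ⟨e, he, fun s t hst => by rw [← rpDist_eq h]; exact hd s t hst⟩,
    hg.pos, hg.closed⟩

lemma vol_eq [DecidableEq ι] {g g' : RPn.Field ι} (h : ∀ x, ‖x‖ = 1 → g x = g' x) :
    vol g = vol g' := by
  unfold vol
  congr 1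
  congr 1
  funext x
  have hx : ‖(x : E ι)‖ = 1 := by simp
  unfold volDensity
  have : gram g (x : E ι) = gram g' (x : E ι) := by
    funext i j
    unfold gram
    rw [h _ hx]
  rw [this]

end transfer

/-! ### The function `F` -/

/-- Clamping. -/
def cl (s0 s1 s : ℝ) : ℝ := max s0 (min s s1)

lemma cl_mem {s0 s1 : ℝ} (h : s0 ≤ s1) (s : ℝ) : cl s0 s1 s ∈ Icc s0 s1 :=
  ⟨le_max_left _ _, max_le h (min_le_right _ _)⟩

lemma cl_eq {s0 s1 s : ℝ} (h : s ∈ Icc s0 s1) : cl s0 s1 s = s := by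
  unfold cl
  rw [min_eq_left h.2, max_eq_right h.1]

lemma cl_cont (s0 s1 : ℝ) : Continuous (cl s0 s1) := by
  unfold cl
  fun_prop

lemma cl_mono (s0 s1 : ℝ) : Monotone (cl s0 s1) := fun _ _ h =>
  max_le_max le_rfl (min_le_min h le_rfl)

lemma cl_sub {s0 s1 s s' : ℝ} (h : s ≤ s') : s - cl s0 s1 s ≤ s' - cl s0 s1 s' := by
  unfold cl
  rcases le_total s s1 with h1 | h1 <;> rcases le_total s' s1 with h2 | h2 <;>
    rcases le_total s0 (min s s1) with h3 | h3 <;> rcases le_total s0 (min s' s1) with h4 | h4 <;>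
    simp only [min_eq_left h1, min_eq_right h1, min_eq_left h2, min_eq_right h2] at h3 h4 ⊢ <;>
    simp only [max_eq_left, max_eq_right, h3, h4] <;> linarith

/-- Existence of the function `F`. -/
lemma exists_F (φ : ℝ → ℝ) (α β s0 s1 : ℝ) (hφ : ContDiffOn ℝ 2 φ (Ioo α β))
    (h1 : ∀ s ∈ Ioo α β, 0 < deriv φ s) (h2 : ∀ s ∈ Ioo α β, 0 ≤ deriv (deriv φ) s)
    (ha : α < s0) (hs : s0 < s1) (hb : s1 < β) :
    ∃ F : ℝ → ℝ, IsF (φ s1) F ∧ ∀ s ∈ Ioo s0 s1, F (φ s) = 1 / deriv φ s ∧
      deriv F (φ s) = -deriv (deriv φ) s / deriv φ s ^ 3 := by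
  have hsub : Icc s0 s1 ⊆ Ioo α β := fun s hs' => ⟨lt_of_lt_of_le ha hs'.1,
    lt_of_le_of_lt hs'.2 hb⟩
  have hdφ : ∀ s ∈ Ioo α β, HasDerivAt φ (deriv φ s) s := fun s hs' =>
    ((hφ.contDiffAt (isOpen_Ioo.mem_nhds hs')).differentiableAt (by norm_num)).hasDerivAt
  have hC1 : ContDiffOn ℝ 1 (deriv φ) (Ioo α β) :=
    hφ.deriv_of_isOpen isOpen_Ioo (by norm_num)
  have hddφ : ∀ s ∈ Ioo α β, HasDerivAt (deriv φ) (deriv (deriv φ) s) s := fun s hs' =>
    ((hC1.contDiffAt (isOpen_Ioo.mem_nhds hs')).differentiableAt (by norm_num)).hasDerivAt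
  have hC0 : ContinuousOn (deriv (deriv φ)) (Ioo α β) :=
    (hC1.continuousOn_deriv_of_isOpen isOpen_Ioo (by norm_num))
  have hmono : StrictMonoOn φ (Icc s0 s1) := by
    refine strictMonoOn_of_deriv_pos (convex_Icc _ _)
      (hφ.continuousOn.mono hsub) fun s hs' => ?_
    rw [interior_Icc] at hs'
    exact h1 s (hsub (Ioo_subset_Icc_self hs'))
  -- the extension of `φ` to a homeomorphism
  set Φ : ℝ → ℝ := fun s => φ (cl s0 s1 s) + (s - cl s0 s1 s) with hΦ
  have hφc : Continuous fun s => φ (cl s0 s1 s) :=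
    (hφ.continuousOn.mono hsub).comp_continuous (cl_cont _ _) fun s => cl_mem hs.le s
  have hΦc : Continuous Φ := hφc.add (continuous_id.sub (cl_cont _ _))
  have hΦm : StrictMono Φ := by
    intro s s' hss
    simp only [hΦ]
    rcases (cl_mono s0 s1 hss.le).lt_or_eq with h | h
    · have := hmono (cl_mem hs.le s) (cl_mem hs.le s') h
      have := cl_sub (s0 := s0) (s1 := s1) hss.le
      linarith
    · rw [h]
      linarith
  have hΦs : Function.Surjective Φ := by
    refine hΦc.surjective ?_ ?_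
    · refine tendsto_atTop_mono (fun s => ?_) (tendsto_atTop_add_const_right atTop
        (φ s0 - s1) tendsto_id)
      simp only [hΦ, id]
      have h3 := hmono.monotoneOn (left_mem_Icc.2 hs.le) (cl_mem hs.le s) (cl_mem hs.le s).1
      have := (cl_mem hs.le s).2
      linarith
    · refine tendsto_atBot_mono (fun s => ?_) (tendsto_atBot_add_const_right atBot
        (φ s1 - s0) tendsto_id)
      simp only [hΦ, id]
      have h3 := hmono.monotoneOn (cl_mem hs.le s) (right_mem_Icc.2 hs.le) (cl_mem hs.le s).2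
      have := (cl_mem hs.le s).1
      linarith
  set ψ : ℝ → ℝ := fun t => (hΦm.orderIsoOfSurjective Φ hΦs).symm t with hψ
  have hψc : Continuous ψ := (hΦm.orderIsoOfSurjective Φ hΦs).symm.continuous
  have hψφ : ∀ s ∈ Icc s0 s1, ψ (φ s) = s := by
    intro s hs'
    have : Φ s = φ s := by
      simp only [hΦ, cl_eq hs', sub_self, add_zero]
    rw [← this]
    exact (hΦm.orderIsoOfSurjective Φ hΦs).symm_apply_apply s
  -- the derivative
  set h : ℝ → ℝ := fun s => -deriv (deriv φ) s / deriv φ s ^ 3 with hh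
  have hhc : ContinuousOn h (Ioo α β) :=
    hC0.neg.div (hC1.continuousOn.pow 3) fun s hs' => (pow_pos (h1 s hs') 3).ne'
  set G : ℝ → ℝ := fun t => h (cl s0 s1 (ψ t)) with hG
  have hGc : Continuous G := (hhc.mono hsub).comp_continuous ((cl_cont _ _).comp hψc)
    fun t => cl_mem hs.le (ψ t)
  have hGn : ∀ t, G t ≤ 0 := by
    intro t
    have hm := hsub (cl_mem hs.le (ψ t))
    simp only [hG, hh]
    exact div_nonpos_of_nonpos_of_nonneg (neg_nonpos.2 (h2 _ hm)) (pow_pos (h1 _ hm) 3).le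
  set F : ℝ → ℝ := fun t => 1 / deriv φ s0 + ∫ u in (φ s0)..t, G u with hF
  have hFd : ∀ t, HasDerivAt F (G t) t := by
    intro t
    have := intervalIntegral.integral_hasDerivAt_right (hGc.intervalIntegrable (φ s0) t)
      (hGc.stronglyMeasurableAtFilter _ _) hGc.continuousAt
    exact this.const_add _
  have hdF : deriv F = G := funext fun t => (hFd t).deriv
  have hFφ : ∀ s ∈ Icc s0 s1, F (φ s) = 1 / deriv φ s := by
    -- the two sides have the same derivative
    have hd : ∀ s ∈ Ioo α β, HasDerivAt (fun s => 1 / deriv φ s)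
        (-deriv (deriv φ) s / deriv φ s ^ 2) s := by
      intro s hs'
      have e := (hddφ s hs').inv (h1 s hs').ne'
      have e' : (fun s => 1 / deriv φ s) = (deriv φ)⁻¹ := by
        funext u
        rw [one_div, Pi.inv_apply]
      rw [e']
      exact e
    have hcont1 : ContinuousOn (fun s => F (φ s) - 1 / deriv φ s) (Icc s0 s1) := by
      intro s hs'
      exact (((hFd (φ s)).continuousAt.comp (hdφ s (hsub hs')).continuousAt).sub
        (hd s (hsub hs')).continuousAt).continuousWithinAt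
    have hder : ∀ s ∈ Ico s0 s1, HasDerivWithinAt (fun s => F (φ s) - 1 / deriv φ s) 0
        (Ici s) s := by
      intro s hs'
      have hm : s ∈ Icc s0 s1 := Ico_subset_Icc_self hs'
      have e1 := ((hFd (φ s)).comp s (hdφ s (hsub hm))).sub (hd s (hsub hm))
      have e2 : G (φ s) * deriv φ s - -deriv (deriv φ) s / deriv φ s ^ 2 = 0 := by
        simp only [hG, hψφ s hm, cl_eq hm, hh]
        have := (h1 s (hsub hm)).ne'
        field_simp
        ring
      rw [e2] at e1
      exact e1.hasDerivWithinAt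
    intro s hs'
    have := constant_of_has_deriv_right_zero hcont1 hder s hs'
    have h0 : F (φ s0) = 1 / deriv φ s0 := by
      simp only [hF, intervalIntegral.integral_same, add_zero]
    simp only [h0, sub_self] at this
    linarith
  refine ⟨F, ⟨?_, ?_, ?_⟩, fun s hs' => ⟨hFφ s (Ioo_subset_Icc_self hs'), ?_⟩⟩
  · refine ContDiff.contDiffOn ?_
    rw [contDiff_one_iff_deriv]
    exact ⟨fun t => (hFd t).differentiableAt, by rw [hdF]; exact hGc⟩
  · intro t ht
    rcases le_total t (φ s0) with h3 | h3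
    · simp only [hF]
      have h4 : 0 ≤ ∫ u in (φ s0)..t, G u := by
        rw [intervalIntegral.integral_symm, ← intervalIntegral.integral_neg]
        exact intervalIntegral.integral_nonneg h3 fun u _ => neg_nonneg.2 (hGn u)
      have := h1 s0 (hsub (left_mem_Icc.2 hs.le))
      positivity
    · have h5 : t ∈ φ '' Icc s0 s1 :=
        intermediate_value_Icc hs.le (hφ.continuousOn.mono hsub) ⟨h3, ht.2.le⟩
      obtain ⟨s, hs', rfl⟩ := h5
      rw [hFφ s hs']
      have := h1 s (hsub hs')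
      positivity
  · intro t ht χ h0 hχ
    have h6 : (∫ τ in (0 : ℝ)..χ, deriv F (t * Real.cos χ / Real.cos τ) / Real.cos τ) ≤ 0 := by
      rw [← neg_nonneg, ← intervalIntegral.integral_neg]
      refine intervalIntegral.integral_nonneg h0 fun τ hτ => ?_
      rw [neg_nonneg, hdF]
      refine div_nonpos_of_nonpos_of_nonneg (hGn _) ?_
      exact Real.cos_nonneg_of_mem_Icc ⟨by linarith [hτ.1, Real.pi_pos], by linarith [hτ.2]⟩
    have h7 : 0 ≤ t * Real.sin χ := mul_nonneg ht.1.le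
      (Real.sin_nonneg_of_nonneg_of_le_pi h0 (by linarith [Real.pi_pos]))
    have h8 : t * Real.sin χ * ∫ τ in (0 : ℝ)..χ,
        deriv F (t * Real.cos χ / Real.cos τ) / Real.cos τ ≤ 0 :=
      mul_nonpos_of_nonneg_of_nonpos h7 h6
    refine h8.trans ?_
    rcases le_total t (φ s0) with h3 | h3
    · simp only [hF]
      have h4 : 0 ≤ ∫ u in (φ s0)..t, G u := by
        rw [intervalIntegral.integral_symm, ← intervalIntegral.integral_neg]
        exact intervalIntegral.integral_nonneg h3 fun u _ => neg_nonneg.2 (hGn u)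
      have := h1 s0 (hsub (left_mem_Icc.2 hs.le))
      positivity
    · have h5 : t ∈ φ '' Icc s0 s1 :=
        intermediate_value_Icc hs.le (hφ.continuousOn.mono hsub) ⟨h3, ht.2.le⟩
      obtain ⟨s, hs', rfl⟩ := h5
      rw [hFφ s hs']
      have := h1 s (hsub hs')
      positivity
  · rw [hdF]
    have hm := Ioo_subset_Icc_self hs'
    simp only [hG, hψφ s hm, cl_eq hm, hh]

/-! ### Derivatives of `φ ∘ r` -/

section deriv

variable {ι : Type} [Fintype ι] {φ : ℝ → ℝ} {α β : ℝ} {r : E ι → ℝ}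

lemma range' (h : IsGraph φ α β r) {x : E ι} (hx : x ≠ 0) : r x ∈ Ioo α β := by
  have hn : ‖x‖ ≠ 0 := norm_ne_zero_iff.2 hx
  have h1 := h.hom (‖x‖⁻¹) x (inv_ne_zero hn)
  rw [← h1]
  refine h.range _ ?_
  rw [norm_smul, norm_inv, norm_norm, inv_mul_cancel₀ hn]

lemma hasFDerivAt_a (h : IsGraph φ α β r) {x : E ι} (hx : x ≠ 0) :
    HasFDerivAt (fun y => φ (r y)) (deriv φ (r x) • fderiv ℝ r x) x := by
  have h1 : HasDerivAt φ (deriv φ (r x)) (r x) :=
    ((h.smooth.contDiffAt (isOpen_Ioo.mem_nhds (range' h hx))).differentiableAt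
      (by norm_num)).hasDerivAt
  have h2 : HasFDerivAt r (fderiv ℝ r x) x :=
    ((h.diff.contDiffAt (isOpen_ne.mem_nhds hx)).differentiableAt (by norm_num)).hasFDerivAt
  exact h1.comp_hasFDerivAt x h2

lemma fderiv_a (h : IsGraph φ α β r) {x : E ι} (hx : x ≠ 0) :
    fderiv ℝ (fun y => φ (r y)) x = deriv φ (r x) • fderiv ℝ r x :=
  (hasFDerivAt_a h hx).fderiv

lemma fderiv2_a (h : IsGraph φ α β r) {x : E ι} (hx : x ≠ 0) (v w : E ι) :
    fderiv ℝ (fderiv ℝ (fun y => φ (r y))) x v w =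
      deriv (deriv φ) (r x) * (fderiv ℝ r x v * fderiv ℝ r x w) +
        deriv φ (r x) * fderiv ℝ (fderiv ℝ r) x v w := by
  have he : fderiv ℝ (fun y => φ (r y)) =ᶠ[𝓝 x] fun y => deriv φ (r y) • fderiv ℝ r y := by
    filter_upwards [isOpen_ne.mem_nhds hx] with y hy
    exact fderiv_a h hy
  have hC1 : ContDiffOn ℝ 1 (deriv φ) (Ioo α β) :=
    h.smooth.deriv_of_isOpen isOpen_Ioo (by norm_num)
  have h1 : HasDerivAt (deriv φ) (deriv (deriv φ) (r x)) (r x) :=
    ((hC1.contDiffAt (isOpen_Ioo.mem_nhds (range' h hx))).differentiableAt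
      (by norm_num)).hasDerivAt
  have h2 : HasFDerivAt r (fderiv ℝ r x) x :=
    ((h.diff.contDiffAt (isOpen_ne.mem_nhds hx)).differentiableAt (by norm_num)).hasFDerivAt
  have h3 : HasFDerivAt (fun y => deriv φ (r y)) (deriv (deriv φ) (r x) • fderiv ℝ r x) x :=
    h1.comp_hasFDerivAt x h2
  have h4 : ContDiffAt ℝ 1 (fderiv ℝ r) x :=
    (h.diff.contDiffAt (isOpen_ne.mem_nhds hx)).fderiv_right (m := 1) (by norm_num)
  have h5 : HasFDerivAt (fderiv ℝ r) (fderiv ℝ (fderiv ℝ r) x) x :=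
    (h4.differentiableAt (by norm_num)).hasFDerivAt
  have h6 : fderiv ℝ (fun y => deriv φ (r y) • fderiv ℝ r y) x =
      deriv φ (r x) • fderiv ℝ (fderiv ℝ r) x +
        (deriv (deriv φ) (r x) • fderiv ℝ r x).smulRight (fderiv ℝ r x) := (h3.smul h5).fderiv
  rw [he.fderiv_eq, h6]
  simp only [add_apply, smul_apply, ContinuousLinearMap.smulRight_apply, smul_eq_mul]
  ring

end deriv

end XWARP3

open XWARP3 in
theorem iWARP3 (hF : StMainF3) : StMain3 := by
  intro Q hQ φ α β r hG hS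
  have hne : ∀ x : E (Ix 1 Q), ‖x‖ = 1 → x ≠ 0 := by
    intro x hx h
    rw [h, norm_zero] at hx
    norm_num at hx
  have hrc : ContinuousOn r (Metric.sphere (0 : E (Ix 1 Q)) 1) :=
    hG.diff.continuousOn.mono fun x hx => hne x (by simpa using hx)
  have hcomp : IsCompact (Metric.sphere (0 : E (Ix 1 Q)) 1) := isCompact_sphere _ _
  have hnon : (Metric.sphere (0 : E (Ix 1 Q)) 1).Nonempty := by
    refine ⟨EuclideanSpace.single (Sum.inl 0) 1, ?_⟩
    simp
  obtain ⟨x0, hx0, hmin⟩ := hcomp.exists_isMinOn hnon hrc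
  obtain ⟨x1, hx1, hmax⟩ := hcomp.exists_isMaxOn hnon hrc
  have hr0 := hG.range x0 (by simpa using hx0)
  have hr1 := hG.range x1 (by simpa using hx1)
  obtain ⟨s0, hs0, hs0'⟩ := exists_between hr0.1
  obtain ⟨s1, hs1, hs1'⟩ := exists_between hr1.2
  have hmem : ∀ x : E (Ix 1 Q), ‖x‖ = 1 → r x ∈ Ioo s0 s1 := by
    intro x hx
    have hx' : x ∈ Metric.sphere (0 : E (Ix 1 Q)) 1 := by simpa using hx
    exact ⟨lt_of_lt_of_le hs0' (hmin hx'), lt_of_le_of_lt (hmax hx') hs1⟩
  have hs : s0 < s1 := (hmem x0 (by simpa using hx0)).1.trans (hmem x0 (by simpa using hx0)).2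
  obtain ⟨F, hFF, hFv⟩ := exists_F φ α β s0 s1 hG.smooth hG.incr hG.convex hs0 hs hs1'
  set a : E (Ix 1 Q) → ℝ := fun x => φ (r x) with ha
  have hmono : StrictMonoOn φ (Ioo α β) := by
    refine strictMonoOn_of_deriv_pos (convex_Ioo _ _) hG.smooth.continuousOn fun s hs' => ?_
    rw [interior_Ioo] at hs'
    exact hG.incr s hs'
  have hA : IsA (φ s1) a := by
    refine ⟨?_, ?_, ?_⟩
    · exact hG.smooth.comp hG.diff fun x hx => range' hG hx
    · intro c x hc
      simp only [ha, hG.hom c x hc]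
    · intro x hx
      refine ⟨hG.pos _ (hG.range x hx), ?_⟩
      exact hmono (hG.range x hx) ⟨hs0.trans hs, hs1'⟩ (hmem x hx).2
  have hda : ∀ x : E (Ix 1 Q), ‖x‖ = 1 → fderiv ℝ a x = deriv φ (r x) • fderiv ℝ r x :=
    fun x hx => fderiv_a hG (hne x hx)
  have hfam : ∀ x : E (Ix 1 Q), ‖x‖ = 1 → famet F a x = warped φ r x := by
    intro x hx
    funext v w
    have h1 := (hFv _ (hmem x hx)).1
    have h2 := (hG.incr _ (hG.range x hx)).ne'
    simp only [famet, warped, hda x hx, smul_apply, smul_eq_mul]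
    simp only [ha, h1]
    field_simp
  have hsec : ∀ x : E (Ix 1 Q), ‖x‖ = 1 → ∀ v w : E (Ix 1 Q),
      fasec F a x v w = second φ r x v w / deriv φ (r x) := by
    intro x hx v w
    have h1 := (hFv _ (hmem x hx)).1
    have h1' := (hFv _ (hmem x hx)).2
    have h2 := (hG.incr _ (hG.range x hx)).ne'
    simp only [fasec, second, hda x hx, smul_apply, smul_eq_mul]
    rw [fderiv2_a hG (hne x hx)]
    simp only [ha, h1, h1']
    field_simp
    ring
  have hSp : SplitPos (fasec F a) a := by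
    intro x hx
    obtain ⟨e, he, h1, h2, h3⟩ := hS x hx
    have h4 := hG.incr _ (hG.range x hx)
    refine ⟨e, he, ?_, ?_, ?_⟩
    · intro w hw hw'
      rw [hda x hx, smul_apply, h1 w hw hw', smul_zero]
    · rw [hsec x hx]
      exact div_nonneg h2 h4.le
    · simp only [hsec x hx]
      rw [← Finset.sum_div]
      exact div_le_div_of_nonneg_right h3 h4.le
  obtain ⟨hM, γ, l, hγ, hl⟩ := hF Q hQ (φ s1) F a hFF hA hSp
  refine ⟨⟨?_, ?_, ?_, ?_, ?_, ?_⟩, γ, l, geod_eq hfam hγ, ?_⟩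
  · intro x v v' w
    simp only [warped, inner_add_left, map_add]
    ring
  · intro x v w c
    simp only [warped, inner_smul_left, map_smul, smul_eq_mul, conj_trivial]
    ring
  · intro x v w
    simp only [warped]
    rw [real_inner_comm]
    ring
  · intro v w
    refine (hM.cont v w).congr fun x hx => ?_
    have := hfam x (by simpa using hx)
    simp only [this]
  · intro x v hx hxv hv
    rw [← hfam x hx]
    exact hM.pos x v hx hxv hv
  · intro x v w hx hv hw
    rw [← hfam x hx, ← hfam (-x) (by rw [norm_neg]; exact hx)]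
    exact hM.even x v w hx hv hw
  · rw [← vol_eq hfam]
    exact hl

end Pool.Agent.Work.MP_02f065_gt.Cvx
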