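import Pool.Agent.Work.MP_02f065_gt.Cvx.Stmts4
import Pool.Agent.Work.MP_02f065_gt.Cvx.I_WARP3

open MeasureTheory Set Filter Topology

noncomputable section

namespace Pool.Agent.Work.MP_02f065_gt.Cvx

open Pool.Agent.Work.MP_02f065_gt.RPn

namespace XWARP4

/-! ### Derivatives of `φ ∘ r` -/

section deriv

variable {ι : Type} [Fintype ι] {φ : ℝ → ℝ} {α β : ℝ} {r : E ι → ℝ}

lemma range' (h : IsWarp φ α β r) {x : E ι} (hx : x ≠ 0) : r x ∈ Ioo α β := by
  have hn : ‖x‖ ≠ 0 := norm_ne_zero_iff.2 hx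
  have h1 := h.hom (‖x‖⁻¹) x (inv_ne_zero hn)
  rw [← h1]
  refine h.range _ ?_
  rw [norm_smul, norm_inv, norm_norm, inv_mul_cancel₀ hn]

lemma hasFDerivAt_a (h : IsWarp φ α β r) {x : E ι} (hx : x ≠ 0) :
    HasFDerivAt (fun y => φ (r y)) (deriv φ (r x) • fderiv ℝ r x) x := by
  have h1 : HasDerivAt φ (deriv φ (r x)) (r x) :=
    ((h.smooth.contDiffAt (isOpen_Ioo.mem_nhds (range' h hx))).differentiableAt
      (by norm_num)).hasDerivAt
  have h2 : HasFDerivAt r (fderiv ℝ r x) x :=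
    ((h.diff.contDiffAt (isOpen_ne.mem_nhds hx)).differentiableAt (by norm_num)).hasFDerivAt
  exact h1.comp_hasFDerivAt x h2

lemma fderiv_a (h : IsWarp φ α β r) {x : E ι} (hx : x ≠ 0) :
    fderiv ℝ (fun y => φ (r y)) x = deriv φ (r x) • fderiv ℝ r x :=
  (hasFDerivAt_a h hx).fderiv

lemma fderiv2_a (h : IsWarp φ α β r) {x : E ι} (hx : x ≠ 0) (v w : E ι) :
    fderiv ℝ (fderiv ℝ (fun y => φ (r y))) x v w =
      deriv (deriv φ) (r x) * (fderiv ℝ r x v * fderiv ℝ r x w) +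
        deriv φ (r x) * fderiv ℝ (fderiv ℝ r) x v w := by
  have he : fderiv ℝ (fun y => φ (r y)) =ᶠ[𝓝 x] fun y => deriv φ (r y) • fderiv ℝ r y := by
    filter_upwards [isOpen_ne.mem_nhds hx] with y hy
    exact fderiv_a h hy
  have hC1 : ContDiffOn ℝ 1 (deriv φ) (Ioo α β) :=
    h.smooth.deriv_of_isOpen isOpen_Ioo (by norm_num)
  have h1 : HasDerivAt (deriv φ) (deriv (deriv φ) (r x)) (r x) :=
    ((hC1.contDiffAt (isOpen_Ioo.mem_nhds (range' h hx))).differentiableAt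
      (by norm_num)).hasDerivAt
  have h2 : HasFDerivAt r (fderiv ℝ r x) x :=
    ((h.diff.contDiffAt (isOpen_ne.mem_nhds hx)).differentiableAt (by norm_num)).hasFDerivAt
  have h3 : HasFDerivAt (fun y => deriv φ (r y)) (deriv (deriv φ) (r x) • fderiv ℝ r x) x :=
    h1.comp_hasFDerivAt x h2
  have h4 : ContDiffAt ℝ 1 (fderiv ℝ r) x :=
    (h.diff.contDiffAt (isOpen_ne.mem_nhds hx)).fderiv_right (m := 1) (by norm_num)
  have h5 : HasFDerivAt (fderiv ℝ r) (fderiv ℝ (fderiv ℝ r) x) x :=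
    (h4.differentiableAt (by norm_num)).hasFDerivAt
  have h6 : fderiv ℝ (fun y => deriv φ (r y) • fderiv ℝ r y) x =
      deriv φ (r x) • fderiv ℝ (fderiv ℝ r) x +
        (deriv (deriv φ) (r x) • fderiv ℝ r x).smulRight (fderiv ℝ r x) := (h3.smul h5).fderiv
  rw [he.fderiv_eq, h6]
  simp only [add_apply, smul_apply, ContinuousLinearMap.smulRight_apply, smul_eq_mul]
  ring

end deriv

/-- The metric of the space of constant curvature. -/
lemma lam_const {φ : ℝ → ℝ} {α β κ : ℝ} (hφ : ContDiffOn ℝ 2 φ (Ioo α β))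
    (hκ : ∀ s ∈ Ioo α β, deriv (deriv φ) s = -(κ * φ s)) {s t : ℝ} (hs : s ∈ Ioo α β)
    (ht : t ∈ Ioo α β) : deriv φ s ^ 2 + κ * φ s ^ 2 = deriv φ t ^ 2 + κ * φ t ^ 2 := by
  have hdφ : ∀ s ∈ Ioo α β, HasDerivAt φ (deriv φ s) s := fun s hs' =>
    ((hφ.contDiffAt (isOpen_Ioo.mem_nhds hs')).differentiableAt (by norm_num)).hasDerivAt
  have hC1 : ContDiffOn ℝ 1 (deriv φ) (Ioo α β) :=
    hφ.deriv_of_isOpen isOpen_Ioo (by norm_num)
  have hddφ : ∀ s ∈ Ioo α β, HasDerivAt (deriv φ) (deriv (deriv φ) s) s := fun s hs' =>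
    ((hC1.contDiffAt (isOpen_Ioo.mem_nhds hs')).differentiableAt (by norm_num)).hasDerivAt
  have hd : ∀ s ∈ Ioo α β, HasDerivAt (fun s => deriv φ s ^ 2 + κ * φ s ^ 2) 0 s := by
    intro s hs'
    have e := ((hddφ s hs').pow 2).add (((hdφ s hs').pow 2).const_mul κ)
    have e2 : (2 : ℕ) * deriv φ s ^ (2 - 1) * deriv (deriv φ) s +
        κ * ((2 : ℕ) * φ s ^ (2 - 1) * deriv φ s) = 0 := by
      rw [hκ s hs']
      push_cast
      ring
    rw [e2] at e
    exact e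
  exact isOpen_Ioo.is_const_of_deriv_eq_zero isPreconnected_Ioo
    (fun s hs' => (hd s hs').differentiableAt.differentiableWithinAt)
    (fun s hs' => (hd s hs').deriv) hs ht

/-- The transfer. -/
lemma main (hF : StMainF3) (Q : ℕ) (hQ : 2 ≤ Q) (φ : ℝ → ℝ) (α β : ℝ) (r : E (Ix 1 Q) → ℝ)
    (hG : IsWarp φ α β r) (hS : SplitPos (second φ r) r) (M : ℝ) (F : ℝ → ℝ) (hFF : IsF M F)
    (hFv : ∀ x : E (Ix 1 Q), ‖x‖ = 1 → φ (r x) < M ∧ F (φ (r x)) = 1 / deriv φ (r x) ∧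
      deriv F (φ (r x)) = -deriv (deriv φ) (r x) / deriv φ (r x) ^ 3) :
    IsMetric (warped φ r) ∧ ∃ (γ : ℝ → E (Ix 1 Q)) (l : ℝ), IsClosedGeodesic (warped φ r) γ l ∧
      (l / Real.pi) ^ Q ≤ vol (warped φ r) / vol (RPn.round : RPn.Field (Ix 1 Q)) := by
  have hne : ∀ x : E (Ix 1 Q), ‖x‖ = 1 → x ≠ 0 := by
    intro x hx h
    rw [h, norm_zero] at hx
    norm_num at hx
  set a : E (Ix 1 Q) → ℝ := fun x => φ (r x) with ha
  have hA : IsA M a := by
    refine ⟨?_, ?_, ?_⟩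
    · exact hG.smooth.comp hG.diff fun x hx => range' hG hx
    · intro c x hc
      simp only [ha, hG.hom c x hc]
    · intro x hx
      exact ⟨hG.pos _ (hG.range x hx), (hFv x hx).1⟩
  have hda : ∀ x : E (Ix 1 Q), ‖x‖ = 1 → fderiv ℝ a x = deriv φ (r x) • fderiv ℝ r x :=
    fun x hx => fderiv_a hG (hne x hx)
  have hfam : ∀ x : E (Ix 1 Q), ‖x‖ = 1 → famet F a x = warped φ r x := by
    intro x hx
    funext v w
    have h1 := (hFv x hx).2.1
    have h2 := (hG.incr _ (hG.range x hx)).ne'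
    simp only [famet, warped, hda x hx, smul_apply, smul_eq_mul]
    simp only [ha, h1]
    field_simp
  have hsec : ∀ x : E (Ix 1 Q), ‖x‖ = 1 → ∀ v w : E (Ix 1 Q),
      fasec F a x v w = second φ r x v w / deriv φ (r x) := by
    intro x hx v w
    have h1 := (hFv x hx).2.1
    have h1' := (hFv x hx).2.2
    have h2 := (hG.incr _ (hG.range x hx)).ne'
    simp only [fasec, second, hda x hx, smul_apply, smul_eq_mul]
    rw [fderiv2_a hG (hne x hx)]
    simp only [ha, h1, h1']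
    field_simp
    ring
  have hSp : SplitPos (fasec F a) a := by
    intro x hx
    obtain ⟨e, he, h1, h2, h3⟩ := hS x hx
    have h4 := hG.incr _ (hG.range x hx)
    refine ⟨e, he, ?_, ?_, ?_⟩
    · intro w hw hw'
      rw [hda x hx, smul_apply, h1 w hw hw', smul_zero]
    · rw [hsec x hx]
      exact div_nonneg h2 h4.le
    · simp only [hsec x hx]
      rw [← Finset.sum_div]
      exact div_le_div_of_nonneg_right h3 h4.le
  obtain ⟨hM, γ, l, hγ, hl⟩ := hF Q hQ M F a hFF hA hSp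
  refine ⟨⟨?_, ?_, ?_, ?_, ?_, ?_⟩, γ, l, XWARP3.geod_eq hfam hγ, ?_⟩
  · intro x v v' w
    simp only [warped, inner_add_left, map_add]
    ring
  · intro x v w c
    simp only [warped, inner_smul_left, map_smul, smul_eq_mul, conj_trivial]
    ring
  · intro x v w
    simp only [warped]
    rw [real_inner_comm]
    ring
  · intro v w
    refine (hM.cont v w).congr fun x hx => ?_
    have := hfam x (by simpa using hx)
    simp only [this]
  · intro x v hx hxv hv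
    rw [← hfam x hx]
    exact hM.pos x v hx hxv hv
  · intro x v w hx hv hw
    rw [← hfam x hx, ← hfam (-x) (by rw [norm_neg]; exact hx)]
    exact hM.even x v w hx hv hw
  · rw [← XWARP3.vol_eq hfam]
    exact hl

end XWARP4

open XWARP4 in
theorem iWARP4 (h3 : StMain3) (hF : StMainF3) (hN : StNck3) : StMain4 := by
  intro Q hQ φ α β r hW hS
  rcases hW.curv with hc | ⟨κ, hκ⟩
  · exact h3 Q hQ φ α β r ⟨hW.smooth, hW.pos, hW.incr, hc, hW.diff, hW.hom, hW.range⟩ hS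
  rcases le_or_gt κ 0 with hk | hk
  · refine h3 Q hQ φ α β r ⟨hW.smooth, hW.pos, hW.incr, fun s hs => ?_, hW.diff, hW.hom,
      hW.range⟩ hS
    rw [hκ s hs, neg_nonneg]
    exact mul_nonpos_of_nonpos_of_nonneg hk (hW.pos s hs).le
  have hne : ∀ x : E (Ix 1 Q), ‖x‖ = 1 → x ≠ 0 := by
    intro x hx h
    rw [h, norm_zero] at hx
    norm_num at hx
  have hrc : ContinuousOn r (Metric.sphere (0 : E (Ix 1 Q)) 1) :=
    hW.diff.continuousOn.mono fun x hx => hne x (by simpa using hx)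
  have hcomp : IsCompact (Metric.sphere (0 : E (Ix 1 Q)) 1) := isCompact_sphere _ _
  have hnon : (Metric.sphere (0 : E (Ix 1 Q)) 1).Nonempty := by
    refine ⟨EuclideanSpace.single (Sum.inl 0) 1, ?_⟩
    simp
  obtain ⟨x1, hx1, hmax⟩ := hcomp.exists_isMaxOn hnon hrc
  have hr1 := hW.range x1 (by simpa using hx1)
  obtain ⟨s1, hs1, hs1'⟩ := exists_between hr1.2
  have hs1m : s1 ∈ Ioo α β := ⟨hr1.1.trans hs1, hs1'⟩
  have hmem : ∀ x : E (Ix 1 Q), ‖x‖ = 1 → r x < s1 := by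
    intro x hx
    have hx' : x ∈ Metric.sphere (0 : E (Ix 1 Q)) 1 := by simpa using hx
    exact lt_of_le_of_lt (hmax hx') hs1
  have hmono : StrictMonoOn φ (Ioo α β) := by
    refine strictMonoOn_of_deriv_pos (convex_Ioo _ _) hW.smooth.continuousOn fun s hs' => ?_
    rw [interior_Ioo] at hs'
    exact hW.incr s hs'
  set lam : ℝ := deriv φ s1 ^ 2 + κ * φ s1 ^ 2 with hlam
  have hl : ∀ s ∈ Ioo α β, lam - κ * φ s ^ 2 = deriv φ s ^ 2 := by
    intro s hs
    have := lam_const hW.smooth hκ hs hs1m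
    rw [hlam]
    linarith
  have hpos : ∀ v ∈ Ioo (0 : ℝ) (φ s1), 0 < lam - κ * v ^ 2 := by
    intro v hv
    have h1 : 0 < deriv φ s1 ^ 2 := pow_pos (hW.incr s1 hs1m) 2
    have h2 : v ^ 2 ≤ φ s1 ^ 2 := pow_le_pow_left₀ hv.1.le hv.2.le 2
    have h4 : κ * v ^ 2 ≤ κ * φ s1 ^ 2 := mul_le_mul_of_nonneg_left h2 hk.le
    rw [hlam]
    linarith
  refine main hF Q hQ φ α β r hW hS (φ s1) (fun s => 1 / Real.sqrt (lam - κ * s ^ 2))
    (hN κ lam (φ s1) hk hpos) fun x hx => ?_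
  have hrx := hW.range x hx
  have hlt : φ (r x) < φ s1 := hmono hrx hs1m (hmem x hx)
  have hd := hW.incr _ hrx
  have hsq : Real.sqrt (lam - κ * φ (r x) ^ 2) = deriv φ (r x) := by
    rw [hl _ hrx, Real.sqrt_sq hd.le]
  refine ⟨hlt, by simp only [hsq], ?_⟩
  have hp : lam - κ * φ (r x) ^ 2 ≠ 0 := (hpos _ ⟨hW.pos _ hrx, hlt⟩).ne'
  have e1 : HasDerivAt (fun s : ℝ => lam - κ * s ^ 2) (-(2 * κ * φ (r x))) (φ (r x)) := by
    have := ((hasDerivAt_pow 2 (φ (r x))).const_mul κ).const_sub lam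
    refine this.congr_deriv ?_
    push_cast
    ring
  have e2 := (e1.sqrt hp).inv (by rw [hsq]; exact hd.ne')
  have e3 : (fun s : ℝ => 1 / Real.sqrt (lam - κ * s ^ 2)) =
      (fun s : ℝ => Real.sqrt (lam - κ * s ^ 2))⁻¹ := by
    funext s
    rw [one_div, Pi.inv_apply]
  rw [e3, e2.deriv, hsq, hκ _ hrx]
  field_simp

end Pool.Agent.Work.MP_02f065_gt.Cvx
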