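import Pool.Agent.Work.MP_02f065_gt.Cvx.Stmts5
import Pool.Agent.Work.MP_02f065_gt.Cvx.I_WARP3
import Pool.Agent.Work.MP_02f065_gt.Cvx.I_WARP4

open MeasureTheory Set Filter Topology

noncomputable section

namespace Pool.Agent.Work.MP_02f065_gt.Cvx

open Pool.Agent.Work.MP_02f065_gt.RPn

namespace XRED5

/-- The transfer. -/
lemma main {ι : Type} [Fintype ι] [DecidableEq ι] (φ : ℝ → ℝ) (α β : ℝ) (r : E ι → ℝ)
    (hG : IsWarp φ α β r) (M : ℝ) (F : ℝ → ℝ) (hFF : IsF M F)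
    (hFv : ∀ x : E ι, ‖x‖ = 1 → φ (r x) < M ∧ F (φ (r x)) = 1 / deriv φ (r x) ∧
      deriv F (φ (r x)) = -deriv (deriv φ) (r x) / deriv φ (r x) ^ 3) :
    ∃ (M : ℝ) (F : ℝ → ℝ), IsF M F ∧ IsA M (fun x => φ (r x)) ∧
    (∀ x : E ι, ‖x‖ = 1 → F (φ (r x)) * deriv φ (r x) = 1 ∧ ∀ v : E ι,
      fderiv ℝ (fun y => φ (r y)) x v = deriv φ (r x) * fderiv ℝ r x v) ∧
    (SplitPos (second φ r) r → SplitPos (fasec F (fun x => φ (r x))) (fun x => φ (r x))) := by
  have hne : ∀ x : E ι, ‖x‖ = 1 → x ≠ 0 := by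
    intro x hx h
    rw [h, norm_zero] at hx
    norm_num at hx
  have hda : ∀ x : E ι, ‖x‖ = 1 →
      fderiv ℝ (fun x => φ (r x)) x = deriv φ (r x) • fderiv ℝ r x :=
    fun x hx => XWARP4.fderiv_a hG (hne x hx)
  refine ⟨M, F, hFF, ⟨?_, ?_, ?_⟩, ?_, ?_⟩
  · exact hG.smooth.comp hG.diff fun x hx => XWARP4.range' hG hx
  · intro c x hc
    simp only [hG.hom c x hc]
  · intro x hx
    exact ⟨hG.pos _ (hG.range x hx), (hFv x hx).1⟩
  · intro x hx
    refine ⟨?_, fun v => ?_⟩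
    · rw [(hFv x hx).2.1]
      exact one_div_mul_cancel (hG.incr _ (hG.range x hx)).ne'
    · rw [hda x hx, smul_apply, smul_eq_mul]
  · intro hS
    have hsec : ∀ x : E ι, ‖x‖ = 1 → ∀ v w : E ι,
        fasec F (fun x => φ (r x)) x v w = second φ r x v w / deriv φ (r x) := by
      intro x hx v w
      have h1 := (hFv x hx).2.1
      have h1' := (hFv x hx).2.2
      have h2 := (hG.incr _ (hG.range x hx)).ne'
      simp only [fasec, second, hda x hx, smul_apply, smul_eq_mul]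
      rw [XWARP4.fderiv2_a hG (hne x hx)]
      simp only [h1, h1']
      field_simp
      ring
    intro x hx
    obtain ⟨e, he, h1, h2, h3⟩ := hS x hx
    have h4 := hG.incr _ (hG.range x hx)
    refine ⟨e, he, ?_, ?_, ?_⟩
    · intro w hw hw'
      rw [hda x hx, smul_apply, h1 w hw hw', smul_zero]
    · rw [hsec x hx]
      exact div_nonneg h2 h4.le
    · simp only [hsec x hx]
      rw [← Finset.sum_div]
      exact div_le_div_of_nonneg_right h3 h4.le

end XRED5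

open XRED5 in
theorem iRED5 (hN : StNck3) : StRed5 := by
  intro ι _ _ _ φ α β r hW
  have hne : ∀ x : E ι, ‖x‖ = 1 → x ≠ 0 := by
    intro x hx h
    rw [h, norm_zero] at hx
    norm_num at hx
  have hrc : ContinuousOn r (Metric.sphere (0 : E ι) 1) :=
    hW.diff.continuousOn.mono fun x hx => hne x (by simpa using hx)
  have hcomp : IsCompact (Metric.sphere (0 : E ι) 1) := isCompact_sphere _ _
  have hnon : (Metric.sphere (0 : E ι) 1).Nonempty := by
    refine ⟨EuclideanSpace.single (Classical.arbitrary ι) 1, ?_⟩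
    simp
  obtain ⟨x0, hx0, hmin⟩ := hcomp.exists_isMinOn hnon hrc
  obtain ⟨x1, hx1, hmax⟩ := hcomp.exists_isMaxOn hnon hrc
  have hr0 := hW.range x0 (by simpa using hx0)
  have hr1 := hW.range x1 (by simpa using hx1)
  obtain ⟨s0, hs0, hs0'⟩ := exists_between hr0.1
  obtain ⟨s1, hs1, hs1'⟩ := exists_between hr1.2
  have hmem : ∀ x : E ι, ‖x‖ = 1 → r x ∈ Ioo s0 s1 := by
    intro x hx
    have hx' : x ∈ Metric.sphere (0 : E ι) 1 := by simpa using hx
    exact ⟨lt_of_lt_of_le hs0' (hmin hx'), lt_of_le_of_lt (hmax hx') hs1⟩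
  have hs : s0 < s1 := (hmem x0 (by simpa using hx0)).1.trans (hmem x0 (by simpa using hx0)).2
  have hs1m : s1 ∈ Ioo α β := ⟨hs0.trans hs, hs1'⟩
  have hmono : StrictMonoOn φ (Ioo α β) := by
    refine strictMonoOn_of_deriv_pos (convex_Ioo _ _) hW.smooth.continuousOn fun s hs' => ?_
    rw [interior_Ioo] at hs'
    exact hW.incr s hs'
  have hlt : ∀ x : E ι, ‖x‖ = 1 → φ (r x) < φ s1 := fun x hx =>
    hmono (hW.range x hx) hs1m (hmem x hx).2
  by_cases hc : ∀ s ∈ Ioo α β, 0 ≤ deriv (deriv φ) s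
  · obtain ⟨F, hFF, hFv⟩ := XWARP3.exists_F φ α β s0 s1 hW.smooth hW.incr hc hs0 hs hs1'
    exact main φ α β r hW (φ s1) F hFF fun x hx => ⟨hlt x hx, hFv _ (hmem x hx)⟩
  rcases hW.curv with hc' | ⟨κ, hκ⟩
  · exact absurd hc' hc
  rcases le_or_gt κ 0 with hk | hk
  · refine absurd (fun s hs => ?_) hc
    rw [hκ s hs, neg_nonneg]
    exact mul_nonpos_of_nonpos_of_nonneg hk (hW.pos s hs).le
  set lam : ℝ := deriv φ s1 ^ 2 + κ * φ s1 ^ 2 with hlam
  have hl : ∀ s ∈ Ioo α β, lam - κ * φ s ^ 2 = deriv φ s ^ 2 := by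
    intro s hs
    have := XWARP4.lam_const hW.smooth hκ hs hs1m
    rw [hlam]
    linarith
  have hpos : ∀ v ∈ Ioo (0 : ℝ) (φ s1), 0 < lam - κ * v ^ 2 := by
    intro v hv
    have h1 : 0 < deriv φ s1 ^ 2 := pow_pos (hW.incr s1 hs1m) 2
    have h2 : v ^ 2 ≤ φ s1 ^ 2 := pow_le_pow_left₀ hv.1.le hv.2.le 2
    have h4 : κ * v ^ 2 ≤ κ * φ s1 ^ 2 := mul_le_mul_of_nonneg_left h2 hk.le
    rw [hlam]
    linarith
  refine main φ α β r hW (φ s1) (fun s => 1 / Real.sqrt (lam - κ * s ^ 2))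
    (hN κ lam (φ s1) hk hpos) fun x hx => ?_
  have hrx := hW.range x hx
  have hd := hW.incr _ hrx
  have hsq : Real.sqrt (lam - κ * φ (r x) ^ 2) = deriv φ (r x) := by
    rw [hl _ hrx, Real.sqrt_sq hd.le]
  refine ⟨hlt x hx, by simp only [hsq], ?_⟩
  have hp : lam - κ * φ (r x) ^ 2 ≠ 0 := (hpos _ ⟨hW.pos _ hrx, hlt x hx⟩).ne'
  have e1 : HasDerivAt (fun s : ℝ => lam - κ * s ^ 2) (-(2 * κ * φ (r x))) (φ (r x)) := by
    have := ((hasDerivAt_pow 2 (φ (r x))).const_mul κ).const_sub lam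
    refine this.congr_deriv ?_
    push_cast
    ring
  have e2 := (e1.sqrt hp).inv (by rw [hsq]; exact hd.ne')
  have e3 : (fun s : ℝ => 1 / Real.sqrt (lam - κ * s ^ 2)) =
      (fun s : ℝ => Real.sqrt (lam - κ * s ^ 2))⁻¹ := by
    funext s
    rw [one_div, Pi.inv_apply]
  rw [e3, e2.deriv, hsq, hκ _ hrx]
  field_simp

end Pool.Agent.Work.MP_02f065_gt.Cvx
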