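import Pool.Agent.Work.MP_02f065_gt.Cvx.Stmts3

/-!
MP_02f065_gt, block CVX3, item SCA3: facts about the functions of `(A, s)`.
-/

open MeasureTheory Set Filter Topology

noncomputable section

namespace Pool.Agent.Work.MP_02f065_gt.Cvx

open Pool.Agent.Work.MP_02f065_gt.RPn

namespace XSCA3

theorem ch_mem (F : ℝ → ℝ) (A s : ℝ) : chS F A s ∈ Ioo (-(Real.pi / 2)) (Real.pi / 2) :=
  ⟨Real.neg_pi_div_two_lt_arctan _, Real.arctan_lt_pi_div_two _⟩

theorem cos_pos (F : ℝ → ℝ) (A s : ℝ) : 0 < Real.cos (chS F A s) := Real.cos_arctan_pos _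

theorem sq_pos' {A : ℝ} (hA : 0 < A) (b : ℝ) : 0 < A ^ 2 + b ^ 2 := by positivity

theorem sqrt_one {A : ℝ} (hA : 0 < A) (b : ℝ) :
    Real.sqrt (1 + (b / A) ^ 2) = Real.sqrt (A ^ 2 + b ^ 2) / A := by
  rw [show 1 + (b / A) ^ 2 = (A ^ 2 + b ^ 2) / A ^ 2 by field_simp,
    Real.sqrt_div' _ (by positivity), Real.sqrt_sq hA.le]

theorem cos_ch (F : ℝ → ℝ) {A : ℝ} (s : ℝ) (hA : 0 < A) :
    Real.cos (chS F A s) = A / Real.sqrt (A ^ 2 + (F A * s) ^ 2) := by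
  unfold chS
  rw [Real.cos_arctan, sqrt_one hA, one_div_div]

theorem sin_ch (F : ℝ → ℝ) {A : ℝ} (s : ℝ) (hA : 0 < A) :
    Real.sin (chS F A s) = F A * s / Real.sqrt (A ^ 2 + (F A * s) ^ 2) := by
  unfold chS
  have h := Real.sqrt_pos.2 (sq_pos' hA (F A * s))
  rw [Real.sin_arctan, sqrt_one hA]
  field_simp

theorem k_pos (F : ℝ → ℝ) {A : ℝ} (s : ℝ) (hA : 0 < A) : 0 < kS F A s :=
  mul_pos hA (cos_pos F A s)

theorem k_le (F : ℝ → ℝ) {A : ℝ} (s : ℝ) (hA : 0 < A) : kS F A s ≤ A :=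
  mul_le_of_le_one_right hA.le (Real.cos_le_one _)

theorem k_div (F : ℝ → ℝ) (A s : ℝ) : kS F A s / Real.cos (chS F A s) = A :=
  mul_div_cancel_right₀ _ (cos_pos F A s).ne'

theorem reg (F : ℝ → ℝ) {M A : ℝ} (s : ℝ) (hA : A ∈ Ioo 0 M) :
    (kS F A s, chS F A s) ∈ Reg M := by
  refine ⟨k_pos F s hA.1, ch_mem F A s, ?_⟩
  have h := k_div F A s
  simp only [h]
  exact hA.2

theorem ch_neg (F : ℝ → ℝ) (A s : ℝ) : chS F A (-s) = -chS F A s := by
  unfold chS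
  rw [← Real.arctan_neg]
  congr 1
  ring

theorem k_neg (F : ℝ → ℝ) (A s : ℝ) : kS F A (-s) = kS F A s := by
  unfold kS
  rw [ch_neg, Real.cos_neg]

theorem int_neg (h : ℝ → ℝ) (hh : ∀ x, h (-x) = h x) (c : ℝ) :
    ∫ τ in (0 : ℝ)..(-c), h τ = -∫ τ in (0 : ℝ)..c, h τ := by
  have h1 := intervalIntegral.integral_comp_neg (a := (0 : ℝ)) (b := c) h
  simp only [hh, neg_zero] at h1
  rw [intervalIntegral.integral_symm, ← h1]

theorem Cm_neg (m : ℕ) (χ : ℝ) : Cm m (-χ) = -Cm m χ :=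
  int_neg (fun τ : ℝ => Real.cos τ ^ m) (fun x => by simp only [Real.cos_neg]) χ

theorem gm_neg (m : ℕ) (χ : ℝ) : gm m (-χ) = gm m χ := by
  unfold gm
  rw [Cm_neg, Real.sin_neg, Real.cos_neg]
  ring

theorem om_neg (F : ℝ → ℝ) (A s : ℝ) : omS F A (-s) = omS F A s := by
  unfold omS
  rw [ch_neg, k_neg, int_neg (fun τ => deriv F (kS F A s / Real.cos τ) / Real.cos τ)
    (fun x => by simp only [Real.cos_neg])]
  rw [show F A * -s = -(F A * s) by ring, neg_sq]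
  ring

theorem GS_neg (m : ℕ) (F : ℝ → ℝ) (A s : ℝ) : GS m F A (-s) = GS m F A s := by
  unfold GS
  rw [k_neg, ch_neg, gm_neg]

theorem GS_zero (F : ℝ → ℝ) (A s : ℝ) : GS 0 F A s = 1 := by
  unfold GS gm
  simp

theorem Cm_one (χ : ℝ) : Cm 1 χ = Real.sin χ := by
  unfold Cm
  simp

theorem GS_one (F : ℝ → ℝ) {A : ℝ} (s : ℝ) (hA : 0 < A) :
    GS 1 F A s = Real.sqrt (A ^ 2 + (F A * s) ^ 2) := by
  have h := Real.sqrt_pos.2 (sq_pos' hA (F A * s))
  have hc := cos_pos F A s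
  have h1 : gm 1 (chS F A s) = 1 / Real.cos (chS F A s) ^ 2 := by
    unfold gm
    rw [Cm_one]
    have h2 := Real.sin_sq_add_cos_sq (chS F A s)
    push_cast
    field_simp
    linarith
  unfold GS
  rw [h1, kS, cos_ch F s hA]
  field_simp

theorem cont_Cm (m : ℕ) : Continuous (Cm m) := by
  have hc : Continuous (fun τ : ℝ => Real.cos τ ^ m) := by fun_prop
  exact intervalIntegral.continuous_primitive (fun a b => hc.intervalIntegrable a b) 0

theorem cont_gm (m : ℕ) : ContinuousOn (gm m) (Ioo (-(Real.pi / 2)) (Real.pi / 2)) := by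
  unfold gm
  have h1 : ContinuousOn (fun χ : ℝ => (m : ℝ) * Real.sin χ * Cm m χ)
      (Ioo (-(Real.pi / 2)) (Real.pi / 2)) :=
    ((continuous_const.mul Real.continuous_sin).mul (cont_Cm m)).continuousOn
  have h2 : ContinuousOn (fun χ : ℝ => Real.cos χ ^ (m + 1))
      (Ioo (-(Real.pi / 2)) (Real.pi / 2)) := (Real.continuous_cos.pow _).continuousOn
  exact continuousOn_const.add (h1.div h2 (fun x hx => (pow_pos (Real.cos_pos_of_mem_Ioo hx) _).ne'))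

theorem cont_F {M : ℝ} {F : ℝ → ℝ} (hF : ContinuousOn F (Ioo 0 M)) :
    ContinuousOn (fun z : ℝ × ℝ => F z.1 * z.2) (Ioo 0 M ×ˢ univ) :=
  (hF.comp (f := fun z : ℝ × ℝ => z.1) continuousOn_fst (fun _ hz => hz.1)).mul continuousOn_snd

theorem cont_ch {M : ℝ} {F : ℝ → ℝ} (hF : ContinuousOn F (Ioo 0 M)) :
    ContinuousOn (fun z : ℝ × ℝ => chS F z.1 z.2) (Ioo 0 M ×ˢ univ) := by
  have h1 : ContinuousOn (fun z : ℝ × ℝ => F z.1 * z.2 / z.1) (Ioo 0 M ×ˢ univ) :=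
    (cont_F hF).div continuousOn_fst (fun z hz => hz.1.1.ne')
  exact Real.continuous_arctan.comp_continuousOn h1

theorem cont_k {M : ℝ} {F : ℝ → ℝ} (hF : ContinuousOn F (Ioo 0 M)) :
    ContinuousOn (fun z : ℝ × ℝ => kS F z.1 z.2) (Ioo 0 M ×ˢ univ) :=
  continuousOn_fst.mul (Real.continuous_cos.comp_continuousOn (cont_ch hF))

theorem cont_om (hD : StDer3) {M : ℝ} {F : ℝ → ℝ} (hF : ContDiffOn ℝ 1 F (Ioo 0 M)) :
    ContinuousOn (fun z : ℝ × ℝ => omS F z.1 z.2) (Ioo 0 M ×ˢ univ) := by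
  have h0 := hF.continuousOn
  have h1 := (hD M F (fun _ => 1) hF continuousOn_const).2.2
  have h2 : ContinuousOn (fun z : ℝ × ℝ => (kS F z.1 z.2, chS F z.1 z.2))
      (Ioo 0 M ×ˢ univ) := (cont_k h0).prodMk (cont_ch h0)
  have h3 := h1.comp h2 (fun z hz => reg F z.2 hz.1)
  have h4 : ContinuousOn (fun z : ℝ × ℝ => z.1 ^ 2 + (F z.1 * z.2) ^ 2) (Ioo 0 M ×ˢ univ) :=
    (continuousOn_fst.pow 2).add ((cont_F h0).pow 2)
  have h5 : ContinuousOn (fun z : ℝ × ℝ => Real.sqrt (z.1 ^ 2 + (F z.1 * z.2) ^ 2) ^ 3)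
      (Ioo 0 M ×ˢ univ) := (Real.continuous_sqrt.comp_continuousOn h4).pow 3
  have h6 : ContinuousOn (fun z : ℝ × ℝ => 1 / (z.1 ^ 2 + (F z.1 * z.2) ^ 2))
      (Ioo 0 M ×ˢ univ) := continuousOn_const.div h4 (fun z hz => (sq_pos' hz.1.1 _).ne')
  have h7 : ContinuousOn (fun z : ℝ × ℝ => z.1 * z.2 /
      Real.sqrt (z.1 ^ 2 + (F z.1 * z.2) ^ 2) ^ 3) (Ioo 0 M ×ˢ univ) :=
    (continuousOn_fst.mul continuousOn_snd).div h5
      (fun z hz => (pow_pos (Real.sqrt_pos.2 (sq_pos' hz.1.1 _)) 3).ne')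
  refine (h6.sub (h7.mul h3)).congr (fun z _ => ?_)
  simp only [omS, Function.comp_apply, mul_one, Pi.mul_apply, Pi.sub_apply]

theorem om_nonneg' {M : ℝ} {F : ℝ → ℝ} (hF : IsF M F) {A : ℝ} (hA : A ∈ Ioo 0 M) {s : ℝ}
    (hs : 0 ≤ s) : 0 ≤ omS F A s := by
  have hFA := hF.nonneg A hA
  have hA0 : 0 < A := hA.1
  have hr := Real.sqrt_pos.2 (sq_pos' hA0 (F A * s))
  have hq := Real.sq_sqrt (sq_pos' hA0 (F A * s)).le
  have hχ0 : 0 ≤ chS F A s := Real.arctan_nonneg.2 (by positivity)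
  have hnc := hF.nc A hA (chS F A s) hχ0 (ch_mem F A s).2
  have hk : ∀ τ : ℝ, deriv F (A * Real.cos (chS F A s) / Real.cos τ) / Real.cos τ =
    deriv F (kS F A s / Real.cos τ) / Real.cos τ := fun τ => rfl
  simp only [hk] at hnc
  set J := ∫ τ in (0 : ℝ)..(chS F A s), deriv F (kS F A s / Real.cos τ) / Real.cos τ with hJ
  have key : A * s * J ≤ Real.sqrt (A ^ 2 + (F A * s) ^ 2) := by
    rcases hFA.eq_or_lt with h0 | h0
    · have hc0 : chS F A s = 0 := by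
        unfold chS
        rw [← h0]
        simp
      have hJ0 : J = 0 := by
        rw [hJ, hc0, intervalIntegral.integral_same]
      rw [hJ0, mul_zero]
      exact hr.le
    · rw [sin_ch F s hA0] at hnc
      have h1 : F A * (A * s * J) ≤ F A * Real.sqrt (A ^ 2 + (F A * s) ^ 2) := by
        have h2 : A * (F A * s / Real.sqrt (A ^ 2 + (F A * s) ^ 2)) * J =
          F A * (A * s * J) / Real.sqrt (A ^ 2 + (F A * s) ^ 2) := by ring
        rw [h2, div_le_iff₀ hr] at hnc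
        exact hnc
      exact le_of_mul_le_mul_left h1 h0
  unfold omS
  rw [← hJ]
  rw [← hq]
  set r := Real.sqrt (A ^ 2 + (F A * s) ^ 2) with hrr
  have h3 : Real.sqrt (r ^ 2) = r := Real.sqrt_sq hr.le
  rw [h3]
  have h4 : 1 / r ^ 2 - A * s / r ^ 3 * J = (r - A * s * J) / r ^ 3 := by
    field_simp
  rw [h4]
  exact div_nonneg (by linarith) (by positivity)

theorem om_nonneg {M : ℝ} {F : ℝ → ℝ} (hF : IsF M F) {A : ℝ} (hA : A ∈ Ioo 0 M) (s : ℝ) :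
    0 ≤ omS F A s := by
  rcases le_total 0 s with h | h
  · exact om_nonneg' hF hA h
  · rw [← om_neg]
    exact om_nonneg' hF hA (by linarith)

end XSCA3

open XSCA3

theorem iSCA3 (hD : StDer3) : StSca3 := by
  intro M F hF
  have h0 := hF.diff.continuousOn
  refine ⟨cont_k h0, cont_om hD hF.diff, fun m => ?_, fun A hA s => ?_⟩
  · exact ((cont_k h0).pow m).mul ((cont_gm m).comp (cont_ch h0) (fun z _ => ch_mem F z.1 z.2))
  · exact ⟨k_pos F s hA.1, k_le F s hA.1, reg F s hA, k_div F A s, om_nonneg hF hA s,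
      om_neg F A s, k_neg F A s, fun m => GS_neg m F A s, GS_zero F A s, GS_one F s hA.1⟩

end Pool.Agent.Work.MP_02f065_gt.Cvx
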