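import Pool.Agent.Work.MP_02f065_gt.Cvx.Stmts3
import Pool.Agent.Work.MP_02f065_gt.Cvx.I_MAIN

/-!
MP_02f065_gt, block CVX3, item SGN3: positivity of the means.
-/

open MeasureTheory Set Filter Topology

noncomputable section

namespace Pool.Agent.Work.MP_02f065_gt.Cvx

open Pool.Agent.Work.MP_02f065_gt.RPn

namespace XSGN3

variable {ι : Type} [Fintype ι]

lemma inner_nrm (x y : E ι) (hx : ‖x‖ = 1) : inner ℝ x (nrm x y) = 0 := by
  unfold nrm tang
  rw [inner_smul_right, inner_sub_right, inner_smul_right, real_inner_self_eq_norm_sq, hx]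
  ring

lemma fderiv_eq (a : E ι → ℝ) (x e u : E ι) (hxe : ON x e)
    (h : ∀ w : E ι, inner ℝ x w = 0 → inner ℝ e w = 0 → fderiv ℝ a x w = 0)
    (hu : inner ℝ x u = 0) : fderiv ℝ a x u = fderiv ℝ a x e * inner ℝ e u := by
  obtain ⟨h1, h2, h3⟩ := hxe
  have hw := h (u - (inner ℝ e u : ℝ) • e) (by rw [inner_sub_right, inner_smul_right, hu, h3]; ring)
    (by rw [inner_sub_right, inner_smul_right, real_inner_self_eq_norm_sq, h2]; ring)
  rw [map_sub, map_smul, smul_eq_mul] at hw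
  linarith

lemma fasec_add (F : ℝ → ℝ) (a : E ι → ℝ) (x v v' w : E ι) :
    fasec F a x (v + v') w = fasec F a x v w + fasec F a x v' w := by
  unfold fasec
  rw [inner_add_left, map_add, map_add, ContinuousLinearMap.add_apply]
  ring

lemma fasec_smul (F : ℝ → ℝ) (a : E ι → ℝ) (r : ℝ) (x v w : E ι) :
    fasec F a x (r • v) w = r * fasec F a x v w := by
  unfold fasec
  rw [real_inner_smul_left, map_smul, map_smul, ContinuousLinearMap.smul_apply, smul_eq_mul,
    smul_eq_mul]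
  ring

lemma fasec_symm (F : ℝ → ℝ) (a : E ι → ℝ) (x v w : E ι) (hx : x ≠ 0)
    (ha : ContDiffOn ℝ 2 a {x | x ≠ 0}) :
    fasec F a x v w = fasec F a x w v := by
  have hU : IsOpen {x : E ι | x ≠ 0} := isOpen_ne
  have hc : ContDiffAt ℝ 2 a x := ha.contDiffAt (hU.mem_nhds hx)
  have hs : IsSymmSndFDerivAt ℝ a x := hc.isSymmSndFDerivAt (by simp)
  unfold fasec
  rw [hs.eq v w, real_inner_comm]
  ring

end XSGN3

open XSGN3 in
theorem iSGN3 (hS : StSca3) (hK : StCon3) (hD : StDis3) (hP : StPos3) : StSgn3 := by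
  intro Q hQ Fr M F a p hF ha hSp hp hp0 x v hxv
  letI := Fr.ms
  obtain ⟨-, -, hk, hfD, -⟩ := hK (Ix 1 Q) M F a hF ha
  obtain ⟨hkc, homc, -, hsc⟩ := hS M F hF
  have hH : ContinuousOn (fun z : E (Ix 1 Q) × E (Ix 1 Q) =>
      p (kS F (a z.1) (fderiv ℝ a z.1 z.2)) * fD F a z.1 z.2) {z | ON z.1 z.2} :=
    (hp.comp_continuousOn hk).mul hfD
  have hdis := hD Q hQ Fr _ hH x v hxv
  have hpos := XMAIN.int_one_pos Q hQ
  have hmain : 0 ≤ ∫ ω, ∫ y : Metric.sphere (0 : E (Ix 1 Q)) 1,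
      (fun z : E (Ix 1 Q) × E (Ix 1 Q) =>
      p (kS F (a z.1) (fderiv ℝ a z.1 z.2)) * fD F a z.1 z.2) (Fr.A ω x, nrm (Fr.A ω x) y)
      ∂((volume : Measure (E (Ix 1 Q))).toSphere) ∂Fr.μ := by
    refine integral_nonneg fun ω => ?_
    have hx' : ‖Fr.A ω x‖ = 1 := by rw [(Fr.A ω).norm_map]; exact hxv.1
    generalize Fr.A ω x = x' at hx' ⊢
    have hx0 : x' ≠ 0 := by
      intro h0
      rw [h0, norm_zero] at hx'
      exact zero_ne_one hx'
    obtain ⟨e, hxe, horth, hee, htr⟩ := hSp x' hx'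
    have hr := ha.range x' hx'
    have hcs : Continuous fun s : ℝ => ((a x', fderiv ℝ a x' e * s) : ℝ × ℝ) := by fun_prop
    have hc1 : Continuous fun s : ℝ => kS F (a x') (fderiv ℝ a x' e * s) :=
      hkc.comp_continuous hcs fun s => ⟨hr, mem_univ _⟩
    have hc2 : Continuous fun s : ℝ => omS F (a x') (fderiv ℝ a x' e * s) :=
      homc.comp_continuous hcs fun s => ⟨hr, mem_univ _⟩
    have hq := hP (Ix 1 Q) x' e (fasec F a x')
      (fun s => p (kS F (a x') (fderiv ℝ a x' e * s)) * omS F (a x') (fderiv ℝ a x' e * s))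
      hxe (fun v v' w => fasec_add F a x' v v' w) (fun r v w => fasec_smul F a r x' v w)
      (fun v w => fasec_symm F a x' v w hx0 ha.diff) ((hp.comp hc1).mul hc2)
      (fun s => mul_nonneg (hp0 _ (hsc _ hr _).1.le) (hsc _ hr _).2.2.2.2.1)
      (fun s => by
        rw [mul_neg, (hsc _ hr _).2.2.2.2.2.2.1, (hsc _ hr _).2.2.2.2.2.1]) hee htr
    refine hq.trans (le_of_eq ?_)
    refine integral_congr_ae (Eventually.of_forall fun y => ?_)
    have hu := inner_nrm x' (y : E (Ix 1 Q)) hx'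
    have hf := fderiv_eq a x' e (nrm x' (y : E (Ix 1 Q))) hxe horth hu
    simp only [fD]
    rw [hf]
    ring
  rw [← hdis] at hmain
  exact nonneg_of_mul_nonneg_right hmain hpos

end Pool.Agent.Work.MP_02f065_gt.Cvx
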