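import Pool.Agent.Work.MP_02f065_gt.Cvx.Stmts5
import Pool.Agent.Work.MP_02f065_gt.Cvx.I_JEN3

open MeasureTheory Set Filter Topology

noncomputable section

namespace Pool.Agent.Work.MP_02f065_gt.Cvx

open Pool.Agent.Work.MP_02f065_gt.RPn

namespace XTR5

theorem cont_fR (n : ℕ) (R : ℝ) : Continuous (fR n R) := by
  unfold fR
  fun_prop

theorem prim_low (n : ℕ) (R s : ℝ) (hs : 0 ≤ s) (hsR : s ≤ R) :
    ∫ c in (0 : ℝ)..s, fR (n + 1) R c = s ^ (n + 1) - (n + 1 : ℕ) * R ^ n * s := by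
  have h1 : ∫ c in (0 : ℝ)..s, fR (n + 1) R c =
      ∫ c in (0 : ℝ)..s, ((n + 1 : ℕ) : ℝ) * (c ^ n - R ^ n) := by
    apply intervalIntegral.integral_congr
    intro c hc
    rw [uIcc_of_le hs] at hc
    unfold fR
    have : min c R = c := min_eq_left (hc.2.trans hsR)
    simp only [this, Nat.add_sub_cancel]
  rw [h1, intervalIntegral.integral_const_mul, intervalIntegral.integral_sub
    ((continuous_pow n).intervalIntegrable _ _) (continuous_const.intervalIntegrable _ _),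
    integral_pow, intervalIntegral.integral_const]
  have hn : ((n : ℝ) + 1) ≠ 0 := by positivity
  push_cast
  simp only [smul_eq_mul, sub_zero, zero_pow (Nat.succ_ne_zero n)]
  field_simp

theorem prim_high (n : ℕ) (R s : ℝ) (hR : 0 ≤ R) (hsR : R ≤ s) :
    ∫ c in (0 : ℝ)..s, fR (n + 1) R c = -((n : ℝ) * R ^ (n + 1)) := by
  have hi : ∀ u v : ℝ, IntervalIntegrable (fR (n + 1) R) volume u v := fun u v =>
    (cont_fR (n + 1) R).intervalIntegrable _ _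
  rw [← intervalIntegral.integral_add_adjacent_intervals (hi 0 R) (hi R s),
    prim_low n R R hR le_rfl]
  have h1 : ∫ c in R..s, fR (n + 1) R c = ∫ c in R..s, (0 : ℝ) := by
    apply intervalIntegral.integral_congr
    intro c hc
    rw [uIcc_of_le hsR] at hc
    unfold fR
    have : min c R = R := min_eq_right hc.1
    simp [this]
  rw [h1, intervalIntegral.integral_zero]
  push_cast
  ring

theorem p_nonneg (n : ℕ) (R s : ℝ) (hR : 0 ≤ R) (hs : 0 ≤ s) :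
    0 ≤ (∫ c in (0 : ℝ)..s, fR (n + 1) R c) + n * R ^ (n + 1) := by
  rcases le_total s R with h | h
  · rw [prim_low n R s hs h]
    exact XJEN3.conv_pow n R s hR hs
  · rw [prim_high n R s hR h]
    linarith

theorem mean_one (hS : StSca3) (hK : StCon3) (hC : StCir3) (hF : StFlo3) (Q : ℕ) (hQ : 2 ≤ Q)
    (Fr : Frames (Ix 1 Q)) (M : ℝ) (F : ℝ → ℝ) (a : E (Ix 1 Q) → ℝ) (hFF : IsF M F)
    (hA : IsA M a) (x v : E (Ix 1 Q)) (hxv : ON x v) :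
    letI := Fr.ms
    ∫ ω, fD F a (Fr.A ω x) (Fr.A ω v) ∂Fr.μ = 1 := by
  let _ := Fr.ms
  have := Fr.prob
  change ∫ ω, fD F a (Fr.A ω x) (Fr.A ω v) ∂Fr.μ = 1
  obtain ⟨-, -, hkc, hfc, hgc⟩ := hK _ M F a hFF hA
  obtain ⟨-, -, -, hsc⟩ := hS M F hFF
  have hc1 : ContinuousOn (fun z : E (Ix 1 Q) × E (Ix 1 Q) => 1 - fD F a z.1 z.2)
      {z | ON z.1 z.2} := continuousOn_const.sub hfc
  have hc2 : ContinuousOn (fun z : E (Ix 1 Q) × E (Ix 1 Q) => -(1 - fD F a z.1 z.2))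
      {z | ON z.1 z.2} := hc1.neg
  have hzero : ∀ x' v' : E (Ix 1 Q), ON x' v' →
      ∫ t in (0 : ℝ)..(2 * Real.pi), (1 - fD F a (gc x' v' t) (gd x' v' t)) = 0 := by
    intro x' v' h'
    have h := hC _ M F a hFF hA 0 x' v' h'
    have e : ∀ t : ℝ, GS 0 F (a (gc x' v' t)) (fderiv ℝ a (gc x' v' t) (gd x' v' t)) -
        kS F (a (gc x' v' t)) (fderiv ℝ a (gc x' v' t) (gd x' v' t)) ^ 0 *
          fD F a (gc x' v' t) (gd x' v' t) = 1 - fD F a (gc x' v' t) (gd x' v' t) := by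
      intro t
      have : ∀ A s : ℝ, GS 0 F A s = 1 := by
        intro A s
        unfold GS gm
        simp
      rw [this, pow_zero, one_mul]
    simp only [e] at h
    exact h
  have h1 := hF Q hQ Fr _ 0 hc1 (fun x' v' h' => (hzero x' v' h').ge) x v hxv
  have h2 := hF Q hQ Fr _ 0 hc2 (fun x' v' h' => by
    rw [intervalIntegral.integral_neg, hzero x' v' h', neg_zero]) x v hxv
  have hi : Integrable (fun ω => fD F a (Fr.A ω x) (Fr.A ω v)) Fr.μ := XJEN3.intg Fr hfc hxv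
  have h3 : ∫ ω, (1 - fD F a (Fr.A ω x) (Fr.A ω v)) ∂Fr.μ =
      1 - ∫ ω, fD F a (Fr.A ω x) (Fr.A ω v) ∂Fr.μ := by
    rw [integral_sub (integrable_const _) hi]
    simp
  have h4 : ∫ ω, -(1 - fD F a (Fr.A ω x) (Fr.A ω v)) ∂Fr.μ =
      -(1 - ∫ ω, fD F a (Fr.A ω x) (Fr.A ω v) ∂Fr.μ) := by
    rw [integral_neg, h3]
  simp only [h3] at h1
  simp only [h4] at h2
  have h5 : 0 < 2 * Real.pi := by positivity
  have h6 := nonneg_of_mul_nonneg_right h1 h5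
  have h7 := nonneg_of_mul_nonneg_right h2 h5
  linarith

end XTR5

theorem iTR5 (hS : StSca3) (hK : StCon3) (hC : StCir3) (hF : StFlo3) (hG : StSgn3)
    (hP : StPol5) : StTr5 := by
  intro Q hQ Fr M R F a hFF hA hsp hR x v hxv
  let _ := Fr.ms
  have := Fr.prob
  change 0 ≤ (Q - 1 : ℝ) * R ^ Q + ∫ ω, Gf (fR Q R) (a (Fr.A ω x))
    (F (a (Fr.A ω x)) * fderiv ℝ a (Fr.A ω x) (Fr.A ω v)) ∂Fr.μ
  obtain ⟨-, -, hkc, hfc, -⟩ := hK _ M F a hFF hA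
  have h1 := hP Q hQ Fr M F a (fR Q R) hFF hA (XTR5.cont_fR Q R) x v hxv
  have h1' : ∫ ω, Gf (fR Q R) (a (Fr.A ω x))
      (F (a (Fr.A ω x)) * fderiv ℝ a (Fr.A ω x) (Fr.A ω v)) ∂Fr.μ =
    ∫ ω, (∫ c in (0 : ℝ)..(kS F (a (Fr.A ω x)) (fderiv ℝ a (Fr.A ω x) (Fr.A ω v))),
      fR Q R c) * fD F a (Fr.A ω x) (Fr.A ω v) ∂Fr.μ := h1
  rw [h1']
  have e0 : ∫ ω, fD F a (Fr.A ω x) (Fr.A ω v) ∂Fr.μ = 1 :=
    XTR5.mean_one hS hK hC hF Q hQ Fr M F a hFF hA x v hxv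
  obtain ⟨n, rfl⟩ : ∃ n, Q = n + 1 := ⟨Q - 1, by omega⟩
  have hprim : Continuous (fun s : ℝ => ∫ c in (0 : ℝ)..s, fR (n + 1) R c) :=
    intervalIntegral.continuous_primitive
      (fun u v => (XTR5.cont_fR (n + 1) R).intervalIntegrable u v) 0
  have hp := hG (n + 1) hQ Fr M F a
    (fun s => (∫ c in (0 : ℝ)..s, fR (n + 1) R c) + n * R ^ (n + 1)) hFF hA hsp
    (hprim.add continuous_const) (fun s hs => XTR5.p_nonneg n R s hR hs) x v hxv
  have hi1 : Integrable (fun ω =>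
      (∫ c in (0 : ℝ)..(kS F (a (Fr.A ω x)) (fderiv ℝ a (Fr.A ω x) (Fr.A ω v))),
        fR (n + 1) R c) * fD F a (Fr.A ω x) (Fr.A ω v)) Fr.μ := by
    have hc : ContinuousOn (fun z : E (Ix 1 (n + 1)) × E (Ix 1 (n + 1)) =>
        (∫ c in (0 : ℝ)..(kS F (a z.1) (fderiv ℝ a z.1 z.2)), fR (n + 1) R c) *
          fD F a z.1 z.2) {z | ON z.1 z.2} :=
      (hprim.comp_continuousOn hkc).mul hfc
    exact XJEN3.intg Fr hc hxv
  have hi2 : Integrable (fun ω => fD F a (Fr.A ω x) (Fr.A ω v)) Fr.μ := XJEN3.intg Fr hfc hxv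
  have hp' : 0 ≤ ∫ ω,
      ((∫ c in (0 : ℝ)..(kS F (a (Fr.A ω x)) (fderiv ℝ a (Fr.A ω x) (Fr.A ω v))),
        fR (n + 1) R c) + n * R ^ (n + 1)) * fD F a (Fr.A ω x) (Fr.A ω v) ∂Fr.μ := hp
  have e1 : ∫ ω,
      ((∫ c in (0 : ℝ)..(kS F (a (Fr.A ω x)) (fderiv ℝ a (Fr.A ω x) (Fr.A ω v))),
        fR (n + 1) R c) + n * R ^ (n + 1)) * fD F a (Fr.A ω x) (Fr.A ω v) ∂Fr.μ =
      (∫ ω, (∫ c in (0 : ℝ)..(kS F (a (Fr.A ω x)) (fderiv ℝ a (Fr.A ω x) (Fr.A ω v))),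
        fR (n + 1) R c) * fD F a (Fr.A ω x) (Fr.A ω v) ∂Fr.μ) + n * R ^ (n + 1) := by
    simp only [add_mul]
    rw [integral_add hi1 (hi2.const_mul _), integral_const_mul, e0, mul_one]
  rw [e1] at hp'
  push_cast
  have : ((n : ℝ) + 1 - 1) * R ^ (n + 1) = n * R ^ (n + 1) := by ring
  rw [this]
  linarith

end Pool.Agent.Work.MP_02f065_gt.Cvx
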