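import Pool.Agent.Work.MP_02f065_gt.Cvx.Stmts6

/-!
MP_02f065_gt, block CVX6, item VD6: the volume density in a tangent frame.
-/

open MeasureTheory Set Filter Topology

noncomputable section

namespace Pool.Agent.Work.MP_02f065_gt.Cvx

open Pool.Agent.Work.MP_02f065_gt.RPn

namespace XVD6

variable {ι : Type} [Fintype ι]

theorem tang_add (x v w : E ι) : tang x (v + w) = tang x v + tang x w := by
  unfold tang
  rw [inner_add_right, add_smul]
  abel

theorem tang_smul (x v : E ι) (r : ℝ) : tang x (r • v) = r • tang x v := by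
  unfold tang
  rw [inner_smul_right, smul_sub, mul_smul]

/-- The completed form. -/
def Bl (g : RPn.Field ι) (hg : IsMetric g) (x : E ι) : E ι →ₗ[ℝ] E ι →ₗ[ℝ] ℝ :=
  LinearMap.mk₂ ℝ (fun v w => g x (tang x v) (tang x w) + inner ℝ x v * inner ℝ x w)
    (fun v v' w => by rw [tang_add, hg.add, inner_add_right]; ring)
    (fun r v w => by rw [tang_smul, hg.smul, inner_smul_right, smul_eq_mul]; ring)
    (fun v w w' => by
      rw [tang_add, hg.symm x (tang x v), hg.add, inner_add_right, hg.symm x (tang x w),
        hg.symm x (tang x w')]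
      ring)
    (fun r v w => by
      rw [tang_smul, hg.symm x (tang x v), hg.smul, inner_smul_right, smul_eq_mul,
        hg.symm x (tang x w)]
      ring)

variable [DecidableEq ι]

theorem eq_sum (v : E ι) : v = ∑ i, v i • (ei i : E ι) := by
  ext j
  simp [ei, WithLp.ofLp_sum, Finset.sum_apply, Pi.single_apply]

theorem inner_ei (x : E ι) (i : ι) : inner ℝ x (ei i) = x i := by
  simp [ei, EuclideanSpace.inner_single_right]

theorem Bl_ei (g : RPn.Field ι) (hg : IsMetric g) (x : E ι) (i j : ι) :
    Bl g hg x (ei i) (ei j) = gram g x i j := by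
  show g x (tang x (ei i)) (tang x (ei j)) + inner ℝ x (ei i) * inner ℝ x (ei j) = _
  rw [inner_ei, inner_ei]
  rfl

theorem Bl_eq (g : RPn.Field ι) (hg : IsMetric g) (x v w : E ι) :
    Bl g hg x v w = ∑ j, (∑ i, v i * gram g x i j) * w j := by
  conv_lhs => rw [eq_sum v, eq_sum w]
  rw [map_sum]
  refine Finset.sum_congr rfl (fun j _ => ?_)
  rw [map_smul, smul_eq_mul, mul_comm, map_sum, LinearMap.sum_apply]
  refine congrArg (fun y => y * w j) (Finset.sum_congr rfl (fun i _ => ?_))
  rw [map_smul, LinearMap.smul_apply, Bl_ei, smul_eq_mul]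

end XVD6

open XVD6 in
theorem iVD6 : StVd6 := by
  intro Q g x T hg hx hT
  set b : Ix 1 Q → E (Ix 1 Q) :=
    Sum.elim (fun _ => x) (fun k => T (EuclideanSpace.single k 1)) with hb
  set O : Matrix (Ix 1 Q) (Ix 1 Q) ℝ := Matrix.of fun i j => b j i with hO
  have hxx : inner ℝ x x = (1 : ℝ) := by
    rw [real_inner_self_eq_norm_sq, hx]
    norm_num
  have hTx : ∀ w, inner ℝ (T w) x = (0 : ℝ) := fun w => by rw [real_inner_comm]; exact hT w
  have horth : ∀ j k, inner ℝ (b j) (b k) = (if j = k then 1 else 0 : ℝ) := by
    rintro (j | j) (k | k)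
    · have : j = k := Subsingleton.elim _ _
      subst this
      rw [if_pos rfl]
      exact hxx
    · rw [if_neg (by simp)]
      exact hT _
    · rw [if_neg (by simp)]
      exact hTx _
    · show inner ℝ (T (EuclideanSpace.single j 1)) (T (EuclideanSpace.single k 1)) = _
      rw [T.inner_map_map]
      simp [EuclideanSpace.inner_single_left, eq_comm]
  have hOO : O.transpose * O = 1 := by
    ext j k
    rw [Matrix.mul_apply, Matrix.one_apply, ← horth j k, PiLp.inner_apply]
    refine Finset.sum_congr rfl (fun i _ => ?_)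
    simp [hO, mul_comm]
  have hdet : O.det * O.det = 1 := by
    have := congrArg Matrix.det hOO
    rwa [Matrix.det_mul, Matrix.det_transpose, Matrix.det_one] at this
  have hmat : O.transpose * Matrix.of (gram g x) * O =
      Matrix.fromBlocks 1 0 0 (Matrix.of fun i j : Fin Q =>
        g x (T (EuclideanSpace.single i 1)) (T (EuclideanSpace.single j 1))) := by
    have h1 : ∀ j k, (O.transpose * Matrix.of (gram g x) * O) j k = Bl g hg x (b j) (b k) := by
      intro j k
      rw [Bl_eq, Matrix.mul_apply]
      refine Finset.sum_congr rfl (fun i _ => ?_)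
      rw [Matrix.mul_apply]
      rfl
    have htx : tang x x = 0 := by
      unfold tang
      rw [hxx, one_smul, sub_self]
    have htT : ∀ w, tang x (T w) = T w := by
      intro w
      unfold tang
      rw [hT w, zero_smul, sub_zero]
    have hg0 : ∀ w, g x 0 w = 0 := by
      intro w
      have := hg.smul x 0 w 0
      rwa [zero_smul, zero_mul] at this
    have hval : ∀ v w, Bl g hg x v w =
      g x (tang x v) (tang x w) + inner ℝ x v * inner ℝ x w := fun v w => rfl
    ext j k
    rw [h1, hval]
    rcases j with j | j <;> rcases k with k | k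
    · rw [Matrix.fromBlocks_apply₁₁]
      have : j = k := Subsingleton.elim _ _
      subst this
      rw [Matrix.one_apply_eq]
      show g x (tang x x) (tang x x) + inner ℝ x x * inner ℝ x x = 1
      rw [htx, hg0, hxx]
      norm_num
    · rw [Matrix.fromBlocks_apply₁₂]
      show g x (tang x x) (tang x (T _)) + inner ℝ x x * inner ℝ x (T _) = 0
      rw [htx, hg0, hT]
      norm_num
    · rw [Matrix.fromBlocks_apply₂₁]
      show g x (tang x (T _)) (tang x x) + inner ℝ x (T _) * inner ℝ x x = 0
      rw [htx, hg.symm, hg0, hT]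
      norm_num
    · rw [Matrix.fromBlocks_apply₂₂]
      show g x (tang x (T _)) (tang x (T _)) + inner ℝ x (T _) * inner ℝ x (T _) = _
      rw [htT, htT, hT, hT]
      simp
  have hfin := congrArg Matrix.det hmat
  rw [Matrix.det_mul, Matrix.det_mul, Matrix.det_transpose, Matrix.det_fromBlocks_zero₂₁,
    Matrix.det_one, one_mul] at hfin
  rw [volDensity, ← hfin]
  congr 1
  linear_combination (-(Matrix.of (gram g x)).det) * hdet

end Pool.Agent.Work.MP_02f065_gt.Cvx
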