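import Pool.Agent.Work.MP_02f065_gt.Cvx.Stmts6

/-!
MP_02f065_gt, block CVX6, item VOL6: the mean of `G_n` is at most the mean of the volume density.
-/

open MeasureTheory Set Filter Topology

noncomputable section

namespace Pool.Agent.Work.MP_02f065_gt.Cvx

open Pool.Agent.Work.MP_02f065_gt.RPn

namespace XVOL6

section

variable {ι : Type} [Fintype ι]

theorem ON_map (A : E ι →ₗᵢ[ℝ] E ι) {x v : E ι} (h : ON x v) : ON (A x) (A v) := by
  obtain ⟨h1, h2, h3⟩ := h
  refine ⟨by rw [A.norm_map, h1], by rw [A.norm_map, h2], by rw [A.inner_map_map, h3]⟩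

/-- Integrability of continuous functions of the first frame vector. -/
theorem intg (Fr : Frames ι) {H : E ι → ℝ}
    (hH : ContinuousOn H (Metric.sphere (0 : E ι) 1)) {x : E ι} (hx : ‖x‖ = 1) :
    letI := Fr.ms
    Integrable (fun ω => H (Fr.A ω x)) Fr.μ := by
  classical
  let _ := Fr.ms
  have := Fr.prob
  obtain ⟨C, hC⟩ := (isCompact_sphere (0 : E ι) 1).exists_bound_of_continuousOn hH
  have hmem : ∀ ω, Fr.A ω x ∈ Metric.sphere (0 : E ι) 1 := fun ω => by
    rw [mem_sphere_zero_iff_norm, (Fr.A ω).norm_map, hx]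
  have hm : Measurable ((Metric.sphere (0 : E ι) 1).piecewise H (fun _ => 0)) :=
    hH.measurable_piecewise continuousOn_const Metric.isClosed_sphere.measurableSet
  have e : (fun ω => H (Fr.A ω x)) = fun ω =>
      ((Metric.sphere (0 : E ι) 1).piecewise H (fun _ => 0)) (Fr.A ω x) := by
    funext ω
    rw [Set.piecewise_eq_of_mem _ _ _ (hmem ω)]
  have hm2 : Measurable (fun ω => H (Fr.A ω x)) := by
    rw [e]
    exact hm.comp (Fr.meas x)
  exact Integrable.of_bound hm2.aestronglyMeasurable C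
    (Filter.Eventually.of_forall fun ω => hC _ (hmem ω))

end

theorem exJ (Q : ℕ) (x : E (Ix 1 Q)) (hx : ‖x‖ = 1) :
    ∃ J : E (Fin Q) →ₗᵢ[ℝ] E (Ix 1 Q), IsTan x J := by
  have hx0 : x ≠ 0 := by
    intro h
    rw [h, norm_zero] at hx
    exact zero_ne_one hx
  have : Fact (Module.finrank ℝ (E (Ix 1 Q)) = Q + 1) :=
    ⟨by rw [finrank_euclideanSpace]; simp [Ix, add_comm]⟩
  have hf : Module.finrank ℝ (Submodule.span ℝ {x})ᗮ = Q :=
    Submodule.finrank_orthogonal_span_singleton hx0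
  let b := (stdOrthonormalBasis ℝ (Submodule.span ℝ {x})ᗮ).reindex (finCongr hf)
  refine ⟨((Submodule.span ℝ {x})ᗮ).subtypeₗᵢ.comp b.repr.symm.toLinearIsometry, fun w => ?_⟩
  exact Submodule.mem_orthogonal_singleton_iff_inner_right.1 (b.repr.symm w).2

theorem smean_one_pos {Q : ℕ} (hQ : 1 ≤ Q) : 0 < smean (fun _ : E (Fin Q) => (1 : ℝ)) := by
  have : Nonempty (Fin Q) := ⟨⟨0, hQ⟩⟩
  have : Nontrivial (E (Fin Q)) := inferInstance
  unfold smean
  rw [integral_const, smul_eq_mul, mul_one, measureReal_def, ENNReal.toReal_pos_iff]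
  refine ⟨?_, measure_lt_top _ _⟩
  rw [Measure.toSphere_apply_univ]
  refine ENNReal.mul_pos ?_ ?_
  · rw [finrank_euclideanSpace, Fintype.card_fin]
    exact_mod_cast (Nat.pos_iff_ne_zero.1 hQ)
  · exact (Metric.measure_ball_pos volume (0 : E (Fin Q)) one_pos).ne'

theorem smean_nonneg {Q : ℕ} {h : E (Fin Q) → ℝ} (hh : ∀ w, 0 ≤ h w) : 0 ≤ smean h :=
  integral_nonneg fun _ => hh _

theorem Gf_nonneg {n : ℕ} {A b : ℝ} (hA : 0 < A) :
    0 ≤ Gf (fun c => (n : ℝ) * c ^ (n - 1)) A b := by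
  refine intervalIntegral.integral_nonneg (by positivity) fun θ hθ => ?_
  have hc : 0 ≤ Real.cos θ := Real.cos_nonneg_of_mem_Icc ⟨by linarith [hθ.1, Real.pi_pos], hθ.2⟩
  have h1 : 0 ≤ |b| * Real.cos θ := mul_nonneg (abs_nonneg _) hc
  exact mul_nonneg (by positivity) (h1.trans (le_max_right _ _))

end XVOL6

open XVOL6 in
theorem iVOL6 (hC : StCon6) (hD : StDis6) (hDet : StDet6) (hV : StVd6) (hG : StGf5) :
    StVol6 := by
  classical
  intro Q hQ Fr M a g hA hg hab x v hxv
  let _ := Fr.ms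
  have := Fr.prob
  change ∫ ω, Gf (fun c => (Q : ℝ) * c ^ (Q - 1)) (a (Fr.A ω x))
    (bg a g (Fr.A ω x) (Fr.A ω v)) ∂Fr.μ ≤ ∫ ω, volDensity g (Fr.A ω x) ∂Fr.μ
  obtain ⟨hc1, hc2, hc3, hc4⟩ := hC (Ix 1 Q) M a g hA hg hab
  have hQ1 : 1 ≤ Q := by omega
  have hc0 := smean_one_pos hQ1
  obtain ⟨J, hJ⟩ := exJ Q x hxv.1
  -- the function
  set f : ℝ → ℝ := fun c => (Q : ℝ) * c ^ (Q - 1) with hf
  have hfc : Continuous f := by fun_prop
  set H : E (Ix 1 Q) × E (Ix 1 Q) → ℝ := fun z => Gf f (a z.1) (bg a g z.1 z.2) with hH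
  have hacont : ContinuousOn (fun z : E (Ix 1 Q) × E (Ix 1 Q) => a z.1) {z | ON z.1 z.2} := by
    refine hA.diff.continuousOn.comp continuousOn_fst fun z hz => ?_
    have h1 : ‖z.1‖ = 1 := hz.1
    intro h
    rw [h, norm_zero] at h1
    exact zero_ne_one h1
  have hHc : ContinuousOn H {z | ON z.1 z.2} :=
    (hG.1 f hfc).comp_continuousOn (hacont.prodMk hc2)
  have hdis := hD Q hQ Fr H hHc x v J hxv hJ
  change smean (fun _ : E (Fin Q) => (1 : ℝ)) * ∫ ω, H (Fr.A ω x, Fr.A ω v) ∂Fr.μ =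
    ∫ ω, smean (fun w => H (Fr.A ω x, Fr.A ω (J w))) ∂Fr.μ at hdis
  have hpt : ∀ ω, smean (fun w => H (Fr.A ω x, Fr.A ω (J w))) ≤
      smean (fun _ : E (Fin Q) => (1 : ℝ)) * volDensity g (Fr.A ω x) := by
    intro ω
    set x' := Fr.A ω x with hx'
    set T : E (Fin Q) →ₗᵢ[ℝ] E (Ix 1 Q) := (Fr.A ω).comp J with hT
    have hx'n : ‖x'‖ = 1 := by rw [hx', (Fr.A ω).norm_map, hxv.1]
    have hTan : IsTan x' T := fun w => by
      change inner ℝ (Fr.A ω x) (Fr.A ω (J w)) = 0
      rw [(Fr.A ω).inner_map_map]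
      exact hJ w
    have hapos : 0 < a x' := (hA.range x' hx'n).1
    let β : E (Fin Q) → E (Fin Q) → ℝ := fun v w => g x' (T v) (T w) - a x' ^ 2 * inner ℝ v w
    have hβ : IsForm β := by
      refine ⟨?_, ?_, ?_, ?_⟩
      · intro v v' w
        simp only [β]
        rw [map_add, hg.add, inner_add_left]
        ring
      · intro s v w
        simp only [β]
        rw [map_smul, hg.smul, real_inner_smul_left]
        ring
      · intro v w
        simp only [β]
        rw [hg.symm, real_inner_comm]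
      · intro v
        simp only [β]
        have h1 := hab x' (T v) hx'n (hTan v)
        rw [T.inner_map_map] at h1
        linarith
    have hdet := hDet Q β (a x') hQ1 hβ hapos
    have hfm : fmat (a x') β = Matrix.of fun i j : Fin Q =>
        g x' (T (EuclideanSpace.single i 1)) (T (EuclideanSpace.single j 1)) := by
      ext i j
      simp only [fmat, β, Matrix.of_apply]
      have h1 : inner ℝ (EuclideanSpace.single i (1 : ℝ) : E (Fin Q))
          (EuclideanSpace.single j (1 : ℝ)) = if i = j then (1 : ℝ) else 0 := by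
        rw [EuclideanSpace.inner_single_left]
        simp
      rw [h1]
      by_cases hij : i = j
      · simp [hij]
      · simp [hij]
    have hvd := hV Q g x' T hg hx'n hTan
    rw [hfm, ← hvd] at hdet
    refine le_trans (le_of_eq ?_) hdet
    unfold smean
    refine integral_congr_ae (Eventually.of_forall fun w => ?_)
    have hw : inner ℝ (w : E (Fin Q)) (w : E (Fin Q)) = (1 : ℝ) := by
      rw [real_inner_self_eq_norm_sq, norm_eq_of_mem_sphere w, one_pow]
    simp only [H, bg, β, hw, mul_one]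
    rfl
  have hint : Integrable (fun ω => smean (fun _ : E (Fin Q) => (1 : ℝ)) *
      volDensity g (Fr.A ω x)) Fr.μ := (intg Fr hc3 hxv.1).const_mul _
  have hnn : ∀ ω, 0 ≤ smean (fun w => H (Fr.A ω x, Fr.A ω (J w))) := fun ω => by
    refine smean_nonneg fun w => ?_
    have hx'n : ‖Fr.A ω x‖ = 1 := by rw [(Fr.A ω).norm_map, hxv.1]
    exact Gf_nonneg (hA.range _ hx'n).1
  have hmono := integral_mono_of_nonneg (Eventually.of_forall hnn) hint
    (Eventually.of_forall hpt)
  rw [← hdis, integral_const_mul] at hmono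
  exact le_of_mul_le_mul_left hmono hc0

end Pool.Agent.Work.MP_02f065_gt.Cvx
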