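import Pool.Agent.Work.MP_02f065_gt.Cvx.All
import Pool.Agent.Work.MP_02f065_gt.Cvx.I_DER3
import Pool.Agent.Work.MP_02f065_gt.Cvx.I_PAR3
import Pool.Agent.Work.MP_02f065_gt.Cvx.I_CUR3
import Pool.Agent.Work.MP_02f065_gt.Cvx.I_SCA3
import Pool.Agent.Work.MP_02f065_gt.Cvx.I_COS3
import Pool.Agent.Work.MP_02f065_gt.Cvx.I_CON3
import Pool.Agent.Work.MP_02f065_gt.Cvx.I_CIR3
import Pool.Agent.Work.MP_02f065_gt.Cvx.I_FLO3
import Pool.Agent.Work.MP_02f065_gt.Cvx.I_DIS3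
import Pool.Agent.Work.MP_02f065_gt.Cvx.I_POS3
import Pool.Agent.Work.MP_02f065_gt.Cvx.I_SGN3
import Pool.Agent.Work.MP_02f065_gt.Cvx.I_NCK3
import Pool.Agent.Work.MP_02f065_gt.Cvx.I_GF5
import Pool.Agent.Work.MP_02f065_gt.Cvx.I_POL5
import Pool.Agent.Work.MP_02f065_gt.Cvx.I_TR5
import Pool.Agent.Work.MP_02f065_gt.Cvx.I_LEN5
import Pool.Agent.Work.MP_02f065_gt.Cvx.I_RED5
import Pool.Agent.Work.MP_02f065_gt.Cvx.I_RA6
import Pool.Agent.Work.MP_02f065_gt.Cvx.I_RB6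
import Pool.Agent.Work.MP_02f065_gt.Cvx.I_RC6
import Pool.Agent.Work.MP_02f065_gt.Cvx.I_DET6
import Pool.Agent.Work.MP_02f065_gt.Cvx.I_DOM6
import Pool.Agent.Work.MP_02f065_gt.Cvx.I_CV6
import Pool.Agent.Work.MP_02f065_gt.Cvx.I_CON6
import Pool.Agent.Work.MP_02f065_gt.Cvx.I_DIS6
import Pool.Agent.Work.MP_02f065_gt.Cvx.I_VD6
import Pool.Agent.Work.MP_02f065_gt.Cvx.I_JEN6
import Pool.Agent.Work.MP_02f065_gt.Cvx.I_VOL6
import Pool.Agent.Work.MP_02f065_gt.Cvx.I_MAINF6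
import Pool.Agent.Work.MP_02f065_gt.Cvx.I_MAIN6
import Pool.Agent.Work.MP_02f065_gt.Cvx.I_INCL6

/-! All items of the blocks CVX3, CVX5, CVX6 put together. -/

open MeasureTheory Set Filter Topology

noncomputable section

namespace Pool.Agent.Work.MP_02f065_gt.Cvx

open Pool.Agent.Work.MP_02f065_gt.RPn

theorem Cur3_holds : StCur3 := iCUR3 iDER3 iPAR3
theorem Sca3_holds : StSca3 := iSCA3 iDER3
theorem Con3_holds : StCon3 := iCON3 Sca3_holds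
theorem Cir3_holds : StCir3 := iCIR3 Cur3_holds Sca3_holds Con3_holds
theorem Sgn3_holds : StSgn3 := iSGN3 Sca3_holds Con3_holds iDIS3 iPOS3
theorem Pol5_holds : StPol5 := iPOL5 Sca3_holds Con3_holds Cir3_holds iFLO3 iCOS3 iGF5
theorem Tr5_holds : StTr5 := iTR5 Sca3_holds Con3_holds Cir3_holds iFLO3 Sgn3_holds Pol5_holds
theorem Red5_holds : StRed5 := iRED5 iNCK3
theorem Det6_holds : StDet6 := iDET6 iRA6 iRB6 iRC6
theorem Jen6_holds : StJen6 :=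
  iJEN6 iCON6 iDIS6 iDOM6 iCV6 iLEN5 iFLO3 iGF5 Tr5_holds Con3_holds
theorem Vol6_holds : StVol6 := iVOL6 iCON6 iDIS6 Det6_holds iVD6 iGF5
theorem MainF6_holds : StMainF6 :=
  iMAINF6 Jen6_holds Vol6_holds iCON6 (iFR itemHaar) (iAVG Iso_holds) Vol_holds A6_holds
theorem main6_holds : StMain6 := iMAIN6 MainF6_holds Red5_holds
theorem Incl6_holds : StIncl6 := by
  intro Q hQ φ α β r hW
  have hB : Between φ r (warped φ r) := by
    intro x v hx hv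
    unfold warped
    exact ⟨le_add_of_nonneg_right (mul_self_nonneg _), le_rfl⟩
  exact ⟨⟨XINCL6.isMetric hW, XINCL6.between_incl hB⟩, fun g _ hg => XINCL6.between_incl hg⟩

end Pool.Agent.Work.MP_02f065_gt.Cvx
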