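import Pool.Agent.Work.MP_02f065_gt.RPn.Defs

/-!
MP_02f065_gt, block CVX: centrally symmetric convex hypersurfaces of the simply connected spaces
of constant curvature `k` (k = 0 Euclidean, k < 0 hyperbolic, k > 0 spherical), with their induced
metrics, as metrics on RP^n.

The body is `{N <= 1}` for a norm `N` which is continuously differentiable outside the origin; the
hypersurface `{N = 1}` is parametrised by the unit sphere through `x -> x / N x`.
-/

open MeasureTheory Set

noncomputable section

namespace Pool.Agent.Work.MP_02f065_gt.Cvx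

open Pool.Agent.Work.MP_02f065_gt.RPn

variable {ι : Type} [Fintype ι]

/-- `N` is a norm which is continuously differentiable outside the origin. -/
structure IsNorm (N : E ι → ℝ) : Prop where
  tri : ∀ x y : E ι, N (x + y) ≤ N x + N y
  hom : ∀ (r : ℝ) (x : E ι), N (r • x) = |r| * N x
  pos : ∀ x : E ι, x ≠ 0 → 0 < N x
  diff : ContDiffOn ℝ 1 N {x | x ≠ 0}

/-- The metric of constant curvature `k` in the projective (Beltrami-Klein, gnomonic) model
`{y : 0 < 1 + k |y|^2}`, in which the geodesics are the straight segments. -/
def kform (k : ℝ) (y z w : E ι) : ℝ :=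
  inner ℝ z w / (1 + k * ‖y‖ ^ 2) - k * inner ℝ y z * inner ℝ y w / (1 + k * ‖y‖ ^ 2) ^ 2

/-- The radial parametrisation of the hypersurface `{N = 1}`. -/
def rad (N : E ι → ℝ) (x : E ι) : E ι := (N x)⁻¹ • x

/-- The metric induced on the hypersurface `{N = 1}` of the space of curvature `k`, pulled back to
the unit sphere. -/
def induced (k : ℝ) (N : E ι → ℝ) : RPn.Field ι := fun x v w =>
  kform k (rad N x) (fderiv ℝ (rad N) x v) (fderiv ℝ (rad N) x w)

end Pool.Agent.Work.MP_02f065_gt.Cvx
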