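import Pool.Agent.Work.MP_02f065_gt.Cvx.Stmts

/-!
MP_02f065_gt, block CVX2: centrally symmetric convex hypersurfaces of the rotationally symmetric
spaces `dr^2 + lam^2 sn_k(r)^2 g_S` (lam = 1: the simply connected spaces of constant curvature k).
-/

open MeasureTheory Set

noncomputable section

namespace Pool.Agent.Work.MP_02f065_gt.Cvx

open Pool.Agent.Work.MP_02f065_gt.RPn

variable {ι : Type} [Fintype ι]

/-- The metric `dr^2 + lam^2 sn_k(r)^2 g_S` in the coordinates `y = tn_k(r) x`, `|x| = 1`, on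
`{y : 0 < 1 + k |y|^2}` without the origin (`sn_k`, `tn_k`: sine and tangent of curvature `k`); for
`lam = 1` it is `kform k`. The first term is the part orthogonal to the radius. -/
def wform (k lam : ℝ) (y z w : E ι) : ℝ :=
  lam ^ 2 * (inner ℝ z w - inner ℝ y z * inner ℝ y w / ‖y‖ ^ 2) / (1 + k * ‖y‖ ^ 2) +
    inner ℝ y z * inner ℝ y w / (‖y‖ ^ 2 * (1 + k * ‖y‖ ^ 2) ^ 2)

/-- The metric induced on the hypersurface `{x / N x : |x| = 1}`, pulled back to the unit
sphere. -/
def induced2 (k lam : ℝ) (N : E ι → ℝ) : RPn.Field ι := fun x v w =>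
  wform k lam (rad N x) (fderiv ℝ (rad N) x v) (fderiv ℝ (rad N) x w)

/-- `N` is positive, even, continuously differentiable, and the hypersurface is convex: on all great
circles `N` is trigonometrically convex with parameter `lam` (for a function of class `C^2`:
`N'' + lam^2 N >= 0` on all great circles). -/
structure IsProfile (lam : ℝ) (N : E ι → ℝ) : Prop where
  diff : ContDiffOn ℝ 1 N {x | x ≠ 0}
  pos : ∀ x : E ι, ‖x‖ = 1 → 0 < N x
  even : ∀ x : E ι, N (-x) = N x
  conv : ∀ x v : E ι, ON x v → ∀ a b : ℝ, 0 ≤ a → 0 ≤ b → lam * (a + b) < Real.pi →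
    N x * Real.sin (lam * (a + b)) ≤
      N (gc x v (-a)) * Real.sin (lam * b) + N (gc x v b) * Real.sin (lam * a)

end Pool.Agent.Work.MP_02f065_gt.Cvx
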