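import Pool.Agent.Work.MP_02f065_gt.Cvx.Stmts

/-!
MP_02f065_gt, block CVX3: centrally symmetric graphs `r = r(x)` in the warped products
`dr^2 + φ(r)^2 g_S` (rotationally symmetric spaces) and their induced metrics.

A function on RP^n is a function `r` on `E ι` without the origin with `r (c • x) = r x` for all
`c ≠ 0`. Its second derivative along the great circle through `x` with direction `v` is then
`fderiv ℝ (fderiv ℝ r) x v v` (`x`, `v` orthonormal).
-/

open MeasureTheory Set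

noncomputable section

namespace Pool.Agent.Work.MP_02f065_gt.Cvx

open Pool.Agent.Work.MP_02f065_gt.RPn

variable {ι : Type} [Fintype ι]

/-- The metric induced on the graph `r = r(x)` in the space `dr^2 + φ(r)^2 g_S`. -/
def warped (φ : ℝ → ℝ) (r : E ι → ℝ) : RPn.Field ι := fun x v w =>
  φ (r x) ^ 2 * inner ℝ v w + fderiv ℝ r x v * fderiv ℝ r x w

/-- The second fundamental form of the graph (with respect to the inner normal), multiplied by the
positive function `sqrt (φ(r)^2 + |grad r|^2)`, on the tangent vectors over `v` and `w`. -/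
def second (φ : ℝ → ℝ) (r : E ι → ℝ) : RPn.Field ι := fun x v w =>
  deriv φ (r x) * (φ (r x) ^ 2 * inner ℝ v w + 2 * (fderiv ℝ r x v * fderiv ℝ r x w)) -
    φ (r x) * fderiv ℝ (fderiv ℝ r) x v w

/-- `φ` is positive, increasing and convex on the interval `(α, β)`, which contains all values of
the function `r` on RP^n; both are of class `C^2`. -/
structure IsGraph (φ : ℝ → ℝ) (α β : ℝ) (r : E ι → ℝ) : Prop where
  smooth : ContDiffOn ℝ 2 φ (Ioo α β)
  pos : ∀ s ∈ Ioo α β, 0 < φ s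
  incr : ∀ s ∈ Ioo α β, 0 < deriv φ s
  convex : ∀ s ∈ Ioo α β, 0 ≤ deriv (deriv φ) s
  diff : ContDiffOn ℝ 2 r {x | x ≠ 0}
  hom : ∀ (c : ℝ) (x : E ι), c ≠ 0 → r (c • x) = r x
  range : ∀ x : E ι, ‖x‖ = 1 → r x ∈ Ioo α β

/-- The form `B` is nonnegative in the direction `e` of the gradient of `r`, and its trace on the
orthogonal complement of `e` in the tangent space is nonnegative (`e` is any unit tangent vector such
that `r` has derivative 0 in the directions orthogonal to `e`). It holds for all nonnegative `B`. -/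
def SplitPos [DecidableEq ι] (B : RPn.Field ι) (r : E ι → ℝ) : Prop :=
  ∀ x : E ι, ‖x‖ = 1 → ∃ e : E ι, ON x e ∧
    (∀ w : E ι, inner ℝ x w = 0 → inner ℝ e w = 0 → fderiv ℝ r x w = 0) ∧
    0 ≤ B x e e ∧ B x e e ≤ ∑ i, B x (tang x (ei i)) (tang x (ei i))

/-! ### The form used in the proof: `a = φ(r)`, `F(a) = 1 / φ'(r)` -/

/-- Hypotheses on `F`; `nc` says that there are no conjugate points (it holds if `F' ≤ 0`). -/
structure IsF (M : ℝ) (F : ℝ → ℝ) : Prop where
  diff : ContDiffOn ℝ 1 F (Ioo 0 M)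
  nonneg : ∀ s ∈ Ioo (0 : ℝ) M, 0 ≤ F s
  nc : ∀ s ∈ Ioo (0 : ℝ) M, ∀ χ : ℝ, 0 ≤ χ → χ < Real.pi / 2 →
    s * Real.sin χ * ∫ τ in (0 : ℝ)..χ, deriv F (s * Real.cos χ / Real.cos τ) / Real.cos τ ≤ F s

/-- Hypotheses on the function `a` on RP^n. -/
structure IsA (M : ℝ) (a : E ι → ℝ) : Prop where
  diff : ContDiffOn ℝ 2 a {x | x ≠ 0}
  hom : ∀ (c : ℝ) (x : E ι), c ≠ 0 → a (c • x) = a x
  range : ∀ x : E ι, ‖x‖ = 1 → a x ∈ Ioo (0 : ℝ) M

/-- The metric `a^2 g_0 + F(a)^2 da^2`. -/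
def famet (F : ℝ → ℝ) (a : E ι → ℝ) : RPn.Field ι := fun x v w =>
  a x ^ 2 * inner ℝ v w + F (a x) ^ 2 * (fderiv ℝ a x v * fderiv ℝ a x w)

/-- The second fundamental form in terms of `a` and `F`. -/
def fasec (F : ℝ → ℝ) (a : E ι → ℝ) : RPn.Field ι := fun x v w =>
  a x ^ 2 * inner ℝ v w + (2 * F (a x) ^ 2 - a x * F (a x) * deriv F (a x)) *
    (fderiv ℝ a x v * fderiv ℝ a x w) - a x * F (a x) ^ 2 * fderiv ℝ (fderiv ℝ a) x v w

/-- Primitive of `cos^m`. -/
def Cm (m : ℕ) (χ : ℝ) : ℝ := ∫ τ in (0 : ℝ)..χ, Real.cos τ ^ m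

/-- Weight. -/
def gm (m : ℕ) (χ : ℝ) : ℝ := 1 + m * Real.sin χ * Cm m χ / Real.cos χ ^ (m + 1)

/-- Angle between the curve and the parallel (`A` value, `s` derivative of `a`). -/
def chS (F : ℝ → ℝ) (A s : ℝ) : ℝ := Real.arctan (F A * s / A)

/-- Clairaut constant. -/
def kS (F : ℝ → ℝ) (A s : ℝ) : ℝ := A * Real.cos (chS F A s)

/-- The positive factor of the rotation of the tangent geodesic. -/
def omS (F : ℝ → ℝ) (A s : ℝ) : ℝ :=
  1 / (A ^ 2 + (F A * s) ^ 2) - A * s / Real.sqrt (A ^ 2 + (F A * s) ^ 2) ^ 3 *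
    ∫ τ in (0 : ℝ)..(chS F A s), deriv F (kS F A s / Real.cos τ) / Real.cos τ

/-- The functions `G_m` (`m = 1`: length element, `m = n`: volume element). -/
def GS (m : ℕ) (F : ℝ → ℝ) (A s : ℝ) : ℝ := kS F A s ^ m * gm m (chS F A s)

/-- The derivative of the direction of the tangent geodesic. -/
def fD (F : ℝ → ℝ) (a : E ι → ℝ) (x u : E ι) : ℝ :=
  fasec F a x u u * omS F (a x) (fderiv ℝ a x u)

/-- Normalised tangential part of `y`. -/
def nrm (x y : E ι) : E ι := (‖tang x y‖)⁻¹ • tang x y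

/-- The vector with `‖dA‖` = relative volume density of `famet F a`. -/
def dA (F : ℝ → ℝ) (a : E ι → ℝ) (x : E ι) : E ι := a x • x + F (a x) • grad a x

end Pool.Agent.Work.MP_02f065_gt.Cvx
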