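import Pool.Agent.Work.MP_02f065_gt.RPn.Defs

/-!
Definitions for the hand-in Hypersurfaces of MP_02f065_gt (closed geodesics on RP^n, n = Q).

S^n is the unit sphere of `E (Ix 1 Q)` = R^(1+Q). The ambient space is
X = (α, β) x S^n with the metric dr^2 + φ(r)^2 g_0, where g_0 is the round metric of S^n, for
instance Euclidean space (φ(r) = r), hyperbolic space (sinh r), the open hemisphere (sin r).
A function `r` on RP^n is a function on R^(1+Q) without the origin with `r (c • x) = r x` for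
`c ≠ 0`. H is the hypersurface {(r(x), x)} of X. It is symmetric under (r, x) -> (r, -x).
-/

open MeasureTheory Set

noncomputable section

namespace Pool.Agent.Work.MP_02f065_gt.Hyp

open Pool.Agent.Work.MP_02f065_gt.RPn

/-- Hypotheses on the ambient space and on the function `r`: both are of class C^2, `φ` is positive
and increasing on the interval `(α, β)`, which contains the values of `r`, and the radial curvature
`-φ''/φ` is nonpositive or constant. -/
structure IsGraph {ι : Type} [Fintype ι] (φ : ℝ → ℝ) (α β : ℝ) (r : E ι → ℝ) : Prop where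
  smooth : ContDiffOn ℝ 2 φ (Ioo α β)
  pos : ∀ s ∈ Ioo α β, 0 < φ s
  incr : ∀ s ∈ Ioo α β, 0 < deriv φ s
  curv : (∀ s ∈ Ioo α β, 0 ≤ deriv (deriv φ) s) ∨
    ∃ κ : ℝ, ∀ s ∈ Ioo α β, deriv (deriv φ) s = -(κ * φ s)
  diff : ContDiffOn ℝ 2 r {x | x ≠ 0}
  hom : ∀ (c : ℝ) (x : E ι), c ≠ 0 → r (c • x) = r x
  range : ∀ x : E ι, ‖x‖ = 1 → r x ∈ Ioo α β

/-- The metric φ(r)^2 g_0 + dr^2 induced on H, in terms of tangent vectors of S^n. -/
def induced {ι : Type} [Fintype ι] (φ : ℝ → ℝ) (r : E ι → ℝ) : RPn.Field ι := fun x v w =>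
  φ (r x) ^ 2 * inner ℝ v w + fderiv ℝ r x v * fderiv ℝ r x w

/-- The second fundamental form of H with respect to the inner normal (positive for spheres
r = const), on the vectors of H over the tangent vectors `v`, `w` of S^n, multiplied by the
positive function sqrt (φ(r)^2 + |grad r|^2). -/
def secondForm {ι : Type} [Fintype ι] (φ : ℝ → ℝ) (r : E ι → ℝ) : RPn.Field ι := fun x v w =>
  deriv φ (r x) * (φ (r x) ^ 2 * inner ℝ v w + 2 * (fderiv ℝ r x v * fderiv ℝ r x w)) -
    φ (r x) * fderiv ℝ (fderiv ℝ r) x v w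

/-- At every point the second fundamental form is nonnegative in the direction `e` of the gradient
of `r` and its trace on the orthogonal complement of `e` is nonnegative. Here `e` is a unit
tangent vector of S^n such that the derivative of `r` is 0 in all directions orthogonal to `e`; the
sum is the trace on the tangent space. The condition holds if H is convex. -/
def IsSplitConvex {ι : Type} [Fintype ι] [DecidableEq ι] (φ : ℝ → ℝ) (r : E ι → ℝ) : Prop :=
  ∀ x : E ι, ‖x‖ = 1 → ∃ e : E ι, ‖e‖ = 1 ∧ inner ℝ x e = 0 ∧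
    (∀ w : E ι, inner ℝ x w = 0 → inner ℝ e w = 0 → fderiv ℝ r x w = 0) ∧
    0 ≤ secondForm φ r x e e ∧
    secondForm φ r x e e ≤ ∑ i, secondForm φ r x (tang x (ei i)) (tang x (ei i))

/-- Integral over the unit sphere of R^Q. -/
def sphereInt {Q : ℕ} (h : E (Fin Q) → ℝ) : ℝ :=
  ∫ w : Metric.sphere (0 : E (Fin Q)) 1, h w ∂((volume : Measure (E (Fin Q))).toSphere)

/-- Hypotheses on the metric `g` of RP^n: `g ≥ φ(r)^2 g_0`, and at every point `x` the mean over
the unit tangent vectors `u` of S^n of `sqrt (g(u,u) - φ(r)^2)` is at most the mean of `|dr(u)|`.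
Here `T` is an isometry of R^Q onto the tangent space of S^n at `x`. Both hold if
`φ(r)^2 g_0 ≤ g ≤ φ(r)^2 g_0 + dr^2`. -/
structure IsAdmissible {Q : ℕ} (φ : ℝ → ℝ) (r : E (Ix 1 Q) → ℝ) (g : RPn.Field (Ix 1 Q)) :
    Prop where
  above : ∀ x v : E (Ix 1 Q), ‖x‖ = 1 → inner ℝ x v = 0 → φ (r x) ^ 2 * inner ℝ v v ≤ g x v v
  mean : ∀ (x : E (Ix 1 Q)) (T : E (Fin Q) →ₗᵢ[ℝ] E (Ix 1 Q)), ‖x‖ = 1 →
    (∀ w : E (Fin Q), inner ℝ x (T w) = 0) →
    sphereInt (fun w => Real.sqrt (g x (T w) (T w) - φ (r x) ^ 2)) ≤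
      sphereInt (fun w => |fderiv ℝ r x (T w)|)

end Pool.Agent.Work.MP_02f065_gt.Hyp
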