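import Pool.Agent.Work.MP_02f065_gt.Cvx.All6
import Pool.Agent.Work.MP_02f065_gt.Cvx.HypDefs

/-! The theorem for the definitions of `HypDefs.lean`. -/

open MeasureTheory Set

noncomputable section

namespace Pool.Agent.Work.MP_02f065_gt.Hyp

open Pool.Agent.Work.MP_02f065_gt.RPn

theorem isWarp {ι : Type} [Fintype ι] {φ : ℝ → ℝ} {α β : ℝ} {r : E ι → ℝ}
    (h : IsGraph φ α β r) : Cvx.IsWarp φ α β r :=
  ⟨h.smooth, h.pos, h.incr, h.curv, h.diff, h.hom, h.range⟩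

theorem splitPos {ι : Type} [Fintype ι] [DecidableEq ι] {φ : ℝ → ℝ} {r : E ι → ℝ}
    (h : IsSplitConvex φ r) : Cvx.SplitPos (Cvx.second φ r) r := by
  intro x hx
  obtain ⟨e, he, hxe, hw, h1, h2⟩ := h x hx
  exact ⟨e, ⟨hx, he, hxe⟩, hw, h1, h2⟩

theorem main {Q : ℕ} (hQ : 2 ≤ Q) (φ : ℝ → ℝ) (α β : ℝ) (r : E (Ix 1 Q) → ℝ)
    (hr : IsGraph φ α β r) (hc : IsSplitConvex φ r) :
    (IsMetric (induced φ r) ∧ IsAdmissible φ r (induced φ r)) ∧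
    ∀ g : RPn.Field (Ix 1 Q), IsMetric g → IsAdmissible φ r g →
      ∃ (γ : ℝ → E (Ix 1 Q)) (l : ℝ), IsClosedGeodesic g γ l ∧
        (l / Real.pi) ^ Q ≤ vol g / vol (RPn.round : RPn.Field (Ix 1 Q)) := by
  obtain ⟨⟨h1, h2, h3⟩, _⟩ := Cvx.Incl6_holds Q hQ φ α β r (isWarp hr)
  refine ⟨⟨h1, ⟨h2, fun x T hx hT => h3 x T hx hT⟩⟩, ?_⟩
  intro g hg ha
  exact Cvx.main6_holds Q hQ φ α β r (isWarp hr) (splitPos hc) g hg ha.above
    (fun x T hx hT => ha.mean x T hx hT)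

end Pool.Agent.Work.MP_02f065_gt.Hyp
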