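import Pool.Agent.Work.MP_02f065_gt.Cvx.Stmts5

/-!
MP_02f065_gt, block CVX5, item CON5: continuity of `g` and of `bg` on the unit tangent bundle.
-/

open MeasureTheory Set Filter Topology

noncomputable section

namespace Pool.Agent.Work.MP_02f065_gt.Cvx

open Pool.Agent.Work.MP_02f065_gt.RPn

namespace XCON5

variable {ι : Type} [Fintype ι]

lemma sum_left {g : RPn.Field ι} (hg : IsMetric g) (x w : E ι) (s : Finset ι) (c : ι → ℝ)
    (f : ι → E ι) : g x (∑ i ∈ s, c i • f i) w = ∑ i ∈ s, c i * g x (f i) w := by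
  classical
  induction s using Finset.induction_on with
  | empty =>
    have h := hg.smul x 0 w 0
    simp only [zero_smul, zero_mul] at h
    simpa using h
  | insert i s hi ih => rw [Finset.sum_insert hi, Finset.sum_insert hi, hg.add, hg.smul, ih]

lemma expand [DecidableEq ι] {g : RPn.Field ι} (hg : IsMetric g) (x u : E ι) :
    g x u u = ∑ i, ∑ j, u i * (u j * g x (EuclideanSpace.single j 1)
      (EuclideanSpace.single i 1)) := by
  have hu : u = ∑ i, u i • (EuclideanSpace.single i (1 : ℝ) : E ι) := by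
    ext j
    simp [Finset.sum_apply, Pi.single_apply]
  have h1 : g x u u = g x (∑ i, u i • (EuclideanSpace.single i (1 : ℝ) : E ι)) u := by
    rw [← hu]
  rw [h1, sum_left hg]
  refine Finset.sum_congr rfl fun i _ => ?_
  have h2 : g x (EuclideanSpace.single i 1) u =
      ∑ j, u j * g x (EuclideanSpace.single j 1) (EuclideanSpace.single i 1) := by
    rw [hg.symm]
    have h3 : g x u (EuclideanSpace.single i 1) =
        g x (∑ j, u j • (EuclideanSpace.single j (1 : ℝ) : E ι)) (EuclideanSpace.single i 1) := by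
      rw [← hu]
    rw [h3, sum_left hg]
  rw [h2, Finset.mul_sum]

end XCON5

theorem iCON5 : StCon5 := by
  intro ι _ M F a g hF ha hg hB
  classical
  have hm1 : MapsTo (fun z : E ι × E ι => z.1) {z | ON z.1 z.2} {x | x ≠ 0} := by
    intro z hz h0
    have h1 : ‖z.1‖ = 1 := hz.1
    have h0' : z.1 = 0 := h0
    rw [h0', norm_zero] at h1
    exact zero_ne_one h1
  have hms : MapsTo (fun z : E ι × E ι => z.1) {z | ON z.1 z.2}
      (Metric.sphere (0 : E ι) 1) := by
    intro z hz
    have h1 : ‖z.1‖ = 1 := hz.1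
    simpa using h1
  have hfst : ContinuousOn (fun z : E ι × E ι => z.1) {z | ON z.1 z.2} :=
    continuous_fst.continuousOn
  have ca : ContinuousOn (fun z : E ι × E ι => a z.1) {z | ON z.1 z.2} :=
    ha.diff.continuousOn.comp hfst hm1
  have cg : ContinuousOn (fun z : E ι × E ι => g z.1 z.2 z.2) {z | ON z.1 z.2} := by
    have he : (fun z : E ι × E ι => g z.1 z.2 z.2) = fun z : E ι × E ι =>
        ∑ i, ∑ j, z.2 i * (z.2 j * g z.1 (EuclideanSpace.single j 1)
          (EuclideanSpace.single i 1)) := by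
      funext z
      exact XCON5.expand hg z.1 z.2
    rw [he]
    refine continuousOn_finsetSum _ fun i _ => continuousOn_finsetSum _ fun j _ => ?_
    have h1 : ∀ i : ι, ContinuousOn (fun z : E ι × E ι => z.2 i) {z | ON z.1 z.2} := by
      intro i
      have : Continuous (fun z : E ι × E ι => z.2 i) := by fun_prop
      exact this.continuousOn
    exact (h1 i).mul ((h1 j).mul ((hg.cont _ _).comp hfst hms))
  refine ⟨cg, ?_, ?_⟩
  · unfold bg
    exact (cg.sub (ca.pow 2)).sqrt
  · intro x u hxu
    obtain ⟨hx, hu, hi⟩ := hxu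
    obtain ⟨h1, h2⟩ := hB x u hx hi
    have huu : (inner ℝ u u : ℝ) = 1 := by
      rw [real_inner_self_eq_norm_sq, hu]; norm_num
    rw [huu, mul_one] at h1 h2
    refine ⟨Real.sqrt_nonneg _, ?_, ?_⟩
    · unfold bg
      rw [← Real.sqrt_sq_eq_abs]
      refine Real.sqrt_le_sqrt ?_
      nlinarith [h2]
    · unfold bg
      rw [Real.sq_sqrt (by linarith)]
      ring

end Pool.Agent.Work.MP_02f065_gt.Cvx
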