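import Pool.Agent.Work.MP_02f065_gt.Cvx.Stmts

/-!
The power mean inequality (Jensen).
-/

set_option autoImplicit false

open MeasureTheory Set Filter Topology

noncomputable section

namespace Pool.Agent.Work.MP_02f065_gt.Cvx

open Pool.Agent.Work.MP_02f065_gt.RPn

namespace XJEN

theorem cont_inner (F : ℝ × ℝ → ℝ) (hF : Continuous F) :
    Continuous fun ψ : ℝ => ∫ φ in (0 : ℝ)..(2 * Real.pi), F (φ, ψ) := by
  apply intervalIntegral.continuous_parametric_intervalIntegral_of_continuous'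
  exact hF.comp (continuous_snd.prodMk continuous_fst)

theorem swap (F : ℝ × ℝ → ℝ) (hF : Continuous F) :
    ∫ φ in (0 : ℝ)..(2 * Real.pi), ∫ ψ in (0 : ℝ)..(2 * Real.pi), F (φ, ψ) =
      ∫ ψ in (0 : ℝ)..(2 * Real.pi), ∫ φ in (0 : ℝ)..(2 * Real.pi), F (φ, ψ) := by
  have h0 : (0 : ℝ) ≤ 2 * Real.pi := by positivity
  simp only [intervalIntegral.integral_of_le h0]
  refine MeasureTheory.integral_integral_swap (f := fun φ ψ => F (φ, ψ)) ?_
  have h1 : Integrable (fun z : ℝ × ℝ => F z)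
      ((volume.prod volume).restrict (Ioc 0 (2 * Real.pi) ×ˢ Ioc 0 (2 * Real.pi))) := by
    have h2 : IntegrableOn F (Icc 0 (2 * Real.pi) ×ˢ Icc 0 (2 * Real.pi))
        (volume.prod volume) :=
      hF.continuousOn.integrableOn_compact (isCompact_Icc.prod isCompact_Icc)
    exact h2.mono_set (prod_mono Ioc_subset_Icc_self Ioc_subset_Icc_self)
  rw [Measure.prod_restrict]
  exact h1

theorem jensen (a : ℝ → ℝ) (ha : Continuous a) (h : ∀ x, 0 ≤ a x) (n : ℕ) :
    ((1 / (2 * Real.pi)) * ∫ x in (0 : ℝ)..(2 * Real.pi), a x) ^ n ≤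
      (1 / (2 * Real.pi)) * ∫ x in (0 : ℝ)..(2 * Real.pi), (a x) ^ n := by
  have h0 : (0 : ℝ) ≤ 2 * Real.pi := by positivity
  have key := (convexOn_pow n).map_set_average_le (μ := volume)
    (t := Ioc (0 : ℝ) (2 * Real.pi)) (f := a) (by fun_prop) isClosed_Ici
    (by simp [Real.pi_pos]) (by rw [Real.volume_Ioc]; exact ENNReal.ofReal_ne_top)
    (Eventually.of_forall fun x => h x)
    (ha.integrableOn_Ioc) ((ha.pow n).integrableOn_Ioc)
  rw [setAverage_eq, setAverage_eq] at key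
  simp only [smul_eq_mul] at key
  rw [intervalIntegral.integral_of_le h0, intervalIntegral.integral_of_le h0]
  have e : (volume.real (Ioc (0 : ℝ) (2 * Real.pi)))⁻¹ = 1 / (2 * Real.pi) := by
    rw [Real.volume_real_Ioc_of_le h0, sub_zero, one_div]
  rw [e] at key
  exact key

end XJEN

open XJEN in
theorem iJEN : StJen := by
  intro F G n _ hF hG hF0 hFG
  rw [swap F hF, swap G hG]
  have h0 : (0 : ℝ) ≤ 2 * Real.pi := by positivity
  have hpi : (0 : ℝ) < Real.pi := Real.pi_pos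
  obtain ⟨a, ha⟩ : ∃ a : ℝ → ℝ, a = fun ψ => (1 / 4) * ∫ φ in (0 : ℝ)..(2 * Real.pi), F (φ, ψ) :=
    ⟨_, rfl⟩
  obtain ⟨b, hb⟩ : ∃ b : ℝ → ℝ, b = fun ψ => (1 / 4) * ∫ φ in (0 : ℝ)..(2 * Real.pi), G (φ, ψ) :=
    ⟨_, rfl⟩
  have hac : Continuous a := by rw [ha]; exact continuous_const.mul (cont_inner F hF)
  have hbc : Continuous b := by rw [hb]; exact continuous_const.mul (cont_inner G hG)
  have ha0 : ∀ x, 0 ≤ a x := by
    intro x
    rw [ha]
    exact mul_nonneg (by norm_num) (intervalIntegral.integral_nonneg h0 fun φ _ => hF0 _)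
  have hab : ∀ x, a x ^ n ≤ b x := by
    intro x
    rw [ha, hb]
    exact hFG x
  have e1 : (1 / (8 * Real.pi)) * ∫ ψ in (0 : ℝ)..(2 * Real.pi),
      ∫ φ in (0 : ℝ)..(2 * Real.pi), F (φ, ψ) =
      (1 / (2 * Real.pi)) * ∫ ψ in (0 : ℝ)..(2 * Real.pi), a ψ := by
    rw [ha, intervalIntegral.integral_const_mul]
    field_simp
    ring
  have e2 : (1 / (8 * Real.pi)) * ∫ ψ in (0 : ℝ)..(2 * Real.pi),
      ∫ φ in (0 : ℝ)..(2 * Real.pi), G (φ, ψ) =
      (1 / (2 * Real.pi)) * ∫ ψ in (0 : ℝ)..(2 * Real.pi), b ψ := by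
    rw [hb, intervalIntegral.integral_const_mul]
    field_simp
    ring
  rw [e1, e2]
  refine (jensen a hac ha0 n).trans ?_
  refine mul_le_mul_of_nonneg_left ?_ (by positivity)
  exact intervalIntegral.integral_mono_on h0 ((hac.pow n).intervalIntegrable _ _)
    (hbc.intervalIntegrable _ _) fun x _ => hab x

end Pool.Agent.Work.MP_02f065_gt.Cvx
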