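import Pool.Agent.Work.MP_02f065_gt.Cvx.Stmts3

/-!
MP_02f065_gt, block CVX3, item LEN3 (12013): the length of a half great circle.
-/

open MeasureTheory Set Filter Topology

noncomputable section

namespace Pool.Agent.Work.MP_02f065_gt.Cvx

open Pool.Agent.Work.MP_02f065_gt.RPn

namespace XLEN3

variable {ι : Type} [Fintype ι]

/-- The pair of a point of a great circle and of its tangent vector is orthonormal. -/
lemma on_gc {x v : E ι} (h : ON x v) (t : ℝ) : ON (gc x v t) (gd x v t) := by
  obtain ⟨hx, hv, hxv⟩ := h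
  have hvx : inner ℝ v x = (0 : ℝ) := by rw [real_inner_comm]; exact hxv
  have hxx : inner ℝ x x = (1 : ℝ) := by rw [real_inner_self_eq_norm_sq, hx]; norm_num
  have hvv : inner ℝ v v = (1 : ℝ) := by rw [real_inner_self_eq_norm_sq, hv]; norm_num
  have hcs := Real.sin_sq_add_cos_sq t
  have e1 : inner ℝ (gc x v t) (gc x v t) = (1 : ℝ) := by
    simp only [gc, inner_add_left, inner_add_right, real_inner_smul_left, real_inner_smul_right,
      hxx, hvv, hxv, hvx]
    linarith
  have e2 : inner ℝ (gd x v t) (gd x v t) = (1 : ℝ) := by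
    simp only [gd, inner_add_left, inner_add_right, real_inner_smul_left, real_inner_smul_right,
      hxx, hvv, hxv, hvx]
    linarith
  have e3 : inner ℝ (gc x v t) (gd x v t) = (0 : ℝ) := by
    simp only [gc, gd, inner_add_left, inner_add_right, real_inner_smul_left,
      real_inner_smul_right, hxx, hvv, hxv, hvx]
    ring
  refine ⟨?_, ?_, e3⟩
  · rw [real_inner_self_eq_norm_sq] at e1
    nlinarith [norm_nonneg (gc x v t)]
  · rw [real_inner_self_eq_norm_sq] at e2
    nlinarith [norm_nonneg (gd x v t)]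

lemma hasDerivAt_gc (x v : E ι) (t : ℝ) : HasDerivAt (gc x v) (gd x v t) t :=
  ((Real.hasDerivAt_cos t).smul_const x).add ((Real.hasDerivAt_sin t).smul_const v)

omit [Fintype ι] in
lemma gc_pi (x v : E ι) (t : ℝ) : gc x v (t + Real.pi) = -gc x v t := by
  simp [gc, Real.cos_add_pi, Real.sin_add_pi, neg_smul]
  abel

omit [Fintype ι] in
lemma gd_pi (x v : E ι) (t : ℝ) : gd x v (t + Real.pi) = -gd x v t := by
  simp [gd, Real.cos_add_pi, Real.sin_add_pi, neg_smul]
  abel

/-- A continuous function with period `π`. -/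
lemma half {P : ℝ → ℝ} (hP : Continuous P) (h : ∀ t, P (t + Real.pi) = P t) :
    ∫ t in (0 : ℝ)..(2 * Real.pi), P t = 2 * ∫ t in (0 : ℝ)..Real.pi, P t := by
  have h1 : ∫ t in Real.pi..(2 * Real.pi), P t = ∫ t in (0 : ℝ)..Real.pi, P t := by
    have h2 := intervalIntegral.integral_comp_add_right (a := 0) (b := Real.pi) P Real.pi
    rw [zero_add, ← two_mul] at h2
    rw [← h2]
    simp only [h]
  rw [← intervalIntegral.integral_add_adjacent_intervals (hP.intervalIntegrable 0 Real.pi)
    (hP.intervalIntegrable Real.pi (2 * Real.pi)), h1]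
  ring

/-- The derivative of an even function is odd. -/
lemma fderiv_neg_of_even {a : E ι → ℝ} (h : ∀ y, a (-y) = a y) (y w : E ι) :
    fderiv ℝ a (-y) (-w) = fderiv ℝ a y w := by
  have h1 := (ContinuousLinearEquiv.neg ℝ (M := E ι)).comp_right_fderiv (f := a) (x := y)
  have h2 : a ∘ (ContinuousLinearEquiv.neg ℝ (M := E ι)) = a := by
    ext z
    simp [h]
  rw [h2] at h1
  rw [h1]
  simp

end XLEN3

open XLEN3 in
theorem iLEN3 (hS : StSca3) (hK : StCon3) : StLen3 := by
  intro ι _ M L F a hF hA hSys x v hxv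
  have hpi := Real.pi_pos
  obtain ⟨-, -, -, -, hKc⟩ := hK ι M F a hF hA
  obtain ⟨-, -, -, hSc⟩ := hS M F hF
  set f : ℝ → ℝ := fun t => GS 1 F (a (gc x v t)) (fderiv ℝ a (gc x v t) (gd x v t)) with hfdef
  have heven : ∀ y, a (-y) = a y := by
    intro y
    have := hA.hom (-1) y (by norm_num)
    rwa [neg_smul, one_smul] at this
  have hfc : Continuous f := by
    have h1 : Continuous (fun t : ℝ => (gc x v t, gd x v t)) := by
      unfold gc gd
      fun_prop
    exact (hKc 1).comp_continuous h1 (fun t => on_gc hxv t)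
  have hfp : ∀ t, f (t + Real.pi) = f t := by
    intro t
    simp only [hfdef]
    rw [gc_pi, gd_pi, heven, fderiv_neg_of_even heven]
  -- the length element
  have hfl : ∀ t, Real.sqrt (famet F a (gc x v t) (gd x v t) (gd x v t)) = f t := by
    intro t
    obtain ⟨hn1, hn2, hn3⟩ := on_gc hxv t
    have h10 := (hSc (a (gc x v t)) (hA.range _ hn1) (fderiv ℝ a (gc x v t) (gd x v t)))
    obtain ⟨-, -, -, -, -, -, -, -, -, h11⟩ := h10
    simp only [hfdef]
    rw [h11]
    congr 1
    unfold famet
    rw [real_inner_self_eq_norm_sq, hn2]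
    ring
  -- the curve
  have hcd : ∀ t, HasDerivAt (fun s => gc x v (Real.pi * s)) (Real.pi • gd x v (Real.pi * t)) t := by
    intro t
    have ha : HasDerivAt (fun s : ℝ => Real.pi * s) Real.pi t := by
      simpa using (hasDerivAt_id t).const_mul Real.pi
    exact (hasDerivAt_gc x v (Real.pi * t)).scomp t ha
  have hcurve : IsCurve (fun s => gc x v (Real.pi * s)) x (-x) := by
    refine ⟨?_, fun t => (on_gc hxv _).1, ?_, ?_⟩
    · unfold gc
      fun_prop
    · simp [gc]
    · simp [gc]
  have hlen : length (famet F a) (fun s => gc x v (Real.pi * s)) =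
      ∫ φ in (0 : ℝ)..Real.pi, f φ := by
    unfold length
    have e : ∀ t : ℝ, Real.sqrt (famet F a (gc x v (Real.pi * t))
        (deriv (fun s => gc x v (Real.pi * s)) t) (deriv (fun s => gc x v (Real.pi * s)) t)) =
        Real.pi * f (Real.pi * t) := by
      intro t
      rw [← hfl, (hcd t).deriv]
      have e1 : famet F a (gc x v (Real.pi * t)) (Real.pi • gd x v (Real.pi * t))
          (Real.pi • gd x v (Real.pi * t)) = Real.pi ^ 2 *
          famet F a (gc x v (Real.pi * t)) (gd x v (Real.pi * t)) (gd x v (Real.pi * t)) := by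
        unfold famet
        rw [real_inner_smul_left, real_inner_smul_right, map_smul, smul_eq_mul]
        ring
      rw [e1, Real.sqrt_mul (sq_nonneg _), Real.sqrt_sq hpi.le]
    simp only [e]
    rw [intervalIntegral.integral_const_mul, intervalIntegral.mul_integral_comp_mul_left]
    simp
  have hL := hSys x _ hxv.1 hcurve
  rw [hlen] at hL
  refine hL.trans (le_of_eq ?_)
  have hh : ∫ t in (0 : ℝ)..(2 * Real.pi), f t = 2 * ∫ t in (0 : ℝ)..Real.pi, f t := half hfc hfp
  have hgoal : (∫ t in (0 : ℝ)..(2 * Real.pi),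
      GS 1 F (a (gc x v t)) (fderiv ℝ a (gc x v t) (gd x v t))) =
      ∫ t in (0 : ℝ)..(2 * Real.pi), f t := rfl
  rw [hgoal, hh]
  ring

end Pool.Agent.Work.MP_02f065_gt.Cvx
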