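import Pool.Agent.Work.MP_02f065_gt.Cvx.Stmts6

/-!
MP_02f065_gt, block CVX6: the theorem in terms of `a` and `F` from the items.
-/

open MeasureTheory Set Filter Topology

noncomputable section

namespace Pool.Agent.Work.MP_02f065_gt.Cvx

open Pool.Agent.Work.MP_02f065_gt.RPn

namespace XMAINF6

lemma int_one_pos (Q : ℕ) :
    0 < ∫ _y : Metric.sphere (0 : E (Ix 1 Q)) 1, (1 : ℝ)
      ∂((volume : Measure (E (Ix 1 Q))).toSphere) := by
  have : Nonempty (Ix 1 Q) := ⟨Sum.inl 0⟩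
  have : Nontrivial (E (Ix 1 Q)) := by
    refine ⟨⟨EuclideanSpace.single (Sum.inl 0) 1, 0, ?_⟩⟩
    intro h
    have := congrArg (fun z : E (Ix 1 Q) => ‖z‖) h
    simp at this
  rw [integral_const, smul_eq_mul, mul_one]
  rw [Measure.real, ENNReal.toReal_pos_iff]
  constructor
  · rw [Measure.toSphere_apply_univ]
    refine ENNReal.mul_pos ?_ ?_
    · simp
    · exact (Metric.measure_ball_pos volume (0 : E (Ix 1 Q)) one_pos).ne'
  · exact measure_lt_top _ _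

lemma isNorm_norm (ι : Type) [Fintype ι] : IsNorm (fun x : E ι => ‖x‖) where
  tri x y := norm_add_le x y
  hom r x := by
    rw [norm_smul, Real.norm_eq_abs]
  pos x hx := norm_pos_iff.2 hx
  diff := fun x hx => (contDiffAt_norm ℝ hx).contDiffWithinAt

lemma inside_norm (ι : Type) [Fintype ι] : Inside 0 (fun x : E ι => ‖x‖) := by
  intro x hx
  change 0 < ‖x‖ ^ 2 + 0
  rw [hx]
  norm_num

end XMAINF6

theorem iMAINF6 (hJ : StJen6) (hV : StVol6) (hC : StCon6) (hFr : StFr) (hA : StAvg) (hV1 : StVol)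
    (h6 : claimA6) : StMainF6 := by
  intro Q hQ M F a g hF ha hsp hg hab hmb
  have hcard : Fintype.card (Ix 1 Q) = Q + 1 := by
    simp [Fintype.card_sum, add_comm]
  have : Nontrivial (Ix 1 Q) :=
    ⟨⟨Sum.inl 0, Sum.inr ⟨0, by omega⟩, by simp⟩⟩
  obtain ⟨L, hL, hS, γ, hγ⟩ := h6 (Ix 1 Q) g hg
  refine ⟨γ, L, hγ, ?_⟩
  obtain ⟨-, hv2, -, -⟩ := hV1 (Ix 1 Q) (fun x => ‖x‖) 0 (XMAINF6.isNorm_norm _)
    (XMAINF6.inside_norm _) (by rw [hcard]; omega)
  obtain ⟨Fr⟩ := hFr Q hQ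
  let x₀ : E (Ix 1 Q) := EuclideanSpace.single (Sum.inl 0) 1
  let v₀ : E (Ix 1 Q) := EuclideanSpace.single (Sum.inr ⟨0, by omega⟩) 1
  have hx₀ : ‖x₀‖ = 1 := by simp [x₀]
  have hv₀ : ‖v₀‖ = 1 := by simp [v₀]
  have hxv : ON x₀ v₀ := by
    refine ⟨hx₀, hv₀, ?_⟩
    simp [x₀, v₀, EuclideanSpace.inner_single_left]
  have hjen := hJ Q hQ Fr M L F a g hF ha hsp hg hab hmb hL hS x₀ v₀ hxv
  have hvol := hV Q hQ Fr M a g ha hg hab x₀ v₀ hxv
  obtain ⟨-, -, hcont, -⟩ := hC (Ix 1 Q) M a g ha hg hab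
  have havg := hA Q hQ Fr (volDensity g) hcont x₀ hx₀
  have hround : vol (RPn.round : RPn.Field (Ix 1 Q)) =
      (1 / 2) * ∫ _y : Metric.sphere (0 : E (Ix 1 Q)) 1, (1 : ℝ)
      ∂((volume : Measure (E (Ix 1 Q))).toSphere) := by
    unfold vol
    congr 1
    refine integral_congr_ae (Eventually.of_forall fun y => ?_)
    exact hv2 y (by simp)
  have hpos := XMAINF6.int_one_pos Q
  have hle := hjen.trans hvol
  rw [hround, le_div_iff₀ (by positivity)]
  unfold vol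
  rw [← havg]
  nlinarith [mul_le_mul_of_nonneg_left hle hpos.le]

end Pool.Agent.Work.MP_02f065_gt.Cvx
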