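import Pool.Agent.Work.MP_02f065_gt.Cvx.Stmts3

/-!
MP_02f065_gt, block CVX3, item VOL3: the mean of `G_n` is the mean of the volume density.
-/

open MeasureTheory Set Filter Topology

noncomputable section

namespace Pool.Agent.Work.MP_02f065_gt.Cvx

open Pool.Agent.Work.MP_02f065_gt.RPn

namespace XVOL3

/-- Fubini for a bounded function of a random parameter and an angle. -/
theorem fub {Ω : Type} [MeasurableSpace Ω] (μ : Measure Ω) [IsProbabilityMeasure μ]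
    (G : Ω → ℝ → ℝ) (hm : Measurable fun p : Ω × ℝ => G p.1 p.2)
    (C : ℝ) (hC : ∀ ω χ, |G ω χ| ≤ C) :
    ∫ ω, (∫ χ in (0 : ℝ)..(2 * Real.pi), G ω χ) ∂μ =
      ∫ χ in (0 : ℝ)..(2 * Real.pi), (∫ ω, G ω χ ∂μ) := by
  have hpi : (0 : ℝ) ≤ 2 * Real.pi := by positivity
  set ν : Measure ℝ := volume.restrict (Ioc 0 (2 * Real.pi)) with hν
  have : IsFiniteMeasure ν := by
    constructor
    rw [hν, Measure.restrict_apply_univ, Real.volume_Ioc]
    exact ENNReal.ofReal_lt_top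
  have hint : Integrable (fun p : Ω × ℝ => G p.1 p.2) (μ.prod ν) := by
    refine Integrable.of_bound hm.aestronglyMeasurable C (Filter.Eventually.of_forall fun p => ?_)
    rw [Real.norm_eq_abs]
    exact hC _ _
  simp only [intervalIntegral.integral_of_le hpi]
  exact integral_integral_swap hint

theorem ON_map {ι : Type} [Fintype ι] (A : E ι →ₗᵢ[ℝ] E ι) {x v : E ι} (h : ON x v) :
    ON (A x) (A v) := by
  obtain ⟨h1, h2, h3⟩ := h
  refine ⟨by rw [A.norm_map, h1], by rw [A.norm_map, h2], by rw [A.inner_map_map, h3]⟩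

theorem inner_dA {ι : Type} [Fintype ι] (F : ℝ → ℝ) (a : E ι → ℝ) {y u : E ι} (h : ON y u)
    (h0 : fderiv ℝ a y y = 0) (χ : ℝ) :
    inner ℝ (dA F a y) (Real.sin χ • y - Real.cos χ • u) =
      a y * Real.sin χ - F (a y) * fderiv ℝ a y u * Real.cos χ := by
  obtain ⟨h1, h2, h3⟩ := h
  have hyy : inner ℝ y y = 1 := by rw [real_inner_self_eq_norm_sq, h1]; norm_num
  have hg : ∀ w : E ι, inner ℝ (grad a y) w = fderiv ℝ a y w := fun w => by
    rw [grad, InnerProductSpace.toDual_symm_apply]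
  rw [dA, inner_add_left, real_inner_smul_left, real_inner_smul_left, hg, inner_sub_right,
    real_inner_smul_right, real_inner_smul_right, hyy, h3, map_sub, map_smul, map_smul, h0]
  simp only [smul_eq_mul]
  ring

end XVOL3

open XVOL3 in
theorem iVOL3 (hK : StCon3) (hM : StMet3) (hC : StCos3) (hZ : StZon) : StVol3 := by
  classical
  have _ := hK
  intro Q hQ Fr M F a hF hA x v hxv
  let _ := Fr.ms
  have := Fr.prob
  change ∫ ω, GS Q F (a (Fr.A ω x)) (fderiv ℝ a (Fr.A ω x) (Fr.A ω v)) ∂Fr.μ =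
    ∫ ω, a (Fr.A ω x) ^ (Q - 1) * ‖dA F a (Fr.A ω x)‖ ∂Fr.μ
  have hcard : Fintype.card (Ix 1 Q) = Q + 1 := by simp [Ix, add_comm]
  obtain ⟨-, hDx, -, hΨ0, hd⟩ := hM (Ix 1 Q) M F a hF hA (by omega)
  have hcard' : Fintype.card (Ix 1 Q) - 2 = Q - 1 := by omega
  rw [hcard'] at hΨ0
  set Ψ : E (Ix 1 Q) → ℝ := fun y => a y ^ (Q - 1) with hΨd
  set d : E (Ix 1 Q) → E (Ix 1 Q) := dA F a with hdd
  have hΨ : ContinuousOn Ψ (Metric.sphere (0 : E (Ix 1 Q)) 1) := hΨ0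
  -- bounds
  have hK : IsCompact (Metric.sphere (0 : E (Ix 1 Q)) 1) := isCompact_sphere 0 1
  obtain ⟨C1, hC1⟩ := hK.exists_bound_of_continuousOn hΨ
  obtain ⟨C2, hC2⟩ := hK.exists_bound_of_continuousOn hd
  have hx : ‖x‖ = 1 := hxv.1
  have hC1n : 0 ≤ C1 := (norm_nonneg _).trans (hC1 x (by simp [hx]))
  have hC2n : 0 ≤ C2 := (norm_nonneg _).trans (hC2 x (by simp [hx]))
  -- measurable extensions
  have hSm : MeasurableSet (Metric.sphere (0 : E (Ix 1 Q)) 1) := Metric.isClosed_sphere.measurableSet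
  obtain ⟨Ψ', hΨ'm, hΨ'⟩ : ∃ Ψ' : E (Ix 1 Q) → ℝ, Measurable Ψ' ∧ ∀ y, ‖y‖ = 1 → Ψ' y = Ψ y := by
    refine ⟨(Metric.sphere (0 : E (Ix 1 Q)) 1).piecewise Ψ (fun _ => 0),
      hΨ.measurable_piecewise continuousOn_const hSm, fun y hy => ?_⟩
    exact Set.piecewise_eq_of_mem _ _ _ (by simp [hy])
  obtain ⟨d', hd'm, hd'⟩ : ∃ d' : E (Ix 1 Q) → E (Ix 1 Q), Measurable d' ∧
      ∀ y, ‖y‖ = 1 → d' y = d y := by
    refine ⟨(Metric.sphere (0 : E (Ix 1 Q)) 1).piecewise d (fun _ => 0),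
      hd.measurable_piecewise continuousOn_const hSm, fun y hy => ?_⟩
    exact Set.piecewise_eq_of_mem _ _ _ (by simp [hy])
  have hAx := Fr.meas x
  have hAv := Fr.meas v
  -- the function
  set G : Fr.Ω → ℝ → ℝ := fun ω χ =>
    |Real.cos χ| ^ (Q - 1) * (Ψ' (Fr.A ω x) *
      |inner ℝ (d' (Fr.A ω x)) (Real.sin χ • Fr.A ω x - Real.cos χ • Fr.A ω v)|) with hG
  have hGm : Measurable fun p : Fr.Ω × ℝ => G p.1 p.2 := by
    have h1 : Measurable fun p : Fr.Ω × ℝ => Fr.A p.1 x := hAx.comp measurable_fst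
    have h2 : Measurable fun p : Fr.Ω × ℝ => Fr.A p.1 v := hAv.comp measurable_fst
    have h3 : Measurable fun p : Fr.Ω × ℝ => Real.cos p.2 := by fun_prop
    have h4 : Measurable fun p : Fr.Ω × ℝ => Real.sin p.2 := by fun_prop
    have h5 := (hd'm.comp h1).inner ((h4.smul h1).sub (h3.smul h2)) (𝕜 := ℝ)
    exact (h3.abs.pow_const (Q - 1)).mul ((hΨ'm.comp h1).mul h5.abs)
  have hGb : ∀ ω χ, |G ω χ| ≤ 1 * (C1 * (C2 * 2)) := by
    intro ω χ
    obtain ⟨ha, hb, -⟩ := ON_map (Fr.A ω) hxv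
    simp only [hG]
    rw [hΨ' _ ha, hd' _ ha, abs_mul, abs_mul]
    have e1 : |Ψ (Fr.A ω x)| ≤ C1 := hC1 _ (by simp [ha])
    have e2 : |(|Real.cos χ| ^ (Q - 1))| ≤ 1 := by
      rw [abs_of_nonneg (by positivity)]
      exact pow_le_one₀ (abs_nonneg _) (Real.abs_cos_le_one χ)
    have e3 : |(|inner ℝ (d (Fr.A ω x)) (Real.sin χ • Fr.A ω x - Real.cos χ • Fr.A ω v)|)| ≤
        C2 * 2 := by
      rw [abs_abs]
      refine (abs_real_inner_le_norm _ _).trans ?_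
      refine mul_le_mul (hC2 _ (by simp [ha])) ?_ (norm_nonneg _) hC2n
      refine (norm_sub_le _ _).trans ?_
      rw [norm_smul, norm_smul, ha, hb, Real.norm_eq_abs, Real.norm_eq_abs]
      have := Real.abs_cos_le_one χ
      have := Real.abs_sin_le_one χ
      linarith
    refine mul_le_mul e2 ?_ (by positivity) zero_le_one
    exact mul_le_mul e1 e3 (abs_nonneg _) hC1n
  have hfub := fub Fr.μ G hGm _ hGb
  -- the left side
  have hL : ∀ ω, GS Q F (a (Fr.A ω x)) (fderiv ℝ a (Fr.A ω x) (Fr.A ω v)) =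
      (Q / 4 : ℝ) * ∫ χ in (0 : ℝ)..(2 * Real.pi), G ω χ := by
    intro ω
    have hon := ON_map (Fr.A ω) hxv
    have hpos : 0 < a (Fr.A ω x) := (hA.range _ hon.1).1
    have h0 := hC F (a (Fr.A ω x)) (fderiv ℝ a (Fr.A ω x) (Fr.A ω v)) (Q - 1) hpos
    have hQ1 : Q - 1 + 1 = Q := by omega
    have hQ2 : ((Q - 1 : ℕ) : ℝ) + 1 = (Q : ℝ) := by exact_mod_cast hQ1
    rw [hQ1, hQ2] at h0
    rw [← h0, ← intervalIntegral.integral_const_mul]
    congr 1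
    refine intervalIntegral.integral_congr fun χ _ => ?_
    simp only [hG]
    rw [hΨ' _ hon.1, hd' _ hon.1, hdd, inner_dA F a hon (hDx _ hon.1)]
    simp only [hΨd]
    ring
  have hR : ∀ χ, ∫ ω, G ω χ ∂Fr.μ = |Real.cos χ| ^ (Q - 1) *
      ∫ ω, Ψ (Fr.A ω x) * |inner ℝ (d (Fr.A ω x)) (Real.sin χ • Fr.A ω x -
        Real.cos χ • Fr.A ω v)| ∂Fr.μ := by
    intro χ
    rw [← integral_const_mul]
    refine integral_congr_ae (Filter.Eventually.of_forall fun ω => ?_)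
    obtain ⟨ha, hb, -⟩ := ON_map (Fr.A ω) hxv
    simp only [hG]
    rw [hΨ' _ ha, hd' _ ha]
  have hz : (Q : ℝ) * ∫ χ in (0 : ℝ)..(2 * Real.pi), |Real.cos χ| ^ (Q - 1) *
      ∫ ω, Ψ (Fr.A ω x) * |inner ℝ (d (Fr.A ω x)) (Real.sin χ • Fr.A ω x -
        Real.cos χ • Fr.A ω v)| ∂Fr.μ =
    4 * ∫ ω, Ψ (Fr.A ω x) * ‖d (Fr.A ω x)‖ ∂Fr.μ := hZ Q hQ Fr Ψ d hΨ hd x v hxv
  simp_rw [hL, integral_const_mul]
  rw [hfub]
  simp_rw [hR]
  linear_combination (1 / 4 : ℝ) * hz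

end Pool.Agent.Work.MP_02f065_gt.Cvx
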