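import Pool.Agent.Work.MP_02f065_gt.Cvx.Stmts5
import Pool.Agent.Work.MP_02f065_gt.Cvx.I_VOL3

/-!
MP_02f065_gt, block CVX5, item VOL5: the mean of `G_n` is the mean of the volume density.
-/

open MeasureTheory Set Filter Topology

noncomputable section

namespace Pool.Agent.Work.MP_02f065_gt.Cvx

open Pool.Agent.Work.MP_02f065_gt.RPn

namespace XVOL5

theorem Gf_abs (f : ℝ → ℝ) (A : ℝ) {b b' : ℝ} (h : |b| = |b'|) : Gf f A b = Gf f A b' := by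
  unfold Gf
  rw [h]

theorem inner_dG {ι : Type} [Fintype ι] (d y u : E ι) (α : ℝ) (h1 : inner ℝ d y = α) (χ : ℝ) :
    inner ℝ d (Real.sin χ • y - Real.cos χ • u) =
      α * Real.sin χ - inner ℝ d u * Real.cos χ := by
  rw [inner_sub_right, real_inner_smul_right, real_inner_smul_right, h1]
  ring

end XVOL5

open XVOL3 XVOL5 in
theorem iVOL5 (hC5 : StCon5) (hM : StMet5) (hG : StGf5) (hZ : StZon) : StVol5 := by
  classical
  intro Q hQ Fr M F a g hF hA hg hB x v hxv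
  let _ := Fr.ms
  have := Fr.prob
  change ∫ ω, Gf (fun c => (Q : ℝ) * c ^ (Q - 1)) (a (Fr.A ω x))
      (bg a g (Fr.A ω x) (Fr.A ω v)) ∂Fr.μ =
    ∫ ω, a (Fr.A ω x) ^ (Q - 1) * ‖dG a g (Fr.A ω x)‖ ∂Fr.μ
  have hcard : Fintype.card (Ix 1 Q) = Q + 1 := by simp [Ix, add_comm]
  obtain ⟨-, -, hbg⟩ := hC5 (Ix 1 Q) M F a g hF hA hg hB
  obtain ⟨-, hd, hdx, hdu⟩ := hM (Ix 1 Q) M F a g hF hA hg hB (by omega)
  obtain ⟨-, -, hC, -, -⟩ := hG
  set Ψ : E (Ix 1 Q) → ℝ := fun y => a y ^ (Q - 1) with hΨd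
  set d : E (Ix 1 Q) → E (Ix 1 Q) := dG a g with hdd
  have hac : ContinuousOn a (Metric.sphere (0 : E (Ix 1 Q)) 1) := by
    refine hA.diff.continuousOn.mono fun y hy => ?_
    have hy1 : ‖y‖ = 1 := by simpa using hy
    intro h0
    rw [h0, norm_zero] at hy1
    norm_num at hy1
  have hΨ : ContinuousOn Ψ (Metric.sphere (0 : E (Ix 1 Q)) 1) := hac.pow _
  -- bounds
  have hK : IsCompact (Metric.sphere (0 : E (Ix 1 Q)) 1) := isCompact_sphere 0 1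
  obtain ⟨C1, hC1⟩ := hK.exists_bound_of_continuousOn hΨ
  obtain ⟨C2, hC2⟩ := hK.exists_bound_of_continuousOn hd
  have hx : ‖x‖ = 1 := hxv.1
  have hC1n : 0 ≤ C1 := (norm_nonneg _).trans (hC1 x (by simp [hx]))
  have hC2n : 0 ≤ C2 := (norm_nonneg _).trans (hC2 x (by simp [hx]))
  -- measurable extensions
  have hSm : MeasurableSet (Metric.sphere (0 : E (Ix 1 Q)) 1) := Metric.isClosed_sphere.measurableSet
  obtain ⟨Ψ', hΨ'm, hΨ'⟩ : ∃ Ψ' : E (Ix 1 Q) → ℝ, Measurable Ψ' ∧ ∀ y, ‖y‖ = 1 → Ψ' y = Ψ y := by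
    refine ⟨(Metric.sphere (0 : E (Ix 1 Q)) 1).piecewise Ψ (fun _ => 0),
      hΨ.measurable_piecewise continuousOn_const hSm, fun y hy => ?_⟩
    exact Set.piecewise_eq_of_mem _ _ _ (by simp [hy])
  obtain ⟨d', hd'm, hd'⟩ : ∃ d' : E (Ix 1 Q) → E (Ix 1 Q), Measurable d' ∧
      ∀ y, ‖y‖ = 1 → d' y = d y := by
    refine ⟨(Metric.sphere (0 : E (Ix 1 Q)) 1).piecewise d (fun _ => 0),
      hd.measurable_piecewise continuousOn_const hSm, fun y hy => ?_⟩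
    exact Set.piecewise_eq_of_mem _ _ _ (by simp [hy])
  have hAx := Fr.meas x
  have hAv := Fr.meas v
  -- the function
  set G : Fr.Ω → ℝ → ℝ := fun ω χ =>
    |Real.cos χ| ^ (Q - 1) * (Ψ' (Fr.A ω x) *
      |inner ℝ (d' (Fr.A ω x)) (Real.sin χ • Fr.A ω x - Real.cos χ • Fr.A ω v)|) with hG
  have hGm : Measurable fun p : Fr.Ω × ℝ => G p.1 p.2 := by
    have h1 : Measurable fun p : Fr.Ω × ℝ => Fr.A p.1 x := hAx.comp measurable_fst
    have h2 : Measurable fun p : Fr.Ω × ℝ => Fr.A p.1 v := hAv.comp measurable_fst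
    have h3 : Measurable fun p : Fr.Ω × ℝ => Real.cos p.2 := by fun_prop
    have h4 : Measurable fun p : Fr.Ω × ℝ => Real.sin p.2 := by fun_prop
    have h5 := (hd'm.comp h1).inner ((h4.smul h1).sub (h3.smul h2)) (𝕜 := ℝ)
    exact (h3.abs.pow_const (Q - 1)).mul ((hΨ'm.comp h1).mul h5.abs)
  have hGb : ∀ ω χ, |G ω χ| ≤ 1 * (C1 * (C2 * 2)) := by
    intro ω χ
    obtain ⟨ha, hb, -⟩ := ON_map (Fr.A ω) hxv
    simp only [hG]
    rw [hΨ' _ ha, hd' _ ha, abs_mul, abs_mul]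
    have e1 : |Ψ (Fr.A ω x)| ≤ C1 := hC1 _ (by simp [ha])
    have e2 : |(|Real.cos χ| ^ (Q - 1))| ≤ 1 := by
      rw [abs_of_nonneg (by positivity)]
      exact pow_le_one₀ (abs_nonneg _) (Real.abs_cos_le_one χ)
    have e3 : |(|inner ℝ (d (Fr.A ω x)) (Real.sin χ • Fr.A ω x - Real.cos χ • Fr.A ω v)|)| ≤
        C2 * 2 := by
      rw [abs_abs]
      refine (abs_real_inner_le_norm _ _).trans ?_
      refine mul_le_mul (hC2 _ (by simp [ha])) ?_ (norm_nonneg _) hC2n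
      refine (norm_sub_le _ _).trans ?_
      rw [norm_smul, norm_smul, ha, hb, Real.norm_eq_abs, Real.norm_eq_abs]
      have := Real.abs_cos_le_one χ
      have := Real.abs_sin_le_one χ
      linarith
    refine mul_le_mul e2 ?_ (by positivity) zero_le_one
    exact mul_le_mul e1 e3 (abs_nonneg _) hC1n
  have hfub := fub Fr.μ G hGm _ hGb
  -- the left side
  have hL : ∀ ω, Gf (fun c => (Q : ℝ) * c ^ (Q - 1)) (a (Fr.A ω x))
      (bg a g (Fr.A ω x) (Fr.A ω v)) = (Q / 4 : ℝ) * ∫ χ in (0 : ℝ)..(2 * Real.pi), G ω χ := by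
    intro ω
    have hon := ON_map (Fr.A ω) hxv
    have hpos : 0 < a (Fr.A ω x) := (hA.range _ hon.1).1
    have h0 := hC (Q - 1) (a (Fr.A ω x)) (inner ℝ (d (Fr.A ω x)) (Fr.A ω v)) hpos
    have hQ1 : Q - 1 + 1 = Q := by omega
    have hQ2 : ((Q - 1 : ℕ) : ℝ) + 1 = (Q : ℝ) := by exact_mod_cast hQ1
    rw [hQ2] at h0
    have habs : |bg a g (Fr.A ω x) (Fr.A ω v)| =
        |(inner ℝ (d (Fr.A ω x)) (Fr.A ω v) : ℝ)| := by
      rw [hdd, hdu _ _ hon, abs_of_nonneg (hbg _ _ hon).1]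
    rw [Gf_abs _ _ habs, ← h0, ← intervalIntegral.integral_const_mul]
    rw [← intervalIntegral.integral_const_mul, ← intervalIntegral.integral_const_mul]
    refine intervalIntegral.integral_congr fun χ _ => ?_
    simp only [hG]
    rw [hΨ' _ hon.1, hd' _ hon.1, inner_dG _ _ _ _ (hdx _ hon.1)]
    simp only [hΨd]
    ring
  have hR : ∀ χ, ∫ ω, G ω χ ∂Fr.μ = |Real.cos χ| ^ (Q - 1) *
      ∫ ω, Ψ (Fr.A ω x) * |inner ℝ (d (Fr.A ω x)) (Real.sin χ • Fr.A ω x -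
        Real.cos χ • Fr.A ω v)| ∂Fr.μ := by
    intro χ
    rw [← integral_const_mul]
    refine integral_congr_ae (Filter.Eventually.of_forall fun ω => ?_)
    obtain ⟨ha, hb, -⟩ := ON_map (Fr.A ω) hxv
    simp only [hG]
    rw [hΨ' _ ha, hd' _ ha]
  have hz : (Q : ℝ) * ∫ χ in (0 : ℝ)..(2 * Real.pi), |Real.cos χ| ^ (Q - 1) *
      ∫ ω, Ψ (Fr.A ω x) * |inner ℝ (d (Fr.A ω x)) (Real.sin χ • Fr.A ω x -
        Real.cos χ • Fr.A ω v)| ∂Fr.μ =
    4 * ∫ ω, Ψ (Fr.A ω x) * ‖d (Fr.A ω x)‖ ∂Fr.μ := hZ Q hQ Fr Ψ d hΨ hd x v hxv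
  simp_rw [hL, integral_const_mul]
  rw [hfub]
  simp_rw [hR]
  linear_combination (1 / 4 : ℝ) * hz

end Pool.Agent.Work.MP_02f065_gt.Cvx
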