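import Pool.Agent.Work.MP_02f065_gt.Cvx.Defs3

/-!
MP_02f065_gt, block CVX3: statements of the items.
-/

open MeasureTheory Set Filter Topology

noncomputable section

namespace Pool.Agent.Work.MP_02f065_gt.Cvx

open Pool.Agent.Work.MP_02f065_gt.RPn

/-! ### Calculus -/

/-- The region of the parameters `(k, χ)`. -/
def Reg (M : ℝ) : Set (ℝ × ℝ) :=
  {z | 0 < z.1 ∧ z.2 ∈ Ioo (-(Real.pi / 2)) (Real.pi / 2) ∧ z.1 / Real.cos z.2 < M}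

/-- Derivatives of `∫ τ in 0..χ, F (k / cos τ) w τ`. -/
def StDer3 : Prop := ∀ (M : ℝ) (F w : ℝ → ℝ), ContDiffOn ℝ 1 F (Ioo 0 M) →
  ContinuousOn w (Ioo (-(Real.pi / 2)) (Real.pi / 2)) →
  (∀ (k χ : ℝ → ℝ) (k' χ' t : ℝ), HasDerivAt k k' t → HasDerivAt χ χ' t → (k t, χ t) ∈ Reg M →
    HasDerivAt (fun s => ∫ τ in (0 : ℝ)..(χ s), F (k s / Real.cos τ) * w τ)
      (F (k t / Real.cos (χ t)) * w (χ t) * χ' +
        k' * ∫ τ in (0 : ℝ)..(χ t), deriv F (k t / Real.cos τ) / Real.cos τ * w τ) t) ∧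
  ContinuousOn (fun z : ℝ × ℝ => ∫ τ in (0 : ℝ)..z.2, F (z.1 / Real.cos τ) * w τ) (Reg M) ∧
  ContinuousOn (fun z : ℝ × ℝ => ∫ τ in (0 : ℝ)..z.2,
    deriv F (z.1 / Real.cos τ) / Real.cos τ * w τ) (Reg M)

/-- Integration by parts. -/
def StPar3 : Prop := ∀ (M : ℝ) (F : ℝ → ℝ) (m : ℕ) (k χ : ℝ), ContDiffOn ℝ 1 F (Ioo 0 M) →
  (k, χ) ∈ Reg M →
  k * (∫ τ in (0 : ℝ)..χ, deriv F (k / Real.cos τ) / Real.cos τ * gm m τ) -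
    k * (∫ τ in (0 : ℝ)..χ, deriv F (k / Real.cos τ) / Real.cos τ * 1) +
    m * (∫ τ in (0 : ℝ)..χ, F (k / Real.cos τ) * gm m τ) =
  F (k / Real.cos χ) * (m * Cm m χ / Real.cos χ ^ m)

/-- **The identity along a curve** (Cauchy formulas). -/
def StCur3 : Prop := ∀ (M : ℝ) (F A A1 : ℝ → ℝ) (A2 t : ℝ) (m : ℕ), ContDiffOn ℝ 1 F (Ioo 0 M) →
  (∀ s, HasDerivAt A (A1 s) s) → HasDerivAt A1 A2 t → (∀ s, A s ∈ Ioo 0 M) →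
  HasDerivAt (fun s => kS F (A s) (A1 s) ^ m *
      ∫ τ in (0 : ℝ)..(chS F (A s) (A1 s)), F (kS F (A s) (A1 s) / Real.cos τ) * gm m τ)
    (GS m F (A t) (A1 t) - kS F (A t) (A1 t) ^ m *
      ((A t ^ 2 + (2 * F (A t) ^ 2 - A t * F (A t) * deriv F (A t)) * (A1 t * A1 t) -
        A t * F (A t) ^ 2 * A2) * omS F (A t) (A1 t))) t

/-- Facts about the functions of `(A, s)`. -/
def StSca3 : Prop := ∀ (M : ℝ) (F : ℝ → ℝ), IsF M F →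
  ContinuousOn (fun z : ℝ × ℝ => kS F z.1 z.2) (Ioo 0 M ×ˢ univ) ∧
  ContinuousOn (fun z : ℝ × ℝ => omS F z.1 z.2) (Ioo 0 M ×ˢ univ) ∧
  (∀ m, ContinuousOn (fun z : ℝ × ℝ => GS m F z.1 z.2) (Ioo 0 M ×ˢ univ)) ∧
  ∀ A ∈ Ioo (0 : ℝ) M, ∀ s : ℝ, 0 < kS F A s ∧ kS F A s ≤ A ∧
    (kS F A s, chS F A s) ∈ Reg M ∧ kS F A s / Real.cos (chS F A s) = A ∧
    0 ≤ omS F A s ∧ omS F A (-s) = omS F A s ∧ kS F A (-s) = kS F A s ∧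
    (∀ m, GS m F A (-s) = GS m F A s) ∧
    GS 0 F A s = 1 ∧ GS 1 F A s = Real.sqrt (A ^ 2 + (F A * s) ^ 2)

/-- `G_m` as an integral of absolute values. -/
def StCos3 : Prop := ∀ (F : ℝ → ℝ) (A s : ℝ) (m : ℕ), 0 < A →
  ((m + 1 : ℝ) / 4) * (A ^ m * ∫ χ in (0 : ℝ)..(2 * Real.pi), |Real.cos χ| ^ m *
    |A * Real.sin χ - F A * s * Real.cos χ|) = GS (m + 1) F A s

/-! ### Great circles -/

/-- The functions on the unit tangent bundle are continuous. -/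
def StCon3 : Prop := ∀ (ι : Type) [Fintype ι] (M : ℝ) (F : ℝ → ℝ) (a : E ι → ℝ), IsF M F →
  IsA M a →
  ContinuousOn (fun z : E ι × E ι => fderiv ℝ a z.1 z.2) {z | ON z.1 z.2} ∧
  ContinuousOn (fun z : E ι × E ι => fasec F a z.1 z.2 z.2) {z | ON z.1 z.2} ∧
  ContinuousOn (fun z : E ι × E ι => kS F (a z.1) (fderiv ℝ a z.1 z.2)) {z | ON z.1 z.2} ∧
  ContinuousOn (fun z : E ι × E ι => fD F a z.1 z.2) {z | ON z.1 z.2} ∧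
  ∀ m, ContinuousOn (fun z : E ι × E ι => GS m F (a z.1) (fderiv ℝ a z.1 z.2)) {z | ON z.1 z.2}

/-- The identity integrated over a great circle. -/
def StCir3 : Prop := ∀ (ι : Type) [Fintype ι] (M : ℝ) (F : ℝ → ℝ) (a : E ι → ℝ), IsF M F →
  IsA M a → ∀ (m : ℕ) (x v : E ι), ON x v → ∫ t in (0 : ℝ)..(2 * Real.pi),
    (GS m F (a (gc x v t)) (fderiv ℝ a (gc x v t) (gd x v t)) -
      kS F (a (gc x v t)) (fderiv ℝ a (gc x v t) (gd x v t)) ^ m *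
        fD F a (gc x v t) (gd x v t)) = 0

/-- The length of a half great circle. -/
def StLen3 : Prop := ∀ (ι : Type) [Fintype ι] (M L : ℝ) (F : ℝ → ℝ) (a : E ι → ℝ), IsF M F →
  IsA M a → Sys (famet F a) L → ∀ x v : E ι, ON x v →
  L ≤ (1 / 2) * ∫ t in (0 : ℝ)..(2 * Real.pi),
    GS 1 F (a (gc x v t)) (fderiv ℝ a (gc x v t) (gd x v t))

/-! ### Averages over the frames -/

/-- Invariance under the geodesic flow: a function whose integral over all great circles is at least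
`c` has mean at least `c / (2 pi)`. -/
def StFlo3 : Prop := ∀ Q : ℕ, 2 ≤ Q → ∀ (Fr : Frames (Ix 1 Q))
  (H : E (Ix 1 Q) × E (Ix 1 Q) → ℝ) (c : ℝ), ContinuousOn H {z | ON z.1 z.2} →
  (∀ x v : E (Ix 1 Q), ON x v → c ≤ ∫ t in (0 : ℝ)..(2 * Real.pi), H (gc x v t, gd x v t)) →
  ∀ x v : E (Ix 1 Q), ON x v →
  letI := Fr.ms
  c ≤ 2 * Real.pi * ∫ ω, H (Fr.A ω x, Fr.A ω v) ∂Fr.μ

/-- Disintegration of the frames. -/
def StDis3 : Prop := ∀ Q : ℕ, 2 ≤ Q → ∀ (Fr : Frames (Ix 1 Q))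
  (H : E (Ix 1 Q) × E (Ix 1 Q) → ℝ), ContinuousOn H {z | ON z.1 z.2} →
  ∀ x v : E (Ix 1 Q), ON x v →
  letI := Fr.ms
  (∫ _y : Metric.sphere (0 : E (Ix 1 Q)) 1, (1 : ℝ)
      ∂((volume : Measure (E (Ix 1 Q))).toSphere)) * ∫ ω, H (Fr.A ω x, Fr.A ω v) ∂Fr.μ =
    ∫ ω, ∫ y : Metric.sphere (0 : E (Ix 1 Q)) 1, H (Fr.A ω x, nrm (Fr.A ω x) y)
      ∂((volume : Measure (E (Ix 1 Q))).toSphere) ∂Fr.μ

/-- Positivity in one tangent space. -/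
def StPos3 : Prop := ∀ (ι : Type) [Fintype ι] [DecidableEq ι] (x e : E ι) (B : E ι → E ι → ℝ)
  (f : ℝ → ℝ), ON x e → (∀ v v' w, B (v + v') w = B v w + B v' w) →
  (∀ (r : ℝ) (v w : E ι), B (r • v) w = r * B v w) → (∀ v w, B v w = B w v) →
  Continuous f → (∀ s, 0 ≤ f s) → (∀ s, f (-s) = f s) → 0 ≤ B e e →
  B e e ≤ ∑ i, B (tang x (ei i)) (tang x (ei i)) →
  0 ≤ ∫ y : Metric.sphere (0 : E ι) 1, f (inner ℝ e (nrm x y)) * B (nrm x y) (nrm x y)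
    ∂((volume : Measure (E ι)).toSphere)

/-- Positivity of the means. -/
def StSgn3 : Prop := ∀ Q : ℕ, 2 ≤ Q → ∀ (Fr : Frames (Ix 1 Q)) (M : ℝ) (F : ℝ → ℝ)
  (a : E (Ix 1 Q) → ℝ) (p : ℝ → ℝ), IsF M F → IsA M a → SplitPos (fasec F a) a →
  Continuous p → (∀ s, 0 ≤ s → 0 ≤ p s) → ∀ x v : E (Ix 1 Q), ON x v →
  letI := Fr.ms
  0 ≤ ∫ ω, p (kS F (a (Fr.A ω x)) (fderiv ℝ a (Fr.A ω x) (Fr.A ω v))) *
    fD F a (Fr.A ω x) (Fr.A ω v) ∂Fr.μ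

/-- The inequality between the means. -/
def StJen3 : Prop := ∀ Q : ℕ, 2 ≤ Q → ∀ (Fr : Frames (Ix 1 Q)) (M L : ℝ) (F : ℝ → ℝ)
  (a : E (Ix 1 Q) → ℝ), IsF M F → IsA M a → SplitPos (fasec F a) a → 0 < L →
  Sys (famet F a) L → ∀ x v : E (Ix 1 Q), ON x v →
  letI := Fr.ms
  (L / Real.pi) ^ Q ≤
    ∫ ω, GS Q F (a (Fr.A ω x)) (fderiv ℝ a (Fr.A ω x) (Fr.A ω v)) ∂Fr.μ

/-- The metric and its volume density. -/
def StMet3 : Prop := ∀ (ι : Type) [Fintype ι] [DecidableEq ι] (M : ℝ) (F : ℝ → ℝ) (a : E ι → ℝ),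
  IsF M F → IsA M a → 2 ≤ Fintype.card ι →
  IsMetric (famet F a) ∧
  (∀ x : E ι, ‖x‖ = 1 → fderiv ℝ a x x = 0) ∧
  (∀ x : E ι, ‖x‖ = 1 → volDensity (famet F a) x =
    a x ^ (Fintype.card ι - 2) * ‖dA F a x‖) ∧
  ContinuousOn (fun x => a x ^ (Fintype.card ι - 2)) (Metric.sphere (0 : E ι) 1) ∧
  ContinuousOn (dA F a) (Metric.sphere (0 : E ι) 1)

/-- The mean of `G_n` is the mean of the volume density. -/
def StVol3 : Prop := ∀ Q : ℕ, 2 ≤ Q → ∀ (Fr : Frames (Ix 1 Q)) (M : ℝ) (F : ℝ → ℝ)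
  (a : E (Ix 1 Q) → ℝ), IsF M F → IsA M a → ∀ x v : E (Ix 1 Q), ON x v →
  letI := Fr.ms
  ∫ ω, GS Q F (a (Fr.A ω x)) (fderiv ℝ a (Fr.A ω x) (Fr.A ω v)) ∂Fr.μ =
    ∫ ω, a (Fr.A ω x) ^ (Q - 1) * ‖dA F a (Fr.A ω x)‖ ∂Fr.μ

/-- The theorem in terms of `a` and `F`. -/
def StMainF3 : Prop := ∀ Q : ℕ, 2 ≤ Q → ∀ (M : ℝ) (F : ℝ → ℝ) (a : E (Ix 1 Q) → ℝ), IsF M F →
  IsA M a → SplitPos (fasec F a) a →
  IsMetric (famet F a) ∧ ∃ (γ : ℝ → E (Ix 1 Q)) (l : ℝ), IsClosedGeodesic (famet F a) γ l ∧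
    (l / Real.pi) ^ Q ≤ vol (famet F a) / vol (RPn.round : RPn.Field (Ix 1 Q))

/-- **The theorem.** -/
def StMain3 : Prop := ∀ Q : ℕ, 2 ≤ Q → ∀ (φ : ℝ → ℝ) (α β : ℝ) (r : E (Ix 1 Q) → ℝ),
  IsGraph φ α β r → SplitPos (second φ r) r →
  IsMetric (warped φ r) ∧ ∃ (γ : ℝ → E (Ix 1 Q)) (l : ℝ), IsClosedGeodesic (warped φ r) γ l ∧
    (l / Real.pi) ^ Q ≤ vol (warped φ r) / vol (RPn.round : RPn.Field (Ix 1 Q))

end Pool.Agent.Work.MP_02f065_gt.Cvx
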