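import Pool.Agent.Work.MP_02f065_gt.Cvx.Stmts3

/-!
MP_02f065_gt, block CVX3: final form. Radial curvature `-φ''/φ` nonpositive or constant.
-/

open MeasureTheory Set Filter Topology

noncomputable section

namespace Pool.Agent.Work.MP_02f065_gt.Cvx

open Pool.Agent.Work.MP_02f065_gt.RPn

/-- `φ` is positive and increasing on the interval `(α, β)`, which contains all values of the
function `r` on RP^n; both are of class `C^2`; the radial curvature `-φ''/φ` of the space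
`dr^2 + φ(r)^2 g_S` is nonpositive or constant. -/
structure IsWarp {ι : Type} [Fintype ι] (φ : ℝ → ℝ) (α β : ℝ) (r : E ι → ℝ) : Prop where
  smooth : ContDiffOn ℝ 2 φ (Ioo α β)
  pos : ∀ s ∈ Ioo α β, 0 < φ s
  incr : ∀ s ∈ Ioo α β, 0 < deriv φ s
  curv : (∀ s ∈ Ioo α β, 0 ≤ deriv (deriv φ) s) ∨
    ∃ κ : ℝ, ∀ s ∈ Ioo α β, deriv (deriv φ) s = -(κ * φ s)
  diff : ContDiffOn ℝ 2 r {x | x ≠ 0}
  hom : ∀ (c : ℝ) (x : E ι), c ≠ 0 → r (c • x) = r x
  range : ∀ x : E ι, ‖x‖ = 1 → r x ∈ Ioo α β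

/-- No conjugate points in the spaces of constant curvature (with a cone point). -/
def StNck3 : Prop := ∀ (κ lam M : ℝ), 0 < κ → (∀ s ∈ Ioo (0 : ℝ) M, 0 < lam - κ * s ^ 2) →
  IsF M (fun s => 1 / Real.sqrt (lam - κ * s ^ 2))

/-- **The theorem**, final form. -/
def StMain4 : Prop := ∀ Q : ℕ, 2 ≤ Q → ∀ (φ : ℝ → ℝ) (α β : ℝ) (r : E (Ix 1 Q) → ℝ),
  IsWarp φ α β r → SplitPos (second φ r) r →
  IsMetric (warped φ r) ∧ ∃ (γ : ℝ → E (Ix 1 Q)) (l : ℝ), IsClosedGeodesic (warped φ r) γ l ∧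
    (l / Real.pi) ^ Q ≤ vol (warped φ r) / vol (RPn.round : RPn.Field (Ix 1 Q))

end Pool.Agent.Work.MP_02f065_gt.Cvx
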