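import Pool.Agent.Work.MP_02f065_gt.Cvx.Stmts4

/-!
MP_02f065_gt, block CVX5: all metrics `g` with `φ(r)^2 g_0 <= g <= φ(r)^2 g_0 + dr^2`.
-/

open MeasureTheory Set Filter Topology

noncomputable section

namespace Pool.Agent.Work.MP_02f065_gt.Cvx

open Pool.Agent.Work.MP_02f065_gt.RPn

section

variable {ι : Type} [Fintype ι]

/-- `g` is between the metrics `φ(r)^2 g_0` and `φ(r)^2 g_0 + dr^2`. -/
def Between (φ : ℝ → ℝ) (r : E ι → ℝ) (g : RPn.Field ι) : Prop :=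
  ∀ x v : E ι, ‖x‖ = 1 → inner ℝ x v = 0 →
    φ (r x) ^ 2 * inner ℝ v v ≤ g x v v ∧
    g x v v ≤ φ (r x) ^ 2 * inner ℝ v v + fderiv ℝ r x v * fderiv ℝ r x v

/-- The same for `a` and `F`. -/
def BetweenF (F : ℝ → ℝ) (a : E ι → ℝ) (g : RPn.Field ι) : Prop :=
  ∀ x v : E ι, ‖x‖ = 1 → inner ℝ x v = 0 →
    a x ^ 2 * inner ℝ v v ≤ g x v v ∧
    g x v v ≤ a x ^ 2 * inner ℝ v v + F (a x) ^ 2 * (fderiv ℝ a x v * fderiv ℝ a x v)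

/-- The part of `g` beyond `a^2 g_0`, at a unit vector `u`. -/
def bg (a : E ι → ℝ) (g : RPn.Field ι) (x u : E ι) : ℝ := Real.sqrt (g x u u - a x ^ 2)

/-- `∫ f(c) max(1, c b / (A sqrt(A^2 - c^2))) dc` over `0 < c < A`, with `c = A cos θ`. -/
def Gf (f : ℝ → ℝ) (A b : ℝ) : ℝ :=
  ∫ θ in (0 : ℝ)..(Real.pi / 2), f (A * Real.cos θ) * max (A * Real.sin θ) (|b| * Real.cos θ)

/-- The truncated weight. -/
def fR (n : ℕ) (R : ℝ) (c : ℝ) : ℝ := n * (min c R ^ (n - 1) - R ^ (n - 1))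

/-- The vector with `‖dG‖` = relative volume density of `g`. -/
def dG (a : E ι → ℝ) (g : RPn.Field ι) (x : E ι) : E ι :=
  a x • x + bg a g x ((‖grad a x‖)⁻¹ • grad a x) • ((‖grad a x‖)⁻¹ • grad a x)

end

/-- Facts about `Gf`. -/
def StGf5 : Prop :=
  (∀ f : ℝ → ℝ, Continuous f → Continuous (fun z : ℝ × ℝ => Gf f z.1 z.2)) ∧
  (∀ (A b : ℝ), 0 < A → Gf (fun _ => 1) A b = Real.sqrt (A ^ 2 + b ^ 2)) ∧
  (∀ (m : ℕ) (A b : ℝ), 0 < A → ((m + 1 : ℝ) / 4) * (A ^ m * ∫ χ in (0 : ℝ)..(2 * Real.pi),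
    |Real.cos χ| ^ m * |A * Real.sin χ - b * Real.cos χ|) =
    Gf (fun c => (m + 1 : ℝ) * c ^ m) A b) ∧
  (∀ (f : ℝ → ℝ) (A b b' : ℝ), Continuous f → 0 < A → |b'| ≤ |b| → (∀ c, 0 ≤ c → f c ≤ 0) →
    Gf f A b ≤ Gf f A b') ∧
  (∀ (n : ℕ) (R A b : ℝ), 1 ≤ n → 0 ≤ R → 0 < A →
    Gf (fR n R) A b ≤ Gf (fun c => (n : ℝ) * c ^ (n - 1)) A b - n * R ^ (n - 1) *
      Gf (fun _ => 1) A b)

/-- The identity for all continuous weights. -/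
def StPol5 : Prop := ∀ Q : ℕ, 2 ≤ Q → ∀ (Fr : Frames (Ix 1 Q)) (M : ℝ) (F : ℝ → ℝ)
  (a : E (Ix 1 Q) → ℝ) (f : ℝ → ℝ), IsF M F → IsA M a → Continuous f →
  ∀ x v : E (Ix 1 Q), ON x v →
  letI := Fr.ms
  ∫ ω, Gf f (a (Fr.A ω x)) (F (a (Fr.A ω x)) * fderiv ℝ a (Fr.A ω x) (Fr.A ω v)) ∂Fr.μ =
    ∫ ω, (∫ c in (0 : ℝ)..(kS F (a (Fr.A ω x)) (fderiv ℝ a (Fr.A ω x) (Fr.A ω v))), f c) *
      fD F a (Fr.A ω x) (Fr.A ω v) ∂Fr.μ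

/-- The truncated inequality. -/
def StTr5 : Prop := ∀ Q : ℕ, 2 ≤ Q → ∀ (Fr : Frames (Ix 1 Q)) (M R : ℝ) (F : ℝ → ℝ)
  (a : E (Ix 1 Q) → ℝ), IsF M F → IsA M a → SplitPos (fasec F a) a → 0 ≤ R →
  ∀ x v : E (Ix 1 Q), ON x v →
  letI := Fr.ms
  0 ≤ (Q - 1 : ℝ) * R ^ Q + ∫ ω, Gf (fR Q R) (a (Fr.A ω x))
    (F (a (Fr.A ω x)) * fderiv ℝ a (Fr.A ω x) (Fr.A ω v)) ∂Fr.μ

/-- Facts about `g`. -/
def StCon5 : Prop := ∀ (ι : Type) [Fintype ι] (M : ℝ) (F : ℝ → ℝ) (a : E ι → ℝ)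
  (g : RPn.Field ι), IsF M F → IsA M a → IsMetric g → BetweenF F a g →
  ContinuousOn (fun z : E ι × E ι => g z.1 z.2 z.2) {z | ON z.1 z.2} ∧
  ContinuousOn (fun z : E ι × E ι => bg a g z.1 z.2) {z | ON z.1 z.2} ∧
  ∀ x u : E ι, ON x u → 0 ≤ bg a g x u ∧ bg a g x u ≤ |F (a x) * fderiv ℝ a x u| ∧
    a x ^ 2 + bg a g x u ^ 2 = g x u u

/-- The length of a half great circle. -/
def StLen5 : Prop := ∀ (ι : Type) [Fintype ι] (g : RPn.Field ι) (L : ℝ), IsMetric g → Sys g L →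
  ContinuousOn (fun z : E ι × E ι => g z.1 z.2 z.2) {z | ON z.1 z.2} →
  ∀ x v : E ι, ON x v → L ≤ (1 / 2) * ∫ t in (0 : ℝ)..(2 * Real.pi),
    Real.sqrt (g (gc x v t) (gd x v t) (gd x v t))

/-- The inequality between the means. -/
def StJen5 : Prop := ∀ Q : ℕ, 2 ≤ Q → ∀ (Fr : Frames (Ix 1 Q)) (M L : ℝ) (F : ℝ → ℝ)
  (a : E (Ix 1 Q) → ℝ) (g : RPn.Field (Ix 1 Q)), IsF M F → IsA M a → SplitPos (fasec F a) a →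
  IsMetric g → BetweenF F a g → 0 < L → Sys g L → ∀ x v : E (Ix 1 Q), ON x v →
  letI := Fr.ms
  (L / Real.pi) ^ Q ≤ ∫ ω, Gf (fun c => (Q : ℝ) * c ^ (Q - 1)) (a (Fr.A ω x))
    (bg a g (Fr.A ω x) (Fr.A ω v)) ∂Fr.μ

/-- The volume density of `g`. -/
def StMet5 : Prop := ∀ (ι : Type) [Fintype ι] [DecidableEq ι] (M : ℝ) (F : ℝ → ℝ) (a : E ι → ℝ)
  (g : RPn.Field ι), IsF M F → IsA M a → IsMetric g → BetweenF F a g → 2 ≤ Fintype.card ι →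
  (∀ x : E ι, ‖x‖ = 1 → volDensity g x = a x ^ (Fintype.card ι - 2) * ‖dG a g x‖) ∧
  ContinuousOn (dG a g) (Metric.sphere (0 : E ι) 1) ∧
  (∀ x : E ι, ‖x‖ = 1 → inner ℝ (dG a g x) x = a x) ∧
  ∀ x u : E ι, ON x u → |(inner ℝ (dG a g x) u : ℝ)| = bg a g x u

/-- The mean of `G_n` is the mean of the volume density. -/
def StVol5 : Prop := ∀ Q : ℕ, 2 ≤ Q → ∀ (Fr : Frames (Ix 1 Q)) (M : ℝ) (F : ℝ → ℝ)
  (a : E (Ix 1 Q) → ℝ) (g : RPn.Field (Ix 1 Q)), IsF M F → IsA M a → IsMetric g →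
  BetweenF F a g → ∀ x v : E (Ix 1 Q), ON x v →
  letI := Fr.ms
  ∫ ω, Gf (fun c => (Q : ℝ) * c ^ (Q - 1)) (a (Fr.A ω x)) (bg a g (Fr.A ω x) (Fr.A ω v)) ∂Fr.μ =
    ∫ ω, a (Fr.A ω x) ^ (Q - 1) * ‖dG a g (Fr.A ω x)‖ ∂Fr.μ

/-- The theorem in terms of `a` and `F`. -/
def StMainF5 : Prop := ∀ Q : ℕ, 2 ≤ Q → ∀ (M : ℝ) (F : ℝ → ℝ) (a : E (Ix 1 Q) → ℝ)
  (g : RPn.Field (Ix 1 Q)), IsF M F → IsA M a → SplitPos (fasec F a) a → IsMetric g →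
  BetweenF F a g → ∃ (γ : ℝ → E (Ix 1 Q)) (l : ℝ), IsClosedGeodesic g γ l ∧
    (l / Real.pi) ^ Q ≤ vol g / vol (RPn.round : RPn.Field (Ix 1 Q))

/-- From `φ` and `r` to `F` and `a`. -/
def StRed5 : Prop := ∀ (ι : Type) [Fintype ι] [DecidableEq ι] [Nonempty ι] (φ : ℝ → ℝ) (α β : ℝ)
  (r : E ι → ℝ), IsWarp φ α β r → ∃ (M : ℝ) (F : ℝ → ℝ), IsF M F ∧ IsA M (fun x => φ (r x)) ∧
    (∀ x : E ι, ‖x‖ = 1 → F (φ (r x)) * deriv φ (r x) = 1 ∧ ∀ v : E ι,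
      fderiv ℝ (fun y => φ (r y)) x v = deriv φ (r x) * fderiv ℝ r x v) ∧
    (SplitPos (second φ r) r → SplitPos (fasec F (fun x => φ (r x))) (fun x => φ (r x)))

/-- **The theorem.** -/
def StMain5 : Prop := ∀ Q : ℕ, 2 ≤ Q → ∀ (φ : ℝ → ℝ) (α β : ℝ) (r : E (Ix 1 Q) → ℝ),
  IsWarp φ α β r → SplitPos (second φ r) r →
  IsMetric (warped φ r) ∧ ∀ g : RPn.Field (Ix 1 Q), IsMetric g → Between φ r g →
    ∃ (γ : ℝ → E (Ix 1 Q)) (l : ℝ), IsClosedGeodesic g γ l ∧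
      (l / Real.pi) ^ Q ≤ vol g / vol (RPn.round : RPn.Field (Ix 1 Q))

end Pool.Agent.Work.MP_02f065_gt.Cvx
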