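import Pool.Agent.Work.MP_02f065_gt.Cvx.Stmts5

/-!
MP_02f065_gt, block CVX6: all metrics `g >= φ(r)^2 g_0` whose excess over `φ(r)^2 g_0` is, in the
mean over the unit tangent vectors, at most the excess of the graph `r = r(x)`.
-/

open MeasureTheory Set Filter Topology

noncomputable section

namespace Pool.Agent.Work.MP_02f065_gt.Cvx

open Pool.Agent.Work.MP_02f065_gt.RPn

/-- Integral over the unit sphere of R^Q. -/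
def smean {Q : ℕ} (h : E (Fin Q) → ℝ) : ℝ :=
  ∫ w : Metric.sphere (0 : E (Fin Q)) 1, h w ∂((volume : Measure (E (Fin Q))).toSphere)

/-- `T` is an isometry of R^Q onto the tangent space of the sphere at `x`. -/
def IsTan {Q : ℕ} (x : E (Ix 1 Q)) (T : E (Fin Q) →ₗᵢ[ℝ] E (Ix 1 Q)) : Prop :=
  ∀ w : E (Fin Q), inner ℝ x (T w) = 0

/-- `g >= φ(r)^2 g_0`. -/
def Above {Q : ℕ} (φ : ℝ → ℝ) (r : E (Ix 1 Q) → ℝ) (g : RPn.Field (Ix 1 Q)) : Prop :=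
  ∀ x v : E (Ix 1 Q), ‖x‖ = 1 → inner ℝ x v = 0 → φ (r x) ^ 2 * inner ℝ v v ≤ g x v v

/-- The mean over the unit tangent vectors `u` at `x` of `sqrt (g(u,u) - φ(r)^2)` is at most the
mean of `|dr(u)|`. -/
def MeanBelow {Q : ℕ} (φ : ℝ → ℝ) (r : E (Ix 1 Q) → ℝ) (g : RPn.Field (Ix 1 Q)) : Prop :=
  ∀ (x : E (Ix 1 Q)) (T : E (Fin Q) →ₗᵢ[ℝ] E (Ix 1 Q)), ‖x‖ = 1 → IsTan x T →
    smean (fun w => Real.sqrt (g x (T w) (T w) - φ (r x) ^ 2)) ≤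
      smean (fun w => |fderiv ℝ r x (T w)|)

/-- `g >= a^2 g_0`. -/
def AboveF {ι : Type} [Fintype ι] (a : E ι → ℝ) (g : RPn.Field ι) : Prop :=
  ∀ x v : E ι, ‖x‖ = 1 → inner ℝ x v = 0 → a x ^ 2 * inner ℝ v v ≤ g x v v

/-- The mean condition in terms of `a` and `F`. -/
def MeanBelowF {Q : ℕ} (F : ℝ → ℝ) (a : E (Ix 1 Q) → ℝ) (g : RPn.Field (Ix 1 Q)) : Prop :=
  ∀ (x : E (Ix 1 Q)) (T : E (Fin Q) →ₗᵢ[ℝ] E (Ix 1 Q)), ‖x‖ = 1 → IsTan x T →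
    smean (fun w => bg a g x (T w)) ≤ smean (fun w => |F (a x) * fderiv ℝ a x (T w)|)

/-- A nonnegative symmetric bilinear form. -/
structure IsForm {n : ℕ} (β : E (Fin n) → E (Fin n) → ℝ) : Prop where
  add : ∀ v v' w : E (Fin n), β (v + v') w = β v w + β v' w
  smul : ∀ (s : ℝ) (v w : E (Fin n)), β (s • v) w = s * β v w
  symm : ∀ v w : E (Fin n), β v w = β w v
  nonneg : ∀ v : E (Fin n), 0 ≤ β v v

/-- Its matrix plus `A^2`. -/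
def fmat {n : ℕ} (A : ℝ) (β : E (Fin n) → E (Fin n) → ℝ) : Matrix (Fin n) (Fin n) ℝ :=
  Matrix.of fun i j => (if i = j then A ^ 2 else 0) +
    β (EuclideanSpace.single i 1) (EuclideanSpace.single j 1)

/-- Another form of `Gf` for the weight `n c^(n-1)`. -/
def StRa6 : Prop := ∀ (n : ℕ) (b : ℝ), 1 ≤ n → 0 ≤ b →
  Gf (fun c => (n : ℝ) * c ^ (n - 1)) 1 b =
    1 + ∫ u in (0 : ℝ)..1, (1 - 1 / Real.sqrt (1 + u ^ 2 * b ^ 2) ^ n) / u ^ 2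

/-- Mean of `<Mw,w>^(-n/2)`, `M = 1 + s β`. -/
def StRb6 : Prop := ∀ (n : ℕ) (β : E (Fin n) → E (Fin n) → ℝ) (s : ℝ), 1 ≤ n → IsForm β → 0 ≤ s →
  smean (fun w : E (Fin n) => 1 / Real.sqrt (1 + s * β w w) ^ n) =
    smean (fun _ : E (Fin n) => (1 : ℝ)) / Real.sqrt (fmat 1 (fun v w => s * β v w)).det

/-- The determinant. -/
def StRc6 : Prop := ∀ (n : ℕ) (β : E (Fin n) → E (Fin n) → ℝ), IsForm β →
  (∀ s : ℝ, 0 ≤ s → 1 ≤ (fmat 1 (fun v w => s * β v w)).det) ∧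
  Continuous (fun s : ℝ => (fmat 1 (fun v w => s * β v w)).det) ∧
  IntervalIntegrable (fun u : ℝ =>
    (1 - 1 / Real.sqrt (fmat 1 (fun v w => u ^ 2 * β v w)).det) / u ^ 2) volume 0 1 ∧
  ∫ u in (0 : ℝ)..1, (1 - 1 / Real.sqrt (fmat 1 (fun v w => u ^ 2 * β v w)).det) / u ^ 2 ≤
    Real.sqrt (fmat 1 β).det - 1

/-- **The determinant inequality**. -/
def StDet6 : Prop := ∀ (n : ℕ) (β : E (Fin n) → E (Fin n) → ℝ) (A : ℝ), 1 ≤ n → IsForm β → 0 < A →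
  smean (fun w : E (Fin n) => Gf (fun c => (n : ℝ) * c ^ (n - 1)) A (Real.sqrt (β w w))) ≤
    smean (fun _ : E (Fin n) => (1 : ℝ)) * Real.sqrt (fmat A β).det

/-- **Domination in the mean** (ellipsoids are zonoids). -/
def StDom6 : Prop := ∀ (n : ℕ) (β : E (Fin n) → E (Fin n) → ℝ) (G : E (Fin n)) (h : ℝ → ℝ),
  1 ≤ n → IsForm β → ConvexOn ℝ (Ici 0) h → MonotoneOn h (Ici 0) → Continuous h →
  smean (fun w => Real.sqrt (β w w)) ≤ smean (fun w => |(inner ℝ G w : ℝ)|) →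
  smean (fun w => h (Real.sqrt (β w w))) ≤ smean (fun w => h |(inner ℝ G w : ℝ)|)

/-- `-Gf f A` is convex and increasing for `f ≤ 0`. -/
def StCv6 : Prop := ∀ (f : ℝ → ℝ) (A : ℝ), Continuous f → 0 < A → (∀ c, 0 ≤ c → f c ≤ 0) →
  ConvexOn ℝ (Ici 0) (fun b => -Gf f A b) ∧ MonotoneOn (fun b => -Gf f A b) (Ici 0) ∧
  Continuous (fun b => -Gf f A b)

/-- Facts about `g`. -/
def StCon6 : Prop := ∀ (ι : Type) [Fintype ι] [DecidableEq ι] (M : ℝ) (a : E ι → ℝ)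
  (g : RPn.Field ι), IsA M a → IsMetric g → AboveF a g →
  ContinuousOn (fun z : E ι × E ι => g z.1 z.2 z.2) {z | ON z.1 z.2} ∧
  ContinuousOn (fun z : E ι × E ι => bg a g z.1 z.2) {z | ON z.1 z.2} ∧
  ContinuousOn (volDensity g) (Metric.sphere (0 : E ι) 1) ∧
  ∀ x u : E ι, ON x u → 0 ≤ bg a g x u ∧ a x ^ 2 + bg a g x u ^ 2 = g x u u

/-- Disintegration of the frames. -/
def StDis6 : Prop := ∀ Q : ℕ, 2 ≤ Q → ∀ (Fr : Frames (Ix 1 Q))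
  (H : E (Ix 1 Q) × E (Ix 1 Q) → ℝ), ContinuousOn H {z | ON z.1 z.2} →
  ∀ (x v : E (Ix 1 Q)) (J : E (Fin Q) →ₗᵢ[ℝ] E (Ix 1 Q)), ON x v → IsTan x J →
  letI := Fr.ms
  smean (fun _ : E (Fin Q) => (1 : ℝ)) * ∫ ω, H (Fr.A ω x, Fr.A ω v) ∂Fr.μ =
    ∫ ω, smean (fun w => H (Fr.A ω x, Fr.A ω (J w))) ∂Fr.μ

/-- The volume density in a tangent frame. -/
def StVd6 : Prop := ∀ (Q : ℕ) (g : RPn.Field (Ix 1 Q)) (x : E (Ix 1 Q))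
  (T : E (Fin Q) →ₗᵢ[ℝ] E (Ix 1 Q)), IsMetric g → ‖x‖ = 1 → IsTan x T →
  volDensity g x = Real.sqrt (Matrix.of fun i j : Fin Q =>
    g x (T (EuclideanSpace.single i 1)) (T (EuclideanSpace.single j 1))).det

/-- The inequality between the means. -/
def StJen6 : Prop := ∀ Q : ℕ, 2 ≤ Q → ∀ (Fr : Frames (Ix 1 Q)) (M L : ℝ) (F : ℝ → ℝ)
  (a : E (Ix 1 Q) → ℝ) (g : RPn.Field (Ix 1 Q)), IsF M F → IsA M a → SplitPos (fasec F a) a →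
  IsMetric g → AboveF a g → MeanBelowF F a g → 0 < L → Sys g L → ∀ x v : E (Ix 1 Q), ON x v →
  letI := Fr.ms
  (L / Real.pi) ^ Q ≤ ∫ ω, Gf (fun c => (Q : ℝ) * c ^ (Q - 1)) (a (Fr.A ω x))
    (bg a g (Fr.A ω x) (Fr.A ω v)) ∂Fr.μ

/-- The mean of `G_n` is at most the mean of the volume density. -/
def StVol6 : Prop := ∀ Q : ℕ, 2 ≤ Q → ∀ (Fr : Frames (Ix 1 Q)) (M : ℝ)
  (a : E (Ix 1 Q) → ℝ) (g : RPn.Field (Ix 1 Q)), IsA M a → IsMetric g → AboveF a g →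
  ∀ x v : E (Ix 1 Q), ON x v →
  letI := Fr.ms
  ∫ ω, Gf (fun c => (Q : ℝ) * c ^ (Q - 1)) (a (Fr.A ω x)) (bg a g (Fr.A ω x) (Fr.A ω v)) ∂Fr.μ ≤
    ∫ ω, volDensity g (Fr.A ω x) ∂Fr.μ

/-- The theorem in terms of `a` and `F`. -/
def StMainF6 : Prop := ∀ Q : ℕ, 2 ≤ Q → ∀ (M : ℝ) (F : ℝ → ℝ) (a : E (Ix 1 Q) → ℝ)
  (g : RPn.Field (Ix 1 Q)), IsF M F → IsA M a → SplitPos (fasec F a) a → IsMetric g →
  AboveF a g → MeanBelowF F a g → ∃ (γ : ℝ → E (Ix 1 Q)) (l : ℝ), IsClosedGeodesic g γ l ∧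
    (l / Real.pi) ^ Q ≤ vol g / vol (RPn.round : RPn.Field (Ix 1 Q))

/-- **The theorem.** -/
def StMain6 : Prop := ∀ Q : ℕ, 2 ≤ Q → ∀ (φ : ℝ → ℝ) (α β : ℝ) (r : E (Ix 1 Q) → ℝ),
  IsWarp φ α β r → SplitPos (second φ r) r → ∀ g : RPn.Field (Ix 1 Q), IsMetric g →
    Above φ r g → MeanBelow φ r g → ∃ (γ : ℝ → E (Ix 1 Q)) (l : ℝ), IsClosedGeodesic g γ l ∧
      (l / Real.pi) ^ Q ≤ vol g / vol (RPn.round : RPn.Field (Ix 1 Q))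

/-- The metrics of the graph and below satisfy the hypotheses. -/
def StIncl6 : Prop := ∀ Q : ℕ, 2 ≤ Q → ∀ (φ : ℝ → ℝ) (α β : ℝ) (r : E (Ix 1 Q) → ℝ),
  IsWarp φ α β r →
  (IsMetric (warped φ r) ∧ Above φ r (warped φ r) ∧ MeanBelow φ r (warped φ r)) ∧
  ∀ g : RPn.Field (Ix 1 Q), IsMetric g → Between φ r g → Above φ r g ∧ MeanBelow φ r g

end Pool.Agent.Work.MP_02f065_gt.Cvx
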